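import Pool.Agent.DbarN.Basic

set_option autoImplicit false

/-!
# Nice functions on `Ω`: smooth up to the fibre boundary
-/

namespace Pool.Agent.DbarN

open MeasureTheory Complex Set
open scoped ComplexConjugate ContDiff

/-! ### geometry of the closed fibre discs -/

theorem nc_isOpen (D : Prof) : IsOpen {p : ℂ × ℂ | p.1 ∈ D.base} :=
  D.isOpen_base.preimage continuous_fst

theorem nc_Ω_sub (D : Prof) : D.Ω ⊆ D.Ωc :=
  fun _ hp => ⟨(D.mem_Ω.1 hp).1, (D.mem_Ω.1 hp).2.le⟩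

theorem nc_lx (D : Prof) : ContDiffOn ℝ ∞ Prof.lx D.base := by
  intro z hz
  have h : ContDiffAt ℝ ∞ (fun z : ℂ => Real.log ‖z‖) z :=
    (contDiffAt_norm ℝ hz.1).log (norm_ne_zero_iff.2 hz.1)
  exact h.contDiffWithinAt

theorem nc_τ_ne (D : Prof) {x : ℝ} (hx : x ∈ Ioo D.a0 D.b0) : D.τ x ≠ 0 := by
  have h := D.norm_τ hx
  have h2 := D.R_pos hx
  intro h0
  rw [h0, norm_zero] at h
  exact absurd h h2.ne

theorem nc_τlx (D : Prof) : ContDiffOn ℝ ∞ (fun z => D.τ (Prof.lx z)) D.base :=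
  D.contDiffOn_τ.comp (nc_lx D) (fun _ hz => hz.2)

theorem nc_clx (D : Prof) : ContDiffOn ℝ ∞ (fun z => D.c (Prof.lx z)) D.base :=
  D.contDiff_c.comp_contDiffOn (nc_lx D)

theorem nc_snd (D : Prof) {p : ℂ × ℂ} (hp : p.1 ∈ D.base) :
    p.2 = D.c (Prof.lx p.1) + D.τ (Prof.lx p.1) * D.om p := by
  have h := nc_τ_ne D hp.2
  unfold Prof.om
  field_simp
  ring

theorem nc_om_mk (D : Prof) {z : ℂ} (hz : z ∈ D.base) (v : ℂ) :
    D.om (z, D.c (Prof.lx z) + D.τ (Prof.lx z) * v) = v := by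
  have h := nc_τ_ne D hz.2
  unfold Prof.om
  simp only
  field_simp
  ring

theorem nc_compact (D : Prof) {K : Set ℂ} (hK : IsCompact K) (hKb : K ⊆ D.base) (ρ : ℝ) :
    IsCompact {p : ℂ × ℂ | p.1 ∈ K ∧ ‖D.om p‖ ≤ ρ} := by
  have h1 : IsCompact (K ×ˢ Metric.closedBall (0 : ℂ) ρ) :=
    hK.prod (isCompact_closedBall 0 ρ)
  have h2 : ContinuousOn (fun q : ℂ × ℂ =>
      ((q.1, D.c (Prof.lx q.1) + D.τ (Prof.lx q.1) * q.2) : ℂ × ℂ))
      (K ×ˢ Metric.closedBall (0 : ℂ) ρ) := by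
    have e1 : MapsTo (fun q : ℂ × ℂ => q.1) (K ×ˢ Metric.closedBall (0 : ℂ) ρ) D.base :=
      fun q hq => hKb hq.1
    have c1 : ContinuousOn (fun q : ℂ × ℂ => D.c (Prof.lx q.1))
        (K ×ˢ Metric.closedBall (0 : ℂ) ρ) :=
      (nc_clx D).continuousOn.comp continuous_fst.continuousOn e1
    have c2 : ContinuousOn (fun q : ℂ × ℂ => D.τ (Prof.lx q.1))
        (K ×ˢ Metric.closedBall (0 : ℂ) ρ) :=
      (nc_τlx D).continuousOn.comp continuous_fst.continuousOn e1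
    exact continuous_fst.continuousOn.prodMk (c1.add (c2.mul continuous_snd.continuousOn))
  have h3 := h1.image_of_continuousOn h2
  convert h3 using 1
  ext p
  constructor
  · rintro ⟨hp, hv⟩
    refine ⟨(p.1, D.om p), ⟨hp, by simpa using hv⟩, ?_⟩
    simp only
    rw [← nc_snd D (hKb hp)]
  · rintro ⟨q, ⟨hq1, hq2⟩, rfl⟩
    refine ⟨hq1, ?_⟩
    rw [nc_om_mk D (hKb hq1)]
    simpa using hq2

theorem nc_bounded (D : Prof) : Bornology.IsBounded D.Ω := by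
  rw [isBounded_iff_forall_norm_le]
  refine ⟨max (Real.exp D.b0) (1 / 4), fun p hp => ?_⟩
  have h1 := (D.mem_Ω.1 hp).1
  have h2 : ‖p.1‖ ≤ Real.exp D.b0 := by
    have h3 : Real.log ‖p.1‖ < D.b0 := h1.2.2
    exact ((Real.log_lt_iff_lt_exp (norm_pos_iff.2 h1.1)).1 h3).le
  rw [Prod.norm_def]
  exact max_le_max h2 (D.norm_snd_le hp)

theorem nc_finite (D : Prof) : volume D.Ω < ⊤ := (nc_bounded D).measure_lt_top

instance nc_isFinite (D : Prof) : IsFiniteMeasure (volume.restrict D.Ω) :=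
  ⟨by rw [Measure.restrict_apply_univ]; exact nc_finite D⟩

/-! ### consequences of `Nice` -/

theorem nc_eq_zero (_D : Prof) {φ : ℂ × ℂ → ℂ} {K : Set ℂ} (hK : IsCompact K)
    (h0 : ∀ p : ℂ × ℂ, p.1 ∉ K → φ p = 0) {p : ℂ × ℂ} (hp : p.1 ∉ K) : fderiv ℝ φ p = 0 := by
  have h1 : φ =ᶠ[nhds p] fun _ => 0 := by
    have h2 : {q : ℂ × ℂ | q.1 ∉ K} ∈ nhds p :=
      (hK.isClosed.isOpen_compl.preimage continuous_fst).mem_nhds hp
    filter_upwards [h2] with q hq using h0 q hq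
  rw [h1.fderiv_eq]
  exact fderiv_const_apply 0

theorem nc_cont_fderiv {φ : ℂ × ℂ → ℂ} {W : Set (ℂ × ℂ)} (hW : IsOpen W)
    (h : ContDiffOn ℝ ∞ φ W) : ContDiffOn ℝ ∞ (fderiv ℝ φ) W :=
  h.fderiv_of_isOpen hW (by exact_mod_cast le_top)

theorem nice_bdd (D : Prof) (φ : ℂ × ℂ → ℂ) (h : Nice D φ) :
    ∃ C, ∀ p ∈ D.Ω, ‖φ p‖ ≤ C ∧ ‖fderiv ℝ φ p‖ ≤ C := by
  obtain ⟨W, hW, hΩW, hφ⟩ := h.smooth
  obtain ⟨K, hKb, hK, h0⟩ := h.supp
  have hc := nc_compact D hK hKb 1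
  have hsub : {p : ℂ × ℂ | p.1 ∈ K ∧ ‖D.om p‖ ≤ 1} ⊆ W := fun p hp => hΩW ⟨hKb hp.1, hp.2⟩
  obtain ⟨C1, hC1⟩ := hc.exists_bound_of_continuousOn (hφ.continuousOn.mono hsub)
  obtain ⟨C2, hC2⟩ := hc.exists_bound_of_continuousOn
    ((nc_cont_fderiv hW hφ).continuousOn.mono hsub)
  refine ⟨max 0 (max C1 C2), fun p hp => ?_⟩
  by_cases hpK : p.1 ∈ K
  · have hp' : p ∈ {p : ℂ × ℂ | p.1 ∈ K ∧ ‖D.om p‖ ≤ 1} := ⟨hpK, (nc_Ω_sub D hp).2⟩
    exact ⟨(hC1 p hp').trans ((le_max_left _ _).trans (le_max_right _ _)),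
      (hC2 p hp').trans ((le_max_right _ _).trans (le_max_right _ _))⟩
  · rw [h0 p hpK, nc_eq_zero D hK h0 hpK, norm_zero, norm_zero]
    exact ⟨le_max_left _ _, le_max_left _ _⟩

theorem nc_contOn (D : Prof) {φ : ℂ × ℂ → ℂ} (h : Nice D φ) : ContinuousOn φ D.Ω := by
  obtain ⟨W, -, hΩW, hφ⟩ := h.smooth
  exact hφ.continuousOn.mono ((nc_Ω_sub D).trans hΩW)

theorem nc_contDiffAt (D : Prof) {φ : ℂ × ℂ → ℂ} (h : Nice D φ) {p : ℂ × ℂ} (hp : p ∈ D.Ωc) :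
    ContDiffAt ℝ ∞ φ p := by
  obtain ⟨W, hW, hΩW, hφ⟩ := h.smooth
  exact hφ.contDiffAt (hW.mem_nhds (hΩW hp))

theorem nc_aesm (D : Prof) {φ : ℂ × ℂ → ℂ} (h : Nice D φ) :
    AEStronglyMeasurable φ (volume.restrict D.Ω) :=
  (nc_contOn D h).aestronglyMeasurable D.isOpen_Ω.measurableSet

theorem nice_memLp (D : Prof) (φ : ℂ × ℂ → ℂ) (h : Nice D φ) :
    MemLp φ 2 (volume.restrict D.Ω) := by
  obtain ⟨C, hC⟩ := nice_bdd D φ h
  refine MemLp.of_bound (nc_aesm D h) C ?_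
  filter_upwards [ae_restrict_mem D.isOpen_Ω.measurableSet] with p hp using (hC p hp).1

theorem nice_mul (D : Prof) (g φ : ℂ × ℂ → ℂ)
    (hg : ∃ W, IsOpen W ∧ D.Ωc ⊆ W ∧ ContDiffOn ℝ ∞ g W) (h : Nice D φ) :
    Nice D (fun p => g p * φ p) := by
  obtain ⟨W, hW, hΩW, hφ⟩ := h.smooth
  obtain ⟨K, hKb, hK, h0⟩ := h.supp
  obtain ⟨W', hW', hΩW', hg⟩ := hg
  refine ⟨⟨W' ∩ W, hW'.inter hW, subset_inter hΩW' hΩW, ?_⟩, K, hKb, hK, fun p hp => ?_⟩
  · exact (hg.mono inter_subset_left).mul (hφ.mono inter_subset_right)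
  · rw [h0 p hp, mul_zero]

theorem nice_conj (D : Prof) (φ : ℂ × ℂ → ℂ) (h : Nice D φ) : Nice D (fun p => conj (φ p)) := by
  obtain ⟨W, hW, hΩW, hφ⟩ := h.smooth
  obtain ⟨K, hKb, hK, h0⟩ := h.supp
  refine ⟨⟨W, hW, hΩW, ?_⟩, K, hKb, hK, fun p hp => ?_⟩
  · exact Complex.conjCLE.contDiff.comp_contDiffOn hφ
  · rw [h0 p hp, map_zero]

theorem nc_add (D : Prof) {φ ψ : ℂ × ℂ → ℂ} (h : Nice D φ) (h' : Nice D ψ) :
    Nice D (fun p => φ p + ψ p) := by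
  obtain ⟨W, hW, hΩW, hφ⟩ := h.smooth
  obtain ⟨K, hKb, hK, h0⟩ := h.supp
  obtain ⟨W', hW', hΩW', hψ⟩ := h'.smooth
  obtain ⟨K', hKb', hK', h0'⟩ := h'.supp
  refine ⟨⟨W ∩ W', hW.inter hW', subset_inter hΩW hΩW', ?_⟩, K ∪ K', union_subset hKb hKb',
    hK.union hK', fun p hp => ?_⟩
  · exact (hφ.mono inter_subset_left).add (hψ.mono inter_subset_right)
  · rw [mem_union, not_or] at hp
    rw [h0 p hp.1, h0' p hp.2, add_zero]

theorem nc_smul (D : Prof) {φ : ℂ × ℂ → ℂ} (a : ℂ) (h : Nice D φ) :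
    Nice D (fun p => a * φ p) :=
  nice_mul D (fun _ => a) φ ⟨univ, isOpen_univ, subset_univ _, contDiffOn_const⟩ h

theorem nc_fderiv (D : Prof) {φ : ℂ × ℂ → ℂ} (h : Nice D φ) (v : ℂ × ℂ) :
    Nice D (fun p => fderiv ℝ φ p v) := by
  obtain ⟨W, hW, hΩW, hφ⟩ := h.smooth
  obtain ⟨K, hKb, hK, h0⟩ := h.supp
  refine ⟨⟨W, hW, hΩW, ?_⟩, K, hKb, hK, fun p hp => ?_⟩
  · exact (nc_cont_fderiv hW hφ).clm_apply contDiffOn_const
  · rw [nc_eq_zero D hK h0 hp]; rfl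

theorem nice_dw (D : Prof) (φ : ℂ × ℂ → ℂ) (h : Nice D φ) :
    Nice D (dw φ) ∧ Nice D (dz φ) ∧ Nice D (dwb φ) ∧ Nice D (dzb φ) := by
  have key : ∀ (v w : ℂ × ℂ) (s : ℂ), Nice D (fun p => (fderiv ℝ φ p v + s * fderiv ℝ φ p w) / 2) := by
    intro v w s
    have h1 := nc_smul D (1 / 2) (nc_add D (nc_fderiv D h v) (nc_smul D s (nc_fderiv D h w)))
    have e : (fun p => (fderiv ℝ φ p v + s * fderiv ℝ φ p w) / 2) =
        fun p => (1 / 2 : ℂ) * (fderiv ℝ φ p v + s * fderiv ℝ φ p w) := by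
      funext p; ring
    rw [e]; exact h1
  refine ⟨?_, ?_, key _ _ I, key _ _ I⟩
  · have e : dw φ = fun p => (fderiv ℝ φ p (0, 1) + (-I) * fderiv ℝ φ p (0, I)) / 2 := by
      funext p; unfold dw; ring
    rw [e]; exact key _ _ _
  · have e : dz φ = fun p => (fderiv ℝ φ p (1, 0) + (-I) * fderiv ℝ φ p (I, 0)) / 2 := by
      funext p; unfold dz; ring
    rw [e]; exact key _ _ _

theorem nc_V_mul (D : Prof) {φ : ℂ × ℂ → ℂ} (h : Nice D φ) : Nice D (fun q => D.V q * φ q) :=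
  nice_mul D D.V φ ⟨{p | p.1 ∈ D.base}, nc_isOpen D, fun _ hp => hp.1, D.contDiffOn_V⟩ h

theorem nc_z_mul (D : Prof) {φ : ℂ × ℂ → ℂ} (h : Nice D φ) : Nice D (fun q => 2 * q.1 * φ q) :=
  nice_mul D (fun q => 2 * q.1) φ ⟨univ, isOpen_univ, subset_univ _,
    (contDiff_const.mul contDiff_fst).contDiffOn⟩ h

theorem nice_Xd (D : Prof) (φ : ℂ × ℂ → ℂ) (h : Nice D φ) : Nice D (Xd D φ) := by
  have h1 := (nice_dw D _ (nc_z_mul D h)).2.1
  have h2 := (nice_dw D _ (nc_V_mul D h)).1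
  have h3 := nc_add D (nc_smul D (-1) h1) h2
  have e : Xd D φ = fun p => -1 * dz (fun q => 2 * q.1 * φ q) p +
      dw (fun q => D.V q * φ q) p := by
    funext p; unfold Xd; ring
  rw [e]; exact h3

/-! ### the test forms -/

theorem nice_tf (D : Prof) (N : ℕ) (y : ℕ → ℂ → ℂ) (hy : Adm D N y) : Nice D (tf D N y) := by
  refine ⟨⟨{p | p.1 ∈ D.base}, nc_isOpen D, fun _ hp => hp.1, ?_⟩,
    ⋃ k ∈ Finset.range N, tsupport (y k), ?_, ?_, ?_⟩
  · have h1 : ContDiffOn ℝ ∞ (fun p : ℂ × ℂ => ∑ k ∈ Finset.range N, y k p.1 * (1 + D.om p) ^ k)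
        {p | p.1 ∈ D.base} := by
      refine ContDiffOn.sum fun k _ => ?_
      exact ((hy.smooth k).comp contDiff_fst).contDiffOn.mul
        ((contDiffOn_const.add D.contDiffOn_om).pow k)
    have h2 : ContDiffOn ℝ ∞ (fun p : ℂ × ℂ => (((‖p.1‖ ^ 2 : ℝ) : ℂ) * D.τ (Prof.lx p.1)))
        {p | p.1 ∈ D.base} := by
      have h3 : ContDiff ℝ ∞ (fun p : ℂ × ℂ => ((‖p.1‖ ^ 2 : ℝ) : ℂ)) :=
        Complex.ofRealCLM.contDiff.comp (contDiff_fst.norm_sq ℝ)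
      exact h3.contDiffOn.mul ((nc_τlx D).comp contDiffOn_fst (fun _ hp => hp))
    have e : tf D N y = fun p : ℂ × ℂ =>
        (∑ k ∈ Finset.range N, y k p.1 * (1 + D.om p) ^ k) *
          (((‖p.1‖ ^ 2 : ℝ) : ℂ) * D.τ (Prof.lx p.1))⁻¹ := by
      funext p; unfold tf; rw [div_eq_mul_inv]
    rw [e]
    refine h1.mul (h2.inv fun p hp => ?_)
    refine mul_ne_zero ?_ (nc_τ_ne D hp.2)
    exact_mod_cast pow_ne_zero 2 (norm_ne_zero_iff.2 hp.1)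
  · exact iUnion₂_subset fun k _ => hy.supp k
  · exact (Finset.range N).isCompact_biUnion fun k _ => hy.compact k
  · intro p hp
    unfold tf
    rw [Finset.sum_eq_zero, zero_div]
    intro k hk
    have h1 : p.1 ∉ tsupport (y k) := fun h => hp (mem_biUnion hk h)
    rw [image_eq_zero_of_notMem_tsupport h1, zero_mul]

/-! ### derivation rules -/

theorem nc_dz_mul {f g : ℂ × ℂ → ℂ} {p : ℂ × ℂ} (hf : DifferentiableAt ℝ f p)
    (hg : DifferentiableAt ℝ g p) :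
    dz (fun q => f q * g q) p = f p * dz g p + g p * dz f p := by
  unfold dz
  rw [fderiv_fun_mul hf hg]
  simp only [add_apply, smul_apply, smul_eq_mul]
  ring

theorem nc_dw_mul {f g : ℂ × ℂ → ℂ} {p : ℂ × ℂ} (hf : DifferentiableAt ℝ f p)
    (hg : DifferentiableAt ℝ g p) :
    dw (fun q => f q * g q) p = f p * dw g p + g p * dw f p := by
  unfold dw
  rw [fderiv_fun_mul hf hg]
  simp only [add_apply, smul_apply, smul_eq_mul]
  ring

theorem nc_dz_add {f g : ℂ × ℂ → ℂ} {p : ℂ × ℂ} (hf : DifferentiableAt ℝ f p)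
    (hg : DifferentiableAt ℝ g p) :
    dz (fun q => f q + g q) p = dz f p + dz g p := by
  unfold dz
  rw [fderiv_fun_add hf hg]
  simp only [add_apply]
  ring

theorem nc_dw_add {f g : ℂ × ℂ → ℂ} {p : ℂ × ℂ} (hf : DifferentiableAt ℝ f p)
    (hg : DifferentiableAt ℝ g p) :
    dw (fun q => f q + g q) p = dw f p + dw g p := by
  unfold dw
  rw [fderiv_fun_add hf hg]
  simp only [add_apply]
  ring

theorem nc_dz_const (a : ℂ) (p : ℂ × ℂ) : dz (fun _ => a) p = 0 := by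
  unfold dz; simp

theorem nc_dw_const (a : ℂ) (p : ℂ × ℂ) : dw (fun _ => a) p = 0 := by
  unfold dw; simp

theorem nc_dz_sum {ι : Type*} (s : Finset ι) {f : ι → ℂ × ℂ → ℂ} {p : ℂ × ℂ}
    (hf : ∀ i ∈ s, DifferentiableAt ℝ (f i) p) :
    dz (fun q => ∑ i ∈ s, f i q) p = ∑ i ∈ s, dz (f i) p := by
  unfold dz
  rw [fderiv_fun_sum hf]
  simp only [sum_apply]
  rw [Finset.mul_sum, ← Finset.sum_sub_distrib, Finset.sum_div]

theorem nc_dw_sum {ι : Type*} (s : Finset ι) {f : ι → ℂ × ℂ → ℂ} {p : ℂ × ℂ}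
    (hf : ∀ i ∈ s, DifferentiableAt ℝ (f i) p) :
    dw (fun q => ∑ i ∈ s, f i q) p = ∑ i ∈ s, dw (f i) p := by
  unfold dw
  rw [fderiv_fun_sum hf]
  simp only [sum_apply]
  rw [Finset.mul_sum, ← Finset.sum_sub_distrib, Finset.sum_div]

theorem nc_dz_pow {f : ℂ × ℂ → ℂ} {p : ℂ × ℂ} (hf : DifferentiableAt ℝ f p) (k : ℕ) :
    dz (fun q => f q ^ k) p = k * f p ^ (k - 1) * dz f p := by
  induction k with
  | zero => simp [nc_dz_const]
  | succ k ih =>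
    have e : (fun q => f q ^ (k + 1)) = fun q => f q ^ k * f q := by
      funext q; rw [pow_succ]
    rw [e, nc_dz_mul (hf.fun_pow k) hf, ih]
    rcases k with _ | k
    · simp
    · simp only [Nat.add_sub_cancel, Nat.cast_add, Nat.cast_one]
      ring

theorem nc_dw_pow {f : ℂ × ℂ → ℂ} {p : ℂ × ℂ} (hf : DifferentiableAt ℝ f p) (k : ℕ) :
    dw (fun q => f q ^ k) p = k * f p ^ (k - 1) * dw f p := by
  induction k with
  | zero => simp [nc_dw_const]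
  | succ k ih =>
    have e : (fun q => f q ^ (k + 1)) = fun q => f q ^ k * f q := by
      funext q; rw [pow_succ]
    rw [e, nc_dw_mul (hf.fun_pow k) hf, ih]
    rcases k with _ | k
    · simp
    · simp only [Nat.add_sub_cancel, Nat.cast_add, Nat.cast_one]
      ring

theorem nc_fderiv_fst {ξ : ℂ → ℂ} {p : ℂ × ℂ} (hξ : DifferentiableAt ℝ ξ p.1) (v : ℂ × ℂ) :
    fderiv ℝ (fun q : ℂ × ℂ => ξ q.1) p v = fderiv ℝ ξ p.1 v.1 := by
  have h := (hξ.hasFDerivAt.comp p (hasFDerivAt_fst (𝕜 := ℝ) (E := ℂ) (F := ℂ) (p := p)))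
  have h2 : fderiv ℝ (fun q : ℂ × ℂ => ξ q.1) p =
      (fderiv ℝ ξ p.1).comp (ContinuousLinearMap.fst ℝ ℂ ℂ) := h.fderiv
  rw [h2]; rfl

theorem nc_dz_fst {ξ : ℂ → ℂ} {p : ℂ × ℂ} (hξ : DifferentiableAt ℝ ξ p.1) :
    dz (fun q : ℂ × ℂ => ξ q.1) p = DZ ξ p.1 := by
  unfold dz DZ
  rw [nc_fderiv_fst hξ, nc_fderiv_fst hξ]

theorem nc_dw_fst {ξ : ℂ → ℂ} {p : ℂ × ℂ} (hξ : DifferentiableAt ℝ ξ p.1) :
    dw (fun q : ℂ × ℂ => ξ q.1) p = 0 := by
  unfold dw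
  rw [nc_fderiv_fst hξ, nc_fderiv_fst hξ]
  simp

theorem nc_dwb_fst {ξ : ℂ → ℂ} {p : ℂ × ℂ} (hξ : DifferentiableAt ℝ ξ p.1) :
    dwb (fun q : ℂ × ℂ => ξ q.1) p = 0 := by
  unfold dwb
  rw [nc_fderiv_fst hξ, nc_fderiv_fst hξ]
  simp

theorem nc_DZ_id (z : ℂ) : DZ (fun z => z) z = 1 := by
  unfold DZ
  rw [fderiv_fun_id]
  simp only [ContinuousLinearMap.coe_id', id_eq, I_mul_I]
  norm_num

/-- derivative of `log |z|` -/
theorem nc_lx_hasFDerivAt {z : ℂ} (hz : z ≠ 0) :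
    HasFDerivAt Prof.lx ((‖z‖ ^ 2)⁻¹ • (innerSL ℝ z)) z := by
  have h1 : HasFDerivAt (fun z : ℂ => ‖z‖ ^ 2) (2 • (innerSL ℝ z)) z :=
    (hasStrictFDerivAt_norm_sq z).hasFDerivAt
  have hz2 : ‖z‖ ^ 2 ≠ 0 := pow_ne_zero 2 (norm_ne_zero_iff.2 hz)
  have h2 := (h1.log hz2).const_mul (1 / 2 : ℝ)
  have e : Prof.lx = fun z : ℂ => (1 / 2 : ℝ) * Real.log (‖z‖ ^ 2) := by
    funext z
    unfold Prof.lx
    rw [Real.log_pow]
    push_cast
    ring
  rw [e]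
  refine h2.congr_fderiv ?_
  ext v
  simp
  ring

/-- `2 z ∂_z f(log |z|) = f'(log |z|)` -/
theorem nc_DZ_lx {f : ℝ → ℂ} {f' : ℂ} {z : ℂ} (hz : z ≠ 0) (hf : HasDerivAt f f' (Prof.lx z)) :
    2 * z * DZ (fun z => f (Prof.lx z)) z = f' := by
  have h1 : HasFDerivAt (fun z => f (Prof.lx z))
      ((ContinuousLinearMap.toSpanSingleton ℝ f').comp ((‖z‖ ^ 2)⁻¹ • (innerSL ℝ z))) z :=
    hf.hasFDerivAt.comp z (nc_lx_hasFDerivAt hz)
  unfold DZ
  rw [h1.fderiv]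
  have hz2 : ((‖z‖ ^ 2 : ℝ) : ℂ) ≠ 0 := by
    exact_mod_cast pow_ne_zero 2 (norm_ne_zero_iff.2 hz)
  have hz3 : ((‖z‖ ^ 2 : ℝ) : ℂ) = z * conj z := by
    rw [Complex.mul_conj, Complex.normSq_eq_norm_sq]
  have e1 : (inner ℝ z (1 : ℂ) : ℝ) = z.re := by
    simp [Complex.inner]
  have e2 : (inner ℝ z I : ℝ) = z.im := by
    simp [Complex.inner]
  simp only [ContinuousLinearMap.comp_apply, smul_apply, innerSL_apply_apply,
    ContinuousLinearMap.toSpanSingleton_apply, e1, e2, smul_eq_mul, real_smul]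
  have e3 : (z.re : ℂ) - I * z.im = conj z := by
    apply Complex.ext <;> simp
  push_cast
  push_cast at hz2 hz3
  have e4 : 2 * z * ((((‖z‖ : ℂ) ^ 2)⁻¹ * (z.re : ℂ) * f' -
      I * (((‖z‖ : ℂ) ^ 2)⁻¹ * (z.im : ℂ) * f')) / 2)
      = ((‖z‖ : ℂ) ^ 2)⁻¹ * (z * ((z.re : ℂ) - I * z.im)) * f' := by ring
  rw [e4, e3, ← hz3, inv_mul_cancel₀ hz2, one_mul]

/-- the denominator of the test forms -/
noncomputable def ncE (D : Prof) (z : ℂ) : ℂ := ((‖z‖ ^ 2 : ℝ) : ℂ) * D.τ (Prof.lx z)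

theorem ncE_ne (D : Prof) {z : ℂ} (hz : z ∈ D.base) : ncE D z ≠ 0 := by
  refine mul_ne_zero ?_ (nc_τ_ne D hz.2)
  exact_mod_cast pow_ne_zero 2 (norm_ne_zero_iff.2 hz.1)

theorem ncE_eq {D : Prof} {z : ℂ} (hz : z ≠ 0) :
    ncE D z = ((Real.exp (2 * Prof.lx z) : ℝ) : ℂ) * D.τ (Prof.lx z) := by
  unfold ncE Prof.lx
  congr 2
  rw [two_mul, Real.exp_add, Real.exp_log (norm_pos_iff.2 hz)]
  ring

theorem ncE_smooth (D : Prof) : ContDiffOn ℝ ∞ (ncE D) D.base := by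
  have h3 : ContDiff ℝ ∞ (fun z : ℂ => ((‖z‖ ^ 2 : ℝ) : ℂ)) :=
    Complex.ofRealCLM.contDiff.comp (contDiff_id.norm_sq ℝ)
  exact h3.contDiffOn.mul (nc_τlx D)

theorem ncE_diff (D : Prof) {z : ℂ} (hz : z ∈ D.base) : DifferentiableAt ℝ (ncE D) z :=
  ((ncE_smooth D).contDiffAt (D.isOpen_base.mem_nhds hz)).differentiableAt (by simp)

theorem ncE_DZ (D : Prof) {z : ℂ} (hz : z ∈ D.base) :
    2 * z * DZ (ncE D) z =
      (2 - ((D.μ (Prof.lx z) : ℂ) + I * (D.σ (Prof.lx z) : ℂ))) * ncE D z := by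
  have h1 : HasDerivAt (fun x : ℝ => ((Real.exp (2 * x) : ℝ) : ℂ))
      ((Real.exp (2 * Prof.lx z) * 2 : ℝ) : ℂ) (Prof.lx z) := by
    have h2 : HasDerivAt (fun x : ℝ => Real.exp (2 * x)) (Real.exp (2 * Prof.lx z) * 2)
        (Prof.lx z) := by
      have h3 := ((hasDerivAt_id (Prof.lx z)).const_mul 2).exp
      simpa using h3
    exact h2.ofReal_comp
  have h4 := h1.mul (D.hasDerivAt_τ hz.2)
  have h5 := nc_DZ_lx hz.1 h4
  have e : DZ (ncE D) z = DZ (fun z => ((fun x : ℝ => ((Real.exp (2 * x) : ℝ) : ℂ)) * D.τ)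
      (Prof.lx z)) z := by
    unfold DZ
    have e2 : ncE D =ᶠ[nhds z] fun z => ((fun x : ℝ => ((Real.exp (2 * x) : ℝ) : ℂ)) * D.τ)
      (Prof.lx z) := by
      filter_upwards [D.isOpen_base.mem_nhds hz] with w hw
      rw [ncE_eq hw.1]; rfl
    rw [e2.fderiv_eq]
  rw [e, h5, ncE_eq hz.1]
  push_cast
  ring

theorem nc_om_diff (D : Prof) {p : ℂ × ℂ} (hp : p.1 ∈ D.base) : DifferentiableAt ℝ D.om p :=
  (D.contDiffOn_om.contDiffAt ((nc_isOpen D).mem_nhds hp)).differentiableAt (by simp)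

theorem nc_V_diff (D : Prof) {p : ℂ × ℂ} (hp : p.1 ∈ D.base) : DifferentiableAt ℝ D.V p :=
  (D.contDiffOn_V.contDiffAt ((nc_isOpen D).mem_nhds hp)).differentiableAt (by simp)

theorem nc_dw_V (D : Prof) {p : ℂ × ℂ} (hp : p.1 ∈ D.base) :
    dw D.V p = 2 * ((D.μ (Prof.lx p.1) : ℂ) - I * (D.σ (Prof.lx p.1) : ℂ) * D.om p) := by
  have hdiff : ∀ {ξ : ℂ → ℂ}, ContDiffOn ℝ ∞ ξ D.base →
      DifferentiableAt ℝ (fun q : ℂ × ℂ => ξ q.1) p ∧ DifferentiableAt ℝ ξ p.1 := by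
    intro ξ hξ
    have h1 : DifferentiableAt ℝ ξ p.1 :=
      (hξ.contDiffAt (D.isOpen_base.mem_nhds hp)).differentiableAt (by simp)
    exact ⟨h1.comp p differentiableAt_fst, h1⟩
  have hσ : ContDiffOn ℝ ∞ (fun z => ((D.σ (Prof.lx z) : ℝ) : ℂ)) D.base :=
    Complex.ofRealCLM.contDiff.comp_contDiffOn (D.σsm.comp_contDiffOn (nc_lx D))
  have hμ : ContDiffOn ℝ ∞ (fun z => ((D.μ (Prof.lx z) : ℝ) : ℂ)) D.base :=
    Complex.ofRealCLM.contDiff.comp_contDiffOn (D.contDiffOn_μ.comp (nc_lx D) (fun _ hz => hz.2))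
  have hτ := nc_τlx D
  obtain ⟨s1, s2⟩ := hdiff hσ
  obtain ⟨m1, m2⟩ := hdiff hμ
  obtain ⟨t1, t2⟩ := hdiff hτ
  have o1 := nc_om_diff D hp
  have e : D.V = fun p => (fun q : ℂ × ℂ => D.τ (Prof.lx q.1)) p *
      ((fun q : ℂ × ℂ => (D.σ (Prof.lx q.1) : ℂ)) p * (I * (1 + (-1) * D.om p ^ 2)) +
      (fun q : ℂ × ℂ => (D.μ (Prof.lx q.1) : ℂ)) p * (2 * D.om p)) := by
    funext q
    unfold Prof.V
    ring
  rw [e]
  have d2 : DifferentiableAt ℝ (fun q => 2 * D.om q) p := o1.const_mul 2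
  have d3 : DifferentiableAt ℝ (fun q => (-1) * D.om q ^ 2) p := (o1.fun_pow 2).const_mul (-1)
  have d4 : DifferentiableAt ℝ (fun q => I * (1 + (-1) * D.om q ^ 2)) p :=
    (d3.const_add 1).const_mul I
  rw [nc_dw_mul t1 ((s1.fun_mul d4).fun_add (m1.fun_mul d2)), nc_dw_fst t2,
    nc_dw_add (s1.fun_mul d4) (m1.fun_mul d2), nc_dw_mul s1 d4, nc_dw_mul m1 d2,
    nc_dw_fst s2, nc_dw_fst m2, nc_dw_mul (differentiableAt_const _) (d3.const_add 1),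
    nc_dw_mul (differentiableAt_const _) o1, nc_dw_const, nc_dw_const,
    nc_dw_add (differentiableAt_const _) d3, nc_dw_const,
    nc_dw_mul (differentiableAt_const _) (o1.fun_pow 2), nc_dw_const, nc_dw_pow o1, D.dw_om hp]
  have hτ0 := nc_τ_ne D hp.2
  field_simp
  ring

theorem nc_shift (N : ℕ) (a : ℕ → ℂ) (ha : ∀ k, N ≤ k → a k = 0) (σ μ u : ℂ) :
    ∑ k ∈ Finset.range N, ((u - 1) * (μ - σ * u) * (k * u ^ (k - 1)) +
      (μ - σ * (2 * u - 1)) * u ^ k) * a k =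
    ∑ j ∈ Finset.range (N + 1), ((j : ℂ) + 1) *
      ((μ + σ) * a j - μ * a (j + 1) - σ * (if j = 0 then 0 else a (j - 1))) * u ^ j := by
  have e1 : ∑ j ∈ Finset.range (N + 1), ((j : ℂ) + 1) * ((μ + σ) * a j) * u ^ j =
      ∑ j ∈ Finset.range N, ((j : ℂ) + 1) * ((μ + σ) * a j) * u ^ j := by
    rw [Finset.sum_range_succ, ha N le_rfl]; ring
  have e2 : ∑ j ∈ Finset.range (N + 1), ((j : ℂ) + 1) * (μ * a (j + 1)) * u ^ j =
      ∑ k ∈ Finset.range N, μ * (k * u ^ (k - 1)) * a k := by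
    have h1 := Finset.sum_range_succ' (fun k : ℕ => μ * (k * u ^ (k - 1)) * a k) (N + 1)
    rw [Finset.sum_range_succ, Finset.sum_range_succ, ha N le_rfl, ha (N + 1) (by omega)] at h1
    simp only [mul_zero, add_zero, Nat.cast_zero, zero_mul] at h1
    rw [h1]
    refine Finset.sum_congr rfl fun j _ => ?_
    simp only [Nat.add_sub_cancel, Nat.cast_add, Nat.cast_one]
    ring
  have e3 : ∑ j ∈ Finset.range (N + 1), ((j : ℂ) + 1) *
      (σ * (if j = 0 then 0 else a (j - 1))) * u ^ j =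
      ∑ k ∈ Finset.range N, ((k : ℂ) + 2) * σ * u ^ (k + 1) * a k := by
    rw [Finset.sum_range_succ']
    simp only [if_true, mul_zero, zero_mul, add_zero]
    refine Finset.sum_congr rfl fun j _ => ?_
    simp only [Nat.add_sub_cancel, Nat.cast_add, Nat.cast_one]
    rw [if_neg (by omega)]
    ring
  have e4 : ∑ j ∈ Finset.range (N + 1), ((j : ℂ) + 1) *
      ((μ + σ) * a j - μ * a (j + 1) - σ * (if j = 0 then 0 else a (j - 1))) * u ^ j =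
      ∑ j ∈ Finset.range (N + 1), ((j : ℂ) + 1) * ((μ + σ) * a j) * u ^ j -
      ∑ j ∈ Finset.range (N + 1), ((j : ℂ) + 1) * (μ * a (j + 1)) * u ^ j -
      ∑ j ∈ Finset.range (N + 1), ((j : ℂ) + 1) *
        (σ * (if j = 0 then 0 else a (j - 1))) * u ^ j := by
    rw [← Finset.sum_sub_distrib, ← Finset.sum_sub_distrib]
    refine Finset.sum_congr rfl fun j _ => ?_
    ring
  rw [e4, e1, e2, e3, ← Finset.sum_sub_distrib, ← Finset.sum_sub_distrib]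
  refine Finset.sum_congr rfl fun k _ => ?_
  rcases k with _ | k
  · simp; ring
  · simp only [Nat.add_sub_cancel, Nat.cast_add, Nat.cast_one]
    ring

theorem Xd_tf (D : Prof) (N : ℕ) (y : ℕ → ℂ → ℂ) (hy : Adm D N y) :
    ∀ p ∈ D.Ωc, Xd D (tf D N y) p = tfD D N y p := by
  intro p hpc
  have hp : p.1 ∈ D.base := hpc.1
  have hg : DifferentiableAt ℝ (tf D N y) p :=
    (nc_contDiffAt D (nice_tf D N y hy) hpc).differentiableAt (by simp)
  have hE : DifferentiableAt ℝ (fun q : ℂ × ℂ => ncE D q.1) p :=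
    (ncE_diff D hp).comp p differentiableAt_fst
  have hE0 : ncE D p.1 ≠ 0 := ncE_ne D hp
  have ho := nc_om_diff D hp
  have hu : DifferentiableAt ℝ (fun q => 1 + D.om q) p := ho.const_add 1
  have hyk : ∀ k, DifferentiableAt ℝ (y k) p.1 :=
    fun k => (hy.smooth k).differentiable (by simp) |>.differentiableAt
  have hyk' : ∀ k, DifferentiableAt ℝ (fun q : ℂ × ℂ => y k q.1) p :=
    fun k => (hyk k).comp p differentiableAt_fst
  have hSE : (fun q : ℂ × ℂ => ∑ k ∈ Finset.range N, y k q.1 * (1 + D.om q) ^ k) =ᶠ[nhds p]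
      fun q => ncE D q.1 * tf D N y q := by
    filter_upwards [(nc_isOpen D).mem_nhds hp] with q hq
    have hq0 := ncE_ne D hq
    unfold tf
    change _ = ncE D q.1 * (_ / ncE D q.1)
    rw [mul_div_cancel₀ _ hq0]
  have hS : ∑ k ∈ Finset.range N, y k p.1 * (1 + D.om p) ^ k = ncE D p.1 * tf D N y p :=
    hSE.self_of_nhds
  have hdz : dz (fun q : ℂ × ℂ => ∑ k ∈ Finset.range N, y k q.1 * (1 + D.om q) ^ k) p =
      ncE D p.1 * dz (tf D N y) p + tf D N y p * DZ (ncE D) p.1 := by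
    have h1 : dz (fun q : ℂ × ℂ => ∑ k ∈ Finset.range N, y k q.1 * (1 + D.om q) ^ k) p =
        dz (fun q => ncE D q.1 * tf D N y q) p := by
      unfold dz; rw [hSE.fderiv_eq]
    rw [h1, nc_dz_mul hE hg, nc_dz_fst (ncE_diff D hp)]
  have hdw : dw (fun q : ℂ × ℂ => ∑ k ∈ Finset.range N, y k q.1 * (1 + D.om q) ^ k) p =
      ncE D p.1 * dw (tf D N y) p := by
    have h1 : dw (fun q : ℂ × ℂ => ∑ k ∈ Finset.range N, y k q.1 * (1 + D.om q) ^ k) p =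
        dw (fun q => ncE D q.1 * tf D N y q) p := by
      unfold dw; rw [hSE.fderiv_eq]
    rw [h1, nc_dw_mul hE hg, nc_dw_fst (ncE_diff D hp), mul_zero, add_zero]
  have hdz2 : dz (fun q : ℂ × ℂ => ∑ k ∈ Finset.range N, y k q.1 * (1 + D.om q) ^ k) p =
      ∑ k ∈ Finset.range N, (y k p.1 * (k * (1 + D.om p) ^ (k - 1) * dz D.om p) +
        (1 + D.om p) ^ k * DZ (y k) p.1) := by
    rw [nc_dz_sum _ (fun k _ => (hyk' k).fun_mul (hu.fun_pow k))]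
    refine Finset.sum_congr rfl fun k _ => ?_
    rw [nc_dz_mul (hyk' k) (hu.fun_pow k), nc_dz_fst (hyk k), nc_dz_pow hu,
      nc_dz_add (differentiableAt_const _) ho, nc_dz_const, zero_add]
  have hdw2 : dw (fun q : ℂ × ℂ => ∑ k ∈ Finset.range N, y k q.1 * (1 + D.om q) ^ k) p =
      ∑ k ∈ Finset.range N, (y k p.1 * (k * (1 + D.om p) ^ (k - 1) * dw D.om p)) := by
    rw [nc_dw_sum _ (fun k _ => (hyk' k).fun_mul (hu.fun_pow k))]
    refine Finset.sum_congr rfl fun k _ => ?_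
    rw [nc_dw_mul (hyk' k) (hu.fun_pow k), nc_dw_fst (hyk k), nc_dw_pow hu,
      nc_dw_add (differentiableAt_const _) ho, nc_dw_const, zero_add, mul_zero, add_zero]
  have hX : Xd D (tf D N y) p = -(2 * p.1 * dz (tf D N y) p + tf D N y p * 2) +
      (D.V p * dw (tf D N y) p + tf D N y p * dw D.V p) := by
    unfold Xd
    have d1 : DifferentiableAt ℝ (fun q : ℂ × ℂ => 2 * q.1) p :=
      (differentiableAt_fst).const_mul 2
    have d2 : DifferentiableAt ℝ (fun z : ℂ => 2 * z) p.1 :=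
      (differentiableAt_id).const_mul 2
    rw [nc_dz_mul d1 hg, nc_dw_mul (nc_V_diff D hp) hg]
    have e : dz (fun q : ℂ × ℂ => 2 * q.1) p = 2 := by
      rw [nc_dz_mul (differentiableAt_const _) differentiableAt_fst, nc_dz_const,
        nc_dz_fst (ξ := fun z => z) differentiableAt_id, nc_DZ_id]
      ring
    rw [e]
  have hshift := nc_shift N (fun k => y k p.1) (fun k hk => by rw [hy.zero k hk]; rfl)
    (I * (D.σ (Prof.lx p.1) : ℂ)) (D.μ (Prof.lx p.1) : ℂ) (1 + D.om p)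
  have hτ0 := nc_τ_ne D hp.2
  have hzz := D.dz_om hp
  have hEz := ncE_DZ D hp
  -- the sum side
  have hsum : ∑ j ∈ Finset.range (N + 1), dd D y j p.1 * (1 + D.om p) ^ j =
      ∑ k ∈ Finset.range N, (-2 * p.1 * DZ (y k) p.1 * (1 + D.om p) ^ k) +
      ∑ k ∈ Finset.range N, (((1 + D.om p) - 1) * ((D.μ (Prof.lx p.1) : ℂ) -
        (I * (D.σ (Prof.lx p.1) : ℂ)) * (1 + D.om p)) * (k * (1 + D.om p) ^ (k - 1)) +
      ((D.μ (Prof.lx p.1) : ℂ) - (I * (D.σ (Prof.lx p.1) : ℂ)) * (2 * (1 + D.om p) - 1)) *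
        (1 + D.om p) ^ k) * y k p.1 := by
    rw [hshift]
    have hz0 : ∑ k ∈ Finset.range N, (-2 * p.1 * DZ (y k) p.1 * (1 + D.om p) ^ k) =
        ∑ k ∈ Finset.range (N + 1), (-2 * p.1 * DZ (y k) p.1 * (1 + D.om p) ^ k) := by
      rw [Finset.sum_range_succ, hy.zero N le_rfl]
      have : DZ (0 : ℂ → ℂ) p.1 = 0 := by
        unfold DZ; simp
      rw [this]; ring
    rw [hz0, ← Finset.sum_add_distrib]
    refine Finset.sum_congr rfl fun j _ => ?_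
    unfold dd
    ring
  have hfin : ncE D p.1 * Xd D (tf D N y) p =
      ∑ j ∈ Finset.range (N + 1), dd D y j p.1 * (1 + D.om p) ^ j := by
    rw [hsum, hX, nc_dw_V D hp]
    have a1 : ncE D p.1 * (2 * p.1 * dz (tf D N y) p) =
        2 * p.1 * dz (fun q : ℂ × ℂ => ∑ k ∈ Finset.range N, y k q.1 * (1 + D.om q) ^ k) p -
        (2 - ((D.μ (Prof.lx p.1) : ℂ) + I * (D.σ (Prof.lx p.1) : ℂ))) *
          (∑ k ∈ Finset.range N, y k p.1 * (1 + D.om p) ^ k) := by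
      rw [hdz, hS]
      linear_combination -(tf D N y p) * hEz
    have a2 : ncE D p.1 * (D.V p * dw (tf D N y) p) =
        D.V p * dw (fun q : ℂ × ℂ => ∑ k ∈ Finset.range N, y k q.1 * (1 + D.om q) ^ k) p := by
      rw [hdw]; ring
    have a3 : ncE D p.1 * (-(2 * p.1 * dz (tf D N y) p + tf D N y p * 2) +
        (D.V p * dw (tf D N y) p + tf D N y p *
        (2 * ((D.μ (Prof.lx p.1) : ℂ) - I * (D.σ (Prof.lx p.1) : ℂ) * D.om p)))) =
        -(2 * p.1 * dz (fun q : ℂ × ℂ => ∑ k ∈ Finset.range N, y k q.1 * (1 + D.om q) ^ k) p) +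
        D.V p * dw (fun q : ℂ × ℂ => ∑ k ∈ Finset.range N, y k q.1 * (1 + D.om q) ^ k) p +
        ((D.μ (Prof.lx p.1) : ℂ) - I * (D.σ (Prof.lx p.1) : ℂ) * (2 * (1 + D.om p) - 1)) *
          (∑ k ∈ Finset.range N, y k p.1 * (1 + D.om p) ^ k) := by
      have b1 : ncE D p.1 * (tf D N y p) =
        (∑ k ∈ Finset.range N, y k p.1 * (1 + D.om p) ^ k) := hS.symm
      linear_combination -a1 + a2 + (-2 + (2 * ((D.μ (Prof.lx p.1) : ℂ) -
        I * (D.σ (Prof.lx p.1) : ℂ) * D.om p))) * b1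
    rw [a3, hdz2, hdw2, Finset.mul_sum, Finset.mul_sum, Finset.mul_sum, ← Finset.sum_neg_distrib,
      ← Finset.sum_add_distrib, ← Finset.sum_add_distrib, ← Finset.sum_add_distrib]
    refine Finset.sum_congr rfl fun k _ => ?_
    have hV : D.V p * dw D.om p = I * (D.σ (Prof.lx p.1) : ℂ) * (1 - D.om p ^ 2) +
        2 * ((D.μ (Prof.lx p.1) : ℂ) * D.om p) := by
      rw [D.dw_om hp]
      unfold Prof.V
      field_simp
    linear_combination (y k p.1 * (k * (1 + D.om p) ^ (k - 1))) * hV -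
      (y k p.1 * (k * (1 + D.om p) ^ (k - 1))) * hzz
  unfold tfD
  change _ = _ / ncE D p.1
  rw [eq_div_iff hE0, mul_comm]
  exact hfin

end Pool.Agent.DbarN
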