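import Pool.Agent.DbarN.Ker1
import Pool.Agent.DbarN.Nice

set_option autoImplicit false

/-!
# KER2: decomposition of test functions, transported from the disc to the fibres
-/

namespace Pool.Agent.DbarN

namespace K2

open MeasureTheory Complex Set
open scoped ComplexConjugate ContDiff
open Pool.Agent.DbarN

variable (D : Prof)

theorem contDiffAt_lx {z : ℂ} (hz : z ≠ 0) : ContDiffAt ℝ ∞ Prof.lx z :=
  (contDiffAt_id.norm ℝ hz).log (by simpa using hz)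

theorem contDiffAt_τlx {z : ℂ} (hz : z ∈ D.base) : ContDiffAt ℝ ∞ (fun z => D.τ (Prof.lx z)) z :=
  (D.contDiffOn_τ.contDiffAt (isOpen_Ioo.mem_nhds hz.2)).comp z (contDiffAt_lx hz.1)

theorem contDiffAt_clx {z : ℂ} (hz : z ∈ D.base) : ContDiffAt ℝ ∞ (fun z => D.c (Prof.lx z)) z :=
  D.contDiff_c.contDiffAt.comp z (contDiffAt_lx hz.1)

theorem τ_ne {z : ℂ} (hz : z ∈ D.base) : D.τ (Prof.lx z) ≠ 0 := by
  have h1 := D.norm_τ hz.2
  have h2 := D.R_pos hz.2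
  intro h
  rw [h, norm_zero] at h1
  linarith

theorem isOpen_base' : IsOpen {p : ℂ × ℂ | p.1 ∈ D.base} := D.isOpen_base.preimage continuous_fst

open Classical in
/-- transport of a test function to the disc bundle -/
noncomputable def Th (Ξ : ℂ × ℂ → ℂ) (p : ℂ × ℂ) : ℂ :=
  if p.1 ∈ D.base then Ξ (p.1, D.c (Prof.lx p.1) + D.τ (Prof.lx p.1) * p.2) else 0

/-- the inverse transport -/
noncomputable def Psi (p : ℂ × ℂ) : ℂ × ℂ := (p.1, D.om p)

theorem om_mk {p : ℂ × ℂ} (hp : p.1 ∈ D.base) :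
    D.om (p.1, D.c (Prof.lx p.1) + D.τ (Prof.lx p.1) * p.2) = p.2 := by
  have := τ_ne D hp
  simp only [Prof.om, add_sub_cancel_left]
  field_simp

theorem mk_om {p : ℂ × ℂ} (hp : p.1 ∈ D.base) :
    (p.1, D.c (Prof.lx p.1) + D.τ (Prof.lx p.1) * D.om p) = p := by
  have := τ_ne D hp
  ext1
  · rfl
  · simp only [Prof.om]
    field_simp
    ring

theorem Th_Psi (Ξ : ℂ × ℂ → ℂ) {p : ℂ × ℂ} (hp : p.1 ∈ D.base) : Th D Ξ (Psi D p) = Ξ p := by
  simp only [Th, Psi, if_pos hp]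
  rw [mk_om D hp]

theorem contDiffOn_Psi : ContDiffOn ℝ ∞ (Psi D) {p | p.1 ∈ D.base} :=
  contDiffOn_fst.prodMk D.contDiffOn_om

/-- support data of a test function -/
theorem supp_data (Ξ : ℂ × ℂ → ℂ) (hΞ : IsTest D.Ω Ξ) :
    ∃ (K : Set ℂ) (k0 : ℝ), IsCompact K ∧ K ⊆ D.base ∧ 0 < k0 ∧ k0 < 1 ∧
      ∀ p, Th D Ξ p ≠ 0 → p.1 ∈ K ∧ ‖p.2‖ ≤ k0 := by
  have hsub : tsupport Ξ ⊆ {p | p.1 ∈ D.base} := fun p hp => (D.mem_Ω.1 (hΞ.supp hp)).1
  have hcomp : IsCompact (tsupport Ξ) := hΞ.compact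
  have hcont : ContinuousOn (fun p => ‖D.om p‖) (tsupport Ξ) :=
    (D.contDiffOn_om.continuousOn.mono hsub).norm
  have hmax : ∃ k0 : ℝ, 0 < k0 ∧ k0 < 1 ∧ ∀ p ∈ tsupport Ξ, ‖D.om p‖ ≤ k0 := by
    rcases (tsupport Ξ).eq_empty_or_nonempty with he | hne
    · exact ⟨1 / 2, by norm_num, by norm_num, by simp [he]⟩
    · obtain ⟨q, hq, hmax⟩ := hcomp.exists_isMaxOn hne hcont
      refine ⟨max ‖D.om q‖ (1 / 2), by positivity, ?_, fun p hp => (hmax hp).trans (le_max_left _ _)⟩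
      exact max_lt (D.mem_Ω.1 (hΞ.supp hq)).2 (by norm_num)
  obtain ⟨k0, h0, h1, hk⟩ := hmax
  refine ⟨Prod.fst '' tsupport Ξ, k0, hcomp.image continuous_fst, ?_, h0, h1, ?_⟩
  · rintro _ ⟨p, hp, rfl⟩
    exact hsub hp
  · intro p hp
    have hb : p.1 ∈ D.base := by
      by_contra hcon
      exact hp (by simp only [Th, if_neg hcon])
    simp only [Th, if_pos hb] at hp
    have hq := subset_tsupport Ξ (Function.mem_support.2 hp)
    refine ⟨⟨_, hq, rfl⟩, ?_⟩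
    have := hk _ hq
    rwa [om_mk D hb] at this

theorem contDiff_Th (Ξ : ℂ × ℂ → ℂ) (hΞ : IsTest D.Ω Ξ) {K : Set ℂ} {k0 : ℝ} (hK : IsCompact K)
    (hKb : K ⊆ D.base) (hs : ∀ p, Th D Ξ p ≠ 0 → p.1 ∈ K ∧ ‖p.2‖ ≤ k0) :
    ContDiff ℝ ∞ (Th D Ξ) := by
  rw [contDiff_iff_contDiffAt]
  intro p
  by_cases hp : p.1 ∈ D.base
  · have hev : Th D Ξ =ᶠ[nhds p] fun p => Ξ (p.1, D.c (Prof.lx p.1) + D.τ (Prof.lx p.1) * p.2) := by
      filter_upwards [(isOpen_base' D).mem_nhds hp] with q hq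
      have hq' : q.1 ∈ D.base := hq
      simp only [Th, if_pos hq']
    refine ContDiffAt.congr_of_eventuallyEq ?_ hev
    refine hΞ.smooth.contDiffAt.comp p (contDiffAt_fst.prodMk ?_)
    have h1 : ContDiffAt ℝ ∞ (fun p : ℂ × ℂ => D.c (Prof.lx p.1)) p :=
      (contDiffAt_clx D hp).comp p contDiffAt_fst
    have h2 : ContDiffAt ℝ ∞ (fun p : ℂ × ℂ => D.τ (Prof.lx p.1)) p :=
      (contDiffAt_τlx D hp).comp p contDiffAt_fst
    exact h1.add (h2.mul contDiffAt_snd)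
  · have hev : Th D Ξ =ᶠ[nhds p] fun _ => 0 := by
      have hpK : p.1 ∈ Kᶜ := fun h => hp (hKb h)
      filter_upwards [(hK.isClosed.isOpen_compl.preimage continuous_fst).mem_nhds hpK] with q hq
      by_contra hcon
      exact hq (hs q hcon).1
    exact contDiffAt_const.congr_of_eventuallyEq hev

theorem isOpen_W {ρ : ℝ} : IsOpen {p : ℂ × ℂ | p.1 ∈ D.base ∧ ‖D.om p‖ < ρ} := by
  have h := (D.contDiffOn_om.continuousOn.norm).isOpen_inter_preimage (isOpen_base' D)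
    (isOpen_Iio (a := ρ))
  exact h

theorem real_lin (L : ℂ →L[ℝ] ℂ) (t : ℂ) : L t - I * L (I * t) = t * (L 1 - I * L I) := by
  have key : ∀ s : ℂ, L s = s.re * L 1 + s.im * L I := by
    intro s
    have : s = s.re • (1 : ℂ) + s.im • I := by
      simp [Complex.re_add_im]
    conv_lhs => rw [this, map_add, map_smul, map_smul]
    simp
  rw [key t, key (I * t)]
  simp only [mul_re, mul_im, I_re, I_im, zero_mul, one_mul, zero_sub, zero_add]
  conv_rhs => rw [← re_add_im t]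
  push_cast
  linear_combination (t.im : ℂ) * L I * I_mul_I

/-- `∂_w` of a transported function -/
theorem dw_transport (F : ℂ × ℂ → ℂ) {p : ℂ × ℂ} (hp : p.1 ∈ D.base)
    (hF : DifferentiableAt ℝ F (Psi D p)) :
    dw (fun q => D.τ (Prof.lx q.1) * F (Psi D q)) p = dw F (Psi D p) := by
  have hτ := τ_ne D hp
  have hG : DifferentiableAt ℝ (fun q : ℂ × ℂ => D.τ (Prof.lx q.1) * F (Psi D q)) p := by
    have h2 : ContDiffAt ℝ ∞ (fun p : ℂ × ℂ => D.τ (Prof.lx p.1)) p :=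
      (contDiffAt_τlx D hp).comp p contDiffAt_fst
    have h3 : DifferentiableAt ℝ (Psi D) p :=
      ((contDiffOn_Psi D).contDiffAt ((isOpen_base' D).mem_nhds hp)).differentiableAt (by simp)
    exact (h2.differentiableAt (by simp)).mul (hF.comp p h3)
  have key : ∀ t : ℂ, fderiv ℝ (fun q : ℂ × ℂ => D.τ (Prof.lx q.1) * F (Psi D q)) p (0, t) =
      D.τ (Prof.lx p.1) * fderiv ℝ F (Psi D p) (0, t / D.τ (Prof.lx p.1)) := by
    intro t
    have h1 := (hG.hasFDerivAt.hasLineDerivAt (0, t)).lineDeriv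
    rw [← h1, lineDeriv]
    have h2 : (fun s : ℝ => D.τ (Prof.lx (p + s • ((0 : ℂ), t)).1) * F (Psi D (p + s • ((0 : ℂ), t))))
        = fun s : ℝ => D.τ (Prof.lx p.1) *
          F (Psi D p + s • ((0 : ℂ), t / D.τ (Prof.lx p.1))) := by
      funext s
      have e1 : (p + s • ((0 : ℂ), t)).1 = p.1 := by simp
      have e2 : Psi D (p + s • ((0 : ℂ), t)) = Psi D p + s • ((0 : ℂ), t / D.τ (Prof.lx p.1)) := by
        ext1
        · simp [Psi]
        · simp only [Psi, Prof.om, e1]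
          simp only [Prod.snd_add, Prod.smul_snd, real_smul]
          field_simp
          ring
      rw [e1, e2]
    rw [h2]
    have h3 := (hF.hasFDerivAt.hasLineDerivAt ((0 : ℂ), t / D.τ (Prof.lx p.1)))
    exact (HasDerivAt.const_mul (D.τ (Prof.lx p.1)) h3).deriv
  simp only [dw]
  rw [key 1, key I]
  have h := real_lin ((fderiv ℝ F (Psi D p)).comp (ContinuousLinearMap.inr ℝ ℂ ℂ))
    (1 / D.τ (Prof.lx p.1))
  simp only [ContinuousLinearMap.comp_apply, ContinuousLinearMap.inr_apply] at h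
  have e : I * (1 / D.τ (Prof.lx p.1)) = I / D.τ (Prof.lx p.1) := by ring
  rw [e] at h
  have h' : D.τ (Prof.lx p.1) * (fderiv ℝ F (Psi D p) (0, 1 / D.τ (Prof.lx p.1)) -
      I * fderiv ℝ F (Psi D p) (0, I / D.τ (Prof.lx p.1))) =
      (fderiv ℝ F (Psi D p) (0, 1) - I * fderiv ℝ F (Psi D p) (0, I)) := by
    rw [h]
    field_simp
  rw [← h']
  ring

theorem Xd_congr {g h : ℂ × ℂ → ℂ} {p : ℂ × ℂ} (e : g =ᶠ[nhds p] h) : Xd D g p = Xd D h p := by
  have e1 : (fun q : ℂ × ℂ => 2 * q.1 * g q) =ᶠ[nhds p] fun q => 2 * q.1 * h q :=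
    e.mono fun q hq => by simp only [hq]
  have e2 : (fun q : ℂ × ℂ => D.V q * g q) =ᶠ[nhds p] fun q => D.V q * h q :=
    e.mono fun q hq => by simp only [hq]
  simp only [Xd, dz, dw, e1.fderiv_eq, e2.fderiv_eq]

theorem contDiffAt_V {p : ℂ × ℂ} (hp : p.1 ∈ D.base) : ContDiffAt ℝ ∞ D.V p :=
  D.contDiffOn_V.contDiffAt ((isOpen_base' D).mem_nhds hp)

theorem Xd_sub {g h : ℂ × ℂ → ℂ} {p : ℂ × ℂ} (hp : p.1 ∈ D.base) (hg : DifferentiableAt ℝ g p)
    (hh : DifferentiableAt ℝ h p) : Xd D (fun q => g q - h q) p = Xd D g p - Xd D h p := by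
  have hV : DifferentiableAt ℝ D.V p := (contDiffAt_V D hp).differentiableAt (by simp)
  have h1 : DifferentiableAt ℝ (fun q : ℂ × ℂ => 2 * q.1) p := by fun_prop
  have e1 : fderiv ℝ (fun q : ℂ × ℂ => 2 * q.1 * (g q - h q)) p =
      fderiv ℝ (fun q : ℂ × ℂ => 2 * q.1 * g q) p - fderiv ℝ (fun q : ℂ × ℂ => 2 * q.1 * h q) p := by
    rw [← fderiv_fun_sub (h1.fun_mul hg) (h1.fun_mul hh)]
    congr 1
    funext q
    ring
  have e2 : fderiv ℝ (fun q : ℂ × ℂ => D.V q * (g q - h q)) p =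
      fderiv ℝ (fun q : ℂ × ℂ => D.V q * g q) p - fderiv ℝ (fun q : ℂ × ℂ => D.V q * h q) p := by
    rw [← fderiv_fun_sub (hV.fun_mul hg) (hV.fun_mul hh)]
    congr 1
    funext q
    ring
  simp only [Xd, dz, dw, e1, e2, _root_.sub_apply]
  ring

theorem norm_dz_le (G : ℂ × ℂ → ℂ) (p : ℂ × ℂ) : ‖dz G p‖ ≤ ‖fderiv ℝ G p‖ := by
  have h1 : ‖fderiv ℝ G p (1, 0)‖ ≤ ‖fderiv ℝ G p‖ := by
    have := (fderiv ℝ G p).le_opNorm (1, 0)
    simpa using this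
  have h2 : ‖fderiv ℝ G p (I, 0)‖ ≤ ‖fderiv ℝ G p‖ := by
    have := (fderiv ℝ G p).le_opNorm (I, 0)
    simpa using this
  have h3 : ‖fderiv ℝ G p (1, 0) - I * fderiv ℝ G p (I, 0)‖ ≤
      ‖fderiv ℝ G p (1, 0)‖ + ‖fderiv ℝ G p (I, 0)‖ := by
    have := norm_sub_le (fderiv ℝ G p (1, 0)) (I * fderiv ℝ G p (I, 0))
    simpa using this
  simp only [dz, norm_div]
  have h4 : ‖(2 : ℂ)‖ = 2 := by simp
  rw [h4, div_le_iff₀ (by norm_num)]
  linarith

theorem norm_dw_le (G : ℂ × ℂ → ℂ) (p : ℂ × ℂ) : ‖dw G p‖ ≤ ‖fderiv ℝ G p‖ := by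
  have h1 : ‖fderiv ℝ G p (0, 1)‖ ≤ ‖fderiv ℝ G p‖ := by
    have := (fderiv ℝ G p).le_opNorm (0, 1)
    simpa using this
  have h2 : ‖fderiv ℝ G p (0, I)‖ ≤ ‖fderiv ℝ G p‖ := by
    have := (fderiv ℝ G p).le_opNorm (0, I)
    simpa using this
  have h3 : ‖fderiv ℝ G p (0, 1) - I * fderiv ℝ G p (0, I)‖ ≤
      ‖fderiv ℝ G p (0, 1)‖ + ‖fderiv ℝ G p (0, I)‖ := by
    have := norm_sub_le (fderiv ℝ G p (0, 1)) (I * fderiv ℝ G p (0, I))
    simpa using this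
  simp only [dw, norm_div]
  have h4 : ‖(2 : ℂ)‖ = 2 := by simp
  rw [h4, div_le_iff₀ (by norm_num)]
  linarith

/-- compactness of the closed fibre discs over a compact part of the base -/
theorem isCompact_Kc {K : Set ℂ} (hK : IsCompact K) (hKb : K ⊆ D.base) :
    IsCompact {p : ℂ × ℂ | p.1 ∈ K ∧ ‖D.om p‖ ≤ 1} := by
  have h : {p : ℂ × ℂ | p.1 ∈ K ∧ ‖D.om p‖ ≤ 1} =
      (fun p : ℂ × ℂ => (p.1, D.c (Prof.lx p.1) + D.τ (Prof.lx p.1) * p.2)) ''
        (K ×ˢ Metric.closedBall 0 1) := by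
    ext p
    constructor
    · rintro ⟨h1, h2⟩
      refine ⟨(p.1, D.om p), ⟨h1, by simpa using h2⟩, mk_om D (hKb h1)⟩
    · rintro ⟨q, ⟨h1, h2⟩, rfl⟩
      refine ⟨h1, ?_⟩
      have := om_mk D (p := q) (hKb h1)
      simp only [this]
      simpa using h2
  rw [h]
  refine (hK.prod (isCompact_closedBall 0 1)).image_of_continuousOn ?_
  intro p hp
  have hp' : p.1 ∈ D.base := hKb hp.1
  have h1 : ContDiffAt ℝ ∞ (fun p : ℂ × ℂ => D.c (Prof.lx p.1)) p :=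
    (contDiffAt_clx D hp').comp p contDiffAt_fst
  have h2 : ContDiffAt ℝ ∞ (fun p : ℂ × ℂ => D.τ (Prof.lx p.1)) p :=
    (contDiffAt_τlx D hp').comp p contDiffAt_fst
  exact (contDiffAt_fst.prodMk (h1.add (h2.mul contDiffAt_snd))).continuousAt.continuousWithinAt

theorem exists_bound {E : Type*} [NormedAddCommGroup E] [NormedSpace ℝ E] {K : Set ℂ}
    (hK : IsCompact K) (hKb : K ⊆ D.base) (G : ℂ × ℂ → E)
    (hG : ContDiffOn ℝ ∞ G {p | p.1 ∈ D.base}) :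
    ∃ C, 0 ≤ C ∧ ∀ p : ℂ × ℂ, p.1 ∈ K → ‖D.om p‖ ≤ 1 → ‖G p‖ ≤ C ∧ ‖fderiv ℝ G p‖ ≤ C := by
  have hc := isCompact_Kc D hK hKb
  have hsub : {p : ℂ × ℂ | p.1 ∈ K ∧ ‖D.om p‖ ≤ 1} ⊆ {p : ℂ × ℂ | p.1 ∈ D.base} :=
    fun p hp => hKb hp.1
  obtain ⟨C1, hC1⟩ := hc.exists_bound_of_continuousOn (hG.continuousOn.mono hsub)
  obtain ⟨C2, hC2⟩ := hc.exists_bound_of_continuousOn
    ((hG.continuousOn_fderiv_of_isOpen (isOpen_base' D) (by simp)).mono hsub)
  refine ⟨max 0 (max C1 C2), le_max_left _ _, fun p h1 h2 => ⟨?_, ?_⟩⟩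
  · exact (hC1 p ⟨h1, h2⟩).trans ((le_max_left _ _).trans (le_max_right _ _))
  · exact (hC2 p ⟨h1, h2⟩).trans ((le_max_right _ _).trans (le_max_right _ _))

theorem Xd_bound {K : Set ℂ} (hK : IsCompact K) (hKb : K ⊆ D.base) :
    ∃ C, 0 ≤ C ∧ ∀ (g : ℂ × ℂ → ℂ) (p : ℂ × ℂ), p.1 ∈ K → ‖D.om p‖ ≤ 1 →
      DifferentiableAt ℝ g p → ‖Xd D g p‖ ≤ C * (‖g p‖ + ‖fderiv ℝ g p‖) := by
  obtain ⟨C1, hC1, h1⟩ := exists_bound D hK hKb D.V D.contDiffOn_V
  obtain ⟨C2, hC2, h2⟩ := exists_bound D hK hKb (fun p : ℂ × ℂ => 2 * p.1)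
    ((contDiff_const.mul contDiff_fst).contDiffOn)
  refine ⟨C1 + C2, by positivity, ?_⟩
  intro g p hp hom hg
  have hpb : p.1 ∈ D.base := hKb hp
  have hV : DifferentiableAt ℝ D.V p := (contDiffAt_V D hpb).differentiableAt (by simp)
  have hz : DifferentiableAt ℝ (fun q : ℂ × ℂ => 2 * q.1) p := by fun_prop
  obtain ⟨hV1, hV2⟩ := h1 p hp hom
  obtain ⟨hz1, hz2⟩ := h2 p hp hom
  have e1 : ‖fderiv ℝ (fun q : ℂ × ℂ => 2 * q.1 * g q) p‖ ≤ C2 * (‖g p‖ + ‖fderiv ℝ g p‖) := by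
    rw [fderiv_fun_mul hz hg]
    refine (norm_add_le _ _).trans ?_
    rw [norm_smul, norm_smul]
    have a1 := mul_le_mul_of_nonneg_right hz1 (norm_nonneg (fderiv ℝ g p))
    have a2 := mul_le_mul_of_nonneg_left hz2 (norm_nonneg (g p))
    nlinarith
  have e2 : ‖fderiv ℝ (fun q : ℂ × ℂ => D.V q * g q) p‖ ≤ C1 * (‖g p‖ + ‖fderiv ℝ g p‖) := by
    rw [fderiv_fun_mul hV hg]
    refine (norm_add_le _ _).trans ?_
    rw [norm_smul, norm_smul]
    have a1 := mul_le_mul_of_nonneg_right hV1 (norm_nonneg (fderiv ℝ g p))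
    have a2 := mul_le_mul_of_nonneg_left hV2 (norm_nonneg (g p))
    nlinarith
  have e3 : ‖Xd D g p‖ ≤ ‖dz (fun q => 2 * q.1 * g q) p‖ + ‖dw (fun q => D.V q * g q) p‖ := by
    simp only [Xd]
    refine (norm_add_le _ _).trans ?_
    rw [norm_neg]
  have e4 := norm_dz_le (fun q => 2 * q.1 * g q) p
  have e5 := norm_dw_le (fun q => D.V q * g q) p
  nlinarith

/-- coefficients in powers of `1 + ω` -/
noncomputable def yy (a : ℕ → ℂ → ℂ) (M k : ℕ) (z : ℂ) : ℂ :=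
  (((‖z‖ ^ 2 : ℝ) : ℂ) * D.τ (Prof.lx z)) *
    ∑ n ∈ Finset.range M, a n z * ((n.choose k : ℂ) * (-1) ^ (n - k))

theorem yy_zero {K : Set ℂ} (a : ℕ → ℂ → ℂ) (ha0 : ∀ n z, z ∉ K → a n z = 0) (M : ℕ) :
    ∀ k z, z ∉ K → yy D a M k z = 0 := by
  intro k z hz
  simp only [yy, ha0 _ z hz, zero_mul, Finset.sum_const_zero, mul_zero]

theorem adm_yy {K : Set ℂ} (hK : IsCompact K) (hKb : K ⊆ D.base) (a : ℕ → ℂ → ℂ)
    (ha : ∀ n, ContDiff ℝ ∞ (a n)) (ha0 : ∀ n z, z ∉ K → a n z = 0) (M : ℕ) :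
    Adm D M (yy D a M) := by
  have hz : ∀ k z, z ∉ K → yy D a M k z = 0 := by
    intro k z hz
    simp only [yy, ha0 _ z hz, zero_mul, Finset.sum_const_zero, mul_zero]
  refine ⟨?_, ?_, ?_, ?_⟩
  · intro k hk
    funext z
    simp only [yy, Pi.zero_apply]
    rw [Finset.sum_eq_zero, mul_zero]
    intro n hn
    rw [Nat.choose_eq_zero_of_lt (lt_of_lt_of_le (Finset.mem_range.1 hn) hk)]
    simp
  · intro k
    rw [contDiff_iff_contDiffAt]
    intro z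
    by_cases hzb : z ∈ D.base
    · have h1 : ContDiffAt ℝ ∞ (fun z : ℂ => (((‖z‖ ^ 2 : ℝ) : ℂ))) z :=
        (ofRealCLM.contDiff.comp (contDiff_norm_sq ℝ)).contDiffAt
      have h2 := contDiffAt_τlx D hzb
      have h3 : ContDiffAt ℝ ∞ (fun z : ℂ => ∑ n ∈ Finset.range M, a n z *
          ((n.choose k : ℂ) * (-1) ^ (n - k))) z :=
        (ContDiff.sum fun n _ => (ha n).mul contDiff_const).contDiffAt
      exact (h1.mul h2).mul h3
    · have hev : yy D a M k =ᶠ[nhds z] fun _ => 0 := by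
        have hzK : z ∈ Kᶜ := fun h => hzb (hKb h)
        filter_upwards [hK.isClosed.isOpen_compl.mem_nhds hzK] with q hq
        exact hz k q hq
      exact contDiffAt_const.congr_of_eventuallyEq hev
  · intro k
    exact HasCompactSupport.intro hK (fun z hz' => hz k z hz')
  · intro k
    refine Subset.trans ?_ hKb
    refine closure_minimal ?_ hK.isClosed
    intro z hz'
    by_contra hcon
    exact hz' (hz k z hcon)

theorem sum_binom (a : ℕ → ℂ) (M : ℕ) (v : ℂ) :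
    ∑ k ∈ Finset.range M, (∑ n ∈ Finset.range M, a n * ((n.choose k : ℂ) * (-1) ^ (n - k))) *
      (1 + v) ^ k = ∑ n ∈ Finset.range M, a n * v ^ n := by
  simp only [Finset.sum_mul]
  rw [Finset.sum_comm]
  refine Finset.sum_congr rfl fun n hn => ?_
  have hn' := Finset.mem_range.1 hn
  have h1 : v ^ n = ((1 + v) + (-1)) ^ n := by ring
  rw [h1, add_pow, Finset.mul_sum]
  symm
  have hsub : Finset.range (n + 1) ⊆ Finset.range M := Finset.range_mono hn'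
  rw [← Finset.sum_subset hsub]
  · refine Finset.sum_congr rfl fun k hk => ?_
    ring
  · intro k _ hk
    have : n < k := by
      simp only [Finset.mem_range, not_lt] at hk
      omega
    rw [Nat.choose_eq_zero_of_lt this]
    simp

theorem tf_yy (a : ℕ → ℂ → ℂ) (M : ℕ) {p : ℂ × ℂ} (hp : p.1 ∈ D.base) :
    tf D M (yy D a M) p = ∑ n ∈ Finset.range M, a n p.1 * D.om p ^ n := by
  have hτ := τ_ne D hp
  have hz : (((‖p.1‖ ^ 2 : ℝ) : ℂ)) ≠ 0 := by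
    have := norm_pos_iff.2 hp.1
    have : (‖p.1‖ ^ 2 : ℝ) ≠ 0 := by positivity
    exact_mod_cast this
  rw [← sum_binom (fun n => a n p.1) M (D.om p)]
  simp only [tf, yy]
  rw [div_eq_iff (mul_ne_zero hz hτ), Finset.sum_mul]
  refine Finset.sum_congr rfl fun k _ => ?_
  ring

end K2

open MeasureTheory Complex Set
open scoped ComplexConjugate ContDiff
open K2

theorem ker_decomp' (D : Prof) (Ξ : ℂ × ℂ → ℂ) (hΞ : IsTest D.Ω Ξ) :
    ∃ (P Q : ℂ × ℂ → ℂ) (K : Set ℂ), IsCompact K ∧ K ⊆ D.base ∧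
      (∀ p : ℂ × ℂ, p.1 ∉ K → P p = 0) ∧ Nice D P ∧ Nice D Q ∧
      (∀ p ∈ D.Ω, Ξ p = P p + dw (fun q => (1 - D.kk q) * Q q) p) ∧
      ∀ ε > 0, ∃ N y, Adm D N y ∧ (∀ k z, z ∉ K → y k z = 0) ∧
        ∀ p ∈ D.Ω, ‖tf D N y p - P p‖ ≤ ε ∧ ‖tfD D N y p - Xd D P p‖ ≤ ε := by
  obtain ⟨K, k0, hK, hKb, h0, h1, hs⟩ := supp_data D Ξ hΞ
  obtain ⟨a, P, Q, ρ, hρ, ha, ha0, hP, hQ, hPQ, hdec, happ⟩ :=
    ker_disc K hK k0 h0 h1 (Th D Ξ) (contDiff_Th D Ξ hΞ hK hKb hs) hs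
  have hWo : IsOpen {p : ℂ × ℂ | ‖p.2‖ < ρ} := isOpen_lt continuous_snd.norm continuous_const
  have hΩcW : D.Ωc ⊆ {p : ℂ × ℂ | p.1 ∈ D.base ∧ ‖D.om p‖ < ρ} :=
    fun p hp => ⟨hp.1, hp.2.trans_lt hρ⟩
  have hPsi : ContDiffOn ℝ ∞ (Psi D) {p : ℂ × ℂ | p.1 ∈ D.base ∧ ‖D.om p‖ < ρ} :=
    (contDiffOn_Psi D).mono fun p hp => hp.1
  have hmaps : MapsTo (Psi D) {p : ℂ × ℂ | p.1 ∈ D.base ∧ ‖D.om p‖ < ρ}
      {p : ℂ × ℂ | ‖p.2‖ < ρ} := fun p hp => hp.2
  have hτo : ContDiffOn ℝ ∞ (fun p : ℂ × ℂ => D.τ (Prof.lx p.1))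
      {p : ℂ × ℂ | p.1 ∈ D.base ∧ ‖D.om p‖ < ρ} := fun p hp =>
    ((contDiffAt_τlx D hp.1).comp p contDiffAt_fst).contDiffWithinAt
  refine ⟨fun p => P (Psi D p), fun p => D.τ (Prof.lx p.1) * Q (Psi D p), K, hK, hKb,
    fun p hp => (hPQ (Psi D p) hp).1, ?_, ?_, ?_, ?_⟩
  · exact ⟨⟨_, isOpen_W D, hΩcW, hP.comp hPsi hmaps⟩, K, hKb, hK, fun p hp => (hPQ (Psi D p) hp).1⟩
  · refine ⟨⟨_, isOpen_W D, hΩcW, hτo.mul (hQ.comp hPsi hmaps)⟩, K, hKb, hK, fun p hp => ?_⟩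
    rw [(hPQ (Psi D p) hp).2, mul_zero]
  · intro p hp
    obtain ⟨hb, hom⟩ := D.mem_Ω.1 hp
    have hm : ‖(Psi D p).2‖ < ρ := hom.trans hρ
    have e1 := hdec (Psi D p) hm
    rw [Th_Psi D Ξ hb] at e1
    rw [e1]
    congr 1
    have hF : DifferentiableAt ℝ (fun q : ℂ × ℂ => (1 - q.2 * conj q.2) * Q q) (Psi D p) := by
      have hQ' : DifferentiableAt ℝ Q (Psi D p) :=
        (hQ.contDiffAt (hWo.mem_nhds hm)).differentiableAt (by simp)
      have h3 : DifferentiableAt ℝ (fun q : ℂ × ℂ => (1 - q.2 * conj q.2)) (Psi D p) := by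
        have : DifferentiableAt ℝ (fun q : ℂ × ℂ => conj q.2) (Psi D p) :=
          (conjCLE.toContinuousLinearMap.differentiableAt).comp _ differentiableAt_snd
        exact (differentiableAt_const _).sub (differentiableAt_snd.mul this)
      exact h3.mul hQ'
    rw [← dw_transport D _ hb hF]
    congr 1
    funext q
    simp only [Prof.kk, Psi]
    ring
  · intro ε hε
    obtain ⟨C1, hC1, hX⟩ := Xd_bound D hK hKb
    obtain ⟨C2, hC2, hPs⟩ := exists_bound D hK hKb (Psi D) (contDiffOn_Psi D)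
    set ε' : ℝ := ε / (1 + C1 * (1 + C2)) with hε'
    have hden : 0 < 1 + C1 * (1 + C2) := by positivity
    have hε'0 : 0 < ε' := by positivity
    have hle1 : ε' ≤ ε := by
      rw [hε', div_le_iff₀ hden]
      nlinarith [mul_nonneg hC1 (by positivity : (0 : ℝ) ≤ 1 + C2)]
    have hle2 : C1 * (ε' + ε' * C2) ≤ ε := by
      have : ε' * (1 + C1 * (1 + C2)) = ε := by
        rw [hε']
        field_simp
      nlinarith
    obtain ⟨M, hM⟩ := happ ε' hε'0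
    refine ⟨M, yy D a M, adm_yy D hK hKb a ha ha0 M, yy_zero D a ha0 M, ?_⟩
    intro p hp
    obtain ⟨hb, hom⟩ := D.mem_Ω.1 hp
    have hpc : p ∈ D.Ωc := ⟨hb, hom.le⟩
    rw [← Xd_tf D M (yy D a M) (adm_yy D hK hKb a ha ha0 M) p hpc]
    by_cases hpK : p.1 ∈ K
    · set S : ℂ × ℂ → ℂ := fun q => ∑ n ∈ Finset.range M, a n q.1 * q.2 ^ n with hS
      have hSsm : ContDiff ℝ ∞ S := ContDiff.sum fun n _ =>
        ((ha n).comp contDiff_fst).mul (contDiff_snd.pow n)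
      have hm : ‖(Psi D p).2‖ < ρ := hom.trans hρ
      have hPd : DifferentiableAt ℝ P (Psi D p) :=
        (hP.contDiffAt (hWo.mem_nhds hm)).differentiableAt (by simp)
      have hSd : DifferentiableAt ℝ S (Psi D p) := hSsm.contDiffAt.differentiableAt (by simp)
      have hPsd : DifferentiableAt ℝ (Psi D) p :=
        ((contDiffOn_Psi D).contDiffAt ((isOpen_base' D).mem_nhds hb)).differentiableAt (by simp)
      obtain ⟨hM1, hM2⟩ := hM (Psi D p) hom.le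
      have hev : tf D M (yy D a M) =ᶠ[nhds p] fun q => S (Psi D q) := by
        filter_upwards [(isOpen_base' D).mem_nhds hb] with q hq
        rw [tf_yy D a M hq]
        rfl
      have e0 := hev.eq_of_nhds
      rw [Xd_congr D hev, e0]
      have hd1 : DifferentiableAt ℝ (fun q => P (Psi D q)) p := hPd.comp p hPsd
      have hd2 : DifferentiableAt ℝ (fun q => S (Psi D q)) p := hSd.comp p hPsd
      constructor
      · rw [norm_sub_rev]
        exact hM1.trans hle1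
      · rw [norm_sub_rev, ← Xd_sub D hb hd1 hd2]
        have hd3 : DifferentiableAt ℝ (fun q => P (Psi D q) - S (Psi D q)) p := hd1.sub hd2
        refine (hX _ p hpK hom.le hd3).trans (le_trans ?_ hle2)
        refine mul_le_mul_of_nonneg_left (add_le_add hM1 ?_) hC1
        have e3 : fderiv ℝ (fun q => P (Psi D q) - S (Psi D q)) p =
            (fderiv ℝ (fun q => P q - S q) (Psi D p)).comp (fderiv ℝ (Psi D) p) := by
          have := fderiv_comp p (hPd.sub hSd) hPsd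
          exact this
        rw [e3]
        refine (ContinuousLinearMap.opNorm_comp_le _ _).trans ?_
        exact mul_le_mul hM2 (hPs p hpK hom.le).2 (norm_nonneg _) hε'0.le
    · have hev1 : tf D M (yy D a M) =ᶠ[nhds p] fun _ => 0 := by
        filter_upwards [(isOpen_base' D).mem_nhds hb,
          (hK.isClosed.isOpen_compl.preimage continuous_fst).mem_nhds hpK] with q hq hqK
        rw [tf_yy D a M hq]
        exact Finset.sum_eq_zero fun n _ => by rw [ha0 n q.1 hqK, zero_mul]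
      have hev2 : (fun q => P (Psi D q)) =ᶠ[nhds p] fun _ => 0 := by
        filter_upwards [(hK.isClosed.isOpen_compl.preimage continuous_fst).mem_nhds hpK] with q hqK
        exact (hPQ (Psi D q) hqK).1
      have e1 := hev1.eq_of_nhds
      have e2 : P (Psi D p) = 0 := hev2.eq_of_nhds
      rw [Xd_congr D hev1, Xd_congr D hev2, e1]
      simp only [e2, sub_self, norm_zero]
      exact ⟨hε.le, hε.le⟩

theorem ker_decomp (D : Prof) (Ξ : ℂ × ℂ → ℂ) (hΞ : IsTest D.Ω Ξ) :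
    ∃ P Q : ℂ × ℂ → ℂ, Nice D P ∧ Nice D Q ∧
      (∀ p ∈ D.Ω, Ξ p = P p + dw (fun q => (1 - D.kk q) * Q q) p) ∧
      ∀ ε > 0, ∃ N y, Adm D N y ∧ ∀ p ∈ D.Ω, ‖tf D N y p - P p‖ ≤ ε ∧
        ‖tfD D N y p - Xd D P p‖ ≤ ε := by
  obtain ⟨P, Q, K, -, -, -, hP, hQ, hdec, happ⟩ := ker_decomp' D Ξ hΞ
  refine ⟨P, Q, hP, hQ, hdec, fun ε hε => ?_⟩
  obtain ⟨N, y, hy, -, hN⟩ := happ ε hε
  exact ⟨N, y, hy, hN⟩

end Pool.Agent.DbarN
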