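import Pool.Agent.DbarN.AprCore
import Pool.Agent.DbarN.Ker2

set_option autoImplicit false

namespace Pool.Agent.DbarN

open MeasureTheory Complex Set
open scoped ComplexConjugate ContDiff

theorem aprime (D : Prof) (f : L2 D.Ω) (u : L2F D.Ω) (hc : IsDbar1 D.Ω u 0)
    (hw : ∀ φ, IsTest D.Ω φ → ∫ p in D.Ω, f p * dwb φ p = -∫ p in D.Ω, u.snd p * φ p)
    (hX : ∀ N y, Adm D N y → ∫ p in D.Ω, f p * conj (tfD D N y p) =
      ∫ p in D.Ω, (2 * conj p.1 * u.fst p - conj (D.V p) * u.snd p) * conj (tf D N y p)) :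
    IsDbar0 D.Ω f u :=
  aprime_of_ker D (ker_decomp' D) f u hc hw hX

end Pool.Agent.DbarN
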