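import Pool.Agent.DbarN.Defs

set_option autoImplicit false

/-!
# ABS : the Laplacian of an abstract Hilbert complex through solution operators
-/

namespace Pool.Agent.DbarN

open Complex Set
open scoped ComplexConjugate ComplexOrder

def ABox {H0 H1 H2 : Type*} [NormedAddCommGroup H0] [InnerProductSpace ℂ H0]
    [NormedAddCommGroup H1] [InnerProductSpace ℂ H1] [NormedAddCommGroup H2]
    [InnerProductSpace ℂ H2] (GT : Submodule ℂ (H0 × H1)) (GS : Submodule ℂ (H1 × H2))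
    (u v : H1) : Prop :=
  ∃ (g : H0) (c : H2) (p q : H1), IsAdj (fun f a => (f, a) ∈ GT) u g ∧ (g, p) ∈ GT ∧
    (u, c) ∈ GS ∧ IsAdj (fun f a => (f, a) ∈ GS) c q ∧ v = p + q

/-- an everywhere defined, single valued, bounded relation is a bounded operator -/
theorem abs_op {X Y : Type*} [NormedAddCommGroup X] [NormedSpace ℂ X] [NormedAddCommGroup Y]
    [NormedSpace ℂ Y] (G : Submodule ℂ (X × Y)) (h0 : ∀ y, ((0 : X), y) ∈ G → y = 0)
    (h1 : ∀ x, ∃ y, (x, y) ∈ G) (C : ℝ) (hC : ∀ x y, (x, y) ∈ G → ‖y‖ ≤ C * ‖x‖) :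
    ∃ A : X →L[ℂ] Y, ∀ x, (x, A x) ∈ G := by
  choose A hA using h1
  have uni : ∀ x y, (x, y) ∈ G → y = A x := by
    intro x y hy
    have := G.sub_mem hy (hA x)
    simp only [Prod.mk_sub_mk, sub_self] at this
    exact sub_eq_zero.1 (h0 _ this)
  let L : X →ₗ[ℂ] Y :=
    { toFun := A
      map_add' := fun x y => (uni _ _ (by
        have := G.add_mem (hA x) (hA y)
        simpa using this)).symm
      map_smul' := fun c x => (uni _ _ (by
        have := G.smul_mem c (hA x)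
        simpa using this)).symm }
  exact ⟨L.mkContinuous C (fun x => hC _ _ (hA x)), hA⟩

section

variable {H0 H1 H2 : Type*} [NormedAddCommGroup H0] [InnerProductSpace ℂ H0]
    [CompleteSpace H0] [NormedAddCommGroup H1] [InnerProductSpace ℂ H1] [CompleteSpace H1]
    [NormedAddCommGroup H2] [InnerProductSpace ℂ H2] [CompleteSpace H2]

/-- the kernel of a relation -/
def aker (GT : Submodule ℂ (H0 × H1)) : Submodule ℂ H0 where
  carrier := {f | (f, (0 : H1)) ∈ GT}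
  add_mem' := by
    intro a b ha hb
    have := GT.add_mem ha hb
    simpa using this
  zero_mem' := GT.zero_mem
  smul_mem' := by
    intro c x hx
    have := GT.smul_mem c hx
    simpa using this

omit [CompleteSpace H0] [CompleteSpace H1] in
theorem mem_aker (GT : Submodule ℂ (H0 × H1)) (f : H0) : f ∈ aker GT ↔ (f, (0 : H1)) ∈ GT :=
  Iff.rfl

omit [CompleteSpace H0] [CompleteSpace H1] in
theorem isClosed_aker (GT : Submodule ℂ (H0 × H1)) (h : IsClosed (GT : Set (H0 × H1))) :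
    IsClosed (aker GT : Set H0) :=
  h.preimage (f := fun f : H0 => (f, (0 : H1))) (by fun_prop)

/-- the range of a relation -/
def aran (GS : Submodule ℂ (H1 × H2)) : Submodule ℂ H2 where
  carrier := {c | ∃ u, (u, c) ∈ GS}
  add_mem' := by
    rintro a b ⟨u, hu⟩ ⟨v, hv⟩
    exact ⟨u + v, by simpa using GS.add_mem hu hv⟩
  zero_mem' := ⟨0, GS.zero_mem⟩
  smul_mem' := by
    rintro c x ⟨u, hu⟩
    exact ⟨c • u, by simpa using GS.smul_mem c hu⟩

/-- the part of a relation orthogonal to its kernel -/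
def aperp (GS : Submodule ℂ (H1 × H2)) : Submodule ℂ (H1 × H2) where
  carrier := {x | x ∈ GS ∧ x.1 ∈ (aker GS)ᗮ}
  add_mem' := by
    rintro a b ⟨h1, h2⟩ ⟨h3, h4⟩
    exact ⟨GS.add_mem h1 h3, (aker GS)ᗮ.add_mem h2 h4⟩
  zero_mem' := ⟨GS.zero_mem, (aker GS)ᗮ.zero_mem⟩
  smul_mem' := by
    rintro c x ⟨h1, h2⟩
    exact ⟨GS.smul_mem c h1, (aker GS)ᗮ.smul_mem c h2⟩

omit [CompleteSpace H1] [CompleteSpace H2] in
theorem isClosed_aperp (GS : Submodule ℂ (H1 × H2)) (h : IsClosed (GS : Set (H1 × H2))) :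
    IsClosed (aperp GS : Set (H1 × H2)) :=
  h.inter ((Submodule.isClosed_orthogonal (aker GS)).preimage continuous_fst)

omit [CompleteSpace H1] [CompleteSpace H2] in
theorem mem_aker_perp (GS : Submodule ℂ (H1 × H2)) (u : H1) :
    u ∈ (aker GS)ᗮ ↔ ∀ u0, (u0, (0 : H2)) ∈ GS → inner ℂ u0 u = 0 :=
  Submodule.mem_orthogonal _ _

omit [CompleteSpace H2] in
/-- every element of the range has a preimage orthogonal to the kernel -/
theorem exists_perp (GS : Submodule ℂ (H1 × H2)) (h : IsClosed (GS : Set (H1 × H2)))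
    (u : H1) (c : H2) (hu : (u, c) ∈ GS) : ∃ v, (v, c) ∈ GS ∧ v ∈ (aker GS)ᗮ := by
  have : CompleteSpace (aker GS) := (isClosed_aker GS h).completeSpace_coe
  refine ⟨u - (aker GS).starProjection u, ?_, Submodule.sub_starProjection_mem_orthogonal u⟩
  have h1 : ((aker GS).starProjection u, (0 : H2)) ∈ GS :=
    Submodule.starProjection_apply_mem (aker GS) u
  simpa using GS.sub_mem hu h1

theorem isClosed_aran (GS : Submodule ℂ (H1 × H2)) (h : IsClosed (GS : Set (H1 × H2)))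
    (hb : ∀ u c, (u, c) ∈ GS → (∀ u0, (u0, (0 : H2)) ∈ GS → inner ℂ u0 u = 0) →
      ‖u‖ ^ 2 ≤ ‖c‖ ^ 2) : IsClosed (aran GS : Set H2) := by
  have : CompleteSpace (aperp GS) := (isClosed_aperp GS h).completeSpace_coe
  let f : aperp GS →L[ℂ] H2 := (ContinuousLinearMap.snd ℂ H1 H2).comp (aperp GS).subtypeL
  have hf : ∀ x : aperp GS, ‖x‖ ≤ ‖f x‖ := by
    intro x
    have h1 := hb x.1.1 x.1.2 x.2.1 ((mem_aker_perp GS _).1 x.2.2)
    have h2 : ‖x.1.1‖ ≤ ‖x.1.2‖ := abs_le_of_sq_le_sq' h1 (norm_nonneg _) |>.2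
    show ‖(x : H1 × H2)‖ ≤ ‖x.1.2‖
    rw [Prod.norm_def]
    exact max_le h2 le_rfl
  have ha : AntilipschitzWith 1 f := by
    refine ContinuousLinearMap.antilipschitz_of_bound f (fun x => ?_)
    simpa using hf x
  have hc := ha.isClosed_range f.uniformContinuous
  have : (aran GS : Set H2) = range f := by
    ext c
    constructor
    · rintro ⟨u, hu⟩
      obtain ⟨v, hv, hv'⟩ := exists_perp GS h u c hu
      exact ⟨⟨(v, c), hv, hv'⟩, rfl⟩
    · rintro ⟨x, rfl⟩
      exact ⟨x.1.1, x.2.1⟩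
  rw [this]
  exact hc

omit [CompleteSpace H2] in
/-- the two solution operators -/
theorem abs_AL (GT : Submodule ℂ (H0 × H1)) (GS : Submodule ℂ (H1 × H2))
    (hTc : IsClosed (GT : Set (H0 × H1))) (hSc : IsClosed (GS : Set (H1 × H2)))
    (ha : ∀ f a, (f, a) ∈ GT → (∀ f0, (f0, (0 : H1)) ∈ GT → inner ℂ f0 f = 0) → f ≠ 0 →
      ‖f‖ ^ 2 < 4 * ‖a‖ ^ 2)
    (hb : ∀ u c, (u, c) ∈ GS → (∀ u0, (u0, (0 : H2)) ∈ GS → inner ℂ u0 u = 0) →
      ‖u‖ ^ 2 ≤ ‖c‖ ^ 2)
    (hc : ∀ u, (u, (0 : H2)) ∈ GS → ∃ f, (f, u) ∈ GT)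
    [(aker GS).HasOrthogonalProjection] :
    (∃ A : H1 →L[ℂ] H0, ∀ u, (A u, (aker GS).starProjection u) ∈ GT ∧ A u ∈ (aker GT)ᗮ) ∧
    ∃ L : aran GS →L[ℂ] H1, (∀ c : aran GS, (L c, (c : H2)) ∈ GS ∧ L c ∈ (aker GS)ᗮ) ∧
      ∀ c, ‖L c‖ ≤ ‖c‖ := by
  have ha' : ∀ f a, (f, a) ∈ GT → f ∈ (aker GT)ᗮ → ‖f‖ ≤ 2 * ‖a‖ := by
    intro f a h1 h2
    by_cases h3 : f = 0
    · rw [h3, norm_zero]; positivity
    · have := ha f a h1 ((mem_aker_perp GT f).1 h2) h3
      refine abs_le_of_sq_le_sq' ?_ (by positivity) |>.2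
      rw [mul_pow]
      linarith
  have hb' : ∀ u c, (u, c) ∈ GS → u ∈ (aker GS)ᗮ → ‖u‖ ≤ ‖c‖ := by
    intro u c h1 h2
    exact abs_le_of_sq_le_sq' (hb u c h1 ((mem_aker_perp GS u).1 h2)) (norm_nonneg _) |>.2
  constructor
  · let G : Submodule ℂ (H1 × H0) :=
      { carrier := {x | (x.2, (aker GS).starProjection x.1) ∈ GT ∧ x.2 ∈ (aker GT)ᗮ}
        add_mem' := by
          rintro a b ⟨h1, h2⟩ ⟨h3, h4⟩
          refine ⟨?_, (aker GT)ᗮ.add_mem h2 h4⟩
          have := GT.add_mem h1 h3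
          simpa using this
        zero_mem' := by
          refine ⟨?_, (aker GT)ᗮ.zero_mem⟩
          show ((0 : H0), (aker GS).starProjection (0 : H1)) ∈ GT
          rw [map_zero]
          exact GT.zero_mem
        smul_mem' := by
          rintro c x ⟨h1, h2⟩
          refine ⟨?_, (aker GT)ᗮ.smul_mem c h2⟩
          have := GT.smul_mem c h1
          simpa using this }
    obtain ⟨A, hA⟩ := abs_op G (fun y hy => by
        have h1 : (y, (aker GS).starProjection (0 : H1)) ∈ GT := hy.1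
        rw [map_zero] at h1
        exact inner_self_eq_zero.1 ((Submodule.mem_orthogonal _ _).1 hy.2 y h1))
      (fun x => by
        obtain ⟨f, hf⟩ := hc _ (Submodule.starProjection_apply_mem (aker GS) x)
        obtain ⟨v, hv, hv'⟩ := exists_perp GT hTc f _ hf
        exact ⟨v, hv, hv'⟩) 2
      (fun x y hy => (ha' _ _ hy.1 hy.2).trans (by
        gcongr
        exact (aker GS).norm_starProjection_apply_le x))
    exact ⟨A, hA⟩
  · let G : Submodule ℂ (aran GS × H1) :=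
      { carrier := {x | (x.2, (x.1 : H2)) ∈ GS ∧ x.2 ∈ (aker GS)ᗮ}
        add_mem' := by
          rintro a b ⟨h1, h2⟩ ⟨h3, h4⟩
          refine ⟨?_, (aker GS)ᗮ.add_mem h2 h4⟩
          have := GS.add_mem h1 h3
          simpa using this
        zero_mem' := by
          exact ⟨GS.zero_mem, (aker GS)ᗮ.zero_mem⟩
        smul_mem' := by
          rintro c x ⟨h1, h2⟩
          refine ⟨?_, (aker GS)ᗮ.smul_mem c h2⟩
          have := GS.smul_mem c h1
          simpa using this }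
    have bd : ∀ x y, (x, y) ∈ G → ‖y‖ ≤ 1 * ‖x‖ := fun x y hy => by
      rw [one_mul]
      exact hb' _ _ hy.1 hy.2
    obtain ⟨L, hL⟩ := abs_op G (fun y hy => by
        have h1 : (y, (0 : H2)) ∈ GS := hy.1
        exact inner_self_eq_zero.1 ((Submodule.mem_orthogonal _ _).1 hy.2 y h1))
      (fun x => by
        obtain ⟨u, hu⟩ := x.2
        obtain ⟨v, hv, hv'⟩ := exists_perp GS hSc u _ hu
        exact ⟨v, hv, hv'⟩) 1 bd
    exact ⟨L, hL, fun c => by simpa using bd _ _ (hL c)⟩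


/-- the inverse of the Laplacian -/
theorem abs_inv (GT : Submodule ℂ (H0 × H1)) (GS : Submodule ℂ (H1 × H2))
    (hTc : IsClosed (GT : Set (H0 × H1))) (hSc : IsClosed (GS : Set (H1 × H2)))
    (hTS : ∀ f a, (f, a) ∈ GT → (a, (0 : H2)) ∈ GS)
    (ha : ∀ f a, (f, a) ∈ GT → (∀ f0, (f0, (0 : H1)) ∈ GT → inner ℂ f0 f = 0) → f ≠ 0 →
      ‖f‖ ^ 2 < 4 * ‖a‖ ^ 2)
    (hb : ∀ u c, (u, c) ∈ GS → (∀ u0, (u0, (0 : H2)) ∈ GS → inner ℂ u0 u = 0) →
      ‖u‖ ^ 2 ≤ ‖c‖ ^ 2)
    (hc : ∀ u, (u, (0 : H2)) ∈ GS → ∃ f, (f, u) ∈ GT) :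
    ∃ (P : H1 →L[ℂ] H1) (A : H1 →L[ℂ] H0) (N : H1 →L[ℂ] H1) (l : H1 → ℝ),
      (∀ u x, ABox GT GS u x ↔ u = N x) ∧
      (∀ u, (A u, P u) ∈ GT) ∧
      (∀ u, ‖u‖ ^ 2 = ‖P u‖ ^ 2 + ‖u - P u‖ ^ 2) ∧
      (∀ u, l u ≤ ‖u - P u‖ ^ 2) ∧ (∀ u, 0 ≤ l u) ∧
      (∀ u, P u ≠ 0 → ‖A u‖ ^ 2 < 4 * ‖P u‖ ^ 2) ∧
      (∀ u, P u = 0 → A u = 0) ∧
      IsSelfAdjoint N ∧ (∀ u, inner ℂ (N u) u = ((‖A u‖ ^ 2 + l u : ℝ) : ℂ)) ∧ ‖N‖ ≤ 4 ∧
      (∀ f a, (f, a) ∈ GT → (∀ f0, (f0, (0 : H1)) ∈ GT → inner ℂ f0 f = 0) → A a = f) := by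
  have : CompleteSpace (aker GS) := (isClosed_aker GS hSc).completeSpace_coe
  have : CompleteSpace (aran GS) := (isClosed_aran GS hSc hb).completeSpace_coe
  have : CompleteSpace (aker GT) := (isClosed_aker GT hTc).completeSpace_coe
  obtain ⟨⟨A, hA⟩, L, hL, hL1⟩ := abs_AL GT GS hTc hSc ha hb hc
  set P := (aker GS).starProjection with hP
  -- single valuedness
  have uT : ∀ f f' a, (f, a) ∈ GT → (f', a) ∈ GT → f ∈ (aker GT)ᗮ → f' ∈ (aker GT)ᗮ → f = f' := by
    intro f f' a h1 h2 h3 h4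
    have h5 : f - f' ∈ aker GT := by
      have := GT.sub_mem h1 h2
      rw [mem_aker]
      simpa using this
    exact sub_eq_zero.1 (inner_self_eq_zero.1
      ((Submodule.mem_orthogonal _ _).1 ((aker GT)ᗮ.sub_mem h3 h4) _ h5))
  have uS : ∀ u u' c, (u, c) ∈ GS → (u', c) ∈ GS → u ∈ (aker GS)ᗮ → u' ∈ (aker GS)ᗮ →
      u = u' := by
    intro f f' a h1 h2 h3 h4
    have h5 : f - f' ∈ aker GS := by
      have := GS.sub_mem h1 h2
      rw [mem_aker]
      simpa using this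
    exact sub_eq_zero.1 (inner_self_eq_zero.1
      ((Submodule.mem_orthogonal _ _).1 ((aker GS)ᗮ.sub_mem h3 h4) _ h5))
  have hPmem : ∀ u, P u ∈ aker GS := fun u => Submodule.starProjection_apply_mem (aker GS) u
  have hPperp : ∀ u, u - P u ∈ (aker GS)ᗮ := fun u => Submodule.sub_starProjection_mem_orthogonal u
  have hPid : ∀ u ∈ aker GS, P u = u := fun u hu => Submodule.starProjection_eq_self_iff.2 hu
  have hP0 : ∀ u ∈ (aker GS)ᗮ, P u = 0 := fun u hu =>
    (Submodule.starProjection_apply_eq_zero_iff (aker GS)).2 hu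
  have hPs : ∀ u v, inner ℂ (P u) v = inner ℂ u (P v) := fun u v =>
    Submodule.inner_starProjection_left_eq_right (aker GS) u v
  have orth : ∀ u ∈ aker GS, ∀ v ∈ (aker GS)ᗮ, inner ℂ u v = 0 := fun u hu v hv =>
    (Submodule.mem_orthogonal _ _).1 hv u hu
  have orth' : ∀ u ∈ aker GS, ∀ v ∈ (aker GS)ᗮ, inner ℂ v u = 0 := fun u hu v hv =>
    (Submodule.mem_orthogonal' _ _).1 hv u hu
  -- `A` on the range of `T`
  have hAa : ∀ f a, (f, a) ∈ GT → A a = f - (aker GT).starProjection f := by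
    intro f a h
    have h1 : a ∈ aker GS := hTS f a h
    have h2 := (hA a).1
    rw [hPid a h1] at h2
    refine uT _ _ a h2 ?_ (hA a).2 (Submodule.sub_starProjection_mem_orthogonal f)
    have h3 : ((aker GT).starProjection f, (0 : H1)) ∈ GT :=
      Submodule.starProjection_apply_mem (aker GT) f
    simpa using GT.sub_mem h h3
  have hAP : ∀ u ∈ (aker GS)ᗮ, A u = 0 := by
    intro u hu
    have h2 := hA u
    rw [hP0 u hu] at h2
    exact uT _ _ 0 h2.1 GT.zero_mem h2.2 (aker GT)ᗮ.zero_mem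
  -- the adjoints
  set A' := ContinuousLinearMap.adjoint A with hA'
  set L' := ContinuousLinearMap.adjoint L with hL'
  have adA : ∀ x y, inner ℂ (A' x) y = inner ℂ x (A y) := fun x y =>
    ContinuousLinearMap.adjoint_inner_left A y x
  have adA2 : ∀ x y, inner ℂ x (A' y) = inner ℂ (A x) y := fun x y =>
    ContinuousLinearMap.adjoint_inner_right A x y
  have adL : ∀ x y, inner ℂ (L' x) y = inner ℂ x (L y) := fun x y =>
    ContinuousLinearMap.adjoint_inner_left L y x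
  have adL2 : ∀ x y, inner ℂ x (L' y) = inner ℂ (L x) y := fun x y =>
    ContinuousLinearMap.adjoint_inner_right L x y
  have hA'K : ∀ x, A' x ∈ aker GS := by
    intro x
    have hcl := Submodule.orthogonal_orthogonal (aker GS)
    rw [← hcl, Submodule.mem_orthogonal]
    intro u hu
    rw [adA2, hAP u hu, inner_zero_left]
  have hL'K : ∀ x ∈ aker GS, L' x = 0 := by
    intro x hx
    refine ext_inner_left ℂ fun v => ?_
    rw [adL2, inner_zero_right]
    exact orth' x hx _ (hL v).2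
  let N : H1 →L[ℂ] H1 := A'.comp A + L.comp L'
  have hNap : ∀ x, N x = A' (A x) + L (L' x) := fun x => rfl
  have hNin : ∀ u, inner ℂ (N u) u = ((‖A u‖ ^ 2 + ‖L' u‖ ^ 2 : ℝ) : ℂ) := by
    intro u
    rw [hNap, inner_add_left, adA, ← adL2, inner_self_eq_norm_sq_to_K,
      inner_self_eq_norm_sq_to_K]
    push_cast
    rfl
  have hNs : IsSelfAdjoint N := by
    rw [ContinuousLinearMap.isSelfAdjoint_iff_isSymmetric]
    intro x y
    show inner ℂ (N x) y = inner ℂ x (N y)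
    rw [hNap, hNap, inner_add_left, inner_add_right, adA, adA2, ← adL2, ← adL]
  have hL'n : ∀ u, ‖L' u‖ ≤ ‖u - P u‖ := by
    intro u
    have h1 : L' u = L' (u - P u) := by
      rw [map_sub, hL'K _ (hPmem u), sub_zero]
    have h2 : ‖L‖ ≤ 1 := L.opNorm_le_bound zero_le_one (fun c => by rw [one_mul]; exact hL1 c)
    have h3 : ‖L'‖ ≤ 1 := by
      rw [hL', ContinuousLinearMap.adjoint.norm_map]
      exact h2
    rw [h1]
    calc ‖L' (u - P u)‖ ≤ ‖L'‖ * ‖u - P u‖ := L'.le_opNorm _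
      _ ≤ 1 * ‖u - P u‖ := by gcongr
      _ = _ := one_mul _
  have hPy : ∀ u, ‖u‖ ^ 2 = ‖P u‖ ^ 2 + ‖u - P u‖ ^ 2 := by
    intro u
    have h1 := norm_add_sq_eq_norm_sq_add_norm_sq_of_inner_eq_zero (𝕜 := ℂ) (P u) (u - P u)
      (orth _ (hPmem u) _ (hPperp u))
    rw [add_sub_cancel] at h1
    rw [sq, sq, sq]
    exact h1
  have hAn : ∀ u, ‖A u‖ ≤ 2 * ‖P u‖ := by
    intro u
    by_cases h3 : A u = 0
    · rw [h3, norm_zero]; positivity
    · have := ha _ _ (hA u).1 ((mem_aker_perp GT _).1 (hA u).2) h3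
      refine abs_le_of_sq_le_sq' ?_ (by positivity) |>.2
      rw [mul_pow]
      linarith
  have hAnn : ‖A‖ ≤ 2 := A.opNorm_le_bound (by norm_num) (fun u => (hAn u).trans (by
    gcongr
    exact (aker GS).norm_starProjection_apply_le u))
  have hN4 : ‖N‖ ≤ 4 := by
    refine N.opNorm_le_bound (by norm_num) (fun u => ?_)
    refine abs_le_of_sq_le_sq' ?_ (by positivity) |>.2
    have h1 := norm_add_sq_eq_norm_sq_add_norm_sq_of_inner_eq_zero (𝕜 := ℂ) (A' (A u)) (L (L' u))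
      (orth _ (hA'K _) _ (hL _).2)
    have h2 : ‖A' (A u)‖ ≤ 4 * ‖P u‖ := by
      have h3 : ‖A'‖ ≤ 2 := by
        rw [hA', ContinuousLinearMap.adjoint.norm_map]
        exact hAnn
      calc ‖A' (A u)‖ ≤ ‖A'‖ * ‖A u‖ := A'.le_opNorm _
        _ ≤ 2 * (2 * ‖P u‖) := by gcongr; exact hAn u
        _ = _ := by ring
    have h3 : ‖L (L' u)‖ ≤ ‖u - P u‖ := (hL1 _).trans (hL'n u)
    have h4 := hPy u
    rw [hNap, sq, h1]
    nlinarith [norm_nonneg (A' (A u)), norm_nonneg (L (L' u)), norm_nonneg (P u),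
      norm_nonneg (u - P u)]
  refine ⟨P, A, N, fun u => ‖L' u‖ ^ 2, ?_, fun u => (hA u).1, hPy, fun u =>
      pow_le_pow_left₀ (norm_nonneg _) (hL'n u) 2, fun u => sq_nonneg _, ?_, ?_, hNs, hNin, hN4, ?_⟩
  · -- the Laplacian is the inverse of `N`
    intro u x
    constructor
    · rintro ⟨g, c, p, q, h1, h2, h3, h4, h5⟩
      have hp : p ∈ aker GS := hTS g p h2
      have hq : q ∈ (aker GS)ᗮ := by
        rw [mem_aker_perp]
        intro k hk
        have := h4 k 0 hk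
        rw [inner_zero_left] at this
        exact this.symm
      have hg : g ∈ (aker GT)ᗮ := by
        rw [mem_aker_perp]
        intro k hk
        have := h1 k 0 hk
        rw [inner_zero_left] at this
        exact this.symm
      have hPx : P x = p := by
        rw [h5, map_add, hPid p hp, hP0 q hq, add_zero]
      have hAx : A x = g := by
        have := hA x
        rw [hPx] at this
        exact uT _ _ p this.1 h2 this.2 hg
      have hcr : c ∈ aran GS := ⟨u, h3⟩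
      have hLx : L' x = ⟨c, hcr⟩ := by
        refine ext_inner_left ℂ fun v => ?_
        rw [adL2, h5, inner_add_right, orth' p hp _ (hL v).2, zero_add]
        exact (h4 _ _ (hL v).1).symm
      have hNx : N x = A' g + L ⟨c, hcr⟩ := by rw [hNap, hAx, hLx]
      have hd1 : u - N x ∈ aker GS := by
        have h6 : (N x, c) ∈ GS := by
          have e1 : (A' g, (0 : H2)) ∈ GS := hA'K g
          have e2 := (hL ⟨c, hcr⟩).1
          have := GS.add_mem e1 e2
          rw [hNx]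
          simpa using this
        have := GS.sub_mem h3 h6
        rw [mem_aker]
        simpa using this
      obtain ⟨f, hf⟩ := hc _ hd1
      have e1 := h1 _ _ hf
      have e2 : ∀ d ∈ aker GS, (f, d) ∈ GT →
          inner ℂ d (A' g + L ⟨c, hcr⟩) = inner ℂ f g := by
        intro d hd1 hf
        rw [inner_add_right, orth _ hd1 _ (hL _).2, add_zero, adA2, hAa _ _ hf, inner_sub_left,
          (Submodule.mem_orthogonal _ _).1 hg _
          (Submodule.starProjection_apply_mem (aker GT) f), sub_zero]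
      have e3 : inner ℂ (u - N x) (u - N x) = (0 : ℂ) := by
        rw [inner_sub_right, e1, ← e2 _ hd1 hf, ← hNx, sub_self]
      exact sub_eq_zero.1 (inner_self_eq_zero.1 e3)
    · rintro rfl
      refine ⟨A x, (L' x : H2), P x, x - P x, ?_, (hA x).1, ?_, ?_, by abel⟩
      · intro f a hfa
        have hak : a ∈ aker GS := hTS f a hfa
        rw [hNap, inner_add_right, adA2, hAa f a hfa, inner_sub_left,
          (Submodule.mem_orthogonal _ _).1 (hA x).2 _
          (Submodule.starProjection_apply_mem (aker GT) f), sub_zero,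
          orth a hak _ (hL _).2, add_zero]
      · have e1 : (A' (A x), (0 : H2)) ∈ GS := hA'K _
        have e2 := (hL (L' x)).1
        have := GS.add_mem e1 e2
        rw [hNap]
        simpa using this
      · intro f a hfa
        have hr : a ∈ aran GS := ⟨f, hfa⟩
        have e1 : L ⟨a, hr⟩ = f - P f := by
          refine uS _ _ a (hL ⟨a, hr⟩).1 ?_ (hL ⟨a, hr⟩).2 (hPperp f)
          have h3 : (P f, (0 : H2)) ∈ GS := hPmem f
          simpa using GS.sub_mem hfa h3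
        have e2 : inner ℂ a (L' x : H2) = inner ℂ (L ⟨a, hr⟩) x := adL2 ⟨a, hr⟩ x
        rw [e2, e1, inner_sub_left, inner_sub_right, hPs]
  · intro u hu
    by_cases h3 : A u = 0
    · have := norm_pos_iff.2 hu
      rw [h3, norm_zero, zero_pow two_ne_zero]
      positivity
    · exact ha _ _ (hA u).1 ((mem_aker_perp GT _).1 (hA u).2) h3
  · intro u hu
    have h2 := hA u
    rw [hu] at h2
    exact uT _ _ 0 h2.1 GT.zero_mem h2.2 (aker GT)ᗮ.zero_mem
  · intro f a hfa hk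
    have h1 : a ∈ aker GS := hTS f a hfa
    have h2 := (hA a).1
    rw [hPid a h1] at h2
    exact uT _ _ a h2 hfa (hA a).2 ((mem_aker_perp GT f).2 hk)

end

theorem abs_main {H0 H1 H2 : Type*} [NormedAddCommGroup H0] [InnerProductSpace ℂ H0]
    [CompleteSpace H0] [NormedAddCommGroup H1] [InnerProductSpace ℂ H1] [CompleteSpace H1]
    [NormedAddCommGroup H2] [InnerProductSpace ℂ H2] [CompleteSpace H2]
    (GT : Submodule ℂ (H0 × H1)) (GS : Submodule ℂ (H1 × H2))
    (hTc : IsClosed (GT : Set (H0 × H1))) (hSc : IsClosed (GS : Set (H1 × H2)))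
    (hTs : ∀ a, ((0 : H0), a) ∈ GT → a = 0) (hSs : ∀ c, ((0 : H1), c) ∈ GS → c = 0)
    (hTd : Dense {f : H0 | ∃ a, (f, a) ∈ GT}) (hSd : Dense {u : H1 | ∃ c, (u, c) ∈ GS})
    (hTS : ∀ f a, (f, a) ∈ GT → (a, (0 : H2)) ∈ GS)
    (ha : ∀ f a, (f, a) ∈ GT → (∀ f0, (f0, (0 : H1)) ∈ GT → inner ℂ f0 f = 0) → f ≠ 0 →
      ‖f‖ ^ 2 < 4 * ‖a‖ ^ 2)
    (hb : ∀ u c, (u, c) ∈ GS → (∀ u0, (u0, (0 : H2)) ∈ GS → inner ℂ u0 u = 0) →
      ‖u‖ ^ 2 ≤ ‖c‖ ^ 2)
    (hc : ∀ u, (u, (0 : H2)) ∈ GS → ∃ f, (f, u) ∈ GT)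
    (hd : ∀ m > (1 / 4 : ℝ), ∃ f a, (f, a) ∈ GT ∧
      (∀ f0, (f0, (0 : H1)) ∈ GT → inner ℂ f0 f = 0) ∧ f ≠ 0 ∧ ‖a‖ ^ 2 < m * ‖f‖ ^ 2) :
    (∀ t : ℂ, ¬ (t.im = 0 ∧ 1 / 4 ≤ t.re) →
      ∀ v, ∃! u, ∃ x, ABox GT GS u x ∧ x - t • u = v) ∧
    ¬ (∀ v, ∃! u, ∃ x, ABox GT GS u x ∧ x - (1 / 4 : ℂ) • u = v) ∧
    ∀ u, ABox GT GS u ((1 / 4 : ℂ) • u) → u = 0 := by
  obtain ⟨P, A, N, l, hbox, hAG, hPy, hl, hl0, hA4, hA0, hNs, hNin, hN4, hAf⟩ :=
    abs_inv GT GS hTc hSc hTS ha hb hc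
  -- the equation
  have heq : ∀ (t : ℂ) (u v : H1), (∃ x, ABox GT GS u x ∧ x - t • u = v) ↔
      u - t • N u = N v := by
    intro t u v
    constructor
    · rintro ⟨x, h1, h2⟩
      rw [hbox] at h1
      have : x = v + t • u := by rw [← h2]; abel
      rw [this, map_add, map_smul] at h1
      rw [sub_eq_iff_eq_add]
      exact h1
    · intro h
      refine ⟨v + t • u, ?_, by abel⟩
      rw [hbox, map_add, map_smul]
      exact sub_eq_iff_eq_add.1 h
  have hNpos : (0 : H1 →L[ℂ] H1) ≤ N := by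
    rw [ContinuousLinearMap.nonneg_iff_isPositive, ContinuousLinearMap.isPositive_iff']
    refine ⟨hNs, fun x => ?_⟩
    rw [hNin]
    have : (0 : ℝ) ≤ ‖A x‖ ^ 2 + l x := add_nonneg (sq_nonneg _) (hl0 x)
    exact_mod_cast this
  have hspec : ∀ z ∈ spectrum ℂ N, z.im = 0 ∧ 0 ≤ z.re ∧ z.re ≤ 4 := by
    intro z hz
    have h1 := spectrum_nonneg_of_nonneg hNpos hz
    rw [Complex.le_def] at h1
    have h2 : ‖z‖ ≤ 4 := by
      have e1 := spectrum.norm_le_norm_mul_of_mem hz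
      have e2 : ‖(1 : H1 →L[ℂ] H1)‖ ≤ 1 := ContinuousLinearMap.norm_id_le
      calc ‖z‖ ≤ ‖N‖ * ‖(1 : H1 →L[ℂ] H1)‖ := e1
        _ ≤ 4 * 1 := by gcongr
        _ = 4 := by norm_num
    exact ⟨h1.2.symm, h1.1, (Complex.re_le_norm z).trans h2⟩
  refine ⟨?_, ?_, ?_⟩
  · intro t ht v
    simp only [heq]
    have hu : ∀ t : ℂ, ¬ (t.im = 0 ∧ 1 / 4 ≤ t.re) → IsUnit (1 - t • N) := by
      intro t ht
      by_cases h0 : t = 0
      · rw [h0, zero_smul, sub_zero]
        exact isUnit_one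
      have h1 : t⁻¹ ∉ spectrum ℂ N := by
        intro h
        obtain ⟨e1, e2, e3⟩ := hspec _ h
        apply ht
        have e4 : (t⁻¹ : ℂ) = ((t⁻¹).re : ℂ) := by
          apply Complex.ext
          · simp
          · rw [e1]; simp
        have e5 : t = (((t⁻¹).re)⁻¹ : ℝ) := by
          rw [Complex.ofReal_inv, ← e4, inv_inv]
        have e6 : 0 < (t⁻¹).re := by
          rcases e2.lt_or_eq with h | h
          · exact h
          · exfalso
            rw [← h] at e5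
            simp at e5
            exact h0 e5
        refine ⟨by rw [e5]; simp, ?_⟩
        rw [e5, Complex.ofReal_re]
        rw [one_div]
        exact inv_anti₀ e6 e3
      rw [spectrum.notMem_iff] at h1
      have h2 : (1 - t • N) = t • (algebraMap ℂ (H1 →L[ℂ] H1) t⁻¹ - N) := by
        rw [smul_sub, Algebra.algebraMap_eq_smul_one, smul_smul, mul_inv_cancel₀ h0, one_smul]
      rw [h2]
      have h3 := h1.smul (Units.mk0 t h0)
      exact h3
    obtain ⟨U, hU⟩ := hu t ht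
    have hUa : ∀ x, (U : H1 →L[ℂ] H1) x = x - t • N x := by
      intro x
      rw [hU]
      simp
    refine ⟨(↑U⁻¹ : H1 →L[ℂ] H1) (N v), ?_, ?_⟩
    · show _ - t • N _ = N v
      rw [← hUa, ← mul_apply_eq_comp, U.mul_inv, one_apply_eq_self]
    · intro y hy
      have hy' : y - t • N y = N v := hy
      rw [← hy', ← hUa, ← mul_apply_eq_comp, U.inv_mul,
        one_apply_eq_self]
  · intro hall
    simp only [heq] at hall
    -- `1 - N/4` is bijective
    have hinj : Function.Injective (1 - (1 / 4 : ℂ) • N : H1 →L[ℂ] H1) := by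
      rw [injective_iff_map_eq_zero]
      intro w hw
      have hw' : w - (1 / 4 : ℂ) • N w = 0 := by simpa using hw
      exact (hall 0).unique (by show _ = _; rw [hw', map_zero])
        (by show _ = _; simp)
    have hsur : Function.Surjective (1 - (1 / 4 : ℂ) • N : H1 →L[ℂ] H1) := by
      intro g
      obtain ⟨w, hw, -⟩ := hall ((1 / 4 : ℂ) • g)
      refine ⟨g + w, ?_⟩
      have hw' : w - (1 / 4 : ℂ) • N w = N ((1 / 4 : ℂ) • g) := hw
      show (g + w) - (1 / 4 : ℂ) • N (g + w) = g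
      rw [map_add, smul_add, ← map_smul, ← hw']
      abel
    have hunit : IsUnit (1 - (1 / 4 : ℂ) • N : H1 →L[ℂ] H1) :=
      ContinuousLinearMap.isUnit_iff_bijective.2 ⟨hinj, hsur⟩
    have h4 : (4 : ℂ) ∉ spectrum ℂ N := by
      rw [spectrum.notMem_iff]
      have h2 : algebraMap ℂ (H1 →L[ℂ] H1) 4 - N = (4 : ℂ) • (1 - (1 / 4 : ℂ) • N) := by
        rw [smul_sub, Algebra.algebraMap_eq_smul_one, smul_smul]
        norm_num
      rw [h2]
      exact hunit.smul (Units.mk0 (4 : ℂ) (by norm_num))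
    apply h4
    -- `‖N‖ = 4`
    have hge : ∀ m > (1 / 4 : ℝ), 1 / m ≤ ‖N‖ := by
      intro m hm
      obtain ⟨f, a, h1, h2, h3, h4⟩ := hd m hm
      have hAa := hAf f a h1 h2
      have ha0 : 0 < ‖a‖ := by
        rcases (norm_nonneg a).lt_or_eq with h | h
        · exact h
        · exfalso
          have := ha f a h1 h2 h3
          rw [← h] at this
          nlinarith [sq_nonneg ‖f‖]
      have e1 : ‖f‖ ^ 2 ≤ ‖N‖ * ‖a‖ ^ 2 := by
        have e2 := hNin a
        have e3 : ‖inner ℂ (N a) a‖ ≤ ‖N‖ * ‖a‖ * ‖a‖ :=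
          (norm_inner_le_norm _ _).trans (by gcongr; exact N.le_opNorm a)
        rw [e2, hAa, Complex.norm_real, Real.norm_of_nonneg
          (add_nonneg (sq_nonneg _) (hl0 a))] at e3
        nlinarith [hl0 a]
      have hm0 : 0 < m := by linarith
      rw [div_le_iff₀ hm0]
      by_contra hlt
      push Not at hlt
      have e5 : 0 < ‖f‖ ^ 2 := by positivity
      have e6 : ‖N‖ * ‖a‖ ^ 2 ≤ ‖N‖ * (m * ‖f‖ ^ 2) := by gcongr
      nlinarith
    have hN4' : 4 ≤ ‖N‖ := by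
      by_contra hlt
      push Not at hlt
      have hN0 : 0 < ‖N‖ := lt_of_lt_of_le (by norm_num) (hge 1 (by norm_num))
      -- take 1/m between ‖N‖ and 4
      have := hge (2 / (‖N‖ + 4)) (by
        rw [gt_iff_lt, div_lt_div_iff₀ (by norm_num) (by linarith)]
        linarith)
      rw [one_div_div] at this
      linarith
    have hNeq : ‖N‖ = 4 := le_antisymm hN4 hN4'
    have hnt : Nontrivial (H1 →L[ℂ] H1) := by
      refine ⟨N, 0, ?_⟩
      intro h
      rw [h, norm_zero] at hNeq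
      norm_num at hNeq
    obtain ⟨z, hz, hz'⟩ := spectrum.exists_nnnorm_eq_spectralRadius N
    rw [hNs.spectralRadius_eq_nnnorm] at hz'
    have hz2 : ‖z‖ = 4 := by
      have : ‖z‖₊ = ‖N‖₊ := by exact_mod_cast hz'
      rw [← hNeq]
      exact congrArg NNReal.toReal this
    obtain ⟨e1, e2, e3⟩ := hspec z hz
    have : z = 4 := by
      have e4 : z = ((z.re : ℝ) : ℂ) := by
        apply Complex.ext
        · simp
        · rw [e1]; simp
      have e5 : z.re = 4 := by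
        rw [e4, Complex.norm_real, Real.norm_of_nonneg e2] at hz2
        exact hz2
      rw [e4, e5]
      norm_num
    rw [← this]
    exact hz
  · intro u hu
    rw [hbox] at hu
    have h1 := hNin u
    have h2 : (4 : ℂ) • u = N u := by
      conv_lhs => rw [hu]
      rw [map_smul, smul_smul]
      norm_num
    rw [← h2, inner_smul_left, inner_self_eq_norm_sq_to_K, map_ofNat] at h1
    have h3 : 4 * ‖u‖ ^ 2 = ‖A u‖ ^ 2 + l u := by
      have : ((4 * ‖u‖ ^ 2 : ℝ) : ℂ) = ((‖A u‖ ^ 2 + l u : ℝ) : ℂ) := by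
        rw [← h1]
        simp
      exact_mod_cast this
    have h4 := hPy u
    have h5 := hl u
    have hPu : P u = 0 := by
      by_contra h
      have := hA4 u h
      nlinarith [sq_nonneg ‖u - P u‖]
    have hAu := hA0 u hPu
    rw [hPu, sub_zero] at h5
    rw [hAu, norm_zero] at h3
    have h6 : ‖u‖ ^ 2 = 0 := by
      nlinarith [sq_nonneg ‖u‖]
    exact norm_eq_zero.1 (pow_eq_zero_iff (by norm_num) |>.1 h6)

end Pool.Agent.DbarN
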