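import Pool.Agent.DbarN.Nice

set_option autoImplicit false

/-!
# Integration by parts up to the fibre boundary
-/

namespace Pool.Agent.DbarN

open MeasureTheory Complex Set Filter
open scoped ComplexConjugate ContDiff Topology

/-! ### cutoffs -/

/-- cutoff on the real line: `1` on `(-∞, 1 - 2/j]`, `0` on `[1 - 1/j, ∞)` -/
noncomputable def bcut (j : ℕ) (s : ℝ) : ℝ := Real.smoothTransition (j * (1 - s) - 1)

/-- its derivative -/
noncomputable def bcut' (j : ℕ) (s : ℝ) : ℝ :=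
  -(j * deriv Real.smoothTransition (j * (1 - s) - 1))

theorem bcut_contDiff (j : ℕ) : ContDiff ℝ ∞ (bcut j) :=
  Real.smoothTransition.contDiff.comp
    ((contDiff_const.mul (contDiff_const.sub contDiff_id)).sub contDiff_const)

theorem bst_contDiff : ContDiff ℝ ∞ Real.smoothTransition := Real.smoothTransition.contDiff

theorem bst_deriv_cont : Continuous (deriv Real.smoothTransition) :=
  bst_contDiff.continuous_deriv (by simp)

theorem bst_deriv_zero {t : ℝ} (ht : t ≤ 0 ∨ 1 ≤ t) : deriv Real.smoothTransition t = 0 := by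
  rcases ht with ht | ht
  · have h : IsLocalMin Real.smoothTransition t := by
      refine Eventually.of_forall fun s => ?_
      rw [Real.smoothTransition.zero_of_nonpos ht]
      exact Real.smoothTransition.nonneg s
    exact h.deriv_eq_zero
  · have h : IsLocalMax Real.smoothTransition t := by
      refine Eventually.of_forall fun s => ?_
      rw [Real.smoothTransition.one_of_one_le ht]
      exact Real.smoothTransition.le_one s
    exact h.deriv_eq_zero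

theorem bst_bound : ∃ C, 0 ≤ C ∧ ∀ t, |deriv Real.smoothTransition t| ≤ C := by
  obtain ⟨C, hC⟩ := (isCompact_Icc (a := (0 : ℝ)) (b := 1)).exists_bound_of_continuousOn
    bst_deriv_cont.continuousOn
  refine ⟨max 0 C, le_max_left _ _, fun t => ?_⟩
  by_cases ht : t ∈ Icc (0 : ℝ) 1
  · exact (hC t ht).trans (le_max_right _ _)
  · rw [bst_deriv_zero (by
      rw [mem_Icc, not_and_or] at ht
      rcases ht with ht | ht
      · left; linarith
      · right; linarith), abs_zero]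
    exact le_max_left _ _

theorem bcut_hasDerivAt (j : ℕ) (s : ℝ) : HasDerivAt (bcut j) (bcut' j s) s := by
  have h1 : HasDerivAt (fun s : ℝ => (j : ℝ) * (1 - s) - 1) (-(j : ℝ)) s := by
    have := (((hasDerivAt_id s).const_sub 1).const_mul (j : ℝ)).sub_const 1
    simpa using this
  have h2 : HasDerivAt Real.smoothTransition
      (deriv Real.smoothTransition (j * (1 - s) - 1)) (j * (1 - s) - 1) :=
    (bst_contDiff.differentiable (by simp)).differentiableAt.hasDerivAt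
  have h3 : HasDerivAt (bcut j) (deriv Real.smoothTransition (j * (1 - s) - 1) * -(j : ℝ)) s :=
    h2.comp s h1
  exact h3.congr_deriv (by unfold bcut'; ring)

theorem bcut'_cont (j : ℕ) : Continuous (bcut' j) := by
  unfold bcut'
  exact (continuous_const.mul (bst_deriv_cont.comp (by fun_prop))).neg

theorem bcut_eq_zero {j : ℕ} (hj : 0 < j) {s : ℝ} (hs : 1 - 1 / (j : ℝ) ≤ s) : bcut j s = 0 := by
  unfold bcut
  apply Real.smoothTransition.zero_of_nonpos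
  have hj' : (0 : ℝ) < j := by exact_mod_cast hj
  have h1 : (j : ℝ) * (1 - s) ≤ j * (1 / j) := by
    apply mul_le_mul_of_nonneg_left _ hj'.le
    linarith
  rw [mul_one_div_cancel hj'.ne'] at h1
  linarith

/-- eventually the cutoffs are `1` near a point below `1` -/
theorem bcut_eventually {s : ℝ} (hs : s < 1) :
    ∀ᶠ j : ℕ in atTop, bcut j s = 1 ∧ bcut' j s = 0 := by
  obtain ⟨N, hN⟩ := exists_nat_gt (2 / (1 - s))
  filter_upwards [eventually_ge_atTop N] with j hj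
  have h1 : (0 : ℝ) < 1 - s := by linarith
  have h2 : (N : ℝ) ≤ j := by exact_mod_cast hj
  have h3 : 2 ≤ (j : ℝ) * (1 - s) := by
    have := (div_lt_iff₀ h1).1 (hN.trans_le h2)
    linarith
  constructor
  · unfold bcut
    exact Real.smoothTransition.one_of_one_le (by linarith)
  · unfold bcut'
    rw [bst_deriv_zero (Or.inr (by linarith))]
    simp

theorem bcut_nonneg (j : ℕ) (s : ℝ) : 0 ≤ bcut j s := Real.smoothTransition.nonneg _
theorem bcut_le_one (j : ℕ) (s : ℝ) : bcut j s ≤ 1 := Real.smoothTransition.le_one _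

theorem bcut'_bound : ∃ C, 0 ≤ C ∧ ∀ (j : ℕ) (s : ℝ), s < 1 → |bcut' j s| * (1 - s) ≤ C := by
  obtain ⟨C, hC0, hC⟩ := bst_bound
  refine ⟨2 * C, by linarith, fun j s hs => ?_⟩
  unfold bcut'
  rw [abs_neg, abs_mul, Nat.abs_cast]
  by_cases h : (j : ℝ) * (1 - s) - 1 ≤ 0 ∨ 1 ≤ (j : ℝ) * (1 - s) - 1
  · rw [bst_deriv_zero h, abs_zero, mul_zero, zero_mul]; linarith
  · rw [not_or] at h
    have h1 : (j : ℝ) * (1 - s) ≤ 2 := by linarith [h.2]
    have h2 := hC ((j : ℝ) * (1 - s) - 1)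
    have h3 : 0 ≤ (j : ℝ) * (1 - s) := mul_nonneg (Nat.cast_nonneg _) (by linarith)
    calc (j : ℝ) * |deriv Real.smoothTransition ((j : ℝ) * (1 - s) - 1)| * (1 - s)
        = ((j : ℝ) * (1 - s)) * |deriv Real.smoothTransition ((j : ℝ) * (1 - s) - 1)| := by ring
      _ ≤ 2 * C := mul_le_mul h1 h2 (abs_nonneg _) (by norm_num)

/-! ### the cutoffs on `Ω` -/

/-- cutoff function on `Ω` -/
noncomputable def bX (D : Prof) (j : ℕ) (p : ℂ × ℂ) : ℂ := ((bcut j (‖D.om p‖ ^ 2) : ℝ) : ℂ)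

/-- derivative factor -/
noncomputable def bX' (D : Prof) (j : ℕ) (p : ℂ × ℂ) : ℂ := ((bcut' j (‖D.om p‖ ^ 2) : ℝ) : ℂ)

theorem bip_nsq (D : Prof) : ContDiffOn ℝ ∞ (fun q => ‖D.om q‖ ^ 2) {p | p.1 ∈ D.base} :=
  D.contDiffOn_om.norm_sq ℝ

theorem bip_kk (D : Prof) : D.kk = fun q => ((‖D.om q‖ ^ 2 : ℝ) : ℂ) := by
  funext q
  unfold Prof.kk
  rw [Complex.mul_conj, Complex.normSq_eq_norm_sq]

theorem bip_kk_smooth (D : Prof) : ContDiffOn ℝ ∞ D.kk {p | p.1 ∈ D.base} := by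
  rw [bip_kk]
  exact Complex.ofRealCLM.contDiff.comp_contDiffOn (bip_nsq D)

theorem bX_smooth (D : Prof) (j : ℕ) : ContDiffOn ℝ ∞ (bX D j) {p | p.1 ∈ D.base} :=
  Complex.ofRealCLM.contDiff.comp_contDiffOn ((bcut_contDiff j).comp_contDiffOn (bip_nsq D))

theorem bX_fderiv (D : Prof) (j : ℕ) {p : ℂ × ℂ} (hp : p.1 ∈ D.base) (v : ℂ × ℂ) :
    fderiv ℝ (bX D j) p v = bX' D j p * fderiv ℝ D.kk p v := by
  have hn : DifferentiableAt ℝ (fun q => ‖D.om q‖ ^ 2) p :=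
    ((bip_nsq D).contDiffAt ((nc_isOpen D).mem_nhds hp)).differentiableAt (by simp)
  have h1 : HasFDerivAt D.kk (Complex.ofRealCLM.comp (fderiv ℝ (fun q => ‖D.om q‖ ^ 2) p)) p := by
    rw [bip_kk]
    exact Complex.ofRealCLM.hasFDerivAt.comp p hn.hasFDerivAt
  have h2 : HasFDerivAt (bX D j) (Complex.ofRealCLM.comp
      (bcut' j (‖D.om p‖ ^ 2) • (fderiv ℝ (fun q => ‖D.om q‖ ^ 2) p))) p := by
    have h3 : HasFDerivAt (fun q => bcut j (‖D.om q‖ ^ 2))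
        (bcut' j (‖D.om p‖ ^ 2) • (fderiv ℝ (fun q => ‖D.om q‖ ^ 2) p)) p :=
      HasDerivAt.comp_hasFDerivAt (h₂ := bcut j) (f := fun q => ‖D.om q‖ ^ 2) p
        (bcut_hasDerivAt j (‖D.om p‖ ^ 2)) hn.hasFDerivAt
    exact Complex.ofRealCLM.hasFDerivAt.comp p h3
  rw [h1.fderiv, h2.fderiv]
  simp [bX']

/-- the test function `χ_j φ` -/
noncomputable def bψ (D : Prof) (j : ℕ) (φ : ℂ × ℂ → ℂ) : ℂ × ℂ → ℂ :=
  D.Ω.indicator (fun p => bX D j p * φ p)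

theorem bψ_eventually (D : Prof) (j : ℕ) (φ : ℂ × ℂ → ℂ) {p : ℂ × ℂ} (hp : p ∈ D.Ω) :
    bψ D j φ =ᶠ[𝓝 p] fun p => bX D j p * φ p := by
  filter_upwards [D.isOpen_Ω.mem_nhds hp] with q hq
  unfold bψ
  rw [indicator_of_mem hq]

theorem bψ_test (D : Prof) {j : ℕ} (hj : 0 < j) {φ : ℂ × ℂ → ℂ} (h : Nice D φ) :
    IsTest D.Ω (bψ D j φ) := by
  obtain ⟨K, hKb, hK, h0⟩ := h.supp
  have hj' : (0 : ℝ) < j := by exact_mod_cast hj
  have hc := nc_compact D hK hKb (Real.sqrt (1 - 1 / (j : ℝ)))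
  have hz : ∀ p, p ∉ {p : ℂ × ℂ | p.1 ∈ K ∧ ‖D.om p‖ ≤ Real.sqrt (1 - 1 / (j : ℝ))} →
      bψ D j φ p = 0 := by
    intro p hp
    unfold bψ
    by_cases hpΩ : p ∈ D.Ω
    · rw [indicator_of_mem hpΩ]
      by_cases hpK : p.1 ∈ K
      · have h1 : Real.sqrt (1 - 1 / (j : ℝ)) < ‖D.om p‖ := by
          by_contra hcon
          exact hp ⟨hpK, not_lt.1 hcon⟩
        have h2 : 1 - 1 / (j : ℝ) ≤ ‖D.om p‖ ^ 2 := by
          by_contra hcon
          have h3 := Real.lt_sqrt_of_sq_lt (not_le.1 hcon)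
          exact absurd h1 (not_lt.2 h3.le)
        unfold bX
        rw [bcut_eq_zero hj h2]
        simp
      · rw [h0 p hpK, mul_zero]
    · rw [indicator_of_notMem hpΩ]
  have hsub : {p : ℂ × ℂ | p.1 ∈ K ∧ ‖D.om p‖ ≤ Real.sqrt (1 - 1 / (j : ℝ))} ⊆ D.Ω := by
    intro p hp
    rw [D.mem_Ω]
    refine ⟨hKb hp.1, hp.2.trans_lt ?_⟩
    rw [Real.sqrt_lt' one_pos]
    have : 0 < 1 / (j : ℝ) := by positivity
    linarith
  have hts : tsupport (bψ D j φ) ⊆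
      {p : ℂ × ℂ | p.1 ∈ K ∧ ‖D.om p‖ ≤ Real.sqrt (1 - 1 / (j : ℝ))} := by
    refine closure_minimal (fun p hp => ?_) hc.isClosed
    by_contra hcon
    exact hp (hz p hcon)
  refine ⟨?_, hc.of_isClosed_subset (isClosed_tsupport _) hts, hts.trans hsub⟩
  rw [contDiff_iff_contDiffAt]
  intro p
  by_cases hpΩ : p ∈ D.Ω
  · refine ContDiffAt.congr_of_eventuallyEq ?_ (bψ_eventually D j φ hpΩ)
    have h1 : ContDiffAt ℝ ∞ (bX D j) p :=
      (bX_smooth D j).contDiffAt ((nc_isOpen D).mem_nhds (D.mem_Ω.1 hpΩ).1)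
    exact h1.mul (nc_contDiffAt D h (nc_Ω_sub D hpΩ))
  · have h1 : bψ D j φ =ᶠ[𝓝 p] fun _ => 0 := by
      filter_upwards [hc.isClosed.isOpen_compl.mem_nhds (fun h => hpΩ (hsub h))] with q hq
      exact hz q hq
    exact contDiffAt_const.congr_of_eventuallyEq h1

theorem bψ_apply (D : Prof) (j : ℕ) (φ : ℂ × ℂ → ℂ) {p : ℂ × ℂ} (hp : p ∈ D.Ω) :
    bψ D j φ p = bX D j p * φ p := by
  unfold bψ
  rw [indicator_of_mem hp]

theorem bψ_fderiv (D : Prof) (j : ℕ) {φ : ℂ × ℂ → ℂ} (h : Nice D φ) {p : ℂ × ℂ} (hp : p ∈ D.Ω)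
    (v : ℂ × ℂ) : fderiv ℝ (bψ D j φ) p v =
      bX D j p * fderiv ℝ φ p v + bX' D j p * (φ p * fderiv ℝ D.kk p v) := by
  have hb := (D.mem_Ω.1 hp).1
  have h1 : DifferentiableAt ℝ (bX D j) p :=
    ((bX_smooth D j).contDiffAt ((nc_isOpen D).mem_nhds hb)).differentiableAt (by simp)
  have h2 : DifferentiableAt ℝ φ p :=
    (nc_contDiffAt D h (nc_Ω_sub D hp)).differentiableAt (by simp)
  rw [(bψ_eventually D j φ hp).fderiv_eq, fderiv_fun_mul h1 h2]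
  simp only [add_apply, smul_apply, smul_eq_mul]
  rw [bX_fderiv D j hb]
  ring

theorem bψ_dzb (D : Prof) (j : ℕ) {φ : ℂ × ℂ → ℂ} (h : Nice D φ) {p : ℂ × ℂ} (hp : p ∈ D.Ω) :
    dzb (bψ D j φ) p = bX D j p * dzb φ p + bX' D j p * (φ p * dzb D.kk p) := by
  unfold dzb
  rw [bψ_fderiv D j h hp, bψ_fderiv D j h hp]
  ring

theorem bψ_dwb (D : Prof) (j : ℕ) {φ : ℂ × ℂ → ℂ} (h : Nice D φ) {p : ℂ × ℂ} (hp : p ∈ D.Ω) :
    dwb (bψ D j φ) p = bX D j p * dwb φ p + bX' D j p * (φ p * dwb D.kk p) := by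
  unfold dwb
  rw [bψ_fderiv D j h hp, bψ_fderiv D j h hp]
  ring

/-! ### limits -/

theorem bip_int (D : Prof) (f : L2 D.Ω) {h : ℂ × ℂ → ℂ} (hc : ContinuousOn h D.Ω) {C : ℝ}
    (hC : ∀ p ∈ D.Ω, ‖h p‖ ≤ C) : IntegrableOn (fun p => f p * h p) D.Ω := by
  have h1 : Integrable f (volume.restrict D.Ω) :=
    (Lp.memLp f).integrable (by norm_num)
  refine h1.mul_bdd (c := C) (hc.aestronglyMeasurable D.isOpen_Ω.measurableSet) ?_
  filter_upwards [ae_restrict_mem D.isOpen_Ω.measurableSet] with p hp using hC p hp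

theorem bX_norm (D : Prof) (j : ℕ) (p : ℂ × ℂ) : ‖bX D j p‖ ≤ 1 := by
  unfold bX
  rw [Complex.norm_real, Real.norm_eq_abs, abs_of_nonneg (bcut_nonneg _ _)]
  exact bcut_le_one _ _

theorem bX_cont (D : Prof) (j : ℕ) : ContinuousOn (bX D j) D.Ω :=
  (bX_smooth D j).continuousOn.mono fun _ hp => (D.mem_Ω.1 hp).1

theorem bX'_cont (D : Prof) (j : ℕ) : ContinuousOn (bX' D j) D.Ω := by
  have h1 : ContinuousOn (fun q => ‖D.om q‖ ^ 2) D.Ω :=
    (bip_nsq D).continuousOn.mono fun _ hp => (D.mem_Ω.1 hp).1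
  exact Complex.continuous_ofReal.comp_continuousOn ((bcut'_cont j).comp_continuousOn h1)

theorem bip_sq_lt (D : Prof) {p : ℂ × ℂ} (hp : p ∈ D.Ω) : ‖D.om p‖ ^ 2 < 1 := by
  have h := (D.mem_Ω.1 hp).2
  have h0 := norm_nonneg (D.om p)
  nlinarith

theorem bip_limA (D : Prof) (f : L2 D.Ω) {h : ℂ × ℂ → ℂ} (hc : ContinuousOn h D.Ω) {C : ℝ}
    (hC : ∀ p ∈ D.Ω, ‖h p‖ ≤ C) :
    Tendsto (fun j : ℕ => ∫ p in D.Ω, f p * (bX D j p * h p)) atTop
      (𝓝 (∫ p in D.Ω, f p * h p)) := by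
  have h1 : Integrable f (volume.restrict D.Ω) :=
    (Lp.memLp f).integrable (by norm_num)
  refine tendsto_integral_of_dominated_convergence (fun p => ‖f p‖ * C) ?_ ?_ ?_ ?_
  · intro j
    exact h1.aestronglyMeasurable.mul
      (((bX_cont D j).mul hc).aestronglyMeasurable D.isOpen_Ω.measurableSet)
  · exact h1.norm.mul_const C
  · intro j
    filter_upwards [ae_restrict_mem D.isOpen_Ω.measurableSet] with p hp
    rw [norm_mul, norm_mul]
    refine mul_le_mul_of_nonneg_left ?_ (norm_nonneg _)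
    calc ‖bX D j p‖ * ‖h p‖ ≤ 1 * ‖h p‖ :=
          mul_le_mul_of_nonneg_right (bX_norm D j p) (norm_nonneg _)
      _ = ‖h p‖ := one_mul _
      _ ≤ C := hC p hp
  · filter_upwards [ae_restrict_mem D.isOpen_Ω.measurableSet] with p hp
    refine tendsto_const_nhds.congr' ?_
    filter_upwards [bcut_eventually (bip_sq_lt D hp)] with j hj
    unfold bX
    rw [hj.1]
    simp

theorem bip_bound' (D : Prof) {h : ℂ × ℂ → ℂ} {C : ℝ}
    (hC : ∀ p ∈ D.Ω, ‖h p‖ ≤ C * (1 - ‖D.om p‖ ^ 2)) :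
    ∃ C', ∀ j, ∀ p ∈ D.Ω, ‖bX' D j p * h p‖ ≤ C' := by
  obtain ⟨C1, hC10, hC1⟩ := bcut'_bound
  refine ⟨|C| * C1, fun j p hp => ?_⟩
  have h1 := bip_sq_lt D hp
  have h2 := hC1 j _ h1
  have h3 : ‖h p‖ ≤ |C| * (1 - ‖D.om p‖ ^ 2) :=
    (hC p hp).trans (mul_le_mul_of_nonneg_right (le_abs_self C) (by linarith))
  rw [norm_mul]
  unfold bX'
  rw [Complex.norm_real, Real.norm_eq_abs]
  calc |bcut' j (‖D.om p‖ ^ 2)| * ‖h p‖
      ≤ |bcut' j (‖D.om p‖ ^ 2)| * (|C| * (1 - ‖D.om p‖ ^ 2)) :=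
        mul_le_mul_of_nonneg_left h3 (abs_nonneg _)
    _ = |C| * (|bcut' j (‖D.om p‖ ^ 2)| * (1 - ‖D.om p‖ ^ 2)) := by ring
    _ ≤ |C| * C1 := mul_le_mul_of_nonneg_left h2 (abs_nonneg _)

theorem bip_limB (D : Prof) (f : L2 D.Ω) {h : ℂ × ℂ → ℂ} (hc : ContinuousOn h D.Ω) {C : ℝ}
    (hC : ∀ p ∈ D.Ω, ‖h p‖ ≤ C * (1 - ‖D.om p‖ ^ 2)) :
    Tendsto (fun j : ℕ => ∫ p in D.Ω, f p * (bX' D j p * h p)) atTop (𝓝 0) := by
  have h1 : Integrable f (volume.restrict D.Ω) :=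
    (Lp.memLp f).integrable (by norm_num)
  obtain ⟨C', hC'⟩ := bip_bound' D hC
  have key : Tendsto (fun j : ℕ => ∫ p in D.Ω, f p * (bX' D j p * h p)) atTop
      (𝓝 (∫ p in D.Ω, (0 : ℂ))) := by
    refine tendsto_integral_of_dominated_convergence (fun p => ‖f p‖ * C') ?_ ?_ ?_ ?_
    · intro j
      exact h1.aestronglyMeasurable.mul
        (((bX'_cont D j).mul hc).aestronglyMeasurable D.isOpen_Ω.measurableSet)
    · exact h1.norm.mul_const C'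
    · intro j
      filter_upwards [ae_restrict_mem D.isOpen_Ω.measurableSet] with p hp
      rw [norm_mul]
      exact mul_le_mul_of_nonneg_left (hC' j p hp) (norm_nonneg _)
    · filter_upwards [ae_restrict_mem D.isOpen_Ω.measurableSet] with p hp
      refine tendsto_const_nhds.congr' ?_
      filter_upwards [bcut_eventually (bip_sq_lt D hp)] with j hj
      unfold bX'
      rw [hj.2]
      simp
  simpa using key

/-- bound of `φ dzb k`, `φ dwb k` -/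
theorem bip_kk_bound (D : Prof) {φ : ℂ × ℂ → ℂ} (h : Nice D φ) {C : ℝ}
    (hC : ∀ p ∈ D.Ω, ‖φ p‖ ≤ C * (1 - ‖D.om p‖ ^ 2)) :
    ∃ C', ∀ p ∈ D.Ω, ‖φ p * dzb D.kk p‖ ≤ C' * (1 - ‖D.om p‖ ^ 2) ∧
      ‖φ p * dwb D.kk p‖ ≤ C' * (1 - ‖D.om p‖ ^ 2) := by
  obtain ⟨K, hKb, hK, h0⟩ := h.supp
  have hc := nc_compact D hK hKb 1
  have hsub : {p : ℂ × ℂ | p.1 ∈ K ∧ ‖D.om p‖ ≤ 1} ⊆ {p : ℂ × ℂ | p.1 ∈ D.base} :=
    fun p hp => hKb hp.1
  obtain ⟨C2, hC2⟩ := hc.exists_bound_of_continuousOn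
    ((nc_cont_fderiv (nc_isOpen D) (bip_kk_smooth D)).continuousOn.mono hsub)
  have hd : ∀ p ∈ {p : ℂ × ℂ | p.1 ∈ K ∧ ‖D.om p‖ ≤ 1}, ‖dzb D.kk p‖ ≤ |C2| ∧
      ‖dwb D.kk p‖ ≤ |C2| := by
    intro p hp
    have h1 : ‖fderiv ℝ D.kk p‖ ≤ |C2| := (hC2 p hp).trans (le_abs_self _)
    have hv : ∀ v : ℂ × ℂ, ‖v‖ ≤ 1 → ‖fderiv ℝ D.kk p v‖ ≤ |C2| := by
      intro v hv
      calc ‖fderiv ℝ D.kk p v‖ ≤ ‖fderiv ℝ D.kk p‖ * ‖v‖ := ContinuousLinearMap.le_opNorm _ _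
        _ ≤ |C2| * 1 := mul_le_mul h1 hv (norm_nonneg _) (abs_nonneg _)
        _ = |C2| := mul_one _
    have key : ∀ v w : ℂ × ℂ, ‖v‖ ≤ 1 → ‖w‖ ≤ 1 →
        ‖(fderiv ℝ D.kk p v + I * fderiv ℝ D.kk p w) / 2‖ ≤ |C2| := by
      intro v w h1 h2
      have a1 := hv v h1
      have a2 := hv w h2
      rw [norm_div, Complex.norm_ofNat, div_le_iff₀ (by norm_num)]
      calc ‖fderiv ℝ D.kk p v + I * fderiv ℝ D.kk p w‖
          ≤ ‖fderiv ℝ D.kk p v‖ + ‖I * fderiv ℝ D.kk p w‖ := norm_add_le _ _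
        _ = ‖fderiv ℝ D.kk p v‖ + ‖fderiv ℝ D.kk p w‖ := by
            rw [norm_mul, Complex.norm_I, one_mul]
        _ ≤ |C2| * 2 := by linarith
    exact ⟨key _ _ (by simp [Prod.norm_def]) (by simp [Prod.norm_def]),
      key _ _ (by simp [Prod.norm_def]) (by simp [Prod.norm_def])⟩
  refine ⟨|C| * |C2|, fun p hp => ?_⟩
  have h1 := bip_sq_lt D hp
  by_cases hpK : p.1 ∈ K
  · obtain ⟨d1, d2⟩ := hd p ⟨hpK, (nc_Ω_sub D hp).2⟩
    have h3 : ‖φ p‖ ≤ |C| * (1 - ‖D.om p‖ ^ 2) :=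
      (hC p hp).trans (mul_le_mul_of_nonneg_right (le_abs_self C) (by linarith))
    have h4 : 0 ≤ |C| * (1 - ‖D.om p‖ ^ 2) := mul_nonneg (abs_nonneg _) (by linarith)
    constructor
    · rw [norm_mul]
      calc ‖φ p‖ * ‖dzb D.kk p‖ ≤ (|C| * (1 - ‖D.om p‖ ^ 2)) * |C2| :=
            mul_le_mul h3 d1 (norm_nonneg _) h4
        _ = _ := by ring
    · rw [norm_mul]
      calc ‖φ p‖ * ‖dwb D.kk p‖ ≤ (|C| * (1 - ‖D.om p‖ ^ 2)) * |C2| :=
            mul_le_mul h3 d2 (norm_nonneg _) h4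
        _ = _ := by ring
  · rw [h0 p hpK, zero_mul, zero_mul, norm_zero]
    have : 0 ≤ |C| * |C2| * (1 - ‖D.om p‖ ^ 2) :=
      mul_nonneg (mul_nonneg (abs_nonneg _) (abs_nonneg _)) (by linarith)
    exact ⟨this, this⟩

theorem bip_kk_cont (D : Prof) : ContinuousOn (dzb D.kk) D.Ω ∧ ContinuousOn (dwb D.kk) D.Ω := by
  have h1 : ContinuousOn (fderiv ℝ D.kk) D.Ω :=
    (nc_cont_fderiv (nc_isOpen D) (bip_kk_smooth D)).continuousOn.mono
      fun _ hp => (D.mem_Ω.1 hp).1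
  have h2 : ∀ v : ℂ × ℂ, ContinuousOn (fun p => fderiv ℝ D.kk p v) D.Ω :=
    fun v => h1.clm_apply continuousOn_const
  exact ⟨((h2 _).add (continuousOn_const.mul (h2 _))).div_const _,
    ((h2 _).add (continuousOn_const.mul (h2 _))).div_const _⟩

/-! ### integration by parts -/

theorem bip_bd (D : Prof) {φ : ℂ × ℂ → ℂ} (h : Nice D φ) :
    ContinuousOn φ D.Ω ∧ ∃ C, ∀ p ∈ D.Ω, ‖φ p‖ ≤ C := by
  obtain ⟨C, hC⟩ := nice_bdd D φ h
  exact ⟨nc_contOn D h, C, fun p hp => (hC p hp).1⟩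

theorem bip_congr (D : Prof) {a b : ℂ × ℂ → ℂ} (h : ∀ p ∈ D.Ω, a p = b p) :
    ∫ p in D.Ω, a p = ∫ p in D.Ω, b p :=
  setIntegral_congr_fun D.isOpen_Ω.measurableSet h

theorem bipw (D : Prof) (f q : L2 D.Ω)
    (hf : ∀ φ, IsTest D.Ω φ → ∫ p in D.Ω, f p * dwb φ p = -∫ p in D.Ω, q p * φ p)
    (φ : ℂ × ℂ → ℂ) (h : Nice D φ) (hC : ∃ C, ∀ p ∈ D.Ω, ‖φ p‖ ≤ C * (1 - ‖D.om p‖ ^ 2)) :
    ∫ p in D.Ω, f p * dwb φ p = -∫ p in D.Ω, q p * φ p := by
  obtain ⟨C, hC⟩ := hC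
  obtain ⟨C', hC'⟩ := bip_kk_bound D h hC
  obtain ⟨c1, C1, b1⟩ := bip_bd D h
  obtain ⟨c2, C2, b2⟩ := bip_bd D (nice_dw D φ h).2.2.1
  have ck := (bip_kk_cont D).2
  obtain ⟨C3, b3⟩ := bip_bound' D (h := fun p => φ p * dwb D.kk p) (fun p hp => (hC' p hp).2)
  have t1 := bip_limA D f c2 b2
  have t2 := bip_limB D f (h := fun p => φ p * dwb D.kk p) (c1.mul ck)
    (fun p hp => (hC' p hp).2)
  have t3 := (bip_limA D q c1 b1).neg
  have t4 := t1.add t2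
  rw [add_zero] at t4
  refine tendsto_nhds_unique t4 (t3.congr' ?_)
  filter_upwards [eventually_gt_atTop 0] with j hj
  have h1 := hf _ (bψ_test D hj h)
  have e1 : ∫ p in D.Ω, f p * dwb (bψ D j φ) p = ∫ p in D.Ω, (f p * (bX D j p * dwb φ p) +
      f p * (bX' D j p * (φ p * dwb D.kk p))) := by
    refine bip_congr D fun p hp => ?_
    rw [bψ_dwb D j h hp]; ring
  have e2 : ∫ p in D.Ω, q p * bψ D j φ p = ∫ p in D.Ω, q p * (bX D j p * φ p) := by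
    refine bip_congr D fun p hp => ?_
    rw [bψ_apply D j φ hp]
  rw [e1, e2, integral_add] at h1
  · exact h1.symm
  · refine bip_int D f (h := fun p => bX D j p * dwb φ p) ((bX_cont D j).mul c2) (C := C2)
      fun p hp => ?_
    rw [norm_mul]
    calc ‖bX D j p‖ * ‖dwb φ p‖ ≤ 1 * ‖dwb φ p‖ :=
          mul_le_mul_of_nonneg_right (bX_norm D j p) (norm_nonneg _)
      _ ≤ C2 := by rw [one_mul]; exact b2 p hp
  · exact bip_int D f (h := fun p => bX' D j p * (φ p * dwb D.kk p))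
      ((bX'_cont D j).mul (c1.mul ck)) (C := C3) (b3 j)

theorem bip_intX (D : Prof) (f : L2 D.Ω) {φ : ℂ × ℂ → ℂ} (h : Nice D φ) (j : ℕ) :
    IntegrableOn (fun p => f p * (bX D j p * φ p)) D.Ω := by
  obtain ⟨c1, C1, b1⟩ := bip_bd D h
  refine bip_int D f (h := fun p => bX D j p * φ p) ((bX_cont D j).mul c1) (C := C1)
      fun p hp => ?_
  rw [norm_mul]
  calc ‖bX D j p‖ * ‖φ p‖ ≤ 1 * ‖φ p‖ :=
        mul_le_mul_of_nonneg_right (bX_norm D j p) (norm_nonneg _)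
    _ ≤ C1 := by rw [one_mul]; exact b1 p hp

theorem bip_intTest (D : Prof) (f : L2 D.Ω) {ψ : ℂ × ℂ → ℂ} (h : IsTest D.Ω ψ) (v : ℂ × ℂ) :
    IntegrableOn (fun p => f p * fderiv ℝ ψ p v) D.Ω := by
  have hc : Continuous (fun p => fderiv ℝ ψ p v) :=
    (h.smooth.continuous_fderiv (by simp)).clm_apply continuous_const
  have hs : HasCompactSupport (fun p => fderiv ℝ ψ p v) := h.compact.fderiv_apply ℝ v
  obtain ⟨C, hC⟩ := hs.exists_bound_of_continuous hc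
  exact bip_int D f hc.continuousOn (C := C) fun p _ => hC p

theorem bip_intTest' (D : Prof) (f : L2 D.Ω) {ψ : ℂ × ℂ → ℂ} (h : IsTest D.Ω ψ) :
    IntegrableOn (fun p => f p * dzb ψ p) D.Ω ∧ IntegrableOn (fun p => f p * dwb ψ p) D.Ω := by
  have key : ∀ v w : ℂ × ℂ,
      IntegrableOn (fun p => f p * ((fderiv ℝ ψ p v + I * fderiv ℝ ψ p w) / 2)) D.Ω := by
    intro v w
    have h1 := ((bip_intTest D f h v).const_mul (1 / 2)).add
      ((bip_intTest D f h w).const_mul (I / 2))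
    have e : (fun p => f p * ((fderiv ℝ ψ p v + I * fderiv ℝ ψ p w) / 2)) =
        fun p => (1 / 2 : ℂ) * (f p * fderiv ℝ ψ p v) + I / 2 * (f p * fderiv ℝ ψ p w) := by
      funext p; ring
    rw [e]; exact h1
  exact ⟨key _ _, key _ _⟩

theorem bip0 (D : Prof) (f : L2 D.Ω) (u : L2F D.Ω) (hf : IsDbar0 D.Ω f u)
    (φ₁ φ₂ : ℂ × ℂ → ℂ) (h1 : Nice D φ₁) (h2 : Nice D φ₂)
    (hC : ∃ C, ∀ p ∈ D.Ω, ‖φ₁ p * dzb D.kk p + φ₂ p * dwb D.kk p‖ ≤ C * (1 - ‖D.om p‖ ^ 2)) :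
    ∫ p in D.Ω, f p * (dzb φ₁ p + dwb φ₂ p) =
      -∫ p in D.Ω, (u.fst p * φ₁ p + u.snd p * φ₂ p) := by
  obtain ⟨C, hC⟩ := hC
  obtain ⟨c1, C1, b1⟩ := bip_bd D h1
  obtain ⟨c2, C2, b2⟩ := bip_bd D h2
  have hs := nc_add D (nice_dw D φ₁ h1).2.2.2 (nice_dw D φ₂ h2).2.2.1
  obtain ⟨c3, C3, b3⟩ := bip_bd D hs
  have ck := bip_kk_cont D
  have cm : ContinuousOn (fun p => φ₁ p * dzb D.kk p + φ₂ p * dwb D.kk p) D.Ω :=
    (c1.mul ck.1).add (c2.mul ck.2)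
  obtain ⟨C4, b4⟩ := bip_bound' D (h := fun p => φ₁ p * dzb D.kk p + φ₂ p * dwb D.kk p) hC
  have t1 := bip_limA D f c3 b3
  have t2 := bip_limB D f (h := fun p => φ₁ p * dzb D.kk p + φ₂ p * dwb D.kk p) cm hC
  have t3 := ((bip_limA D u.fst c1 b1).add (bip_limA D u.snd c2 b2)).neg
  have t4 := t1.add t2
  rw [add_zero] at t4
  have e0 : ∫ p in D.Ω, (u.fst p * φ₁ p + u.snd p * φ₂ p) =
      (∫ p in D.Ω, u.fst p * φ₁ p) + ∫ p in D.Ω, u.snd p * φ₂ p :=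
    integral_add (bip_int D u.fst c1 b1) (bip_int D u.snd c2 b2)
  rw [e0]
  refine tendsto_nhds_unique t4 (t3.congr' ?_)
  filter_upwards [eventually_gt_atTop 0] with j hj
  have T1 := bψ_test D hj h1
  have T2 := bψ_test D hj h2
  have k1 := (hf _ T1).1
  have k2 := (hf _ T2).2
  have k3 : ∫ p in D.Ω, (f p * dzb (bψ D j φ₁) p + f p * dwb (bψ D j φ₂) p) =
      -((∫ p in D.Ω, u.fst p * bψ D j φ₁ p) + ∫ p in D.Ω, u.snd p * bψ D j φ₂ p) := by
    rw [integral_add (bip_intTest' D f T1).1 (bip_intTest' D f T2).2, k1, k2]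
    ring
  have e1 : ∫ p in D.Ω, (f p * dzb (bψ D j φ₁) p + f p * dwb (bψ D j φ₂) p) =
      ∫ p in D.Ω, (f p * (bX D j p * (dzb φ₁ p + dwb φ₂ p)) +
      f p * (bX' D j p * (φ₁ p * dzb D.kk p + φ₂ p * dwb D.kk p))) := by
    refine bip_congr D fun p hp => ?_
    rw [bψ_dzb D j h1 hp, bψ_dwb D j h2 hp]; ring
  have e2 : ∫ p in D.Ω, u.fst p * bψ D j φ₁ p = ∫ p in D.Ω, u.fst p * (bX D j p * φ₁ p) := by
    refine bip_congr D fun p hp => ?_
    rw [bψ_apply D j φ₁ hp]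
  have e3 : ∫ p in D.Ω, u.snd p * bψ D j φ₂ p = ∫ p in D.Ω, u.snd p * (bX D j p * φ₂ p) := by
    refine bip_congr D fun p hp => ?_
    rw [bψ_apply D j φ₂ hp]
  rw [e1, e2, e3, integral_add (bip_intX D f hs j)] at k3
  · exact k3.symm
  · exact bip_int D f (h := fun p => bX' D j p * (φ₁ p * dzb D.kk p + φ₂ p * dwb D.kk p))
      ((bX'_cont D j).mul cm) (C := C4) (b4 j)

theorem bipc (D : Prof) (u : L2F D.Ω) (hu : IsDbar1 D.Ω u 0)
    (φ : ℂ × ℂ → ℂ) (h : Nice D φ) (hC : ∃ C, ∀ p ∈ D.Ω, ‖φ p‖ ≤ C * (1 - ‖D.om p‖ ^ 2)) :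
    ∫ p in D.Ω, (u.snd p * dzb φ p - u.fst p * dwb φ p) = 0 := by
  obtain ⟨C, hC⟩ := hC
  obtain ⟨C', hC'⟩ := bip_kk_bound D h hC
  obtain ⟨c1, C1, b1⟩ := bip_bd D h
  obtain ⟨c2, C2, b2⟩ := bip_bd D (nice_dw D φ h).2.2.1
  obtain ⟨c3, C3, b3⟩ := bip_bd D (nice_dw D φ h).2.2.2
  have ck := bip_kk_cont D
  have cw : ContinuousOn (fun p => φ p * dwb D.kk p) D.Ω := c1.mul ck.2
  have cz : ContinuousOn (fun p => φ p * dzb D.kk p) D.Ω := c1.mul ck.1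
  obtain ⟨C4, b4⟩ := bip_bound' D (h := fun p => φ p * dwb D.kk p) (fun p hp => (hC' p hp).2)
  obtain ⟨C5, b5⟩ := bip_bound' D (h := fun p => φ p * dzb D.kk p) (fun p hp => (hC' p hp).1)
  have t1 := bip_limA D u.snd c3 b3
  have t2 := bip_limA D u.fst c2 b2
  have t3 := bip_limB D u.snd (h := fun p => φ p * dzb D.kk p) cz (fun p hp => (hC' p hp).1)
  have t4 := bip_limB D u.fst (h := fun p => φ p * dwb D.kk p) cw (fun p hp => (hC' p hp).2)
  have t5 := (t1.add t3).sub (t2.add t4)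
  rw [add_zero, add_zero] at t5
  have e0 : ∫ p in D.Ω, (u.snd p * dzb φ p - u.fst p * dwb φ p) =
      (∫ p in D.Ω, u.snd p * dzb φ p) - ∫ p in D.Ω, u.fst p * dwb φ p :=
    integral_sub (bip_int D u.snd c3 b3) (bip_int D u.fst c2 b2)
  rw [e0]
  refine tendsto_nhds_unique t5 (tendsto_const_nhds.congr' ?_)
  filter_upwards [eventually_gt_atTop 0] with j hj
  have T := bψ_test D hj h
  have k := hu _ T
  have k0 : ∫ p in D.Ω, (0 : L2 D.Ω) p * bψ D j φ p = 0 := by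
    have : ∀ᵐ p ∂(volume.restrict D.Ω), (0 : L2 D.Ω) p * bψ D j φ p = 0 := by
      filter_upwards [Lp.coeFn_zero ℂ 2 (volume.restrict D.Ω)] with p hp
      rw [hp]
      simp
    rw [integral_congr_ae this]
    simp
  rw [k0, neg_zero, integral_sub (bip_intTest' D u.snd T).1 (bip_intTest' D u.fst T).2] at k
  have e1 : ∫ p in D.Ω, u.snd p * dzb (bψ D j φ) p =
      (∫ p in D.Ω, u.snd p * (bX D j p * dzb φ p)) +
      ∫ p in D.Ω, u.snd p * (bX' D j p * (φ p * dzb D.kk p)) := by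
    rw [← integral_add (bip_intX D u.snd (nice_dw D φ h).2.2.2 j) (bip_int D u.snd
      (h := fun p => bX' D j p * (φ p * dzb D.kk p)) ((bX'_cont D j).mul cz) (C := C5) (b5 j))]
    refine bip_congr D fun p hp => ?_
    rw [bψ_dzb D j h hp]; ring
  have e2 : ∫ p in D.Ω, u.fst p * dwb (bψ D j φ) p =
      (∫ p in D.Ω, u.fst p * (bX D j p * dwb φ p)) +
      ∫ p in D.Ω, u.fst p * (bX' D j p * (φ p * dwb D.kk p)) := by
    rw [← integral_add (bip_intX D u.fst (nice_dw D φ h).2.2.1 j) (bip_int D u.fst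
      (h := fun p => bX' D j p * (φ p * dwb D.kk p)) ((bX'_cont D j).mul cw) (C := C4) (b4 j))]
    refine bip_congr D fun p hp => ?_
    rw [bψ_dwb D j h hp]; ring
  rw [e1, e2] at k
  exact k.symm

/-! ### the weak adjoint identity -/

theorem bip_fderiv_conj (φ : ℂ × ℂ → ℂ) (p v : ℂ × ℂ) :
    fderiv ℝ (fun q => conj (φ q)) p v = conj (fderiv ℝ φ p v) := by
  have h : fderiv ℝ (fun q => conj (φ q)) p =
      (Complex.conjCLE : ℂ →L[ℝ] ℂ).comp (fderiv ℝ φ p) :=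
    Complex.conjCLE.comp_fderiv
  rw [h]; rfl

theorem bip_dzb_conj (φ : ℂ × ℂ → ℂ) (p : ℂ × ℂ) :
    dzb (fun q => conj (φ q)) p = conj (dz φ p) := by
  unfold dzb dz
  rw [bip_fderiv_conj, bip_fderiv_conj]
  simp only [map_div₀, map_sub, map_mul, Complex.conj_I, Complex.conj_ofNat]
  ring

theorem bip_dwb_conj (φ : ℂ × ℂ → ℂ) (p : ℂ × ℂ) :
    dwb (fun q => conj (φ q)) p = conj (dw φ p) := by
  unfold dwb dw
  rw [bip_fderiv_conj, bip_fderiv_conj]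
  simp only [map_div₀, map_sub, map_mul, Complex.conj_I, Complex.conj_ofNat]
  ring

theorem wi_gen (D : Prof) (f : L2 D.Ω) (u : L2F D.Ω) (hf : IsDbar0 D.Ω f u)
    (g : ℂ × ℂ → ℂ) (hg : Nice D g) :
    ∫ p in D.Ω, f p * conj (Xd D g p) =
      ∫ p in D.Ω, (2 * conj p.1 * u.fst p - conj (D.V p) * u.snd p) * conj (g p) := by
  have n1 : Nice D (fun p => conj (2 * p.1 * g p)) := nice_conj D _ (nc_z_mul D hg)
  have n2 : Nice D (fun p => -1 * conj (D.V p * g p)) :=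
    nc_smul D (-1) (nice_conj D _ (nc_V_mul D hg))
  obtain ⟨C, hC⟩ := nice_bdd D g hg
  have key := bip0 D f u hf _ _ n1 n2 ⟨C, fun p hp => by
    have hb := (D.mem_Ω.1 hp).1
    have e : (fun p => conj (2 * p.1 * g p)) p * dzb D.kk p +
        (fun p => -1 * conj (D.V p * g p)) p * dwb D.kk p =
        conj (g p) * (I * (D.σ (Prof.lx p.1) : ℂ) * conj (D.om p) * (1 - D.kk p)) := by
      rw [← D.X_kk hb]
      simp only [map_mul, Complex.conj_ofNat]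
      ring
    rw [e, norm_mul, norm_mul, norm_mul, norm_mul, Complex.norm_conj, Complex.norm_conj,
      Complex.norm_I, one_mul, Complex.norm_real]
    have h1 := bip_sq_lt D hp
    have h2 : ‖1 - D.kk p‖ = 1 - ‖D.om p‖ ^ 2 := by
      rw [bip_kk]
      have : (1 : ℂ) - ((‖D.om p‖ ^ 2 : ℝ) : ℂ) = ((1 - ‖D.om p‖ ^ 2 : ℝ) : ℂ) := by
        push_cast; ring
      simp only
      rw [this, Complex.norm_real, Real.norm_eq_abs, abs_of_nonneg (by linarith)]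
    have h3 : ‖D.σ (Prof.lx p.1)‖ ≤ 1 := by
      rw [Real.norm_eq_abs, abs_of_nonneg (D.σ0 _)]
      exact D.σ1 _
    have h4 : ‖D.om p‖ ≤ 1 := (D.mem_Ω.1 hp).2.le
    have h5 : ‖D.σ (Prof.lx p.1)‖ * ‖D.om p‖ ≤ 1 := by
      calc ‖D.σ (Prof.lx p.1)‖ * ‖D.om p‖ ≤ 1 * 1 :=
            mul_le_mul h3 h4 (norm_nonneg _) zero_le_one
        _ = 1 := one_mul 1
    rw [h2]
    calc ‖g p‖ * (‖D.σ (Prof.lx p.1)‖ * ‖D.om p‖ * (1 - ‖D.om p‖ ^ 2))
        ≤ ‖g p‖ * (1 * (1 - ‖D.om p‖ ^ 2)) :=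
          mul_le_mul_of_nonneg_left (mul_le_mul_of_nonneg_right h5 (by linarith))
            (norm_nonneg _)
      _ = ‖g p‖ * (1 - ‖D.om p‖ ^ 2) := by ring
      _ ≤ C * (1 - ‖D.om p‖ ^ 2) :=
          mul_le_mul_of_nonneg_right (hC p hp).1 (by linarith)⟩
  have e1 : ∫ p in D.Ω, f p * (dzb (fun p => conj (2 * p.1 * g p)) p +
      dwb (fun p => -1 * conj (D.V p * g p)) p) = -∫ p in D.Ω, f p * conj (Xd D g p) := by
    rw [← integral_neg]
    refine bip_congr D fun p hp => ?_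
    have hd : DifferentiableAt ℝ (fun q => conj (D.V q * g q)) p :=
      (nc_contDiffAt D (nice_conj D _ (nc_V_mul D hg)) (nc_Ω_sub D hp)).differentiableAt (by simp)
    have e2 : dwb (fun p => -1 * conj (D.V p * g p)) p = -dwb (fun p => conj (D.V p * g p)) p := by
      unfold dwb
      rw [fderiv_const_mul hd]
      simp only [smul_apply, smul_eq_mul]
      ring
    rw [e2, bip_dzb_conj, bip_dwb_conj]
    unfold Xd
    simp only [map_add, map_neg]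
    ring
  have e3 : ∫ p in D.Ω, (u.fst p * (fun p => conj (2 * p.1 * g p)) p +
      u.snd p * (fun p => -1 * conj (D.V p * g p)) p) =
      ∫ p in D.Ω, (2 * conj p.1 * u.fst p - conj (D.V p) * u.snd p) * conj (g p) := by
    refine bip_congr D fun p _ => ?_
    simp only [map_mul, Complex.conj_ofNat]
    ring
  rw [e1, e3] at key
  exact neg_injective key

end Pool.Agent.DbarN
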