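import Pool.Agent.DbarN.Nice
import Pool.Agent.DbarN.Bip

set_option autoImplicit false

namespace Pool.Agent.DbarN.APR

open MeasureTheory Complex Set
open scoped ComplexConjugate ContDiff

/-! ### pointwise calculus -/

theorem dz_mul {f g : ℂ × ℂ → ℂ} {p : ℂ × ℂ} (hf : DifferentiableAt ℝ f p)
    (hg : DifferentiableAt ℝ g p) : dz (fun q => f q * g q) p = dz f p * g p + f p * dz g p := by
  unfold dz
  rw [show (fun q => f q * g q) = f * g from rfl, fderiv_mul hf hg]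
  simp only [add_apply, smul_apply, smul_eq_mul]
  ring

theorem dw_mul {f g : ℂ × ℂ → ℂ} {p : ℂ × ℂ} (hf : DifferentiableAt ℝ f p)
    (hg : DifferentiableAt ℝ g p) : dw (fun q => f q * g q) p = dw f p * g p + f p * dw g p := by
  unfold dw
  rw [show (fun q => f q * g q) = f * g from rfl, fderiv_mul hf hg]
  simp only [add_apply, smul_apply, smul_eq_mul]
  ring

theorem dz_add {f g : ℂ × ℂ → ℂ} {p : ℂ × ℂ} (hf : DifferentiableAt ℝ f p)
    (hg : DifferentiableAt ℝ g p) : dz (fun q => f q + g q) p = dz f p + dz g p := by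
  unfold dz
  rw [show (fun q => f q + g q) = f + g from rfl, fderiv_add hf hg]
  simp only [add_apply]
  ring

theorem dw_add {f g : ℂ × ℂ → ℂ} {p : ℂ × ℂ} (hf : DifferentiableAt ℝ f p)
    (hg : DifferentiableAt ℝ g p) : dw (fun q => f q + g q) p = dw f p + dw g p := by
  unfold dw
  rw [show (fun q => f q + g q) = f + g from rfl, fderiv_add hf hg]
  simp only [add_apply]
  ring

theorem dw_sub {f g : ℂ × ℂ → ℂ} {p : ℂ × ℂ} (hf : DifferentiableAt ℝ f p)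
    (hg : DifferentiableAt ℝ g p) : dw (fun q => f q - g q) p = dw f p - dw g p := by
  unfold dw
  rw [show (fun q => f q - g q) = f - g from rfl, fderiv_sub hf hg]
  simp only [sub_apply]
  ring

theorem dz_congr {f g : ℂ × ℂ → ℂ} {p : ℂ × ℂ} (h : f =ᶠ[nhds p] g) : dz f p = dz g p := by
  unfold dz; rw [h.fderiv_eq]

theorem dw_congr {f g : ℂ × ℂ → ℂ} {p : ℂ × ℂ} (h : f =ᶠ[nhds p] g) : dw f p = dw g p := by
  unfold dw; rw [h.fderiv_eq]

theorem hasFDerivAt_two_fst (p : ℂ × ℂ) :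
    HasFDerivAt (𝕜 := ℝ) (fun q : ℂ × ℂ => 2 * q.1)
      ((2 : ℂ) • (ContinuousLinearMap.fst ℝ ℂ ℂ)) p :=
  (hasFDerivAt_fst (𝕜 := ℝ) (p := p)).const_mul (2 : ℂ)

theorem diff_two_fst (p : ℂ × ℂ) : DifferentiableAt ℝ (fun q : ℂ × ℂ => 2 * q.1) p :=
  (hasFDerivAt_two_fst p).differentiableAt

theorem dz_two_fst (p : ℂ × ℂ) : dz (fun q : ℂ × ℂ => 2 * q.1) p = 2 := by
  unfold dz
  rw [(hasFDerivAt_two_fst p).fderiv]
  simp only [smul_apply, ContinuousLinearMap.coe_fst', smul_eq_mul]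
  have := Complex.I_mul_I
  linear_combination (-1 : ℂ) * this

theorem dw_two_fst (p : ℂ × ℂ) : dw (fun q : ℂ × ℂ => 2 * q.1) p = 0 := by
  unfold dw
  rw [(hasFDerivAt_two_fst p).fderiv]
  simp

theorem dz_const (c : ℂ) (p : ℂ × ℂ) : dz (fun _ : ℂ × ℂ => c) p = 0 := by
  unfold dz; simp

theorem dw_const (c : ℂ) (p : ℂ × ℂ) : dw (fun _ : ℂ × ℂ => c) p = 0 := by
  unfold dw; simp

theorem fderiv_conj {g : ℂ × ℂ → ℂ} {p : ℂ × ℂ} (hg : DifferentiableAt ℝ g p) (v : ℂ × ℂ) :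
    fderiv ℝ (fun q => conj (g q)) p v = conj (fderiv ℝ g p v) := by
  have h : HasFDerivAt (fun q => conj (g q))
      ((Complex.conjCLE : ℂ →L[ℝ] ℂ).comp (fderiv ℝ g p)) p :=
    (Complex.conjCLE : ℂ →L[ℝ] ℂ).hasFDerivAt.comp p hg.hasFDerivAt
  rw [h.fderiv]
  simp

theorem dwb_conj {g : ℂ × ℂ → ℂ} {p : ℂ × ℂ} (hg : DifferentiableAt ℝ g p) :
    dwb (fun q => conj (g q)) p = conj (dw g p) := by
  unfold dwb dw
  rw [fderiv_conj hg, fderiv_conj hg]
  simp [map_sub, map_mul, map_div₀, map_ofNat]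

theorem dzb_conj {g : ℂ × ℂ → ℂ} {p : ℂ × ℂ} (hg : DifferentiableAt ℝ g p) :
    dzb (fun q => conj (g q)) p = conj (dz g p) := by
  unfold dzb dz
  rw [fderiv_conj hg, fderiv_conj hg]
  simp [map_sub, map_mul, map_div₀, map_ofNat]

theorem dz_conj {g : ℂ × ℂ → ℂ} {p : ℂ × ℂ} (hg : DifferentiableAt ℝ g p) :
    dz (fun q => conj (g q)) p = conj (dzb g p) := by
  unfold dzb dz
  rw [fderiv_conj hg, fderiv_conj hg]
  simp [map_add, map_mul, map_div₀, map_ofNat, sub_eq_add_neg]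

theorem dw_conj {g : ℂ × ℂ → ℂ} {p : ℂ × ℂ} (hg : DifferentiableAt ℝ g p) :
    dw (fun q => conj (g q)) p = conj (dwb g p) := by
  unfold dwb dw
  rw [fderiv_conj hg, fderiv_conj hg]
  simp [map_add, map_mul, map_div₀, map_ofNat, sub_eq_add_neg]

theorem fderiv_fderiv_apply {g : ℂ × ℂ → ℂ} {p : ℂ × ℂ} (hg : ContDiffAt ℝ ∞ g p)
    (v : ℂ × ℂ) : HasFDerivAt (fun q => fderiv ℝ g q v)
      ((fderiv ℝ (fderiv ℝ g) p).flip v) p := by
  have h1 : ContDiffAt ℝ 1 (fderiv ℝ g) p :=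
    hg.fderiv_right (m := 1) (by norm_cast)
  have h2 : HasFDerivAt (fderiv ℝ g) (fderiv ℝ (fderiv ℝ g) p) p :=
    (h1.differentiableAt (by norm_num)).hasFDerivAt
  exact (h2.clm_apply (hasFDerivAt_const v p)).congr_fderiv (by ext w <;> simp)

theorem dw_dz_comm {g : ℂ × ℂ → ℂ} {p : ℂ × ℂ} (hg : ContDiffAt ℝ ∞ g p) :
    dw (dz g) p = dz (dw g) p := by
  have hs : IsSymmSndFDerivAt ℝ g p := by
    apply hg.isSymmSndFDerivAt
    simp only [minSmoothness_of_isRCLikeNormedField]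
    norm_cast
  have e1 : HasFDerivAt (dz g) ((2 : ℂ)⁻¹ • ((fderiv ℝ (fderiv ℝ g) p).flip (1, 0) -
      I • (fderiv ℝ (fderiv ℝ g) p).flip (I, 0))) p := by
    have := (((fderiv_fderiv_apply hg (1, 0)).sub
      ((fderiv_fderiv_apply hg (I, 0)).const_mul I))).const_mul ((2 : ℂ)⁻¹)
    refine this.congr_of_eventuallyEq (Filter.Eventually.of_forall fun q => ?_)
    simp only [dz, Pi.sub_apply]
    ring
  have e2 : HasFDerivAt (dw g) ((2 : ℂ)⁻¹ • ((fderiv ℝ (fderiv ℝ g) p).flip (0, 1) -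
      I • (fderiv ℝ (fderiv ℝ g) p).flip (0, I))) p := by
    have := (((fderiv_fderiv_apply hg (0, 1)).sub
      ((fderiv_fderiv_apply hg (0, I)).const_mul I))).const_mul ((2 : ℂ)⁻¹)
    refine this.congr_of_eventuallyEq (Filter.Eventually.of_forall fun q => ?_)
    simp only [dw, Pi.sub_apply]
    ring
  rw [dw, dz, e1.fderiv, e2.fderiv]
  simp only [smul_apply, sub_apply,
    ContinuousLinearMap.flip_apply, smul_eq_mul]
  rw [hs.eq (0, 1) (1, 0), hs.eq (0, 1) (I, 0), hs.eq (0, I) (1, 0), hs.eq (0, I) (I, 0)]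
  ring

/-! ### nice functions -/

variable {D : Prof}

theorem isOpen_pre (D : Prof) : IsOpen {p : ℂ × ℂ | p.1 ∈ D.base} :=
  D.isOpen_base.preimage continuous_fst

theorem Ωc_sub (D : Prof) : D.Ωc ⊆ {p : ℂ × ℂ | p.1 ∈ D.base} := fun _ hp => hp.1

theorem Ω_sub (D : Prof) : D.Ω ⊆ D.Ωc := fun _ hp =>
  ⟨((D.mem_Ω).1 hp).1, ((D.mem_Ω).1 hp).2.le⟩

theorem nice_cda {φ : ℂ × ℂ → ℂ} (h : Nice D φ) {p : ℂ × ℂ} (hp : p ∈ D.Ω) :
    ContDiffAt ℝ ∞ φ p := by
  obtain ⟨W, hW, hsub, hc⟩ := h.smooth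
  exact hc.contDiffAt (hW.mem_nhds (hsub (Ω_sub D hp)))

theorem nice_da {φ : ℂ × ℂ → ℂ} (h : Nice D φ) {p : ℂ × ℂ} (hp : p ∈ D.Ω) :
    DifferentiableAt ℝ φ p := (nice_cda h hp).differentiableAt (by simp)

theorem nice_add {φ ψ : ℂ × ℂ → ℂ} (h1 : Nice D φ) (h2 : Nice D ψ) :
    Nice D (fun p => φ p + ψ p) := by
  obtain ⟨W1, hW1, hs1, hc1⟩ := h1.smooth
  obtain ⟨W2, hW2, hs2, hc2⟩ := h2.smooth
  obtain ⟨K1, hK1, hk1, hz1⟩ := h1.supp
  obtain ⟨K2, hK2, hk2, hz2⟩ := h2.supp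
  refine ⟨⟨W1 ∩ W2, hW1.inter hW2, subset_inter hs1 hs2,
    (hc1.mono inter_subset_left).add (hc2.mono inter_subset_right)⟩,
    ⟨K1 ∪ K2, union_subset hK1 hK2, hk1.union hk2, ?_⟩⟩
  intro p hp
  rw [mem_union, not_or] at hp
  rw [hz1 p hp.1, hz2 p hp.2, add_zero]

theorem sm_V (D : Prof) : ∃ W, IsOpen W ∧ D.Ωc ⊆ W ∧ ContDiffOn ℝ ∞ D.V W :=
  ⟨_, isOpen_pre D, Ωc_sub D, D.contDiffOn_V⟩

theorem sm_2z (D : Prof) : ∃ W, IsOpen W ∧ D.Ωc ⊆ W ∧
    ContDiffOn ℝ ∞ (fun q : ℂ × ℂ => 2 * q.1) W :=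
  ⟨_, isOpen_pre D, Ωc_sub D, (contDiff_const.mul contDiff_fst).contDiffOn⟩

theorem sm_const (D : Prof) (c : ℂ) : ∃ W, IsOpen W ∧ D.Ωc ⊆ W ∧
    ContDiffOn ℝ ∞ (fun _ : ℂ × ℂ => c) W :=
  ⟨_, isOpen_pre D, Ωc_sub D, contDiffOn_const⟩

theorem cdo_kk (D : Prof) : ContDiffOn ℝ ∞ D.kk {p : ℂ × ℂ | p.1 ∈ D.base} := by
  have h := D.contDiffOn_om
  have h2 : ContDiffOn ℝ ∞ (fun p => conj (D.om p)) {p : ℂ × ℂ | p.1 ∈ D.base} :=
    (Complex.conjCLE : ℂ →L[ℝ] ℂ).contDiff.comp_contDiffOn h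
  exact h.mul h2

theorem sm_1k (D : Prof) : ∃ W, IsOpen W ∧ D.Ωc ⊆ W ∧
    ContDiffOn ℝ ∞ (fun q : ℂ × ℂ => 1 - D.kk q) W :=
  ⟨_, isOpen_pre D, Ωc_sub D, contDiffOn_const.sub (cdo_kk D)⟩

theorem da_V {p : ℂ × ℂ} (hp : p ∈ D.Ω) : DifferentiableAt ℝ D.V p :=
  (D.contDiffOn_V.contDiffAt ((isOpen_pre D).mem_nhds (Ω_sub D hp).1)).differentiableAt (by simp)

theorem da_kk {p : ℂ × ℂ} (hp : p ∈ D.Ω) : DifferentiableAt ℝ D.kk p :=
  ((cdo_kk D).contDiffAt ((isOpen_pre D).mem_nhds (Ω_sub D hp).1)).differentiableAt (by simp)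

theorem kk_eq (D : Prof) (p : ℂ × ℂ) : D.kk p = ((‖D.om p‖ ^ 2 : ℝ) : ℂ) := by
  unfold Prof.kk
  rw [Complex.mul_conj, Complex.normSq_eq_norm_sq]

theorem conj_kk (D : Prof) (p : ℂ × ℂ) : conj (D.kk p) = D.kk p := by
  rw [kk_eq, Complex.conj_ofReal]

/-- the auxiliary function `E` -/
noncomputable def EE (D : Prof) (G : ℂ × ℂ → ℂ) (q : ℂ × ℂ) : ℂ :=
  2 * q.1 * dz G q + (-1) * (D.V q * dw G q) + 2 * G q

theorem nice_EE {G : ℂ × ℂ → ℂ} (h : Nice D G) : Nice D (EE D G) := by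
  have h1 := nice_dw D G h
  have a1 := nice_mul D _ _ (sm_2z D) h1.2.1
  have a2 := nice_mul D _ _ (sm_const D (-1)) (nice_mul D _ _ (sm_V D) h1.1)
  have a3 := nice_mul D _ _ (sm_const D 2) h
  exact nice_add (nice_add a1 a2) a3

theorem Xd_dw {G : ℂ × ℂ → ℂ} (h : Nice D G) {p : ℂ × ℂ} (hp : p ∈ D.Ω) :
    Xd D (dw G) p = -dw (EE D G) p := by
  have h1 := nice_dw D G h
  have dG := nice_da h hp
  have dwG := nice_da h1.1 hp
  have dzG := nice_da h1.2.1 hp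
  have d2 := diff_two_fst p
  have hc1 : DifferentiableAt ℝ (fun _ : ℂ × ℂ => (-1 : ℂ)) p := differentiableAt_const _
  have hc2 : DifferentiableAt ℝ (fun _ : ℂ × ℂ => (2 : ℂ)) p := differentiableAt_const _
  have hVw : DifferentiableAt ℝ (fun q => D.V q * dw G q) p := (da_V hp).mul dwG
  have e1 : dw (EE D G) p = dw (fun q => 2 * q.1 * dz G q + (-1) * (D.V q * dw G q)) p +
      dw (fun q => 2 * G q) p := dw_add ((d2.mul dzG).add (hc1.mul hVw)) (hc2.mul dG)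
  have e2 : dw (fun q => 2 * q.1 * dz G q + (-1) * (D.V q * dw G q)) p =
      dw (fun q => 2 * q.1 * dz G q) p + dw (fun q => (-1) * (D.V q * dw G q)) p :=
    dw_add (d2.mul dzG) (hc1.mul hVw)
  rw [e1, e2, dw_mul d2 dzG, dw_mul hc1 hVw, dw_mul hc2 dG,
    dw_const, dw_const, dw_two_fst, dw_dz_comm (nice_cda h hp), Xd, dz_mul d2 dwG, dz_two_fst]
  ring

theorem EE_eq {Q : ℂ × ℂ → ℂ} (h : Nice D Q) {p : ℂ × ℂ} (hp : p ∈ D.Ω) :
    EE D (fun q => (1 - D.kk q) * Q q) p = (1 - D.kk p) *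
      (2 * p.1 * dz Q p + (-1) * (D.V p * dw Q p) + 2 * Q p +
        I * (D.σ (Prof.lx p.1) : ℂ) * D.om p * Q p) := by
  have dk := da_kk hp
  have dk1 : DifferentiableAt ℝ (fun q => 1 - D.kk q) p := (differentiableAt_const _).sub dk
  have dQ := nice_da h hp
  have hc : DifferentiableAt ℝ (fun _ : ℂ × ℂ => (1 : ℂ)) p := differentiableAt_const _
  have z1 : dz (fun q => 1 - D.kk q) p = - dz D.kk p := by
    unfold dz
    rw [show (fun q => 1 - D.kk q) = (fun _ => (1 : ℂ)) - D.kk from rfl, fderiv_sub hc dk]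
    simp
    ring
  have w1 : dw (fun q => 1 - D.kk q) p = - dw D.kk p := by
    unfold dw
    rw [show (fun q => 1 - D.kk q) = (fun _ => (1 : ℂ)) - D.kk from rfl, fderiv_sub hc dk]
    simp
    ring
  have ek : (fun q => conj (D.kk q)) = D.kk := funext (conj_kk D)
  have z2 : conj (dzb D.kk p) = dz D.kk p := by
    rw [← dz_conj dk, ek]
  have w2 : conj (dwb D.kk p) = dw D.kk p := by
    rw [← dw_conj dk, ek]
  have X := congrArg (starRingEnd ℂ) (D.X_kk (p := p) (Ω_sub D hp).1)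
  simp only [map_sub, map_mul, map_ofNat, Complex.conj_conj, conj_I, conj_ofReal, map_one,
    z2, w2, conj_kk] at X
  unfold EE
  rw [dz_mul dk1 dQ, dw_mul dk1 dQ, z1, w1]
  linear_combination (-Q p) * X

/-! ### integrals -/

theorem int_mul (f : L2 D.Ω) {g : ℂ × ℂ → ℂ} (hg : MemLp g 2 (volume.restrict D.Ω)) :
    Integrable (fun p => f p * g p) (volume.restrict D.Ω) :=
  (Lp.memLp f).integrable_mul hg

theorem int_nice (f : L2 D.Ω) {g : ℂ × ℂ → ℂ} (hg : Nice D g) :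
    Integrable (fun p => f p * g p) (volume.restrict D.Ω) :=
  int_mul f (nice_memLp D g hg)

theorem int_niceC (f : L2 D.Ω) {g : ℂ × ℂ → ℂ} (hg : Nice D g) :
    Integrable (fun p => f p * conj (g p)) (volume.restrict D.Ω) :=
  int_nice f (nice_conj D g hg)

theorem ae_Ω (D : Prof) : ∀ᵐ p ∂(volume.restrict D.Ω), p ∈ D.Ω :=
  ae_restrict_mem D.isOpen_Ω.measurableSet

theorem int_congr {F G : ℂ × ℂ → ℂ} (h : ∀ p ∈ D.Ω, F p = G p) :
    ∫ p in D.Ω, F p = ∫ p in D.Ω, G p :=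
  setIntegral_congr_fun D.isOpen_Ω.measurableSet h

theorem bound_1k {Q : ℂ × ℂ → ℂ} (h : Nice D Q) :
    ∃ C, ∀ p ∈ D.Ω, ‖conj ((1 - D.kk p) * Q p)‖ ≤ C * (1 - ‖D.om p‖ ^ 2) := by
  obtain ⟨C, hC⟩ := nice_bdd D Q h
  refine ⟨C, fun p hp => ?_⟩
  have h1 := ((D.mem_Ω).1 hp).2
  have h2 : 0 ≤ 1 - ‖D.om p‖ ^ 2 := by nlinarith [norm_nonneg (D.om p)]
  rw [RCLike.norm_conj, norm_mul, kk_eq, show (1 : ℂ) - ((‖D.om p‖ ^ 2 : ℝ) : ℂ) =
    ((1 - ‖D.om p‖ ^ 2 : ℝ) : ℂ) by push_cast; ring, Complex.norm_real, Real.norm_eq_abs,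
    abs_of_nonneg h2, mul_comm]
  exact mul_le_mul_of_nonneg_right (hC p hp).1 h2

theorem bound_EE {Q : ℂ × ℂ → ℂ} (h : Nice D Q) :
    ∃ C, ∀ p ∈ D.Ω, ‖conj (EE D (fun q => (1 - D.kk q) * Q q) p)‖ ≤
      C * (1 - ‖D.om p‖ ^ 2) := by
  have hw := (nice_dw D Q h).1
  have hz := (nice_dw D Q h).2.1
  have h2 : Nice D (fun q => 2 * q.1 * dz Q q + (-1) * (D.V q * dw Q q) + 2 * Q q) :=
    nice_EE h
  obtain ⟨C1, hC1⟩ := nice_bdd D _ h2
  obtain ⟨C2, hC2⟩ := nice_bdd D Q h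
  refine ⟨C1 + C2, fun p hp => ?_⟩
  have h1 := ((D.mem_Ω).1 hp).2
  have h0 : 0 ≤ 1 - ‖D.om p‖ ^ 2 := by nlinarith [norm_nonneg (D.om p)]
  rw [RCLike.norm_conj, EE_eq h hp, norm_mul, kk_eq, show (1 : ℂ) - ((‖D.om p‖ ^ 2 : ℝ) : ℂ) =
    ((1 - ‖D.om p‖ ^ 2 : ℝ) : ℂ) by push_cast; ring, Complex.norm_real, Real.norm_eq_abs,
    abs_of_nonneg h0, mul_comm]
  refine mul_le_mul_of_nonneg_right ((norm_add_le _ _).trans (add_le_add (hC1 p hp).1 ?_)) h0
  have hσ0 := D.σ0 (Prof.lx p.1)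
  have hσ1 := D.σ1 (Prof.lx p.1)
  rw [norm_mul, norm_mul, norm_mul, Complex.norm_I, one_mul, Complex.norm_real,
    Real.norm_eq_abs, abs_of_nonneg hσ0]
  have hQ := (hC2 p hp).1
  have a1 : D.σ (Prof.lx p.1) * ‖D.om p‖ ≤ 1 := by
    nlinarith [norm_nonneg (D.om p)]
  calc D.σ (Prof.lx p.1) * ‖D.om p‖ * ‖Q p‖ ≤ 1 * ‖Q p‖ :=
        mul_le_mul_of_nonneg_right a1 (norm_nonneg _)
    _ ≤ C2 := by rw [one_mul]; exact hQ

/-- `β(dw ((1 - k) Q)) = 0` -/
theorem beta_dw (f : L2 D.Ω) (u : L2F D.Ω) (hc : IsDbar1 D.Ω u 0)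
    (hw : ∀ φ, IsTest D.Ω φ → ∫ p in D.Ω, f p * dwb φ p = -∫ p in D.Ω, u.snd p * φ p)
    {Q : ℂ × ℂ → ℂ} (hQ : Nice D Q) :
    ∫ p in D.Ω, f p * conj (Xd D (dw (fun q => (1 - D.kk q) * Q q)) p) =
      ∫ p in D.Ω, (2 * conj p.1 * u.fst p - conj (D.V p) * u.snd p) *
        conj (dw (fun q => (1 - D.kk q) * Q q) p) := by
  have hG : Nice D (fun q => (1 - D.kk q) * Q q) := nice_mul D _ _ (sm_1k D) hQ
  set G : ℂ × ℂ → ℂ := fun q => (1 - D.kk q) * Q q with hGd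
  have hE := nice_EE hG
  have hd := nice_dw D G hG
  -- left hand side
  have L : ∫ p in D.Ω, f p * conj (Xd D (dw G) p) = ∫ p in D.Ω, u.snd p * conj (EE D G p) := by
    have h1 := bipw D f u.snd hw (fun p => conj (EE D G p)) (nice_conj D _ hE) (bound_EE hQ)
    rw [← neg_eq_iff_eq_neg] at h1
    rw [← h1, ← integral_neg]
    refine int_congr fun p hp => ?_
    rw [Xd_dw hG hp, dwb_conj (nice_da hE hp)]
    simp
  have h2zG : Nice D (fun q => 2 * q.1 * G q) := nice_mul D _ _ (sm_2z D) hG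
  have h2zw : Nice D (fun q => 2 * q.1 * dw G q) := nice_mul D _ _ (sm_2z D) hd.1
  have h2zz : Nice D (fun q => 2 * q.1 * dz G q) := nice_mul D _ _ (sm_2z D) hd.2.1
  have hVw : Nice D (fun q => D.V q * dw G q) := nice_mul D _ _ (sm_V D) hd.1
  have h2G : Nice D (fun q => 2 * G q) := nice_mul D _ _ (sm_const D 2) hG
  have hsum : Nice D (fun q => 2 * G q + 2 * q.1 * dz G q) := nice_add h2G h2zz
  -- closedness
  have C0 : ∫ p in D.Ω, (u.snd p * conj (2 * G p + 2 * p.1 * dz G p) -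
      u.fst p * conj (2 * p.1 * dw G p)) = 0 := by
    obtain ⟨C, hC⟩ := bound_1k (D := D) (Q := fun q => 2 * q.1 * Q q)
      (nice_mul D _ _ (sm_2z D) hQ)
    have h1 := bipc D u hc (fun p => conj (2 * p.1 * G p)) (nice_conj D _ h2zG)
      ⟨C, fun p hp => by
        have := hC p hp
        rwa [show (1 - D.kk p) * (2 * p.1 * Q p) = 2 * p.1 * G p by
          simp only [hGd]; ring] at this⟩
    rw [← h1]
    refine int_congr fun p hp => ?_
    rw [dzb_conj (nice_da h2zG hp), dwb_conj (nice_da h2zG hp),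
      dz_mul (diff_two_fst p) (nice_da hG hp), dw_mul (diff_two_fst p) (nice_da hG hp),
      dz_two_fst, dw_two_fst, zero_mul, zero_add]
  rw [L]
  have i1 : Integrable (fun p => u.fst p * conj (2 * p.1 * dw G p)) (volume.restrict D.Ω) :=
    int_niceC u.fst h2zw
  have i2 : Integrable (fun p => u.snd p * conj (D.V p * dw G p)) (volume.restrict D.Ω) :=
    int_niceC u.snd hVw
  have i3 : Integrable (fun p => u.snd p * conj (2 * G p + 2 * p.1 * dz G p))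
      (volume.restrict D.Ω) := int_niceC u.snd hsum
  have R : ∫ p in D.Ω, (2 * conj p.1 * u.fst p - conj (D.V p) * u.snd p) * conj (dw G p) =
      ∫ p in D.Ω, (u.fst p * conj (2 * p.1 * dw G p) - u.snd p * conj (D.V p * dw G p)) := by
    refine int_congr fun p _ => ?_
    simp only [map_mul, map_ofNat]
    ring
  rw [R]
  have S : ∫ p in D.Ω, u.snd p * conj (EE D G p) =
      ∫ p in D.Ω, ((u.fst p * conj (2 * p.1 * dw G p) - u.snd p * conj (D.V p * dw G p)) +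
        (u.snd p * conj (2 * G p + 2 * p.1 * dz G p) - u.fst p * conj (2 * p.1 * dw G p))) := by
    refine int_congr fun p _ => ?_
    simp only [EE, map_mul, map_ofNat, map_add, map_neg, map_one]
    ring
  rw [S]
  refine (integral_add (i1.sub i2) (i3.sub i1)).trans ?_
  simp only [Pi.sub_apply]
  rw [C0, add_zero]

theorem norm_int_le {F : ℂ × ℂ → ℂ} {ε : ℝ} {H : ℂ × ℂ → ℝ}
    (hH : Integrable H (volume.restrict D.Ω)) (h : ∀ p ∈ D.Ω, ‖F p‖ ≤ ε * H p) :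
    ‖∫ p in D.Ω, F p‖ ≤ ε * ∫ p in D.Ω, H p := by
  rw [← integral_const_mul]
  refine norm_integral_le_of_norm_le (hH.const_mul ε) ?_
  filter_upwards [ae_Ω D] with p hp
  exact h p hp

theorem finite_Ω (D : Prof) : IsFiniteMeasure (volume.restrict D.Ω) := by
  refine ⟨?_⟩
  rw [Measure.restrict_apply_univ]
  have hb : Bornology.IsBounded D.Ω := by
    refine (Metric.isBounded_ball (x := (0 : ℂ × ℂ)) (r := Real.exp D.b0 + 1)).subset ?_
    intro p hp
    rw [mem_ball_zero_iff, Prod.norm_def, max_lt_iff]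
    have h1 := ((D.mem_Ω).1 hp).1
    refine ⟨?_, (D.norm_snd_le hp).trans_lt ?_⟩
    · have h2 : Real.log ‖p.1‖ < D.b0 := h1.2.2
      have h3 : 0 < ‖p.1‖ := norm_pos_iff.2 h1.1
      have := (Real.log_lt_iff_lt_exp h3).1 h2
      linarith
    · have := Real.exp_pos D.b0
      linarith
  exact hb.measure_lt_top

/-- `β(P) = 0` by approximation -/
theorem beta_P (f : L2 D.Ω) (u : L2F D.Ω)
    (hX : ∀ N y, Adm D N y → ∫ p in D.Ω, f p * conj (tfD D N y p) =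
      ∫ p in D.Ω, (2 * conj p.1 * u.fst p - conj (D.V p) * u.snd p) * conj (tf D N y p))
    {P : ℂ × ℂ → ℂ} (hP : Nice D P) (K : Set ℂ) (hK : IsCompact K) (hKb : K ⊆ D.base)
    (hPK : ∀ p : ℂ × ℂ, p.1 ∉ K → P p = 0)
    (happ : ∀ ε > 0, ∃ N y, Adm D N y ∧ (∀ k z, z ∉ K → y k z = 0) ∧ ∀ p ∈ D.Ω,
      ‖tf D N y p - P p‖ ≤ ε ∧ ‖tfD D N y p - Xd D P p‖ ≤ ε) :
    ∫ p in D.Ω, f p * conj (Xd D P p) =
      ∫ p in D.Ω, (2 * conj p.1 * u.fst p - conj (D.V p) * u.snd p) * conj (P p) := by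
  have := finite_Ω D
  -- a cutoff function
  obtain ⟨χ, hχs, hχc, hχ1, hχsupp⟩ : ∃ χ : ℂ → ℂ, ContDiff ℝ ∞ χ ∧ HasCompactSupport χ ∧
      (∀ z ∈ K, χ z = 1) ∧ tsupport χ ⊆ D.base := by
    obtain ⟨K', hK', h1, h2⟩ := exists_compact_between hK D.isOpen_base hKb
    obtain ⟨g, hg1, hg2, hg3⟩ := exists_contMDiff_support_eq_eq_one_iff
      (I := modelWithCornersSelf ℝ ℂ) (n := (⊤ : ℕ∞)) (isOpen_interior (s := K'))
      hK.isClosed h1
    refine ⟨fun z => (g z : ℂ), ?_, ?_, ?_, ?_⟩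
    · exact Complex.ofRealCLM.contDiff.comp (contMDiff_iff_contDiff.1 hg1)
    · refine HasCompactSupport.intro hK' (fun z hz => ?_)
      have : z ∉ Function.support g := by
        rw [hg3.1]
        exact fun h => hz (interior_subset h)
      simpa using this
    · intro z hz
      simp [(hg3.2 z).1 hz]
    · refine subset_trans (closure_minimal ?_ hK'.isClosed) h2
      intro z hz
      have : z ∈ Function.support g := by simpa using hz
      rw [hg3.1] at this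
      exact interior_subset this
  have hχN : Nice D (fun p => χ p.1) := by
    refine ⟨⟨univ, isOpen_univ, subset_univ _, (hχs.comp contDiff_fst).contDiffOn⟩,
      ⟨tsupport χ, hχsupp, hχc, fun p hp => image_eq_zero_of_notMem_tsupport hp⟩⟩
  obtain ⟨C1, hC1⟩ := nice_bdd D _ (nice_mul D _ _ (sm_2z D) hχN)
  obtain ⟨C2, hC2⟩ := nice_bdd D _ (nice_mul D _ _ (sm_V D) hχN)
  have intΦ : ∀ {g : ℂ × ℂ → ℂ}, Nice D g → Integrable (fun p =>
      (2 * conj p.1 * u.fst p - conj (D.V p) * u.snd p) * conj (g p))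
      (volume.restrict D.Ω) := by
    intro g hg
    have i1 := int_niceC u.fst (nice_mul D _ _ (sm_2z D) hg)
    have i2 := int_niceC u.snd (nice_mul D _ _ (sm_V D) hg)
    refine (i1.sub i2).congr (Filter.Eventually.of_forall fun p => ?_)
    simp only [Pi.sub_apply, map_mul, map_ofNat]
    ring
  set M1 : ℝ := ∫ p in D.Ω, ‖f p‖ with hM1
  set M2 : ℝ := ∫ p in D.Ω, (C1 * ‖u.fst p‖ + C2 * ‖u.snd p‖) with hM2
  have if1 : Integrable (fun p => ‖f p‖) (volume.restrict D.Ω) :=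
    ((Lp.memLp f).integrable one_le_two).norm
  have if2 : Integrable (fun p => C1 * ‖u.fst p‖ + C2 * ‖u.snd p‖) (volume.restrict D.Ω) :=
    ((((Lp.memLp u.fst).integrable one_le_two).norm).const_mul C1).add
      ((((Lp.memLp u.snd).integrable one_le_two).norm).const_mul C2)
  have key : ∀ ε > 0, ‖(∫ p in D.Ω, f p * conj (Xd D P p)) -
      ∫ p in D.Ω, (2 * conj p.1 * u.fst p - conj (D.V p) * u.snd p) * conj (P p)‖ ≤
      ε * (M1 + M2) := by
    intro ε hε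
    obtain ⟨N, y, hy, hyK, hb⟩ := happ ε hε
    have ht := nice_tf D N y hy
    have e := hX N y hy
    have iXP := int_niceC f (nice_Xd D P hP)
    have itf : Integrable (fun p => f p * conj (tfD D N y p)) (volume.restrict D.Ω) := by
      refine (int_niceC f (nice_Xd D _ ht)).congr ?_
      filter_upwards [ae_Ω D] with p hp
      rw [Xd_tf D N y hy p (Ω_sub D hp)]
    have a1 : ‖(∫ p in D.Ω, f p * conj (Xd D P p)) - ∫ p in D.Ω, f p * conj (tfD D N y p)‖ ≤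
        ε * M1 := by
      rw [← integral_sub iXP itf]
      refine norm_int_le if1 fun p hp => ?_
      rw [← mul_sub, ← map_sub, norm_mul, RCLike.norm_conj, norm_sub_rev, mul_comm]
      exact mul_le_mul_of_nonneg_right (hb p hp).2 (norm_nonneg _)
    have a2 : ‖(∫ p in D.Ω, (2 * conj p.1 * u.fst p - conj (D.V p) * u.snd p) *
        conj (tf D N y p)) -
        ∫ p in D.Ω, (2 * conj p.1 * u.fst p - conj (D.V p) * u.snd p) * conj (P p)‖ ≤
        ε * M2 := by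
      rw [← integral_sub (intΦ ht) (intΦ hP)]
      refine norm_int_le if2 fun p hp => ?_
      rw [← mul_sub, ← map_sub, norm_mul, RCLike.norm_conj, mul_comm]
      by_cases hpK : p.1 ∈ K
      · have hχp := hχ1 _ hpK
        have b1 := (hC1 p hp).1
        have b2 := (hC2 p hp).1
        rw [hχp, mul_one] at b1 b2
        refine mul_le_mul (hb p hp).1 ?_ (norm_nonneg _) hε.le
        refine (norm_sub_le _ _).trans (add_le_add ?_ ?_)
        · rw [norm_mul, show (2 : ℂ) * conj p.1 = conj (2 * p.1) by rw [map_mul, map_ofNat], RCLike.norm_conj]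
          exact mul_le_mul_of_nonneg_right b1 (norm_nonneg _)
        · rw [norm_mul, RCLike.norm_conj]
          exact mul_le_mul_of_nonneg_right b2 (norm_nonneg _)
      · have z1 : tf D N y p = 0 := by
          unfold tf
          rw [Finset.sum_eq_zero (fun k _ => by rw [hyK k _ hpK, zero_mul]), zero_div]
        rw [z1, hPK p hpK, sub_zero, norm_zero, zero_mul]
        have c1 : 0 ≤ C1 := (norm_nonneg _).trans (hC1 p hp).1
        have c2 : 0 ≤ C2 := (norm_nonneg _).trans (hC2 p hp).1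
        positivity
    calc ‖_ - _‖ = ‖((∫ p in D.Ω, f p * conj (Xd D P p)) -
          ∫ p in D.Ω, f p * conj (tfD D N y p)) +
          ((∫ p in D.Ω, (2 * conj p.1 * u.fst p - conj (D.V p) * u.snd p) *
            conj (tf D N y p)) -
          ∫ p in D.Ω, (2 * conj p.1 * u.fst p - conj (D.V p) * u.snd p) * conj (P p))‖ := by
          rw [e]; ring_nf
      _ ≤ ε * M1 + ε * M2 := (norm_add_le _ _).trans (add_le_add a1 a2)
      _ = ε * (M1 + M2) := by ring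
  have h0 : ‖(∫ p in D.Ω, f p * conj (Xd D P p)) -
      ∫ p in D.Ω, (2 * conj p.1 * u.fst p - conj (D.V p) * u.snd p) * conj (P p)‖ ≤ 0 := by
    refine le_of_forall_pos_le_add fun δ hδ => ?_
    have hM : 0 < |M1 + M2| + 1 := by positivity
    refine (key (δ / (|M1 + M2| + 1)) (by positivity)).trans ?_
    rw [zero_add, div_mul_eq_mul_div, div_le_iff₀ hM]
    exact mul_le_mul_of_nonneg_left (by linarith [le_abs_self (M1 + M2)]) hδ.le
  exact sub_eq_zero.1 (norm_le_zero_iff.1 h0)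

/-! ### test functions -/

theorem test_diff {Ω : Set (ℂ × ℂ)} {φ : ℂ × ℂ → ℂ} (h : IsTest Ω φ) (p : ℂ × ℂ) :
    DifferentiableAt ℝ φ p := (h.smooth.differentiable (by simp)) p

theorem test_memLp {Ω : Set (ℂ × ℂ)} {φ : ℂ × ℂ → ℂ} (h : IsTest Ω φ) :
    MemLp φ 2 (volume.restrict Ω) :=
  (h.smooth.continuous.memLp_of_hasCompactSupport h.compact).restrict Ω

theorem cont_fderiv_apply {Ω : Set (ℂ × ℂ)} {φ : ℂ × ℂ → ℂ} (h : IsTest Ω φ) (v : ℂ × ℂ) :
    Continuous (fun p => fderiv ℝ φ p v) :=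
  (h.smooth.continuous_fderiv (by simp)).clm_apply continuous_const

theorem supp_fderiv_apply {Ω : Set (ℂ × ℂ)} {φ : ℂ × ℂ → ℂ} (h : IsTest Ω φ) (v : ℂ × ℂ) :
    HasCompactSupport (fun p => fderiv ℝ φ p v) :=
  (h.compact.fderiv (𝕜 := ℝ)).comp_left (g := fun L : ℂ × ℂ →L[ℝ] ℂ => L v) (by simp)

theorem test_dzb_memLp {Ω : Set (ℂ × ℂ)} {φ : ℂ × ℂ → ℂ} (h : IsTest Ω φ) :
    MemLp (dzb φ) 2 (volume.restrict Ω) := by
  have m1 := ((cont_fderiv_apply h (1, 0)).memLp_of_hasCompactSupport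
    (supp_fderiv_apply h (1, 0)) (μ := volume) (p := 2)).restrict Ω
  have m2 := ((cont_fderiv_apply h (I, 0)).memLp_of_hasCompactSupport
    (supp_fderiv_apply h (I, 0)) (μ := volume) (p := 2)).restrict Ω
  have := (m1.add (m2.const_mul I)).const_mul (2 : ℂ)⁻¹
  refine this.ae_eq (Filter.Eventually.of_forall fun p => ?_)
  simp only [dzb, Pi.add_apply]
  ring

theorem test_dwb_memLp {Ω : Set (ℂ × ℂ)} {φ : ℂ × ℂ → ℂ} (h : IsTest Ω φ) :
    MemLp (dwb φ) 2 (volume.restrict Ω) := by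
  have m1 := ((cont_fderiv_apply h (0, 1)).memLp_of_hasCompactSupport
    (supp_fderiv_apply h (0, 1)) (μ := volume) (p := 2)).restrict Ω
  have m2 := ((cont_fderiv_apply h (0, I)).memLp_of_hasCompactSupport
    (supp_fderiv_apply h (0, I)) (μ := volume) (p := 2)).restrict Ω
  have := (m1.add (m2.const_mul I)).const_mul (2 : ℂ)⁻¹
  refine this.ae_eq (Filter.Eventually.of_forall fun p => ?_)
  simp only [dwb, Pi.add_apply]
  ring

/-- a test function times a function smooth on `Ω` is a test function -/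
theorem test_mul {φ g : ℂ × ℂ → ℂ} (h : IsTest D.Ω φ) (hg : ∀ p ∈ D.Ω, ContDiffAt ℝ ∞ g p) :
    IsTest D.Ω (fun p => g p * φ p) := by
  refine ⟨?_, ?_, ?_⟩
  · rw [contDiff_iff_contDiffAt]
    intro p
    by_cases hp : p ∈ tsupport φ
    · exact (hg p (h.supp hp)).mul h.smooth.contDiffAt
    · have h0 : φ =ᶠ[nhds p] fun _ => 0 := notMem_tsupport_iff_eventuallyEq.1 hp
      refine (contDiffAt_const (c := (0 : ℂ))).congr_of_eventuallyEq ?_
      filter_upwards [h0] with q hq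
      rw [hq, mul_zero]
  · exact h.compact.mul_left
  · exact (closure_mono (Function.support_mul_subset_right g φ)).trans h.supp

theorem test_conj {Ω : Set (ℂ × ℂ)} {φ : ℂ × ℂ → ℂ} (h : IsTest Ω φ) :
    IsTest Ω (fun p => conj (φ p)) := by
  refine ⟨(Complex.conjCLE : ℂ →L[ℝ] ℂ).contDiff.comp h.smooth, ?_, ?_⟩
  · exact h.compact.comp_left (g := fun z : ℂ => conj z) (by simp)
  · refine (closure_mono ?_).trans h.supp
    intro p hp
    simpa using hp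

theorem cda_om {p : ℂ × ℂ} (hp : p ∈ D.Ω) : ContDiffAt ℝ ∞ D.V p :=
  D.contDiffOn_V.contDiffAt ((isOpen_pre D).mem_nhds (Ω_sub D hp).1)

end Pool.Agent.DbarN.APR

namespace Pool.Agent.DbarN

open MeasureTheory Complex Set APR
open scoped ComplexConjugate ContDiff

/-- the regularity lemma, given the decomposition of test functions -/
theorem aprime_of_ker (D : Prof)
    (hker : ∀ Ξ : ℂ × ℂ → ℂ, IsTest D.Ω Ξ → ∃ (P Q : ℂ × ℂ → ℂ) (K : Set ℂ), IsCompact K ∧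
      K ⊆ D.base ∧ (∀ p : ℂ × ℂ, p.1 ∉ K → P p = 0) ∧ Nice D P ∧ Nice D Q ∧
      (∀ p ∈ D.Ω, Ξ p = P p + dw (fun q => (1 - D.kk q) * Q q) p) ∧
      ∀ ε > 0, ∃ N y, Adm D N y ∧ (∀ k z, z ∉ K → y k z = 0) ∧
        ∀ p ∈ D.Ω, ‖tf D N y p - P p‖ ≤ ε ∧
        ‖tfD D N y p - Xd D P p‖ ≤ ε)
    (f : L2 D.Ω) (u : L2F D.Ω) (hc : IsDbar1 D.Ω u 0)
    (hw : ∀ φ, IsTest D.Ω φ → ∫ p in D.Ω, f p * dwb φ p = -∫ p in D.Ω, u.snd p * φ p)
    (hX : ∀ N y, Adm D N y → ∫ p in D.Ω, f p * conj (tfD D N y p) =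
      ∫ p in D.Ω, (2 * conj p.1 * u.fst p - conj (D.V p) * u.snd p) * conj (tf D N y p)) :
    IsDbar0 D.Ω f u := by
  intro φ hφ
  refine ⟨?_, hw φ hφ⟩
  -- the test function `Ξ = conj φ / (2 z)`
  have h1 : ∀ p ∈ D.Ω, ContDiffAt ℝ ∞ (fun q : ℂ × ℂ => (2 * q.1)⁻¹) p := by
    intro p hp
    have hz : p.1 ≠ 0 := ((D.mem_Ω).1 hp).1.1
    exact (contDiffAt_const.mul contDiffAt_fst).inv (by simpa using hz)
  have hΞ : IsTest D.Ω (fun p : ℂ × ℂ => (2 * p.1)⁻¹ * conj (φ p)) := test_mul (test_conj hφ) h1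
  set Ξ : ℂ × ℂ → ℂ := fun p => (2 * p.1)⁻¹ * conj (φ p) with hΞd
  obtain ⟨P, Q, K, hK, hKb, hPK, hP, hQ, hdec, happ⟩ := hker Ξ hΞ
  have hG : Nice D (fun q => (1 - D.kk q) * Q q) := nice_mul D _ _ (sm_1k D) hQ
  have hGw := (nice_dw D _ hG).1
  have bP := beta_P f u hX hP K hK hKb hPK happ
  have bG := beta_dw f u hc hw hQ
  -- `X†` is additive
  have hXd : ∀ p ∈ D.Ω, Xd D Ξ p = Xd D P p + Xd D (dw (fun q => (1 - D.kk q) * Q q)) p := by
    intro p hp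
    have hev : ∀ᶠ q in nhds p, q ∈ D.Ω := D.isOpen_Ω.mem_nhds hp
    have e1 : (fun q => 2 * q.1 * Ξ q) =ᶠ[nhds p] fun q => 2 * q.1 * P q +
        2 * q.1 * dw (fun q => (1 - D.kk q) * Q q) q := by
      filter_upwards [hev] with q hq
      rw [hdec q hq, mul_add]
    have e2 : (fun q => D.V q * Ξ q) =ᶠ[nhds p] fun q => D.V q * P q +
        D.V q * dw (fun q => (1 - D.kk q) * Q q) q := by
      filter_upwards [hev] with q hq
      rw [hdec q hq, mul_add]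
    have e3 : dz (fun q => 2 * q.1 * P q + 2 * q.1 * dw (fun q => (1 - D.kk q) * Q q) q) p =
        dz (fun q => 2 * q.1 * P q) p +
          dz (fun q => 2 * q.1 * dw (fun q => (1 - D.kk q) * Q q) q) p :=
      APR.dz_add ((diff_two_fst p).mul (nice_da hP hp)) ((diff_two_fst p).mul (nice_da hGw hp))
    have e4 : dw (fun q => D.V q * P q + D.V q * dw (fun q => (1 - D.kk q) * Q q) q) p =
        dw (fun q => D.V q * P q) p +
          dw (fun q => D.V q * dw (fun q => (1 - D.kk q) * Q q) q) p :=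
      APR.dw_add ((da_V hp).mul (nice_da hP hp)) ((da_V hp).mul (nice_da hGw hp))
    rw [Xd, Xd, Xd, APR.dz_congr e1, APR.dw_congr e2, e3, e4]
    ring
  have intΦ : ∀ {g : ℂ × ℂ → ℂ}, Nice D g → Integrable (fun p =>
      (2 * conj p.1 * u.fst p - conj (D.V p) * u.snd p) * conj (g p))
      (volume.restrict D.Ω) := by
    intro g hg
    have i1 := int_niceC u.fst (nice_mul D _ _ (sm_2z D) hg)
    have i2 := int_niceC u.snd (nice_mul D _ _ (sm_V D) hg)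
    refine (i1.sub i2).congr (Filter.Eventually.of_forall fun p => ?_)
    simp only [Pi.sub_apply, map_mul, map_ofNat]
    ring
  have bΞ : ∫ p in D.Ω, f p * conj (Xd D Ξ p) =
      ∫ p in D.Ω, (2 * conj p.1 * u.fst p - conj (D.V p) * u.snd p) * conj (Ξ p) := by
    have l1 : ∫ p in D.Ω, f p * conj (Xd D Ξ p) = ∫ p in D.Ω, (f p * conj (Xd D P p) +
        f p * conj (Xd D (dw (fun q => (1 - D.kk q) * Q q)) p)) := by
      refine int_congr fun p hp => ?_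
      rw [hXd p hp, map_add, mul_add]
    have l2 : ∫ p in D.Ω, (2 * conj p.1 * u.fst p - conj (D.V p) * u.snd p) * conj (Ξ p) =
        ∫ p in D.Ω, ((2 * conj p.1 * u.fst p - conj (D.V p) * u.snd p) * conj (P p) +
          (2 * conj p.1 * u.fst p - conj (D.V p) * u.snd p) *
            conj (dw (fun q => (1 - D.kk q) * Q q) p)) := by
      refine int_congr fun p hp => ?_
      rw [hdec p hp, map_add, mul_add]
    rw [l1, l2, integral_add (int_niceC f (nice_Xd D P hP)) (int_niceC f (nice_Xd D _ hGw)),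
      integral_add (intΦ hP) (intΦ hGw), bP, bG]
  -- rewrite both sides
  have hV : ∀ p ∈ D.Ω, ContDiffAt ℝ ∞ D.V p := fun p hp => cda_om hp
  have hVΞ : IsTest D.Ω (fun p => D.V p * Ξ p) := test_mul hΞ hV
  have hψ : IsTest D.Ω (fun p => conj (D.V p * Ξ p)) := test_conj hVΞ
  have hz : ∀ p ∈ D.Ω, 2 * p.1 * Ξ p = conj (φ p) := by
    intro p hp
    have hz : p.1 ≠ 0 := ((D.mem_Ω).1 hp).1.1
    simp only [hΞd]
    field_simp
  have m1 : ∫ p in D.Ω, f p * conj (Xd D Ξ p) =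
      ∫ p in D.Ω, (f p * dwb (fun p => conj (D.V p * Ξ p)) p - f p * dzb φ p) := by
    refine int_congr fun p hp => ?_
    have hev : ∀ᶠ q in nhds p, q ∈ D.Ω := D.isOpen_Ω.mem_nhds hp
    have e1 : (fun q => 2 * q.1 * Ξ q) =ᶠ[nhds p] fun q => conj (φ q) := by
      filter_upwards [hev] with q hq
      exact hz q hq
    rw [Xd, APR.dz_congr e1, APR.dz_conj (test_diff hφ p), APR.dwb_conj (test_diff hVΞ p), map_add, map_neg,
      Complex.conj_conj]
    ring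
  have m2 : ∫ p in D.Ω, (2 * conj p.1 * u.fst p - conj (D.V p) * u.snd p) * conj (Ξ p) =
      ∫ p in D.Ω, (u.fst p * φ p - u.snd p * conj (D.V p * Ξ p)) := by
    refine int_congr fun p hp => ?_
    have h2 := congrArg (starRingEnd ℂ) (hz p hp)
    simp only [map_mul, map_ofNat, Complex.conj_conj] at h2 ⊢
    rw [← h2]
    ring
  rw [m1, m2, integral_sub (int_mul f (test_dwb_memLp hψ)) (int_mul f (test_dzb_memLp hφ)),
    integral_sub (int_mul u.fst (test_memLp hφ)) (int_mul u.snd (test_memLp hψ)),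
    hw _ hψ] at bΞ
  linear_combination (-1 : ℂ) * bΞ

end Pool.Agent.DbarN
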