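import Pool.Agent.DbarN.Prof

set_option autoImplicit false

namespace Pool.Agent.DbarN

open MeasureTheory Complex Set
open scoped ComplexConjugate ContDiff

namespace Prof
variable (D : Prof)

theorem r_pos : 0 < D.r := by
  rw [D.hr]
  have := D.hab
  positivity

theorem r_le : D.r ≤ 1 / 12 := by
  rw [D.hr]
  have := D.hab
  rw [div_le_div_iff₀ (by linarith) (by norm_num)]
  linarith

theorem one_sub_η_pos {x : ℝ} (hx : x ∈ Ioo D.a0 D.b0) : 0 < 1 - D.η x := by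
  have := D.ηlt x hx
  linarith

theorem R_pos {x : ℝ} (hx : x ∈ Ioo D.a0 D.b0) : 0 < D.R x :=
  mul_pos D.r_pos (Real.sqrt_pos.2 (D.one_sub_η_pos hx))

theorem R_nonneg (x : ℝ) : 0 ≤ D.R x := mul_nonneg D.r_pos.le (Real.sqrt_nonneg _)

theorem R_sq {x : ℝ} (hx : x ∈ Ioo D.a0 D.b0) : D.R x ^ 2 = D.r ^ 2 * (1 - D.η x) := by
  unfold R
  rw [mul_pow, Real.sq_sqrt (D.one_sub_η_pos hx).le]

theorem R_le (x : ℝ) : D.R x ≤ D.r := by
  unfold R
  have h1 : Real.sqrt (1 - D.η x) ≤ 1 := by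
    rw [Real.sqrt_le_one]
    have := D.η0 x
    linarith
  calc D.r * Real.sqrt (1 - D.η x) ≤ D.r * 1 := mul_le_mul_of_nonneg_left h1 D.r_pos.le
    _ = D.r := mul_one _

theorem hasDerivAt_η (x : ℝ) : HasDerivAt D.η (deriv D.η x) x :=
  (D.ηsm.differentiable (by simp) x).hasDerivAt

theorem deriv_η_smooth : ContDiff ℝ ∞ (deriv D.η) :=
  (contDiff_infty_iff_deriv.1 D.ηsm).2

theorem hasDerivAt_dη (x : ℝ) : HasDerivAt (deriv D.η) (deriv (deriv D.η) x) x :=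
  (D.deriv_η_smooth.differentiable (by simp) x).hasDerivAt

theorem hasDerivAt_R {x : ℝ} (hx : x ∈ Ioo D.a0 D.b0) :
    HasDerivAt D.R (-(D.μ x * D.R x)) x := by
  have h1 := D.one_sub_η_pos hx
  have h2 : HasDerivAt (fun y => 1 - D.η y) (-deriv D.η x) x := by
    simpa using (D.hasDerivAt_η x).const_sub 1
  have h3 := (h2.sqrt h1.ne').const_mul D.r
  have hs : Real.sqrt (1 - D.η x) ≠ 0 := (Real.sqrt_pos.2 h1).ne'
  have h3' : HasDerivAt D.R _ x := h3
  refine h3'.congr_deriv ?_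
  symm
  unfold μ R
  rw [div_mul_eq_mul_div, neg_eq_iff_eq_neg]
  have hsq : Real.sqrt (1 - D.η x) ^ 2 = 1 - D.η x := Real.sq_sqrt h1.le
  rw [show (1 - D.η x) = Real.sqrt (1 - D.η x) ^ 2 from hsq.symm]
  rw [Real.sqrt_sq (Real.sqrt_nonneg _)]
  field_simp

theorem hasDerivAt_μ {x : ℝ} (hx : x ∈ Ioo D.a0 D.b0) :
    HasDerivAt D.μ (deriv (deriv D.η) x / (2 * (1 - D.η x)) +
      deriv D.η x ^ 2 / (2 * (1 - D.η x) ^ 2)) x := by
  have h1 := D.one_sub_η_pos hx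
  have h2 : HasDerivAt (fun y => 2 * (1 - D.η y)) (2 * (-deriv D.η x)) x := by
    simpa using ((D.hasDerivAt_η x).const_sub 1).const_mul 2
  have h3 : HasDerivAt D.μ _ x := (D.hasDerivAt_dη x).div h2 (by positivity)
  refine h3.congr_deriv ?_
  have h4 : (1 - D.η x) ≠ 0 := h1.ne'
  field_simp
  ring

theorem contDiffOn_μ : ContDiffOn ℝ ∞ D.μ (Ioo D.a0 D.b0) := by
  have h : ContDiffOn ℝ ∞ (fun y => deriv D.η y / (2 * (1 - D.η y))) (Ioo D.a0 D.b0) := by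
    apply ContDiffOn.fun_div D.deriv_η_smooth.contDiffOn
    · exact (contDiff_const.mul (contDiff_const.sub D.ηsm)).contDiffOn
    · intro x hx
      have := D.one_sub_η_pos hx
      positivity
  exact h

theorem deriv_μ {x : ℝ} (hx : x ∈ Ioo D.a0 D.b0) :
    deriv D.μ x = deriv (deriv D.η) x / (2 * (1 - D.η x)) +
      deriv D.η x ^ 2 / (2 * (1 - D.η x) ^ 2) := (D.hasDerivAt_μ hx).deriv

theorem μ_sq_le {x : ℝ} (hx : x ∈ Ioo D.a0 D.b0) : D.μ x ^ 2 ≤ deriv D.μ x / 2 := by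
  have h1 := D.one_sub_η_pos hx
  rw [D.deriv_μ hx]
  unfold μ
  have h2 : (deriv D.η x / (2 * (1 - D.η x))) ^ 2 =
      (deriv D.η x ^ 2 / (2 * (1 - D.η x) ^ 2)) / 2 := by
    field_simp
  rw [h2]
  have h3 : 0 ≤ deriv (deriv D.η) x / (2 * (1 - D.η x)) :=
    div_nonneg (D.ηconv x) (by positivity)
  linarith

theorem deriv_μ_nonneg {x : ℝ} (hx : x ∈ Ioo D.a0 D.b0) : 0 ≤ deriv D.μ x := by
  have h1 := D.μ_sq_le hx
  have h2 := sq_nonneg (D.μ x)
  linarith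

theorem hasDerivAt_ϕ (x : ℝ) : HasDerivAt D.ϕ (-D.σ x) x := by
  unfold ϕ
  have h := (intervalIntegral.integral_hasDerivAt_right
    (D.σsm.continuous.intervalIntegrable D.a x)
    (D.σsm.continuous.stronglyMeasurableAtFilter _ _) D.σsm.continuous.continuousAt)
  exact h.neg

theorem contDiff_ϕ : ContDiff ℝ ∞ D.ϕ := by
  rw [contDiff_infty_iff_deriv]
  constructor
  · intro x
    exact (D.hasDerivAt_ϕ x).differentiableAt
  · have : deriv D.ϕ = fun x => -D.σ x := by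
      ext x
      exact (D.hasDerivAt_ϕ x).deriv
    rw [this]
    exact D.σsm.neg

theorem norm_τ' (x : ℝ) : ‖D.τ x‖ = D.R x := by
  unfold τ
  rw [norm_mul, show (I * (D.ϕ x : ℂ)) = (D.ϕ x : ℂ) * I by ring, norm_exp_ofReal_mul_I, mul_one,
    Complex.norm_real, Real.norm_of_nonneg (D.R_nonneg x)]

theorem norm_τ {x : ℝ} (_hx : x ∈ Ioo D.a0 D.b0) : ‖D.τ x‖ = D.R x := D.norm_τ' x

theorem τ_ne {x : ℝ} (hx : x ∈ Ioo D.a0 D.b0) : D.τ x ≠ 0 := by
  rw [← norm_pos_iff, D.norm_τ']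
  exact D.R_pos hx

theorem hasDerivAt_τ {x : ℝ} (hx : x ∈ Ioo D.a0 D.b0) :
    HasDerivAt D.τ (-((D.μ x : ℂ) + I * (D.σ x : ℂ)) * D.τ x) x := by
  have h1 : HasDerivAt (fun y => (D.R y : ℂ)) ((-(D.μ x * D.R x) : ℝ) : ℂ) x :=
    (D.hasDerivAt_R hx).ofReal_comp
  have h2 : HasDerivAt (fun y => (D.ϕ y : ℂ)) ((-D.σ x : ℝ) : ℂ) x :=
    (D.hasDerivAt_ϕ x).ofReal_comp
  have h3 := ((h2.const_mul I).cexp)
  have h4 : HasDerivAt D.τ _ x := h1.mul h3
  refine h4.congr_deriv ?_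
  unfold τ
  push_cast
  ring

theorem continuous_R : Continuous D.R := by
  unfold R
  exact continuous_const.mul (Real.continuous_sqrt.comp (continuous_const.sub D.ηsm.continuous))

theorem continuous_τ : Continuous D.τ := by
  unfold τ
  exact (continuous_ofReal.comp D.continuous_R).mul
    (Complex.continuous_exp.comp (continuous_const.mul
      (continuous_ofReal.comp D.contDiff_ϕ.continuous)))

theorem hasDerivAt_c (x : ℝ) : HasDerivAt D.c (-I * (D.σ x : ℂ) * D.τ x) x := by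
  unfold c
  have hc : Continuous (fun s => (D.σ s : ℂ) * D.τ s) :=
    (continuous_ofReal.comp D.σsm.continuous).mul D.continuous_τ
  have h := (intervalIntegral.integral_hasDerivAt_right
    (hc.intervalIntegrable D.a x)
    (hc.stronglyMeasurableAtFilter _ _) hc.continuousAt)
  refine (h.const_mul (-I)).congr_deriv ?_
  ring

theorem contDiffAt_R {x : ℝ} (hx : D.η x < 1) : ContDiffAt ℝ ∞ D.R x := by
  unfold R
  apply contDiffAt_const.mul
  apply ContDiffAt.sqrt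
  · exact (contDiff_const.sub D.ηsm).contDiffAt
  · linarith

theorem contDiff_ofReal : ContDiff ℝ ∞ (fun x : ℝ => (x : ℂ)) := Complex.ofRealCLM.contDiff

theorem contDiffAt_τ {x : ℝ} (hx : D.η x < 1) : ContDiffAt ℝ ∞ D.τ x := by
  unfold τ
  apply ContDiffAt.mul
  · exact (contDiff_ofReal.contDiffAt).comp x (D.contDiffAt_R hx)
  · apply ContDiffAt.cexp
    apply contDiffAt_const.mul
    exact (contDiff_ofReal.comp D.contDiff_ϕ).contDiffAt

theorem contDiffOn_τ : ContDiffOn ℝ ∞ D.τ (Ioo D.a0 D.b0) :=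
  fun x hx => (D.contDiffAt_τ (D.ηlt x hx)).contDiffWithinAt

theorem contDiff_στ : ContDiff ℝ ∞ (fun s => (D.σ s : ℂ) * D.τ s) := by
  rw [contDiff_iff_contDiffAt]
  intro x
  by_cases hx : D.η x < 1
  · exact ((contDiff_ofReal.comp D.σsm).contDiffAt).mul (D.contDiffAt_τ hx)
  · have h1 : 3 / 4 < D.η x := by
      push Not at hx
      linarith
    have h2 : ∀ᶠ y in nhds x, (D.σ y : ℂ) * D.τ y = 0 := by
      have := D.ηsm.continuous.continuousAt (x := x)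
      filter_upwards [this.eventually (lt_mem_nhds h1)] with y hy
      rw [D.σz y hy.le]
      simp
    exact (contDiffAt_const (c := (0 : ℂ))).congr_of_eventuallyEq h2

theorem contDiff_c : ContDiff ℝ ∞ D.c := by
  rw [contDiff_infty_iff_deriv]
  constructor
  · intro x
    exact (D.hasDerivAt_c x).differentiableAt
  · have : deriv D.c = fun x => -I * ((D.σ x : ℂ) * D.τ x) := by
      ext x
      rw [(D.hasDerivAt_c x).deriv]
      ring
    rw [this]
    exact contDiff_const.mul D.contDiff_στ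

/-! ### the variable `x = log |z|` -/

theorem lx_eq (z : ℂ) : lx z = Real.log (‖z‖ ^ 2) / 2 := by
  unfold lx
  rw [Real.log_pow]
  ring

/-- differential of `log |z|` -/
noncomputable def dlx (z : ℂ) : ℂ →L[ℝ] ℝ := (‖z‖ ^ 2)⁻¹ • (innerSL ℝ z)

theorem hasFDerivAt_lx {z : ℂ} (hz : z ≠ 0) : HasFDerivAt lx (dlx z) z := by
  have h1 : HasFDerivAt (fun y : ℂ => ‖y‖ ^ 2) (2 • (innerSL ℝ z)) z :=
    (hasStrictFDerivAt_norm_sq z).hasFDerivAt
  have h2 : (‖z‖ ^ 2) ≠ 0 := by positivity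
  have h3 := h1.log h2
  have h4 : HasFDerivAt (fun y : ℂ => (2 : ℝ)⁻¹ • Real.log (‖y‖ ^ 2))
      ((2 : ℝ)⁻¹ • ((‖z‖ ^ 2)⁻¹ • (2 • (innerSL ℝ z)))) z :=
    h3.const_smul ((2 : ℝ)⁻¹)
  have h5 : (lx : ℂ → ℝ) = fun y : ℂ => (2 : ℝ)⁻¹ • Real.log (‖y‖ ^ 2) := by
    ext y
    rw [lx_eq y, smul_eq_mul]
    ring
  rw [h5]
  have h6 : dlx z = ((2 : ℝ)⁻¹ • ((‖z‖ ^ 2)⁻¹ • (2 • (innerSL ℝ z)))) := by
    unfold dlx
    ext v
    simp
    ring
  rw [h6]
  exact h4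

theorem contDiffAt_lx {z : ℂ} (hz : z ≠ 0) : ContDiffAt ℝ ∞ lx z := by
  have h5 : (lx : ℂ → ℝ) = fun y : ℂ => Real.log (‖y‖ ^ 2) / 2 := by
    ext y
    exact lx_eq y
  rw [h5]
  apply ContDiffAt.div_const
  apply ContDiffAt.log
  · exact (contDiff_norm_sq ℝ).contDiffAt
  · positivity

theorem dlx_one {z : ℂ} (hz : z ≠ 0) :
    ((dlx z 1 : ℝ) : ℂ) - I * ((dlx z I : ℝ) : ℂ) = 1 / z := by
  unfold dlx
  have h : (((‖z‖ ^ 2)⁻¹ : ℝ) : ℂ) = 1 / (z * conj z) := by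
    rw [Complex.mul_conj, Complex.normSq_eq_norm_sq]
    push_cast
    simp
  have hz' : conj z ≠ 0 := by simpa using hz
  simp only [smul_apply, innerSL_apply_apply, smul_eq_mul]
  rw [show inner ℝ z (1 : ℂ) = z.re by simp [Complex.inner],
    show inner ℝ z I = z.im by simp [Complex.inner]]
  rw [ofReal_mul, ofReal_mul, h]
  have e : ((z.re : ℂ)) - I * (z.im : ℂ) = conj z := by
    apply Complex.ext <;> simp
  calc 1 / (z * conj z) * (z.re : ℂ) - I * (1 / (z * conj z) * (z.im : ℂ))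
      = 1 / (z * conj z) * ((z.re : ℂ) - I * (z.im : ℂ)) := by ring
    _ = 1 / z := by rw [e]; field_simp

theorem dlx_bar {z : ℂ} (hz : z ≠ 0) :
    ((dlx z 1 : ℝ) : ℂ) + I * ((dlx z I : ℝ) : ℂ) = 1 / conj z := by
  have h := congrArg conj (dlx_one hz)
  simp only [map_sub, map_mul, conj_ofReal, conj_I, map_div₀, map_one] at h
  rw [← h]
  ring

/-! ### base and domain -/

theorem isOpen_base : IsOpen D.base := by
  rw [isOpen_iff_mem_nhds]
  rintro z ⟨hz, hx⟩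
  have h1 : ∀ᶠ y in nhds z, y ≠ 0 := isOpen_ne.mem_nhds hz
  have h2 : ∀ᶠ y in nhds z, lx y ∈ Ioo D.a0 D.b0 :=
    (contDiffAt_lx hz).continuousAt.eventually (isOpen_Ioo.mem_nhds hx)
  filter_upwards [h1, h2] with y h3 h4
  exact ⟨h3, h4⟩

theorem isOpen_Ω : IsOpen D.Ω := by
  rw [isOpen_iff_mem_nhds]
  rintro p ⟨hz, hx⟩
  have h1 : ∀ᶠ q : ℂ × ℂ in nhds p, q.1 ≠ 0 :=
    (isOpen_ne.preimage continuous_fst).mem_nhds hz
  have hl : ContinuousAt (fun q : ℂ × ℂ => lx q.1) p :=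
    ContinuousAt.comp (f := fun q : ℂ × ℂ => q.1) (g := lx) (x := p)
      (contDiffAt_lx hz).continuousAt continuous_fst.continuousAt
  have h2 : ContinuousAt (fun q : ℂ × ℂ => ‖q.2 - D.c (lx q.1)‖ ^ 2) p :=
    ((continuous_snd.continuousAt.sub
      (ContinuousAt.comp (f := fun q : ℂ × ℂ => lx q.1) (g := D.c) (x := p)
        D.contDiff_c.continuous.continuousAt hl)).norm).pow 2
  have h3 : ContinuousAt (fun q : ℂ × ℂ => D.r ^ 2 * (1 - D.η (lx q.1))) p :=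
    continuousAt_const.mul (continuousAt_const.sub
      (ContinuousAt.comp (f := fun q : ℂ × ℂ => lx q.1) (g := D.η) (x := p)
        D.ηsm.continuous.continuousAt hl))
  filter_upwards [h1, h2.eventually_lt h3 hx] with q h4 h5
  exact ⟨h4, h5⟩

theorem mem_Ω {p : ℂ × ℂ} : p ∈ D.Ω ↔ p.1 ∈ D.base ∧ ‖D.om p‖ < 1 := by
  constructor
  · rintro ⟨hz, hx⟩
    have h0 : 0 < D.r ^ 2 := pow_pos D.r_pos 2
    have h1 : 0 < 1 - D.η (lx p.1) := by
      have h2 : 0 < D.r ^ 2 * (1 - D.η (lx p.1)) := lt_of_le_of_lt (by positivity) hx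
      exact (mul_pos_iff_of_pos_left h0).1 h2
    have h3 : lx p.1 ∈ Ioo D.a0 D.b0 := by
      constructor
      · by_contra hc
        push Not at hc
        rcases hc.lt_or_eq with h | h
        · have := D.ηgt _ (Or.inl h)
          linarith
        · rw [h, D.ηa0] at h1
          linarith
      · by_contra hc
        push Not at hc
        rcases hc.lt_or_eq with h | h
        · have := D.ηgt _ (Or.inr h)
          linarith
        · rw [← h, D.ηb0] at h1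
          linarith
    refine ⟨⟨hz, h3⟩, ?_⟩
    unfold om
    rw [norm_div, D.norm_τ', div_lt_one (D.R_pos h3)]
    rw [← D.R_sq h3] at hx
    exact lt_of_pow_lt_pow_left₀ 2 (D.R_nonneg _) hx
  · rintro ⟨⟨hz, h3⟩, h4⟩
    refine ⟨hz, ?_⟩
    unfold om at h4
    rw [norm_div, D.norm_τ', div_lt_one (D.R_pos h3)] at h4
    rw [← D.R_sq h3]
    exact pow_lt_pow_left₀ h4 (norm_nonneg _) (by norm_num)

theorem norm_c_le {x : ℝ} (hx : x ∈ Ioo D.a0 D.b0) : ‖D.c x‖ ≤ D.r * (D.b - D.a + 2) := by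
  unfold c
  rw [norm_mul, norm_neg, norm_I, one_mul]
  have h1 : ∀ s ∈ Set.uIoc D.a x, ‖(D.σ s : ℂ) * D.τ s‖ ≤ D.r := by
    intro s _
    rw [norm_mul, D.norm_τ', Complex.norm_real, Real.norm_of_nonneg (D.σ0 s)]
    calc D.σ s * D.R s ≤ 1 * D.r :=
          mul_le_mul (D.σ1 s) (D.R_le s) (D.R_nonneg s) (by norm_num)
      _ = D.r := one_mul _
  have h2 := intervalIntegral.norm_integral_le_of_norm_le_const h1
  refine h2.trans (mul_le_mul_of_nonneg_left ?_ D.r_pos.le)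
  have h3 := D.ha1
  have h4 := D.hb1
  have h5 := D.hab
  have h6 := hx.1
  have h7 := hx.2
  rw [abs_le]
  constructor <;> linarith

theorem norm_snd_le {p : ℂ × ℂ} (hp : p ∈ D.Ω) : ‖p.2‖ ≤ 1 / 4 := by
  obtain ⟨hb, ho⟩ := D.mem_Ω.1 hp
  have h1 : ‖p.2 - D.c (lx p.1)‖ ≤ D.R (lx p.1) := by
    unfold om at ho
    rw [norm_div, D.norm_τ', div_lt_one (D.R_pos hb.2)] at ho
    exact ho.le
  have h2 : ‖p.2‖ ≤ ‖p.2 - D.c (lx p.1)‖ + ‖D.c (lx p.1)‖ := by
    simpa using norm_add_le (p.2 - D.c (lx p.1)) (D.c (lx p.1))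
  have h3 := D.norm_c_le hb.2
  have h4 := D.R_le (lx p.1)
  have h5 : D.r * (D.b - D.a + 3) = 1 / 4 := by
    rw [D.hr]
    have := D.hab
    have h6 : D.b - D.a + 3 ≠ 0 := by linarith
    field_simp
  calc ‖p.2‖ ≤ D.R (lx p.1) + D.r * (D.b - D.a + 2) := by linarith
    _ ≤ D.r + D.r * (D.b - D.a + 2) := by linarith
    _ = D.r * (D.b - D.a + 3) := by ring
    _ = 1 / 4 := h5

/-! ### derivatives of the fibre coordinate -/

theorem hasFDerivAt_lx1 {p : ℂ × ℂ} (hz : p.1 ≠ 0) :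
    HasFDerivAt (fun q : ℂ × ℂ => lx q.1) ((dlx p.1).comp (ContinuousLinearMap.fst ℝ ℂ ℂ)) p :=
  (hasFDerivAt_lx hz).comp p (hasFDerivAt_fst)

theorem contDiffOn_lx1 : ContDiffOn ℝ ∞ (fun q : ℂ × ℂ => lx q.1) {p | p.1 ∈ D.base} := by
  intro p hp
  exact ((contDiffAt_lx hp.1).comp p contDiffAt_fst).contDiffWithinAt

theorem contDiffOn_om : ContDiffOn ℝ ∞ D.om {p | p.1 ∈ D.base} := by
  have h1 : ContDiffOn ℝ ∞ (fun p : ℂ × ℂ => p.2 - D.c (lx p.1)) {p | p.1 ∈ D.base} :=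
    contDiff_snd.contDiffOn.sub (D.contDiff_c.comp_contDiffOn D.contDiffOn_lx1)
  have h2 : ContDiffOn ℝ ∞ (fun p : ℂ × ℂ => D.τ (lx p.1)) {p | p.1 ∈ D.base} :=
    D.contDiffOn_τ.comp D.contDiffOn_lx1 (fun p hp => hp.2)
  have h3 : D.om = fun p : ℂ × ℂ => (p.2 - D.c (lx p.1)) * (D.τ (lx p.1))⁻¹ := by
    ext q
    simp [om, div_eq_mul_inv]
  rw [h3]
  exact h1.mul (h2.inv (fun p hp => D.τ_ne hp.2))

theorem contDiffOn_V : ContDiffOn ℝ ∞ D.V {p | p.1 ∈ D.base} := by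
  unfold V
  have h1 : ContDiffOn ℝ ∞ (fun p : ℂ × ℂ => (D.σ (lx p.1) : ℂ)) {p | p.1 ∈ D.base} :=
    (contDiff_ofReal.comp D.σsm).comp_contDiffOn D.contDiffOn_lx1
  have h2 : ContDiffOn ℝ ∞ (fun p : ℂ × ℂ => (D.μ (lx p.1) : ℂ)) {p | p.1 ∈ D.base} :=
    contDiff_ofReal.comp_contDiffOn (D.contDiffOn_μ.comp D.contDiffOn_lx1 (fun p hp => hp.2))
  have h3 : ContDiffOn ℝ ∞ (fun p : ℂ × ℂ => D.τ (lx p.1)) {p | p.1 ∈ D.base} :=
    D.contDiffOn_τ.comp D.contDiffOn_lx1 (fun p hp => hp.2)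
  have h4 := D.contDiffOn_om
  exact ((contDiffOn_const.mul ((((contDiffOn_const.mul h1).div_const 2).mul
    (contDiffOn_const.sub (h4.pow 2))).add (h2.mul h4))).mul h3)

/-- total derivative of `om` -/
theorem hasFDerivAt_om {p : ℂ × ℂ} (hp : p.1 ∈ D.base) :
    HasFDerivAt D.om
      ((((dlx p.1).comp (ContinuousLinearMap.fst ℝ ℂ ℂ)).smulRight
        (I * (D.σ (lx p.1) : ℂ) * (1 + D.om p) + (D.μ (lx p.1) : ℂ) * D.om p)) +
        ((1 / D.τ (lx p.1)) • (ContinuousLinearMap.snd ℝ ℂ ℂ))) p := by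
  have hτ := D.τ_ne hp.2
  have hx := hasFDerivAt_lx1 hp.1
  have hc := (D.hasDerivAt_c (lx p.1)).hasFDerivAt.comp p hx
  have ht := ((D.hasDerivAt_τ hp.2).inv hτ).hasFDerivAt.comp p hx
  have h2 : HasFDerivAt (fun q : ℂ × ℂ => q.2 - D.c (lx q.1)) _ p :=
    (hasFDerivAt_snd (𝕜 := ℝ) (E := ℂ) (F := ℂ) (p := p)).sub hc
  have h3 := h2.mul ht
  have h4 : D.om = fun q : ℂ × ℂ => (q.2 - D.c (lx q.1)) * ((D.τ)⁻¹ ∘ fun q : ℂ × ℂ => lx q.1) q := by
    ext q
    simp [om, div_eq_mul_inv]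
  rw [h4]
  refine HasFDerivAt.congr_fderiv h3 ?_
  refine ContinuousLinearMap.ext fun v => ?_
  simp only [add_apply, ContinuousLinearMap.smulRight_apply,
    ContinuousLinearMap.coe_comp, Function.comp_apply, ContinuousLinearMap.coe_fst',
    ContinuousLinearMap.coe_snd', smul_apply, sub_apply,
    ContinuousLinearMap.toSpanSingleton_apply, smul_eq_mul, real_smul, Pi.inv_apply]
  field_simp
  ring

/-- the field `m(ω) = i σ (1 + ω) + μ ω` -/
noncomputable def mm (p : ℂ × ℂ) : ℂ :=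
  I * (D.σ (lx p.1) : ℂ) * (1 + D.om p) + (D.μ (lx p.1) : ℂ) * D.om p

theorem fderiv_om {p : ℂ × ℂ} (hp : p.1 ∈ D.base) (v : ℂ × ℂ) :
    fderiv ℝ D.om p v = (dlx p.1 v.1 : ℂ) * D.mm p + (1 / D.τ (lx p.1)) * v.2 := by
  rw [(D.hasFDerivAt_om hp).fderiv]
  simp only [add_apply, ContinuousLinearMap.smulRight_apply, ContinuousLinearMap.coe_comp,
    Function.comp_apply, ContinuousLinearMap.coe_fst', ContinuousLinearMap.coe_snd', smul_apply,
    real_smul, smul_eq_mul, mm]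

theorem dz_om' {p : ℂ × ℂ} (hp : p.1 ∈ D.base) : 2 * p.1 * dz D.om p = D.mm p := by
  unfold dz
  rw [D.fderiv_om hp, D.fderiv_om hp]
  have h := dlx_one hp.1
  have hz : p.1 ≠ 0 := hp.1
  simp only [mul_zero, add_zero]
  calc 2 * p.1 * ((((dlx p.1 1 : ℝ) : ℂ) * D.mm p - I * (((dlx p.1 I : ℝ) : ℂ) * D.mm p)) / 2)
      = p.1 * (((dlx p.1 1 : ℝ) : ℂ) - I * ((dlx p.1 I : ℝ) : ℂ)) * D.mm p := by ring
    _ = D.mm p := by rw [h]; field_simp

theorem dzb_om' {p : ℂ × ℂ} (hp : p.1 ∈ D.base) : 2 * conj p.1 * dzb D.om p = D.mm p := by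
  unfold dzb
  rw [D.fderiv_om hp, D.fderiv_om hp]
  have h := dlx_bar hp.1
  have hz : conj p.1 ≠ 0 := by simpa using hp.1
  simp only [mul_zero, add_zero]
  calc 2 * conj p.1 *
        ((((dlx p.1 1 : ℝ) : ℂ) * D.mm p + I * (((dlx p.1 I : ℝ) : ℂ) * D.mm p)) / 2)
      = conj p.1 * (((dlx p.1 1 : ℝ) : ℂ) + I * ((dlx p.1 I : ℝ) : ℂ)) * D.mm p := by ring
    _ = D.mm p := by rw [h]; field_simp

theorem dz_om {p : ℂ × ℂ} (hp : p.1 ∈ D.base) :
    2 * p.1 * dz D.om p =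
      I * (D.σ (lx p.1) : ℂ) * (1 + D.om p) + (D.μ (lx p.1) : ℂ) * D.om p := D.dz_om' hp

theorem dzb_om {p : ℂ × ℂ} (hp : p.1 ∈ D.base) :
    2 * conj p.1 * dzb D.om p =
      I * (D.σ (lx p.1) : ℂ) * (1 + D.om p) + (D.μ (lx p.1) : ℂ) * D.om p := D.dzb_om' hp

theorem dw_om {p : ℂ × ℂ} (hp : p.1 ∈ D.base) : dw D.om p = 1 / D.τ (lx p.1) := by
  unfold dw
  rw [D.fderiv_om hp, D.fderiv_om hp]
  simp only [map_zero, ofReal_zero, zero_mul, zero_add, mul_one]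
  have h : I * I = -1 := I_mul_I
  linear_combination (-(1 / D.τ (lx p.1)) / 2) * h

theorem dwb_om {p : ℂ × ℂ} (hp : p.1 ∈ D.base) : dwb D.om p = 0 := by
  unfold dwb
  rw [D.fderiv_om hp, D.fderiv_om hp]
  simp only [map_zero, ofReal_zero, zero_mul, zero_add, mul_one]
  have h : I * I = -1 := I_mul_I
  linear_combination ((1 / D.τ (lx p.1)) / 2) * h

end Prof

/-! ### product and conjugation rules for the Wirtinger derivatives -/

section rules

variable {f g : ℂ × ℂ → ℂ} {p : ℂ × ℂ}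

theorem fderiv_conj (f : ℂ × ℂ → ℂ) (p v : ℂ × ℂ) :
    fderiv ℝ (fun q => conj (f q)) p v = conj (fderiv ℝ f p v) := by
  have h : (fun q => conj (f q)) = (conjCLE : ℂ ≃L[ℝ] ℂ) ∘ f := by
    ext q
    simp
  rw [h, ContinuousLinearEquiv.comp_fderiv]
  simp

theorem conj_two : conj (2 : ℂ) = 2 := by
  have h := Complex.conj_ofReal 2
  simpa using h

theorem dzb_conj (f : ℂ × ℂ → ℂ) (p : ℂ × ℂ) : dzb (fun q => conj (f q)) p = conj (dz f p) := by
  unfold dzb dz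
  rw [fderiv_conj, fderiv_conj]
  simp [conj_two]

theorem dz_conj (f : ℂ × ℂ → ℂ) (p : ℂ × ℂ) : dz (fun q => conj (f q)) p = conj (dzb f p) := by
  unfold dzb dz
  rw [fderiv_conj, fderiv_conj]
  simp [conj_two]
  ring

theorem dwb_conj (f : ℂ × ℂ → ℂ) (p : ℂ × ℂ) : dwb (fun q => conj (f q)) p = conj (dw f p) := by
  unfold dwb dw
  rw [fderiv_conj, fderiv_conj]
  simp [conj_two]

theorem dw_conj (f : ℂ × ℂ → ℂ) (p : ℂ × ℂ) : dw (fun q => conj (f q)) p = conj (dwb f p) := by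
  unfold dwb dw
  rw [fderiv_conj, fderiv_conj]
  simp [conj_two]
  ring

theorem fderiv_mul_apply' (hf : DifferentiableAt ℝ f p) (hg : DifferentiableAt ℝ g p)
    (v : ℂ × ℂ) :
    fderiv ℝ (fun q => f q * g q) p v = f p * fderiv ℝ g p v + fderiv ℝ f p v * g p := by
  rw [fderiv_fun_mul hf hg]
  simp
  ring

theorem dzb_mul (hf : DifferentiableAt ℝ f p) (hg : DifferentiableAt ℝ g p) :
    dzb (fun q => f q * g q) p = f p * dzb g p + dzb f p * g p := by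
  unfold dzb
  rw [fderiv_mul_apply' hf hg, fderiv_mul_apply' hf hg]
  ring

theorem dz_mul (hf : DifferentiableAt ℝ f p) (hg : DifferentiableAt ℝ g p) :
    dz (fun q => f q * g q) p = f p * dz g p + dz f p * g p := by
  unfold dz
  rw [fderiv_mul_apply' hf hg, fderiv_mul_apply' hf hg]
  ring

theorem dwb_mul (hf : DifferentiableAt ℝ f p) (hg : DifferentiableAt ℝ g p) :
    dwb (fun q => f q * g q) p = f p * dwb g p + dwb f p * g p := by
  unfold dwb
  rw [fderiv_mul_apply' hf hg, fderiv_mul_apply' hf hg]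
  ring

theorem dw_mul (hf : DifferentiableAt ℝ f p) (hg : DifferentiableAt ℝ g p) :
    dw (fun q => f q * g q) p = f p * dw g p + dw f p * g p := by
  unfold dw
  rw [fderiv_mul_apply' hf hg, fderiv_mul_apply' hf hg]
  ring

theorem dzb_add (hf : DifferentiableAt ℝ f p) (hg : DifferentiableAt ℝ g p) :
    dzb (fun q => f q + g q) p = dzb f p + dzb g p := by
  unfold dzb
  rw [fderiv_fun_add hf hg]
  simp
  ring

theorem dz_add (hf : DifferentiableAt ℝ f p) (hg : DifferentiableAt ℝ g p) :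
    dz (fun q => f q + g q) p = dz f p + dz g p := by
  unfold dz
  rw [fderiv_fun_add hf hg]
  simp
  ring

theorem dwb_add (hf : DifferentiableAt ℝ f p) (hg : DifferentiableAt ℝ g p) :
    dwb (fun q => f q + g q) p = dwb f p + dwb g p := by
  unfold dwb
  rw [fderiv_fun_add hf hg]
  simp
  ring

theorem dw_add (hf : DifferentiableAt ℝ f p) (hg : DifferentiableAt ℝ g p) :
    dw (fun q => f q + g q) p = dw f p + dw g p := by
  unfold dw
  rw [fderiv_fun_add hf hg]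
  simp
  ring

end rules

namespace Prof
variable (D : Prof)

theorem differentiableAt_om {p : ℂ × ℂ} (hp : p.1 ∈ D.base) : DifferentiableAt ℝ D.om p :=
  (D.hasFDerivAt_om hp).differentiableAt

theorem differentiableAt_conj_om {p : ℂ × ℂ} (hp : p.1 ∈ D.base) :
    DifferentiableAt ℝ (fun q => conj (D.om q)) p :=
  (conjCLE.differentiableAt (𝕜 := ℝ)).comp p (D.differentiableAt_om hp)

theorem V_eq {p : ℂ × ℂ} : D.V p = 2 * ((I * (D.σ (lx p.1) : ℂ) / 2) * (1 - D.om p ^ 2) +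
    (D.μ (lx p.1) : ℂ) * D.om p) * D.τ (lx p.1) := rfl

/-- `X k = i σ conj ω (1 - k)` -/
theorem X_kk {p : ℂ × ℂ} (hp : p.1 ∈ D.base) :
    2 * conj p.1 * dzb D.kk p - conj (D.V p) * dwb D.kk p =
      I * (D.σ (lx p.1) : ℂ) * conj (D.om p) * (1 - D.kk p) := by
  have h1 := D.differentiableAt_om hp
  have h2 := D.differentiableAt_conj_om hp
  have hk : D.kk = fun q => D.om q * conj (D.om q) := rfl
  rw [hk, dzb_mul h1 h2, dwb_mul h1 h2, dzb_conj, dwb_conj, D.dwb_om hp, D.dw_om hp]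
  have h3 := D.dzb_om hp
  have h4 := congrArg conj (D.dz_om hp)
  have hτ : conj (D.τ (lx p.1)) ≠ 0 := by simpa using D.τ_ne hp.2
  simp only [map_mul, map_add, map_one, conj_ofReal, conj_I] at h4
  rw [conj_two] at h4
  have h5 : conj (D.V p) = 2 * ((-I * (D.σ (lx p.1) : ℂ) / 2) * (1 - conj (D.om p) ^ 2) +
    (D.μ (lx p.1) : ℂ) * conj (D.om p)) * conj (D.τ (lx p.1)) := by
    rw [D.V_eq]
    simp only [map_mul, map_add, map_sub, map_div₀, map_pow, map_one, conj_ofReal, conj_I, conj_two]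
  rw [h5]
  simp only [map_div₀, map_one]
  calc _ = D.om p * (2 * conj p.1 * conj (dz D.om p)) +
        (2 * conj p.1 * dzb D.om p) * conj (D.om p)
        - 2 * ((-I * (D.σ (lx p.1) : ℂ) / 2) * (1 - conj (D.om p) ^ 2) +
          (D.μ (lx p.1) : ℂ) * conj (D.om p)) * D.om p := by
        field_simp
        ring
    _ = _ := by
        rw [h3, h4]
        ring

end Prof
end Pool.Agent.DbarN
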