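import Pool.Agent.DbarN.Basic

/-! # Change of variables on the domain -/

set_option autoImplicit false

namespace Pool.Agent.DbarN

open MeasureTheory Complex Set
open scoped ComplexConjugate ContDiff

/-- determinant of a block triangular map -/
theorem cov_det_tri (A B N : ℂ →L[ℝ] ℂ) :
    ((A.comp (ContinuousLinearMap.fst ℝ ℂ ℂ)).prod
      (N.comp (ContinuousLinearMap.fst ℝ ℂ ℂ) + B.comp (ContinuousLinearMap.snd ℝ ℂ ℂ))).det
      = A.det * B.det := by
  have key : ∀ A B N : ℂ →ₗ[ℝ] ℂ, LinearMap.det ((A.comp (LinearMap.fst ℝ ℂ ℂ)).prod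
      (N.comp (LinearMap.fst ℝ ℂ ℂ) + B.comp (LinearMap.snd ℝ ℂ ℂ))) =
      LinearMap.det A * LinearMap.det B := by
    intro A B N
    have h : LinearMap.toMatrix (basisOneI.prod basisOneI) (basisOneI.prod basisOneI)
        ((A.comp (LinearMap.fst ℝ ℂ ℂ)).prod
          (N.comp (LinearMap.fst ℝ ℂ ℂ) + B.comp (LinearMap.snd ℝ ℂ ℂ))) =
        Matrix.fromBlocks (LinearMap.toMatrix basisOneI basisOneI A) 0
          (LinearMap.toMatrix basisOneI basisOneI N)
          (LinearMap.toMatrix basisOneI basisOneI B) := by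
      ext i j
      rcases i with i | i <;> rcases j with j | j <;> simp [LinearMap.toMatrix_apply]
    rw [← LinearMap.det_toMatrix (basisOneI.prod basisOneI), h, Matrix.det_fromBlocks_zero₁₂,
      LinearMap.det_toMatrix, LinearMap.det_toMatrix]
  exact key A B N

/-- determinant of a multiplication -/
theorem cov_det_mul (a : ℂ) : (ContinuousLinearMap.mul ℝ ℂ a).det = ‖a‖ ^ 2 := by
  have h := Algebra.norm_complex_apply a
  rw [Algebra.norm_apply] at h
  rw [← Complex.normSq_eq_norm_sq, ← h]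
  rfl

/-- the map `(ζ, v) ↦ (e^ζ, c + τ v)` -/
noncomputable def covF (D : Prof) (q : ℂ × ℂ) : ℂ × ℂ :=
  (exp q.1, D.c q.1.re + D.τ q.1.re * q.2)

/-- its domain -/
def covS (D : Prof) : Set (ℂ × ℂ) :=
  {q | q.1.re ∈ Ioo D.a0 D.b0 ∧ q.1.im ∈ Ioo (-Real.pi) Real.pi ∧ ‖q.2‖ < 1}

theorem covS_open (D : Prof) : IsOpen (covS D) := by
  have h1 : IsOpen {q : ℂ × ℂ | q.1.re ∈ Ioo D.a0 D.b0} :=
    isOpen_Ioo.preimage (continuous_re.comp continuous_fst)
  have h2 : IsOpen {q : ℂ × ℂ | q.1.im ∈ Ioo (-Real.pi) Real.pi} :=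
    isOpen_Ioo.preimage (continuous_im.comp continuous_fst)
  have h3 : IsOpen {q : ℂ × ℂ | ‖q.2‖ < 1} :=
    isOpen_lt (continuous_norm.comp continuous_snd) continuous_const
  exact h1.inter (h2.inter h3)

/-- its derivative -/
noncomputable def covF' (D : Prof) (q : ℂ × ℂ) : ℂ × ℂ →L[ℝ] ℂ × ℂ :=
  ((ContinuousLinearMap.mul ℝ ℂ (exp q.1)).comp (ContinuousLinearMap.fst ℝ ℂ ℂ)).prod
    ((reCLM.smulRight (-I * (D.σ q.1.re : ℂ) * D.τ q.1.re +
      (-((D.μ q.1.re : ℂ) + I * (D.σ q.1.re : ℂ)) * D.τ q.1.re) * q.2)).comp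
        (ContinuousLinearMap.fst ℝ ℂ ℂ) +
      (ContinuousLinearMap.mul ℝ ℂ (D.τ q.1.re)).comp (ContinuousLinearMap.snd ℝ ℂ ℂ))

theorem covF_deriv (D : Prof) {q : ℂ × ℂ} (hq : q ∈ covS D) :
    HasFDerivAt (covF D) (covF' D q) q := by
  have hx : q.1.re ∈ Ioo D.a0 D.b0 := hq.1
  have hre : HasFDerivAt (fun q : ℂ × ℂ => q.1.re)
      (reCLM.comp (ContinuousLinearMap.fst ℝ ℂ ℂ)) q :=
    (reCLM.comp (ContinuousLinearMap.fst ℝ ℂ ℂ)).hasFDerivAt
  have hc : HasFDerivAt (fun q : ℂ × ℂ => D.c q.1.re) _ q :=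
    HasFDerivAt.comp (g := D.c) (f := fun q : ℂ × ℂ => q.1.re) q
      (D.hasDerivAt_c q.1.re).hasFDerivAt hre
  have hτ : HasFDerivAt (fun q : ℂ × ℂ => D.τ q.1.re) _ q :=
    HasFDerivAt.comp (g := D.τ) (f := fun q : ℂ × ℂ => q.1.re) q
      (D.hasDerivAt_τ hx).hasFDerivAt hre
  have hs : HasFDerivAt (fun q : ℂ × ℂ => q.2) (ContinuousLinearMap.snd ℝ ℂ ℂ) q :=
    (ContinuousLinearMap.snd ℝ ℂ ℂ).hasFDerivAt
  have he : HasFDerivAt (fun q : ℂ × ℂ => exp q.1)
      ((ContinuousLinearMap.mul ℝ ℂ (exp q.1)).comp (ContinuousLinearMap.fst ℝ ℂ ℂ)) q := by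
    have h1 : HasFDerivAt (exp : ℂ → ℂ) (ContinuousLinearMap.mul ℝ ℂ (exp q.1)) q.1 := by
      have h := (Complex.hasDerivAt_exp q.1).hasFDerivAt.restrictScalars ℝ
      refine h.congr_fderiv ?_
      ext x
      simp [mul_comm]
    exact h1.comp q (ContinuousLinearMap.fst ℝ ℂ ℂ).hasFDerivAt
  have h2 := hc.add (hτ.mul hs)
  refine (he.prodMk h2).congr_fderiv ?_
  unfold covF'
  congr 1
  refine ContinuousLinearMap.ext fun v => ?_
  simp only [add_apply, ContinuousLinearMap.comp_apply,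
    ContinuousLinearMap.smulRight_apply, ContinuousLinearMap.coe_fst', ContinuousLinearMap.coe_snd',
    reCLM_apply, ContinuousLinearMap.mul_apply', smul_apply, smul_eq_mul,
    real_smul, ContinuousLinearMap.toSpanSingleton_apply]
  ring

theorem covF'_det (D : Prof) {q : ℂ × ℂ} (hq : q ∈ covS D) :
    |(covF' D q).det| = D.R q.1.re ^ 2 * Real.exp (2 * q.1.re) := by
  unfold covF'
  rw [cov_det_tri, cov_det_mul, cov_det_mul, D.norm_τ hq.1, Complex.norm_exp,
    ← Real.exp_nat_mul, abs_of_nonneg (by positivity), mul_comm]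
  norm_num

theorem covF_inj (D : Prof) : InjOn (covF D) (covS D) := by
  intro p hp q hq h
  have h1 : exp p.1 = exp q.1 := congrArg Prod.fst h
  have h2 : D.c p.1.re + D.τ p.1.re * p.2 = D.c q.1.re + D.τ q.1.re * q.2 := congrArg Prod.snd h
  have h3 : p.1 = q.1 := by
    have e1 := Complex.log_exp hp.2.1.1 hp.2.1.2.le
    have e2 := Complex.log_exp hq.2.1.1 hq.2.1.2.le
    rw [← e1, ← e2, h1]
  rw [h3] at h2
  have h4 : D.τ q.1.re ≠ 0 := by
    intro h0
    have := D.norm_τ hq.1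
    rw [h0, norm_zero] at this
    exact (D.R_pos hq.1).ne this
  have h5 : p.2 = q.2 := mul_left_cancel₀ h4 (add_left_cancel h2)
  exact Prod.ext h3 h5

theorem covF_image (D : Prof) : covF D '' covS D = D.Ω ∩ {p | p.1 ∈ slitPlane} := by
  ext p
  constructor
  · rintro ⟨q, hq, rfl⟩
    have hτ : D.τ q.1.re ≠ 0 := by
      intro h0
      have := D.norm_τ hq.1
      rw [h0, norm_zero] at this
      exact (D.R_pos hq.1).ne this
    have hlx : Prof.lx (exp q.1) = q.1.re := by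
      unfold Prof.lx
      rw [Complex.norm_exp, Real.log_exp]
    refine ⟨?_, ?_⟩
    · rw [D.mem_Ω]
      refine ⟨⟨exp_ne_zero _, ?_⟩, ?_⟩
      · show Prof.lx (exp q.1) ∈ _
        rw [hlx]; exact hq.1
      · show ‖(D.c q.1.re + D.τ q.1.re * q.2 - D.c (Prof.lx (exp q.1))) /
          D.τ (Prof.lx (exp q.1))‖ < 1
        rw [hlx, add_sub_cancel_left, mul_div_cancel_left₀ _ hτ]
        exact hq.2.2
    · show exp q.1 ∈ slitPlane
      rw [mem_slitPlane_iff_arg]
      refine ⟨?_, exp_ne_zero _⟩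
      have e1 := Complex.log_exp hq.2.1.1 hq.2.1.2.le
      have e2 : arg (exp q.1) = q.1.im := by
        conv_rhs => rw [← e1]
        rw [Complex.log_im]
      rw [e2]
      exact hq.2.1.2.ne
  · rintro ⟨hp, hs⟩
    rw [D.mem_Ω] at hp
    have hs : p.1 ∈ slitPlane := hs
    refine ⟨(log p.1, D.om p), ⟨?_, ⟨?_, ?_⟩, hp.2⟩, ?_⟩
    · show (log p.1).re ∈ _
      rw [Complex.log_re]
      exact hp.1.2
    · show -Real.pi < (log p.1).im
      rw [Complex.log_im]
      exact neg_pi_lt_arg _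
    · show (log p.1).im < Real.pi
      rw [Complex.log_im]
      exact lt_of_le_of_ne (arg_le_pi _) (mem_slitPlane_iff_arg.1 hs).1
    · have hx : (log p.1).re = Prof.lx p.1 := Complex.log_re _
      have hτ : D.τ (Prof.lx p.1) ≠ 0 := by
        intro h0
        have := D.norm_τ hp.1.2
        rw [h0, norm_zero] at this
        exact (D.R_pos hp.1.2).ne this
      unfold covF
      simp only [hx]
      refine Prod.ext (Complex.exp_log hp.1.1) ?_
      show D.c (Prof.lx p.1) + D.τ (Prof.lx p.1) * ((p.2 - D.c (Prof.lx p.1)) /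
        D.τ (Prof.lx p.1)) = p.2
      field_simp
      ring

theorem cov_null : volume ({p : ℂ × ℂ | p.1 ∈ slitPlane}ᶜ) = 0 := by
  have h1 : volume (slitPlaneᶜ : Set ℂ) = 0 := by
    have h2 : (slitPlaneᶜ : Set ℂ) ⊆ (LinearMap.ker imLm : Set ℂ) := by
      intro z hz
      have hz : z ∉ slitPlane := hz
      rw [mem_slitPlane_iff] at hz
      push Not at hz
      exact hz.2
    refine measure_mono_null h2 ?_
    refine Measure.addHaar_submodule _ _ ?_
    intro h
    have : (I : ℂ) ∈ LinearMap.ker imLm := by rw [h]; trivial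
    simp at this
  have h3 : {p : ℂ × ℂ | p.1 ∈ slitPlane}ᶜ = (slitPlaneᶜ : Set ℂ) ×ˢ (univ : Set ℂ) := by
    ext p; simp
  rw [h3, Measure.volume_eq_prod, Measure.prod_prod, h1, zero_mul]

theorem cov_ae (D : Prof) : (covF D '' covS D : Set (ℂ × ℂ)) =ᵐ[volume] D.Ω := by
  rw [covF_image]
  have : ∀ᵐ p : ℂ × ℂ, p ∈ {p : ℂ × ℂ | p.1 ∈ slitPlane} := by
    rw [ae_iff]
    exact cov_null
  filter_upwards [this] with p hp
  exact propext ⟨fun h => h.1, fun h => ⟨h, hp⟩⟩

/-- the coordinates `(x, φ, v) ↦ (x + iφ, v)` -/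
noncomputable def covE : ℝ × ℝ × ℂ ≃ᵐ ℂ × ℂ :=
  MeasurableEquiv.prodAssoc.symm.trans
    (MeasurableEquiv.prodCongr measurableEquivRealProd.symm (MeasurableEquiv.refl ℂ))

theorem covE_apply (s : ℝ × ℝ × ℂ) : covE s = (⟨s.1, s.2.1⟩, s.2.2) := rfl

theorem covE_mp : MeasurePreserving covE := by
  have h1 : MeasurePreserving (MeasurableEquiv.prodAssoc (α := ℝ) (β := ℝ) (γ := ℂ)).symm :=
    (volume_preserving_prodAssoc (α₁ := ℝ) (β₁ := ℝ) (γ₁ := ℂ)).symm
  have h2 : MeasurePreserving (MeasurableEquiv.prodCongr measurableEquivRealProd.symm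
      (MeasurableEquiv.refl ℂ)) :=
    volume_preserving_equiv_real_prod.symm.prod (MeasurePreserving.id volume)
  exact h2.comp h1

theorem cov {E : Type*} [NormedAddCommGroup E] [NormedSpace ℝ E] (D : Prof) (g : ℂ × ℂ → E) :
    ∫ p in D.Ω, g p =
      ∫ s in Ioo D.a0 D.b0 ×ˢ Ioo (-Real.pi) Real.pi ×ˢ Metric.ball (0 : ℂ) 1,
        (D.R s.1 ^ 2 * Real.exp (2 * s.1)) •
          g (exp ((s.1 : ℂ) + I * (s.2.1 : ℂ)), D.c s.1 + D.τ s.1 * s.2.2) := by
  have hH : (volume : Measure (ℂ × ℂ)).IsAddHaarMeasure := by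
    rw [Measure.volume_eq_prod]; infer_instance
  rw [← setIntegral_congr_set (cov_ae D),
    integral_image_eq_integral_abs_det_fderiv_smul volume (covS_open D).measurableSet
      (fun x hx => (covF_deriv D hx).hasFDerivWithinAt) (covF_inj D) g]
  rw [← covE_mp.setIntegral_preimage_emb covE.measurableEmbedding]
  have hset : covE ⁻¹' covS D =
      Ioo D.a0 D.b0 ×ˢ Ioo (-Real.pi) Real.pi ×ˢ Metric.ball (0 : ℂ) 1 := by
    ext s
    simp [covE_apply, covS, and_assoc]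
  rw [hset]
  refine setIntegral_congr_fun ?_ ?_
  · exact measurableSet_Ioo.prod (measurableSet_Ioo.prod Metric.isOpen_ball.measurableSet)
  · intro s hs
    have hs' : covE s ∈ covS D := by rw [← hset] at hs; exact hs
    show |(covF' D (covE s)).det| • g (covF D (covE s)) = _
    rw [covF'_det D hs']
    have e : ((s.1 : ℂ) + I * (s.2.1 : ℂ)) = ⟨s.1, s.2.1⟩ := by
      apply Complex.ext <;> simp
    simp only [e]
    rfl

end Pool.Agent.DbarN
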