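import Pool.Agent.DbarN.Basic

set_option autoImplicit false

/-!
# DN: Dirichlet-to-Neumann bounds
-/

namespace Pool.Agent.DbarN

open MeasureTheory Complex Set
open scoped ComplexConjugate ContDiff

/-! ### the one dimensional inequality -/

theorem dn_core {l m : ℝ} (hlm : l ≤ m) (g g' : ℝ → ℂ) (hg : ∀ x, HasDerivAt g (g' x) x)
    (w Γ Γ' W1 W2 : ℝ → ℝ) (hΓc : ContinuousOn Γ (Icc l m))
    (hΓ : ∀ x ∈ Ioo l m, HasDerivWithinAt Γ (Γ' x) (Ioi x) x)
    (hW : ∀ x ∈ Ioo l m, W1 x ≤ W2 x + Γ' x - Γ x ^ 2)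
    (hint : IntegrableOn (fun x => ‖g' x + I * (w x : ℂ) * g x‖ ^ 2 + W2 x * ‖g x‖ ^ 2
      - W1 x * ‖g x‖ ^ 2) (Icc l m)) :
    Γ l * ‖g l‖ ^ 2 - Γ m * ‖g m‖ ^ 2 ≤
      ∫ x in l..m, (‖g' x + I * (w x : ℂ) * g x‖ ^ 2 + W2 x * ‖g x‖ ^ 2 - W1 x * ‖g x‖ ^ 2) := by
  have hgc : Continuous g := continuous_iff_continuousAt.2 fun x => (hg x).continuousAt
  have hn : ∀ x, HasDerivAt (fun x => ‖g x‖ ^ 2) (2 * (conj (g x) * g' x).re) x := by
    intro x
    have h1 : HasDerivAt (fun x => ‖g x‖ ^ 2) (2 * inner ℝ (g x) (g' x)) x := (hg x).norm_sq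
    convert h1 using 2
    rw [Complex.inner, mul_comm]
  have hder : ∀ x ∈ Ioo l m, HasDerivWithinAt (fun x => -(Γ x * ‖g x‖ ^ 2))
      (-(Γ' x * ‖g x‖ ^ 2 + Γ x * (2 * (conj (g x) * g' x).re))) (Ioi x) x := by
    intro x hx
    exact ((hΓ x hx).mul (hn x).hasDerivWithinAt).neg
  have h := intervalIntegral.sub_le_integral_of_hasDeriv_right_of_le hlm
    ((hΓc.mul (hgc.norm.pow 2).continuousOn).neg) hder hint ?_
  · simp only [Pi.neg_apply, Pi.mul_apply, Pi.pow_apply] at h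
    linarith
  · intro x hx
    have h1 := hW x hx
    have h2 : 0 ≤ ‖g' x + I * (w x : ℂ) * g x + (Γ x : ℂ) * g x‖ ^ 2 := by positivity
    have h3 : ‖g' x + I * (w x : ℂ) * g x + (Γ x : ℂ) * g x‖ ^ 2 =
        ‖g' x + I * (w x : ℂ) * g x‖ ^ 2 + Γ x * (2 * (conj (g x) * g' x).re)
          + Γ x ^ 2 * ‖g x‖ ^ 2 := by
      simp only [Complex.sq_norm, Complex.normSq_apply, Complex.add_re, Complex.add_im,
        Complex.mul_re, Complex.mul_im, Complex.I_re, Complex.I_im, Complex.ofReal_re,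
        Complex.ofReal_im, Complex.conj_re, Complex.conj_im]
      ring
    have h4 : 0 ≤ ‖g x‖ ^ 2 := by positivity
    nlinarith [mul_le_mul_of_nonneg_right h1 h4]

/-- the ramp -/
noncomputable def ramp (γ d : ℝ) : ℝ := min (γ + 8 * γ ^ 2 * d) (2 * γ)

theorem ramp_near {γ d : ℝ} (hγ : 0 < γ) (h : d ≤ 1 / (8 * γ)) :
    ramp γ d = γ + 8 * γ ^ 2 * d := by
  unfold ramp
  apply min_eq_left
  have h1 : 8 * γ ^ 2 * d ≤ 8 * γ ^ 2 * (1 / (8 * γ)) := by gcongr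
  have h2 : 8 * γ ^ 2 * (1 / (8 * γ)) = γ := by field_simp
  linarith

theorem ramp_far {γ d : ℝ} (hγ : 0 < γ) (h : 1 / (8 * γ) ≤ d) : ramp γ d = 2 * γ := by
  unfold ramp
  apply min_eq_right
  have h1 : 8 * γ ^ 2 * (1 / (8 * γ)) ≤ 8 * γ ^ 2 * d := by gcongr
  have h2 : 8 * γ ^ 2 * (1 / (8 * γ)) = γ := by field_simp
  linarith

theorem ramp_sq {γ d : ℝ} (hγ : 0 < γ) (hd : 0 ≤ d) : ramp γ d ^ 2 ≤ 4 * γ ^ 2 := by
  have h1 : ramp γ d ≤ 2 * γ := min_le_right _ _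
  have h2 : 0 ≤ ramp γ d := le_min (by positivity) (by positivity)
  nlinarith

theorem ramp_cont (γ : ℝ) : Continuous (ramp γ) := by
  unfold ramp
  fun_prop

/-- right ramp -/
theorem ramp_derivR {γ : ℝ} (hγ : 0 < γ) (b x : ℝ) :
    HasDerivWithinAt (fun x => ramp γ (x - b))
      (if x - b < 1 / (8 * γ) then 8 * γ ^ 2 else 0) (Ioi x) x := by
  split_ifs with h
  · have h1 : HasDerivAt (fun x => γ + 8 * γ ^ 2 * (x - b)) (8 * γ ^ 2) x := by
      simpa using (((hasDerivAt_id x).sub_const b).const_mul (8 * γ ^ 2)).const_add γ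
    apply (h1.congr_of_eventuallyEq ?_).hasDerivWithinAt
    have h2 : ∀ᶠ y in nhds x, y < b + 1 / (8 * γ) := eventually_lt_nhds (by linarith)
    filter_upwards [h2] with y hy
    exact ramp_near hγ (by linarith)
  · have h1 : HasDerivWithinAt (fun _ : ℝ => 2 * γ) 0 (Ioi x) x := hasDerivWithinAt_const _ _ _
    apply h1.congr
    · intro y hy
      exact ramp_far hγ (by have : x < y := hy; linarith)
    · exact ramp_far hγ (by linarith)

/-- left ramp -/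
theorem ramp_derivL {γ : ℝ} (hγ : 0 < γ) (a x : ℝ) :
    HasDerivWithinAt (fun x => -ramp γ (a - x))
      (if a - x ≤ 1 / (8 * γ) then 8 * γ ^ 2 else 0) (Ioi x) x := by
  split_ifs with h
  · have h1 : HasDerivAt (fun x => -(γ + 8 * γ ^ 2 * (a - x))) (8 * γ ^ 2) x := by
      have := ((((hasDerivAt_id x).const_sub a).const_mul (8 * γ ^ 2)).const_add γ).neg
      refine this.congr_deriv ?_
      ring
    apply h1.hasDerivWithinAt.congr
    · intro y hy
      have : x < y := hy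
      rw [ramp_near hγ (by linarith)]
    · rw [ramp_near hγ h]
  · have h1 : HasDerivAt (fun _ : ℝ => -(2 * γ)) 0 x := hasDerivAt_const _ _
    apply (h1.congr_of_eventuallyEq ?_).hasDerivWithinAt
    have h2 : ∀ᶠ y in nhds x, y < a - 1 / (8 * γ) := eventually_lt_nhds (by linarith)
    filter_upwards [h2] with y hy
    rw [ramp_far hγ (by linarith)]

/-! ### the one dimensional inequalities for the profile -/

section

variable (D : Prof)

theorem dn_gam_pos (p : ℝ) : 0 < gam D.T D.A D.B p := by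
  unfold gam
  have := D.hA
  have := D.hB0
  positivity

theorem dn_gam_ge (p : ℝ) : D.B ≤ gam D.T D.A D.B p := by
  unfold gam
  have := D.hA
  have : 0 ≤ D.A * tt D.T p ^ 2 := by positivity
  linarith

theorem dn_tt_ge {p : ℝ} (hp : 0 < p) : 1 ≤ tt D.T p := by
  unfold tt
  have h1 := D.hT
  have h2 : 0 ≤ Real.log (1 + 1 / p) := Real.log_nonneg (by
    have : 0 < 1 / p := by positivity
    linarith)
  linarith

theorem dn_W1 {p x : ℝ} (hp : 0 < p) (hx : x ≤ D.b + 1) :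
    Real.exp (2 * x) + D.cw / tt D.T p ^ 2 ≤ 4 * gam D.T D.A D.B p ^ 2 := by
  have h1 := dn_gam_ge D p
  have h2 := D.hB
  have h3 := D.hB0
  have h4 := dn_tt_ge D hp
  have h5 : Real.exp (2 * x) ≤ Real.exp (2 * (D.b + 1)) := Real.exp_le_exp.2 (by linarith)
  have h6 : D.cw / tt D.T p ^ 2 ≤ D.cw := by
    apply div_le_self D.hcw.le
    nlinarith
  nlinarith

/-- the weights -/
noncomputable def W1 (p x : ℝ) : ℝ := Real.exp (2 * x) + D.cw / tt D.T p ^ 2

noncomputable def W2 (p x : ℝ) : ℝ := deriv D.μ x / 32 * (4 * p + 1 / p)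

theorem dn_W2_nonneg {p x : ℝ} (hp : 0 < p) (hx : x ∈ Ioo D.a0 D.b0) : 0 ≤ W2 D p x := by
  unfold W2
  have h1 := D.μ_sq_le hx
  have h2 : 0 ≤ deriv D.μ x := by nlinarith [sq_nonneg (D.μ x)]
  positivity

theorem dn_right1 {p : ℝ} (hp : 0 < p) (g g' : ℝ → ℂ) (hg : ∀ x, HasDerivAt g (g' x) x)
    (hz : g D.b0 = 0)
    (hint : IntegrableOn (fun x => ‖g' x + I * ((D.σ x * p : ℝ) : ℂ) * g x‖ ^ 2
      + W2 D p x * ‖g x‖ ^ 2 - W1 D p x * ‖g x‖ ^ 2) (Icc D.b D.b0)) :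
    gam D.T D.A D.B p * ‖g D.b‖ ^ 2 ≤
      ∫ x in D.b..D.b0, (‖g' x + I * ((D.σ x * p : ℝ) : ℂ) * g x‖ ^ 2 + W2 D p x * ‖g x‖ ^ 2
        - W1 D p x * ‖g x‖ ^ 2) := by
  have hγ := dn_gam_pos D p
  have h := dn_core D.hb0.le g g' hg (fun x => D.σ x * p)
    (fun x => ramp (gam D.T D.A D.B p) (x - D.b)) _ (W1 D p) (W2 D p)
    ((ramp_cont _).comp (continuous_id.sub continuous_const)).continuousOn
    (fun x _ => ramp_derivR hγ D.b x) ?_ hint
  · simp only [sub_self] at h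
    rw [ramp_near hγ (by positivity), hz] at h
    simpa using h
  · intro x hx
    have hx' : x ∈ Ioo D.a0 D.b0 := ⟨by linarith [D.ha0, D.hab, hx.1], hx.2⟩
    have h1 := ramp_sq hγ (d := x - D.b) (by linarith [hx.1])
    have h2 := dn_W2_nonneg D hp hx'
    split_ifs with hcase
    · have h3 := dn_W1 D hp (x := x) (by linarith [hx.2, D.hb1])
      unfold W1
      linarith
    · rw [ramp_far hγ (by linarith)]
      have h3 := D.wallb p hp x hx (by
        have : 1 / (8 * gam D.T D.A D.B p) ≤ x - D.b := by linarith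
        rw [div_le_iff₀ (by positivity)] at this
        linarith)
      unfold W1 W2
      unfold Prof.μ
      linarith

theorem dn_left1 {p : ℝ} (hp : 0 < p) (g g' : ℝ → ℂ) (hg : ∀ x, HasDerivAt g (g' x) x)
    (hz : g D.a0 = 0)
    (hint : IntegrableOn (fun x => ‖g' x + I * ((D.σ x * p : ℝ) : ℂ) * g x‖ ^ 2
      + W2 D p x * ‖g x‖ ^ 2 - W1 D p x * ‖g x‖ ^ 2) (Icc D.a0 D.a)) :
    gam D.T D.A D.B p * ‖g D.a‖ ^ 2 ≤
      ∫ x in D.a0..D.a, (‖g' x + I * ((D.σ x * p : ℝ) : ℂ) * g x‖ ^ 2 + W2 D p x * ‖g x‖ ^ 2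
        - W1 D p x * ‖g x‖ ^ 2) := by
  have hγ := dn_gam_pos D p
  have h := dn_core D.ha0.le g g' hg (fun x => D.σ x * p)
    (fun x => -ramp (gam D.T D.A D.B p) (D.a - x)) _ (W1 D p) (W2 D p)
    ((ramp_cont _).comp (continuous_const.sub continuous_id)).neg.continuousOn
    (fun x _ => ramp_derivL hγ D.a x) ?_ hint
  · simp only [sub_self] at h
    rw [ramp_near hγ (show (0 : ℝ) ≤ _ by positivity), hz] at h
    simpa using h
  · intro x hx
    have hx' : x ∈ Ioo D.a0 D.b0 := ⟨hx.1, by linarith [D.hb0, D.hab, hx.2]⟩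
    have h1 := ramp_sq hγ (d := D.a - x) (by linarith [hx.2])
    have h2 := dn_W2_nonneg D hp hx'
    rw [neg_sq]
    split_ifs with hcase
    · have h3 := dn_W1 D hp (x := x) (by linarith [hx.2, D.hab])
      unfold W1
      linarith
    · rw [ramp_far hγ (by linarith)]
      have h3 := D.walla p hp x hx (by
        have : 1 / (8 * gam D.T D.A D.B p) ≤ D.a - x := by linarith
        rw [div_le_iff₀ (by positivity)] at this
        linarith)
      unfold W1 W2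
      unfold Prof.μ
      linarith

end

/-! ### Fubini -/

theorem dn_fubini {l m : ℝ} (hlm : l ≤ m) (F : ℝ × ℝ × ℝ → ℝ) (hF : IntegrableOn F (S3 l m))
    (E : ℝ × ℝ → ℝ) (hE : IntegrableOn E S2)
    (h : ∀ q ∈ S2, IntegrableOn (fun x => F (x, q)) (Icc l m) → E q ≤ ∫ x in l..m, F (x, q)) :
    ∫ q in S2, E q ≤ ∫ s in S3 l m, F s := by
  have hS2 : MeasurableSet S2 := measurableSet_Ioo.prod measurableSet_Ioi
  have e1 : (volume : Measure (ℝ × ℝ × ℝ)).restrict (S3 l m) =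
      ((volume : Measure ℝ).restrict (Ioo l m)).prod ((volume : Measure (ℝ × ℝ)).restrict S2) := by
    rw [Measure.prod_restrict]; rfl
  unfold IntegrableOn at hF
  rw [e1] at hF ⊢
  rw [integral_prod_symm _ hF]
  apply integral_mono_ae hE hF.integral_prod_right
  have h1 := hF.prod_left_ae
  have h2 : ∀ᵐ q ∂((volume : Measure (ℝ × ℝ)).restrict S2), q ∈ S2 := ae_restrict_mem hS2
  filter_upwards [h1, h2] with q hq hqS
  have h3 : IntegrableOn (fun x => F (x, q)) (Icc l m) := by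
    rw [integrableOn_Icc_iff_integrableOn_Ioo]; exact hq
  have h4 := h q hqS h3
  rw [intervalIntegral.integral_of_le hlm, integral_Ioc_eq_integral_Ioo] at h4
  exact h4

/-! ### domination -/

/-- dominating function -/
noncomputable def dnH (p : ℝ) : ℝ := (1 + p) ^ 3 * Real.exp (-p)

theorem dnH_int : IntegrableOn dnH (Ioi 0) := by
  have h1 : IntegrableOn (fun p : ℝ => 48 * Real.exp (1 / 2) * Real.exp (-(1 / 2) * p)) (Ioi 0) :=
    (integrableOn_exp_mul_Ioi (by norm_num) 0).const_mul _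
  refine Integrable.mono' h1 ?_ ?_
  · unfold dnH
    exact (Continuous.aestronglyMeasurable (by fun_prop))
  · filter_upwards [ae_restrict_mem measurableSet_Ioi] with p hp
    have hp' : 0 < p := hp
    unfold dnH
    rw [Real.norm_eq_abs, abs_of_nonneg (by positivity)]
    have h2 := Real.pow_div_factorial_le_exp (x := (1 + p) / 2) (by positivity) 3
    have h3 : Real.exp ((1 + p) / 2) = Real.exp (1 / 2) * Real.exp (p / 2) := by
      rw [← Real.exp_add]; congr 1; ring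
    have h4 : Real.exp (p / 2) * Real.exp (-p) = Real.exp (-(1 / 2) * p) := by
      rw [← Real.exp_add]; congr 1; ring
    have h5 : (1 + p) ^ 3 ≤ 48 * Real.exp ((1 + p) / 2) := by
      norm_num [Nat.factorial] at h2
      nlinarith
    calc (1 + p) ^ 3 * Real.exp (-p) ≤ 48 * Real.exp ((1 + p) / 2) * Real.exp (-p) := by gcongr
      _ = 48 * Real.exp (1 / 2) * Real.exp (-(1 / 2) * p) := by rw [h3, ← h4]; ring

theorem dn_int2 (F : ℝ × ℝ → ℝ) (hm : Measurable F) (C : ℝ)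
    (hF : ∀ q ∈ S2, |F q| ≤ C * dnH q.2) : IntegrableOn F S2 := by
  have hS2 : MeasurableSet S2 := measurableSet_Ioo.prod measurableSet_Ioi
  have e1 : (volume : Measure (ℝ × ℝ)).restrict S2 =
      ((volume : Measure ℝ).restrict (Ioo (-Real.pi) Real.pi)).prod
        ((volume : Measure ℝ).restrict (Ioi 0)) := by
    rw [Measure.prod_restrict]; rfl
  have h1 : IntegrableOn (fun q : ℝ × ℝ => C * dnH q.2) S2 := by
    unfold IntegrableOn
    rw [e1]
    exact (dnH_int.const_mul C).comp_snd _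
  refine Integrable.mono' h1 hm.aestronglyMeasurable ?_
  filter_upwards [ae_restrict_mem hS2] with q hq
  exact hF q hq

theorem dn_int3 {l m : ℝ} (F : ℝ × ℝ × ℝ → ℝ) (hm : Measurable F) (C : ℝ)
    (hF : ∀ s ∈ S3 l m, |F s| ≤ C * dnH s.2.2) : IntegrableOn F (S3 l m) := by
  have hS2 : MeasurableSet S2 := measurableSet_Ioo.prod measurableSet_Ioi
  have hS3 : MeasurableSet (S3 l m) := measurableSet_Ioo.prod hS2
  have e1 : (volume : Measure (ℝ × ℝ × ℝ)).restrict (S3 l m) =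
      ((volume : Measure ℝ).restrict (Ioo l m)).prod ((volume : Measure (ℝ × ℝ)).restrict S2) := by
    rw [Measure.prod_restrict]; rfl
  have e2 : (volume : Measure (ℝ × ℝ)).restrict S2 =
      ((volume : Measure ℝ).restrict (Ioo (-Real.pi) Real.pi)).prod
        ((volume : Measure ℝ).restrict (Ioi 0)) := by
    rw [Measure.prod_restrict]; rfl
  have h1 : IntegrableOn (fun s : ℝ × ℝ × ℝ => C * dnH s.2.2) (S3 l m) := by
    unfold IntegrableOn
    rw [e1, e2]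
    exact ((dnH_int.const_mul C).comp_snd _).comp_snd _
  refine Integrable.mono' h1 hm.aestronglyMeasurable ?_
  filter_upwards [ae_restrict_mem hS3] with s hs
  exact hF s hs

theorem gk_bound (k : ℕ) : ∃ C, 0 ≤ C ∧ ∀ p, 0 < p → |gk k p| ≤ C * (p * Real.exp (-(p / 2))) := by
  refine ⟨Real.sqrt Real.pi * 2 ^ (k + 1) * (k.factorial * 2 ^ k), by positivity, ?_⟩
  intro p hp
  unfold gk
  rw [abs_of_nonneg (by positivity)]
  have h2 := Real.pow_div_factorial_le_exp (x := p / 2) (by positivity) k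
  have hk : (0 : ℝ) < k.factorial := by positivity
  rw [div_pow, div_div, div_le_iff₀ (by positivity)] at h2
  have h4 : Real.exp (p / 2) * Real.exp (-p) = Real.exp (-(p / 2)) := by
    rw [← Real.exp_add]; congr 1; ring
  have h5 : (1 : ℝ) ≤ (k + 1).factorial := by exact_mod_cast (k + 1).factorial_pos
  calc Real.sqrt Real.pi * 2 ^ (k + 1) * p ^ (k + 1) * Real.exp (-p) / (k + 1).factorial
      ≤ Real.sqrt Real.pi * 2 ^ (k + 1) * p ^ (k + 1) * Real.exp (-p) :=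
        div_le_self (by positivity) h5
    _ = Real.sqrt Real.pi * 2 ^ (k + 1) * p * Real.exp (-p) * p ^ k := by ring
    _ ≤ Real.sqrt Real.pi * 2 ^ (k + 1) * p * Real.exp (-p) *
        (Real.exp (p / 2) * (2 ^ k * k.factorial)) := by gcongr
    _ = _ := by rw [← h4]; ring

/-- partial derivative in `x` -/
theorem dn_hasDerivAt_A {A : ℕ → ℝ → ℝ → ℂ} (hA : AC A) (k : ℕ) (x φ : ℝ) :
    HasDerivAt (fun x => A k x φ) (fderiv ℝ (fun q : ℝ × ℝ => A k q.1 q.2) (x, φ) (1, 0)) x := by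
  have h1 : HasFDerivAt (fun q : ℝ × ℝ => A k q.1 q.2)
      (fderiv ℝ (fun q : ℝ × ℝ => A k q.1 q.2) (x, φ)) (x, φ) :=
    ((hA.smooth k).differentiable (by simp) (x, φ)).hasFDerivAt
  have h2 : HasDerivAt (fun x : ℝ => (x, φ)) ((1 : ℝ), (0 : ℝ)) x :=
    (hasDerivAt_id x).prodMk (hasDerivAt_const x φ)
  exact h1.comp_hasDerivAt x h2

theorem dn_cont_dA {A : ℕ → ℝ → ℝ → ℂ} (hA : AC A) (k : ℕ) :
    Continuous (fun q : ℝ × ℝ => deriv (fun x => A k x q.2) q.1) := by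
  have h1 : (fun q : ℝ × ℝ => deriv (fun x => A k x q.2) q.1) =
      fun q => fderiv ℝ (fun q : ℝ × ℝ => A k q.1 q.2) q (1, 0) := by
    funext q
    exact (dn_hasDerivAt_A hA k q.1 q.2).deriv
  rw [h1]
  exact ((hA.smooth k).continuous_fderiv (by simp)).clm_apply continuous_const

theorem dn_gk_cont (k : ℕ) : Continuous (gk k) := by
  unfold gk
  fun_prop

theorem dn_U_cont {A : ℕ → ℝ → ℝ → ℂ} (hA : AC A) (N : ℕ) : Continuous (U N A) := by
  unfold U
  apply continuous_finsetSum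
  intro k _
  apply Continuous.mul
  · exact ((hA.smooth k).continuous).comp (continuous_fst.prodMk (continuous_fst.comp continuous_snd))
  · exact Complex.continuous_ofReal.comp ((dn_gk_cont k).comp (continuous_snd.comp continuous_snd))

theorem dn_Ux_cont {A : ℕ → ℝ → ℝ → ℂ} (hA : AC A) (N : ℕ) : Continuous (Ux N A) := by
  unfold Ux
  apply continuous_finsetSum
  intro k _
  apply Continuous.mul
  · exact (dn_cont_dA hA k).comp (continuous_fst.prodMk (continuous_fst.comp continuous_snd))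
  · exact Complex.continuous_ofReal.comp ((dn_gk_cont k).comp (continuous_snd.comp continuous_snd))

theorem dn_hasDerivAt_U {A : ℕ → ℝ → ℝ → ℂ} (hA : AC A) (N : ℕ) (q : ℝ × ℝ) (x : ℝ) :
    HasDerivAt (fun x => U N A (x, q)) (Ux N A (x, q)) x := by
  unfold U Ux
  apply HasDerivAt.fun_sum
  intro k _
  have := dn_hasDerivAt_A hA k x q.1
  rw [← this.deriv] at this
  exact this.mul_const ((gk k q.2 : ℝ) : ℂ)

/-- bound of a finite sum of continuous coefficients times `g_k` -/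
theorem dn_sum_bound (l m : ℝ) (N : ℕ) (f : ℕ → ℝ × ℝ → ℂ) (hf : ∀ k, Continuous (f k)) :
    ∃ K, 0 ≤ K ∧ ∀ x ∈ Icc l m, ∀ φ ∈ Icc (-Real.pi) Real.pi, ∀ p, 0 < p →
      ‖∑ k ∈ Finset.range N, f k (x, φ) * (gk k p : ℂ)‖ ≤ K * (p * Real.exp (-(p / 2))) := by
  induction N with
  | zero => exact ⟨0, le_rfl, by intros; simp⟩
  | succ N ih =>
    obtain ⟨K, hK, hK'⟩ := ih
    obtain ⟨C, hC, hC'⟩ := gk_bound N
    obtain ⟨M, hM⟩ := (isCompact_Icc (a := l) (b := m) |>.prod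
      (isCompact_Icc (a := -Real.pi) (b := Real.pi))).exists_bound_of_continuousOn
      (hf N).continuousOn
    refine ⟨K + |M| * C, by positivity, ?_⟩
    intro x hx φ hφ p hp
    rw [Finset.sum_range_succ]
    have h1 := hK' x hx φ hφ p hp
    have h2 := hM (x, φ) ⟨hx, hφ⟩
    have h3 := hC' p hp
    have h4 : ‖f N (x, φ) * (gk N p : ℂ)‖ ≤ |M| * (C * (p * Real.exp (-(p / 2)))) := by
      rw [norm_mul, Complex.norm_real, Real.norm_eq_abs]
      have := le_abs_self M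
      gcongr
      linarith
    calc _ ≤ ‖∑ k ∈ Finset.range N, f k (x, φ) * (gk k p : ℂ)‖ + ‖f N (x, φ) * (gk N p : ℂ)‖ :=
          norm_add_le _ _
      _ ≤ K * (p * Real.exp (-(p / 2))) + |M| * (C * (p * Real.exp (-(p / 2)))) :=
          add_le_add h1 h4
      _ = _ := by ring

theorem dn_U_bound {A : ℕ → ℝ → ℝ → ℂ} (hA : AC A) (N : ℕ) (l m : ℝ) :
    ∃ K, 0 ≤ K ∧ ∀ x ∈ Icc l m, ∀ φ ∈ Icc (-Real.pi) Real.pi, ∀ p, 0 < p →
      ‖U N A (x, φ, p)‖ ≤ K * (p * Real.exp (-(p / 2))) ∧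
      ‖Ux N A (x, φ, p)‖ ≤ K * (p * Real.exp (-(p / 2))) := by
  obtain ⟨K1, h1, h1'⟩ := dn_sum_bound l m N (fun k q => A k q.1 q.2)
    (fun k => (hA.smooth k).continuous)
  obtain ⟨K2, h2, h2'⟩ := dn_sum_bound l m N (fun k q => deriv (fun x => A k x q.2) q.1)
    (fun k => dn_cont_dA hA k)
  refine ⟨K1 + K2, by positivity, ?_⟩
  intro x hx φ hφ p hp
  have e : 0 ≤ p * Real.exp (-(p / 2)) := by positivity
  refine ⟨(h1' x hx φ hφ p hp).trans ?_, (h2' x hx φ hφ p hp).trans ?_⟩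
  · nlinarith
  · nlinarith

theorem dn_exp_sq (p : ℝ) : (p * Real.exp (-(p / 2))) ^ 2 = p ^ 2 * Real.exp (-p) := by
  rw [mul_pow, ← Real.exp_nat_mul]
  congr 2
  push_cast
  ring

theorem dn_log_sq {p : ℝ} (hp : 0 < p) : Real.log (1 + 1 / p) ^ 2 ≤ 4 * (1 + 1 / p) := by
  have h0 : 0 < 1 + 1 / p := by positivity
  have h1 : (1 : ℝ) ≤ 1 + 1 / p := by
    have : 0 < 1 / p := by positivity
    linarith
  have h2 : Real.log (1 + 1 / p) = 2 * Real.log (Real.sqrt (1 + 1 / p)) := by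
    rw [Real.log_sqrt h0.le]; ring
  have h3 : Real.log (Real.sqrt (1 + 1 / p)) ≤ Real.sqrt (1 + 1 / p) - 1 :=
    Real.log_le_sub_one_of_pos (Real.sqrt_pos.2 h0)
  have h4 : 0 ≤ Real.log (1 + 1 / p) := Real.log_nonneg h1
  have h5 := Real.sq_sqrt h0.le
  have h6 := Real.sqrt_nonneg (1 + 1 / p)
  nlinarith

/-! ### the integrands -/

section

variable (D : Prof) (N : ℕ) (A : ℕ → ℝ → ℝ → ℂ)

noncomputable def dnF1 (s : ℝ × ℝ × ℝ) : ℝ :=
  (Real.exp (2 * s.1) + D.cw / tt D.T s.2.2 ^ 2) * ‖U N A s‖ ^ 2 / s.2.2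

noncomputable def dnF2 (s : ℝ × ℝ × ℝ) : ℝ :=
  ‖nab D N A s‖ ^ 2 / s.2.2 +
      (deriv D.μ s.1 / 32) * (4 * s.2.2 + 1 / s.2.2) * ‖U N A s‖ ^ 2 / s.2.2

noncomputable def dnE (c : ℝ) (q : ℝ × ℝ) : ℝ :=
  gam D.T D.A D.B q.2 * ‖U N A (c, q)‖ ^ 2 / q.2

variable {A}

theorem dnF1_int (hA : AC A) (l m : ℝ) : IntegrableOn (dnF1 D N A) (S3 l m) := by
  obtain ⟨K, hK, hK'⟩ := dn_U_bound hA N l m
  have hcw := D.hcw
  apply dn_int3 _ _ ((Real.exp (2 * m) + D.cw) * K ^ 2)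
  · rintro ⟨x, φ, p⟩ ⟨hx, hφ, hp⟩
    simp only at hx hφ hp
    have hp' : 0 < p := hp
    obtain ⟨h1, -⟩ := hK' x ⟨hx.1.le, hx.2.le⟩ φ ⟨hφ.1.le, hφ.2.le⟩ p hp'
    have h2 := dn_tt_ge D hp'
    have h3 : Real.exp (2 * x) ≤ Real.exp (2 * m) := Real.exp_le_exp.2 (by linarith [hx.2])
    have h4 : D.cw / tt D.T p ^ 2 ≤ D.cw := div_le_self D.hcw.le (by nlinarith)
    have h5 : ‖U N A (x, φ, p)‖ ^ 2 ≤ K ^ 2 * (p ^ 2 * Real.exp (-p)) := by
      rw [← dn_exp_sq, ← mul_pow]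
      gcongr
    unfold dnF1 dnH
    simp only
    rw [abs_of_nonneg (by positivity), div_le_iff₀ hp']
    calc (Real.exp (2 * x) + D.cw / tt D.T p ^ 2) * ‖U N A (x, φ, p)‖ ^ 2
        ≤ (Real.exp (2 * m) + D.cw) * (K ^ 2 * (p ^ 2 * Real.exp (-p))) := by gcongr
      _ = (Real.exp (2 * m) + D.cw) * K ^ 2 * (p * Real.exp (-p)) * p := by ring
      _ ≤ (Real.exp (2 * m) + D.cw) * K ^ 2 * ((1 + p) ^ 3 * Real.exp (-p)) * p := by
        gcongr
        nlinarith [pow_pos hp' 2, pow_pos hp' 3]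
  · have hU := (dn_U_cont hA N).measurable
    unfold dnF1 tt
    fun_prop

theorem dnE_int (hA : AC A) (c : ℝ) : IntegrableOn (dnE D N A c) S2 := by
  obtain ⟨K, hK, hK'⟩ := dn_U_bound hA N c c
  have hA0 := D.hA
  have hB0 := D.hB0
  apply dn_int2 _ _ (((D.A * (2 * D.T ^ 2 + 8) + D.B) + 8 * D.A) * K ^ 2)
  · rintro ⟨φ, p⟩ ⟨hφ, hp⟩
    simp only at hφ hp
    have hp' : 0 < p := hp
    obtain ⟨h1, -⟩ := hK' c ⟨le_rfl, le_rfl⟩ φ ⟨hφ.1.le, hφ.2.le⟩ p hp'
    have h5 : ‖U N A (c, φ, p)‖ ^ 2 ≤ K ^ 2 * (p ^ 2 * Real.exp (-p)) := by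
      rw [← dn_exp_sq, ← mul_pow]
      gcongr
    have h6 := dn_log_sq hp'
    have h7 : tt D.T p ^ 2 ≤ 2 * D.T ^ 2 + 8 + 8 / p := by
      unfold tt
      have : 8 / p = 8 * (1 / p) := by ring
      rw [this]
      nlinarith [sq_nonneg (D.T - Real.log (1 + 1 / p))]
    have h8 : gam D.T D.A D.B p ≤ (D.A * (2 * D.T ^ 2 + 8) + D.B) + 8 * D.A / p := by
      unfold gam
      have := mul_le_mul_of_nonneg_left h7 hA0.le
      have e : D.A * (2 * D.T ^ 2 + 8 + 8 / p) = D.A * (2 * D.T ^ 2 + 8) + 8 * D.A / p := by ring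
      linarith
    have h9 := (dn_gam_pos D p).le
    unfold dnE dnH
    simp only
    rw [abs_of_nonneg (by positivity), div_le_iff₀ hp']
    calc gam D.T D.A D.B p * ‖U N A (c, φ, p)‖ ^ 2
        ≤ ((D.A * (2 * D.T ^ 2 + 8) + D.B) + 8 * D.A / p) * (K ^ 2 * (p ^ 2 * Real.exp (-p))) := by
          gcongr
      _ = K ^ 2 * ((D.A * (2 * D.T ^ 2 + 8) + D.B) * p + 8 * D.A) * Real.exp (-p) * p := by
          field_simp
      _ ≤ K ^ 2 * (((D.A * (2 * D.T ^ 2 + 8) + D.B) + 8 * D.A) * (1 + p) ^ 3) *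
            Real.exp (-p) * p := by
          gcongr
          have e1 : p ≤ (1 + p) ^ 3 := by nlinarith [pow_pos hp' 2, pow_pos hp' 3]
          have e2 : 1 ≤ (1 + p) ^ 3 := by nlinarith [pow_pos hp' 2, pow_pos hp' 3]
          have e3 : 0 ≤ D.A * (2 * D.T ^ 2 + 8) + D.B := by positivity
          nlinarith [mul_le_mul_of_nonneg_left e1 e3, mul_le_mul_of_nonneg_left e2 hA0.le]
      _ = _ := by ring
  · have hU := (dn_U_cont hA N).measurable
    unfold dnE gam tt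
    fun_prop

theorem dnF2_int (hA : AC A) (l m l' m' : ℝ) (hl' : D.a0 < l')
    (hm' : m' < D.b0)
    (hz : ∀ k x φ, x ∈ Ioo l m → x ∉ Icc l' m' → A k x φ = 0) :
    IntegrableOn (dnF2 D N A) (S3 l m) := by
  obtain ⟨K, hK, hK'⟩ := dn_U_bound hA N l m
  have hcont : ContinuousOn (deriv D.μ) (Icc l' m') := by
    have := D.contDiffOn_μ.continuousOn_deriv_of_isOpen isOpen_Ioo (by simp)
    exact this.mono fun x hx => ⟨by linarith [hx.1], by linarith [hx.2]⟩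
  obtain ⟨Cμ, hCμ⟩ := isCompact_Icc.exists_bound_of_continuousOn hcont
  apply dn_int3 _ _ ((1 + |Cμ|) * K ^ 2)
  · rintro ⟨x, φ, p⟩ ⟨hx, hφ, hp⟩
    simp only at hx hφ hp
    have hp' : 0 < p := hp
    obtain ⟨h1, h2⟩ := hK' x ⟨hx.1.le, hx.2.le⟩ φ ⟨hφ.1.le, hφ.2.le⟩ p hp'
    have h5 : ‖U N A (x, φ, p)‖ ^ 2 ≤ K ^ 2 * (p ^ 2 * Real.exp (-p)) := by
      rw [← dn_exp_sq, ← mul_pow]
      gcongr
    have h6 : ‖nab D N A (x, φ, p)‖ ≤ (1 + p) * (K * (p * Real.exp (-(p / 2)))) := by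
      unfold nab
      have e1 := D.σ0 x
      have e2 := D.σ1 x
      calc _ ≤ ‖Ux N A (x, φ, p)‖ + ‖I * (D.σ x : ℂ) * (p : ℂ) * U N A (x, φ, p)‖ := norm_add_le _ _
        _ = ‖Ux N A (x, φ, p)‖ + D.σ x * p * ‖U N A (x, φ, p)‖ := by
            rw [norm_mul, norm_mul, norm_mul, Complex.norm_I, Complex.norm_real, Complex.norm_real,
              Real.norm_of_nonneg e1, Real.norm_of_nonneg hp'.le, one_mul]
        _ ≤ K * (p * Real.exp (-(p / 2))) + 1 * p * (K * (p * Real.exp (-(p / 2)))) := by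
            gcongr
        _ = _ := by ring
    have h7 : ‖nab D N A (x, φ, p)‖ ^ 2 ≤ (1 + p) ^ 2 * (K ^ 2 * (p ^ 2 * Real.exp (-p))) := by
      rw [← dn_exp_sq, ← mul_pow, ← mul_pow]
      gcongr
    have h8 : |deriv D.μ x / 32 * (4 * p + 1 / p) * ‖U N A (x, φ, p)‖ ^ 2| ≤
        |Cμ| * (K ^ 2 * ((4 * p ^ 2 + 1) * p * Real.exp (-p))) := by
      by_cases hxx : x ∈ Icc l' m'
      · have e1 := hCμ x hxx
        rw [Real.norm_eq_abs] at e1
        have e2 : |deriv D.μ x / 32| ≤ |Cμ| := by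
          rw [abs_div, abs_of_pos (by norm_num : (0 : ℝ) < 32)]
          have := le_abs_self Cμ
          have := abs_nonneg Cμ
          rw [div_le_iff₀ (by norm_num)]
          linarith
        rw [abs_mul, abs_mul, abs_of_nonneg (by positivity : 0 ≤ 4 * p + 1 / p),
          abs_of_nonneg (by positivity : 0 ≤ ‖U N A (x, φ, p)‖ ^ 2)]
        calc |deriv D.μ x / 32| * (4 * p + 1 / p) * ‖U N A (x, φ, p)‖ ^ 2
            ≤ |Cμ| * (4 * p + 1 / p) * (K ^ 2 * (p ^ 2 * Real.exp (-p))) := by gcongr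
          _ = _ := by field_simp
      · have e1 : U N A (x, φ, p) = 0 := by
          unfold U
          apply Finset.sum_eq_zero
          intro k _
          simp only [hz k x φ hx hxx, zero_mul]
        rw [e1]
        simp only [norm_zero]
        have : (0 : ℝ) ^ 2 = 0 := by norm_num
        rw [this, mul_zero, abs_zero]
        positivity
    unfold dnF2 dnH
    simp only
    rw [← add_div, abs_div, abs_of_pos hp', div_le_iff₀ hp']
    calc |‖nab D N A (x, φ, p)‖ ^ 2 + deriv D.μ x / 32 * (4 * p + 1 / p) * ‖U N A (x, φ, p)‖ ^ 2|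
        ≤ |‖nab D N A (x, φ, p)‖ ^ 2| +
          |deriv D.μ x / 32 * (4 * p + 1 / p) * ‖U N A (x, φ, p)‖ ^ 2| := abs_add_le _ _
      _ ≤ (1 + p) ^ 2 * (K ^ 2 * (p ^ 2 * Real.exp (-p))) +
          |Cμ| * (K ^ 2 * ((4 * p ^ 2 + 1) * p * Real.exp (-p))) := by
          rw [abs_of_nonneg (by positivity : 0 ≤ ‖nab D N A (x, φ, p)‖ ^ 2)]
          exact add_le_add h7 h8
      _ = K ^ 2 * Real.exp (-p) * p * ((1 + p) ^ 2 * p + |Cμ| * (4 * p ^ 2 + 1)) := by ring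
      _ ≤ K ^ 2 * Real.exp (-p) * p * ((1 + p) ^ 3 + |Cμ| * (1 + p) ^ 3) := by
          have e1 : (1 + p) ^ 2 * p ≤ (1 + p) ^ 3 := by nlinarith [pow_pos hp' 2, pow_pos hp' 3]
          have e2 : 4 * p ^ 2 + 1 ≤ (1 + p) ^ 3 := by
            nlinarith [mul_nonneg hp'.le (sq_nonneg (p - 1 / 2)), hp']
          gcongr
      _ = _ := by ring
  · have hU := (dn_U_cont hA N).measurable
    have hUx := (dn_Ux_cont hA N).measurable
    have hσ := D.σsm.continuous.measurable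
    have hμ := measurable_deriv D.μ
    unfold dnF2 nab
    fun_prop

/-- comparison of the integrands on a fibre -/
theorem dn_fib (q : ℝ × ℝ) (hq : 0 < q.2) (x : ℝ) : dnF2 D N A (x, q) - dnF1 D N A (x, q) =
    (‖Ux N A (x, q) + I * ((D.σ x * q.2 : ℝ) : ℂ) * U N A (x, q)‖ ^ 2
      + W2 D q.2 x * ‖U N A (x, q)‖ ^ 2 - W1 D q.2 x * ‖U N A (x, q)‖ ^ 2) / q.2 := by
  unfold dnF1 dnF2 nab W1 W2
  simp only
  push_cast
  have : I * (D.σ x : ℂ) * (q.2 : ℂ) = I * ((D.σ x : ℂ) * (q.2 : ℂ)) := by ring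
  rw [this]
  ring

theorem dn_glue (hA : AC A) {l m c : ℝ} (hlm : l ≤ m) (h1 : IntegrableOn (dnF1 D N A) (S3 l m))
    (h2 : IntegrableOn (dnF2 D N A) (S3 l m))
    (hmain : ∀ q ∈ S2, IntegrableOn (fun x => ‖Ux N A (x, q) + I * ((D.σ x * q.2 : ℝ) : ℂ) *
        U N A (x, q)‖ ^ 2 + W2 D q.2 x * ‖U N A (x, q)‖ ^ 2 - W1 D q.2 x * ‖U N A (x, q)‖ ^ 2)
        (Icc l m) →
      gam D.T D.A D.B q.2 * ‖U N A (c, q)‖ ^ 2 ≤ ∫ x in l..m, (‖Ux N A (x, q) +
        I * ((D.σ x * q.2 : ℝ) : ℂ) * U N A (x, q)‖ ^ 2 + W2 D q.2 x * ‖U N A (x, q)‖ ^ 2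
          - W1 D q.2 x * ‖U N A (x, q)‖ ^ 2)) :
    (∫ q in S2, dnE D N A c q) + (∫ s in S3 l m, dnF1 D N A s) ≤ ∫ s in S3 l m, dnF2 D N A s := by
  have h3 := dn_fubini hlm (fun s => dnF2 D N A s - dnF1 D N A s) (h2.sub h1) (dnE D N A c)
    (dnE_int D N hA c) ?_
  · rw [integral_sub h2 h1] at h3
    linarith
  · intro q hq hint
    have hp : 0 < q.2 := hq.2
    simp only [dn_fib D N q hp] at hint ⊢
    have h4 := hmain q hq (by
      have := hint.mul_const q.2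
      simp only [div_mul_cancel₀ _ hp.ne'] at this
      exact this)
    rw [intervalIntegral.integral_div]
    unfold dnE
    gcongr

end

theorem dn_right (D : Prof) (N : ℕ) (A : ℕ → ℝ → ℝ → ℂ) (hA : AC A) (b1 : ℝ)
    (hb1 : b1 < D.b0) (hs : ∀ k x φ, b1 ≤ x → A k x φ = 0) :
    (∫ q in S2, gam D.T D.A D.B q.2 * ‖U N A (D.b, q)‖ ^ 2 / q.2) +
      (∫ s in S3 D.b D.b0,
        (Real.exp (2 * s.1) + D.cw / tt D.T s.2.2 ^ 2) * ‖U N A s‖ ^ 2 / s.2.2) ≤
    ∫ s in S3 D.b D.b0, (‖nab D N A s‖ ^ 2 / s.2.2 +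
      (deriv D.μ s.1 / 32) * (4 * s.2.2 + 1 / s.2.2) * ‖U N A s‖ ^ 2 / s.2.2) := by
  apply dn_glue D N hA D.hb0.le (dnF1_int D N hA _ _)
  · apply dnF2_int D N hA D.b D.b0 D.b b1
      (by linarith [D.ha0, D.hab]) hb1
    intro k x φ hx hx'
    apply hs
    by_contra h
    exact hx' ⟨hx.1.le, by linarith⟩
  · intro q hq hint
    apply dn_right1 D hq.2 (fun x => U N A (x, q)) (fun x => Ux N A (x, q))
      (dn_hasDerivAt_U hA N q) _ hint
    unfold U
    apply Finset.sum_eq_zero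
    intro k _
    simp only [hs k D.b0 q.1 hb1.le, zero_mul]

theorem dn_left (D : Prof) (N : ℕ) (A : ℕ → ℝ → ℝ → ℂ) (hA : AC A) (a1 : ℝ)
    (ha1 : D.a0 < a1) (hs : ∀ k x φ, x ≤ a1 → A k x φ = 0) :
    (∫ q in S2, gam D.T D.A D.B q.2 * ‖U N A (D.a, q)‖ ^ 2 / q.2) +
      (∫ s in S3 D.a0 D.a,
        (Real.exp (2 * s.1) + D.cw / tt D.T s.2.2 ^ 2) * ‖U N A s‖ ^ 2 / s.2.2) ≤
    ∫ s in S3 D.a0 D.a, (‖nab D N A s‖ ^ 2 / s.2.2 +
      (deriv D.μ s.1 / 32) * (4 * s.2.2 + 1 / s.2.2) * ‖U N A s‖ ^ 2 / s.2.2) := by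
  apply dn_glue D N hA D.ha0.le (dnF1_int D N hA _ _)
  · apply dnF2_int D N hA D.a0 D.a a1 D.a ha1
      (by linarith [D.hb0, D.hab])
    intro k x φ hx hx'
    apply hs
    by_contra h
    exact hx' ⟨by linarith, hx.2.le⟩
  · intro q hq hint
    apply dn_left1 D hq.2 (fun x => U N A (x, q)) (fun x => Ux N A (x, q))
      (dn_hasDerivAt_U hA N q) _ hint
    unfold U
    apply Finset.sum_eq_zero
    intro k _
    simp only [hs k D.a0 q.1 ha1.le, zero_mul]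

end Pool.Agent.DbarN
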