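import Pool.Agent.DbarN.Prof

set_option autoImplicit false

/-!
# The identity `∫ |BU - ∇U|²/p = ∫ (|∇U|²/p + |BU|²/p + Θ)`
-/

namespace Pool.Agent.DbarN

open MeasureTheory Complex Set
open scoped ComplexConjugate ContDiff

namespace IdentAux

/-! ### functions `polynomial * exp (-p)` -/

/-- a polynomial times `exp (-p)` -/
def EP (f : ℝ → ℝ) : Prop := ∃ P : Polynomial ℝ, ∀ p, f p = P.eval p * Real.exp (-p)

theorem EP.hasDeriv {f : ℝ → ℝ} (hf : EP f) :
    ∃ f' : ℝ → ℝ, EP f' ∧ ∀ p, HasDerivAt f (f' p) p := by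
  obtain ⟨P, hP⟩ := hf
  refine ⟨fun p => (P.derivative - P).eval p * Real.exp (-p), ⟨_, fun _ => rfl⟩, fun p => ?_⟩
  have h1 : HasDerivAt (fun p => P.eval p * Real.exp (-p))
      (P.derivative.eval p * Real.exp (-p) + P.eval p * (Real.exp (-p) * (-1))) p :=
    (P.hasDerivAt p).mul ((hasDerivAt_neg p).exp)
  have h2 : f = fun p => P.eval p * Real.exp (-p) := funext hP
  rw [h2]
  convert h1 using 1
  simp only [Polynomial.eval_sub]
  ring

theorem EP.hasDerivAt {f : ℝ → ℝ} (hf : EP f) (p : ℝ) : HasDerivAt f (deriv f p) p := by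
  obtain ⟨f', -, h⟩ := hf.hasDeriv
  exact (h p).differentiableAt.hasDerivAt

theorem EP.deriv {f : ℝ → ℝ} (hf : EP f) : EP (deriv f) := by
  obtain ⟨f', h1, h⟩ := hf.hasDeriv
  have : _root_.deriv f = f' := funext fun p => (h p).deriv
  rw [this]
  exact h1

theorem EP.continuous {f : ℝ → ℝ} (hf : EP f) : Continuous f :=
  continuous_iff_continuousAt.2 fun p => (hf.hasDerivAt p).continuousAt

theorem EP.add {f g : ℝ → ℝ} (hf : EP f) (hg : EP g) : EP (fun p => f p + g p) := by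
  obtain ⟨P, hP⟩ := hf
  obtain ⟨Q, hQ⟩ := hg
  exact ⟨P + Q, fun p => by simp only [hP, hQ, Polynomial.eval_add]; ring⟩

theorem EP.sub {f g : ℝ → ℝ} (hf : EP f) (hg : EP g) : EP (fun p => f p - g p) := by
  obtain ⟨P, hP⟩ := hf
  obtain ⟨Q, hQ⟩ := hg
  exact ⟨P - Q, fun p => by simp only [hP, hQ, Polynomial.eval_sub]; ring⟩

theorem EP.mulp {f : ℝ → ℝ} (hf : EP f) : EP (fun p => p * f p) := by
  obtain ⟨P, hP⟩ := hf
  exact ⟨Polynomial.X * P, fun p => by simp only [hP, Polynomial.eval_mul, Polynomial.eval_X]; ring⟩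

/-- `g_k / p` -/
noncomputable def gq (k : ℕ) (p : ℝ) : ℝ :=
  Real.sqrt Real.pi * 2 ^ (k + 1) * p ^ k * Real.exp (-p) / (k + 1).factorial

theorem gk_eq (k : ℕ) (p : ℝ) : gk k p = p * gq k p := by
  unfold gk gq
  rw [pow_succ p k]
  ring

theorem EP.gq (k : ℕ) : EP (gq k) :=
  ⟨Polynomial.C (Real.sqrt Real.pi * 2 ^ (k + 1) / (k + 1).factorial) * Polynomial.X ^ k,
    fun p => by
      rw [Polynomial.eval_mul, Polynomial.eval_C, Polynomial.eval_pow, Polynomial.eval_X]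
      unfold IdentAux.gq
      ring⟩

theorem EP.gk (k : ℕ) : EP (gk k) := by
  have : DbarN.gk k = fun p => p * IdentAux.gq k p := funext (gk_eq k)
  rw [this]
  exact (EP.gq k).mulp

theorem gk_zero (k : ℕ) : gk k 0 = 0 := by rw [gk_eq, zero_mul]

theorem poly_bound (P : Polynomial ℝ) :
    ∃ C, 0 ≤ C ∧ ∀ p : ℝ, 0 ≤ p → |P.eval p| ≤ C * Real.exp (p / 2) := by
  induction P using Polynomial.induction_on' with
  | add P Q hP hQ =>
    obtain ⟨C, hC, h1⟩ := hP
    obtain ⟨C', hC', h2⟩ := hQ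
    refine ⟨C + C', add_nonneg hC hC', fun p hp => ?_⟩
    rw [Polynomial.eval_add, add_mul]
    exact (abs_add_le _ _).trans (add_le_add (h1 p hp) (h2 p hp))
  | monomial n c =>
    refine ⟨|c| * (2 ^ n * n.factorial), by positivity, fun p hp => ?_⟩
    rw [Polynomial.eval_monomial, abs_mul, mul_assoc]
    refine mul_le_mul_of_nonneg_left ?_ (abs_nonneg c)
    have h := Real.pow_div_factorial_le_exp (p / 2) (by positivity) n
    rw [div_le_iff₀ (by positivity)] at h
    rw [abs_of_nonneg (by positivity)]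
    calc p ^ n = 2 ^ n * (p / 2) ^ n := by rw [← mul_pow]; congr 1; ring
      _ ≤ 2 ^ n * (Real.exp (p / 2) * n.factorial) :=
          mul_le_mul_of_nonneg_left h (by positivity)
      _ = _ := by ring

theorem EP.bound {f : ℝ → ℝ} (hf : EP f) :
    ∃ C, 0 ≤ C ∧ ∀ p : ℝ, 0 ≤ p → |f p| ≤ C * Real.exp (-p / 2) := by
  obtain ⟨P, hP⟩ := hf
  obtain ⟨C, hC, h⟩ := poly_bound P
  refine ⟨C, hC, fun p hp => ?_⟩
  rw [hP, abs_mul, abs_of_pos (Real.exp_pos _)]
  calc |P.eval p| * Real.exp (-p) ≤ C * Real.exp (p / 2) * Real.exp (-p) :=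
        mul_le_mul_of_nonneg_right (h p hp) (Real.exp_pos _).le
    _ = C * Real.exp (-p / 2) := by
        rw [mul_assoc, ← Real.exp_add]; congr 2; ring

theorem exp_half_sq (p : ℝ) : Real.exp (-p / 2) * Real.exp (-p / 2) = Real.exp (-p) := by
  rw [← Real.exp_add]; congr 1; ring

theorem EP.mul_bound {f g : ℝ → ℝ} (hf : EP f) (hg : EP g) :
    ∃ C, 0 ≤ C ∧ ∀ p : ℝ, 0 ≤ p → |f p * g p| ≤ C * Real.exp (-p) := by
  obtain ⟨C, hC, h1⟩ := hf.bound
  obtain ⟨C', hC', h2⟩ := hg.bound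
  refine ⟨C * C', mul_nonneg hC hC', fun p hp => ?_⟩
  rw [abs_mul, ← exp_half_sq]
  calc |f p| * |g p| ≤ (C * Real.exp (-p / 2)) * (C' * Real.exp (-p / 2)) :=
        mul_le_mul (h1 p hp) (h2 p hp) (abs_nonneg _) (by positivity)
    _ = _ := by ring

theorem EP.integrable {f g : ℝ → ℝ} (hf : EP f) (hg : EP g) :
    IntegrableOn (fun p => f p * g p) (Ioi 0) := by
  obtain ⟨C, hC, h⟩ := hf.mul_bound hg
  refine Integrable.mono' (g := fun p => C * Real.exp (-p))
    ((integrableOn_exp_neg_Ioi 0).const_mul C)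
    (hf.continuous.mul hg.continuous).aestronglyMeasurable.restrict ?_
  rw [ae_restrict_iff' measurableSet_Ioi]
  exact Filter.Eventually.of_forall fun p hp => h p (le_of_lt hp)

/-- `∫_0^∞ (f g)' = 0` when `f g` vanishes at `0` -/
theorem ftc {f g : ℝ → ℝ} (hf : EP f) (hg : EP g) (h0 : f 0 * g 0 = 0) :
    (∫ p in Ioi (0:ℝ), deriv f p * g p) + ∫ p in Ioi (0:ℝ), f p * deriv g p = 0 := by
  rw [← integral_add (hf.deriv.integrable hg) (hf.integrable hg.deriv)]
  have h1 : ∀ p ∈ Ioi (0:ℝ), HasDerivAt (fun p => f p * g p) (deriv f p * g p + f p * deriv g p) p :=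
    fun p _ => (hf.hasDerivAt p).mul (hg.hasDerivAt p)
  have h2 : Filter.Tendsto (fun p => f p * g p) Filter.atTop (nhds 0) := by
    obtain ⟨C, hC, h⟩ := hf.mul_bound hg
    refine squeeze_zero_norm' (a := fun p => C * Real.exp (-p)) ?_ ?_
    · filter_upwards [Filter.eventually_ge_atTop 0] with p hp
      exact h p hp
    · have := (Real.tendsto_exp_neg_atTop_nhds_zero).const_mul C
      rwa [mul_zero] at this
  rw [integral_Ioi_of_hasDerivAt_of_tendsto
    (hf.continuous.mul hg.continuous).continuousWithinAt h1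
    ((hf.deriv.integrable hg).add (hf.integrable hg.deriv)) h2]
  change 0 - f 0 * g 0 = 0
  rw [h0, sub_zero]

/-! ### the matrices -/

/-- the matrix of integrals -/
noncomputable def Mx (f g : ℕ → ℝ → ℝ) (k l : ℕ) : ℝ := ∫ p in Ioi (0:ℝ), f k p * g l p

/-- `g_k'` -/
noncomputable def g1 (k : ℕ) : ℝ → ℝ := deriv (gk k)
/-- `g_k''` -/
noncomputable def g2 (k : ℕ) : ℝ → ℝ := deriv (deriv (gk k))

theorem EP.g1 (k : ℕ) : EP (g1 k) := (EP.gk k).deriv
theorem EP.g2 (k : ℕ) : EP (g2 k) := (EP.gk k).deriv.deriv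

theorem M0_symm (k l : ℕ) : Mx gk gq k l = Mx gk gq l k := by
  unfold Mx
  congr 1
  ext p
  rw [gk_eq, gk_eq]
  ring

theorem M1_symm (k l : ℕ) : Mx gk gk k l = Mx gk gk l k := by
  unfold Mx
  congr 1
  ext p
  ring

theorem MD_symm (k l : ℕ) : Mx g1 g1 k l = Mx g1 g1 l k := by
  unfold Mx
  congr 1
  ext p
  ring

theorem MH_transp (k l : ℕ) : Mx g1 gk k l = Mx gk g1 l k := by
  unfold Mx
  congr 1
  ext p
  ring

theorem MH_anti (k l : ℕ) : Mx gk g1 k l = -Mx gk g1 l k := by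
  have h := ftc (EP.gk k) (EP.gk l) (by rw [gk_zero, zero_mul])
  have h2 : Mx g1 gk k l + Mx gk g1 k l = 0 := h
  rw [MH_transp] at h2
  linarith

theorem MK_eq (k l : ℕ) :
    Mx gk (fun l p => gk l p - g2 l p) k l = Mx gk gk k l + Mx g1 g1 k l := by
  have h := ftc (EP.gk k) (EP.g1 l) (by rw [gk_zero, zero_mul])
  have h2 : Mx g1 g1 k l + Mx gk g2 k l = 0 := h
  have h3 : Mx gk (fun l p => gk l p - g2 l p) k l = Mx gk gk k l - Mx gk g2 k l := by
    unfold Mx
    rw [← integral_sub ((EP.gk k).integrable (EP.gk l)) ((EP.gk k).integrable (EP.g2 l))]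
    congr 1
    ext p
    ring
  linarith

theorem MP_eq (k l : ℕ) :
    Mx gk (fun l p => p * g1 l p) k l + Mx gk (fun l p => p * g1 l p) l k = -Mx gk gk k l := by
  have h := ftc (EP.gk k).mulp (EP.gk l) (by rw [gk_zero]; simp)
  have h1 : deriv (fun p => p * gk k p) = fun p => gk k p + p * g1 k p := by
    ext p
    have := ((hasDerivAt_id p).mul ((EP.gk k).hasDerivAt p)).deriv
    simp only [id, one_mul] at this
    exact this
  rw [h1] at h
  have h2 : ∫ p in Ioi (0:ℝ), (gk k p + p * g1 k p) * gk l p =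
      Mx gk gk k l + Mx gk (fun l p => p * g1 l p) l k := by
    unfold Mx
    rw [← integral_add ((EP.gk k).integrable (EP.gk l)) ((EP.gk l).integrable (EP.g1 k).mulp)]
    congr 1
    ext p
    ring
  have h3 : ∫ p in Ioi (0:ℝ), p * gk k p * deriv (gk l) p =
      Mx gk (fun l p => p * g1 l p) k l := by
    unfold Mx g1
    congr 1
    ext p
    ring
  rw [h2, h3] at h
  linarith

theorem MW_eq (k l : ℕ) :
    Mx gk (fun l p => p * (gk l p - g2 l p)) k l - Mx gk (fun l p => p * (gk l p - g2 l p)) l k =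
      2 * Mx gk g1 k l := by
  -- `∫ (p g_k) g_l'' = - ∫ (g_k + p g_k') g_l'`
  have key : ∀ k l : ℕ, Mx gk (fun l p => p * (gk l p - g2 l p)) k l =
      (∫ p in Ioi (0:ℝ), p * gk k p * gk l p) + Mx gk g1 k l +
        ∫ p in Ioi (0:ℝ), p * g1 k p * g1 l p := by
    intro k l
    have h := ftc (EP.gk k).mulp (EP.g1 l) (by simp)
    have h1 : deriv (fun p => p * gk k p) = fun p => gk k p + p * g1 k p := by
      ext p
      have := ((hasDerivAt_id p).mul ((EP.gk k).hasDerivAt p)).deriv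
      simp only [id, one_mul] at this
      exact this
    rw [h1] at h
    have h2 : ∫ p in Ioi (0:ℝ), (gk k p + p * g1 k p) * g1 l p =
        Mx gk g1 k l + ∫ p in Ioi (0:ℝ), p * g1 k p * g1 l p := by
      unfold Mx
      rw [← integral_add ((EP.gk k).integrable (EP.g1 l)) ((EP.g1 k).mulp.integrable (EP.g1 l))]
      congr 1
      ext p
      ring
    have h3 : Mx gk (fun l p => p * (gk l p - g2 l p)) k l =
        (∫ p in Ioi (0:ℝ), p * gk k p * gk l p) - ∫ p in Ioi (0:ℝ), p * gk k p * deriv (g1 l) p := by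
      rw [← integral_sub ((EP.gk k).mulp.integrable (EP.gk l))
        ((EP.gk k).mulp.integrable (EP.g1 l).deriv)]
      unfold Mx
      congr 1
      ext p
      change gk k p * (p * (gk l p - g2 l p)) = p * gk k p * gk l p - p * gk k p * g2 l p
      ring
    rw [h2] at h
    linarith
  rw [key, key, MH_anti l k]
  have e1 : ∫ p in Ioi (0:ℝ), p * gk k p * gk l p = ∫ p in Ioi (0:ℝ), p * gk l p * gk k p := by
    congr 1
    ext p
    ring
  have e2 : ∫ p in Ioi (0:ℝ), p * g1 k p * g1 l p = ∫ p in Ioi (0:ℝ), p * g1 l p * g1 k p := by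
    congr 1
    ext p
    ring
  rw [e1, e2]
  ring

/-! ### the forms -/

/-- `∑ a_k conj(b_l) M_kl` -/
noncomputable def HF (N : ℕ) (M : ℕ → ℕ → ℝ) (a b : ℕ → ℂ) : ℂ :=
  ∑ k ∈ Finset.range N, ∑ l ∈ Finset.range N, a k * conj (b l) * (M k l : ℂ)

theorem HF_conj (N : ℕ) (M : ℕ → ℕ → ℝ) (a b : ℕ → ℂ) :
    conj (HF N M a b) = HF N (fun k l => M l k) b a := by
  unfold HF
  rw [map_sum, Finset.sum_comm]
  simp only [map_sum]
  refine Finset.sum_congr rfl fun k _ => ?_
  refine Finset.sum_congr rfl fun l _ => ?_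
  simp only [map_mul, conj_conj, conj_ofReal]
  ring

theorem HF_add (N : ℕ) (M M' : ℕ → ℕ → ℝ) (a b : ℕ → ℂ) :
    HF N (fun k l => M k l + M' k l) a b = HF N M a b + HF N M' a b := by
  unfold HF
  rw [← Finset.sum_add_distrib]
  refine Finset.sum_congr rfl fun k _ => ?_
  rw [← Finset.sum_add_distrib]
  refine Finset.sum_congr rfl fun l _ => ?_
  push_cast
  ring

theorem HF_smul (N : ℕ) (r : ℝ) (M : ℕ → ℕ → ℝ) (a b : ℕ → ℂ) :
    HF N (fun k l => r * M k l) a b = r * HF N M a b := by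
  unfold HF
  rw [Finset.mul_sum]
  refine Finset.sum_congr rfl fun k _ => ?_
  rw [Finset.mul_sum]
  refine Finset.sum_congr rfl fun l _ => ?_
  push_cast
  ring

theorem HF_congr {N : ℕ} {M M' : ℕ → ℕ → ℝ} (h : ∀ k l, M k l = M' k l) (a b : ℕ → ℂ) :
    HF N M a b = HF N M' a b := by
  have : M = M' := funext fun k => funext fun l => h k l
  rw [this]

theorem HF_hasDerivAt (N : ℕ) (M : ℕ → ℕ → ℝ) {a b : ℝ → ℕ → ℂ} {a' b' : ℕ → ℂ} {t : ℝ}
    (ha : ∀ k, HasDerivAt (fun t => a t k) (a' k) t) (hb : ∀ k, HasDerivAt (fun t => b t k) (b' k) t) :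
    HasDerivAt (fun t => HF N M (a t) (b t)) (HF N M a' (b t) + HF N M (a t) b') t := by
  unfold HF
  rw [← Finset.sum_add_distrib]
  refine HasDerivAt.fun_sum fun k _ => ?_
  rw [← Finset.sum_add_distrib]
  refine HasDerivAt.fun_sum fun l _ => ?_
  have h1 : HasDerivAt (fun t => conj (b t l)) (conj (b' l)) t := (hb l).star
  have h2 := ((ha k).mul h1).mul_const (M k l : ℂ)
  rw [add_mul] at h2
  exact h2

/-- `∑ a_k h_k(p)` -/
noncomputable def Gs (N : ℕ) (a : ℕ → ℂ) (h : ℕ → ℝ → ℝ) (p : ℝ) : ℂ :=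
  ∑ k ∈ Finset.range N, a k * (h k p : ℂ)

/-- `f` is integrable over `(0,∞)` with integral `I` -/
def HI (f : ℝ → ℂ) (I : ℂ) : Prop := IntegrableOn f (Ioi 0) ∧ ∫ p in Ioi (0:ℝ), f p = I

theorem HI.add {f g : ℝ → ℂ} {I J : ℂ} (hf : HI f I) (hg : HI g J) :
    HI (fun p => f p + g p) (I + J) :=
  ⟨hf.1.add hg.1, by rw [← hf.2, ← hg.2]; exact integral_add hf.1 hg.1⟩

theorem HI.const_mul {f : ℝ → ℂ} {I : ℂ} (c : ℂ) (hf : HI f I) :
    HI (fun p => c * f p) (c * I) :=
  ⟨hf.1.const_mul c, by rw [← hf.2]; exact integral_const_mul c _⟩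

theorem HI.congr {f g : ℝ → ℂ} {I : ℂ} (hf : HI f I) (h : ∀ p : ℝ, 0 < p → g p = f p) :
    HI g I := by
  have h1 : ∀ᵐ p ∂(volume.restrict (Ioi (0:ℝ))), f p = g p := by
    rw [ae_restrict_iff' measurableSet_Ioi]
    exact Filter.Eventually.of_forall fun p hp => (h p hp).symm
  exact ⟨hf.1.congr h1, by rw [← hf.2]; exact (integral_congr_ae h1).symm⟩

theorem HI.form {N : ℕ} {h1 h2 : ℕ → ℝ → ℝ} (e1 : ∀ k, EP (h1 k)) (e2 : ∀ k, EP (h2 k))
    (a b : ℕ → ℂ) :
    HI (fun p => Gs N a h1 p * conj (Gs N b h2 p)) (HF N (Mx h1 h2) a b) := by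
  have hexp : ∀ p, Gs N a h1 p * conj (Gs N b h2 p) =
      ∑ k ∈ Finset.range N, ∑ l ∈ Finset.range N,
        a k * conj (b l) * ((h1 k p * h2 l p : ℝ) : ℂ) := by
    intro p
    unfold Gs
    rw [map_sum, Finset.sum_mul_sum]
    refine Finset.sum_congr rfl fun k _ => ?_
    refine Finset.sum_congr rfl fun l _ => ?_
    rw [map_mul, conj_ofReal]
    push_cast
    ring
  have hint : ∀ k l, IntegrableOn (fun p => a k * conj (b l) * ((h1 k p * h2 l p : ℝ) : ℂ))
      (Ioi 0) := fun k l => (((e1 k).integrable (e2 l)).ofReal).const_mul _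
  simp only [hexp]
  refine ⟨?_, ?_⟩
  · exact integrable_finsetSum _ fun k _ => integrable_finsetSum _ fun l _ => hint k l
  · rw [integral_finsetSum _ fun k _ => integrable_finsetSum _ fun l _ => hint k l]
    unfold HF
    refine Finset.sum_congr rfl fun k _ => ?_
    rw [integral_finsetSum _ fun l _ => hint k l]
    refine Finset.sum_congr rfl fun l _ => ?_
    rw [integral_const_mul]
    congr 1
    exact integral_complex_ofReal

theorem HI.conj {f : ℝ → ℂ} {I : ℂ} (hf : HI f I) :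
    HI (fun p => (starRingEnd ℂ) (f p)) ((starRingEnd ℂ) I) := by
  refine ⟨?_, ?_⟩
  · exact (Complex.conjCLE : ℂ →L[ℝ] ℂ).integrable_comp hf.1
  · rw [← hf.2]
    exact integral_conj

theorem Gs_gk (N : ℕ) (a : ℕ → ℂ) (p : ℝ) : Gs N a gk p = (p : ℂ) * Gs N a gq p := by
  unfold Gs
  rw [Finset.mul_sum]
  refine Finset.sum_congr rfl fun k _ => ?_
  rw [gk_eq]
  push_cast
  ring

theorem Gs_mulp (N : ℕ) (a : ℕ → ℂ) (h : ℕ → ℝ → ℝ) (p : ℝ) :
    Gs N a (fun l p => p * h l p) p = (p : ℂ) * Gs N a h p := by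
  unfold Gs
  rw [Finset.mul_sum]
  refine Finset.sum_congr rfl fun k _ => ?_
  push_cast
  ring

theorem Gs_sub (N : ℕ) (a : ℕ → ℂ) (h h' : ℕ → ℝ → ℝ) (p : ℝ) :
    Gs N a (fun l p => h l p - h' l p) p = Gs N a h p - Gs N a h' p := by
  unfold Gs
  rw [← Finset.sum_sub_distrib]
  refine Finset.sum_congr rfl fun k _ => ?_
  push_cast
  ring

/-! ### the integral over `p` -/

/-- the integral over `p` of `-(2 Re (∇U conj BU)/p + Θ)`, with `a = A`, `b = A_x`, `c = A_φ`,
is a divergence -/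
theorem p_integral (N : ℕ) (a b c : ℕ → ℂ) (σ σ' μ μ' : ℝ) :
    HI (fun p =>
      (Gs N b gk p + I * (σ : ℂ) * (p : ℂ) * Gs N a gk p) *
        conj (I * Gs N c gk p - Gs N a gk p + I * (σ : ℂ) * (p : ℂ) * Gs N a g1 p +
          (μ : ℂ) / 2 * (p : ℂ) * (Gs N a gk p - Gs N a g2 p)) / (p : ℂ) +
      conj ((Gs N b gk p + I * (σ : ℂ) * (p : ℂ) * Gs N a gk p) *
        conj (I * Gs N c gk p - Gs N a gk p + I * (σ : ℂ) * (p : ℂ) * Gs N a g1 p +
          (μ : ℂ) / 2 * (p : ℂ) * (Gs N a gk p - Gs N a g2 p)) / (p : ℂ)) +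
      (((μ' : ℂ) / 2 + (σ : ℂ) ^ 2) * (Gs N a gk p * conj (Gs N a gk p)) +
        (μ' : ℂ) / 2 * (Gs N a g1 p * conj (Gs N a g1 p)) +
        ((σ' : ℂ) + (σ : ℂ) * (μ : ℂ)) * ((I * Gs N a g1 p * conj (Gs N a gk p) +
          conj (I * Gs N a g1 p * conj (Gs N a gk p))) / 2)))
      (-(((-I * (HF N (Mx gk gq) c b)) + HF N (Mx gk gq) b a + HF N (Mx gk gq) a b +
          I * σ * (HF N (Mx gk g1) b a + HF N (Mx gk g1) a b) +
          I * σ' * HF N (Mx gk g1) a a -
          (μ : ℂ) / 2 * (HF N (Mx gk (fun l p => gk l p - g2 l p)) b a +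
            HF N (Mx gk (fun l p => gk l p - g2 l p)) a b) -
          (μ' : ℂ) / 2 * HF N (Mx gk (fun l p => gk l p - g2 l p)) a a) +
        (I * HF N (Mx gk gq) b c - σ * (HF N (Mx gk gk) c a + HF N (Mx gk gk) a c)))) := by
  have eK : ∀ l, EP ((fun l p => gk l p - g2 l p) l) := fun l => (EP.gk l).sub (EP.g2 l)
  have eP : ∀ l, EP ((fun l p => p * g1 l p) l) := fun l => (EP.g1 l).mulp
  have eW : ∀ l, EP ((fun l p => p * (gk l p - g2 l p)) l) := fun l => (eK l).mulp
  have F1 := HI.form (N := N) EP.gk EP.gq b c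
  have F2 := HI.form (N := N) EP.gk EP.gq b a
  have F3 := HI.form (N := N) EP.gk EP.g1 b a
  have F4 := HI.form (N := N) EP.gk eK b a
  have F5 := HI.form (N := N) EP.gk EP.gk a c
  have F6 := HI.form (N := N) EP.gk EP.gk a a
  have F7 := HI.form (N := N) EP.gk eP a a
  have F8 := HI.form (N := N) EP.gk eW a a
  have F9 := HI.form (N := N) EP.g1 EP.g1 a a
  have F10 := HI.form (N := N) EP.g1 EP.gk a a
  have Z := (((((((F1.const_mul (-I)).add (F2.const_mul (-1))).add (F3.const_mul (-(I * σ)))).add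
    (F4.const_mul ((μ : ℂ) / 2))).add (F5.const_mul (σ : ℂ))).add (F6.const_mul (-(I * σ)))).add
    (F7.const_mul ((σ : ℂ) ^ 2))).add (F8.const_mul (I * σ * ((μ : ℂ) / 2)))
  have Th := ((F6.const_mul ((μ' : ℂ) / 2 + (σ : ℂ) ^ 2)).add (F9.const_mul ((μ' : ℂ) / 2))).add
    (((F10.const_mul I).add (F10.const_mul I).conj).const_mul
      (((σ' : ℂ) + (σ : ℂ) * (μ : ℂ)) / 2))
  have tot := (Z.add Z.conj).add Th
  have h1 := tot.congr (g := fun p =>
      (Gs N b gk p + I * (σ : ℂ) * (p : ℂ) * Gs N a gk p) *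
        conj (I * Gs N c gk p - Gs N a gk p + I * (σ : ℂ) * (p : ℂ) * Gs N a g1 p +
          (μ : ℂ) / 2 * (p : ℂ) * (Gs N a gk p - Gs N a g2 p)) / (p : ℂ) +
      conj ((Gs N b gk p + I * (σ : ℂ) * (p : ℂ) * Gs N a gk p) *
        conj (I * Gs N c gk p - Gs N a gk p + I * (σ : ℂ) * (p : ℂ) * Gs N a g1 p +
          (μ : ℂ) / 2 * (p : ℂ) * (Gs N a gk p - Gs N a g2 p)) / (p : ℂ)) +
      (((μ' : ℂ) / 2 + (σ : ℂ) ^ 2) * (Gs N a gk p * conj (Gs N a gk p)) +
        (μ' : ℂ) / 2 * (Gs N a g1 p * conj (Gs N a g1 p)) +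
        ((σ' : ℂ) + (σ : ℂ) * (μ : ℂ)) * ((I * Gs N a g1 p * conj (Gs N a gk p) +
          conj (I * Gs N a g1 p * conj (Gs N a gk p))) / 2))) ?_
  · convert h1 using 1
    have c1 : conj (HF N (Mx gk gq) b c) = HF N (Mx gk gq) c b := by
      rw [HF_conj]; exact HF_congr (fun k l => M0_symm l k) _ _
    have c2 : conj (HF N (Mx gk gq) b a) = HF N (Mx gk gq) a b := by
      rw [HF_conj]; exact HF_congr (fun k l => M0_symm l k) _ _
    have anti : ∀ a b, HF N (fun k l => Mx gk g1 l k) a b = -HF N (Mx gk g1) a b := by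
      intro a b
      have h := HF_smul N (-1) (Mx gk g1) a b
      rw [HF_congr (M' := fun k l => -1 * Mx gk g1 k l)
        (fun k l => by rw [MH_anti l k]; ring) a b, h]
      push_cast
      ring
    have c3 : conj (HF N (Mx gk g1) b a) = -HF N (Mx gk g1) a b := by
      rw [HF_conj]; exact anti _ _
    have hKs : ∀ k l, Mx gk (fun l p => gk l p - g2 l p) k l =
        Mx gk (fun l p => gk l p - g2 l p) l k := fun k l => by
      rw [MK_eq, MK_eq, M1_symm, MD_symm]
    have c4 : conj (HF N (Mx gk (fun l p => gk l p - g2 l p)) b a) =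
        HF N (Mx gk (fun l p => gk l p - g2 l p)) a b := by
      rw [HF_conj]; exact HF_congr (fun k l => hKs l k) _ _
    have c5 : conj (HF N (Mx gk gk) a c) = HF N (Mx gk gk) c a := by
      rw [HF_conj]; exact HF_congr (fun k l => M1_symm l k) _ _
    have c6 : conj (HF N (Mx gk gk) a a) = HF N (Mx gk gk) a a := by
      rw [HF_conj]; exact HF_congr (fun k l => M1_symm l k) _ _
    have c7 : conj (HF N (Mx gk (fun l p => p * g1 l p)) a a) =
        -HF N (Mx gk gk) a a - HF N (Mx gk (fun l p => p * g1 l p)) a a := by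
      have h := HF_add N (Mx gk (fun l p => p * g1 l p))
        (fun k l => Mx gk (fun l p => p * g1 l p) l k) a a
      have h' := HF_smul N (-1) (Mx gk gk) a a
      rw [HF_congr (M' := fun k l => -1 * Mx gk gk k l)
        (fun k l => by rw [MP_eq k l]; ring) a a, h'] at h
      rw [HF_conj]
      push_cast at h
      linear_combination -h
    have c8 : conj (HF N (Mx gk (fun l p => p * (gk l p - g2 l p))) a a) =
        HF N (Mx gk (fun l p => p * (gk l p - g2 l p))) a a - 2 * HF N (Mx gk g1) a a := by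
      have h := HF_add N (fun k l => Mx gk (fun l p => p * (gk l p - g2 l p)) l k)
        (fun k l => 2 * Mx gk g1 k l) a a
      rw [HF_smul, HF_congr (M' := Mx gk (fun l p => p * (gk l p - g2 l p)))
        (fun k l => by rw [← MW_eq k l]; ring) a a] at h
      rw [HF_conj]
      push_cast at h
      linear_combination -h
    have c9 : HF N (Mx gk (fun l p => gk l p - g2 l p)) a a =
        HF N (Mx gk gk) a a + HF N (Mx g1 g1) a a := by
      rw [← HF_add]; exact HF_congr MK_eq _ _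
    have c10 : HF N (Mx g1 gk) a a = -HF N (Mx gk g1) a a := by
      rw [← anti]; exact HF_congr (fun k l => MH_transp k l) _ _
    have c11 : conj (HF N (Mx gk g1) a a) = -HF N (Mx gk g1) a a := by
      rw [HF_conj]; exact anti _ _
    rw [c10, c9]
    simp only [map_add, map_mul, map_neg, map_div₀, map_pow, map_ofNat, map_one, conj_I,
      conj_ofReal, c1, c2, c3, c4, c5, c6, c7, c8, c11]
    ring_nf
  · intro p hp
    have hp' : (p : ℂ) ≠ 0 := by exact_mod_cast hp.ne'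
    have hZ : (Gs N b gk p + I * (σ : ℂ) * (p : ℂ) * Gs N a gk p) *
        conj (I * Gs N c gk p - Gs N a gk p + I * (σ : ℂ) * (p : ℂ) * Gs N a g1 p +
          (μ : ℂ) / 2 * (p : ℂ) * (Gs N a gk p - Gs N a g2 p)) / (p : ℂ) =
        -I * (Gs N b gk p * conj (Gs N c gq p)) + -1 * (Gs N b gk p * conj (Gs N a gq p)) +
          -(I * σ) * (Gs N b gk p * conj (Gs N a g1 p)) +
          (μ : ℂ) / 2 * (Gs N b gk p * conj (Gs N a (fun l p => gk l p - g2 l p) p)) +
          (σ : ℂ) * (Gs N a gk p * conj (Gs N c gk p)) +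
          -(I * σ) * (Gs N a gk p * conj (Gs N a gk p)) +
          (σ : ℂ) ^ 2 * (Gs N a gk p * conj (Gs N a (fun l p => p * g1 l p) p)) +
          I * σ * ((μ : ℂ) / 2) *
            (Gs N a gk p * conj (Gs N a (fun l p => p * (gk l p - g2 l p)) p)) := by
      rw [Gs_mulp, Gs_mulp N a (fun l p => gk l p - g2 l p), Gs_sub, Gs_gk N b, Gs_gk N a,
        Gs_gk N c]
      simp only [map_add, map_sub, map_mul, map_div₀, conj_I, conj_ofReal, map_ofNat]
      field_simp
      ring_nf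
      rw [I_sq]
      ring
    rw [hZ]
    simp only [map_add, map_mul, map_neg, conj_I, conj_ofReal]
    ring

/-! ### regularity of the profiles -/

theorem mu_contDiffOn (D : Prof) : ContDiffOn ℝ ∞ D.μ (Ioo D.a0 D.b0) := by
  have h1 : ContDiff ℝ ∞ (deriv D.η) := (contDiff_infty_iff_deriv.1 D.ηsm).2
  have h2 : ∀ x ∈ Ioo D.a0 D.b0, 2 * (1 - D.η x) ≠ 0 := fun x hx => by
    have := D.ηlt x hx
    intro h
    linarith
  exact h1.contDiffOn.div
    ((contDiff_const.mul (contDiff_const.sub D.ηsm)).contDiffOn) h2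

theorem mu_hasDerivAt (D : Prof) {x : ℝ} (hx : x ∈ Ioo D.a0 D.b0) :
    HasDerivAt D.μ (deriv D.μ x) x :=
  (((mu_contDiffOn D).contDiffAt (isOpen_Ioo.mem_nhds hx)).differentiableAt
    (by simp)).hasDerivAt

theorem dmu_continuousOn (D : Prof) : ContinuousOn (deriv D.μ) (Ioo D.a0 D.b0) :=
  (mu_contDiffOn D).continuousOn_deriv_of_isOpen isOpen_Ioo (by simp)

theorem sigma_hasDerivAt (D : Prof) (x : ℝ) : HasDerivAt D.σ (deriv D.σ x) x :=
  ((D.σsm.differentiable (by simp)) x).hasDerivAt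

theorem dsigma_continuous (D : Prof) : Continuous (deriv D.σ) :=
  (contDiff_infty_iff_deriv.1 D.σsm).2.continuous

/-! ### partial derivatives of a smooth function of two variables -/

theorem partials {F : ℝ × ℝ → ℂ} (hF : ContDiff ℝ ∞ F) :
    ∃ Fx Fy Fxy : ℝ × ℝ → ℂ, Continuous Fx ∧ Continuous Fy ∧ Continuous Fxy ∧
      (∀ x y, HasDerivAt (fun x => F (x, y)) (Fx (x, y)) x) ∧
      (∀ x y, HasDerivAt (fun y => F (x, y)) (Fy (x, y)) y) ∧
      (∀ x y, HasDerivAt (fun x => Fy (x, y)) (Fxy (x, y)) x) ∧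
      (∀ x y, HasDerivAt (fun y => Fx (x, y)) (Fxy (x, y)) y) := by
  have hd : ∀ (G : ℝ × ℝ → ℂ), ContDiff ℝ ∞ G →
      ContDiff ℝ ∞ (fun q => fderiv ℝ G q (1, 0)) ∧ ContDiff ℝ ∞ (fun q => fderiv ℝ G q (0, 1)) ∧
      (∀ x y, HasDerivAt (fun x => G (x, y)) (fderiv ℝ G (x, y) (1, 0)) x) ∧
      (∀ x y, HasDerivAt (fun y => G (x, y)) (fderiv ℝ G (x, y) (0, 1)) y) := by
    intro G hG
    have h1 : ContDiff ℝ ∞ (fderiv ℝ G) := (contDiff_infty_iff_fderiv.1 hG).2
    have h2 : Differentiable ℝ G := hG.differentiable (by simp)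
    refine ⟨h1.clm_apply contDiff_const, h1.clm_apply contDiff_const, fun x y => ?_, fun x y => ?_⟩
    · have h3 : HasDerivAt (fun x : ℝ => (x, y)) ((1 : ℝ), (0 : ℝ)) x :=
        (hasDerivAt_id x).prodMk (hasDerivAt_const x y)
      exact (h2 (x, y)).hasFDerivAt.comp_hasDerivAt x h3
    · have h3 : HasDerivAt (fun y : ℝ => (x, y)) ((0 : ℝ), (1 : ℝ)) y :=
        (hasDerivAt_const y x).prodMk (hasDerivAt_id y)
      exact (h2 (x, y)).hasFDerivAt.comp_hasDerivAt y h3
  obtain ⟨h1, h2, h3, h4⟩ := hd F hF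
  obtain ⟨h5, h6, h7, h8⟩ := hd _ h1
  obtain ⟨h9, h10, h11, h12⟩ := hd _ h2
  refine ⟨fun q => fderiv ℝ F q (1, 0), fun q => fderiv ℝ F q (0, 1),
    fun q => fderiv ℝ (fun q => fderiv ℝ F q (1, 0)) q (0, 1), h1.continuous, h2.continuous,
    h6.continuous, h3, h4, ?_, fun x y => h8 x y⟩
  intro x y
  have hsymm : fderiv ℝ (fun q => fderiv ℝ F q (1, 0)) (x, y) (0, 1) =
      fderiv ℝ (fun q => fderiv ℝ F q (0, 1)) (x, y) (1, 0) := by
    have hdF : DifferentiableAt ℝ (fderiv ℝ F) (x, y) :=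
      ((contDiff_infty_iff_fderiv.1 hF).2.differentiable (by simp)) _
    have e1 : ∀ v : ℝ × ℝ, fderiv ℝ (fun q => fderiv ℝ F q v) (x, y) =
        (fderiv ℝ (fderiv ℝ F) (x, y)).flip v := by
      intro v
      rw [fderiv_clm_apply hdF (differentiableAt_const _)]
      simp
    rw [e1, e1, ContinuousLinearMap.flip_apply, ContinuousLinearMap.flip_apply]
    have hs : IsSymmSndFDerivAt ℝ F (x, y) :=
      (hF.contDiffAt).isSymmSndFDerivAt (by
        rw [minSmoothness_of_isRCLikeNormedField]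
        exact WithTop.coe_le_coe.2 (le_top : (2 : ℕ∞) ≤ ⊤))
    exact hs.eq _ _
  change HasDerivAt (fun x => fderiv ℝ F (x, y) (0, 1))
    (fderiv ℝ (fun q => fderiv ℝ F q (1, 0)) (x, y) (0, 1)) x
  rw [hsymm]
  exact h11 x y

/-! ### the double integral of the divergence -/

/-- continuous and zero for `x ∉ [a1,b1]` -/
def CC (a1 b1 : ℝ) (F : ℝ × ℝ → ℂ) : Prop :=
  Continuous F ∧ ∀ x φ, x ∉ Icc a1 b1 → F (x, φ) = 0

section cc
variable {a1 b1 : ℝ}

theorem CC.add {F G : ℝ × ℝ → ℂ} (hF : CC a1 b1 F) (hG : CC a1 b1 G) :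
    CC a1 b1 (fun q => F q + G q) :=
  ⟨hF.1.add hG.1, fun x φ hx => by simp only [hF.2 x φ hx, hG.2 x φ hx, add_zero]⟩

theorem CC.sub {F G : ℝ × ℝ → ℂ} (hF : CC a1 b1 F) (hG : CC a1 b1 G) :
    CC a1 b1 (fun q => F q - G q) :=
  ⟨hF.1.sub hG.1, fun x φ hx => by simp only [hF.2 x φ hx, hG.2 x φ hx, sub_zero]⟩

theorem CC.neg {F : ℝ × ℝ → ℂ} (hF : CC a1 b1 F) : CC a1 b1 (fun q => -F q) :=
  ⟨hF.1.neg, fun x φ hx => by simp only [hF.2 x φ hx, neg_zero]⟩

theorem CC.mul {F G : ℝ × ℝ → ℂ} (hF : Continuous F) (hG : CC a1 b1 G) :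
    CC a1 b1 (fun q => F q * G q) :=
  ⟨hF.mul hG.1, fun x φ hx => by simp only [hG.2 x φ hx, mul_zero]⟩

theorem CC.sum {ι : Type*} {s : Finset ι} {F : ι → ℝ × ℝ → ℂ} (hF : ∀ i ∈ s, CC a1 b1 (F i)) :
    CC a1 b1 (fun q => ∑ i ∈ s, F i q) :=
  ⟨continuous_finsetSum _ fun i hi => (hF i hi).1, fun x φ hx =>
    Finset.sum_eq_zero fun i hi => (hF i hi).2 x φ hx⟩

theorem CC.prof {a0 b0 : ℝ} (ha : a0 < a1) (hb : b1 < b0) {m : ℝ → ℝ}
    (hm : ContinuousOn m (Ioo a0 b0)) {F : ℝ × ℝ → ℂ} (hF : CC a1 b1 F) :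
    CC a1 b1 (fun q => (m q.1 : ℂ) * F q) := by
  refine ⟨?_, fun x φ hx => by simp only [hF.2 x φ hx, mul_zero]⟩
  rw [continuous_iff_continuousAt]
  intro q
  by_cases hq : q.1 ∈ Ioo a0 b0
  · have h1 : ContinuousAt m q.1 := hm.continuousAt (isOpen_Ioo.mem_nhds hq)
    have h2 : ContinuousAt (fun q : ℝ × ℝ => (m q.1 : ℂ)) q :=
      Complex.continuous_ofReal.continuousAt.comp (h1.comp continuous_fst.continuousAt)
    exact h2.mul hF.1.continuousAt
  · have hq' : q.1 ∉ Icc a1 b1 := fun h => hq ⟨ha.trans_le h.1, h.2.trans_lt hb⟩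
    have h3 : ∀ᶠ z : ℝ × ℝ in nhds q, z.1 ∉ Icc a1 b1 :=
      continuous_fst.continuousAt.eventually (isClosed_Icc.isOpen_compl.mem_nhds hq')
    refine ContinuousAt.congr (f := fun _ => (0 : ℂ)) continuousAt_const
      (h3.mono fun z hz => ?_)
    change (0 : ℂ) = (m z.1 : ℂ) * F z
    rw [show F z = 0 from hF.2 z.1 z.2 hz, mul_zero]

theorem CC.form {N : ℕ} {M : ℕ → ℕ → ℝ} {a b : ℕ → ℝ × ℝ → ℂ} (ha : ∀ k, Continuous (a k))
    (hb : ∀ k, CC a1 b1 (b k)) :
    CC a1 b1 (fun q => HF N M (fun k => a k q) (fun k => b k q)) := by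
  unfold HF
  refine CC.sum fun k _ => CC.sum fun l _ => ⟨?_, fun x φ hx => ?_⟩
  · exact ((ha k).mul (Complex.continuous_conj.comp (hb l).1)).mul continuous_const
  · simp only [(hb l).2 x φ hx, map_zero, mul_zero, zero_mul]

theorem CC.integrableOn {F : ℝ × ℝ → ℂ} (hF : CC a1 b1 F) (l m l' m' : ℝ) :
    IntegrableOn F (Ioo l m ×ˢ Ioo l' m') (volume.prod volume) := by
  have h : IntegrableOn F (Icc l m ×ˢ Icc l' m') (volume.prod volume) :=
    hF.1.continuousOn.integrableOn_compact (isCompact_Icc.prod isCompact_Icc)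
  exact h.mono_set (prod_mono Ioo_subset_Icc_self Ioo_subset_Icc_self)

end cc

theorem CC.hasDerivAt {a1 b1 a0 b0 : ℝ} (ha : a0 < a1) (hb : b1 < b0) {P P' : ℝ → ℂ}
    (h1 : ∀ x ∈ Ioo a0 b0, HasDerivAt P (P' x) x) (h2 : ∀ x, x ∉ Icc a1 b1 → P x = 0)
    (h3 : ∀ x, x ∉ Icc a1 b1 → P' x = 0) (x : ℝ) : HasDerivAt P (P' x) x := by
  by_cases hx : x ∈ Ioo a0 b0
  · exact h1 x hx
  · have hx' : x ∉ Icc a1 b1 := fun h => hx ⟨ha.trans_le h.1, h.2.trans_lt hb⟩
    rw [h3 x hx']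
    have h4 : P =ᶠ[nhds x] fun _ => 0 :=
      Filter.mem_of_superset (isClosed_Icc.isOpen_compl.mem_nhds hx') fun z hz => h2 z hz
    exact (hasDerivAt_const x (0 : ℂ)).congr_of_eventuallyEq h4

/-- the divergence integrates to zero -/
theorem div_integral (D : Prof) (N : ℕ) (A : ℕ → ℝ → ℝ → ℂ) (hA : AC A) (a1 b1 : ℝ)
    (ha1 : D.a0 < a1) (hb1 : b1 < D.b0) (hs : ∀ k x φ, x ∉ Icc a1 b1 → A k x φ = 0)
    (M0 M1 MH MK : ℕ → ℕ → ℝ) :
    ∫ x in Ioo D.a0 D.b0, ∫ φ in Ioo (-Real.pi) Real.pi,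
      (-(((-I * (HF N M0 (fun k => deriv (fun φ => A k x φ) φ)
              (fun k => deriv (fun x => A k x φ) x))) +
          HF N M0 (fun k => deriv (fun x => A k x φ) x) (fun k => A k x φ) +
          HF N M0 (fun k => A k x φ) (fun k => deriv (fun x => A k x φ) x) +
          I * (D.σ x : ℂ) * (HF N MH (fun k => deriv (fun x => A k x φ) x) (fun k => A k x φ) +
            HF N MH (fun k => A k x φ) (fun k => deriv (fun x => A k x φ) x)) +
          I * ((deriv D.σ x : ℝ) : ℂ) * HF N MH (fun k => A k x φ) (fun k => A k x φ) -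
          (D.μ x : ℂ) / 2 * (HF N MK (fun k => deriv (fun x => A k x φ) x) (fun k => A k x φ) +
            HF N MK (fun k => A k x φ) (fun k => deriv (fun x => A k x φ) x)) -
          ((deriv D.μ x : ℝ) : ℂ) / 2 * HF N MK (fun k => A k x φ) (fun k => A k x φ)) +
        (I * HF N M0 (fun k => deriv (fun x => A k x φ) x)
              (fun k => deriv (fun φ => A k x φ) φ) -
          (D.σ x : ℂ) * (HF N M1 (fun k => deriv (fun φ => A k x φ) φ) (fun k => A k x φ) +
            HF N M1 (fun k => A k x φ) (fun k => deriv (fun φ => A k x φ) φ))))) = 0 := by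
  have hp : ∀ k, ∃ Fx Fy Fxy : ℝ × ℝ → ℂ, Continuous Fx ∧ Continuous Fy ∧ Continuous Fxy ∧
      (∀ x y, HasDerivAt (fun x => A k x y) (Fx (x, y)) x) ∧
      (∀ x y, HasDerivAt (fun y => A k x y) (Fy (x, y)) y) ∧
      (∀ x y, HasDerivAt (fun x => Fy (x, y)) (Fxy (x, y)) x) ∧
      (∀ x y, HasDerivAt (fun y => Fx (x, y)) (Fxy (x, y)) y) := fun k => partials (hA.smooth k)
  choose b c d hbc hcc hdc hb hc hcd hbd using hp
  have eb : ∀ k x φ, deriv (fun x => A k x φ) x = b k (x, φ) := fun k x φ => (hb k x φ).deriv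
  have ec : ∀ k x φ, deriv (fun φ => A k x φ) φ = c k (x, φ) := fun k x φ => (hc k x φ).deriv
  simp only [eb, ec]
  have hac : ∀ k, Continuous (fun q : ℝ × ℝ => A k q.1 q.2) := fun k => (hA.smooth k).continuous
  -- vanishing
  have zb : ∀ k x φ, x ∉ Icc a1 b1 → b k (x, φ) = 0 := by
    intro k x φ hx
    have h4 : (fun x => A k x φ) =ᶠ[nhds x] fun _ => 0 :=
      Filter.mem_of_superset (isClosed_Icc.isOpen_compl.mem_nhds hx) fun z hz => hs k z φ hz
    exact (hb k x φ).unique ((hasDerivAt_const x (0 : ℂ)).congr_of_eventuallyEq h4)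
  have zc : ∀ k x φ, x ∉ Icc a1 b1 → c k (x, φ) = 0 := by
    intro k x φ hx
    have h4 : (fun φ => A k x φ) = fun _ => 0 := funext fun φ => hs k x φ hx
    have h5 := hc k x φ
    rw [h4] at h5
    exact h5.unique (hasDerivAt_const φ (0 : ℂ))
  have zd : ∀ k x φ, x ∉ Icc a1 b1 → d k (x, φ) = 0 := by
    intro k x φ hx
    have h4 : (fun φ => b k (x, φ)) = fun _ => 0 := funext fun φ => zb k x φ hx
    have h5 := hbd k x φ
    rw [h4] at h5
    exact h5.unique (hasDerivAt_const φ (0 : ℂ))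
  have ca : ∀ k, CC a1 b1 (fun q => A k q.1 q.2) := fun k => ⟨hac k, fun x φ hx => hs k x φ hx⟩
  have cb : ∀ k, CC a1 b1 (b k) := fun k => ⟨hbc k, zb k⟩
  have cc : ∀ k, CC a1 b1 (c k) := fun k => ⟨hcc k, zc k⟩
  have cd : ∀ k, CC a1 b1 (d k) := fun k => ⟨hdc k, zd k⟩
  -- the two parts of the divergence
  let P' : ℝ × ℝ → ℂ := fun q =>
    (-I * (HF N M0 (fun k => d k q) (fun k => A k q.1 q.2) +
        HF N M0 (fun k => c k q) (fun k => b k q))) +
      (HF N M0 (fun k => b k q) (fun k => A k q.1 q.2) +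
        HF N M0 (fun k => A k q.1 q.2) (fun k => b k q)) +
      (I * ((deriv D.σ q.1 : ℝ) : ℂ) * HF N MH (fun k => A k q.1 q.2) (fun k => A k q.1 q.2) +
        I * (D.σ q.1 : ℂ) * (HF N MH (fun k => b k q) (fun k => A k q.1 q.2) +
          HF N MH (fun k => A k q.1 q.2) (fun k => b k q))) -
      (((deriv D.μ q.1 : ℝ) : ℂ) / 2 * HF N MK (fun k => A k q.1 q.2) (fun k => A k q.1 q.2) +
        (D.μ q.1 : ℂ) / 2 * (HF N MK (fun k => b k q) (fun k => A k q.1 q.2) +
          HF N MK (fun k => A k q.1 q.2) (fun k => b k q)))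
  let Q' : ℝ × ℝ → ℂ := fun q =>
    I * (HF N M0 (fun k => d k q) (fun k => A k q.1 q.2) +
        HF N M0 (fun k => b k q) (fun k => c k q)) -
      (D.σ q.1 : ℂ) * (HF N M1 (fun k => c k q) (fun k => A k q.1 q.2) +
        HF N M1 (fun k => A k q.1 q.2) (fun k => c k q))
  have hexp : ∀ x φ, (-(((-I * (HF N M0 (fun k => c k (x, φ))
              (fun k => b k (x, φ)))) +
          HF N M0 (fun k => b k (x, φ)) (fun k => A k x φ) +
          HF N M0 (fun k => A k x φ) (fun k => b k (x, φ)) +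
          I * (D.σ x : ℂ) * (HF N MH (fun k => b k (x, φ)) (fun k => A k x φ) +
            HF N MH (fun k => A k x φ) (fun k => b k (x, φ))) +
          I * ((deriv D.σ x : ℝ) : ℂ) * HF N MH (fun k => A k x φ) (fun k => A k x φ) -
          (D.μ x : ℂ) / 2 * (HF N MK (fun k => b k (x, φ)) (fun k => A k x φ) +
            HF N MK (fun k => A k x φ) (fun k => b k (x, φ))) -
          ((deriv D.μ x : ℝ) : ℂ) / 2 * HF N MK (fun k => A k x φ) (fun k => A k x φ)) +
        (I * HF N M0 (fun k => b k (x, φ)) (fun k => c k (x, φ)) -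
          (D.σ x : ℂ) * (HF N M1 (fun k => c k (x, φ)) (fun k => A k x φ) +
            HF N M1 (fun k => A k x φ) (fun k => c k (x, φ)))))) =
      -(P' (x, φ)) - Q' (x, φ) := by
    intro x φ
    simp only [P', Q']
    ring
  simp only [hexp]
  -- regularity
  have cP : CC a1 b1 P' := by
    refine ((((CC.mul continuous_const ((CC.form (fun k => (cd k).1) ca).add
      (CC.form (fun k => (cc k).1) cb))).add ((CC.form (fun k => (cb k).1) ca).add
      (CC.form hac cb))).add (((CC.mul ?_ (CC.form hac ca)).add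
      (CC.mul ?_ ((CC.form (fun k => (cb k).1) ca).add (CC.form hac cb)))))).sub
      ((?_ : CC a1 b1 _).add ?_))
    · exact continuous_const.mul (Complex.continuous_ofReal.comp
        ((dsigma_continuous D).comp continuous_fst))
    · exact continuous_const.mul (Complex.continuous_ofReal.comp
        (D.σsm.continuous.comp continuous_fst))
    · have := CC.prof ha1 hb1 (dmu_continuousOn D) (CC.mul (continuous_const (y := (1 / 2 : ℂ)))
        (CC.form (M := MK) (N := N) hac ca))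
      convert this using 2
      ring
    · have := CC.prof ha1 hb1 ((mu_contDiffOn D).continuousOn)
        (CC.mul (continuous_const (y := (1 / 2 : ℂ)))
        ((CC.form (M := MK) (N := N) (fun k => (cb k).1) ca).add
          (CC.form (M := MK) (N := N) hac cb)))
      convert this using 2
      ring
  have cQ : CC a1 b1 Q' :=
    (CC.mul continuous_const ((CC.form (fun k => (cd k).1) ca).add
      (CC.form (fun k => (cb k).1) cc))).sub
      (CC.mul (Complex.continuous_ofReal.comp (D.σsm.continuous.comp continuous_fst))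
        ((CC.form (fun k => (cc k).1) ca).add (CC.form hac cc)))
  have hpi : -Real.pi ≤ Real.pi := by linarith [Real.pi_pos]
  have hab : D.a0 ≤ D.b0 := by linarith [D.ha0, D.hab, D.hb0]
  -- the `φ` part
  have hQ : ∀ x, ∫ φ in Ioo (-Real.pi) Real.pi, Q' (x, φ) = 0 := by
    intro x
    rw [← integral_Ioc_eq_integral_Ioo, ← intervalIntegral.integral_of_le hpi]
    have hder : ∀ φ, HasDerivAt (fun φ => I * HF N M0 (fun k => b k (x, φ)) (fun k => A k x φ) -
        (D.σ x : ℂ) * HF N M1 (fun k => A k x φ) (fun k => A k x φ)) (Q' (x, φ)) φ := by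
      intro φ
      exact ((HF_hasDerivAt N M0 (a := fun φ k => b k (x, φ)) (b := fun φ k => A k x φ)
        (fun k => hbd k x φ) (fun k => hc k x φ)).const_mul I).sub
        ((HF_hasDerivAt N M1 (a := fun φ k => A k x φ) (b := fun φ k => A k x φ)
        (fun k => hc k x φ) (fun k => hc k x φ)).const_mul (D.σ x : ℂ))
    rw [intervalIntegral.integral_eq_sub_of_hasDerivAt (fun φ _ => hder φ)
      ((cQ.1.comp (Continuous.prodMk_right x)).intervalIntegrable _ _)]
    have e1 : ∀ k, A k x Real.pi = A k x (-Real.pi) := by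
      intro k
      have := hA.per k x (-Real.pi)
      rw [← this]
      congr 1
      ring
    have e2 : ∀ k, b k (x, Real.pi) = b k (x, -Real.pi) := by
      intro k
      have h1 := hb k x Real.pi
      have h2 : (fun x => A k x Real.pi) = fun x => A k x (-Real.pi) := by
        ext x
        have := hA.per k x (-Real.pi)
        rw [← this]
        congr 1
        ring
      rw [h2] at h1
      exact h1.unique (hb k x (-Real.pi))
    simp only [e1, e2, sub_self]
  -- the `x` part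
  have hP : ∀ φ, ∫ x in Ioo D.a0 D.b0, P' (x, φ) = 0 := by
    intro φ
    rw [← integral_Ioc_eq_integral_Ioo, ← intervalIntegral.integral_of_le hab]
    have hder : ∀ x, HasDerivAt (fun x =>
        (-I * HF N M0 (fun k => c k (x, φ)) (fun k => A k x φ)) +
          HF N M0 (fun k => A k x φ) (fun k => A k x φ) +
          I * (D.σ x : ℂ) * HF N MH (fun k => A k x φ) (fun k => A k x φ) -
          (D.μ x : ℂ) / 2 * HF N MK (fun k => A k x φ) (fun k => A k x φ)) (P' (x, φ)) x := by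
      refine CC.hasDerivAt ha1 hb1 ?_ ?_ (fun x hx => cP.2 x φ hx)
      · intro x hx
        have d1 := (HF_hasDerivAt N M0 (a := fun x k => c k (x, φ)) (b := fun x k => A k x φ)
          (fun k => hcd k x φ) (fun k => hb k x φ)).const_mul (-I)
        have d2 := (HF_hasDerivAt N M0 (a := fun x k => A k x φ) (b := fun x k => A k x φ)
          (fun k => hb k x φ) (fun k => hb k x φ))
        have d3 := ((sigma_hasDerivAt D x).ofReal_comp.const_mul I).mul
          (HF_hasDerivAt N MH (a := fun x k => A k x φ) (b := fun x k => A k x φ)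
          (fun k => hb k x φ) (fun k => hb k x φ))
        have d4 := ((mu_hasDerivAt D hx).ofReal_comp.div_const 2).mul
          (HF_hasDerivAt N MK (a := fun x k => A k x φ) (b := fun x k => A k x φ)
          (fun k => hb k x φ) (fun k => hb k x φ))
        exact ((d1.add d2).add d3).sub d4
      · intro x hx
        simp only [HF, hs _ x φ hx, map_zero, mul_zero, zero_mul, Finset.sum_const_zero,
          add_zero, sub_zero]
    rw [intervalIntegral.integral_eq_sub_of_hasDerivAt (fun x _ => hder x)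
      ((cP.1.comp (Continuous.prodMk_left φ)).intervalIntegrable _ _)]
    have n1 : D.b0 ∉ Icc a1 b1 := fun h => absurd h.2 (not_le.2 hb1)
    have n2 : D.a0 ∉ Icc a1 b1 := fun h => absurd h.1 (not_le.2 ha1)
    simp only [HF, hs _ _ φ n1, hs _ _ φ n2, map_zero, mul_zero, zero_mul,
      Finset.sum_const_zero, add_zero, sub_zero]
  -- put together
  have hsplit : ∀ x, ∫ φ in Ioo (-Real.pi) Real.pi, (-(P' (x, φ)) - Q' (x, φ)) =
      -∫ φ in Ioo (-Real.pi) Real.pi, P' (x, φ) := by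
    intro x
    have i1 : IntegrableOn (fun φ => P' (x, φ)) (Ioo (-Real.pi) Real.pi) :=
      ((cP.1.comp (Continuous.prodMk_right x)).continuousOn.integrableOn_compact
        isCompact_Icc).mono_set Ioo_subset_Icc_self
    have i2 : IntegrableOn (fun φ => Q' (x, φ)) (Ioo (-Real.pi) Real.pi) :=
      ((cQ.1.comp (Continuous.prodMk_right x)).continuousOn.integrableOn_compact
        isCompact_Icc).mono_set Ioo_subset_Icc_self
    have e : ∫ φ in Ioo (-Real.pi) Real.pi, (-(P' (x, φ)) - Q' (x, φ)) =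
        (∫ φ in Ioo (-Real.pi) Real.pi, -(P' (x, φ))) -
          ∫ φ in Ioo (-Real.pi) Real.pi, Q' (x, φ) := integral_sub i1.neg i2
    rw [e, hQ x, sub_zero, integral_neg]
  simp only [hsplit]
  rw [integral_neg, neg_eq_zero]
  have hint : Integrable (Function.uncurry fun x φ => P' (x, φ))
      ((volume.restrict (Ioo D.a0 D.b0)).prod (volume.restrict (Ioo (-Real.pi) Real.pi))) := by
    rw [Measure.prod_restrict]
    exact cP.integrableOn _ _ _ _
  rw [integral_integral_swap hint]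
  simp only [hP, integral_zero]

/-! ### integrability on the parameter space -/

theorem weight_integrable :
    IntegrableOn (fun p : ℝ => Real.exp (-p / 2)) (Ioi 0) := by
  have h := exp_neg_integrableOn_Ioi 0 (b := 1 / 2) (by norm_num)
  refine h.congr_fun (fun p _ => ?_) measurableSet_Ioi
  change Real.exp (-(1 / 2) * p) = Real.exp (-p / 2)
  congr 1
  ring

theorem measurableSet_S2 : MeasurableSet S2 := measurableSet_Ioo.prod measurableSet_Ioi

theorem measurableSet_SS (D : Prof) : MeasurableSet (SS D) :=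
  measurableSet_Ioo.prod measurableSet_S2

theorem S2_integrable {f : ℝ × ℝ → ℂ} (hf : Continuous f) (C : ℝ)
    (hb : ∀ s ∈ S2, ‖f s‖ ≤ C * Real.exp (-s.2 / 2)) :
    IntegrableOn f S2 (volume.prod volume) := by
  have h2 : Integrable (fun s : ℝ × ℝ => C * Real.exp (-s.2 / 2))
      ((volume.prod volume).restrict S2) := by
    unfold S2
    rw [← Measure.prod_restrict]
    exact Integrable.mul_prod (f := fun _ : ℝ => C) (g := fun p : ℝ => Real.exp (-p / 2))
      (integrable_const C) weight_integrable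
  refine Integrable.mono' h2 hf.aestronglyMeasurable.restrict ?_
  rw [ae_restrict_iff' measurableSet_S2]
  exact Filter.Eventually.of_forall hb

theorem SS_integrable (D : Prof) {f : ℝ × ℝ × ℝ → ℂ} (hf : Continuous f) (C : ℝ)
    (hb : ∀ s ∈ SS D, ‖f s‖ ≤ C * Real.exp (-s.2.2 / 2)) :
    IntegrableOn f (SS D) (volume.prod (volume.prod volume)) := by
  have h2 : Integrable (fun s : ℝ × ℝ => Real.exp (-s.2 / 2))
      ((volume.prod volume).restrict S2) := by
    unfold S2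
    rw [← Measure.prod_restrict]
    have := Integrable.mul_prod (f := fun _ : ℝ => (1 : ℝ)) (g := fun p : ℝ => Real.exp (-p / 2))
      (integrable_const (μ := volume.restrict (Ioo (-Real.pi) Real.pi)) (1 : ℝ)) weight_integrable
    simpa only [one_mul] using this
  have h3 : Integrable (fun s : ℝ × ℝ × ℝ => C * Real.exp (-s.2.2 / 2))
      ((volume.prod (volume.prod volume)).restrict (SS D)) := by
    unfold SS S3
    rw [← Measure.prod_restrict]
    exact Integrable.mul_prod (f := fun _ : ℝ => C)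
      (g := fun s : ℝ × ℝ => Real.exp (-s.2 / 2)) (integrable_const C) h2
  refine Integrable.mono' h3 hf.aestronglyMeasurable.restrict ?_
  rw [ae_restrict_iff' (measurableSet_SS D)]
  exact Filter.Eventually.of_forall hb

/-- iterated integral -/
theorem SS_fubini (D : Prof) {f : ℝ × ℝ × ℝ → ℂ} (hf : Continuous f) (C : ℝ)
    (hb : ∀ s ∈ SS D, ‖f s‖ ≤ C * Real.exp (-s.2.2 / 2)) :
    ∫ s in SS D, f s = ∫ x in Ioo D.a0 D.b0, ∫ φ in Ioo (-Real.pi) Real.pi,
      ∫ p in Ioi (0:ℝ), f (x, φ, p) := by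
  have h1 : ∫ s in SS D, f s = ∫ x in Ioo D.a0 D.b0, ∫ q in S2, f (x, q) := by
    unfold SS S3
    exact setIntegral_prod f (SS_integrable D hf C hb)
  rw [h1]
  refine setIntegral_congr_fun measurableSet_Ioo fun x hx => ?_
  unfold S2
  exact setIntegral_prod (fun q => f (x, q)) (S2_integrable
    (hf.comp (Continuous.prodMk_right x)) C fun s hs => hb (x, s) ⟨hx, hs⟩)

/-- continuous, with decay `exp (-p/2)` -/
def Tame (D : Prof) (f : ℝ × ℝ × ℝ → ℂ) : Prop :=
  Continuous f ∧ ∃ C, 0 ≤ C ∧ ∀ s ∈ SS D, ‖f s‖ ≤ C * Real.exp (-s.2.2 / 2)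

theorem Tame.add {D : Prof} {f g : ℝ × ℝ × ℝ → ℂ} (hf : Tame D f) (hg : Tame D g) :
    Tame D (fun s => f s + g s) := by
  obtain ⟨h1, C, hC, h2⟩ := hf
  obtain ⟨h3, C', hC', h4⟩ := hg
  refine ⟨h1.add h3, C + C', add_nonneg hC hC', fun s hs => ?_⟩
  rw [add_mul]
  exact (norm_add_le _ _).trans (add_le_add (h2 s hs) (h4 s hs))

theorem Tame.const_mul {D : Prof} {f : ℝ × ℝ × ℝ → ℂ} (c : ℂ) (hf : Tame D f) :
    Tame D (fun s => c * f s) := by
  obtain ⟨h1, C, hC, h2⟩ := hf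
  refine ⟨continuous_const.mul h1, ‖c‖ * C, by positivity, fun s hs => ?_⟩
  rw [norm_mul, mul_assoc]
  exact mul_le_mul_of_nonneg_left (h2 s hs) (norm_nonneg c)

theorem Tame.sum {D : Prof} {ι : Type*} {s : Finset ι} {F : ι → ℝ × ℝ × ℝ → ℂ}
    (hF : ∀ i ∈ s, Tame D (F i)) : Tame D (fun q => ∑ i ∈ s, F i q) := by
  classical
  induction s using Finset.induction_on with
  | empty => exact ⟨by simpa using continuous_const, 0, le_rfl, fun s _ => by simp⟩
  | insert i s hi ih =>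
    have h := (hF i (Finset.mem_insert_self i s)).add
      (ih fun j hj => hF j (Finset.mem_insert_of_mem hj))
    simpa only [Finset.sum_insert hi] using h

theorem Tame.atom {D : Prof} {a1 b1 : ℝ} {F : ℝ × ℝ → ℂ} (hF : CC a1 b1 F) {h : ℝ → ℝ}
    (hh : EP h) : Tame D (fun s => F (s.1, s.2.1) * (h s.2.2 : ℂ)) := by
  obtain ⟨K, hK⟩ := (isCompact_Icc.prod isCompact_Icc :
    IsCompact (Icc D.a0 D.b0 ×ˢ Icc (-Real.pi) Real.pi)).exists_bound_of_continuousOn
    hF.1.continuousOn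
  obtain ⟨C, hC, hb⟩ := hh.bound
  refine ⟨?_, |K| * C, by positivity, fun s hs => ?_⟩
  · exact (hF.1.comp (continuous_fst.prodMk (continuous_fst.comp continuous_snd))).mul
      (Complex.continuous_ofReal.comp (hh.continuous.comp (continuous_snd.comp continuous_snd)))
  · obtain ⟨h1, h2, h3⟩ := hs
    rw [norm_mul, mul_assoc, Complex.norm_real, Real.norm_eq_abs]
    refine mul_le_mul ?_ (hb _ (le_of_lt h3)) (abs_nonneg _) (abs_nonneg _)
    exact (hK (s.1, s.2.1) ⟨Ioo_subset_Icc_self h1, Ioo_subset_Icc_self h2⟩).trans (le_abs_self K)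

theorem Tame.Gs {D : Prof} {a1 b1 : ℝ} (ha1 : D.a0 < a1) (hb1 : b1 < D.b0) {m : ℝ → ℝ}
    (hm : ContinuousOn m (Ioo D.a0 D.b0)) (N : ℕ) {F : ℕ → ℝ × ℝ → ℂ}
    (hF : ∀ k, CC a1 b1 (F k)) {h : ℕ → ℝ → ℝ} (hh : ∀ k, EP (h k)) :
    Tame D (fun s => (m s.1 : ℂ) * IdentAux.Gs N (fun k => F k (s.1, s.2.1)) h s.2.2) := by
  have e : ∀ s : ℝ × ℝ × ℝ, (m s.1 : ℂ) * IdentAux.Gs N (fun k => F k (s.1, s.2.1)) h s.2.2 =
      ∑ k ∈ Finset.range N, ((m s.1 : ℂ) * F k (s.1, s.2.1)) * (h k s.2.2 : ℂ) := by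
    intro s
    unfold IdentAux.Gs
    rw [Finset.mul_sum]
    exact Finset.sum_congr rfl fun k _ => by ring
  simp only [e]
  exact Tame.sum fun k _ => Tame.atom (CC.prof ha1 hb1 hm (hF k)) (hh k)

theorem Tame.mul_bound {D : Prof} {f g : ℝ × ℝ × ℝ → ℂ} (hf : Tame D f) (hg : Tame D g) :
    Continuous (fun s => f s * conj (g s)) ∧
    ∃ C, 0 ≤ C ∧ ∀ s ∈ SS D, ‖f s * conj (g s)‖ ≤ C * Real.exp (-s.2.2) := by
  obtain ⟨h1, C, hC, h2⟩ := hf
  obtain ⟨h3, C', hC', h4⟩ := hg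
  refine ⟨h1.mul (Complex.continuous_conj.comp h3), C * C', mul_nonneg hC hC', fun s hs => ?_⟩
  rw [norm_mul, RCLike.norm_conj, ← exp_half_sq]
  calc ‖f s‖ * ‖g s‖ ≤ (C * Real.exp (-s.2.2 / 2)) * (C' * Real.exp (-s.2.2 / 2)) :=
        mul_le_mul (h2 s hs) (h4 s hs) (norm_nonneg _) (by positivity)
    _ = _ := by ring

/-- continuous, with decay `exp (-p/2)`, without weight -/
theorem Tame.mul {D : Prof} {f g : ℝ × ℝ × ℝ → ℂ} (hf : Tame D f) (hg : Tame D g) :
    Tame D (fun s => f s * conj (g s)) := by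
  obtain ⟨h1, C, hC, h2⟩ := hf.mul_bound hg
  refine ⟨h1, C, hC, fun s hs => (h2 s hs).trans (mul_le_mul_of_nonneg_left ?_ hC)⟩
  have hp : 0 < s.2.2 := hs.2.2
  exact Real.exp_le_exp.2 (by linarith)

theorem Tame.pmul {D : Prof} {f g : ℝ × ℝ × ℝ → ℂ} (hf : Tame D f) (hg : Tame D g) :
    Tame D (fun s => (s.2.2 : ℂ) * (f s * conj (g s))) := by
  obtain ⟨h1, C, hC, h2⟩ := hf.mul_bound hg
  refine ⟨(Complex.continuous_ofReal.comp (continuous_snd.comp continuous_snd)).mul h1,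
    C * 2, by positivity, fun s hs => ?_⟩
  have hp : 0 < s.2.2 := hs.2.2
  rw [norm_mul, Complex.norm_real, Real.norm_eq_abs, abs_of_pos hp]
  have h3 : s.2.2 / 2 ≤ Real.exp (s.2.2 / 2) := by
    have := Real.add_one_le_exp (s.2.2 / 2)
    linarith
  calc s.2.2 * ‖f s * conj (g s)‖ ≤ s.2.2 * (C * Real.exp (-s.2.2)) :=
        mul_le_mul_of_nonneg_left (h2 s hs) hp.le
    _ ≤ (2 * Real.exp (s.2.2 / 2)) * (C * Real.exp (-s.2.2)) :=
        mul_le_mul_of_nonneg_right (by linarith) (by positivity)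
    _ = C * 2 * (Real.exp (s.2.2 / 2) * Real.exp (-s.2.2)) := by ring
    _ = C * 2 * Real.exp (-s.2.2 / 2) := by rw [← Real.exp_add]; congr 2; ring

theorem Tame.conj {D : Prof} {f : ℝ × ℝ × ℝ → ℂ} (hf : Tame D f) :
    Tame D (fun s => (starRingEnd ℂ) (f s)) := by
  obtain ⟨h1, C, hC, h2⟩ := hf
  exact ⟨Complex.continuous_conj.comp h1, C, hC, fun s hs => by
    rw [RCLike.norm_conj]; exact h2 s hs⟩

theorem Tame.integrableOn {D : Prof} {f : ℝ × ℝ × ℝ → ℂ} (hf : Tame D f) :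
    IntegrableOn f (SS D) := by
  obtain ⟨h1, C, hC, h2⟩ := hf
  exact SS_integrable D h1 C h2

end IdentAux

open IdentAux in
theorem ident (D : Prof) (N : ℕ) (A : ℕ → ℝ → ℝ → ℂ) (hA : AC A) (a1 b1 : ℝ)
    (ha1 : D.a0 < a1) (hb1 : b1 < D.b0) (hs : ∀ k x φ, x ∉ Icc a1 b1 → A k x φ = 0) :
    ∫ s in SS D, ‖BB D N A s - nab D N A s‖ ^ 2 / s.2.2 =
      ∫ s in SS D, (‖nab D N A s‖ ^ 2 / s.2.2 + ‖BB D N A s‖ ^ 2 / s.2.2 + Theta D N A s) := by
  have hp : ∀ k, ∃ Fx Fy Fxy : ℝ × ℝ → ℂ, Continuous Fx ∧ Continuous Fy ∧ Continuous Fxy ∧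
      (∀ x y, HasDerivAt (fun x => A k x y) (Fx (x, y)) x) ∧
      (∀ x y, HasDerivAt (fun y => A k x y) (Fy (x, y)) y) ∧
      (∀ x y, HasDerivAt (fun x => Fy (x, y)) (Fxy (x, y)) x) ∧
      (∀ x y, HasDerivAt (fun y => Fx (x, y)) (Fxy (x, y)) y) := fun k => partials (hA.smooth k)
  choose b c d hbc hcc hdc hb hc hcd hbd using hp
  have eb : ∀ k x φ, deriv (fun x => A k x φ) x = b k (x, φ) := fun k x φ => (hb k x φ).deriv
  have ec : ∀ k x φ, deriv (fun φ => A k x φ) φ = c k (x, φ) := fun k x φ => (hc k x φ).deriv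
  have hac : ∀ k, Continuous (fun q : ℝ × ℝ => A k q.1 q.2) := fun k => (hA.smooth k).continuous
  have zb : ∀ k x φ, x ∉ Icc a1 b1 → b k (x, φ) = 0 := by
    intro k x φ hx
    have h4 : (fun x => A k x φ) =ᶠ[nhds x] fun _ => 0 :=
      Filter.mem_of_superset (isClosed_Icc.isOpen_compl.mem_nhds hx) fun z hz => hs k z φ hz
    exact (hb k x φ).unique ((hasDerivAt_const x (0 : ℂ)).congr_of_eventuallyEq h4)
  have zc : ∀ k x φ, x ∉ Icc a1 b1 → c k (x, φ) = 0 := by
    intro k x φ hx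
    have h4 : (fun φ => A k x φ) = fun _ => 0 := funext fun φ => hs k x φ hx
    have h5 := hc k x φ
    rw [h4] at h5
    exact h5.unique (hasDerivAt_const φ (0 : ℂ))
  have ca : ∀ k, CC a1 b1 (fun q => A k q.1 q.2) := fun k => ⟨hac k, fun x φ hx => hs k x φ hx⟩
  have cb : ∀ k, CC a1 b1 (b k) := fun k => ⟨hbc k, zb k⟩
  have cc : ∀ k, CC a1 b1 (c k) := fun k => ⟨hcc k, zc k⟩
  -- notation: the basic sums
  have eU : ∀ s, U N A s = Gs N (fun k => A k s.1 s.2.1) gk s.2.2 := fun s => rfl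
  have eUp : ∀ s, Up N A s = Gs N (fun k => A k s.1 s.2.1) g1 s.2.2 := fun s => rfl
  have eUpp : ∀ s, Upp N A s = Gs N (fun k => A k s.1 s.2.1) g2 s.2.2 := fun s => rfl
  have eUx : ∀ s, Ux N A s = Gs N (fun k => deriv (fun x => A k x s.2.1) s.1) gk s.2.2 :=
    fun s => rfl
  have eUf : ∀ s, Uf N A s = Gs N (fun k => deriv (fun φ => A k s.1 φ) s.2.1) gk s.2.2 :=
    fun s => rfl
  -- tame functions
  have one : ContinuousOn (fun _ : ℝ => (1 : ℝ)) (Ioo D.a0 D.b0) := continuousOn_const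
  have hσ : ContinuousOn D.σ (Ioo D.a0 D.b0) := D.σsm.continuous.continuousOn
  have hσ' : ContinuousOn (deriv D.σ) (Ioo D.a0 D.b0) := (dsigma_continuous D).continuousOn
  have hμ : ContinuousOn D.μ (Ioo D.a0 D.b0) := (mu_contDiffOn D).continuousOn
  have hμ' : ContinuousOn (deriv D.μ) (Ioo D.a0 D.b0) := dmu_continuousOn D
  have tU : Tame D (fun s => U N A s) := by
    have := Tame.Gs ha1 hb1 one N ca EP.gk
    simp only [ofReal_one, one_mul] at this
    exact this
  have tUp : Tame D (fun s => Up N A s) := by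
    have := Tame.Gs ha1 hb1 one N ca EP.g1
    simp only [ofReal_one, one_mul] at this
    exact this
  let n : ℝ × ℝ × ℝ → ℂ := fun s => Gs N (fun k => b k (s.1, s.2.1)) gq s.2.2 +
    I * ((D.σ s.1 : ℂ) * Gs N (fun k => A k s.1 s.2.1) gk s.2.2)
  let β : ℝ × ℝ × ℝ → ℂ := fun s => I * Gs N (fun k => c k (s.1, s.2.1)) gq s.2.2 +
    (-1) * Gs N (fun k => A k s.1 s.2.1) gq s.2.2 +
    I * ((D.σ s.1 : ℂ) * Gs N (fun k => A k s.1 s.2.1) g1 s.2.2) +
    (1 / 2) * ((D.μ s.1 : ℂ) * Gs N (fun k => A k s.1 s.2.1) gk s.2.2) +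
    (-(1 / 2)) * ((D.μ s.1 : ℂ) * Gs N (fun k => A k s.1 s.2.1) g2 s.2.2)
  have tn : Tame D n := by
    have h1 := Tame.Gs ha1 hb1 one N cb EP.gq
    simp only [ofReal_one, one_mul] at h1
    exact h1.add ((Tame.Gs ha1 hb1 hσ N ca EP.gk).const_mul I)
  have tβ : Tame D β := by
    have h1 := Tame.Gs ha1 hb1 one N cc EP.gq
    have h2 := Tame.Gs ha1 hb1 one N ca EP.gq
    simp only [ofReal_one, one_mul] at h1 h2
    exact ((((h1.const_mul I).add (h2.const_mul (-1))).add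
      ((Tame.Gs ha1 hb1 hσ N ca EP.g1).const_mul I)).add
      ((Tame.Gs ha1 hb1 hμ N ca EP.gk).const_mul (1 / 2))).add
      ((Tame.Gs ha1 hb1 hμ N ca EP.g2).const_mul (-(1 / 2)))
  have hn : ∀ s, nab D N A s = (s.2.2 : ℂ) * n s := by
    intro s
    unfold nab
    simp only [n, eU, eUx, eb, Gs_gk]
    ring
  have hβ : ∀ s, BB D N A s = (s.2.2 : ℂ) * β s := by
    intro s
    unfold BB
    simp only [β, eU, eUf, eUp, eUpp, ec, Gs_gk]
    ring
  -- the error term
  let Z : ℝ × ℝ × ℝ → ℂ := fun s => (s.2.2 : ℂ) * (n s * conj (β s))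
  let Th : ℝ × ℝ × ℝ → ℂ := fun s =>
    ((deriv D.μ s.1 / 2 + D.σ s.1 ^ 2 : ℝ) : ℂ) * U N A s * conj (U N A s) +
      ((deriv D.μ s.1 / 2 : ℝ) : ℂ) * Up N A s * conj (Up N A s) +
      (((1 / 2 * I) * (((deriv D.σ s.1 + D.σ s.1 * D.μ s.1 : ℝ) : ℂ) * Up N A s) *
          conj (U N A s)) +
        conj ((1 / 2 * I) * (((deriv D.σ s.1 + D.σ s.1 * D.μ s.1 : ℝ) : ℂ) * Up N A s) *
          conj (U N A s)))
  let E : ℝ × ℝ × ℝ → ℂ := fun s => Z s + conj (Z s) + Th s
  have tZ : Tame D Z := tn.pmul tβ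
  have tTh : Tame D Th := by
    have k1 : Tame D (fun s => ((deriv D.μ s.1 / 2 + D.σ s.1 ^ 2 : ℝ) : ℂ) * U N A s) :=
      Tame.Gs (m := fun x => deriv D.μ x / 2 + D.σ x ^ 2) ha1 hb1
        ((hμ'.div_const 2).add (hσ.pow 2)) N ca EP.gk
    have k2 : Tame D (fun s => ((deriv D.μ s.1 / 2 : ℝ) : ℂ) * Up N A s) :=
      Tame.Gs (m := fun x => deriv D.μ x / 2) ha1 hb1 (hμ'.div_const 2) N ca EP.g1
    have k3 : Tame D (fun s => ((deriv D.σ s.1 + D.σ s.1 * D.μ s.1 : ℝ) : ℂ) * Up N A s) :=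
      Tame.Gs (m := fun x => deriv D.σ x + D.σ x * D.μ x) ha1 hb1
        (hσ'.add (hσ.mul hμ)) N ca EP.g1
    have k4 := (k3.const_mul (1 / 2 * I)).mul tU
    exact ((k1.mul tU).add (k2.mul tUp)).add (k4.add k4.conj)
  have tE : Tame D E := (tZ.add tZ.conj).add tTh
  -- its integral is zero
  have hE0 : ∫ s in SS D, E s = 0 := by
    obtain ⟨h1, C, hC, h2⟩ := tE
    rw [SS_fubini D h1 C h2]
    have key : ∀ x φ, ∫ p in Ioi (0:ℝ), E (x, φ, p) = _ := fun x φ =>
      ((p_integral N (fun k => A k x φ) (fun k => deriv (fun x => A k x φ) x)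
        (fun k => deriv (fun φ => A k x φ) φ) (D.σ x) (deriv D.σ x) (D.μ x)
        (deriv D.μ x)).congr (g := fun p => E (x, φ, p)) (by
          intro p hp
          have hp' : (p : ℂ) ≠ 0 := by exact_mod_cast hp.ne'
          have hz : Z (x, φ, p) = nab D N A (x, φ, p) * conj (BB D N A (x, φ, p)) / (p : ℂ) := by
            simp only [Z, hn, hβ, map_mul, conj_ofReal]
            field_simp
          have hz' : nab D N A (x, φ, p) * conj (BB D N A (x, φ, p)) / (p : ℂ) =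
            (Gs N (fun k => deriv (fun x => A k x φ) x) gk p + I * (D.σ x : ℂ) * (p : ℂ) *
              Gs N (fun k => A k x φ) gk p) *
            conj (I * Gs N (fun k => deriv (fun φ => A k x φ) φ) gk p -
              Gs N (fun k => A k x φ) gk p + I * (D.σ x : ℂ) * (p : ℂ) *
              Gs N (fun k => A k x φ) g1 p +
              (D.μ x : ℂ) / 2 * (p : ℂ) * (Gs N (fun k => A k x φ) gk p -
              Gs N (fun k => A k x φ) g2 p)) / (p : ℂ) := rfl
          simp only [E, Th]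
          rw [hz, hz']
          simp only [eU, eUp, map_mul, map_div₀, conj_I, conj_ofReal, map_ofNat, map_one,
            conj_conj]
          push_cast
          ring)).2
    simp only [key]
    exact div_integral D N A hA a1 b1 ha1 hb1 hs _ _ _ _
  -- pointwise
  have hF1 : IntegrableOn (fun s => ‖BB D N A s - nab D N A s‖ ^ 2 / s.2.2) (SS D) := by
    have t1 : Tame D (fun s => β s + (-1) * n s) := tβ.add (tn.const_mul (-1))
    have h1 := (t1.pmul t1).integrableOn.re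
    refine IntegrableOn.congr_fun h1 (fun s hs' => ?_) (measurableSet_SS D)
    have hp : (0:ℝ) < s.2.2 := hs'.2.2
    rw [hn, hβ]
    change ((s.2.2 : ℂ) * ((β s + -1 * n s) * conj (β s + -1 * n s))).re = _
    rw [Complex.mul_conj, Complex.normSq_eq_norm_sq, ← ofReal_mul, ofReal_re,
      show (s.2.2 : ℂ) * β s - (s.2.2 : ℂ) * n s = (s.2.2 : ℂ) * (β s + -1 * n s) by ring,
      norm_mul, Complex.norm_real, Real.norm_eq_abs, abs_of_pos hp]
    field_simp
  have hpt : ∀ s ∈ SS D, ‖nab D N A s‖ ^ 2 / s.2.2 + ‖BB D N A s‖ ^ 2 / s.2.2 + Theta D N A s =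
      ‖BB D N A s - nab D N A s‖ ^ 2 / s.2.2 + (E s).re := by
    intro s hs'
    have hp : (0:ℝ) < s.2.2 := hs'.2.2
    have hZr : (Z s).re = (BB D N A s * conj (nab D N A s)).re / s.2.2 := by
      have e1 : (Z s).re = (conj (Z s)).re := (Complex.conj_re _).symm
      have e2 : conj (Z s) = BB D N A s * conj (nab D N A s) / ((s.2.2 : ℝ) : ℂ) := by
        have hp' : (s.2.2 : ℂ) ≠ 0 := by exact_mod_cast hp.ne'
        simp only [Z, hn, hβ, map_mul, conj_ofReal, conj_conj]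
        field_simp
      rw [e1, e2, Complex.div_ofReal_re]
    have hThr : (Th s).re = Theta D N A s := by
      unfold Theta
      simp only [Th]
      have q1 : ((deriv D.μ s.1 / 2 + D.σ s.1 ^ 2 : ℝ) : ℂ) * U N A s * conj (U N A s) =
          (((deriv D.μ s.1 / 2 + D.σ s.1 ^ 2) * ‖U N A s‖ ^ 2 : ℝ) : ℂ) := by
        rw [mul_assoc, Complex.mul_conj, Complex.normSq_eq_norm_sq, ← ofReal_mul]
      have q2 : ((deriv D.μ s.1 / 2 : ℝ) : ℂ) * Up N A s * conj (Up N A s) =
          ((deriv D.μ s.1 / 2 * ‖Up N A s‖ ^ 2 : ℝ) : ℂ) := by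
        rw [mul_assoc, Complex.mul_conj, Complex.normSq_eq_norm_sq, ← ofReal_mul]
      have q3 : (1 / 2 * I) * (((deriv D.σ s.1 + D.σ s.1 * D.μ s.1 : ℝ) : ℂ) * Up N A s) *
          conj (U N A s) = (((deriv D.σ s.1 + D.σ s.1 * D.μ s.1) / 2 : ℝ) : ℂ) *
            (I * Up N A s * conj (U N A s)) := by
        push_cast
        ring
      rw [q1, q2, q3]
      simp only [Complex.add_re, Complex.ofReal_re, Complex.conj_re, Complex.re_ofReal_mul]
      ring
    have hEr : (E s).re = 2 * (Z s).re + Theta D N A s := by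
      simp only [E, Complex.add_re, Complex.conj_re, hThr]
      ring
    rw [hEr, hZr, ← Complex.normSq_eq_norm_sq, ← Complex.normSq_eq_norm_sq,
      ← Complex.normSq_eq_norm_sq, Complex.normSq_sub]
    field_simp
    ring
  have hEre : ∫ s in SS D, (E s).re = 0 := by
    have h := integral_re (𝕜 := ℂ) tE.integrableOn
    have h' : ∫ s in SS D, (E s).re = (∫ s in SS D, E s).re := h
    rw [h', hE0]
    rfl
  rw [setIntegral_congr_fun (measurableSet_SS D) hpt]
  have hsum : ∫ s in SS D, (‖BB D N A s - nab D N A s‖ ^ 2 / s.2.2 + (E s).re) =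
      (∫ s in SS D, ‖BB D N A s - nab D N A s‖ ^ 2 / s.2.2) + ∫ s in SS D, (E s).re :=
    integral_add hF1 tE.integrableOn.re
  rw [hsum, hEre, add_zero]

end Pool.Agent.DbarN
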