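import Pool.Agent.DbarN.Prof

set_option autoImplicit false

/-!
# DBAR HARDY: one dimensional Hardy inequalities for polynomials times `exp (-p)`
-/

namespace Pool.Agent.DbarN

open MeasureTheory Complex Set Filter Topology
open scoped ComplexConjugate ContDiff

namespace Hardy

open Polynomial

/-- polynomial times `exp (-p)` -/
noncomputable def ev (P : ℂ[X]) (p : ℝ) : ℂ := P.eval (p : ℂ) * (Real.exp (-p) : ℂ)

theorem ev_hasDerivAt (P : ℂ[X]) (p : ℝ) : HasDerivAt (ev P) (ev (derivative P - P) p) p := by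
  unfold ev
  have h1 : HasDerivAt (fun p : ℝ => P.eval (p : ℂ)) ((derivative P).eval (p : ℂ)) p :=
    (P.hasDerivAt (p : ℂ)).comp_ofReal
  have h2 : HasDerivAt (fun p : ℝ => (Real.exp (-p) : ℂ)) (-(Real.exp (-p) : ℂ)) p := by
    have : HasDerivAt (fun p : ℝ => Real.exp (-p)) (-Real.exp (-p)) p := by
      simpa using (hasDerivAt_neg p).exp
    have h := this.ofReal_comp
    simpa using h
  refine (h1.fun_mul h2).congr_deriv ?_
  simp only [eval_sub]
  ring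

theorem ev_continuous (P : ℂ[X]) : Continuous (ev P) :=
  continuous_iff_continuousAt.2 fun p => (ev_hasDerivAt P p).continuousAt

/-- real majorant -/
noncomputable def maj (P : ℂ[X]) : ℝ[X] := ∑ i ∈ P.support, C ‖P.coeff i‖ * X ^ i

theorem norm_le_maj (P : ℂ[X]) {p : ℝ} (hp : 0 ≤ p) : ‖P.eval (p : ℂ)‖ ≤ (maj P).eval p := by
  rw [eval_eq_sum, Polynomial.sum, maj, eval_finsetSum]
  refine (norm_sum_le _ _).trans (Finset.sum_le_sum fun i _ => ?_)
  simp [abs_of_nonneg hp]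

theorem bound (P : ℂ[X]) (j : ℕ) {p : ℝ} (hp : 0 ≤ p) :
    ‖p ^ j * ‖ev P p‖ ^ 2‖ ≤ ((X ^ j * maj P ^ 2).eval p / Real.exp p) * Real.exp (-p) := by
  have h1 := norm_le_maj P hp
  have he : Real.exp (-p) = 1 / Real.exp p := by rw [Real.exp_neg, one_div]
  rw [Real.norm_of_nonneg (by positivity)]
  unfold ev
  rw [norm_mul, Complex.norm_real, Real.norm_of_nonneg (Real.exp_pos _).le, he, eval_mul, eval_pow,
    eval_pow, eval_X]
  have h2 : ‖P.eval (p : ℂ)‖ ^ 2 ≤ (maj P).eval p ^ 2 := by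
    exact pow_le_pow_left₀ (norm_nonneg _) h1 2
  have hE := Real.exp_pos p
  calc p ^ j * (‖P.eval (p : ℂ)‖ * (1 / Real.exp p)) ^ 2
      = p ^ j * (‖P.eval (p : ℂ)‖ ^ 2) * (1 / Real.exp p) ^ 2 := by ring
    _ ≤ p ^ j * ((maj P).eval p ^ 2) * (1 / Real.exp p) ^ 2 := by gcongr
    _ = _ := by ring

theorem isBigO (P : ℂ[X]) (j : ℕ) :
    (fun p : ℝ => p ^ j * ‖ev P p‖ ^ 2) =O[atTop] fun p => Real.exp (-(1 : ℝ) * p) := by
  have h := (X ^ j * maj P ^ 2 : ℝ[X]).tendsto_div_exp_atTop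
  have h1 : ∀ᶠ p : ℝ in atTop, (X ^ j * maj P ^ 2 : ℝ[X]).eval p / Real.exp p < 1 :=
    h.eventually (gt_mem_nhds zero_lt_one)
  refine Asymptotics.IsBigO.of_bound 1 ?_
  filter_upwards [h1, eventually_ge_atTop 0] with p hp hp0
  refine (bound P j hp0).trans ?_
  rw [one_mul, Real.norm_of_nonneg (Real.exp_pos _).le, show -(1 : ℝ) * p = -p by ring]
  nlinarith [Real.exp_pos (-p)]

theorem integrable (P : ℂ[X]) (j : ℕ) :
    IntegrableOn (fun p : ℝ => p ^ j * ‖ev P p‖ ^ 2) (Ioi 0) := by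
  refine integrable_of_isBigO_exp_neg (b := 1) zero_lt_one ?_ (isBigO P j)
  have := ev_continuous P
  fun_prop

theorem tendsto (P : ℂ[X]) (j : ℕ) :
    Tendsto (fun p : ℝ => p ^ j * ‖ev P p‖ ^ 2) atTop (𝓝 0) := by
  refine (isBigO P j).trans_tendsto ?_
  have : Tendsto (fun p : ℝ => -(1 : ℝ) * p) atTop atBot := by
    simpa using tendsto_neg_atTop_atBot
  exact Real.tendsto_exp_atBot.comp this

theorem integrable0 (P : ℂ[X]) : IntegrableOn (fun p : ℝ => ‖ev P p‖ ^ 2) (Ioi 0) := by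
  simpa using integrable P 0

/-- the classical Hardy inequality -/
theorem hardyA (Q : ℂ[X]) :
    ∫ p in Ioi (0 : ℝ), ‖ev Q p‖ ^ 2 ≤
      4 * ∫ p in Ioi (0 : ℝ), ‖ev (derivative (X * Q) - X * Q) p‖ ^ 2 := by
  set P : ℂ[X] := derivative (X * Q) - X * Q with hP
  set h : ℝ → ℝ := fun p => p * ‖ev Q p‖ ^ 2 with hh
  set h' : ℝ → ℝ := fun p => ‖ev Q p‖ ^ 2 + p * (2 * inner ℝ (ev Q p) (ev (derivative Q - Q) p))
    with hh'
  have hP2 : ∀ p : ℝ, ev P p = ev Q p + (p : ℂ) * ev (derivative Q - Q) p := by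
    intro p
    simp only [ev, hP, derivative_mul, derivative_X, eval_sub, eval_add, eval_mul, eval_X, one_mul]
    ring
  have hder : ∀ p : ℝ, HasDerivAt h (h' p) p := by
    intro p
    have h2 : HasDerivAt (fun p => ‖ev Q p‖ ^ 2) (2 * inner ℝ (ev Q p) (ev (derivative Q - Q) p)) p :=
      (ev_hasDerivAt Q p).norm_sq
    refine ((hasDerivAt_id' p).fun_mul h2).congr_deriv ?_
    simp [hh']
  have hpt : ∀ p : ℝ, h' p = 2 * inner ℝ (ev Q p) (ev P p) - ‖ev Q p‖ ^ 2 := by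
    intro p
    rw [hP2, inner_add_right, real_inner_self_eq_norm_sq]
    have : (p : ℂ) * ev (derivative Q - Q) p = p • ev (derivative Q - Q) p := by
      rw [Complex.real_smul]
    rw [this, inner_smul_right, hh']
    ring
  have hcont : Continuous (fun p => (inner ℝ (ev Q p) (ev P p) : ℝ)) :=
    (ev_continuous Q).inner (ev_continuous P)
  have hI1 := integrable0 Q
  have hI2 := integrable0 P
  have hIin : IntegrableOn (fun p => (inner ℝ (ev Q p) (ev P p) : ℝ)) (Ioi 0) := by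
    refine Integrable.mono' (hI1.add hI2) hcont.aestronglyMeasurable (ae_of_all _ fun p => ?_)
    rw [Pi.add_apply, Real.norm_eq_abs]
    refine (abs_real_inner_le_norm _ _).trans ?_
    nlinarith [sq_nonneg (‖ev Q p‖ - ‖ev P p‖), sq_nonneg (‖ev Q p‖), sq_nonneg (‖ev P p‖)]
  have hh'int : IntegrableOn h' (Ioi 0) := by
    have : h' = fun p => 2 * inner ℝ (ev Q p) (ev P p) - ‖ev Q p‖ ^ 2 := funext hpt
    rw [this]
    exact (hIin.const_mul 2).sub hI1
  have hzero : ∫ p in Ioi (0 : ℝ), h' p = 0 := by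
    have h0 := integral_Ioi_of_hasDerivAt_of_tendsto (a := 0) (f := h) (f' := h') (m := 0)
      (hder 0).continuousAt.continuousWithinAt (fun p _ => hder p) hh'int
      (by simpa [hh] using tendsto Q 1)
    rw [h0]
    simp [hh]
  have hle : ∀ p : ℝ, (1 / 2) * ‖ev Q p‖ ^ 2 + h' p ≤ 2 * ‖ev P p‖ ^ 2 := by
    intro p
    rw [hpt]
    have := real_inner_le_norm (ev Q p) (ev P p)
    nlinarith [sq_nonneg (‖ev Q p‖ - 2 * ‖ev P p‖)]
  have hmono : ∫ p in Ioi (0 : ℝ), ((1 / 2) * ‖ev Q p‖ ^ 2 + h' p) ≤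
      ∫ p in Ioi (0 : ℝ), 2 * ‖ev P p‖ ^ 2 :=
    integral_mono ((hI1.const_mul _).add hh'int) (hI2.const_mul _) hle
  rw [integral_add (hI1.const_mul _) hh'int, hzero, integral_const_mul, integral_const_mul] at hmono
  linarith

theorem norm_X_mul (Q : ℂ[X]) {p : ℝ} (hp : 0 < p) : ‖ev (X * Q) p‖ = p * ‖ev Q p‖ := by
  simp only [ev, eval_mul, eval_X, norm_mul, Complex.norm_real, Real.norm_eq_abs, abs_of_pos hp]
  ring

theorem hardyB (Q : ℂ[X]) :
    ∫ p in Ioi (0 : ℝ), ‖ev (X * Q) p‖ ^ 2 / p ≤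
      (∫ p in Ioi (0 : ℝ), ‖ev (X * Q) p‖ ^ 2) +
        ∫ p in Ioi (0 : ℝ), ‖ev (derivative (X * Q) - X * Q) p‖ ^ 2 := by
  have h1 := hardyA Q
  have hI1 := integrable0 Q
  have hI2 := integrable0 (X * Q)
  have hle : ∫ p in Ioi (0 : ℝ), ‖ev (X * Q) p‖ ^ 2 / p ≤
      ∫ p in Ioi (0 : ℝ), (‖ev (X * Q) p‖ ^ 2 + (1 / 4) * ‖ev Q p‖ ^ 2) := by
    refine setIntegral_mono_on ?_ (hI2.add (hI1.const_mul _)) measurableSet_Ioi ?_
    · refine (integrable Q 1).congr_fun (fun p hp => ?_) measurableSet_Ioi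
      have hp : 0 < p := hp
      simp only [norm_X_mul Q hp]
      field_simp
    · intro p hp
      have hp : 0 < p := hp
      rw [norm_X_mul Q hp]
      have : (p * ‖ev Q p‖) ^ 2 / p = p * ‖ev Q p‖ ^ 2 := by field_simp
      rw [this]
      nlinarith [mul_nonneg (sq_nonneg (2 * p - 1)) (sq_nonneg ‖ev Q p‖)]
  rw [integral_add hI2 (hI1.const_mul _), integral_const_mul] at hle
  linarith

theorem parts (Q : ℂ[X]) :
    ∫ p in Ioi (0 : ℝ), ‖ev (derivative (X * Q)) p‖ ^ 2 =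
      (∫ p in Ioi (0 : ℝ), ‖ev (derivative (X * Q) - X * Q) p‖ ^ 2) +
        ∫ p in Ioi (0 : ℝ), ‖ev (X * Q) p‖ ^ 2 := by
  set V : ℂ[X] := X * Q with hV
  set W : ℂ[X] := derivative V - V with hW
  have hsum : ∀ p : ℝ, ev (derivative V) p = ev W p + ev V p := by
    intro p
    simp only [ev, hW, eval_sub]
    ring
  have hI1 := integrable0 V
  have hI2 := integrable0 W
  have hcont : Continuous (fun p => (inner ℝ (ev V p) (ev W p) : ℝ)) :=
    (ev_continuous V).inner (ev_continuous W)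
  have hIin : IntegrableOn (fun p => (inner ℝ (ev V p) (ev W p) : ℝ)) (Ioi 0) := by
    refine Integrable.mono' (hI1.add hI2) hcont.aestronglyMeasurable (ae_of_all _ fun p => ?_)
    rw [Pi.add_apply, Real.norm_eq_abs]
    refine (abs_real_inner_le_norm _ _).trans ?_
    nlinarith [sq_nonneg (‖ev V p‖ - ‖ev W p‖), sq_nonneg (‖ev V p‖), sq_nonneg (‖ev W p‖)]
  have hder : ∀ p : ℝ, HasDerivAt (fun p => ‖ev V p‖ ^ 2) (2 * inner ℝ (ev V p) (ev W p)) p :=
    fun p => (ev_hasDerivAt V p).norm_sq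
  have hzero : ∫ p in Ioi (0 : ℝ), 2 * (inner ℝ (ev V p) (ev W p) : ℝ) = 0 := by
    have h0 := integral_Ioi_of_hasDerivAt_of_tendsto (a := 0) (f := fun p => ‖ev V p‖ ^ 2)
      (f' := fun p => 2 * (inner ℝ (ev V p) (ev W p) : ℝ)) (m := 0)
      (hder 0).continuousAt.continuousWithinAt (fun p _ => hder p) (hIin.const_mul 2)
      (by simpa using tendsto V 0)
    rw [h0]
    simp [ev, hV]
  have hpt : ∀ p : ℝ, ‖ev (derivative V) p‖ ^ 2 =
      (‖ev W p‖ ^ 2 + ‖ev V p‖ ^ 2) + 2 * (inner ℝ (ev V p) (ev W p) : ℝ) := by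
    intro p
    rw [hsum, norm_add_sq_real, real_inner_comm]
    ring
  simp_rw [hpt]
  have e1 : ∫ p in Ioi (0 : ℝ), (‖ev W p‖ ^ 2 + ‖ev V p‖ ^ 2 +
      2 * (inner ℝ (ev V p) (ev W p) : ℝ)) =
      (∫ p in Ioi (0 : ℝ), (‖ev W p‖ ^ 2 + ‖ev V p‖ ^ 2)) +
        ∫ p in Ioi (0 : ℝ), 2 * (inner ℝ (ev V p) (ev W p) : ℝ) :=
    integral_add (hI2.add hI1) (hIin.const_mul 2)
  rw [e1, hzero, add_zero, integral_add hI2 hI1]

/-- coefficient -/
noncomputable def ck (k : ℕ) : ℝ := Real.sqrt Real.pi * 2 ^ (k + 1) / (k + 1).factorial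

/-- `∑ a_k g_k = X * QQ` -/
noncomputable def QQ (N : ℕ) (a : ℕ → ℂ) : ℂ[X] :=
  ∑ k ∈ Finset.range N, C (a k * (ck k : ℂ)) * X ^ k

theorem gk_eq (k : ℕ) (p : ℝ) : gk k p = ck k * p ^ (k + 1) * Real.exp (-p) := by
  unfold gk ck
  ring

theorem ev_QQ (N : ℕ) (a : ℕ → ℂ) (p : ℝ) :
    ∑ k ∈ Finset.range N, a k * (gk k p : ℂ) = ev (X * QQ N a) p := by
  unfold ev QQ
  rw [eval_mul, eval_finsetSum, eval_X, Finset.mul_sum, Finset.sum_mul]
  refine Finset.sum_congr rfl fun k _ => ?_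
  rw [gk_eq]
  simp only [eval_mul, eval_C, eval_pow, eval_X]
  push_cast
  ring

theorem deriv_gk (k : ℕ) (p : ℝ) : HasDerivAt (gk k)
    (ck k * ((k + 1) * p ^ k - p ^ (k + 1)) * Real.exp (-p)) p := by
  have h1 : HasDerivAt (fun p : ℝ => p ^ (k + 1)) ((k + 1) * p ^ k) p := by
    simpa using hasDerivAt_pow (k + 1) p
  have h2 : HasDerivAt (fun p : ℝ => Real.exp (-p)) (-Real.exp (-p)) p := by
    simpa using (hasDerivAt_neg p).exp
  have h3 := (h1.const_mul (ck k)).fun_mul h2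
  have h4 : gk k = fun p => ck k * p ^ (k + 1) * Real.exp (-p) := funext (gk_eq k)
  rw [h4]
  refine h3.congr_deriv ?_
  ring

theorem ev_QQ' (N : ℕ) (a : ℕ → ℂ) (p : ℝ) :
    ∑ k ∈ Finset.range N, a k * ((deriv (gk k) p : ℝ) : ℂ) =
      ev (derivative (X * QQ N a) - X * QQ N a) p := by
  have h1 : HasDerivAt (fun p : ℝ => ∑ k ∈ Finset.range N, a k * (gk k p : ℂ))
      (∑ k ∈ Finset.range N, a k * ((deriv (gk k) p : ℝ) : ℂ)) p := by
    apply HasDerivAt.fun_sum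
    intro k _
    have := (deriv_gk k p).differentiableAt.hasDerivAt.ofReal_comp
    exact this.const_mul (a k)
  have h2 : (fun p : ℝ => ∑ k ∈ Finset.range N, a k * (gk k p : ℂ)) = ev (X * QQ N a) :=
    funext (ev_QQ N a)
  rw [h2] at h1
  exact h1.unique (ev_hasDerivAt _ p)

end Hardy

open Hardy

theorem hardy1 (N : ℕ) (a : ℕ → ℂ) :
    ∫ p in Ioi (0 : ℝ), ‖∑ k ∈ Finset.range N, a k * (gk k p : ℂ)‖ ^ 2 / p ^ 2 ≤
      4 * ∫ p in Ioi (0 : ℝ),
        ‖∑ k ∈ Finset.range N, a k * ((deriv (gk k) p : ℝ) : ℂ)‖ ^ 2 := by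
  simp_rw [ev_QQ, ev_QQ']
  refine le_trans (le_of_eq ?_) (hardyA (QQ N a))
  refine setIntegral_congr_fun measurableSet_Ioi fun p hp => ?_
  have hp : 0 < p := hp
  simp only [norm_X_mul _ hp]
  field_simp

theorem hardy2 (N : ℕ) (a : ℕ → ℂ) :
    ∫ p in Ioi (0 : ℝ), ‖∑ k ∈ Finset.range N, a k * (gk k p : ℂ)‖ ^ 2 / p ≤
      (∫ p in Ioi (0 : ℝ), ‖∑ k ∈ Finset.range N, a k * (gk k p : ℂ)‖ ^ 2) +
      ∫ p in Ioi (0 : ℝ),
        ‖∑ k ∈ Finset.range N, a k * ((deriv (gk k) p : ℝ) : ℂ)‖ ^ 2 := by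
  simp_rw [ev_QQ, ev_QQ']
  exact hardyB (QQ N a)

theorem hardy3 (N : ℕ) (a : ℕ → ℂ) :
    ∫ p in Ioi (0 : ℝ), ‖∑ k ∈ Finset.range N, a k * (gk (k + 1) p : ℂ)‖ ^ 2 / p ≤
      4 * ∫ p in Ioi (0 : ℝ), ‖∑ k ∈ Finset.range N, a k * (gk k p : ℂ)‖ ^ 2 := by
  set b : ℕ → ℂ := fun k => if k = 0 then 0 else a (k - 1) with hb
  have hV : ∀ p : ℝ, ∑ k ∈ Finset.range N, a k * (gk (k + 1) p : ℂ) =
      ∑ k ∈ Finset.range (N + 1), b k * (gk k p : ℂ) := by
    intro p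
    rw [Finset.sum_range_succ']
    simp [hb]
  have hV' : ∀ p : ℝ, 2 * ∑ k ∈ Finset.range N, a k * (gk k p : ℂ) =
      Hardy.ev (Polynomial.derivative (Polynomial.X * QQ (N + 1) b)) p := by
    intro p
    have h1 : Hardy.ev (Polynomial.derivative (Polynomial.X * QQ (N + 1) b)) p =
        (∑ k ∈ Finset.range (N + 1), b k * ((deriv (gk k) p : ℝ) : ℂ)) +
          ∑ k ∈ Finset.range (N + 1), b k * (gk k p : ℂ) := by
      rw [ev_QQ, ev_QQ']
      simp only [Hardy.ev, Polynomial.eval_sub]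
      ring
    rw [h1, ← Finset.sum_add_distrib, Finset.sum_range_succ', Finset.mul_sum]
    simp only [hb, if_true, zero_mul, add_zero, Nat.add_eq_zero_iff, one_ne_zero, and_false,
      if_false, Nat.add_sub_cancel]
    refine Finset.sum_congr rfl fun k _ => ?_
    rw [(deriv_gk (k + 1) p).deriv, gk_eq, gk_eq, ← mul_add, mul_left_comm]
    congr 1
    have hc : ck (k + 1) * ((k : ℝ) + 2) = 2 * ck k := by
      unfold ck
      rw [Nat.factorial_succ (k + 1)]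
      have : ((k + 1).factorial : ℝ) ≠ 0 := by exact_mod_cast (Nat.factorial_pos _).ne'
      have h2 : ((k : ℝ) + 2) ≠ 0 := by positivity
      push_cast
      rw [show ((k : ℝ) + 1 + 1) = (k : ℝ) + 2 by ring]
      field_simp
      ring
    have : (ck (k + 1) * ((((k + 1 : ℕ) : ℝ) + 1) * p ^ (k + 1) - p ^ (k + 1 + 1)) * Real.exp (-p)) +
        ck (k + 1) * p ^ (k + 1 + 1) * Real.exp (-p) = 2 * (ck k * p ^ (k + 1) * Real.exp (-p)) := by
      push_cast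
      linear_combination (p ^ (k + 1) * Real.exp (-p)) * hc
    exact_mod_cast this.symm
  have h2 := hardyB (QQ (N + 1) b)
  have h3 := parts (QQ (N + 1) b)
  simp_rw [hV, ev_QQ (N + 1) b]
  have h4 : 4 * ∫ p in Ioi (0 : ℝ), ‖∑ k ∈ Finset.range N, a k * (gk k p : ℂ)‖ ^ 2 =
      ∫ p in Ioi (0 : ℝ), ‖Hardy.ev (Polynomial.derivative (Polynomial.X * QQ (N + 1) b)) p‖ ^ 2 := by
    rw [← integral_const_mul]
    refine integral_congr_ae (ae_of_all _ fun p => ?_)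
    simp only [← hV', norm_mul, mul_pow]
    norm_num
  rw [h4, h3]
  linarith

end Pool.Agent.DbarN
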