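import Pool.Agent.DbarN.LAGbase
import Pool.Agent.DbarN.HARDY

set_option autoImplicit false

/-!
# The pointwise (in `x, φ`) inequality on the Laguerre side (used by LAG)
-/

namespace Pool.Agent.DbarN

open MeasureTheory Complex Set
open scoped ComplexConjugate ContDiff

theorem lg_lin5 {f1 f2 f3 f4 f5 : ℝ → ℝ} (i1 : IntegrableOn f1 (Ioi 0))
    (i2 : IntegrableOn f2 (Ioi 0)) (i3 : IntegrableOn f3 (Ioi 0)) (i4 : IntegrableOn f4 (Ioi 0))
    (i5 : IntegrableOn f5 (Ioi 0)) (c1 c2 c3 c4 c5 : ℝ) :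
    ∫ p in Ioi (0 : ℝ), (c1 * f1 p + c2 * f2 p + (c3 * f3 p + c4 * f4 p + c5 * f5 p)) =
      c1 * (∫ p in Ioi (0 : ℝ), f1 p) + c2 * (∫ p in Ioi (0 : ℝ), f2 p) +
      (c3 * (∫ p in Ioi (0 : ℝ), f3 p) + c4 * (∫ p in Ioi (0 : ℝ), f4 p)
        + c5 * (∫ p in Ioi (0 : ℝ), f5 p)) := by
  have j1 : Integrable (fun p => c1 * f1 p) (volume.restrict (Ioi (0 : ℝ))) := i1.const_mul _
  have j2 : Integrable (fun p => c2 * f2 p) (volume.restrict (Ioi (0 : ℝ))) := i2.const_mul _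
  have j3 : Integrable (fun p => c3 * f3 p) (volume.restrict (Ioi (0 : ℝ))) := i3.const_mul _
  have j4 : Integrable (fun p => c4 * f4 p) (volume.restrict (Ioi (0 : ℝ))) := i4.const_mul _
  have j5 : Integrable (fun p => c5 * f5 p) (volume.restrict (Ioi (0 : ℝ))) := i5.const_mul _
  have j12 : Integrable (fun p => c1 * f1 p + c2 * f2 p) (volume.restrict (Ioi (0 : ℝ))) :=
    j1.add j2
  have j34 : Integrable (fun p => c3 * f3 p + c4 * f4 p) (volume.restrict (Ioi (0 : ℝ))) :=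
    j3.add j4
  have j345 : Integrable (fun p => c3 * f3 p + c4 * f4 p + c5 * f5 p)
    (volume.restrict (Ioi (0 : ℝ))) := j34.add j5
  rw [integral_add j12 j345, integral_add j1 j2, integral_add j34 j5, integral_add j3 j4]
  simp only [integral_const_mul]

theorem lg_lin2 {f1 f2 : ℝ → ℝ} (i1 : IntegrableOn f1 (Ioi 0))
    (i2 : IntegrableOn f2 (Ioi 0)) (c1 c2 : ℝ) :
    ∫ p in Ioi (0 : ℝ), (c1 * f1 p + c2 * f2 p) =
      c1 * (∫ p in Ioi (0 : ℝ), f1 p) + c2 * (∫ p in Ioi (0 : ℝ), f2 p) := by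
  have j1 : Integrable (fun p => c1 * f1 p) (volume.restrict (Ioi (0 : ℝ))) := i1.const_mul _
  have j2 : Integrable (fun p => c2 * f2 p) (volume.restrict (Ioi (0 : ℝ))) := i2.const_mul _
  rw [integral_add j1 j2]
  simp only [integral_const_mul]

section
variable (N : ℕ) (a : ℕ → ℂ)

/-- one-variable bounds -/
theorem lg_bd1 : ∃ (C : ℝ), 0 ≤ C ∧ ∀ p > 0,
    ‖∑ k ∈ Finset.range N, a k * (gk k p : ℂ)‖ ≤ C * (p * (1 + p) ^ (N + 1) * Real.exp (-p)) ∧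
    ‖∑ k ∈ Finset.range N, a k * ((deriv (gk k) p : ℝ) : ℂ)‖ ≤
      C * ((1 + p) ^ (N + 1) * Real.exp (-p)) ∧
    ‖∑ k ∈ Finset.range N, a k * (gk (k + 1) p : ℂ)‖ ≤
      C * (p * (1 + p) ^ (N + 1) * Real.exp (-p)) := by
  have mono : ∀ {p : ℝ} {k L : ℕ}, 0 < p → k ≤ L → (1 + p) ^ k ≤ (1 + p) ^ L :=
    fun hp h => pow_le_pow_right₀ (by linarith) h
  set M : ℝ := ∑ k ∈ Finset.range N, ‖a k‖ with hM
  have hMb : ∀ i ∈ Finset.range N, ‖a i‖ ≤ M := fun i hi =>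
    Finset.single_le_sum (f := fun k => ‖a k‖) (fun _ _ => norm_nonneg _) hi
  obtain ⟨C1, h1, H1⟩ := lg_sum_bd (Finset.range N) a (fun k p => gk k p)
    (fun p => p * (1 + p) ^ (N + 1) * Real.exp (-p)) (fun p hp => by positivity)
    (fun k hk => by
      obtain ⟨C, hC, h⟩ := lg_bd k
      refine ⟨C, hC, fun p hp => ((h p hp.le).1).trans ?_⟩
      have := mono hp (show k + 1 ≤ N + 1 by have := Finset.mem_range.1 hk; omega)
      calc C * p * (1 + p) ^ (k + 1) * Real.exp (-p)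
          = C * (p * (1 + p) ^ (k + 1) * Real.exp (-p)) := by ring
        _ ≤ _ := by gcongr) M
  obtain ⟨C2, h2, H2⟩ := lg_sum_bd (Finset.range N) a (fun k p => deriv (gk k) p)
    (fun p => (1 + p) ^ (N + 1) * Real.exp (-p)) (fun p hp => by positivity)
    (fun k hk => by
      obtain ⟨C, hC, h⟩ := lg_bd k
      refine ⟨C, hC, fun p hp => ((h p hp.le).2.1).trans ?_⟩
      have := mono hp (show k + 1 ≤ N + 1 by have := Finset.mem_range.1 hk; omega)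
      calc C * (1 + p) ^ (k + 1) * Real.exp (-p)
          = C * ((1 + p) ^ (k + 1) * Real.exp (-p)) := by ring
        _ ≤ _ := by gcongr) M
  obtain ⟨C3, h3, H3⟩ := lg_sum_bd (Finset.range N) a (fun k p => gk (k + 1) p)
    (fun p => p * (1 + p) ^ (N + 1) * Real.exp (-p)) (fun p hp => by positivity)
    (fun k hk => by
      obtain ⟨C, hC, h⟩ := lg_bd (k + 1)
      refine ⟨C, hC, fun p hp => ((h p hp.le).1).trans ?_⟩
      have := mono hp (show k + 1 + 1 ≤ N + 1 by have := Finset.mem_range.1 hk; omega)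
      calc C * p * (1 + p) ^ (k + 1 + 1) * Real.exp (-p)
          = C * (p * (1 + p) ^ (k + 1 + 1) * Real.exp (-p)) := by ring
        _ ≤ _ := by gcongr) M
  refine ⟨C1 + C2 + C3, by positivity, fun p hp => ⟨?_, ?_, ?_⟩⟩
  · refine (H1 p hp a hMb).trans ?_
    gcongr
    linarith
  · refine (H2 p hp a hMb).trans ?_
    gcongr
    linarith
  · refine (H3 p hp a hMb).trans ?_
    gcongr
    linarith

theorem lg_contU : Continuous (fun p : ℝ => ∑ k ∈ Finset.range N, a k * (gk k p : ℂ)) :=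
  continuous_finsetSum _ fun k _ => continuous_const.mul
    (Complex.continuous_ofReal.comp (lg_cont k))

theorem lg_contUp : Continuous
    (fun p : ℝ => ∑ k ∈ Finset.range N, a k * ((deriv (gk k) p : ℝ) : ℂ)) :=
  continuous_finsetSum _ fun k _ => continuous_const.mul
    (Complex.continuous_ofReal.comp (lg_cont1 k))

theorem lg_contV : Continuous (fun p : ℝ => ∑ k ∈ Finset.range N, a k * (gk (k + 1) p : ℂ)) :=
  continuous_finsetSum _ fun k _ => continuous_const.mul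
    (Complex.continuous_ofReal.comp (lg_cont (k + 1)))

/-- integrability in `p` -/
theorem lg_int_all :
    IntegrableOn (fun p : ℝ => ‖∑ k ∈ Finset.range N, a k * (gk k p : ℂ)‖ ^ 2) (Ioi 0) ∧
    IntegrableOn (fun p : ℝ => ‖∑ k ∈ Finset.range N, a k * ((deriv (gk k) p : ℝ) : ℂ)‖ ^ 2)
      (Ioi 0) ∧
    IntegrableOn (fun p : ℝ => ‖∑ k ∈ Finset.range N, a k * (gk k p : ℂ)‖ ^ 2 / p) (Ioi 0) ∧
    IntegrableOn (fun p : ℝ => ‖∑ k ∈ Finset.range N, a k * (gk k p : ℂ)‖ ^ 2 / p ^ 2) (Ioi 0) ∧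
    IntegrableOn (fun p : ℝ => ‖∑ k ∈ Finset.range N, a k * (gk (k + 1) p : ℂ)‖ ^ 2 / p)
      (Ioi 0) ∧
    IntegrableOn (fun p : ℝ => (I * (∑ k ∈ Finset.range N, a k * ((deriv (gk k) p : ℝ) : ℂ)) *
      conj (∑ k ∈ Finset.range N, a k * (gk k p : ℂ))).re) (Ioi 0) := by
  obtain ⟨C, hC, hb⟩ := lg_bd1 N a
  have hsq : ∀ p : ℝ, Real.exp (-p) * Real.exp (-p) = Real.exp (-(2 * p)) := fun p => by
    rw [← Real.exp_add]; congr 1; ring
  have hone : ∀ {p : ℝ}, 0 < p → p ≤ 1 + p := fun hp => by linarith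
  have hU := (lg_contU N a).continuousOn (s := Ioi (0 : ℝ))
  have hUp := (lg_contUp N a).continuousOn (s := Ioi (0 : ℝ))
  have hV := (lg_contV N a).continuousOn (s := Ioi (0 : ℝ))
  have hne : ∀ p ∈ Ioi (0 : ℝ), p ≠ 0 := fun p hp => (show (0 : ℝ) < p from hp).ne'
  refine ⟨?_, ?_, ?_, ?_, ?_, ?_⟩
  · refine lg_int1 _ (hU.norm.pow 2) (C ^ 2) (2 * (N + 1) + 2) fun p hp => ?_
    rw [abs_of_nonneg (sq_nonneg _)]
    calc _ ≤ (C * (p * (1 + p) ^ (N + 1) * Real.exp (-p))) ^ 2 :=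
          pow_le_pow_left₀ (norm_nonneg _) (hb p hp).1 2
      _ = C ^ 2 * (p ^ 2 * (1 + p) ^ (2 * (N + 1))) * (Real.exp (-p) * Real.exp (-p)) := by ring
      _ ≤ C ^ 2 * ((1 + p) ^ 2 * (1 + p) ^ (2 * (N + 1))) * (Real.exp (-p) * Real.exp (-p)) := by
          have := hone hp
          gcongr
      _ = _ := by rw [hsq]; ring
  · refine lg_int1 _ (hUp.norm.pow 2) (C ^ 2) (2 * (N + 1)) fun p hp => ?_
    rw [abs_of_nonneg (sq_nonneg _)]
    calc _ ≤ (C * ((1 + p) ^ (N + 1) * Real.exp (-p))) ^ 2 :=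
          pow_le_pow_left₀ (norm_nonneg _) (hb p hp).2.1 2
      _ = C ^ 2 * ((1 + p) ^ (2 * (N + 1))) * (Real.exp (-p) * Real.exp (-p)) := by ring
      _ = _ := by rw [hsq]
  · refine lg_int1 _ ((hU.norm.pow 2).div continuousOn_id hne) (C ^ 2) (2 * (N + 1) + 1)
      fun p hp => ?_
    rw [abs_div, abs_of_nonneg (sq_nonneg _), abs_of_pos (show (0:ℝ) < p from hp),
      div_le_iff₀ (show (0:ℝ) < p from hp)]
    calc _ ≤ (C * (p * (1 + p) ^ (N + 1) * Real.exp (-p))) ^ 2 :=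
          pow_le_pow_left₀ (norm_nonneg _) (hb p hp).1 2
      _ = C ^ 2 * (p * (1 + p) ^ (2 * (N + 1))) * (Real.exp (-p) * Real.exp (-p)) * p := by ring
      _ ≤ C ^ 2 * ((1 + p) * (1 + p) ^ (2 * (N + 1))) * (Real.exp (-p) * Real.exp (-p)) * p := by
          have := hone hp
          gcongr
      _ = _ := by rw [hsq]; ring
  · refine lg_int1 _ ((hU.norm.pow 2).div (continuousOn_id.pow 2) fun p hp => pow_ne_zero 2 (hne p hp))
      (C ^ 2) (2 * (N + 1)) fun p hp => ?_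
    rw [abs_div, abs_of_nonneg (sq_nonneg _)]
    have hp2 : (0 : ℝ) < p ^ 2 := pow_pos hp 2
    rw [abs_of_pos hp2, div_le_iff₀ hp2]
    calc _ ≤ (C * (p * (1 + p) ^ (N + 1) * Real.exp (-p))) ^ 2 :=
          pow_le_pow_left₀ (norm_nonneg _) (hb p hp).1 2
      _ = C ^ 2 * ((1 + p) ^ (2 * (N + 1))) * (Real.exp (-p) * Real.exp (-p)) * p ^ 2 := by ring
      _ = _ := by rw [hsq]
  · refine lg_int1 _ ((hV.norm.pow 2).div continuousOn_id hne) (C ^ 2) (2 * (N + 1) + 1)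
      fun p hp => ?_
    rw [abs_div, abs_of_nonneg (sq_nonneg _), abs_of_pos (show (0:ℝ) < p from hp),
      div_le_iff₀ (show (0:ℝ) < p from hp)]
    calc _ ≤ (C * (p * (1 + p) ^ (N + 1) * Real.exp (-p))) ^ 2 :=
          pow_le_pow_left₀ (norm_nonneg _) (hb p hp).2.2 2
      _ = C ^ 2 * (p * (1 + p) ^ (2 * (N + 1))) * (Real.exp (-p) * Real.exp (-p)) * p := by ring
      _ ≤ C ^ 2 * ((1 + p) * (1 + p) ^ (2 * (N + 1))) * (Real.exp (-p) * Real.exp (-p)) * p := by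
          have := hone hp
          gcongr
      _ = _ := by rw [hsq]; ring
  · refine lg_int1 _ (Complex.continuous_re.comp_continuousOn ((continuousOn_const.mul hUp).mul
      (Complex.continuous_conj.comp_continuousOn hU))) (C ^ 2) (2 * (N + 1) + 1)
      fun p hp => ?_
    refine (Complex.abs_re_le_norm _).trans ?_
    rw [norm_mul, norm_mul, Complex.norm_I, one_mul, RCLike.norm_conj]
    calc _ ≤ (C * ((1 + p) ^ (N + 1) * Real.exp (-p))) *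
          (C * (p * (1 + p) ^ (N + 1) * Real.exp (-p))) :=
          mul_le_mul (hb p hp).2.1 (hb p hp).1 (norm_nonneg _) (by have := hp.lt; positivity)
      _ = C ^ 2 * (p * (1 + p) ^ (2 * (N + 1))) * (Real.exp (-p) * Real.exp (-p)) := by ring
      _ ≤ C ^ 2 * ((1 + p) * (1 + p) ^ (2 * (N + 1))) * (Real.exp (-p) * Real.exp (-p)) := by
          have := hone hp
          gcongr
      _ = _ := by rw [hsq]; ring

/-- the fibrewise inequality -/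
theorem lg_pw {R σ μ m X : ℝ} (hR : R ^ 2 ≤ 1 / 144) (hμ : μ ^ 2 ≤ m / 2)
    (hX : X ^ 2 ≤ (m / 2) * (m / 2 + σ ^ 2)) :
    ∫ p in Ioi (0 : ℝ),
      ((4 * R ^ 2 * σ ^ 2 * ‖∑ k ∈ Finset.range N, a k * (gk (k + 1) p : ℂ)‖ ^ 2 / p +
        4 * R ^ 2 * μ ^ 2 * ‖∑ k ∈ Finset.range N, a k * (gk k p : ℂ)‖ ^ 2 / p) +
       ((m / 32) * (4 * p + 1 / p) * ‖∑ k ∈ Finset.range N, a k * (gk k p : ℂ)‖ ^ 2 / p +
        σ ^ 2 / 4 * ‖∑ k ∈ Finset.range N, a k * (gk k p : ℂ)‖ ^ 2)) ≤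
    ∫ p in Ioi (0 : ℝ),
      ((m / 2 + σ ^ 2) * ‖∑ k ∈ Finset.range N, a k * (gk k p : ℂ)‖ ^ 2 +
        m / 2 * ‖∑ k ∈ Finset.range N, a k * ((deriv (gk k) p : ℝ) : ℂ)‖ ^ 2 +
        X * (I * (∑ k ∈ Finset.range N, a k * ((deriv (gk k) p : ℝ) : ℂ)) *
          conj (∑ k ∈ Finset.range N, a k * (gk k p : ℂ))).re) := by
  obtain ⟨i1, i2, i3, i4, i5, i6⟩ := lg_int_all N a
  have h1 := hardy1 N a
  have h2 := hardy2 N a
  have h3 := hardy3 N a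
  set IU := ∫ p in Ioi (0 : ℝ), ‖∑ k ∈ Finset.range N, a k * (gk k p : ℂ)‖ ^ 2 with hIU
  set IUp := ∫ p in Ioi (0 : ℝ), ‖∑ k ∈ Finset.range N, a k * ((deriv (gk k) p : ℝ) : ℂ)‖ ^ 2
    with hIUp
  have hm : 0 ≤ m := by nlinarith [sq_nonneg μ]
  have hIU0 : 0 ≤ IU := integral_nonneg fun p => sq_nonneg _
  have hIUp0 : 0 ≤ IUp := integral_nonneg fun p => sq_nonneg _
  -- left side
  have hL : ∫ p in Ioi (0 : ℝ),
      ((4 * R ^ 2 * σ ^ 2 * ‖∑ k ∈ Finset.range N, a k * (gk (k + 1) p : ℂ)‖ ^ 2 / p +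
        4 * R ^ 2 * μ ^ 2 * ‖∑ k ∈ Finset.range N, a k * (gk k p : ℂ)‖ ^ 2 / p) +
       ((m / 32) * (4 * p + 1 / p) * ‖∑ k ∈ Finset.range N, a k * (gk k p : ℂ)‖ ^ 2 / p +
        σ ^ 2 / 4 * ‖∑ k ∈ Finset.range N, a k * (gk k p : ℂ)‖ ^ 2)) =
      4 * R ^ 2 * σ ^ 2 *
        (∫ p in Ioi (0 : ℝ), ‖∑ k ∈ Finset.range N, a k * (gk (k + 1) p : ℂ)‖ ^ 2 / p) +
      4 * R ^ 2 * μ ^ 2 *
        (∫ p in Ioi (0 : ℝ), ‖∑ k ∈ Finset.range N, a k * (gk k p : ℂ)‖ ^ 2 / p) +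
      (m / 8 * IU + m / 32 *
        (∫ p in Ioi (0 : ℝ), ‖∑ k ∈ Finset.range N, a k * (gk k p : ℂ)‖ ^ 2 / p ^ 2) +
      σ ^ 2 / 4 * IU) := by
    have e : ∀ p ∈ Ioi (0 : ℝ),
        ((4 * R ^ 2 * σ ^ 2 * ‖∑ k ∈ Finset.range N, a k * (gk (k + 1) p : ℂ)‖ ^ 2 / p +
          4 * R ^ 2 * μ ^ 2 * ‖∑ k ∈ Finset.range N, a k * (gk k p : ℂ)‖ ^ 2 / p) +
         ((m / 32) * (4 * p + 1 / p) * ‖∑ k ∈ Finset.range N, a k * (gk k p : ℂ)‖ ^ 2 / p +
          σ ^ 2 / 4 * ‖∑ k ∈ Finset.range N, a k * (gk k p : ℂ)‖ ^ 2)) =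
        4 * R ^ 2 * σ ^ 2 * (‖∑ k ∈ Finset.range N, a k * (gk (k + 1) p : ℂ)‖ ^ 2 / p) +
        4 * R ^ 2 * μ ^ 2 * (‖∑ k ∈ Finset.range N, a k * (gk k p : ℂ)‖ ^ 2 / p) +
        (m / 8 * ‖∑ k ∈ Finset.range N, a k * (gk k p : ℂ)‖ ^ 2 +
          m / 32 * (‖∑ k ∈ Finset.range N, a k * (gk k p : ℂ)‖ ^ 2 / p ^ 2) +
          σ ^ 2 / 4 * ‖∑ k ∈ Finset.range N, a k * (gk k p : ℂ)‖ ^ 2) := by
      intro p hp
      have hp' : p ≠ 0 := (show (0 : ℝ) < p from hp).ne'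
      field_simp
      ring
    rw [setIntegral_congr_fun measurableSet_Ioi e]
    exact lg_lin5 i5 i3 i1 i4 i1 _ _ _ _ _
  rw [hL]
  -- right side
  have hRt : 1 / 2 * ((m / 2 + σ ^ 2) * IU + m / 2 * IUp) ≤ ∫ p in Ioi (0 : ℝ),
      ((m / 2 + σ ^ 2) * ‖∑ k ∈ Finset.range N, a k * (gk k p : ℂ)‖ ^ 2 +
        m / 2 * ‖∑ k ∈ Finset.range N, a k * ((deriv (gk k) p : ℝ) : ℂ)‖ ^ 2 +
        X * (I * (∑ k ∈ Finset.range N, a k * ((deriv (gk k) p : ℝ) : ℂ)) *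
          conj (∑ k ∈ Finset.range N, a k * (gk k p : ℂ))).re) := by
    have e : 1 / 2 * ((m / 2 + σ ^ 2) * IU + m / 2 * IUp) = ∫ p in Ioi (0 : ℝ),
        ((1 / 2 * (m / 2 + σ ^ 2)) * ‖∑ k ∈ Finset.range N, a k * (gk k p : ℂ)‖ ^ 2 +
          (1 / 2 * (m / 2)) * ‖∑ k ∈ Finset.range N, a k * ((deriv (gk k) p : ℝ) : ℂ)‖ ^ 2) := by
      rw [lg_lin2 i1 i2, ← hIU, ← hIUp]
      ring
    rw [e]
    refine setIntegral_mono_on ((i1.const_mul _).add (i2.const_mul _))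
      (((i1.const_mul _).add (i2.const_mul _)).add (i6.const_mul _)) measurableSet_Ioi ?_
    intro p hp
    set u := ‖∑ k ∈ Finset.range N, a k * (gk k p : ℂ)‖ with hu
    set v := ‖∑ k ∈ Finset.range N, a k * ((deriv (gk k) p : ℝ) : ℂ)‖ with hv
    set w := (I * (∑ k ∈ Finset.range N, a k * ((deriv (gk k) p : ℝ) : ℂ)) *
          conj (∑ k ∈ Finset.range N, a k * (gk k p : ℂ))).re with hw
    have hu0 : 0 ≤ u := norm_nonneg _
    have hv0 : 0 ≤ v := norm_nonneg _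
    have hwb : |w| ≤ v * u := by
      rw [hw]
      refine (Complex.abs_re_le_norm _).trans ?_
      rw [norm_mul, norm_mul, Complex.norm_I, one_mul, RCLike.norm_conj]
    have hXw : |X * w| ≤ 1 / 2 * ((m / 2 + σ ^ 2) * u ^ 2 + m / 2 * v ^ 2) := by
      rw [abs_mul]
      have s1 : |X| * |w| ≤ |X| * (v * u) := mul_le_mul_of_nonneg_left hwb (abs_nonneg _)
      refine s1.trans ?_
      refine abs_le_of_sq_le_sq' ?_ (by positivity) |>.2
      have s2 : (|X| * (v * u)) ^ 2 = X ^ 2 * (v * u) ^ 2 := by rw [mul_pow, sq_abs]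
      rw [s2]
      have s3 : X ^ 2 * (v * u) ^ 2 ≤ ((m / 2) * (m / 2 + σ ^ 2)) * (v * u) ^ 2 :=
        mul_le_mul_of_nonneg_right hX (sq_nonneg _)
      nlinarith [sq_nonneg ((m / 2 + σ ^ 2) * u ^ 2 - m / 2 * v ^ 2), s3]
    have := (abs_le.1 hXw).1
    linarith
  refine le_trans ?_ hRt
  have g1 : 4 * R ^ 2 * σ ^ 2 *
      (∫ p in Ioi (0 : ℝ), ‖∑ k ∈ Finset.range N, a k * (gk (k + 1) p : ℂ)‖ ^ 2 / p) ≤
      σ ^ 2 / 9 * IU := by
    have hA : 4 * R ^ 2 * σ ^ 2 *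
      (∫ p in Ioi (0 : ℝ), ‖∑ k ∈ Finset.range N, a k * (gk (k + 1) p : ℂ)‖ ^ 2 / p) ≤
      4 * R ^ 2 * σ ^ 2 * (4 * IU) := mul_le_mul_of_nonneg_left h3 (by positivity)
    refine hA.trans ?_
    have hB : R ^ 2 * (σ ^ 2 * IU) ≤ 1 / 144 * (σ ^ 2 * IU) :=
      mul_le_mul_of_nonneg_right hR (by positivity)
    linarith
  have g2 : 4 * R ^ 2 * μ ^ 2 *
      (∫ p in Ioi (0 : ℝ), ‖∑ k ∈ Finset.range N, a k * (gk k p : ℂ)‖ ^ 2 / p) ≤
      m / 72 * (IU + IUp) := by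
    have hA : 4 * R ^ 2 * μ ^ 2 *
      (∫ p in Ioi (0 : ℝ), ‖∑ k ∈ Finset.range N, a k * (gk k p : ℂ)‖ ^ 2 / p) ≤
      4 * R ^ 2 * μ ^ 2 * (IU + IUp) := mul_le_mul_of_nonneg_left h2 (by positivity)
    refine hA.trans ?_
    have hB : R ^ 2 * μ ^ 2 ≤ 1 / 144 * (m / 2) := by
      exact mul_le_mul hR hμ (sq_nonneg _) (by norm_num)
    have hC : (R ^ 2 * μ ^ 2) * (IU + IUp) ≤ (1 / 144 * (m / 2)) * (IU + IUp) :=
      mul_le_mul_of_nonneg_right hB (by positivity)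
    linarith
  have g3 : m / 32 *
      (∫ p in Ioi (0 : ℝ), ‖∑ k ∈ Finset.range N, a k * (gk k p : ℂ)‖ ^ 2 / p ^ 2) ≤
      m / 8 * IUp := by
    have hA := mul_le_mul_of_nonneg_left h1 (show (0 : ℝ) ≤ m / 32 by positivity)
    linarith
  nlinarith [mul_nonneg hm hIU0, mul_nonneg hm hIUp0, mul_nonneg (sq_nonneg σ) hIU0, g1, g2, g3]

end

end Pool.Agent.DbarN
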