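import Pool.Agent.DbarN.LAGint
import Pool.Agent.DbarN.LAGpw
import Pool.Agent.DbarN.Basic
import Pool.Agent.DbarN.Ident
import Pool.Agent.DbarN.Dn

set_option autoImplicit false
set_option maxHeartbeats 4000000

/-!
# LAG: the Laguerre side inequality
-/

namespace Pool.Agent.DbarN

open MeasureTheory Complex Set
open scoped ComplexConjugate ContDiff

theorem lg_prod {D : Prof} {F : ℝ × ℝ × ℝ → ℝ} (hF : IntegrableOn F (SS D)) :
    Integrable F ((volume.restrict (Ioo D.a0 D.b0)).prod (volume.restrict S2)) := by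
  have := hF
  unfold SS S3 at this
  rw [IntegrableOn, Measure.volume_eq_prod, ← Measure.prod_restrict] at this
  exact this

theorem lg_prod3 {l m : ℝ} {F : ℝ × ℝ × ℝ → ℝ} (hF : IntegrableOn F (S3 l m)) :
    ∫ s in S3 l m, F s = ∫ x in Ioo l m, ∫ q in S2, F (x, q) := by
  unfold S3 at hF ⊢
  rw [Measure.volume_eq_prod] at hF ⊢
  exact setIntegral_prod F hF

theorem lg_prod2 {F : ℝ × ℝ → ℝ} (hF : IntegrableOn F S2) :
    ∫ q in S2, F q = ∫ v in Ioo (-Real.pi) Real.pi, ∫ p in Ioi (0 : ℝ), F (v, p) := by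
  unfold S2 at hF ⊢
  rw [Measure.volume_eq_prod] at hF ⊢
  exact setIntegral_prod F hF

theorem lg_mono {D : Prof} {F1 F2 : ℝ × ℝ × ℝ → ℝ} (h1 : IntegrableOn F1 (SS D))
    (h2 : IntegrableOn F2 (SS D))
    (h : ∀ x ∈ Ioo D.a0 D.b0, ∀ v ∈ Ioo (-Real.pi) Real.pi,
      ∫ p in Ioi (0 : ℝ), F1 (x, v, p) ≤ ∫ p in Ioi (0 : ℝ), F2 (x, v, p)) :
    ∫ s in SS D, F1 s ≤ ∫ s in SS D, F2 s := by
  rw [show SS D = S3 D.a0 D.b0 from rfl, lg_prod3 h1, lg_prod3 h2]
  have k1 := lg_prod h1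
  have k2 := lg_prod h2
  refine integral_mono_ae k1.integral_prod_left k2.integral_prod_left ?_
  filter_upwards [k1.prod_right_ae, k2.prod_right_ae, ae_restrict_mem measurableSet_Ioo]
    with x j1 j2 hx
  rw [lg_prod2 j1, lg_prod2 j2]
  have m1 : Integrable (fun q : ℝ × ℝ => F1 (x, q))
      ((volume.restrict (Ioo (-Real.pi) Real.pi)).prod (volume.restrict (Ioi 0))) := by
    have := j1
    unfold S2 at this
    rwa [Measure.volume_eq_prod, ← Measure.prod_restrict] at this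
  have m2 : Integrable (fun q : ℝ × ℝ => F2 (x, q))
      ((volume.restrict (Ioo (-Real.pi) Real.pi)).prod (volume.restrict (Ioi 0))) := by
    have := j2
    unfold S2 at this
    rwa [Measure.volume_eq_prod, ← Measure.prod_restrict] at this
  refine integral_mono_ae m1.integral_prod_left m2.integral_prod_left ?_
  filter_upwards [ae_restrict_mem measurableSet_Ioo] with v hv
  exact h x hx v hv

theorem lg_ia {α : Type*} [MeasurableSpace α] {μ : Measure α} {S : Set α} {f g : α → ℝ}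
    (hf : IntegrableOn f S μ) (hg : IntegrableOn g S μ) :
    ∫ s in S, (f s + g s) ∂μ = (∫ s in S, f s ∂μ) + ∫ s in S, g s ∂μ := integral_add hf hg

theorem lg_ai {α : Type*} [MeasurableSpace α] {μ : Measure α} {S : Set α} {f g : α → ℝ}
    (hf : IntegrableOn f S μ) (hg : IntegrableOn g S μ) :
    IntegrableOn (fun s => f s + g s) S μ := hf.add hg

theorem lg_sub {D : Prof} {l m : ℝ} (h1 : D.a0 ≤ l) (h2 : m ≤ D.b0) : S3 l m ⊆ SS D :=
  fun _ hs => ⟨⟨h1.trans_lt hs.1.1, hs.1.2.trans_le h2⟩, hs.2⟩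

theorem lg_split {D : Prof} {F : ℝ × ℝ × ℝ → ℝ} (hF : IntegrableOn F (SS D)) :
    ∫ s in SS D, F s = (∫ s in S3 D.a0 D.a, F s) + (∫ s in S3 D.a D.b, F s)
      + ∫ s in S3 D.b D.b0, F s := by
  have hab := D.hab
  have ha0 := D.ha0
  have hb0 := D.hb0
  rw [show SS D = S3 D.a0 D.b0 from rfl, lg_prod3 hF,
    lg_prod3 (hF.mono_set (lg_sub le_rfl (by linarith))),
    lg_prod3 (hF.mono_set (lg_sub (by linarith) (by linarith))),
    lg_prod3 (hF.mono_set (lg_sub (by linarith) le_rfl))]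
  set g : ℝ → ℝ := fun x => ∫ q in S2, F (x, q) with hg
  have hgi : IntegrableOn g (Ioo D.a0 D.b0) := (lg_prod hF).integral_prod_left
  have hgc : IntegrableOn g (Ioc D.a0 D.b0) := by
    rwa [integrableOn_Ioc_iff_integrableOn_Ioo]
  have e : ∀ l m : ℝ, l ≤ m → ∫ x in Ioo l m, g x = ∫ x in l..m, g x := by
    intro l m hlm
    rw [intervalIntegral.integral_of_le hlm, integral_Ioc_eq_integral_Ioo]
  rw [e _ _ (by linarith), e _ _ (by linarith), e _ _ (by linarith), e _ _ (by linarith)]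
  have i : ∀ l m : ℝ, D.a0 ≤ l → l ≤ m → m ≤ D.b0 → IntervalIntegrable g volume l m := by
    intro l m h1 h2 h3
    rw [intervalIntegrable_iff_integrableOn_Ioc_of_le h2]
    exact hgc.mono_set (Ioc_subset_Ioc h1 h3)
  rw [intervalIntegral.integral_add_adjacent_intervals (i _ _ le_rfl (by linarith) (by linarith))
    (i _ _ (by linarith) (by linarith) (by linarith)),
    intervalIntegral.integral_add_adjacent_intervals (i _ _ le_rfl (by linarith) (by linarith))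
    (i _ _ (by linarith) (by linarith) (by linarith))]

/-! ### blocks for `A` -/

section blocks
variable {D : Prof} {N : ℕ} {A : ℕ → ℝ → ℝ → ℂ} (hA : AC A) {a1 b1 : ℝ}
  (hs : ∀ k x φ, x ∉ Ioo a1 b1 → A k x φ = 0)

theorem lg_dx (F : ℝ × ℝ → ℂ) (hF : ContDiff ℝ ∞ F) (q : ℝ × ℝ) :
    deriv (fun x => F (x, q.2)) q.1 = fderiv ℝ F q (1, 0) := by
  have h1 : HasFDerivAt F (fderiv ℝ F q) (q.1, q.2) :=
    (hF.differentiable (by simp)).differentiableAt.hasFDerivAt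
  have h2 : HasDerivAt (fun x : ℝ => ((x, q.2) : ℝ × ℝ)) (1, 0) q.1 :=
    (hasDerivAt_id q.1).prodMk (hasDerivAt_const q.1 q.2)
  exact (h1.comp_hasDerivAt q.1 h2).deriv

theorem lg_dv (F : ℝ × ℝ → ℂ) (hF : ContDiff ℝ ∞ F) (q : ℝ × ℝ) :
    deriv (fun v => F (q.1, v)) q.2 = fderiv ℝ F q (0, 1) := by
  have h1 : HasFDerivAt F (fderiv ℝ F q) (q.1, q.2) :=
    (hF.differentiable (by simp)).differentiableAt.hasFDerivAt
  have h2 : HasDerivAt (fun v : ℝ => ((q.1, v) : ℝ × ℝ)) (0, 1) q.2 :=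
    (hasDerivAt_const q.2 q.1).prodMk (hasDerivAt_id q.2)
  exact (h1.comp_hasDerivAt q.2 h2).deriv

include hA hs in
theorem lg_CF (k : ℕ) : LgCF a1 b1 (fun q => A k q.1 q.2) :=
  ⟨(hA.smooth k).continuous, fun q hq => hs k _ _ fun h => hq (Ioo_subset_Icc_self h)⟩

include hA hs in
theorem lg_CFx (k : ℕ) : LgCF a1 b1 (fun q => deriv (fun x => A k x q.2) q.1) := by
  refine ⟨?_, fun q hq => ?_⟩
  · have : (fun q : ℝ × ℝ => deriv (fun x => A k x q.2) q.1) =
        fun q => fderiv ℝ (fun q : ℝ × ℝ => A k q.1 q.2) q (1, 0) :=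
      funext fun q => lg_dx _ (hA.smooth k) q
    rw [this]
    exact ((hA.smooth k).continuous_fderiv (by simp)).clm_apply continuous_const
  · have : (fun x => A k x q.2) =ᶠ[nhds q.1] fun _ => 0 := by
      filter_upwards [isClosed_Icc.isOpen_compl.mem_nhds hq] with x hx
      exact hs k _ _ fun h => hx (Ioo_subset_Icc_self h)
    rw [this.deriv_eq, deriv_const]

include hA hs in
theorem lg_CFv (k : ℕ) : LgCF a1 b1 (fun q => deriv (fun v => A k q.1 v) q.2) := by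
  refine ⟨?_, fun q hq => ?_⟩
  · have : (fun q : ℝ × ℝ => deriv (fun v => A k q.1 v) q.2) =
        fun q => fderiv ℝ (fun q : ℝ × ℝ => A k q.1 q.2) q (0, 1) :=
      funext fun q => lg_dv _ (hA.smooth k) q
    rw [this]
    exact ((hA.smooth k).continuous_fderiv (by simp)).clm_apply continuous_const
  · have : (fun v => A k q.1 v) = fun _ => 0 := by
      funext v
      exact hs k _ _ fun h => hq (Ioo_subset_Icc_self h)
    rw [this, deriv_const]

theorem lg_gb1 (k : ℕ) : ∃ (C : ℝ) (K : ℕ), 0 ≤ C ∧ ∀ p > 0,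
    |gk k p| ≤ C * (p * (1 + p) ^ K * Real.exp (-p)) := by
  obtain ⟨C, hC, h⟩ := lg_bd k
  refine ⟨C, k + 1, hC, fun p hp => ((h p hp.le).1).trans (le_of_eq (by ring))⟩

theorem lg_gb2 (k : ℕ) : ∃ (C : ℝ) (K : ℕ), 0 ≤ C ∧ ∀ p > 0,
    |deriv (gk k) p| ≤ C * ((1 + p) ^ K * Real.exp (-p)) := by
  obtain ⟨C, hC, h⟩ := lg_bd k
  refine ⟨C, k + 1, hC, fun p hp => ((h p hp.le).2.1).trans (le_of_eq (by ring))⟩

theorem lg_gb3 (k : ℕ) : ∃ (C : ℝ) (K : ℕ), 0 ≤ C ∧ ∀ p > 0,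
    |deriv (deriv (gk k)) p| ≤ C * ((1 + p) ^ K * Real.exp (-p)) := by
  obtain ⟨C, hC, h⟩ := lg_bd k
  refine ⟨C, k + 1, hC, fun p hp => ((h p hp.le).2.2).trans (le_of_eq (by ring))⟩

include hA hs in
theorem lg_U : LgG1 D a1 b1 (U N A) :=
  lg_block1 N (fun k q => A k q.1 q.2) (fun k => lg_CF hA hs k) gk lg_cont lg_gb1

include hA hs in
theorem lg_V : LgG1 D a1 b1 (fun s => ∑ k ∈ Finset.range N, A k s.1 s.2.1 * (gk (k + 1) s.2.2 : ℂ)) :=
  lg_block1 N (fun k q => A k q.1 q.2) (fun k => lg_CF hA hs k) (fun k => gk (k + 1))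
    (fun k => lg_cont (k + 1)) (fun k => lg_gb1 (k + 1))

include hA hs in
theorem lg_Ux : LgG1 D a1 b1 (Ux N A) :=
  lg_block1 N (fun k q => deriv (fun x => A k x q.2) q.1) (fun k => lg_CFx hA hs k) gk lg_cont
    lg_gb1

include hA hs in
theorem lg_Uf : LgG1 D a1 b1 (Uf N A) :=
  lg_block1 N (fun k q => deriv (fun v => A k q.1 v) q.2) (fun k => lg_CFv hA hs k) gk lg_cont
    lg_gb1

include hA hs in
theorem lg_Up : LgG0 D a1 b1 (Up N A) :=
  lg_block0 N (fun k q => A k q.1 q.2) (fun k => lg_CF hA hs k) (fun k => deriv (gk k)) lg_cont1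
    lg_gb2

include hA hs in
theorem lg_Upp : LgG0 D a1 b1 (Upp N A) :=
  lg_block0 N (fun k q => A k q.1 q.2) (fun k => lg_CF hA hs k) (fun k => deriv (deriv (gk k)))
    lg_cont2 lg_gb3

include hA hs in
theorem lg_nab (h1 : D.a0 < a1) (h2 : b1 < D.b0) : LgG1 D a1 b1 (nab D N A) := by
  have hσ : ContinuousOn (fun x => I * (D.σ x : ℂ)) (Ioo D.a0 D.b0) :=
    (continuous_const.mul (Complex.continuous_ofReal.comp D.σsm.continuous)).continuousOn
  have h := (lg_Ux (D := D) (N := N) hA hs).add (((lg_U (D := D) (N := N) hA hs).to0.mulp).smulx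
    h1 h2 _ hσ)
  have e : nab D N A = fun s => Ux N A s + I * (D.σ s.1 : ℂ) * ((s.2.2 : ℂ) * U N A s) := by
    funext s
    unfold nab
    ring
  rw [e]
  exact h

include hA hs in
theorem lg_BB (h1 : D.a0 < a1) (h2 : b1 < D.b0) : LgG1 D a1 b1 (BB D N A) := by
  have hσ : ContinuousOn (fun x => I * (D.σ x : ℂ)) (Ioo D.a0 D.b0) :=
    (continuous_const.mul (Complex.continuous_ofReal.comp D.σsm.continuous)).continuousOn
  have hμ : ContinuousOn (fun x => (D.μ x : ℂ) / 2) (Ioo D.a0 D.b0) :=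
    (Complex.continuous_ofReal.comp_continuousOn D.contDiffOn_μ.continuousOn).div_const _
  have hU := lg_U (D := D) (N := N) hA hs
  have t1 := (lg_Uf (D := D) (N := N) hA hs).smulx h1 h2 (fun _ => I) continuousOn_const
  have t2 := hU.smulx h1 h2 (fun _ => -1) continuousOn_const
  have t3 := ((lg_Up (D := D) (N := N) hA hs).mulp).smulx h1 h2 _ hσ
  have t4 := ((hU.to0.add ((lg_Upp (D := D) (N := N) hA hs).smulx h1 h2 (fun _ => -1)
    continuousOn_const)).mulp).smulx h1 h2 _ hμ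
  have h := ((t1.add t2).add t3).add t4
  have e : BB D N A = fun s => I * Uf N A s + -1 * U N A s +
      I * (D.σ s.1 : ℂ) * ((s.2.2 : ℂ) * Up N A s) +
      (D.μ s.1 : ℂ) / 2 * ((s.2.2 : ℂ) * (U N A s + -1 * Upp N A s)) := by
    funext s
    unfold BB
    ring
  rw [e]
  exact h

end blocks

theorem lg_tt_cont (T : ℝ) : ContinuousOn (fun p => tt T p) (Ioi 0) := by
  unfold tt
  refine continuousOn_const.add (ContinuousOn.log ?_ ?_)
  · exact continuousOn_const.add (continuousOn_const.div continuousOn_id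
      fun p hp => (show (0 : ℝ) < p from hp).ne')
  · intro p hp
    have : (0 : ℝ) < 1 / p := one_div_pos.2 hp
    linarith

theorem lg_tt_ge {T p : ℝ} (hp : 0 < p) : T ≤ tt T p := by
  unfold tt
  have : 0 ≤ Real.log (1 + 1 / p) := Real.log_nonneg (by have := one_div_pos.2 hp; linarith)
  linarith

theorem lg_tt_sq {T p : ℝ} (hT : 0 ≤ T) (hp : 0 < p) : tt T p ^ 2 ≤ 2 * T ^ 2 + 8 * (1 + 1 / p) := by
  unfold tt
  have h0 : 0 < 1 + 1 / p := by have := one_div_pos.2 hp; linarith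
  have h1 : 1 ≤ 1 + 1 / p := by have := one_div_pos.2 hp; linarith
  have h2 : Real.log (1 + 1 / p) = 2 * Real.log (Real.sqrt (1 + 1 / p)) := by
    rw [Real.log_sqrt h0.le]; ring
  have h3 : Real.log (Real.sqrt (1 + 1 / p)) ≤ Real.sqrt (1 + 1 / p) - 1 :=
    Real.log_le_sub_one_of_pos (Real.sqrt_pos.2 h0)
  have h4 : 0 ≤ Real.log (1 + 1 / p) := Real.log_nonneg h1
  have h5 : Real.sqrt (1 + 1 / p) ^ 2 = 1 + 1 / p := Real.sq_sqrt h0.le
  have h6 : Real.log (1 + 1 / p) ≤ 2 * Real.sqrt (1 + 1 / p) := by rw [h2]; linarith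
  have h7 : Real.log (1 + 1 / p) ^ 2 ≤ 4 * (1 + 1 / p) := by
    calc Real.log (1 + 1 / p) ^ 2 ≤ (2 * Real.sqrt (1 + 1 / p)) ^ 2 :=
          pow_le_pow_left₀ h4 h6 2
      _ = _ := by rw [mul_pow, h5]; norm_num
  nlinarith [sq_nonneg (T - Real.log (1 + 1 / p))]

theorem lag (D : Prof) (hG : D.GSI) (N : ℕ) (A : ℕ → ℝ → ℝ → ℂ) (hA : AC A) (a1 b1 : ℝ)
    (ha1 : D.a0 < a1) (hb1 : b1 < D.b0) (hs : ∀ k x φ, x ∉ Ioo a1 b1 → A k x φ = 0) :
    (∫ s in SS D, (Real.exp (2 * s.1) + D.cw / tt D.T s.2.2 ^ 2) * ‖U N A s‖ ^ 2 / s.2.2) +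
      (∫ s in SS D, (4 * D.R s.1 ^ 2 * D.σ s.1 ^ 2 *
          ‖∑ k ∈ Finset.range N, A k s.1 s.2.1 * (gk (k + 1) s.2.2 : ℂ)‖ ^ 2 / s.2.2 +
        4 * D.R s.1 ^ 2 * D.μ s.1 ^ 2 * ‖U N A s‖ ^ 2 / s.2.2)) ≤
    ∫ s in SS D, ‖BB D N A s - nab D N A s‖ ^ 2 / s.2.2 := by
  have hab := D.hab
  have ha0 := D.ha0
  have hb0 := D.hb0
  have hT := D.hT
  have hpos : ∀ s ∈ SS D, (0 : ℝ) < s.2.2 := fun s hs => hs.2.2
  have hU := lg_U (D := D) (N := N) hA hs
  have hUp := lg_Up (D := D) (N := N) hA hs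
  have hV := lg_V (D := D) (N := N) hA hs
  have hN := lg_nab (N := N) hA hs ha1 hb1
  have hB := lg_BB (N := N) hA hs ha1 hb1
  have hdμ : ContinuousOn (deriv D.μ) (Ioo D.a0 D.b0) :=
    (D.contDiffOn_μ.continuousOn_deriv_of_isOpen isOpen_Ioo (by simp))
  have hdσ : Continuous (deriv D.σ) := D.σsm.continuous_deriv (by simp)
  have hR2c : ContinuousOn (fun x => 4 * D.R x ^ 2 * D.σ x ^ 2) (Ioo D.a0 D.b0) := by
    have : Continuous D.R := by
      unfold Prof.R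
      exact continuous_const.mul (Real.continuous_sqrt.comp (continuous_const.sub D.ηsm.continuous))
    have h2 := D.σsm.continuous
    fun_prop
  have hR3c : ContinuousOn (fun x => 4 * D.R x ^ 2 * D.μ x ^ 2) (Ioo D.a0 D.b0) := by
    have : Continuous D.R := by
      unfold Prof.R
      exact continuous_const.mul (Real.continuous_sqrt.comp (continuous_const.sub D.ηsm.continuous))
    exact ((continuous_const.mul (this.pow 2)).continuousOn).mul (D.contDiffOn_μ.continuousOn.pow 2)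
  -- weights
  have wx : ∀ w : ℝ → ℝ, ContinuousOn w (Ioo D.a0 D.b0) → ∀ {f : ℝ × ℝ × ℝ → ℂ}, LgG1 D a1 b1 f →
      IntegrableOn (fun s => w s.1 * ‖f s‖ ^ 2 / s.2.2) (SS D) := by
    intro w hw f hf
    obtain ⟨B, hB0, hBb⟩ := lg_bdx ha1 hb1 (fun x => (w x : ℂ))
      (Complex.continuous_ofReal.comp_continuousOn hw)
    refine hf.int_w (fun s => w s.1) (hw.comp continuousOn_fst fun s hs => hs.1) B ?_
    intro s hs hx
    have hp := hpos s hs
    have := hBb _ hx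
    rw [Complex.norm_real, Real.norm_eq_abs] at this
    calc |w s.1| * s.2.2 ≤ B * (1 + s.2.2) ^ 2 :=
          mul_le_mul this (by nlinarith) hp.le hB0
      _ = _ := rfl
  have wx0 : ∀ w : ℝ → ℝ, ContinuousOn w (Ioo D.a0 D.b0) → ∀ {f : ℝ × ℝ × ℝ → ℂ}, LgG0 D a1 b1 f →
      IntegrableOn (fun s => w s.1 * ‖f s‖ ^ 2) (SS D) := by
    intro w hw f hf
    refine hf.int_mul hf ha1 hb1 w hw _ (hf.cont.norm.pow 2) fun s hs => ?_
    rw [abs_of_nonneg (sq_nonneg _), sq]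
  -- integrability
  have iL1 : IntegrableOn (fun s => (Real.exp (2 * s.1) + D.cw / tt D.T s.2.2 ^ 2) *
      ‖U N A s‖ ^ 2 / s.2.2) (SS D) := by
    refine hU.int_w (fun s => Real.exp (2 * s.1) + D.cw / tt D.T s.2.2 ^ 2) ?_
      (Real.exp (2 * D.b0) + D.cw) ?_
    · refine ContinuousOn.add (by fun_prop) (ContinuousOn.div continuousOn_const
        ((((lg_tt_cont D.T).comp (by fun_prop : ContinuousOn (fun s : ℝ × ℝ × ℝ => s.2.2) (SS D))
          fun s hs => hpos s hs)).pow 2) ?_)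
      intro s hs
      have := lg_tt_ge (T := D.T) (hpos s hs)
      have : (0 : ℝ) < tt D.T s.2.2 := by linarith
      positivity
    · intro s hs hx
      have hp := hpos s hs
      have ht := lg_tt_ge (T := D.T) hp
      have ht1 : 1 ≤ tt D.T s.2.2 := by linarith
      have hcw := D.hcw
      have e1 : Real.exp (2 * s.1) ≤ Real.exp (2 * D.b0) := by
        apply Real.exp_le_exp.2
        have := hs.1.2
        linarith
      have e2 : D.cw / tt D.T s.2.2 ^ 2 ≤ D.cw := by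
        rw [div_le_iff₀ (by positivity)]
        nlinarith [one_le_pow₀ (n := 2) ht1]
      have e3 : 0 ≤ D.cw / tt D.T s.2.2 ^ 2 := by positivity
      rw [abs_of_nonneg (by positivity)]
      exact mul_le_mul (by linarith) (by nlinarith) hp.le (by positivity)
  have iN : IntegrableOn (fun s => ‖nab D N A s‖ ^ 2 / s.2.2) (SS D) := by
    have := wx (fun _ => 1) continuousOn_const hN
    simpa using this
  have iB : IntegrableOn (fun s => ‖BB D N A s‖ ^ 2 / s.2.2) (SS D) := by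
    have := wx (fun _ => 1) continuousOn_const hB
    simpa using this
  have iT : IntegrableOn (Theta D N A) (SS D) := by
    have t1 := wx0 (fun x => deriv D.μ x / 2 + D.σ x ^ 2)
      ((hdμ.div_const 2).add (D.σsm.continuous.pow 2).continuousOn) hU.to0
    have t2 := wx0 (fun x => deriv D.μ x / 2) (hdμ.div_const 2) hUp
    have t3 := hUp.int_mul hU.to0 ha1 hb1 (fun x => deriv D.σ x + D.σ x * D.μ x)
      (hdσ.continuousOn.add (D.σsm.continuous.continuousOn.mul D.contDiffOn_μ.continuousOn))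
      (fun s => (I * Up N A s * conj (U N A s)).re)
      (Complex.continuous_re.comp_continuousOn ((continuousOn_const.mul hUp.cont).mul
        (Complex.continuous_conj.comp_continuousOn hU.cont)))
      (fun s hs => by
        refine (Complex.abs_re_le_norm _).trans ?_
        rw [norm_mul, norm_mul, Complex.norm_I, one_mul, RCLike.norm_conj])
    exact (t1.add t2).add t3
  have iV : IntegrableOn (fun s => 4 * D.R s.1 ^ 2 * D.σ s.1 ^ 2 *
      ‖∑ k ∈ Finset.range N, A k s.1 s.2.1 * (gk (k + 1) s.2.2 : ℂ)‖ ^ 2 / s.2.2) (SS D) :=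
    wx (fun x => 4 * D.R x ^ 2 * D.σ x ^ 2) hR2c hV
  have iW : IntegrableOn (fun s => 4 * D.R s.1 ^ 2 * D.μ s.1 ^ 2 * ‖U N A s‖ ^ 2 / s.2.2) (SS D) :=
    wx (fun x => 4 * D.R x ^ 2 * D.μ x ^ 2) hR3c hU
  have iM : IntegrableOn (fun s => (deriv D.μ s.1 / 32) * (4 * s.2.2 + 1 / s.2.2) *
      ‖U N A s‖ ^ 2 / s.2.2) (SS D) := by
    obtain ⟨B, hB0, hBb⟩ := lg_bdx ha1 hb1 (fun x => ((deriv D.μ x : ℝ) : ℂ))
      (Complex.continuous_ofReal.comp_continuousOn hdμ)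
    refine hU.int_w (fun s => (deriv D.μ s.1 / 32) * (4 * s.2.2 + 1 / s.2.2)) ?_ B ?_
    · refine ContinuousOn.mul ((hdμ.comp continuousOn_fst fun s hs => hs.1).div_const 32) ?_
      refine ContinuousOn.add (by fun_prop) (ContinuousOn.div continuousOn_const (by fun_prop) ?_)
      intro s hs
      exact (hpos s hs).ne'
    · intro s hs hx
      have hp := hpos s hs
      have := hBb _ hx
      rw [Complex.norm_real, Real.norm_eq_abs] at this
      have e1 : 0 < 4 * s.2.2 + 1 / s.2.2 := by positivity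
      rw [abs_mul, abs_of_pos e1, abs_div, abs_of_pos (show (0 : ℝ) < 32 by norm_num), mul_assoc]
      have e2 : (4 * s.2.2 + 1 / s.2.2) * s.2.2 = 4 * s.2.2 ^ 2 + 1 := by field_simp
      rw [e2]
      calc |deriv D.μ s.1| / 32 * (4 * s.2.2 ^ 2 + 1) ≤ B / 32 * (4 * s.2.2 ^ 2 + 1) := by gcongr
        _ ≤ B * (1 + s.2.2) ^ 2 := by nlinarith [mul_nonneg hB0 hp.le, mul_nonneg hB0 (sq_nonneg s.2.2)]
  have iS : IntegrableOn (fun s => D.σ s.1 ^ 2 / 4 * ‖U N A s‖ ^ 2) (SS D) :=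
    wx0 (fun x => D.σ x ^ 2 / 4) ((D.σsm.continuous.pow 2).div_const 4).continuousOn hU.to0
  -- identity
  rw [ident D N A hA a1 b1 ha1 hb1 (fun k x φ h => hs k x φ fun h' => h (Ioo_subset_Icc_self h'))]
  have e1 : ∫ s in SS D, (‖nab D N A s‖ ^ 2 / s.2.2 + ‖BB D N A s‖ ^ 2 / s.2.2 + Theta D N A s) =
      (∫ s in SS D, ‖nab D N A s‖ ^ 2 / s.2.2) + (∫ s in SS D, ‖BB D N A s‖ ^ 2 / s.2.2)
        + ∫ s in SS D, Theta D N A s := by
    rw [lg_ia (lg_ai iN iB) iT, lg_ia iN iB]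
  rw [e1]
  -- fibrewise
  have hRle : ∀ x, D.R x ^ 2 ≤ 1 / 144 := by
    intro x
    unfold Prof.R
    have hr : 0 < D.r ∧ D.r ≤ 1 / 12 := by
      rw [D.hr]
      constructor
      · have : 0 < 4 * (D.b - D.a + 3) := by linarith
        positivity
      · rw [div_le_div_iff₀ (by linarith) (by norm_num)]
        linarith
    rw [mul_pow]
    have h1 : Real.sqrt (1 - D.η x) ^ 2 ≤ 1 := by
      by_cases h : 0 ≤ 1 - D.η x
      · rw [Real.sq_sqrt h]
        have := D.η0 x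
        linarith
      · rw [Real.sqrt_eq_zero_of_nonpos (by linarith)]
        norm_num
    have h2 : D.r ^ 2 ≤ 1 / 144 := by nlinarith [hr.1, hr.2]
    calc D.r ^ 2 * Real.sqrt (1 - D.η x) ^ 2 ≤ D.r ^ 2 * 1 :=
          mul_le_mul_of_nonneg_left h1 (sq_nonneg _)
      _ ≤ _ := by linarith
  have key : ∫ s in SS D,
      ((4 * D.R s.1 ^ 2 * D.σ s.1 ^ 2 *
          ‖∑ k ∈ Finset.range N, A k s.1 s.2.1 * (gk (k + 1) s.2.2 : ℂ)‖ ^ 2 / s.2.2 +
        4 * D.R s.1 ^ 2 * D.μ s.1 ^ 2 * ‖U N A s‖ ^ 2 / s.2.2) +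
       ((deriv D.μ s.1 / 32) * (4 * s.2.2 + 1 / s.2.2) * ‖U N A s‖ ^ 2 / s.2.2 +
        D.σ s.1 ^ 2 / 4 * ‖U N A s‖ ^ 2)) ≤ ∫ s in SS D, Theta D N A s := by
    refine lg_mono (lg_ai (lg_ai iV iW) (lg_ai iM iS)) iT ?_
    intro x hx v hv
    have h := lg_pw N (fun k => A k x v) (R := D.R x) (σ := D.σ x) (μ := D.μ x)
      (m := deriv D.μ x) (X := deriv D.σ x + D.σ x * D.μ x) (hRle x) (D.μ_sq_le hx)
      (D.condC x hx)
    exact h
  have e2 : ∫ s in SS D,
      ((4 * D.R s.1 ^ 2 * D.σ s.1 ^ 2 *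
          ‖∑ k ∈ Finset.range N, A k s.1 s.2.1 * (gk (k + 1) s.2.2 : ℂ)‖ ^ 2 / s.2.2 +
        4 * D.R s.1 ^ 2 * D.μ s.1 ^ 2 * ‖U N A s‖ ^ 2 / s.2.2) +
       ((deriv D.μ s.1 / 32) * (4 * s.2.2 + 1 / s.2.2) * ‖U N A s‖ ^ 2 / s.2.2 +
        D.σ s.1 ^ 2 / 4 * ‖U N A s‖ ^ 2)) =
      (∫ s in SS D, (4 * D.R s.1 ^ 2 * D.σ s.1 ^ 2 *
          ‖∑ k ∈ Finset.range N, A k s.1 s.2.1 * (gk (k + 1) s.2.2 : ℂ)‖ ^ 2 / s.2.2 +
        4 * D.R s.1 ^ 2 * D.μ s.1 ^ 2 * ‖U N A s‖ ^ 2 / s.2.2)) +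
      ((∫ s in SS D, (deriv D.μ s.1 / 32) * (4 * s.2.2 + 1 / s.2.2) * ‖U N A s‖ ^ 2 / s.2.2) +
        ∫ s in SS D, D.σ s.1 ^ 2 / 4 * ‖U N A s‖ ^ 2) := by
    rw [lg_ia (lg_ai iV iW) (lg_ai iM iS), lg_ia iM iS]
  rw [e2] at key
  -- the pieces
  have pr := dn_right D N A hA b1 hb1 (fun k x φ h => hs k x φ fun h' => absurd h'.2 (not_lt.2 h))
  have pl := dn_left D N A hA a1 ha1 (fun k x φ h => hs k x φ fun h' => absurd h'.1 (not_lt.2 h))
  have pg := hG N A hA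
  have sub1 : S3 D.a0 D.a ⊆ SS D := lg_sub le_rfl (by linarith)
  have sub2 : S3 D.a D.b ⊆ SS D := lg_sub (by linarith) (by linarith)
  have sub3 : S3 D.b D.b0 ⊆ SS D := lg_sub (by linarith) le_rfl
  rw [integral_add (iN.mono_set sub3) (iM.mono_set sub3)] at pr
  rw [integral_add (iN.mono_set sub1) (iM.mono_set sub1)] at pl
  -- middle
  have hmid : ∀ s ∈ S3 D.a D.b, D.σ s.1 = 1 ∧ D.μ s.1 = 0 := by
    intro s hs
    refine ⟨D.σI _ (Ioo_subset_Icc_self hs.1), ?_⟩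
    unfold Prof.μ
    have : D.η =ᶠ[nhds s.1] fun _ => 0 := by
      filter_upwards [isOpen_Ioo.mem_nhds hs.1] with y hy
      exact D.ηI y (Ioo_subset_Icc_self hy)
    rw [this.deriv_eq, deriv_const]
    simp
  have pg2 : ∫ s in S3 D.a D.b,
        (‖Ux N A s + I * (s.2.2 : ℂ) * U N A s‖ ^ 2 / s.2.2 +
          ‖I * Uf N A s - U N A s + I * (s.2.2 : ℂ) * Up N A s‖ ^ 2 / s.2.2 +
          1 / 4 * ‖U N A s‖ ^ 2) = (∫ s in S3 D.a D.b, ‖nab D N A s‖ ^ 2 / s.2.2) +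
        (∫ s in S3 D.a D.b, ‖BB D N A s‖ ^ 2 / s.2.2) +
        ∫ s in S3 D.a D.b, D.σ s.1 ^ 2 / 4 * ‖U N A s‖ ^ 2 := by
    rw [← lg_ia (iN.mono_set sub2) (iB.mono_set sub2),
      ← lg_ia (lg_ai (iN.mono_set sub2) (iB.mono_set sub2)) (iS.mono_set sub2)]
    refine setIntegral_congr_fun (lg_meas_S3 _ _) fun s hs => ?_
    obtain ⟨h1, h2⟩ := hmid s hs
    simp only [nab, BB, h1, h2]
    simp
  rw [pg2] at pg
  -- boundary terms
  have ib : ∀ x : ℝ, IntegrableOn (fun q : ℝ × ℝ => gam D.T D.A D.B q.2 * ‖U N A (x, q)‖ ^ 2 / q.2)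
      S2 := by
    intro x
    obtain ⟨C, hC, hb⟩ : ∃ C : ℝ, 0 ≤ C ∧ ∀ q ∈ S2,
        ‖U N A (x, q)‖ ≤ C * (q.2 * (1 + q.2) ^ (N + 1) * Real.exp (-q.2)) := by
      have hM : ∃ M : ℝ, ∀ k ∈ Finset.range N, ∀ v ∈ Icc (-Real.pi) Real.pi, ‖A k x v‖ ≤ M := by
        have : ∀ k ∈ Finset.range N, ∃ M : ℝ, ∀ v ∈ Icc (-Real.pi) Real.pi, ‖A k x v‖ ≤ M := by
          intro k _
          obtain ⟨M, _, hM⟩ := (lg_CF hA hs k).bound
          exact ⟨M, fun v hv => hM (x, v) hv⟩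
        choose! M hM using this
        refine ⟨∑ k ∈ Finset.range N, |M k|, fun k hk v hv => (hM k hk v hv).trans ?_⟩
        exact (le_abs_self _).trans (Finset.single_le_sum (f := fun k => |M k|)
          (fun _ _ => abs_nonneg _) hk)
      obtain ⟨M, hM⟩ := hM
      obtain ⟨C1, h1, H1⟩ := lg_sum_bd (Finset.range N) (fun _ => 0) (fun k p => gk k p)
        (fun p => p * (1 + p) ^ (N + 1) * Real.exp (-p)) (fun p hp => by positivity)
        (fun k hk => by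
          obtain ⟨C, hC, h⟩ := lg_bd k
          refine ⟨C, hC, fun p hp => ((h p hp.le).1).trans ?_⟩
          have := lg_pow_mono hp (show k + 1 ≤ N + 1 by have := Finset.mem_range.1 hk; omega)
          calc C * p * (1 + p) ^ (k + 1) * Real.exp (-p)
              = C * (p * (1 + p) ^ (k + 1) * Real.exp (-p)) := by ring
            _ ≤ _ := by gcongr) M
      exact ⟨C1, h1, fun q hq => H1 q.2 hq.2 (fun k => A k x q.1)
        (fun k hk => hM k hk q.1 (Ioo_subset_Icc_self hq.1))⟩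
    have hA0 := D.hA
    have hB0 := D.hB0
    refine lg_int2 _ ?_ (C ^ 2 * (D.A * (2 * D.T ^ 2 + 8) + 8 * D.A + D.B)) (2 * (N + 1) + 1) ?_
    · refine ContinuousOn.div (ContinuousOn.mul ?_ ?_) (by fun_prop) fun q hq =>
        (show (0 : ℝ) < q.2 from hq.2).ne'
      · unfold gam
        exact (continuousOn_const.mul (((lg_tt_cont D.T).comp
          (by fun_prop : ContinuousOn (fun q : ℝ × ℝ => q.2) S2) fun q hq => hq.2).pow 2)).add
            continuousOn_const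
      · have : Continuous fun q : ℝ × ℝ => U N A (x, q) := by
          unfold U
          refine continuous_finsetSum _ fun k _ => Continuous.mul ?_ ?_
          · exact (hA.smooth k).continuous.comp (by fun_prop : Continuous fun q : ℝ × ℝ => (x, q.1))
          · exact Complex.continuous_ofReal.comp ((lg_cont k).comp (by fun_prop))
        exact (this.norm.pow 2).continuousOn
    · intro q hq
      have hp : (0 : ℝ) < q.2 := hq.2
      have ht := lg_tt_sq (T := D.T) (by linarith) hp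
      have hg : gam D.T D.A D.B q.2 * q.2 ≤
          (D.A * (2 * D.T ^ 2 + 8) + 8 * D.A + D.B) * (1 + q.2) := by
        unfold gam
        have h1 : D.A * tt D.T q.2 ^ 2 * q.2 ≤ D.A * (2 * D.T ^ 2 + 8 * (1 + 1 / q.2)) * q.2 := by
          gcongr
        have h2 : D.A * (2 * D.T ^ 2 + 8 * (1 + 1 / q.2)) * q.2 =
            D.A * (2 * D.T ^ 2 + 8) * q.2 + 8 * D.A := by field_simp; ring
        have h3 : 0 ≤ D.A * (2 * D.T ^ 2 + 8) := by positivity
        have h4 : 0 ≤ 8 * D.A * q.2 := by positivity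
        nlinarith [h1, h2, h3, h4]
      have hg0 : 0 ≤ gam D.T D.A D.B q.2 := by unfold gam; positivity
      rw [abs_of_nonneg (by positivity), div_le_iff₀ hp]
      have hsq := lg_exp_sq q.2
      calc gam D.T D.A D.B q.2 * ‖U N A (x, q)‖ ^ 2
          ≤ gam D.T D.A D.B q.2 * (C * (q.2 * (1 + q.2) ^ (N + 1) * Real.exp (-q.2))) ^ 2 := by
            gcongr
            exact hb q hq
        _ = (gam D.T D.A D.B q.2 * q.2) * (C ^ 2 * q.2 * (1 + q.2) ^ (2 * (N + 1)) *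
              (Real.exp (-q.2) * Real.exp (-q.2))) := by ring
        _ ≤ ((D.A * (2 * D.T ^ 2 + 8) + 8 * D.A + D.B) * (1 + q.2)) *
              (C ^ 2 * q.2 * (1 + q.2) ^ (2 * (N + 1)) *
              (Real.exp (-q.2) * Real.exp (-q.2))) := by gcongr
        _ = _ := by rw [hsq]; ring
  have eb : ∫ q in S2, gam D.T D.A D.B q.2 *
          (‖U N A (D.b, q)‖ ^ 2 + ‖U N A (D.a, q)‖ ^ 2) / q.2 =
      (∫ q in S2, gam D.T D.A D.B q.2 * ‖U N A (D.b, q)‖ ^ 2 / q.2) +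
      ∫ q in S2, gam D.T D.A D.B q.2 * ‖U N A (D.a, q)‖ ^ 2 / q.2 := by
    rw [← integral_add (ib D.b) (ib D.a)]
    congr 1
    funext q
    ring
  rw [eb] at pg
  rw [lg_split iL1, lg_split iN, lg_split iB]
  rw [lg_split iM, lg_split iS] at key
  have n1 : 0 ≤ ∫ s in S3 D.a0 D.a, ‖BB D N A s‖ ^ 2 / s.2.2 :=
    setIntegral_nonneg (lg_meas_S3 _ _) fun s hs => div_nonneg (sq_nonneg _) (hpos s (sub1 hs)).le
  have n2 : 0 ≤ ∫ s in S3 D.b D.b0, ‖BB D N A s‖ ^ 2 / s.2.2 :=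
    setIntegral_nonneg (lg_meas_S3 _ _) fun s hs => div_nonneg (sq_nonneg _) (hpos s (sub3 hs)).le
  have n3 : 0 ≤ ∫ s in S3 D.a0 D.a, D.σ s.1 ^ 2 / 4 * ‖U N A s‖ ^ 2 :=
    integral_nonneg fun s => by positivity
  have n4 : 0 ≤ ∫ s in S3 D.b D.b0, D.σ s.1 ^ 2 / 4 * ‖U N A s‖ ^ 2 :=
    integral_nonneg fun s => by positivity
  have n5 : 0 ≤ ∫ s in S3 D.a D.b, (deriv D.μ s.1 / 32) * (4 * s.2.2 + 1 / s.2.2) *
      ‖U N A s‖ ^ 2 / s.2.2 :=
    setIntegral_nonneg (lg_meas_S3 _ _) fun s hs => by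
      have hp := hpos s (sub2 hs)
      have h1 := D.μ_sq_le (sub2 hs).1
      have h2 : 0 ≤ deriv D.μ s.1 := by nlinarith [sq_nonneg (D.μ s.1)]
      positivity
  linarith

end Pool.Agent.DbarN
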