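import Pool.Agent.DbarN.DagCore
import Pool.Agent.DbarN.LAG

/-! # The main inequality on the domain -/

set_option autoImplicit false

namespace Pool.Agent.DbarN

open MeasureTheory Complex Set
open scoped ComplexConjugate ContDiff

theorem dag (D : Prof) (hG : D.GSI) (N : ℕ) (y : ℕ → ℂ → ℂ) (hy : Adm D N y) :
    (∫ p in D.Ω, (‖p.1‖ ^ 2 + ‖D.V p‖ ^ 2 / 2) * ‖tf D N y p‖ ^ 2) +
      D.cw * (∫ s in SS D, ‖UU N y s‖ ^ 2 / tt D.T s.2.2 ^ 2) ≤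
    ∫ p in D.Ω, ‖tfD D N y p‖ ^ 2 :=
  dag_of_lag D (lag D hG) N y hy

end Pool.Agent.DbarN
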