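import Pool.Agent.DbarN.Prof

set_option autoImplicit false

/-!
# Gram matrices on the disc and on the half line; intertwining relation
-/

namespace Pool.Agent.DbarN

open MeasureTheory Complex Set
open scoped ComplexConjugate ContDiff

/-- the moments of the unit disc -/
theorem disc_moment (i j : ℕ) :
    ∫ v in Metric.ball (0 : ℂ) 1, v ^ i * conj v ^ j =
      if i = j then ((Real.pi / (i + 1) : ℝ) : ℂ) else 0 := by
  rw [← integral_indicator Metric.isOpen_ball.measurableSet,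
    ← Complex.integral_comp_polarCoord_symm]
  have h1 : ∀ p ∈ polarCoord.target,
      p.1 • (Metric.ball (0 : ℂ) 1).indicator (fun v => v ^ i * conj v ^ j)
        (Complex.polarCoord.symm p) =
      (Ioo (0 : ℝ) 1 ×ˢ Ioo (-Real.pi) Real.pi).indicator
        (fun p : ℝ × ℝ => ((p.1 ^ (i + j + 1) : ℝ) : ℂ) *
          exp ((((i : ℂ) - j) * I) * (p.2 : ℂ))) p := by
    intro p hp
    have hp1 : 0 < p.1 := by simpa [polarCoord] using hp.1
    have hp2 : p.2 ∈ Ioo (-Real.pi) Real.pi := hp.2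
    have hsym : Complex.polarCoord.symm p = (p.1 : ℂ) * exp (I * p.2) := by
      rw [Complex.polarCoord_symm_apply, mul_comm I, exp_mul_I, ofReal_cos, ofReal_sin]
    have hn : ‖Complex.polarCoord.symm p‖ = p.1 := by
      rw [Complex.norm_polarCoord_symm, abs_of_pos hp1]
    by_cases h : p.1 < 1
    · have hm : Complex.polarCoord.symm p ∈ Metric.ball (0 : ℂ) 1 := by
        rw [mem_ball_zero_iff, hn]
        exact h
      have hm' : p ∈ Ioo (0 : ℝ) 1 ×ˢ Ioo (-Real.pi) Real.pi := ⟨⟨hp1, h⟩, hp2⟩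
      rw [indicator_of_mem hm, indicator_of_mem hm', hsym]
      have hc : conj ((p.1 : ℂ) * exp (I * p.2)) = (p.1 : ℂ) * exp (-(I * p.2)) := by
        rw [map_mul, conj_ofReal, ← exp_conj, map_mul, conj_I, conj_ofReal, neg_mul]
      rw [hc, mul_pow, mul_pow, ← exp_nat_mul, ← exp_nat_mul]
      have he : exp ((((i : ℂ) - j) * I) * (p.2 : ℂ)) =
          exp (i * (I * p.2)) * exp (j * -(I * p.2)) := by
        rw [← exp_add]
        congr 1
        ring
      rw [he, real_smul]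
      push_cast
      ring
    · have hm : Complex.polarCoord.symm p ∉ Metric.ball (0 : ℂ) 1 := by
        rw [mem_ball_zero_iff, hn]
        exact h
      have hm' : p ∉ Ioo (0 : ℝ) 1 ×ˢ Ioo (-Real.pi) Real.pi := fun hm => h hm.1.2
      rw [indicator_of_notMem hm, indicator_of_notMem hm', smul_zero]
  rw [setIntegral_congr_fun polarCoord.open_target.measurableSet h1]
  have hsub : Ioo (0 : ℝ) 1 ×ˢ Ioo (-Real.pi) Real.pi ⊆ polarCoord.target := by
    rintro p ⟨h1, h2⟩
    exact ⟨h1.1, h2⟩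
  rw [setIntegral_indicator (measurableSet_Ioo.prod measurableSet_Ioo),
    inter_eq_right.2 hsub]
  have h2 := setIntegral_prod_mul (μ := (volume : Measure ℝ)) (ν := (volume : Measure ℝ))
    (fun r : ℝ => ((r ^ (i + j + 1) : ℝ) : ℂ))
    (fun θ : ℝ => exp ((((i : ℂ) - j) * I) * (θ : ℂ))) (Ioo (0 : ℝ) 1) (Ioo (-Real.pi) Real.pi)
  rw [Measure.volume_eq_prod]
  rw [h2]
  have h3 : ∫ r in Ioo (0 : ℝ) 1, ((r ^ (i + j + 1) : ℝ) : ℂ) = ((1 / ((i : ℝ) + j + 2) : ℝ) : ℂ) := by
    rw [integral_complex_ofReal, ← integral_Ioc_eq_integral_Ioo,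
      ← intervalIntegral.integral_of_le zero_le_one, integral_pow, one_pow,
      zero_pow (by omega), sub_zero]
    have : (((i + j + 1 : ℕ) : ℝ) + 1) = (i : ℝ) + j + 2 := by
      push_cast
      ring
    rw [this]
  have h4 : ∫ θ in Ioo (-Real.pi) Real.pi, exp ((((i : ℂ) - j) * I) * (θ : ℂ)) =
      if i = j then ((2 * Real.pi : ℝ) : ℂ) else 0 := by
    rw [← integral_Ioc_eq_integral_Ioo,
      ← intervalIntegral.integral_of_le (by linarith [Real.pi_pos])]
    split_ifs with h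
    · subst h
      simp
      ring
    · have hne : ((i : ℂ) - j) * I ≠ 0 := by
        refine mul_ne_zero (sub_ne_zero.2 ?_) I_ne_zero
        exact_mod_cast h
      rw [integral_exp_mul_complex hne]
      have : exp (((i : ℂ) - j) * I * (Real.pi : ℝ)) = exp (((i : ℂ) - j) * I * ((-Real.pi : ℝ) : ℂ)) := by
        rw [exp_eq_exp_iff_exists_int]
        refine ⟨(i : ℤ) - j, ?_⟩
        push_cast
        ring
      rw [this, sub_self, zero_div]
  rw [h3, h4]
  split_ifs with h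
  · subst h
    rw [← ofReal_mul]
    congr 1
    field_simp
    ring
  · rw [mul_zero]

/-- Vandermonde -/
theorem vander (k l : ℕ) :
    ∑ j ∈ Finset.range (k + 1), (k.choose j : ℝ) * (l.choose j : ℝ) / (j + 1) =
      ((k + l + 1).factorial : ℝ) / ((k + 1).factorial * (l + 1).factorial) := by
  have h1 : ∀ j ∈ Finset.range (k + 1), (k.choose j : ℝ) * (l.choose j : ℝ) / (j + 1) =
      (((k + 1).choose (j + 1) * l.choose j : ℕ) : ℝ) / (k + 1) := by
    intro j _
    have := Nat.add_one_mul_choose_eq k j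
    have h' : ((k : ℝ) + 1) * (k.choose j : ℝ) = ((k + 1).choose (j + 1) : ℝ) * (j + 1) := by
      exact_mod_cast this
    push_cast
    field_simp
    linear_combination (l.choose j : ℝ) * h'
  rw [Finset.sum_congr rfl h1, ← Finset.sum_div, ← Nat.cast_sum]
  have h2 : ∑ j ∈ Finset.range (k + 1), (k + 1).choose (j + 1) * l.choose j =
      (k + 1 + l).choose (l + 1) := by
    rw [Nat.add_choose_eq, Finset.Nat.sum_antidiagonal_eq_sum_range_succ
      (fun a b => (k + 1).choose a * l.choose b)]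
    rw [Finset.sum_range_succ' _ (l + 1)]
    simp only [Nat.sub_zero, Nat.choose_succ_self, mul_zero, add_zero]
    have h3 : ∀ j ∈ Finset.range (l + 1), (k + 1).choose (j + 1) * l.choose (l + 1 - (j + 1)) =
        (k + 1).choose (j + 1) * l.choose j := by
      intro j hj
      have hj' : j ≤ l := by simpa [Nat.lt_succ_iff] using hj
      rw [Nat.add_sub_add_right, Nat.choose_symm hj']
    rw [Finset.sum_congr rfl h3]
    rcases le_total k l with hkl | hkl
    · refine Finset.sum_subset (fun x hx => ?_) (fun x _ hx => ?_)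
      · simp only [Finset.mem_range] at hx ⊢
        omega
      · simp only [Finset.mem_range, not_lt] at hx
        rw [Nat.choose_eq_zero_of_lt (by omega), zero_mul]
    · symm
      refine Finset.sum_subset (fun x hx => ?_) (fun x _ hx => ?_)
      · simp only [Finset.mem_range] at hx ⊢
        omega
      · simp only [Finset.mem_range, not_lt] at hx
        rw [Nat.choose_eq_zero_of_lt (n := l) (by omega), mul_zero]
  rw [h2]
  have h5 : (k + 1 + l).choose (l + 1) * (l + 1).factorial * k.factorial =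
      (k + l + 1).factorial := by
    have := Nat.choose_mul_factorial_mul_factorial (n := k + 1 + l) (k := l + 1) (by omega)
    rw [show k + 1 + l - (l + 1) = k by omega] at this
    rw [this]
    congr 1
    omega
  rw [← h5, Nat.factorial_succ k]
  push_cast
  have h6 : ((l + 1).factorial : ℝ) ≠ 0 := by positivity
  have h7 : (k.factorial : ℝ) ≠ 0 := by positivity
  field_simp

theorem disc_gram (k l : ℕ) :
    ∫ v in Metric.ball (0 : ℂ) 1, (1 + v) ^ k * conj ((1 + v) ^ l) =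
      ((Real.pi * (((k + l + 1).factorial : ℝ) / ((k + 1).factorial * (l + 1).factorial)) : ℝ) :
        ℂ) := by
  have hexp : ∀ v : ℂ, (1 + v) ^ k * conj ((1 + v) ^ l) =
      ∑ i ∈ Finset.range (k + 1), ∑ j ∈ Finset.range (l + 1),
        ((k.choose i : ℂ) * (l.choose j : ℂ)) * (v ^ i * conj v ^ j) := by
    intro v
    rw [map_pow, map_add, map_one, add_comm 1 v, add_comm 1 (conj v), add_pow, add_pow,
      Finset.sum_mul_sum]
    refine Finset.sum_congr rfl fun i _ => Finset.sum_congr rfl fun j _ => ?_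
    simp only [one_pow, mul_one]
    ring
  have hint : ∀ i j : ℕ, ∀ c : ℂ, IntegrableOn (fun v : ℂ => c * (v ^ i * conj v ^ j))
      (Metric.ball (0 : ℂ) 1) := by
    intro i j c
    have hc : Continuous (fun v : ℂ => c * (v ^ i * conj v ^ j)) := by
      fun_prop
    exact (hc.continuousOn.integrableOn_compact (isCompact_closedBall (0 : ℂ) 1)).mono_set
      Metric.ball_subset_closedBall
  simp only [hexp]
  rw [integral_finsetSum _ fun i _ => integrable_finsetSum _ fun j _ => hint i j _]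
  have h1 : ∀ i ∈ Finset.range (k + 1),
      ∫ v in Metric.ball (0 : ℂ) 1, ∑ j ∈ Finset.range (l + 1),
        ((k.choose i : ℂ) * (l.choose j : ℂ)) * (v ^ i * conj v ^ j) =
      ((Real.pi * ((k.choose i : ℝ) * (l.choose i : ℝ) / (i + 1)) : ℝ) : ℂ) := by
    intro i _
    rw [integral_finsetSum _ fun j _ => hint i j _]
    have h2 : ∀ j ∈ Finset.range (l + 1),
        ∫ v in Metric.ball (0 : ℂ) 1,
          ((k.choose i : ℂ) * (l.choose j : ℂ)) * (v ^ i * conj v ^ j) =
        if i = j then ((k.choose i : ℂ) * (l.choose j : ℂ)) * ((Real.pi / (i + 1) : ℝ) : ℂ)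
          else 0 := by
      intro j _
      rw [integral_const_mul, disc_moment]
      split_ifs <;> simp
    rw [Finset.sum_congr rfl h2, Finset.sum_ite_eq]
    split_ifs with hi
    · push_cast
      ring
    · rw [Nat.choose_eq_zero_of_lt (n := l) (by simpa using hi)]
      simp
  rw [Finset.sum_congr rfl h1, ← ofReal_sum, ← Finset.mul_sum, vander]

theorem gk_gram (k l : ℕ) :
    IntegrableOn (fun p : ℝ => gk k p * gk l p / p) (Ioi 0) ∧
    ∫ p in Ioi (0 : ℝ), gk k p * gk l p / p =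
      Real.pi * (((k + l + 1).factorial : ℝ) / ((k + 1).factorial * (l + 1).factorial)) := by
  set c : ℝ := Real.pi * 2 ^ (k + l + 2) / ((k + 1).factorial * (l + 1).factorial) with hc
  have h1 : ∀ p ∈ Ioi (0 : ℝ), gk k p * gk l p / p =
      c * (p ^ (((k + l + 2 : ℕ) : ℝ) - 1) * Real.exp (-(2 * p))) := by
    intro p hp
    have hp' : (0 : ℝ) < p := hp
    have h2 : p ^ (((k + l + 2 : ℕ) : ℝ) - 1) = p ^ (k + l + 1) := by
      rw [← Real.rpow_natCast]
      congr 1
      push_cast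
      ring
    have h3 : Real.exp (-(2 * p)) = Real.exp (-p) * Real.exp (-p) := by
      rw [← Real.exp_add]
      congr 1
      ring
    have h4 : Real.sqrt Real.pi * Real.sqrt Real.pi = Real.pi :=
      Real.mul_self_sqrt Real.pi_pos.le
    rw [h2, h3, hc]
    unfold gk
    have h5 : ((k + 1).factorial : ℝ) ≠ 0 := by positivity
    have h6 : ((l + 1).factorial : ℝ) ≠ 0 := by positivity
    have h7 : (Real.sqrt Real.pi * 2 ^ (k + 1) * p ^ (k + 1) * Real.exp (-p) /
        ((k + 1).factorial : ℝ)) * (Real.sqrt Real.pi * 2 ^ (l + 1) * p ^ (l + 1) * Real.exp (-p) /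
        ((l + 1).factorial : ℝ)) / p = (Real.sqrt Real.pi * Real.sqrt Real.pi) *
        (2 ^ (k + 1) * 2 ^ (l + 1)) * (p ^ (k + 1) * p ^ (l + 1) / p) *
        (Real.exp (-p) * Real.exp (-p)) / (((k + 1).factorial : ℝ) * ((l + 1).factorial : ℝ)) := by
      field_simp
    rw [h7, h4]
    have h8 : p ^ (k + 1) * p ^ (l + 1) / p = p ^ (k + l + 1) := by
      rw [← pow_add, div_eq_iff hp'.ne', ← pow_succ]
      congr 1
      omega
    rw [h8]
    have h9 : (2 : ℝ) ^ (k + 1) * 2 ^ (l + 1) = 2 ^ (k + l + 2) := by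
      rw [← pow_add]
      congr 1
      omega
    rw [h9]
    ring
  have hpos : (0 : ℝ) < ((k + l + 2 : ℕ) : ℝ) := by positivity
  have hI := Real.integral_rpow_mul_exp_neg_mul_Ioi hpos (r := 2) two_pos
  have hG : Real.Gamma ((k + l + 2 : ℕ) : ℝ) = ((k + l + 1).factorial : ℝ) := by
    have := Real.Gamma_nat_eq_factorial (k + l + 1)
    rw [← this]
    congr 1
    push_cast
    ring
  have hval : ∫ p in Ioi (0 : ℝ), p ^ (((k + l + 2 : ℕ) : ℝ) - 1) * Real.exp (-(2 * p)) =
      ((k + l + 1).factorial : ℝ) / 2 ^ (k + l + 2) := by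
    rw [hI, hG, Real.rpow_natCast, one_div, inv_pow]
    field_simp
  have hne : ∫ p in Ioi (0 : ℝ), p ^ (((k + l + 2 : ℕ) : ℝ) - 1) * Real.exp (-(2 * p)) ≠ 0 := by
    rw [hval]
    positivity
  have hint : IntegrableOn (fun p : ℝ => p ^ (((k + l + 2 : ℕ) : ℝ) - 1) * Real.exp (-(2 * p)))
      (Ioi 0) := by
    by_contra h
    exact hne (integral_undef h)
  constructor
  · refine IntegrableOn.congr_fun (Integrable.const_mul hint c) (fun p hp => ?_) measurableSet_Ioi
    exact (h1 p hp).symm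
  · rw [setIntegral_congr_fun measurableSet_Ioi h1, integral_const_mul, hval, hc]
    have h5 : ((k + 1).factorial : ℝ) ≠ 0 := by positivity
    have h6 : ((l + 1).factorial : ℝ) ≠ 0 := by positivity
    field_simp

theorem norm_sq_sum (N : ℕ) (a w : ℕ → ℂ) :
    ((‖∑ k ∈ Finset.range N, a k * w k‖ ^ 2 : ℝ) : ℂ) =
      ∑ k ∈ Finset.range N, ∑ l ∈ Finset.range N, (a k * conj (a l)) * (w k * conj (w l)) := by
  rw [ofReal_pow, ← Complex.mul_conj', map_sum, Finset.sum_mul_sum]
  refine Finset.sum_congr rfl fun i _ => Finset.sum_congr rfl fun j _ => ?_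
  rw [map_mul]
  ring

theorem gram (N : ℕ) (a : ℕ → ℂ) :
    ∫ v in Metric.ball (0 : ℂ) 1, ‖∑ k ∈ Finset.range N, a k * (1 + v) ^ k‖ ^ 2 =
      ∫ p in Ioi (0 : ℝ), ‖∑ k ∈ Finset.range N, a k * (gk k p : ℂ)‖ ^ 2 / p := by
  have hL : ((∫ v in Metric.ball (0 : ℂ) 1, ‖∑ k ∈ Finset.range N, a k * (1 + v) ^ k‖ ^ 2 : ℝ) :
      ℂ) = ∑ k ∈ Finset.range N, ∑ l ∈ Finset.range N, (a k * conj (a l)) *
        ((Real.pi * (((k + l + 1).factorial : ℝ) / ((k + 1).factorial * (l + 1).factorial)) : ℝ) :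
        ℂ) := by
    rw [← integral_complex_ofReal]
    simp only [norm_sq_sum N a]
    have hint : ∀ k l : ℕ, ∀ c : ℂ, IntegrableOn
        (fun v : ℂ => c * ((1 + v) ^ k * conj ((1 + v) ^ l))) (Metric.ball (0 : ℂ) 1) := by
      intro k l c
      have hc : Continuous (fun v : ℂ => c * ((1 + v) ^ k * conj ((1 + v) ^ l))) := by
        fun_prop
      exact (hc.continuousOn.integrableOn_compact (isCompact_closedBall (0 : ℂ) 1)).mono_set
        Metric.ball_subset_closedBall
    rw [integral_finsetSum _ fun i _ => integrable_finsetSum _ fun j _ => hint i j _]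
    refine Finset.sum_congr rfl fun k _ => ?_
    rw [integral_finsetSum _ fun j _ => hint k j _]
    refine Finset.sum_congr rfl fun l _ => ?_
    rw [integral_const_mul, disc_gram]
  have hR : ((∫ p in Ioi (0 : ℝ), ‖∑ k ∈ Finset.range N, a k * (gk k p : ℂ)‖ ^ 2 / p : ℝ) : ℂ) =
      ∑ k ∈ Finset.range N, ∑ l ∈ Finset.range N, (a k * conj (a l)) *
        ((Real.pi * (((k + l + 1).factorial : ℝ) / ((k + 1).factorial * (l + 1).factorial)) : ℝ) :
        ℂ) := by
    rw [← integral_complex_ofReal]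
    have h1 : ∀ p : ℝ, ((‖∑ k ∈ Finset.range N, a k * (gk k p : ℂ)‖ ^ 2 / p : ℝ) : ℂ) =
        ∑ k ∈ Finset.range N, ∑ l ∈ Finset.range N, (a k * conj (a l)) *
          ((gk k p * gk l p / p : ℝ) : ℂ) := by
      intro p
      rw [ofReal_div, norm_sq_sum N a, Finset.sum_div]
      refine Finset.sum_congr rfl fun k _ => ?_
      rw [Finset.sum_div]
      refine Finset.sum_congr rfl fun l _ => ?_
      rw [conj_ofReal]
      push_cast
      ring
    simp only [h1]
    have hint : ∀ k l : ℕ, ∀ c : ℂ, IntegrableOn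
        (fun p : ℝ => c * ((gk k p * gk l p / p : ℝ) : ℂ)) (Ioi 0) := fun k l c =>
      Integrable.const_mul (gk_gram k l).1.ofReal c
    rw [integral_finsetSum _ fun i _ => integrable_finsetSum _ fun j _ => hint i j _]
    refine Finset.sum_congr rfl fun k _ => ?_
    rw [integral_finsetSum _ fun j _ => hint k j _]
    refine Finset.sum_congr rfl fun l _ => ?_
    rw [integral_const_mul, integral_complex_ofReal, (gk_gram k l).2]
  exact ofReal_injective (hL.trans hR.symm)

/-! ### the intertwining relation -/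

theorem gk_hasDerivAt (k : ℕ) (p : ℝ) :
    HasDerivAt (gk k) (Real.sqrt Real.pi * 2 ^ (k + 1) / (k + 1).factorial *
      (((k + 1 : ℝ) * p ^ k - p ^ (k + 1)) * Real.exp (-p))) p := by
  have h1 : HasDerivAt (fun p : ℝ => p ^ (k + 1)) (((k + 1 : ℕ) : ℝ) * p ^ k) p :=
    hasDerivAt_pow (k + 1) p
  have h2 : HasDerivAt (fun p : ℝ => Real.exp (-p)) (Real.exp (-p) * (-1)) p :=
    (hasDerivAt_neg p).exp
  have h3 := (h1.mul h2).const_mul (Real.sqrt Real.pi * 2 ^ (k + 1) / (k + 1).factorial)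
  have h4 : gk k = fun p : ℝ => Real.sqrt Real.pi * 2 ^ (k + 1) / (k + 1).factorial *
      (p ^ (k + 1) * Real.exp (-p)) := by
    funext p
    unfold gk
    ring
  rw [h4]
  refine h3.congr_deriv ?_
  push_cast
  ring

theorem gk_deriv (k : ℕ) : deriv (gk k) = fun p : ℝ =>
    Real.sqrt Real.pi * 2 ^ (k + 1) / (k + 1).factorial *
      (((k + 1 : ℝ) * p ^ k - p ^ (k + 1)) * Real.exp (-p)) :=
  funext fun p => (gk_hasDerivAt k p).deriv

theorem gk_deriv2 (k : ℕ) (p : ℝ) : deriv (deriv (gk k)) p =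
    Real.sqrt Real.pi * 2 ^ (k + 1) / (k + 1).factorial *
      (((k + 1 : ℝ) * (k * p ^ (k - 1)) - 2 * (k + 1 : ℝ) * p ^ k + p ^ (k + 1)) *
        Real.exp (-p)) := by
  rw [gk_deriv]
  have h0 : HasDerivAt (fun p : ℝ => p ^ k) ((k : ℝ) * p ^ (k - 1)) p := hasDerivAt_pow k p
  have h1 : HasDerivAt (fun p : ℝ => p ^ (k + 1)) (((k + 1 : ℕ) : ℝ) * p ^ k) p :=
    hasDerivAt_pow (k + 1) p
  have h2 : HasDerivAt (fun p : ℝ => Real.exp (-p)) (Real.exp (-p) * (-1)) p :=
    (hasDerivAt_neg p).exp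
  have h3 := (((h0.const_mul (k + 1 : ℝ)).sub h1).mul h2).const_mul
    (Real.sqrt Real.pi * 2 ^ (k + 1) / (k + 1).factorial)
  refine (h3.congr_deriv ?_).deriv
  simp only [Pi.sub_apply]
  push_cast
  ring

theorem gk_zero (p : ℝ) : 2 * p * Real.exp (-p) * Real.sqrt Real.pi = gk 0 p := by
  unfold gk
  simp
  ring

/-- `2 p g_k = (k+2) g_{k+1}` -/
theorem gk_up (k : ℕ) (p : ℝ) : 2 * p * gk k p = (k + 2 : ℝ) * gk (k + 1) p := by
  unfold gk
  rw [Nat.factorial_succ (k + 1)]
  push_cast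
  have h5 : ((k + 1).factorial : ℝ) ≠ 0 := by positivity
  have h6 : ((k : ℝ) + 1 + 1) ≠ 0 := by positivity
  field_simp
  ring

/-- `p g_k' = (k+1) g_k - p g_k` -/
theorem gk_d1 (k : ℕ) (p : ℝ) : p * deriv (gk k) p = (k + 1 : ℝ) * gk k p - p * gk k p := by
  rw [gk_deriv]
  unfold gk
  ring

/-- `p (g_k - g_k'') = 2 (k+1) g_k - 2 k g_{k-1}` -/
theorem gk_d2 (k : ℕ) (p : ℝ) : p * (gk k p - deriv (deriv (gk k)) p) =
    2 * (k + 1 : ℝ) * gk k p - 2 * k * gk (k - 1) p := by
  rw [gk_deriv2]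
  cases k with
  | zero =>
    unfold gk
    simp
    ring
  | succ k =>
    unfold gk
    rw [Nat.add_sub_cancel, Nat.factorial_succ (k + 1)]
    push_cast
    have h5 : ((k + 1).factorial : ℝ) ≠ 0 := by positivity
    have h6 : ((k : ℝ) + 1 + 1) ≠ 0 := by positivity
    field_simp
    ring

theorem intertw (σ μ : ℝ) (N : ℕ) (a d : ℕ → ℂ) (ha : ∀ k, N ≤ k → a k = 0) (p : ℝ) :
    ∑ j ∈ Finset.range (N + 1), ((j : ℂ) + 1) *
      (((μ : ℂ) + I * (σ : ℂ)) * a j - (μ : ℂ) * a (j + 1)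
        - I * (σ : ℂ) * (if j = 0 then 0 else a (j - 1))) * (gk j p : ℂ) =
    I * (σ : ℂ) * p * (∑ k ∈ Finset.range N, a k * ((deriv (gk k) p : ℝ) : ℂ)) +
    (μ : ℂ) / 2 * p * ((∑ k ∈ Finset.range N, a k * (gk k p : ℂ)) -
      ∑ k ∈ Finset.range N, a k * ((deriv (deriv (gk k)) p : ℝ) : ℂ)) -
    I * (σ : ℂ) * p * (∑ k ∈ Finset.range N, a k * (gk k p : ℂ)) := by
  have e1 : ∀ k, (p : ℂ) * ((deriv (gk k) p : ℝ) : ℂ) =
      ((k : ℂ) + 1) * (gk k p : ℂ) - p * (gk k p : ℂ) := fun k => by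
    exact_mod_cast congrArg (fun x : ℝ => (x : ℂ)) (gk_d1 k p)
  have e2 : ∀ k, (p : ℂ) * ((gk k p : ℂ) - ((deriv (deriv (gk k)) p : ℝ) : ℂ)) =
      2 * ((k : ℂ) + 1) * (gk k p : ℂ) - 2 * k * (gk (k - 1) p : ℂ) := fun k => by
    exact_mod_cast congrArg (fun x : ℝ => (x : ℂ)) (gk_d2 k p)
  have e3 : ∀ k, 2 * (p : ℂ) * (gk k p : ℂ) = ((k : ℂ) + 2) * (gk (k + 1) p : ℂ) := fun k => by
    exact_mod_cast congrArg (fun x : ℝ => (x : ℂ)) (gk_up k p)
  -- the right hand side, termwise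
  have hR : I * (σ : ℂ) * p * (∑ k ∈ Finset.range N, a k * ((deriv (gk k) p : ℝ) : ℂ)) +
    (μ : ℂ) / 2 * p * ((∑ k ∈ Finset.range N, a k * (gk k p : ℂ)) -
      ∑ k ∈ Finset.range N, a k * ((deriv (deriv (gk k)) p : ℝ) : ℂ)) -
    I * (σ : ℂ) * p * (∑ k ∈ Finset.range N, a k * (gk k p : ℂ)) =
    (∑ k ∈ Finset.range N, ((k : ℂ) + 1) * (((μ : ℂ) + I * (σ : ℂ)) * a k) * (gk k p : ℂ)) -
      (∑ k ∈ Finset.range N, (k : ℂ) * ((μ : ℂ) * a k) * (gk (k - 1) p : ℂ)) -
      ∑ k ∈ Finset.range N, ((k : ℂ) + 2) * (I * (σ : ℂ) * a k) * (gk (k + 1) p : ℂ) := by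
    rw [← Finset.sum_sub_distrib, ← Finset.sum_sub_distrib, ← Finset.sum_sub_distrib,
      Finset.mul_sum, Finset.mul_sum, Finset.mul_sum, ← Finset.sum_add_distrib,
      ← Finset.sum_sub_distrib]
    refine Finset.sum_congr rfl fun k _ => ?_
    linear_combination (I * (σ : ℂ) * a k) * e1 k + ((μ : ℂ) / 2 * a k) * e2 k -
      (I * (σ : ℂ) * a k) * e3 k
  rw [hR]
  -- the left hand side
  have hL : ∀ j ∈ Finset.range (N + 1), ((j : ℂ) + 1) *
      (((μ : ℂ) + I * (σ : ℂ)) * a j - (μ : ℂ) * a (j + 1)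
        - I * (σ : ℂ) * (if j = 0 then 0 else a (j - 1))) * (gk j p : ℂ) =
      ((j : ℂ) + 1) * (((μ : ℂ) + I * (σ : ℂ)) * a j) * (gk j p : ℂ) -
      ((j : ℂ) + 1) * ((μ : ℂ) * a (j + 1)) * (gk j p : ℂ) -
      ((j : ℂ) + 1) * (I * (σ : ℂ) * (if j = 0 then 0 else a (j - 1))) * (gk j p : ℂ) := by
    intro j _
    ring
  rw [Finset.sum_congr rfl hL, Finset.sum_sub_distrib, Finset.sum_sub_distrib]
  congr 1
  · congr 1
    · rw [Finset.sum_range_succ, ha N le_rfl]
      simp
    · -- shift by one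
      have h1 : ∑ j ∈ Finset.range (N + 1), ((j : ℂ) + 1) * ((μ : ℂ) * a (j + 1)) * (gk j p : ℂ) =
          ∑ k ∈ Finset.range (N + 1 + 1), (k : ℂ) * ((μ : ℂ) * a k) * (gk (k - 1) p : ℂ) := by
        rw [Finset.sum_range_succ' _ (N + 1)]
        simp
      rw [h1, Finset.sum_range_succ, Finset.sum_range_succ, ha N le_rfl, ha (N + 1) (by omega)]
      simp
  · rw [Finset.sum_range_succ']
    simp only [Nat.add_eq_zero_iff, one_ne_zero, and_false, if_false, Nat.add_sub_cancel,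
      if_true, mul_zero, zero_mul, add_zero]
    refine Finset.sum_congr rfl fun k _ => ?_
    push_cast
    ring

end Pool.Agent.DbarN
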