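import Pool.Agent.DbarN.Cov
import Pool.Agent.DbarN.Gram

/-! # The main inequality on the domain (from the Laguerre side inequality) -/

set_option autoImplicit false

namespace Pool.Agent.DbarN

open MeasureTheory Complex Set
open scoped ComplexConjugate ContDiff

/-! ### integrability on the half line -/

theorem dagG_cont (k : ℕ) : Continuous (gk k) := by
  unfold gk
  fun_prop

theorem dagG_int (k : ℕ) : IntegrableOn (fun p : ℝ => gk k p ^ 2 / p) (Ioi 0) := by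
  have h := integrableOn_rpow_mul_exp_neg_mul_rpow (p := 1) (s := 2 * (k : ℝ) + 1) (b := 2)
    (by have := Nat.cast_nonneg (α := ℝ) k; linarith) one_pos two_pos
  have h2 := h.const_mul ((Real.sqrt Real.pi * 2 ^ (k + 1) / (k + 1).factorial) ^ 2)
  refine IntegrableOn.congr_fun h2 ?_ measurableSet_Ioi
  intro p hp
  have hp0 : (0 : ℝ) < p := hp
  have e1 : p ^ (2 * (k : ℝ) + 1) = p ^ (2 * k + 1) := by
    rw [← Real.rpow_natCast]
    congr 1
    push_cast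
    ring
  have e2 : Real.exp (-2 * p ^ (1 : ℝ)) = Real.exp (-p) ^ 2 := by
    rw [Real.rpow_one, ← Real.exp_nat_mul]
    congr 1
    push_cast
    ring
  simp only [e1, e2]
  unfold gk
  field_simp
  ring

theorem dagG_sum_int (N : ℕ) (a : ℕ → ℂ) :
    IntegrableOn (fun p : ℝ => ‖∑ k ∈ Finset.range N, a k * (gk k p : ℂ)‖ ^ 2 / p) (Ioi 0) := by
  have h : IntegrableOn (fun p : ℝ => (N : ℝ) * ∑ k ∈ Finset.range N,
      ‖a k‖ ^ 2 * (gk k p ^ 2 / p)) (Ioi 0) := by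
    refine Integrable.const_mul ?_ _
    refine integrable_finsetSum _ fun k _ => ?_
    exact (dagG_int k).const_mul _
  refine Integrable.mono' h ?_ ?_
  · have hc : Continuous fun p : ℝ => ‖∑ k ∈ Finset.range N, a k * (gk k p : ℂ)‖ ^ 2 := by
      have : ∀ k, Continuous fun p : ℝ => (gk k p : ℂ) :=
        fun k => Complex.continuous_ofReal.comp (dagG_cont k)
      fun_prop
    exact (hc.measurable.div measurable_id).aestronglyMeasurable
  · rw [ae_restrict_iff' measurableSet_Ioi]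
    refine Filter.Eventually.of_forall fun p hp => ?_
    have hp0 : (0 : ℝ) < p := hp
    rw [Real.norm_of_nonneg (by positivity), div_le_iff₀ hp0]
    have h1 : ‖∑ k ∈ Finset.range N, a k * (gk k p : ℂ)‖ ≤
        ∑ k ∈ Finset.range N, ‖a k‖ * |gk k p| := by
      refine (norm_sum_le _ _).trans (le_of_eq ?_)
      refine Finset.sum_congr rfl fun k _ => ?_
      rw [norm_mul, Complex.norm_real, Real.norm_eq_abs]
    have h2 : (∑ k ∈ Finset.range N, ‖a k‖ * |gk k p|) ^ 2 ≤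
        N * ∑ k ∈ Finset.range N, (‖a k‖ * |gk k p|) ^ 2 := by
      have := sq_sum_le_card_mul_sum_sq (s := Finset.range N) (f := fun k => ‖a k‖ * |gk k p|)
      simpa using this
    calc ‖∑ k ∈ Finset.range N, a k * (gk k p : ℂ)‖ ^ 2
        ≤ (∑ k ∈ Finset.range N, ‖a k‖ * |gk k p|) ^ 2 := by gcongr
      _ ≤ N * ∑ k ∈ Finset.range N, (‖a k‖ * |gk k p|) ^ 2 := h2
      _ = _ := by
        rw [mul_assoc, Finset.sum_mul]
        congr 1
        refine Finset.sum_congr rfl fun k _ => ?_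
        rw [mul_pow, sq_abs]
        field_simp

theorem dagV_sum_int (N : ℕ) (a : ℕ → ℂ) :
    IntegrableOn (fun v : ℂ => ‖∑ k ∈ Finset.range N, a k * (1 + v) ^ k‖ ^ 2)
      (Metric.ball 0 1) := by
  have hc : Continuous fun v : ℂ => ‖∑ k ∈ Finset.range N, a k * (1 + v) ^ k‖ ^ 2 := by
    fun_prop
  exact (hc.continuousOn.integrableOn_compact (isCompact_closedBall (0 : ℂ) 1)).mono_set
    Metric.ball_subset_closedBall

/-- the coordinate box -/
def CB (l m : ℝ) : Set (ℝ × ℝ × ℂ) :=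
  Ioo l m ×ˢ Ioo (-Real.pi) Real.pi ×ˢ Metric.ball (0 : ℂ) 1

theorem CB_meas (l m : ℝ) : MeasurableSet (CB l m) :=
  measurableSet_Ioo.prod (measurableSet_Ioo.prod Metric.isOpen_ball.measurableSet)

theorem S3_meas (l m : ℝ) : MeasurableSet (S3 l m) :=
  measurableSet_Ioo.prod (measurableSet_Ioo.prod measurableSet_Ioi)

theorem dagT_measL (N : ℕ) (a : ℕ → ℝ → ℝ → ℂ)
    (ha : ∀ k, Measurable fun q : ℝ × ℝ => a k q.1 q.2) :
    Measurable fun s : ℝ × ℝ × ℂ =>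
      ‖∑ k ∈ Finset.range N, a k s.1 s.2.1 * (1 + s.2.2) ^ k‖ ^ 2 := by
  have h1 : ∀ k, Measurable fun s : ℝ × ℝ × ℂ => a k s.1 s.2.1 := fun k =>
    (ha k).comp (measurable_fst.prodMk (measurable_fst.comp measurable_snd))
  have h2 : Measurable fun s : ℝ × ℝ × ℂ => s.2.2 := measurable_snd.comp measurable_snd
  have h3 : Measurable fun s : ℝ × ℝ × ℂ =>
      ∑ k ∈ Finset.range N, a k s.1 s.2.1 * (1 + s.2.2) ^ k := by
    refine Finset.measurable_sum _ fun k _ => ?_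
    exact (h1 k).mul ((h2.const_add 1).pow_const k)
  exact h3.norm.pow_const 2

theorem dagT_measR (N : ℕ) (a : ℕ → ℝ → ℝ → ℂ)
    (ha : ∀ k, Measurable fun q : ℝ × ℝ => a k q.1 q.2) :
    Measurable fun s : ℝ × ℝ × ℝ =>
      ‖∑ k ∈ Finset.range N, a k s.1 s.2.1 * (gk k s.2.2 : ℂ)‖ ^ 2 / s.2.2 := by
  have h1 : ∀ k, Measurable fun s : ℝ × ℝ × ℝ => a k s.1 s.2.1 := fun k =>
    (ha k).comp (measurable_fst.prodMk (measurable_fst.comp measurable_snd))
  have h2 : Measurable fun s : ℝ × ℝ × ℝ => s.2.2 := measurable_snd.comp measurable_snd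
  have h3 : Measurable fun s : ℝ × ℝ × ℝ =>
      ∑ k ∈ Finset.range N, a k s.1 s.2.1 * (gk k s.2.2 : ℂ) := by
    refine Finset.measurable_sum _ fun k _ => ?_
    exact (h1 k).mul (measurable_ofReal.comp ((dagG_cont k).measurable.comp h2))
  exact (h3.norm.pow_const 2).div h2

theorem dagTon {E : Type*} [MeasureSpace E] [SFinite (volume : Measure E)] (I J : Set ℝ)
    (B : Set E) (f : ℝ × ℝ × E → ENNReal) (hf : Measurable f) :
    ∫⁻ s in I ×ˢ J ×ˢ B, f s = ∫⁻ x in I, ∫⁻ t in J, ∫⁻ v in B, f (x, t, v) := by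
  rw [Measure.volume_eq_prod, setLIntegral_prod _ hf.aemeasurable]
  refine lintegral_congr fun x => ?_
  have hx : Measurable fun y : ℝ × E => f (x, y) := hf.comp measurable_prodMk_left
  rw [Measure.volume_eq_prod, setLIntegral_prod _ hx.aemeasurable]

/-- fibrewise isometry, integrated over the base -/
theorem dagT_lint (l m : ℝ) (N : ℕ) (a : ℕ → ℝ → ℝ → ℂ)
    (ha : ∀ k, Measurable fun q : ℝ × ℝ => a k q.1 q.2) :
    ∫⁻ s in CB l m, ENNReal.ofReal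
        (‖∑ k ∈ Finset.range N, a k s.1 s.2.1 * (1 + s.2.2) ^ k‖ ^ 2) =
      ∫⁻ s in S3 l m, ENNReal.ofReal
        (‖∑ k ∈ Finset.range N, a k s.1 s.2.1 * (gk k s.2.2 : ℂ)‖ ^ 2 / s.2.2) := by
  have mL := (dagT_measL N a ha).ennreal_ofReal
  have mR := (dagT_measR N a ha).ennreal_ofReal
  unfold CB S3 S2
  rw [dagTon _ _ _ _ mL, dagTon _ _ _ _ mR]
  refine lintegral_congr fun x => lintegral_congr fun t => ?_
  have e1 := ofReal_integral_eq_lintegral_ofReal (dagV_sum_int N fun k => a k x t)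
    (Filter.Eventually.of_forall fun v => by positivity)
  have e2 := ofReal_integral_eq_lintegral_ofReal (dagG_sum_int N fun k => a k x t)
    ((ae_restrict_iff' measurableSet_Ioi).2 (Filter.Eventually.of_forall fun p hp => by
      have : (0 : ℝ) < p := hp
      positivity))
  rw [← e1, ← e2, gram]

theorem dagT_int (l m : ℝ) (N : ℕ) (a : ℕ → ℝ → ℝ → ℂ)
    (ha : ∀ k, Measurable fun q : ℝ × ℝ => a k q.1 q.2) :
    ∫ s in CB l m, ‖∑ k ∈ Finset.range N, a k s.1 s.2.1 * (1 + s.2.2) ^ k‖ ^ 2 =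
      ∫ s in S3 l m,
        ‖∑ k ∈ Finset.range N, a k s.1 s.2.1 * (gk k s.2.2 : ℂ)‖ ^ 2 / s.2.2 := by
  rw [integral_eq_lintegral_of_nonneg_ae (Filter.Eventually.of_forall fun s => by positivity)
    (dagT_measL N a ha).aestronglyMeasurable, integral_eq_lintegral_of_nonneg_ae
    ((ae_restrict_iff' (S3_meas l m)).2 (Filter.Eventually.of_forall fun s hs => by
      have : (0 : ℝ) < s.2.2 := hs.2.2
      positivity)) (dagT_measR N a ha).aestronglyMeasurable, dagT_lint l m N a ha]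

theorem dagT_intble (l m : ℝ) (N : ℕ) (a : ℕ → ℝ → ℝ → ℂ)
    (ha : ∀ k, Measurable fun q : ℝ × ℝ => a k q.1 q.2)
    (h : IntegrableOn (fun s : ℝ × ℝ × ℂ =>
      ‖∑ k ∈ Finset.range N, a k s.1 s.2.1 * (1 + s.2.2) ^ k‖ ^ 2) (CB l m)) :
    IntegrableOn (fun s : ℝ × ℝ × ℝ =>
      ‖∑ k ∈ Finset.range N, a k s.1 s.2.1 * (gk k s.2.2 : ℂ)‖ ^ 2 / s.2.2) (S3 l m) := by
  refine ⟨(dagT_measR N a ha).aestronglyMeasurable, ?_⟩
  rw [hasFiniteIntegral_iff_ofReal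
    ((ae_restrict_iff' (S3_meas l m)).2 (Filter.Eventually.of_forall fun s hs => by
      have : (0 : ℝ) < s.2.2 := hs.2.2
      positivity)), ← dagT_lint l m N a ha]
  exact (hasFiniteIntegral_iff_ofReal (Filter.Eventually.of_forall fun s => by positivity)).1 h.2

/-! ### pull-back to the coordinate box -/

/-- `A_k = e^{-x} y_k(e^{x+iφ})` -/
noncomputable def AA (y : ℕ → ℂ → ℂ) (k : ℕ) (x t : ℝ) : ℂ :=
  (Real.exp (-x) : ℂ) * y k (exp ((x : ℂ) + I * (t : ℂ)))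

theorem dag_norm_exp (x t : ℝ) : ‖exp ((x : ℂ) + I * (t : ℂ))‖ = Real.exp x := by
  rw [Complex.norm_exp]
  simp

theorem dag_lx (x t : ℝ) : Prof.lx (exp ((x : ℂ) + I * (t : ℂ))) = x := by
  unfold Prof.lx
  rw [dag_norm_exp, Real.log_exp]

theorem dag_tau_ne (D : Prof) {x : ℝ} (hx : x ∈ Ioo D.a0 D.b0) : D.τ x ≠ 0 := by
  intro h0
  have := D.norm_τ hx
  rw [h0, norm_zero] at this
  exact (D.R_pos hx).ne this

theorem dag_om (D : Prof) {x : ℝ} (hx : x ∈ Ioo D.a0 D.b0) (t : ℝ) (v : ℂ) :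
    D.om (exp ((x : ℂ) + I * (t : ℂ)), D.c x + D.τ x * v) = v := by
  unfold Prof.om
  simp only [dag_lx]
  rw [add_sub_cancel_left, mul_div_cancel_left₀ _ (dag_tau_ne D hx)]

/-- common form of `tf` and `tfD` -/
theorem dag_form (D : Prof) (N : ℕ) (w : ℕ → ℂ → ℂ) {x : ℝ} (hx : x ∈ Ioo D.a0 D.b0) (t : ℝ)
    (v : ℂ) : (D.R x ^ 2 * Real.exp (2 * x)) *
      ‖(∑ k ∈ Finset.range N, w k (exp ((x : ℂ) + I * (t : ℂ))) * (1 + v) ^ k) /
        (((‖exp ((x : ℂ) + I * (t : ℂ))‖ ^ 2 : ℝ) : ℂ) * D.τ x)‖ ^ 2 =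
      ‖∑ k ∈ Finset.range N, AA w k x t * (1 + v) ^ k‖ ^ 2 := by
  have hR := D.R_pos hx
  have e : ∑ k ∈ Finset.range N, AA w k x t * (1 + v) ^ k = (Real.exp (-x) : ℂ) *
      ∑ k ∈ Finset.range N, w k (exp ((x : ℂ) + I * (t : ℂ))) * (1 + v) ^ k := by
    rw [Finset.mul_sum]
    refine Finset.sum_congr rfl fun k _ => ?_
    unfold AA
    ring
  rw [e, norm_mul, norm_div, norm_mul, D.norm_τ hx, dag_norm_exp, Complex.norm_real,
    Complex.norm_real, Real.norm_of_nonneg (Real.exp_pos _).le, Real.norm_of_nonneg (by positivity)]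
  have e2 : Real.exp (2 * x) = Real.exp x ^ 2 := by
    rw [← Real.exp_nat_mul]; norm_num
  have e3 : Real.exp (-x) = (Real.exp x)⁻¹ := Real.exp_neg x
  rw [e2, e3]
  have := Real.exp_pos x
  field_simp

theorem dag_cont (y : ℕ → ℂ → ℂ) (k : ℕ) (hy : Continuous (y k)) :
    Continuous fun q : ℝ × ℝ => AA y k q.1 q.2 := by
  unfold AA
  have : Continuous fun q : ℝ × ℝ => exp ((q.1 : ℂ) + I * (q.2 : ℂ)) := by fun_prop
  have h1 := hy.comp this
  have h2 : Continuous fun q : ℝ × ℝ => (Real.exp (-q.1) : ℂ) := by fun_prop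
  exact h2.mul h1

theorem iso (D : Prof) (N : ℕ) (y : ℕ → ℂ → ℂ) (hy : Adm D N y) :
    ∫ p in D.Ω, ‖tf D N y p‖ ^ 2 = ∫ s in SS D, ‖UU N y s‖ ^ 2 := by
  rw [cov D (fun p => ‖tf D N y p‖ ^ 2)]
  have h1 : ∫ s in CB D.a0 D.b0, ‖∑ k ∈ Finset.range N, AA y k s.1 s.2.1 * (1 + s.2.2) ^ k‖ ^ 2 =
      ∫ s in S3 D.a0 D.b0,
        ‖∑ k ∈ Finset.range N, AA y k s.1 s.2.1 * (gk k s.2.2 : ℂ)‖ ^ 2 / s.2.2 :=
    dagT_int D.a0 D.b0 N (AA y) fun k => (dag_cont y k (hy.smooth k).continuous).measurable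
  refine Eq.trans ?_ (h1.trans ?_)
  · refine setIntegral_congr_fun (CB_meas D.a0 D.b0) ?_
    intro s hs
    have hx : s.1 ∈ Ioo D.a0 D.b0 := hs.1
    have := dag_form D N y hx s.2.1 s.2.2
    refine Eq.trans ?_ this
    show (D.R s.1 ^ 2 * Real.exp (2 * s.1)) * _ = _
    unfold tf
    simp only [dag_om D hx, dag_lx]
  · refine setIntegral_congr_fun (S3_meas D.a0 D.b0) ?_
    intro s hs
    have hp : (0 : ℝ) < s.2.2 := hs.2.2
    show _ = ‖UU N y s‖ ^ 2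
    unfold UU AA
    rw [norm_mul, Complex.norm_real, Real.norm_of_nonneg (by positivity), mul_pow, div_pow,
      Real.sq_sqrt hp.le]
    have e : ∑ k ∈ Finset.range N, (Real.exp (-s.1) : ℂ) *
        y k (exp ((s.1 : ℂ) + I * (s.2.1 : ℂ))) * (gk k s.2.2 : ℂ) = (Real.exp (-s.1) : ℂ) *
        ∑ k ∈ Finset.range N, y k (exp ((s.1 : ℂ) + I * (s.2.1 : ℂ))) * (gk k s.2.2 : ℂ) := by
      rw [Finset.mul_sum]
      refine Finset.sum_congr rfl fun k _ => ?_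
      ring
    simp only [e]
    rw [norm_mul, Complex.norm_real, Real.norm_of_nonneg (Real.exp_pos _).le]
    ring

/-! ### derivatives of the coefficients -/

theorem dag_hx (y : ℕ → ℂ → ℂ) (k : ℕ) (hy : Differentiable ℝ (y k)) (x t : ℝ) :
    HasDerivAt (fun x => AA y k x t)
      (-AA y k x t + (Real.exp (-x) : ℂ) * fderiv ℝ (y k) (exp ((x : ℂ) + I * (t : ℂ)))
        (exp ((x : ℂ) + I * (t : ℂ)))) x := by
  have h1 : HasDerivAt (fun x : ℝ => exp ((x : ℂ) + I * (t : ℂ)))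
      (exp ((x : ℂ) + I * (t : ℂ))) x := by
    have := ((Complex.ofRealCLM.hasDerivAt (x := x)).add_const (I * (t : ℂ))).cexp
    simpa using this
  have h2 : HasDerivAt (fun x : ℝ => y k (exp ((x : ℂ) + I * (t : ℂ)))) _ x :=
    (hy (exp ((x : ℂ) + I * (t : ℂ)))).hasFDerivAt.comp_hasDerivAt x h1
  have h3 : HasDerivAt (fun x : ℝ => (Real.exp (-x) : ℂ)) (-(Real.exp (-x) : ℂ)) x := by
    have := ((hasDerivAt_id x).neg.exp).ofReal_comp
    simpa using this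
  have h4 := h3.mul h2
  refine h4.congr_deriv ?_
  unfold AA
  ring

theorem dag_ht (y : ℕ → ℂ → ℂ) (k : ℕ) (hy : Differentiable ℝ (y k)) (x t : ℝ) :
    HasDerivAt (fun t => AA y k x t)
      ((Real.exp (-x) : ℂ) * fderiv ℝ (y k) (exp ((x : ℂ) + I * (t : ℂ)))
        (I * exp ((x : ℂ) + I * (t : ℂ)))) t := by
  have h1 : HasDerivAt (fun t : ℝ => exp ((x : ℂ) + I * (t : ℂ)))
      (I * exp ((x : ℂ) + I * (t : ℂ))) t := by
    have := (((Complex.ofRealCLM.hasDerivAt (x := t)).const_mul I).const_add (x : ℂ)).cexp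
    simpa [mul_comm] using this
  have h2 : HasDerivAt (fun t : ℝ => y k (exp ((x : ℂ) + I * (t : ℂ)))) _ t :=
    (hy (exp ((x : ℂ) + I * (t : ℂ)))).hasFDerivAt.comp_hasDerivAt t h1
  exact h2.const_mul _

theorem dag_DZ (f : ℂ → ℂ) (z : ℂ) :
    -2 * z * DZ f z = -(fderiv ℝ f z z) + I * fderiv ℝ f z (I * z) := by
  unfold DZ
  have e1 : fderiv ℝ f z z = (z.re : ℂ) * fderiv ℝ f z 1 + (z.im : ℂ) * fderiv ℝ f z I := by
    have : z = z.re • (1 : ℂ) + z.im • I := by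
      apply Complex.ext <;> simp
    have h := congrArg (fderiv ℝ f z) this
    rw [map_add, map_smul, map_smul] at h
    simpa using h
  have e2 : fderiv ℝ f z (I * z) =
      -(z.im : ℂ) * fderiv ℝ f z 1 + (z.re : ℂ) * fderiv ℝ f z I := by
    have : I * z = (-z.im) • (1 : ℂ) + z.re • I := by
      apply Complex.ext <;> simp
    have h := congrArg (fderiv ℝ f z) this
    rw [map_add, map_smul, map_smul] at h
    simpa using h
  rw [e1, e2]
  have hz : z = (z.re : ℂ) + (z.im : ℂ) * I := (Complex.re_add_im z).symm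
  have hI : I * I = -1 := Complex.I_mul_I
  generalize fderiv ℝ f z 1 = F at *
  generalize fderiv ℝ f z I = G at *
  have e3 : -2 * z * ((F - I * G) / 2) = -((z.re : ℂ) + (z.im : ℂ) * I) * (F - I * G) := by
    rw [← hz]; ring
  rw [e3]
  linear_combination (z.im : ℂ) * G * hI

/-- the adjoint operator on the Laguerre side -/
theorem dag_pointwise (D : Prof) (N : ℕ) (y : ℕ → ℂ → ℂ) (hy : Adm D N y) (s : ℝ × ℝ × ℝ) :
    ∑ j ∈ Finset.range (N + 1), AA (dd D y) j s.1 s.2.1 * (gk j s.2.2 : ℂ) =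
      BB D N (AA y) s - nab D N (AA y) s := by
  obtain ⟨x, t, p⟩ := s
  have hd : ∀ k, Differentiable ℝ (y k) := fun k => (hy.smooth k).differentiable (by simp)
  have hz : ∀ k, N ≤ k → AA y k x t = 0 := by
    intro k hk
    unfold AA
    rw [hy.zero k hk]
    simp
  have key := intertw (D.σ x) (D.μ x) N (fun k => AA y k x t) (fun _ => 0) hz p
  have e1 : ∀ j, AA (dd D y) j x t = (-(deriv (fun x => AA y j x t) x) +
      I * deriv (fun t => AA y j x t) t - AA y j x t) + ((j : ℂ) + 1) *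
      (((D.μ x : ℂ) + I * (D.σ x : ℂ)) * AA y j x t - (D.μ x : ℂ) * AA y (j + 1) x t
        - I * (D.σ x : ℂ) * (if j = 0 then 0 else AA y (j - 1) x t)) := by
    intro j
    rw [(dag_hx y j (hd j) x t).deriv, (dag_ht y j (hd j) x t).deriv]
    unfold AA dd
    rw [dag_DZ, dag_lx]
    split_ifs with h <;> ring
  have e2 : ∑ j ∈ Finset.range (N + 1), (-(deriv (fun x => AA y j x t) x) +
      I * deriv (fun t => AA y j x t) t - AA y j x t) * (gk j p : ℂ) =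
      -Ux N (AA y) (x, t, p) + I * Uf N (AA y) (x, t, p) - U N (AA y) (x, t, p) := by
    rw [Finset.sum_range_succ]
    have hN : (fun x => AA y N x t) = fun _ => 0 := by
      funext x
      unfold AA
      rw [hy.zero N le_rfl]
      simp
    have hN' : (fun t => AA y N x t) = fun _ => 0 := by
      funext t
      unfold AA
      rw [hy.zero N le_rfl]
      simp
    rw [hN, hN', hz N le_rfl]
    unfold Ux Uf U
    simp only [deriv_const', neg_zero, mul_zero, add_zero, sub_zero, zero_mul]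
    rw [Finset.mul_sum, ← Finset.sum_neg_distrib, ← Finset.sum_add_distrib,
      ← Finset.sum_sub_distrib]
    refine Finset.sum_congr rfl fun k _ => ?_
    ring
  calc ∑ j ∈ Finset.range (N + 1), AA (dd D y) j x t * (gk j p : ℂ)
      = ∑ j ∈ Finset.range (N + 1), (-(deriv (fun x => AA y j x t) x) +
          I * deriv (fun t => AA y j x t) t - AA y j x t) * (gk j p : ℂ) +
        ∑ j ∈ Finset.range (N + 1), ((j : ℂ) + 1) *
          (((D.μ x : ℂ) + I * (D.σ x : ℂ)) * AA y j x t - (D.μ x : ℂ) * AA y (j + 1) x t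
        - I * (D.σ x : ℂ) * (if j = 0 then 0 else AA y (j - 1) x t)) * (gk j p : ℂ) := by
        rw [← Finset.sum_add_distrib]
        refine Finset.sum_congr rfl fun k _ => ?_
        rw [e1 k]
        ring
    _ = BB D N (AA y) (x, t, p) - nab D N (AA y) (x, t, p) := by
        rw [e2, key]
        unfold BB nab U Up Upp
        simp only
        ring

theorem dag_AC (D : Prof) (N : ℕ) (y : ℕ → ℂ → ℂ) (hy : Adm D N y) : AC (AA y) := by
  constructor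
  · intro k
    unfold AA
    have h1 : ContDiff ℝ ∞ fun q : ℝ × ℝ => exp ((q.1 : ℂ) + I * (q.2 : ℂ)) := by
      have h2 : ContDiff ℝ ∞ fun q : ℝ × ℝ => (q.1 : ℂ) := Complex.ofRealCLM.contDiff.comp contDiff_fst
      have h3 : ContDiff ℝ ∞ fun q : ℝ × ℝ => (q.2 : ℂ) := Complex.ofRealCLM.contDiff.comp contDiff_snd
      exact (h2.add (contDiff_const.mul h3)).cexp
    have h4 : ContDiff ℝ ∞ fun q : ℝ × ℝ => (Real.exp (-q.1) : ℂ) :=
      Complex.ofRealCLM.contDiff.comp (Real.contDiff_exp.comp contDiff_fst.neg)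
    exact h4.mul ((hy.smooth k).comp h1)
  · intro k x t
    unfold AA
    congr 2
    have : (x : ℂ) + I * ((t + 2 * Real.pi : ℝ) : ℂ) = ((x : ℂ) + I * (t : ℂ)) + 2 * Real.pi * I := by
      push_cast; ring
    rw [this, Complex.exp_periodic]

theorem dag_supp (D : Prof) (N : ℕ) (y : ℕ → ℂ → ℂ) (hy : Adm D N y) :
    ∃ a1 b1, D.a0 < a1 ∧ b1 < D.b0 ∧ ∀ k x t, x ∉ Ioo a1 b1 → AA y k x t = 0 := by
  let K : Set ℂ := ⋃ k ∈ Finset.range N, tsupport (y k)
  have hK : IsCompact K := Finset.isCompact_biUnion _ fun k _ => (hy.compact k)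
  have hKb : K ⊆ D.base := by
    intro z hz
    simp only [K, mem_iUnion] at hz
    obtain ⟨k, -, hk⟩ := hz
    exact hy.supp k hk
  have hcont : ContinuousOn Prof.lx K := by
    intro z hz
    have : z ≠ 0 := (hKb hz).1
    unfold Prof.lx
    exact (continuous_norm.continuousAt.log (norm_ne_zero_iff.2 this)).continuousWithinAt
  have hC : IsCompact (Prof.lx '' K) := hK.image_of_continuousOn hcont
  have hCs : Prof.lx '' K ⊆ Ioo D.a0 D.b0 := by
    rintro _ ⟨z, hz, rfl⟩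
    exact (hKb hz).2
  have hex : ∃ a1 b1, D.a0 < a1 ∧ b1 < D.b0 ∧ Prof.lx '' K ⊆ Ioo a1 b1 := by
    rcases (Prof.lx '' K).eq_empty_or_nonempty with h | h
    · exact ⟨D.a0 + 1, D.b0 - 1, by linarith, by linarith, by rw [h]; exact empty_subset _⟩
    · obtain ⟨m, hm, hmin⟩ := hC.exists_isLeast h
      obtain ⟨M, hM, hmax⟩ := hC.exists_isGreatest h
      have h1 := (hCs hm).1
      have h2 := (hCs hM).2
      refine ⟨(D.a0 + m) / 2, (M + D.b0) / 2, by linarith, by linarith, ?_⟩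
      intro x hx
      have h3 := hmin hx
      have h4 := hmax hx
      constructor <;> linarith
  obtain ⟨a1, b1, h1, h2, h3⟩ := hex
  refine ⟨a1, b1, h1, h2, ?_⟩
  intro k x t hx
  unfold AA
  by_cases hk : N ≤ k
  · rw [hy.zero k hk]; simp
  · have : exp ((x : ℂ) + I * (t : ℂ)) ∉ tsupport (y k) := by
      intro hmem
      apply hx
      apply h3
      refine ⟨exp ((x : ℂ) + I * (t : ℂ)), ?_, dag_lx x t⟩
      simp only [K, mem_iUnion]
      exact ⟨k, Finset.mem_range.2 (not_le.1 hk), hmem⟩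
    rw [image_eq_zero_of_notMem_tsupport this, mul_zero]


/-! ### assembly -/

theorem dag_measdd (D : Prof) (N : ℕ) (y : ℕ → ℂ → ℂ) (hy : Adm D N y) (j : ℕ) :
    Measurable fun q : ℝ × ℝ => AA (dd D y) j q.1 q.2 := by
  have hE : Measurable fun q : ℝ × ℝ => exp ((q.1 : ℂ) + I * (q.2 : ℂ)) :=
    (by fun_prop : Continuous fun q : ℝ × ℝ => exp ((q.1 : ℂ) + I * (q.2 : ℂ))).measurable
  have hlx : Measurable Prof.lx := by
    unfold Prof.lx
    exact Real.measurable_log.comp measurable_norm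
  have hη : Measurable (deriv D.η) := (D.ηsm.continuous_deriv (by simp)).measurable
  have hμ : Measurable D.μ := by
    unfold Prof.μ
    exact hη.div ((D.ηsm.continuous.measurable.const_sub 1).const_mul 2)
  have hσ : Measurable D.σ := D.σsm.continuous.measurable
  have hy' : ∀ k, Measurable (y k) := fun k => (hy.smooth k).continuous.measurable
  have hDZ : Measurable (DZ (y j)) := by
    unfold DZ
    have hc : Continuous (fderiv ℝ (y j)) := (hy.smooth j).continuous_fderiv (by simp)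
    have h1 : Continuous fun z => fderiv ℝ (y j) z 1 := hc.clm_apply continuous_const
    have h2 : Continuous fun z => fderiv ℝ (y j) z I := hc.clm_apply continuous_const
    exact (by fun_prop : Continuous fun z =>
      (fderiv ℝ (y j) z 1 - I * fderiv ℝ (y j) z I) / 2).measurable
  have hdd : Measurable (dd D y j) := by
    unfold dd
    have hμl : Measurable fun z : ℂ => (D.μ (Prof.lx z) : ℂ) :=
      measurable_ofReal.comp (hμ.comp hlx)
    have hσl : Measurable fun z : ℂ => (D.σ (Prof.lx z) : ℂ) :=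
      measurable_ofReal.comp (hσ.comp hlx)
    have hif : Measurable fun z : ℂ => (if j = 0 then 0 else y (j - 1) z) := by
      split_ifs
      · exact measurable_const
      · exact hy' _
    have h1 : Measurable fun z : ℂ => -2 * z * DZ (y j) z := (measurable_id.const_mul _).mul hDZ
    have h2 : Measurable fun z : ℂ => ((D.μ (Prof.lx z) : ℂ) + I * (D.σ (Prof.lx z) : ℂ)) * y j z :=
      (hμl.add (hσl.const_mul I)).mul (hy' j)
    have h3 : Measurable fun z : ℂ => (D.μ (Prof.lx z) : ℂ) * y (j + 1) z := hμl.mul (hy' _)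
    have h4 : Measurable fun z : ℂ => I * (D.σ (Prof.lx z) : ℂ) *
        (if j = 0 then 0 else y (j - 1) z) := (hσl.const_mul I).mul hif
    exact h1.add (((h2.sub h3).sub h4).const_mul _)
  unfold AA
  have h5 : Measurable fun q : ℝ × ℝ => (Real.exp (-q.1) : ℂ) :=
    (by fun_prop : Continuous fun q : ℝ × ℝ => (Real.exp (-q.1) : ℂ)).measurable
  exact h5.mul (hdd.comp hE)

theorem dag_rhs (D : Prof) (N : ℕ) (y : ℕ → ℂ → ℂ) (hy : Adm D N y) :
    ∫ p in D.Ω, ‖tfD D N y p‖ ^ 2 =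
      ∫ s in SS D, ‖BB D N (AA y) s - nab D N (AA y) s‖ ^ 2 / s.2.2 := by
  rw [cov D (fun p => ‖tfD D N y p‖ ^ 2)]
  have h1 := dagT_int D.a0 D.b0 (N + 1) (AA (dd D y)) (dag_measdd D N y hy)
  refine Eq.trans ?_ (h1.trans ?_)
  · refine setIntegral_congr_fun (CB_meas D.a0 D.b0) ?_
    intro s hs
    have hx : s.1 ∈ Ioo D.a0 D.b0 := hs.1
    have := dag_form D (N + 1) (dd D y) hx s.2.1 s.2.2
    refine Eq.trans ?_ this
    show (D.R s.1 ^ 2 * Real.exp (2 * s.1)) * _ = _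
    unfold tfD
    simp only [dag_om D hx, dag_lx]
  · refine setIntegral_congr_fun (S3_meas D.a0 D.b0) ?_
    intro s hs
    show ‖∑ j ∈ Finset.range (N + 1), AA (dd D y) j s.1 s.2.1 * (gk j s.2.2 : ℂ)‖ ^ 2 / s.2.2 = _
    rw [dag_pointwise D N y hy s]

theorem dag_CBint (l m : ℝ) (f : ℝ × ℝ × ℂ → ℝ) (hf : Continuous f) :
    IntegrableOn f (CB l m) := by
  have hK : IsCompact (Icc l m ×ˢ Icc (-Real.pi) Real.pi ×ˢ Metric.closedBall (0 : ℂ) 1) :=
    isCompact_Icc.prod (isCompact_Icc.prod (isCompact_closedBall _ _))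
  refine (hf.continuousOn.integrableOn_compact hK).mono_set ?_
  exact prod_mono Ioo_subset_Icc_self (prod_mono Ioo_subset_Icc_self Metric.ball_subset_closedBall)

theorem dag_CBint_sum (l m : ℝ) (N : ℕ) (a : ℕ → ℝ → ℝ → ℂ)
    (ha : ∀ k, Continuous fun q : ℝ × ℝ => a k q.1 q.2) :
    IntegrableOn (fun s : ℝ × ℝ × ℂ =>
      ‖∑ k ∈ Finset.range N, a k s.1 s.2.1 * (1 + s.2.2) ^ k‖ ^ 2) (CB l m) := by
  apply dag_CBint
  have h1 : ∀ k, Continuous fun s : ℝ × ℝ × ℂ => a k s.1 s.2.1 := fun k =>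
    (ha k).comp (continuous_fst.prodMk (continuous_fst.comp continuous_snd))
  fun_prop

theorem dag_muA_cont (D : Prof) (y : ℕ → ℂ → ℂ) (k : ℕ) (hy : Continuous (y k)) (a1 b1 : ℝ)
    (ha1 : D.a0 < a1) (hb1 : b1 < D.b0) (hs : ∀ k x t, x ∉ Ioo a1 b1 → AA y k x t = 0) :
    Continuous fun q : ℝ × ℝ => ((2 * D.R q.1 * D.μ q.1 : ℝ) : ℂ) * AA y k q.1 q.2 := by
  have hA := dag_cont y k hy
  have hR : Continuous D.R := by
    unfold Prof.R
    exact continuous_const.mul ((continuous_const.sub D.ηsm.continuous).sqrt)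
  rw [continuous_iff_continuousAt]
  intro q
  by_cases hq : q.1 ∈ Ioo D.a0 D.b0
  · have hμ : ContinuousAt D.μ q.1 :=
      (D.contDiffOn_μ.continuousOn).continuousAt (isOpen_Ioo.mem_nhds hq)
    have h1 : ContinuousAt (fun q : ℝ × ℝ => D.μ q.1) q :=
      ContinuousAt.comp (f := fun q : ℝ × ℝ => q.1) hμ continuous_fst.continuousAt
    have h2 : ContinuousAt (fun q : ℝ × ℝ => 2 * D.R q.1) q :=
      (continuous_const.mul (hR.comp continuous_fst)).continuousAt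
    exact (Complex.continuous_ofReal.continuousAt.comp (h2.mul h1)).mul hA.continuousAt
  · have hopen : IsOpen {q : ℝ × ℝ | q.1 ∉ Icc a1 b1} :=
      (isClosed_Icc.preimage continuous_fst).isOpen_compl
    have hmem : q ∈ {q : ℝ × ℝ | q.1 ∉ Icc a1 b1} := by
      intro h
      apply hq
      exact ⟨lt_of_lt_of_le ha1 h.1, lt_of_le_of_lt h.2 hb1⟩
    refine ContinuousAt.congr (f := fun _ => (0 : ℂ)) continuousAt_const ?_
    filter_upwards [hopen.mem_nhds hmem] with r hr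
    rw [hs k r.1 r.2 (fun h => hr ⟨h.1.le, h.2.le⟩), mul_zero]

/-- bound for `|V|²` -/
theorem dag_V (D : Prof) {x : ℝ} (hx : x ∈ Ioo D.a0 D.b0) (t : ℝ) {v : ℂ} (hv : ‖v‖ ≤ 1) :
    ‖D.V (exp ((x : ℂ) + I * (t : ℂ)), D.c x + D.τ x * v)‖ ^ 2 / 2 ≤
      (2 * D.R x * D.σ x) ^ 2 * ‖1 + v‖ ^ 2 + (2 * D.R x * D.μ x) ^ 2 := by
  unfold Prof.V
  rw [dag_om D hx t v]
  simp only [dag_lx]
  rw [norm_mul, norm_mul, D.norm_τ hx]
  have h1 : ‖I * (D.σ x : ℂ) / 2 * (1 - v ^ 2) + (D.μ x : ℂ) * v‖ ≤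
      |D.σ x| * ‖1 + v‖ + |D.μ x| := by
    refine (norm_add_le _ _).trans ?_
    have e1 : ‖I * (D.σ x : ℂ) / 2 * (1 - v ^ 2)‖ = |D.σ x| / 2 * (‖1 - v‖ * ‖1 + v‖) := by
      have : (1 - v ^ 2 : ℂ) = (1 - v) * (1 + v) := by ring
      rw [this, norm_mul, norm_mul, norm_div, norm_mul, Complex.norm_I, Complex.norm_real,
        Real.norm_eq_abs]
      simp
    have e2 : ‖(D.μ x : ℂ) * v‖ ≤ |D.μ x| := by
      rw [norm_mul, Complex.norm_real, Real.norm_eq_abs]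
      exact mul_le_of_le_one_right (abs_nonneg _) hv
    have e3 : ‖1 - v‖ ≤ 2 := by
      refine (norm_sub_le _ _).trans ?_
      rw [norm_one]; linarith
    have e4 : |D.σ x| / 2 * (‖1 - v‖ * ‖1 + v‖) ≤ |D.σ x| * ‖1 + v‖ := by
      have h0 := abs_nonneg (D.σ x)
      have h2 := norm_nonneg (1 + v)
      nlinarith [mul_nonneg h0 h2, mul_le_mul_of_nonneg_right e3 (mul_nonneg h0 h2)]
    rw [e1]
    linarith
  have h0 : 0 ≤ ‖I * (D.σ x : ℂ) / 2 * (1 - v ^ 2) + (D.μ x : ℂ) * v‖ := norm_nonneg _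
  have h2 : ‖I * (D.σ x : ℂ) / 2 * (1 - v ^ 2) + (D.μ x : ℂ) * v‖ ^ 2 ≤
      2 * (|D.σ x| * ‖1 + v‖) ^ 2 + 2 * |D.μ x| ^ 2 := by
    have h3 := pow_le_pow_left₀ h0 h1 2
    nlinarith [sq_nonneg (|D.σ x| * ‖1 + v‖ - |D.μ x|)]
  rw [mul_pow (|D.σ x|), sq_abs, sq_abs] at h2
  have hR := D.R_pos hx
  have e5 : ‖(2 : ℂ)‖ = 2 := by simp
  rw [e5]
  have h6 := mul_le_mul_of_nonneg_left h2 (by positivity : 0 ≤ 2 * D.R x ^ 2)
  calc _ = 2 * D.R x ^ 2 * ‖I * (D.σ x : ℂ) / 2 * (1 - v ^ 2) + (D.μ x : ℂ) * v‖ ^ 2 := by ring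
    _ ≤ _ := h6
    _ = _ := by ring

theorem dag_tt (T : ℝ) (hT : 1 ≤ T) {p : ℝ} (hp : 0 < p) : 1 ≤ tt T p := by
  unfold tt
  have : 0 ≤ Real.log (1 + 1 / p) := Real.log_nonneg (by
    have : 0 < 1 / p := by positivity
    linarith)
  linarith

/-- the Laguerre side inequality (module LAG) -/
def LagStmt (D : Prof) : Prop :=
  ∀ (N : ℕ) (A : ℕ → ℝ → ℝ → ℂ) (_ : AC A) (a1 b1 : ℝ)
    (_ : D.a0 < a1) (_ : b1 < D.b0) (_ : ∀ k x φ, x ∉ Ioo a1 b1 → A k x φ = 0),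
    (∫ s in SS D, (Real.exp (2 * s.1) + D.cw / tt D.T s.2.2 ^ 2) * ‖U N A s‖ ^ 2 / s.2.2) +
      (∫ s in SS D, (4 * D.R s.1 ^ 2 * D.σ s.1 ^ 2 *
          ‖∑ k ∈ Finset.range N, A k s.1 s.2.1 * (gk (k + 1) s.2.2 : ℂ)‖ ^ 2 / s.2.2 +
        4 * D.R s.1 ^ 2 * D.μ s.1 ^ 2 * ‖U N A s‖ ^ 2 / s.2.2)) ≤
    ∫ s in SS D, ‖BB D N A s - nab D N A s‖ ^ 2 / s.2.2

/-- `dag` from `lag` (use: `dag_of_lag D (lag D hG) N y hy`) -/
theorem dag_of_lag (D : Prof) (hL : LagStmt D) (N : ℕ) (y : ℕ → ℂ → ℂ) (hy : Adm D N y) :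
    (∫ p in D.Ω, (‖p.1‖ ^ 2 + ‖D.V p‖ ^ 2 / 2) * ‖tf D N y p‖ ^ 2) +
      D.cw * (∫ s in SS D, ‖UU N y s‖ ^ 2 / tt D.T s.2.2 ^ 2) ≤
    ∫ p in D.Ω, ‖tfD D N y p‖ ^ 2 := by
  obtain ⟨a1, b1, ha1, hb1, hs⟩ := dag_supp D N y hy
  have hAC := dag_AC D N y hy
  have hcy : ∀ k, Continuous (y k) := fun k => (hy.smooth k).continuous
  have hA : ∀ k, Continuous fun q : ℝ × ℝ => AA y k q.1 q.2 := fun k => dag_cont y k (hcy k)
  have hR : Continuous D.R := by
    unfold Prof.R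
    exact continuous_const.mul ((continuous_const.sub D.ηsm.continuous).sqrt)
  -- the three coefficient families
  let w1 : ℕ → ℝ → ℝ → ℂ := fun k x t => (Real.exp x : ℂ) * AA y k x t
  let w2 : ℕ → ℝ → ℝ → ℂ := fun k x t =>
    if k = 0 then 0 else ((2 * D.R x * D.σ x : ℝ) : ℂ) * AA y (k - 1) x t
  let w3 : ℕ → ℝ → ℝ → ℂ := fun k x t => ((2 * D.R x * D.μ x : ℝ) : ℂ) * AA y k x t
  have c1 : ∀ k, Continuous fun q : ℝ × ℝ => w1 k q.1 q.2 := fun k =>
    (by fun_prop : Continuous fun q : ℝ × ℝ => (Real.exp q.1 : ℂ)).mul (hA k)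
  have c2 : ∀ k, Continuous fun q : ℝ × ℝ => w2 k q.1 q.2 := by
    intro k
    by_cases hk : k = 0
    · simp only [w2, hk, if_true]; exact continuous_const
    · simp only [w2, hk, if_false]
      have h1 : Continuous fun q : ℝ × ℝ => 2 * D.R q.1 * D.σ q.1 :=
        (continuous_const.mul (hR.comp continuous_fst)).mul
          (D.σsm.continuous.comp continuous_fst)
      exact (Complex.continuous_ofReal.comp h1).mul (hA (k - 1))
  have c3 : ∀ k, Continuous fun q : ℝ × ℝ => w3 k q.1 q.2 := fun k =>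
    dag_muA_cont D y k (hcy k) a1 b1 ha1 hb1 hs
  have m1 := dagT_int D.a0 D.b0 N w1 fun k => (c1 k).measurable
  have m2 := dagT_int D.a0 D.b0 (N + 1) w2 fun k => (c2 k).measurable
  have m3 := dagT_int D.a0 D.b0 N w3 fun k => (c3 k).measurable
  have i1 := dag_CBint_sum D.a0 D.b0 N w1 c1
  have i2 := dag_CBint_sum D.a0 D.b0 (N + 1) w2 c2
  have i3 := dag_CBint_sum D.a0 D.b0 N w3 c3
  have j1 := dagT_intble D.a0 D.b0 N w1 (fun k => (c1 k).measurable) i1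
  have j2 := dagT_intble D.a0 D.b0 (N + 1) w2 (fun k => (c2 k).measurable) i2
  have j3 := dagT_intble D.a0 D.b0 N w3 (fun k => (c3 k).measurable) i3
  have j0 := dagT_intble D.a0 D.b0 N (AA y) (fun k => (hA k).measurable)
    (dag_CBint_sum D.a0 D.b0 N (AA y) hA)
  -- rewriting of the sums
  have s1 : ∀ s : ℝ × ℝ × ℂ, ‖∑ k ∈ Finset.range N, w1 k s.1 s.2.1 * (1 + s.2.2) ^ k‖ ^ 2 =
      Real.exp (2 * s.1) * ‖∑ k ∈ Finset.range N, AA y k s.1 s.2.1 * (1 + s.2.2) ^ k‖ ^ 2 := by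
    intro s
    have : ∑ k ∈ Finset.range N, w1 k s.1 s.2.1 * (1 + s.2.2) ^ k = (Real.exp s.1 : ℂ) *
        ∑ k ∈ Finset.range N, AA y k s.1 s.2.1 * (1 + s.2.2) ^ k := by
      rw [Finset.mul_sum]
      exact Finset.sum_congr rfl fun k _ => by simp only [w1]; ring
    rw [this, norm_mul, mul_pow, Complex.norm_real, Real.norm_of_nonneg (Real.exp_pos _).le,
      ← Real.exp_nat_mul]
    norm_num
  have s1' : ∀ s : ℝ × ℝ × ℝ, ‖∑ k ∈ Finset.range N, w1 k s.1 s.2.1 * (gk k s.2.2 : ℂ)‖ ^ 2 =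
      Real.exp (2 * s.1) * ‖U N (AA y) s‖ ^ 2 := by
    intro s
    have : ∑ k ∈ Finset.range N, w1 k s.1 s.2.1 * (gk k s.2.2 : ℂ) = (Real.exp s.1 : ℂ) *
        U N (AA y) s := by
      unfold U
      rw [Finset.mul_sum]
      exact Finset.sum_congr rfl fun k _ => by simp only [w1]; ring
    rw [this, norm_mul, mul_pow, Complex.norm_real, Real.norm_of_nonneg (Real.exp_pos _).le,
      ← Real.exp_nat_mul]
    norm_num
  have s2 : ∀ s : ℝ × ℝ × ℂ, ‖∑ k ∈ Finset.range (N + 1), w2 k s.1 s.2.1 * (1 + s.2.2) ^ k‖ ^ 2 =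
      (2 * D.R s.1 * D.σ s.1) ^ 2 * ‖1 + s.2.2‖ ^ 2 *
        ‖∑ k ∈ Finset.range N, AA y k s.1 s.2.1 * (1 + s.2.2) ^ k‖ ^ 2 := by
    intro s
    have : ∑ k ∈ Finset.range (N + 1), w2 k s.1 s.2.1 * (1 + s.2.2) ^ k =
        ((2 * D.R s.1 * D.σ s.1 : ℝ) : ℂ) * (1 + s.2.2) *
        ∑ k ∈ Finset.range N, AA y k s.1 s.2.1 * (1 + s.2.2) ^ k := by
      rw [Finset.sum_range_succ', Finset.mul_sum]
      simp only [w2, if_true, zero_mul, add_zero, Nat.add_sub_cancel, Nat.succ_ne_zero, if_false]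
      exact Finset.sum_congr rfl fun k _ => by ring
    rw [this, norm_mul, norm_mul, mul_pow, mul_pow, Complex.norm_real, Real.norm_eq_abs, sq_abs]
  have s2' : ∀ s : ℝ × ℝ × ℝ, ‖∑ k ∈ Finset.range (N + 1), w2 k s.1 s.2.1 * (gk k s.2.2 : ℂ)‖ ^ 2 =
      4 * D.R s.1 ^ 2 * D.σ s.1 ^ 2 *
        ‖∑ k ∈ Finset.range N, AA y k s.1 s.2.1 * (gk (k + 1) s.2.2 : ℂ)‖ ^ 2 := by
    intro s
    have : ∑ k ∈ Finset.range (N + 1), w2 k s.1 s.2.1 * (gk k s.2.2 : ℂ) =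
        ((2 * D.R s.1 * D.σ s.1 : ℝ) : ℂ) *
        ∑ k ∈ Finset.range N, AA y k s.1 s.2.1 * (gk (k + 1) s.2.2 : ℂ) := by
      rw [Finset.sum_range_succ', Finset.mul_sum]
      simp only [w2, if_true, zero_mul, add_zero, Nat.add_sub_cancel, Nat.succ_ne_zero, if_false]
      exact Finset.sum_congr rfl fun k _ => by ring
    rw [this, norm_mul, mul_pow, Complex.norm_real, Real.norm_eq_abs, sq_abs]
    ring
  have s3 : ∀ s : ℝ × ℝ × ℂ, ‖∑ k ∈ Finset.range N, w3 k s.1 s.2.1 * (1 + s.2.2) ^ k‖ ^ 2 =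
      (2 * D.R s.1 * D.μ s.1) ^ 2 *
        ‖∑ k ∈ Finset.range N, AA y k s.1 s.2.1 * (1 + s.2.2) ^ k‖ ^ 2 := by
    intro s
    have : ∑ k ∈ Finset.range N, w3 k s.1 s.2.1 * (1 + s.2.2) ^ k =
        ((2 * D.R s.1 * D.μ s.1 : ℝ) : ℂ) *
        ∑ k ∈ Finset.range N, AA y k s.1 s.2.1 * (1 + s.2.2) ^ k := by
      rw [Finset.mul_sum]
      exact Finset.sum_congr rfl fun k _ => by simp only [w3]; ring
    rw [this, norm_mul, mul_pow, Complex.norm_real, Real.norm_eq_abs, sq_abs]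
  have s3' : ∀ s : ℝ × ℝ × ℝ, ‖∑ k ∈ Finset.range N, w3 k s.1 s.2.1 * (gk k s.2.2 : ℂ)‖ ^ 2 =
      4 * D.R s.1 ^ 2 * D.μ s.1 ^ 2 * ‖U N (AA y) s‖ ^ 2 := by
    intro s
    have : ∑ k ∈ Finset.range N, w3 k s.1 s.2.1 * (gk k s.2.2 : ℂ) =
        ((2 * D.R s.1 * D.μ s.1 : ℝ) : ℂ) * U N (AA y) s := by
      unfold U
      rw [Finset.mul_sum]
      exact Finset.sum_congr rfl fun k _ => by simp only [w3]; ring
    rw [this, norm_mul, mul_pow, Complex.norm_real, Real.norm_eq_abs, sq_abs]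
    ring
  -- left-hand side on the coordinate box
  have L1 : (∫ p in D.Ω, (‖p.1‖ ^ 2 + ‖D.V p‖ ^ 2 / 2) * ‖tf D N y p‖ ^ 2) ≤
      (∫ s in CB D.a0 D.b0, ‖∑ k ∈ Finset.range N, w1 k s.1 s.2.1 * (1 + s.2.2) ^ k‖ ^ 2) +
      (∫ s in CB D.a0 D.b0,
        ‖∑ k ∈ Finset.range (N + 1), w2 k s.1 s.2.1 * (1 + s.2.2) ^ k‖ ^ 2) +
      ∫ s in CB D.a0 D.b0, ‖∑ k ∈ Finset.range N, w3 k s.1 s.2.1 * (1 + s.2.2) ^ k‖ ^ 2 := by
    rw [cov D (fun p => (‖p.1‖ ^ 2 + ‖D.V p‖ ^ 2 / 2) * ‖tf D N y p‖ ^ 2)]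
    have i12 : IntegrableOn (fun s : ℝ × ℝ × ℂ =>
        ‖∑ k ∈ Finset.range N, w1 k s.1 s.2.1 * (1 + s.2.2) ^ k‖ ^ 2 +
        ‖∑ k ∈ Finset.range (N + 1), w2 k s.1 s.2.1 * (1 + s.2.2) ^ k‖ ^ 2) (CB D.a0 D.b0) :=
      i1.add i2
    have A1 := integral_add i1 i2
    have A2 := integral_add i12 i3
    rw [A1] at A2
    refine le_trans ?_ (le_of_eq A2)
    refine integral_mono_of_nonneg ?_ (i12.add i3) ?_
    · refine Filter.Eventually.of_forall fun s => ?_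
      show 0 ≤ (D.R s.1 ^ 2 * Real.exp (2 * s.1)) * _
      positivity
    · refine (ae_restrict_iff' (CB_meas D.a0 D.b0)).2 (Filter.Eventually.of_forall fun s hs => ?_)
      have hx : s.1 ∈ Ioo D.a0 D.b0 := hs.1
      have hv : ‖s.2.2‖ ≤ 1 := by
        have := hs.2.2
        rw [mem_ball_zero_iff] at this
        exact this.le
      have hf := dag_form D N y hx s.2.1 s.2.2
      have hV := dag_V D hx s.2.1 hv
      show (D.R s.1 ^ 2 * Real.exp (2 * s.1)) * ((‖exp ((s.1 : ℂ) + I * (s.2.1 : ℂ))‖ ^ 2 +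
        ‖D.V (exp ((s.1 : ℂ) + I * (s.2.1 : ℂ)), D.c s.1 + D.τ s.1 * s.2.2)‖ ^ 2 / 2) *
        ‖tf D N y (exp ((s.1 : ℂ) + I * (s.2.1 : ℂ)), D.c s.1 + D.τ s.1 * s.2.2)‖ ^ 2) ≤
        ‖∑ k ∈ Finset.range N, w1 k s.1 s.2.1 * (1 + s.2.2) ^ k‖ ^ 2 +
        ‖∑ k ∈ Finset.range (N + 1), w2 k s.1 s.2.1 * (1 + s.2.2) ^ k‖ ^ 2 +
        ‖∑ k ∈ Finset.range N, w3 k s.1 s.2.1 * (1 + s.2.2) ^ k‖ ^ 2
      rw [s1, s2, s3, dag_norm_exp]
      have e1 : (D.R s.1 ^ 2 * Real.exp (2 * s.1)) *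
          ‖tf D N y (exp ((s.1 : ℂ) + I * (s.2.1 : ℂ)), D.c s.1 + D.τ s.1 * s.2.2)‖ ^ 2 =
          ‖∑ k ∈ Finset.range N, AA y k s.1 s.2.1 * (1 + s.2.2) ^ k‖ ^ 2 := by
        rw [← hf]
        unfold tf
        simp only [dag_om D hx, dag_lx]
      have e2 : Real.exp s.1 ^ 2 = Real.exp (2 * s.1) := by
        rw [← Real.exp_nat_mul]; norm_num
      calc _ = (Real.exp s.1 ^ 2 +
            ‖D.V (exp ((s.1 : ℂ) + I * (s.2.1 : ℂ)), D.c s.1 + D.τ s.1 * s.2.2)‖ ^ 2 / 2) *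
            ((D.R s.1 ^ 2 * Real.exp (2 * s.1)) *
            ‖tf D N y (exp ((s.1 : ℂ) + I * (s.2.1 : ℂ)), D.c s.1 + D.τ s.1 * s.2.2)‖ ^ 2) := by
            ring
        _ ≤ (Real.exp (2 * s.1) + ((2 * D.R s.1 * D.σ s.1) ^ 2 * ‖1 + s.2.2‖ ^ 2 +
            (2 * D.R s.1 * D.μ s.1) ^ 2)) *
            ‖∑ k ∈ Finset.range N, AA y k s.1 s.2.1 * (1 + s.2.2) ^ k‖ ^ 2 := by
            rw [e1, e2]
            gcongr
        _ = _ := by ring
  rw [m1, m2, m3] at L1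
  -- the weighted term
  have i4 : IntegrableOn (fun s : ℝ × ℝ × ℝ =>
      D.cw / tt D.T s.2.2 ^ 2 * ‖U N (AA y) s‖ ^ 2 / s.2.2) (SS D) := by
    have h0 : IntegrableOn (fun s : ℝ × ℝ × ℝ => D.cw * (‖U N (AA y) s‖ ^ 2 / s.2.2)) (SS D) :=
      Integrable.const_mul j0 _
    refine Integrable.mono' h0 ?_ ?_
    · have hm := dagT_measR N (AA y) fun k => (hA k).measurable
      have ht : Measurable fun s : ℝ × ℝ × ℝ => tt D.T s.2.2 := by
        unfold tt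
        have h2 : Measurable fun s : ℝ × ℝ × ℝ => s.2.2 := measurable_snd.comp measurable_snd
        exact (Real.measurable_log.comp ((h2.const_div 1).const_add 1)).const_add _
      have h3 : Measurable fun s : ℝ × ℝ × ℝ =>
          D.cw / tt D.T s.2.2 ^ 2 * (‖U N (AA y) s‖ ^ 2 / s.2.2) :=
        ((ht.pow_const 2).const_div _).mul hm
      refine (h3.aestronglyMeasurable).congr (Filter.Eventually.of_forall fun s => ?_)
      show D.cw / tt D.T s.2.2 ^ 2 * (‖U N (AA y) s‖ ^ 2 / s.2.2) = _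
      ring
    · refine (ae_restrict_iff' (S3_meas D.a0 D.b0)).2 (Filter.Eventually.of_forall fun s hs => ?_)
      have hp : (0 : ℝ) < s.2.2 := hs.2.2
      have htt := dag_tt D.T D.hT hp
      have hcw := D.hcw
      have h5 : D.cw / tt D.T s.2.2 ^ 2 ≤ D.cw := by
        rw [div_le_iff₀ (by positivity)]
        nlinarith [hcw.le, one_le_pow₀ (n := 2) htt]
      have h6 : 0 ≤ D.cw / tt D.T s.2.2 ^ 2 * ‖U N (AA y) s‖ ^ 2 / s.2.2 := by positivity
      rw [Real.norm_of_nonneg h6, mul_div_assoc]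
      exact mul_le_mul_of_nonneg_right h5 (by positivity)
  have E4 : D.cw * (∫ s in SS D, ‖UU N y s‖ ^ 2 / tt D.T s.2.2 ^ 2) =
      ∫ s in SS D, D.cw / tt D.T s.2.2 ^ 2 * ‖U N (AA y) s‖ ^ 2 / s.2.2 := by
    rw [← integral_const_mul]
    refine setIntegral_congr_fun (S3_meas D.a0 D.b0) ?_
    intro s hs
    have hp : (0 : ℝ) < s.2.2 := hs.2.2
    have e : ‖UU N y s‖ ^ 2 = ‖U N (AA y) s‖ ^ 2 / s.2.2 := by
      unfold UU U AA
      rw [norm_mul, Complex.norm_real, Real.norm_of_nonneg (by positivity), mul_pow, div_pow,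
        Real.sq_sqrt hp.le]
      have e : ∑ k ∈ Finset.range N, (Real.exp (-s.1) : ℂ) *
          y k (exp ((s.1 : ℂ) + I * (s.2.1 : ℂ))) * (gk k s.2.2 : ℂ) = (Real.exp (-s.1) : ℂ) *
          ∑ k ∈ Finset.range N, y k (exp ((s.1 : ℂ) + I * (s.2.1 : ℂ))) * (gk k s.2.2 : ℂ) := by
        rw [Finset.mul_sum]
        refine Finset.sum_congr rfl fun k _ => ?_
        ring
      simp only [e]
      rw [norm_mul, Complex.norm_real, Real.norm_of_nonneg (Real.exp_pos _).le]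
      ring
    simp only [e]
    ring
  have hlag := hL N (AA y) hAC a1 b1 ha1 hb1 hs
  rw [dag_rhs D N y hy, E4]
  refine le_trans ?_ hlag
  have k1 : IntegrableOn (fun s : ℝ × ℝ × ℝ => Real.exp (2 * s.1) * ‖U N (AA y) s‖ ^ 2 / s.2.2)
      (SS D) := by
    refine j1.congr_fun ?_ (S3_meas D.a0 D.b0)
    intro s _
    simp only [s1']
  have k2 : IntegrableOn (fun s : ℝ × ℝ × ℝ => 4 * D.R s.1 ^ 2 * D.σ s.1 ^ 2 *
      ‖∑ k ∈ Finset.range N, AA y k s.1 s.2.1 * (gk (k + 1) s.2.2 : ℂ)‖ ^ 2 / s.2.2) (SS D) := by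
    refine j2.congr_fun ?_ (S3_meas D.a0 D.b0)
    intro s _
    simp only [s2']
  have k3 : IntegrableOn (fun s : ℝ × ℝ × ℝ => 4 * D.R s.1 ^ 2 * D.μ s.1 ^ 2 *
      ‖U N (AA y) s‖ ^ 2 / s.2.2) (SS D) := by
    refine j3.congr_fun ?_ (S3_meas D.a0 D.b0)
    intro s _
    simp only [s3']
  have R1 : (∫ s in SS D, (Real.exp (2 * s.1) + D.cw / tt D.T s.2.2 ^ 2) *
      ‖U N (AA y) s‖ ^ 2 / s.2.2) =
      (∫ s in SS D, Real.exp (2 * s.1) * ‖U N (AA y) s‖ ^ 2 / s.2.2) +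
      ∫ s in SS D, D.cw / tt D.T s.2.2 ^ 2 * ‖U N (AA y) s‖ ^ 2 / s.2.2 := by
    rw [← integral_add k1 i4]
    refine integral_congr_ae (Filter.Eventually.of_forall fun s => ?_)
    show _ = _
    ring
  have R2 := integral_add k2 k3
  rw [R1, R2]
  have T1 : (∫ s in S3 D.a0 D.b0,
      ‖∑ k ∈ Finset.range N, w1 k s.1 s.2.1 * (gk k s.2.2 : ℂ)‖ ^ 2 / s.2.2) =
      ∫ s in SS D, Real.exp (2 * s.1) * ‖U N (AA y) s‖ ^ 2 / s.2.2 :=
    setIntegral_congr_fun (S3_meas D.a0 D.b0) fun s _ => by simp only [s1']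
  have T2 : (∫ s in S3 D.a0 D.b0,
      ‖∑ k ∈ Finset.range (N + 1), w2 k s.1 s.2.1 * (gk k s.2.2 : ℂ)‖ ^ 2 / s.2.2) =
      ∫ s in SS D, 4 * D.R s.1 ^ 2 * D.σ s.1 ^ 2 *
      ‖∑ k ∈ Finset.range N, AA y k s.1 s.2.1 * (gk (k + 1) s.2.2 : ℂ)‖ ^ 2 / s.2.2 :=
    setIntegral_congr_fun (S3_meas D.a0 D.b0) fun s _ => by simp only [s2']
  have T3 : (∫ s in S3 D.a0 D.b0,
      ‖∑ k ∈ Finset.range N, w3 k s.1 s.2.1 * (gk k s.2.2 : ℂ)‖ ^ 2 / s.2.2) =
      ∫ s in SS D, 4 * D.R s.1 ^ 2 * D.μ s.1 ^ 2 * ‖U N (AA y) s‖ ^ 2 / s.2.2 :=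
    setIntegral_congr_fun (S3_meas D.a0 D.b0) fun s _ => by simp only [s3']
  rw [T1, T2, T3] at L1
  linarith


end Pool.Agent.DbarN
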