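import Mathlib

set_option autoImplicit false

/-!
# The `∂̄`-Neumann Laplacian on `(0,1)`-forms of a domain of `ℂ²`

Statement-level definitions for `MP_2ab45c_an`.
-/

namespace Pool.Agent.DbarN

open MeasureTheory Complex
open scoped ComplexConjugate ContDiff

/-- `∂φ/∂z̄₁` for a real differentiable function on `ℂ²`. -/
noncomputable def dzb (φ : ℂ × ℂ → ℂ) (p : ℂ × ℂ) : ℂ :=
  (fderiv ℝ φ p (1, 0) + I * fderiv ℝ φ p (I, 0)) / 2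

/-- `∂φ/∂z̄₂`. -/
noncomputable def dwb (φ : ℂ × ℂ → ℂ) (p : ℂ × ℂ) : ℂ :=
  (fderiv ℝ φ p (0, 1) + I * fderiv ℝ φ p (0, I)) / 2

/-- test functions: smooth functions with compact support contained in `Ω` -/
structure IsTest (Ω : Set (ℂ × ℂ)) (φ : ℂ × ℂ → ℂ) : Prop where
  smooth : ContDiff ℝ ∞ φ
  compact : HasCompactSupport φ
  supp : tsupport φ ⊆ Ω

/-- square integrable functions on `Ω` (Lebesgue measure of `ℂ²`) -/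
abbrev L2 (Ω : Set (ℂ × ℂ)) : Type := Lp ℂ 2 (volume.restrict Ω)

/-- square integrable `(0,1)`-forms `u₁ dz̄₁ + u₂ dz̄₂` on `Ω`, with norm
`(‖u₁‖² + ‖u₂‖²)^(1/2)`.  Functions and `(0,2)`-forms `v dz̄₁ ∧ dz̄₂` are both `L2 Ω`. -/
abbrev L2F (Ω : Set (ℂ × ℂ)) : Type := WithLp 2 (L2 Ω × L2 Ω)

/-- `f ∈ dom ∂̄` and `∂̄ f = u` (weak, i.e. maximal, `∂̄` on functions) -/
def IsDbar0 (Ω : Set (ℂ × ℂ)) (f : L2 Ω) (u : L2F Ω) : Prop :=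
  ∀ φ : ℂ × ℂ → ℂ, IsTest Ω φ →
    ∫ p in Ω, f p * dzb φ p = -∫ p in Ω, u.fst p * φ p ∧
    ∫ p in Ω, f p * dwb φ p = -∫ p in Ω, u.snd p * φ p

/-- `u ∈ dom ∂̄` and `∂̄ u = v` (weak `∂̄` on `(0,1)`-forms:
`∂̄ (u₁ dz̄₁ + u₂ dz̄₂) = (∂u₂/∂z̄₁ - ∂u₁/∂z̄₂) dz̄₁ ∧ dz̄₂`) -/
def IsDbar1 (Ω : Set (ℂ × ℂ)) (u : L2F Ω) (v : L2 Ω) : Prop :=
  ∀ φ : ℂ × ℂ → ℂ, IsTest Ω φ →
    ∫ p in Ω, (u.snd p * dzb φ p - u.fst p * dwb φ p) = -∫ p in Ω, v p * φ p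

/-- `u ∈ dom T*` and `T* u = g` for the operator `T` with graph `G` -/
def IsAdj {H K : Type*} [NormedAddCommGroup H] [InnerProductSpace ℂ H]
    [NormedAddCommGroup K] [InnerProductSpace ℂ K] (G : H → K → Prop) (u : K) (g : H) : Prop :=
  ∀ f a, G f a → inner ℂ a u = inner ℂ f g

/-- `u ∈ dom □` and `□ u = v` for the `∂̄`-Neumann Laplacian
`□ = ∂̄ ∂̄* + ∂̄* ∂̄` on `(0,1)`-forms -/
def Box (Ω : Set (ℂ × ℂ)) (u v : L2F Ω) : Prop :=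
  ∃ (g : L2 Ω) (c : L2 Ω) (p q : L2F Ω),
    IsAdj (IsDbar0 Ω) u g ∧ IsDbar0 Ω g p ∧ IsDbar1 Ω u c ∧ IsAdj (IsDbar1 Ω) c q ∧ v = p + q

/-- the spectrum of `□`: all `t` such that `□ - t` is not a bijection of `dom □` onto `L²` -/
def spec (Ω : Set (ℂ × ℂ)) : Set ℂ :=
  {t | ¬ ∀ v : L2F Ω, ∃! u : L2F Ω, ∃ x, Box Ω u x ∧ x - t • u = v}

/-- `ρ` is a local defining function of `Ω` near the boundary point `p`, smooth and with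
nonvanishing differential at `p` -/
structure IsLocalDef (Ω : Set (ℂ × ℂ)) (p : ℂ × ℂ) (U : Set (ℂ × ℂ)) (ρ : ℂ × ℂ → ℝ) : Prop where
  isOpen : IsOpen U
  mem : p ∈ U
  smooth : ContDiffOn ℝ ∞ ρ U
  eq : U ∩ Ω = {q ∈ U | ρ q < 0}
  ne : fderiv ℝ ρ p ≠ 0

/-- the Levi form of `ρ` at `p` in the direction `t` (times `4`) -/
noncomputable def levi (ρ : ℂ × ℂ → ℝ) (p t : ℂ × ℂ) : ℝ :=
  fderiv ℝ (fderiv ℝ ρ) p t t + fderiv ℝ (fderiv ℝ ρ) p (I • t) (I • t)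

/-- bounded pseudoconvex domain with smooth boundary: every boundary point has a smooth local
defining function with nonzero differential whose Levi form is nonnegative on the complex tangent
space `{t | ∂ρ(t) = 0}` -/
structure IsSmoothPsc (Ω : Set (ℂ × ℂ)) : Prop where
  isOpen : IsOpen Ω
  connected : IsConnected Ω
  bounded : Bornology.IsBounded Ω
  bdry : ∀ p ∈ frontier Ω, ∃ U ρ, IsLocalDef Ω p U ρ ∧
    ∀ t : ℂ × ℂ, fderiv ℝ ρ p t = 0 → fderiv ℝ ρ p (I • t) = 0 → 0 ≤ levi ρ p t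

end Pool.Agent.DbarN
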