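import Pool.Agent.DbarN.DualCore
import Pool.Agent.DbarN.Basic
import Pool.Agent.DbarN.Nice
import Pool.Agent.DbarN.Dag

set_option autoImplicit false

namespace Pool.Agent.DbarN

open MeasureTheory Complex Set
open scoped ComplexConjugate ContDiff

theorem du_Ω_sub (D : Prof) : D.Ω ⊆ D.Ωc := fun _ hp =>
  ⟨(D.mem_Ω.1 hp).1, (D.mem_Ω.1 hp).2.le⟩

theorem du_nhyp (D : Prof) : NHyp D where
  isOpen := D.isOpen_Ω
  base p hp := (D.mem_Ω.1 hp).1
  mtf N y hy := nice_memLp D _ (nice_tf D N y hy)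
  mz N y hy := nice_memLp D _ (nice_mul D (fun p => p.1) _
    ⟨univ, isOpen_univ, subset_univ _, contDiff_fst.contDiffOn⟩ (nice_tf D N y hy))
  mV N y hy := nice_memLp D _ (nice_mul D D.V _
    ⟨{p | p.1 ∈ D.base}, D.isOpen_base.preimage continuous_fst, fun _ hp => hp.1,
      D.contDiffOn_V⟩ (nice_tf D N y hy))
  mtfD N y hy := by
    refine (nice_memLp D _ (nice_Xd D _ (nice_tf D N y hy))).ae_eq ?_
    filter_upwards [ae_restrict_mem D.isOpen_Ω.measurableSet] with p hp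
    exact Xd_tf D N y hy p (du_Ω_sub D hp)
  sm N y hy := by
    obtain ⟨W, -, hW, hs⟩ := (nice_Xd D _ (nice_tf D N y hy)).smooth
    refine (hs.mono ((du_Ω_sub D).trans hW)).congr ?_
    intro p hp
    exact (Xd_tf D N y hy p (du_Ω_sub D hp)).symm

theorem du_hyp (D : Prof) (hG : D.GSI) : DualHyp D :=
  { du_nhyp D with
    iso := iso D
    dag := dag D hG }

theorem dual_ineq (D : Prof) (hG : D.GSI) (f : L2 D.Ω) (u : L2F D.Ω)
    (hX : ∀ N y, Adm D N y → ∫ p in D.Ω, f p * conj (tfD D N y p) =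
      ∫ p in D.Ω, (2 * conj p.1 * u.fst p - conj (D.V p) * u.snd p) * conj (tf D N y p))
    (h : L2 D.Ω) (hh : h ∈ RR D) (hort : ∀ g ∈ RR D, inner ℂ g (f - h) = 0) (h0 : h ≠ 0) :
    ‖h‖ ^ 2 < 4 * ‖u.fst‖ ^ 2 + 2 * ‖u.snd‖ ^ 2 :=
  dual_ineq_core (du_hyp D hG) f u hX h hh hort h0

theorem riesz_RR (D : Prof) (hG : D.GSI) (u : L2F D.Ω) (G : L2 D.Ω) :
    ∃ h ∈ RR D, ∀ N y, Adm D N y → ∫ p in D.Ω, h p * conj (tfD D N y p) =
      (∫ p in D.Ω, (2 * conj p.1 * u.fst p - conj (D.V p) * u.snd p) * conj (tf D N y p)) -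
      ∫ p in D.Ω, G p * conj (tfD D N y p) :=
  riesz_RR_core (du_hyp D hG) u G

theorem RR_dwb (D : Prof) (h : L2 D.Ω) (hh : h ∈ RR D) :
    ∀ φ, IsTest D.Ω φ → ∫ p in D.Ω, h p * dwb φ p = 0 :=
  RR_dwb_core (du_nhyp D) h hh

end Pool.Agent.DbarN
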