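import Pool.Agent.DbarN.Prof

set_option autoImplicit false

/-!
# DUAL: Hilbert space duality from the main inequality (core, with explicit hypotheses)
-/

namespace Pool.Agent.DbarN

open MeasureTheory Complex Set Filter Topology
open scoped ComplexConjugate ContDiff ENNReal

/-! ### `L²` lemmas -/

section L2
variable {X : Type*} [MeasurableSpace X] {μ : Measure X}

theorem du_int_sq {f : X → ℂ} (hf : MemLp f 2 μ) : Integrable (fun x => ‖f x‖ ^ 2) μ :=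
  (memLp_two_iff_integrable_sq_norm hf.1).1 hf

theorem du_eLp {f : X → ℂ} (hf : MemLp f 2 μ) :
    eLpNorm f 2 μ = ENNReal.ofReal (Real.sqrt (∫ x, ‖f x‖ ^ 2 ∂μ)) := by
  rw [hf.eLpNorm_eq_integral_rpow_norm two_ne_zero ENNReal.ofNat_ne_top]
  congr 1
  rw [Real.sqrt_eq_rpow]
  simp

theorem du_norm_sq {f : X → ℂ} (hf : MemLp f 2 μ) :
    ‖hf.toLp f‖ ^ 2 = ∫ x, ‖f x‖ ^ 2 ∂μ := by
  rw [Lp.norm_toLp, du_eLp hf, ENNReal.toReal_ofReal (Real.sqrt_nonneg _),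
    Real.sq_sqrt (integral_nonneg fun x => by positivity)]

theorem du_inner {f g : X → ℂ} (hf : MemLp f 2 μ) (hg : MemLp g 2 μ) :
    inner ℂ (hf.toLp f) (hg.toLp g) = ∫ x, g x * conj (f x) ∂μ := by
  rw [L2.inner_def]
  refine integral_congr_ae ?_
  filter_upwards [hf.coeFn_toLp, hg.coeFn_toLp] with x h1 h2
  rw [h1, h2]
  simp

theorem du_inner' (f : Lp ℂ 2 μ) {g : X → ℂ} (hg : MemLp g 2 μ) :
    inner ℂ (hg.toLp g) f = ∫ x, f x * conj (g x) ∂μ := by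
  rw [L2.inner_def]
  refine integral_congr_ae ?_
  filter_upwards [hg.coeFn_toLp] with x h1
  rw [h1]
  simp

/-- Fatou in `L²` -/
theorem du_fatou (Φ : ℕ → X → ℂ) (hΦ : ∀ j, MemLp (Φ j) 2 μ)
    (h0 : ∀ᵐ x ∂μ, Tendsto (fun j => Φ j x) atTop (𝓝 0)) (F : X → ℂ) (hF : MemLp F 2 μ) (ε : ℝ)
    (hε : ∀ᶠ j in atTop, ∫ x, ‖F x - Φ j x‖ ^ 2 ∂μ ≤ ε) :
    ∫ x, ‖F x‖ ^ 2 ∂μ ≤ ε := by
  have hε0 : 0 ≤ ε := by
    obtain ⟨j, hj⟩ := hε.exists
    exact le_trans (integral_nonneg fun x => by positivity) hj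
  have h1 : eLpNorm F 2 μ ≤ ENNReal.ofReal (Real.sqrt ε) := by
    refine Lp.eLpNorm_le_of_ae_tendsto (u := atTop) (f := fun j x => F x - Φ j x) ?_ ?_ ?_
    · filter_upwards [hε] with j hj
      have h2 : eLpNorm (fun x => F x - Φ j x) 2 μ =
          ENNReal.ofReal (Real.sqrt (∫ x, ‖F x - Φ j x‖ ^ 2 ∂μ)) := du_eLp (hF.sub (hΦ j))
      rw [h2]
      exact ENNReal.ofReal_le_ofReal (Real.sqrt_le_sqrt hj)
    · intro j
      exact hF.1.sub (hΦ j).1
    · filter_upwards [h0] with x hx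
      simpa using hx.const_sub (F x)
  rw [du_eLp hF, ENNReal.ofReal_le_ofReal_iff (Real.sqrt_nonneg _), Real.sqrt_le_sqrt_iff hε0] at h1
  exact h1

/-- sequences going to zero in `L²` have subsequences going to zero almost everywhere -/
theorem du_subseq (Φ : ℕ → X → ℂ) (hΦ : ∀ j, MemLp (Φ j) 2 μ)
    (h0 : Tendsto (fun j => ∫ x, ‖Φ j x‖ ^ 2 ∂μ) atTop (𝓝 0)) :
    ∃ ns : ℕ → ℕ, StrictMono ns ∧ ∀ᵐ x ∂μ, Tendsto (fun j => Φ (ns j) x) atTop (𝓝 0) := by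
  have h1 : Tendsto (fun j => eLpNorm (Φ j - (fun _ => (0 : ℂ))) 2 μ) atTop (𝓝 0) := by
    have h2 : ∀ j, eLpNorm (Φ j - (fun _ => (0 : ℂ))) 2 μ =
        ENNReal.ofReal (Real.sqrt (∫ x, ‖Φ j x‖ ^ 2 ∂μ)) := by
      intro j
      have h3 : (Φ j - (fun _ => (0 : ℂ))) = Φ j := by funext x; simp
      rw [h3]; exact du_eLp (hΦ j)
    simp only [h2]
    have h4 : Tendsto (fun j => Real.sqrt (∫ x, ‖Φ j x‖ ^ 2 ∂μ)) atTop (𝓝 0) := by
      simpa [Function.comp_def] using (Real.continuous_sqrt.tendsto 0).comp h0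
    simpa using ENNReal.tendsto_ofReal h4
  have h5 : TendstoInMeasure μ Φ atTop (fun _ => (0 : ℂ)) :=
    tendstoInMeasure_of_tendsto_eLpNorm two_ne_zero (fun j => (hΦ j).1)
      aestronglyMeasurable_const h1
  exact h5.exists_seq_tendsto_ae

/-- if `Φ_j → 0` in `L²` and `v Φ_j` is a Cauchy sequence, then `v Φ_j → 0`. -/
theorem du_closed (Φ Ψ : ℕ → X → ℂ) (hΦ : ∀ j, MemLp (Φ j) 2 μ) (hΨ : ∀ j, MemLp (Ψ j) 2 μ)
    (v : X → ℂ) (hv : ∀ᵐ x ∂μ, ∀ j, Ψ j x = v x * Φ j x)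
    (h0 : Tendsto (fun j => ∫ x, ‖Φ j x‖ ^ 2 ∂μ) atTop (𝓝 0))
    (hc : ∀ ε > 0, ∃ J, ∀ m ≥ J, ∀ j ≥ J, ∫ x, ‖Ψ m x - Ψ j x‖ ^ 2 ∂μ ≤ ε) :
    Tendsto (fun j => ∫ x, ‖Ψ j x‖ ^ 2 ∂μ) atTop (𝓝 0) := by
  obtain ⟨ns, hns, hae⟩ := du_subseq Φ hΦ h0
  rw [Metric.tendsto_atTop]
  intro ε hε
  obtain ⟨J, hJ⟩ := hc (ε / 2) (by positivity)
  refine ⟨J, fun m hm => ?_⟩
  have h1 : ∫ x, ‖Ψ m x‖ ^ 2 ∂μ ≤ ε / 2 := by
    refine du_fatou (fun j => Ψ (ns j)) (fun j => hΨ _) ?_ (Ψ m) (hΨ m) (ε / 2) ?_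
    · filter_upwards [hae, hv] with x hx hvx
      simp only [hvx]
      simpa using hx.const_mul (v x)
    · filter_upwards [eventually_ge_atTop J] with j hj
      exact hJ m hm (ns j) (hj.trans (hns.id_le j))
  have h2 : 0 ≤ ∫ x, ‖Ψ m x‖ ^ 2 ∂μ := integral_nonneg fun x => by positivity
  rw [Real.dist_eq, sub_zero, abs_of_nonneg h2]
  linarith

end L2

/-! ### linear combinations of admissible families -/

/-- linear combination -/
def ducomb (a b : ℂ) (y y' : ℕ → ℂ → ℂ) : ℕ → ℂ → ℂ := fun k z => a * y k z + b * y' k z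

theorem du_adm_mono {D : Prof} {N N' : ℕ} {y : ℕ → ℂ → ℂ} (h : Adm D N y) (hN : N ≤ N') :
    Adm D N' y := ⟨fun k hk => h.zero k (hN.trans hk), h.smooth, h.compact, h.supp⟩

theorem du_adm_lin {D : Prof} {N : ℕ} {y y' : ℕ → ℂ → ℂ} (h : Adm D N y) (h' : Adm D N y')
    (a b : ℂ) : Adm D N (ducomb a b y y') where
  zero k hk := by funext z; simp [ducomb, h.zero k hk, h'.zero k hk]
  smooth k := (contDiff_const.mul (h.smooth k)).add (contDiff_const.mul (h'.smooth k))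
  compact k := ((h.compact k).mul_left).add ((h'.compact k).mul_left)
  supp k := (tsupport_add _ _).trans (union_subset
    ((tsupport_mul_subset_right).trans (h.supp k)) ((tsupport_mul_subset_right).trans (h'.supp k)))

theorem du_DZ_zero (z : ℂ) : DZ (0 : ℂ → ℂ) z = 0 := by
  have : fderiv ℝ (0 : ℂ → ℂ) z = 0 := by
    have := fderiv_const_apply (𝕜 := ℝ) (E := ℂ) (x := z) (0 : ℂ)
    exact this
  simp [DZ, this]

theorem du_dd_zero {D : Prof} {N : ℕ} {y : ℕ → ℂ → ℂ} (h : Adm D N y) {j : ℕ} (hj : N + 1 ≤ j)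
    (z : ℂ) : dd D y j z = 0 := by
  have h1 : y j = 0 := h.zero j (by omega)
  have h2 : y (j + 1) = 0 := h.zero _ (by omega)
  have h3 : y (j - 1) = 0 := h.zero _ (by omega)
  unfold dd
  rw [h1, h2, h3, du_DZ_zero]
  simp

theorem du_tf_mono {D : Prof} {N N' : ℕ} {y : ℕ → ℂ → ℂ} (h : Adm D N y) (hN : N ≤ N') :
    tf D N' y = tf D N y := by
  funext p
  unfold tf
  congr 1
  symm
  refine Finset.sum_subset (Finset.range_mono hN) ?_
  intro k _ hk
  rw [h.zero k (by simpa using hk)]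
  simp

theorem du_tfD_mono {D : Prof} {N N' : ℕ} {y : ℕ → ℂ → ℂ} (h : Adm D N y) (hN : N ≤ N') :
    tfD D N' y = tfD D N y := by
  funext p
  unfold tfD
  congr 1
  symm
  refine Finset.sum_subset (Finset.range_mono (by omega)) ?_
  intro k _ hk
  rw [du_dd_zero h (by simpa using hk)]
  simp

theorem du_UU_mono {D : Prof} {N N' : ℕ} {y : ℕ → ℂ → ℂ} (h : Adm D N y) (hN : N ≤ N') :
    UU N' y = UU N y := by
  funext s
  unfold UU
  congr 1
  symm
  refine Finset.sum_subset (Finset.range_mono hN) ?_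
  intro k _ hk
  rw [h.zero k (by simpa using hk)]
  simp

theorem du_tf_lin (D : Prof) (N : ℕ) (y y' : ℕ → ℂ → ℂ) (a b : ℂ) (p : ℂ × ℂ) :
    tf D N (ducomb a b y y') p = a * tf D N y p + b * tf D N y' p := by
  unfold tf ducomb
  rw [mul_div_assoc', mul_div_assoc', ← add_div, Finset.mul_sum, Finset.mul_sum,
    ← Finset.sum_add_distrib]
  congr 1
  refine Finset.sum_congr rfl fun k _ => ?_
  ring

theorem du_UU_lin (N : ℕ) (y y' : ℕ → ℂ → ℂ) (a b : ℂ) (s : ℝ × ℝ × ℝ) :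
    UU N (ducomb a b y y') s = a * UU N y s + b * UU N y' s := by
  unfold UU ducomb
  rw [← mul_assoc, ← mul_assoc, ← add_mul, Finset.mul_sum, Finset.mul_sum,
    ← Finset.sum_add_distrib]
  congr 1
  refine Finset.sum_congr rfl fun k _ => ?_
  ring

theorem du_DZ_lin {f g : ℂ → ℂ} (hf : ContDiff ℝ ∞ f) (hg : ContDiff ℝ ∞ g) (a b z : ℂ) :
    DZ (fun z => a * f z + b * g z) z = a * DZ f z + b * DZ g z := by
  have h1 : DifferentiableAt ℝ f z := (hf.differentiable (by simp)) z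
  have h2 : DifferentiableAt ℝ g z := (hg.differentiable (by simp)) z
  have h3 : fderiv ℝ (fun z => a * f z + b * g z) z = a • fderiv ℝ f z + b • fderiv ℝ g z := by
    rw [fderiv_fun_add (h1.const_mul a) (h2.const_mul b), fderiv_const_mul h1, fderiv_const_mul h2]
  unfold DZ
  rw [h3]
  simp
  ring

theorem du_dd_lin {D : Prof} {N : ℕ} {y y' : ℕ → ℂ → ℂ} (h : Adm D N y) (h' : Adm D N y')
    (a b : ℂ) (j : ℕ) (z : ℂ) :
    dd D (ducomb a b y y') j z = a * dd D y j z + b * dd D y' j z := by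
  unfold dd
  have h1 : DZ (ducomb a b y y' j) z = a * DZ (y j) z + b * DZ (y' j) z :=
    du_DZ_lin (h.smooth j) (h'.smooth j) a b z
  rw [h1]
  unfold ducomb
  by_cases hj : j = 0
  · simp only [hj, if_true]; ring
  · simp only [hj, if_false]; ring

theorem du_tfD_lin {D : Prof} {N : ℕ} {y y' : ℕ → ℂ → ℂ} (h : Adm D N y) (h' : Adm D N y')
    (a b : ℂ) (p : ℂ × ℂ) :
    tfD D N (ducomb a b y y') p = a * tfD D N y p + b * tfD D N y' p := by
  unfold tfD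
  rw [mul_div_assoc', mul_div_assoc', ← add_div, Finset.mul_sum, Finset.mul_sum,
    ← Finset.sum_add_distrib]
  congr 1
  refine Finset.sum_congr rfl fun k _ => ?_
  rw [du_dd_lin h h']
  ring

/-! ### `UU` is square integrable -/

theorem du_gk_sq (k : ℕ) : MemLp (fun p : ℝ => ((gk k p : ℝ) : ℂ) * ((1 / Real.sqrt p : ℝ) : ℂ)) 2
    (volume.restrict (Ioi (0 : ℝ))) := by
  have hm : Measurable (fun p : ℝ => ((gk k p : ℝ) : ℂ) * ((1 / Real.sqrt p : ℝ) : ℂ)) := by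
    unfold gk
    fun_prop
  rw [memLp_two_iff_integrable_sq_norm hm.aestronglyMeasurable]
  have h1 : IntegrableOn (fun x : ℝ => x ^ ((2 * k + 1 : ℕ) : ℝ) * Real.exp (- 2 * x ^ (1 : ℝ)))
      (Ioi 0) := integrableOn_rpow_mul_exp_neg_mul_rpow (by
        have : (0 : ℝ) ≤ ((2 * k + 1 : ℕ) : ℝ) := Nat.cast_nonneg _
        linarith) one_pos (by norm_num)
  have h2 := h1.const_mul ((Real.sqrt Real.pi * 2 ^ (k + 1) / (k + 1).factorial) ^ 2)
  refine h2.congr ?_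
  filter_upwards [ae_restrict_mem measurableSet_Ioi] with p hp
  have hp0 : (0 : ℝ) < p := hp
  have hsq : Real.sqrt p ^ 2 = p := Real.sq_sqrt hp0.le
  have hs0 : 0 < Real.sqrt p := Real.sqrt_pos.2 hp0
  rw [Real.rpow_natCast, Real.rpow_one, norm_mul, Complex.norm_real, Complex.norm_real, mul_pow,
    Real.norm_eq_abs, Real.norm_eq_abs, sq_abs, sq_abs]
  unfold gk
  have he : Real.exp (-2 * p) = Real.exp (-p) ^ 2 := by
    rw [← Real.exp_nat_mul]; congr 1; push_cast; ring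
  rw [he, div_pow 1, hsq]
  field_simp
  ring

theorem du_UU_memLp {D : Prof} {N : ℕ} {y : ℕ → ℂ → ℂ} (h : Adm D N y) :
    MemLp (UU N y) 2 (volume.restrict (SS D)) := by
  have hvol : volume.restrict (SS D) = (volume.restrict (Ioo D.a0 D.b0)).prod
      ((volume.restrict (Ioo (-Real.pi) Real.pi)).prod (volume.restrict (Ioi (0 : ℝ)))) := by
    rw [Measure.prod_restrict, Measure.prod_restrict]
    rfl
  have hG : ∀ k, MemLp (fun s : ℝ × ℝ × ℝ => ((gk k s.2.2 : ℝ) : ℂ) *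
      ((1 / Real.sqrt s.2.2 : ℝ) : ℂ)) 2 (volume.restrict (SS D)) := by
    intro k
    rw [hvol]
    exact ((du_gk_sq k).comp_snd (volume.restrict (Ioo (-Real.pi) Real.pi))).comp_snd
      (volume.restrict (Ioo D.a0 D.b0))
  have hU : UU N y = fun s => ∑ k ∈ Finset.range N,
      (y k (exp ((s.1 : ℂ) + I * (s.2.1 : ℂ))) * ((Real.exp (-s.1) : ℝ) : ℂ)) *
        (((gk k s.2.2 : ℝ) : ℂ) * ((1 / Real.sqrt s.2.2 : ℝ) : ℂ)) := by
    funext s
    unfold UU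
    rw [Finset.sum_mul]
    refine Finset.sum_congr rfl fun k _ => ?_
    push_cast
    ring
  rw [hU]
  refine memLp_finsetSum _ fun k _ => ?_
  obtain ⟨C, hC⟩ := (h.compact k).exists_bound_of_continuous (h.smooth k).continuous
  have hC0 : 0 ≤ C := (norm_nonneg _).trans (hC 0)
  have hyc : Continuous (y k) := (h.smooth k).continuous
  refine (hG k).of_le_mul (c := C * Real.exp (-D.a0)) ?_ ?_
  · have hm : Measurable (fun s : ℝ × ℝ × ℝ =>
        (y k (exp ((s.1 : ℂ) + I * (s.2.1 : ℂ))) * ((Real.exp (-s.1) : ℝ) : ℂ)) *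
        (((gk k s.2.2 : ℝ) : ℂ) * ((1 / Real.sqrt s.2.2 : ℝ) : ℂ))) := by
      unfold gk
      fun_prop
    exact hm.aestronglyMeasurable
  · have hms : MeasurableSet (SS D) :=
      measurableSet_Ioo.prod (measurableSet_Ioo.prod measurableSet_Ioi)
    filter_upwards [ae_restrict_mem hms] with s hs
    have hs1 : s.1 ∈ Ioo D.a0 D.b0 := hs.1
    rw [norm_mul, norm_mul]
    refine mul_le_mul_of_nonneg_right ?_ (norm_nonneg _)
    rw [Complex.norm_real, Real.norm_eq_abs, abs_of_pos (Real.exp_pos _)]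
    exact mul_le_mul (hC _) (Real.exp_le_exp.2 (by linarith [hs1.1])) (Real.exp_pos _).le hC0

/-! ### integration by parts against test functions -/

theorem du_cont_mul {Ω : Set (ℂ × ℂ)} (hΩ : IsOpen Ω) {u φ : ℂ × ℂ → ℂ}
    (hu : ContinuousOn u Ω) (hφ : Continuous φ) (hs : tsupport φ ⊆ Ω) :
    Continuous (fun p => u p * φ p) := by
  rw [continuous_iff_continuousAt]
  intro p
  by_cases hp : p ∈ Ω
  · exact (hu.continuousAt (hΩ.mem_nhds hp)).mul hφ.continuousAt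
  · have h1 : p ∉ tsupport φ := fun h => hp (hs h)
    have h2 : (fun p => u p * φ p) =ᶠ[𝓝 p] fun _ => 0 := by
      filter_upwards [(isClosed_tsupport φ).isOpen_compl.mem_nhds h1] with q hq
      rw [image_eq_zero_of_notMem_tsupport hq, mul_zero]
    exact continuousAt_const.congr h2.symm

theorem du_int_mul {Ω : Set (ℂ × ℂ)} (hΩ : IsOpen Ω) {u φ : ℂ × ℂ → ℂ}
    (hu : ContinuousOn u Ω) (hφ : Continuous φ) (hc : HasCompactSupport φ)
    (hs : tsupport φ ⊆ Ω) : Integrable (fun p => u p * φ p) :=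
  (du_cont_mul hΩ hu hφ hs).integrable_of_hasCompactSupport hc.mul_left

theorem du_tfD_hol (D : Prof) (N : ℕ) (y : ℕ → ℂ → ℂ) (z w : ℂ) :
    DifferentiableAt ℂ (fun w => tfD D N y (z, w)) w := by
  unfold tfD Prof.om
  dsimp only
  fun_prop

theorem du_dwb_tfD (D : Prof) (N : ℕ) (y : ℕ → ℂ → ℂ) {p : ℂ × ℂ}
    (hd : DifferentiableAt ℝ (tfD D N y) p) : dwb (tfD D N y) p = 0 := by
  obtain ⟨z, w⟩ := p
  have h1 := ((du_tfD_hol D N y z w).hasDerivAt).hasFDerivAt.restrictScalars ℝ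
  have h2 : HasFDerivAt (fun w : ℂ => ((z, w) : ℂ × ℂ)) (ContinuousLinearMap.inr ℝ ℂ ℂ) w :=
    hasFDerivAt_prodMk_right z w
  have h3 := (hd.hasFDerivAt).comp w h2
  have h4 := h3.unique h1
  have h5 : ∀ v : ℂ, fderiv ℝ (tfD D N y) (z, w) (0, v) =
      v * deriv (fun w => tfD D N y (z, w)) w := by
    intro v
    have := DFunLike.congr_fun h4 v
    simpa using this
  unfold dwb
  rw [h5, h5]
  linear_combination (deriv (fun w => tfD D N y (z, w)) w) / 2 * I_mul_I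

theorem du_test_dwb {Ω : Set (ℂ × ℂ)} {φ : ℂ × ℂ → ℂ} (hφ : IsTest Ω φ) :
    Continuous (dwb φ) ∧ HasCompactSupport (dwb φ) ∧ ∀ p ∉ Ω, dwb φ p = 0 := by
  have hfd : Continuous (fderiv ℝ φ) := hφ.smooth.continuous_fderiv (by simp)
  have hz : ∀ p ∉ tsupport φ, dwb φ p = 0 := by
    intro p hp
    have : fderiv ℝ φ p = 0 := by
      have := support_fderiv_subset ℝ (f := φ)
      by_contra hcon
      exact hp (this hcon)
    simp [dwb, this]
  refine ⟨?_, ?_, ?_⟩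
  · unfold dwb
    exact ((hfd.clm_apply continuous_const).add
      (continuous_const.mul (hfd.clm_apply continuous_const))).div_const _
  · exact HasCompactSupport.intro hφ.compact hz
  · intro p hp
    exact hz p fun h => hp (hφ.supp h)

theorem du_haar : (volume : Measure (ℂ × ℂ)).IsAddHaarMeasure := by
  rw [Measure.volume_eq_prod]
  infer_instance

theorem du_ibp (D : Prof) (hΩ : IsOpen D.Ω) (N : ℕ) (y : ℕ → ℂ → ℂ)
    (hsm : ContDiffOn ℝ ∞ (tfD D N y) D.Ω) {φ : ℂ × ℂ → ℂ} (hφ : IsTest D.Ω φ) :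
    ∫ p in D.Ω, tfD D N y p * dwb φ p = 0 := by
  have := du_haar
  have hfd : Continuous (fderiv ℝ φ) := hφ.smooth.continuous_fderiv (by simp)
  have hdiff : ∀ p ∈ D.Ω, DifferentiableAt ℝ (tfD D N y) p := fun p hp =>
    (hsm.contDiffAt (hΩ.mem_nhds hp)).differentiableAt (by simp)
  have hcf : ContinuousOn (fderiv ℝ (tfD D N y)) D.Ω :=
    hsm.continuousOn_fderiv_of_isOpen hΩ (by simp)
  have hc0 : ContinuousOn (tfD D N y) D.Ω := hsm.continuousOn
  have hsub : ∀ v : ℂ × ℂ, tsupport (fun p => fderiv ℝ φ p v) ⊆ tsupport φ :=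
    fun v => tsupport_fderiv_apply_subset ℝ v
  have key : ∀ v : ℂ × ℂ, ∫ p, tfD D N y p * fderiv ℝ φ p v =
      -∫ p, fderiv ℝ (tfD D N y) p v * φ p := by
    intro v
    refine integral_mul_fderiv_eq_neg_fderiv_mul_of_integrable ?_ ?_ ?_ ?_ ?_
    · exact du_int_mul hΩ (hcf.clm_apply continuousOn_const) hφ.smooth.continuous hφ.compact
        hφ.supp
    · exact du_int_mul hΩ hc0 (hfd.clm_apply continuous_const)
        (hφ.compact.fderiv_apply (𝕜 := ℝ) v) ((hsub v).trans hφ.supp)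
    · exact du_int_mul hΩ hc0 hφ.smooth.continuous hφ.compact hφ.supp
    · exact fun p hp => hdiff p (hφ.supp hp)
    · exact fun p _ => (hφ.smooth.differentiable (by simp)) p
  have hint : ∀ v : ℂ × ℂ, Integrable (fun p => tfD D N y p * fderiv ℝ φ p v) := fun v =>
    du_int_mul hΩ hc0 (hfd.clm_apply continuous_const)
        (hφ.compact.fderiv_apply (𝕜 := ℝ) v) ((hsub v).trans hφ.supp)
  have hint' : ∀ v : ℂ × ℂ, Integrable (fun p => fderiv ℝ (tfD D N y) p v * φ p) := fun v =>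
    du_int_mul hΩ (hcf.clm_apply continuousOn_const) hφ.smooth.continuous hφ.compact
        hφ.supp
  rw [setIntegral_eq_integral_of_forall_compl_eq_zero (fun p hp => by
    rw [(du_test_dwb hφ).2.2 p hp, mul_zero])]
  have e1 : (fun p => tfD D N y p * dwb φ p) = fun p =>
      (tfD D N y p * fderiv ℝ φ p (0, 1) + I * (tfD D N y p * fderiv ℝ φ p (0, I))) / 2 := by
    funext p
    unfold dwb
    ring
  rw [e1, integral_div, integral_add (hint _) ((hint _).const_mul I), integral_const_mul, key, key]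
  have e2 : (∫ p, fderiv ℝ (tfD D N y) p (0, 1) * φ p) +
      I * ∫ p, fderiv ℝ (tfD D N y) p (0, I) * φ p = 0 := by
    rw [← integral_const_mul, ← integral_add (hint' _) ((hint' _).const_mul I)]
    refine integral_eq_zero_of_ae (Eventually.of_forall fun p => ?_)
    by_cases hp : p ∈ D.Ω
    · have h1 := du_dwb_tfD D N y (hdiff p hp)
      unfold dwb at h1
      show fderiv ℝ (tfD D N y) p (0, 1) * φ p + I * (fderiv ℝ (tfD D N y) p (0, I) * φ p) = 0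
      linear_combination 2 * φ p * h1
    · have : φ p = 0 := image_eq_zero_of_notMem_tsupport fun h => hp (hφ.supp h)
      simp [this]
  linear_combination (-1 / 2) * e2

/-! ### the facts used -/

/-- the facts used from BASIC and NICE -/
structure NHyp (D : Prof) : Prop where
  isOpen : IsOpen D.Ω
  base : ∀ p ∈ D.Ω, p.1 ∈ D.base
  mtf : ∀ N y, Adm D N y → MemLp (tf D N y) 2 (volume.restrict D.Ω)
  mz : ∀ N y, Adm D N y → MemLp (fun p => p.1 * tf D N y p) 2 (volume.restrict D.Ω)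
  mV : ∀ N y, Adm D N y → MemLp (fun p => D.V p * tf D N y p) 2 (volume.restrict D.Ω)
  mtfD : ∀ N y, Adm D N y → MemLp (tfD D N y) 2 (volume.restrict D.Ω)
  sm : ∀ N y, Adm D N y → ContDiffOn ℝ ∞ (tfD D N y) D.Ω

/-- the facts used (from BASIC, NICE, ISO, DAG) -/
structure DualHyp (D : Prof) : Prop extends NHyp D where
  iso : ∀ N y, Adm D N y → ∫ p in D.Ω, ‖tf D N y p‖ ^ 2 = ∫ s in SS D, ‖UU N y s‖ ^ 2
  dag : ∀ N y, Adm D N y →
    (∫ p in D.Ω, (‖p.1‖ ^ 2 + ‖D.V p‖ ^ 2 / 2) * ‖tf D N y p‖ ^ 2) +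
      D.cw * (∫ s in SS D, ‖UU N y s‖ ^ 2 / tt D.T s.2.2 ^ 2) ≤
    ∫ p in D.Ω, ‖tfD D N y p‖ ^ 2

theorem du_comb {D : Prof} {N N' : ℕ} {y y' : ℕ → ℂ → ℂ} (h : Adm D N y) (h' : Adm D N' y')
    (a b : ℂ) : ∃ K z, Adm D K z ∧ (∀ p, tf D K z p = a * tf D N y p + b * tf D N' y' p) ∧
      (∀ p, tfD D K z p = a * tfD D N y p + b * tfD D N' y' p) ∧
      ∀ s, UU K z s = a * UU N y s + b * UU N' y' s := by
  refine ⟨max N N', ducomb a b y y', du_adm_lin (du_adm_mono h (le_max_left _ _))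
    (du_adm_mono h' (le_max_right _ _)) a b, ?_, ?_, ?_⟩
  · intro p
    rw [du_tf_lin, du_tf_mono h (le_max_left _ _), du_tf_mono h' (le_max_right _ _)]
  · intro p
    rw [du_tfD_lin (du_adm_mono h (le_max_left _ _)) (du_adm_mono h' (le_max_right _ _)),
      du_tfD_mono h (le_max_left _ _), du_tfD_mono h' (le_max_right _ _)]
  · intro s
    rw [du_UU_lin, du_UU_mono h (le_max_left _ _), du_UU_mono h' (le_max_right _ _)]

theorem du_adm_zero (D : Prof) : Adm D 0 (fun _ _ => 0) where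
  zero k _ := rfl
  smooth k := contDiff_const
  compact k := HasCompactSupport.zero
  supp k := by
    have : tsupport (fun _ : ℂ => (0 : ℂ)) = ∅ := by
      rw [tsupport_eq_empty_iff]; rfl
    rw [this]; exact empty_subset _

theorem du_tfD_zero (D : Prof) (p : ℂ × ℂ) : tfD D 0 (fun _ _ => 0) p = 0 := by
  unfold tfD
  have : ∀ j ∈ Finset.range (0 + 1), dd D (fun _ _ => 0) j p.1 * (1 + D.om p) ^ j = 0 := by
    intro j _
    unfold dd
    have := du_DZ_zero p.1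
    have h2 : DZ (fun _ => (0 : ℂ)) p.1 = 0 := this
    rw [h2]
    simp
  rw [Finset.sum_eq_zero this]
  simp

/-- the submodule of the `X† tf` -/
def duM (D : Prof) : Submodule ℂ (L2 D.Ω) where
  carrier := {g : L2 D.Ω | ∃ N y, Adm D N y ∧
    (g : ℂ × ℂ → ℂ) =ᵐ[volume.restrict D.Ω] tfD D N y}
  add_mem' := by
    rintro g g' ⟨N, y, h, hg⟩ ⟨N', y', h', hg'⟩
    obtain ⟨K, z, hz, -, h2, -⟩ := du_comb h h' 1 1
    refine ⟨K, z, hz, ?_⟩
    filter_upwards [hg, hg', Lp.coeFn_add g g'] with p h3 h4 h5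
    rw [h5, Pi.add_apply, h3, h4, h2]
    ring
  zero_mem' := by
    refine ⟨0, fun _ _ => 0, du_adm_zero D, ?_⟩
    filter_upwards [Lp.coeFn_zero (E := ℂ) (p := 2) (μ := volume.restrict D.Ω)] with p h
    rw [du_tfD_zero, h]
    rfl
  smul_mem' := by
    rintro a g ⟨N, y, h, hg⟩
    obtain ⟨K, z, hz, -, h2, -⟩ := du_comb h h a 0
    refine ⟨K, z, hz, ?_⟩
    filter_upwards [hg, Lp.coeFn_smul a g] with p h3 h5
    rw [h5, Pi.smul_apply, h3, h2, smul_eq_mul]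
    ring

theorem du_RR (D : Prof) : RR D = (duM D).topologicalClosure := by
  unfold RR
  congr 1
  exact Submodule.span_eq (duM D)

theorem du_seq {D : Prof} (H : NHyp D) {h : L2 D.Ω} (hh : h ∈ RR D) :
    ∃ (N : ℕ → ℕ) (y : ℕ → ℕ → ℂ → ℂ) (hy : ∀ j, Adm D (N j) (y j)),
      Tendsto (fun j => (H.mtfD _ _ (hy j)).toLp (tfD D (N j) (y j))) atTop (𝓝 h) := by
  rw [du_RR] at hh
  have hh' : h ∈ closure (duM D : Set (L2 D.Ω)) := hh
  obtain ⟨g, hg, hl⟩ := mem_closure_iff_seq_limit.1 hh'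
  have hg' : ∀ j, ∃ N y, Adm D N y ∧
    (g j : ℂ × ℂ → ℂ) =ᵐ[volume.restrict D.Ω] tfD D N y := hg
  choose N y hy hgy using hg'
  refine ⟨N, y, hy, ?_⟩
  have : (fun j => (H.mtfD _ _ (hy j)).toLp (tfD D (N j) (y j))) = g := by
    funext j
    refine Lp.ext ?_
    exact ((H.mtfD _ _ (hy j)).coeFn_toLp).trans (hgy j).symm
  rw [this]
  exact hl

theorem du_mem_RR {D : Prof} (H : NHyp D) {N : ℕ} {y : ℕ → ℂ → ℂ} (h : Adm D N y) :
    (H.mtfD _ _ h).toLp (tfD D N y) ∈ RR D := by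
  rw [du_RR]
  refine Submodule.le_topologicalClosure _ ?_
  exact ⟨N, y, h, (H.mtfD _ _ h).coeFn_toLp⟩

/-- the weighted function `UU / t`. -/
noncomputable def duW (D : Prof) (N : ℕ) (y : ℕ → ℂ → ℂ) (s : ℝ × ℝ × ℝ) : ℂ :=
  UU N y s * ((1 / tt D.T s.2.2 : ℝ) : ℂ)

theorem du_tt {T p : ℝ} (hT : 1 ≤ T) (hp : 0 < p) : 1 ≤ tt T p := by
  unfold tt
  have : 0 ≤ Real.log (1 + 1 / p) := Real.log_nonneg (by
    have : 0 < 1 / p := by positivity
    linarith)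
  linarith

theorem du_W_memLp {D : Prof} {N : ℕ} {y : ℕ → ℂ → ℂ} (h : Adm D N y) :
    MemLp (duW D N y) 2 (volume.restrict (SS D)) := by
  refine (du_UU_memLp h).of_le_mul (c := 1) ?_ ?_
  · refine (du_UU_memLp h).1.mul ?_
    have : Measurable (fun s : ℝ × ℝ × ℝ => ((1 / tt D.T s.2.2 : ℝ) : ℂ)) := by
      unfold tt
      fun_prop
    exact this.aestronglyMeasurable
  · have hms : MeasurableSet (SS D) :=
      measurableSet_Ioo.prod (measurableSet_Ioo.prod measurableSet_Ioi)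
    filter_upwards [ae_restrict_mem hms] with s hs
    have hp : 0 < s.2.2 := hs.2.2
    have ht := du_tt D.hT hp
    unfold duW
    rw [norm_mul, Complex.norm_real, Real.norm_eq_abs, abs_of_nonneg (by positivity), mul_comm]
    refine mul_le_mul_of_nonneg_right ?_ (norm_nonneg _)
    rw [div_le_one (by linarith)]
    exact ht

theorem du_W_int (D : Prof) (N : ℕ) (y : ℕ → ℂ → ℂ) :
    ∫ s in SS D, ‖UU N y s‖ ^ 2 / tt D.T s.2.2 ^ 2 = ∫ s in SS D, ‖duW D N y s‖ ^ 2 := by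
  refine integral_congr_ae (Eventually.of_forall fun s => ?_)
  simp only [duW]
  rw [norm_mul, Complex.norm_real, mul_pow, Real.norm_eq_abs, sq_abs, one_div, inv_pow,
    div_eq_mul_inv]

section core
variable {D : Prof} (H : DualHyp D)
include H

theorem du_E {N : ℕ} {y : ℕ → ℂ → ℂ} (h : Adm D N y) :
    ∫ p in D.Ω, (‖p.1‖ ^ 2 + ‖D.V p‖ ^ 2 / 2) * ‖tf D N y p‖ ^ 2 =
      (∫ p in D.Ω, ‖p.1 * tf D N y p‖ ^ 2) + (∫ p in D.Ω, ‖D.V p * tf D N y p‖ ^ 2) / 2 := by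
  rw [← integral_div, ← integral_add (du_int_sq (H.mz N y h)) ((du_int_sq (H.mV N y h)).div_const _)]
  refine integral_congr_ae (Eventually.of_forall fun p => ?_)
  simp only [norm_mul]
  ring

theorem du_dag {N : ℕ} {y : ℕ → ℂ → ℂ} (h : Adm D N y) :
    (∫ p in D.Ω, ‖p.1 * tf D N y p‖ ^ 2) + (∫ p in D.Ω, ‖D.V p * tf D N y p‖ ^ 2) / 2 +
      D.cw * ∫ s in SS D, ‖duW D N y s‖ ^ 2 ≤ ∫ p in D.Ω, ‖tfD D N y p‖ ^ 2 := by
  have := H.dag N y h
  rw [du_E H h, du_W_int] at this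
  exact this

theorem du_rhs (u : L2F D.Ω) {N : ℕ} {y : ℕ → ℂ → ℂ} (h : Adm D N y) :
    ∫ p in D.Ω, (2 * conj p.1 * u.fst p - conj (D.V p) * u.snd p) * conj (tf D N y p) =
      2 * inner ℂ ((H.mz N y h).toLp _) u.fst - inner ℂ ((H.mV N y h).toLp _) u.snd := by
  rw [du_inner', du_inner']
  have h1 : Integrable (fun p => u.fst p * conj (p.1 * tf D N y p)) (volume.restrict D.Ω) := by
    have := L2.integrable_inner (𝕜 := ℂ) ((H.mz N y h).toLp _) u.fst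
    refine this.congr ?_
    filter_upwards [(H.mz N y h).coeFn_toLp] with p hp
    rw [hp]
    simp
  have h2 : Integrable (fun p => u.snd p * conj (D.V p * tf D N y p)) (volume.restrict D.Ω) := by
    have := L2.integrable_inner (𝕜 := ℂ) ((H.mV N y h).toLp _) u.snd
    refine this.congr ?_
    filter_upwards [(H.mV N y h).coeFn_toLp] with p hp
    rw [hp]
    simp
  rw [← integral_const_mul, ← integral_sub (h1.const_mul 2) h2]
  refine integral_congr_ae (Eventually.of_forall fun p => ?_)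
  simp only [map_mul]
  ring

/-- Cauchy-Schwarz -/
theorem du_cs (u : L2F D.Ω) {N : ℕ} {y : ℕ → ℂ → ℂ} (h : Adm D N y) :
    ‖∫ p in D.Ω, (2 * conj p.1 * u.fst p - conj (D.V p) * u.snd p) * conj (tf D N y p)‖ ^ 2 ≤
      (4 * ‖u.fst‖ ^ 2 + 2 * ‖u.snd‖ ^ 2) * ((∫ p in D.Ω, ‖p.1 * tf D N y p‖ ^ 2) +
        (∫ p in D.Ω, ‖D.V p * tf D N y p‖ ^ 2) / 2) := by
  rw [du_rhs H u h, ← du_norm_sq (H.mz N y h), ← du_norm_sq (H.mV N y h)]
  set α := ‖(H.mz N y h).toLp _‖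
  set β := ‖(H.mV N y h).toLp _‖
  have h1 : ‖inner ℂ ((H.mz N y h).toLp _) u.fst‖ ≤ α * ‖u.fst‖ := norm_inner_le_norm _ _
  have h2 : ‖inner ℂ ((H.mV N y h).toLp _) u.snd‖ ≤ β * ‖u.snd‖ := norm_inner_le_norm _ _
  have h3 : ‖2 * inner ℂ ((H.mz N y h).toLp _) u.fst - inner ℂ ((H.mV N y h).toLp _) u.snd‖ ≤
      2 * (α * ‖u.fst‖) + β * ‖u.snd‖ := by
    refine (norm_sub_le _ _).trans ?_
    rw [norm_mul, Complex.norm_ofNat]
    linarith
  have h4 : 0 ≤ 2 * (α * ‖u.fst‖) + β * ‖u.snd‖ := by positivity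
  calc _ ≤ (2 * (α * ‖u.fst‖) + β * ‖u.snd‖) ^ 2 := pow_le_pow_left₀ (norm_nonneg _) h3 2
    _ ≤ _ := by nlinarith [sq_nonneg (β * ‖u.fst‖ - α * ‖u.snd‖)]

theorem du_exp_le {N : ℕ} {y : ℕ → ℂ → ℂ} (h : Adm D N y) :
    Real.exp (2 * D.a0) * (∫ p in D.Ω, ‖tf D N y p‖ ^ 2) ≤ ∫ p in D.Ω, ‖p.1 * tf D N y p‖ ^ 2 := by
  rw [← integral_const_mul]
  refine integral_mono_ae ((du_int_sq (H.mtf N y h)).const_mul _) (du_int_sq (H.mz N y h)) ?_
  filter_upwards [ae_restrict_mem H.isOpen.measurableSet] with p hp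
  have hb := H.base p hp
  have h1 : D.a0 < Real.log ‖p.1‖ := hb.2.1
  have h0 : 0 < ‖p.1‖ := norm_pos_iff.2 hb.1
  have h2 : Real.exp D.a0 ≤ ‖p.1‖ := by
    rw [← Real.exp_log h0]; exact Real.exp_le_exp.2 h1.le
  have h3 : Real.exp (2 * D.a0) ≤ ‖p.1‖ ^ 2 := by
    have : Real.exp (2 * D.a0) = Real.exp D.a0 ^ 2 := by
      rw [← Real.exp_nat_mul]; push_cast; rfl
    rw [this]
    exact pow_le_pow_left₀ (Real.exp_pos _).le h2 2
  simp only [norm_mul, mul_pow]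
  exact mul_le_mul_of_nonneg_right h3 (by positivity)

/-- if the weighted norms of `UU` go to zero along an `L²` Cauchy sequence of `tfD`, then the
norms of `z tf` and `V tf` go to zero. -/
theorem du_E_zero (N : ℕ → ℕ) (y : ℕ → ℕ → ℂ → ℂ) (hy : ∀ j, Adm D (N j) (y j)) (h : L2 D.Ω)
    (hl : Tendsto (fun j => (H.mtfD _ _ (hy j)).toLp (tfD D (N j) (y j))) atTop (𝓝 h))
    (hW : Tendsto (fun j => ∫ s in SS D, ‖duW D (N j) (y j) s‖ ^ 2) atTop (𝓝 0)) :
    Tendsto (fun j => (∫ p in D.Ω, ‖p.1 * tf D (N j) (y j) p‖ ^ 2) +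
      (∫ p in D.Ω, ‖D.V p * tf D (N j) (y j) p‖ ^ 2) / 2) atTop (𝓝 0) := by
  -- Cauchy
  have hC : ∀ ε > 0, ∃ J, ∀ m ≥ J, ∀ j ≥ J,
      ∫ p in D.Ω, ‖tfD D (N m) (y m) p - tfD D (N j) (y j) p‖ ^ 2 ≤ ε := by
    intro ε hε
    have hcs := hl.cauchySeq
    rw [Metric.cauchySeq_iff] at hcs
    obtain ⟨J, hJ⟩ := hcs (Real.sqrt ε) (Real.sqrt_pos.2 hε)
    refine ⟨J, fun m hm j hj => ?_⟩
    have h1 := (hJ m hm j hj).le
    rw [dist_eq_norm, ← MemLp.toLp_sub] at h1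
    have h2 := du_norm_sq ((H.mtfD _ _ (hy m)).sub (H.mtfD _ _ (hy j)))
    have h3 : ‖(((H.mtfD _ _ (hy m)).sub (H.mtfD _ _ (hy j))).toLp _)‖ ^ 2 ≤ ε := by
      calc _ ≤ (Real.sqrt ε) ^ 2 := pow_le_pow_left₀ (norm_nonneg _) h1 2
        _ = ε := Real.sq_sqrt hε.le
    rw [h2] at h3
    exact h3
  -- differences
  have hD : ∀ m j, (∫ p in D.Ω, ‖p.1 * tf D (N m) (y m) p - p.1 * tf D (N j) (y j) p‖ ^ 2) +
      (∫ p in D.Ω, ‖D.V p * tf D (N m) (y m) p - D.V p * tf D (N j) (y j) p‖ ^ 2) / 2 ≤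
      (∫ p in D.Ω, ‖tfD D (N m) (y m) p - tfD D (N j) (y j) p‖ ^ 2) ∧
      Real.exp (2 * D.a0) * (∫ s in SS D, ‖UU (N m) (y m) s - UU (N j) (y j) s‖ ^ 2) ≤
      (∫ p in D.Ω, ‖tfD D (N m) (y m) p - tfD D (N j) (y j) p‖ ^ 2) := by
    intro m j
    obtain ⟨K, z, hz, h1, h2, h3⟩ := du_comb (hy m) (hy j) 1 (-1)
    have k1 := du_dag H hz
    have k2 := H.iso K z hz
    have k3 := du_exp_le H hz
    rw [k2] at k3
    have e1 : (fun p : ℂ × ℂ => ‖p.1 * tf D K z p‖ ^ 2) =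
        fun p => ‖p.1 * tf D (N m) (y m) p - p.1 * tf D (N j) (y j) p‖ ^ 2 := by
      funext p; rw [h1]; congr 2; ring
    have e2 : (fun p : ℂ × ℂ => ‖D.V p * tf D K z p‖ ^ 2) =
        fun p => ‖D.V p * tf D (N m) (y m) p - D.V p * tf D (N j) (y j) p‖ ^ 2 := by
      funext p; rw [h1]; congr 2; ring
    have e3 : (fun p : ℂ × ℂ => ‖tfD D K z p‖ ^ 2) =
        fun p => ‖tfD D (N m) (y m) p - tfD D (N j) (y j) p‖ ^ 2 := by
      funext p; rw [h2]; congr 2; ring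
    have e4 : (fun s : ℝ × ℝ × ℝ => ‖UU K z s‖ ^ 2) =
        fun s => ‖UU (N m) (y m) s - UU (N j) (y j) s‖ ^ 2 := by
      funext p; rw [h3]; congr 2; ring
    rw [e4] at k3
    rw [e1] at k1 k3
    rw [e2, e3] at k1
    have k4 : 0 ≤ ∫ s in SS D, ‖duW D K z s‖ ^ 2 := integral_nonneg fun s => by positivity
    have k5 : 0 ≤ D.cw * ∫ s in SS D, ‖duW D K z s‖ ^ 2 := mul_nonneg D.hcw.le k4
    have k6 : 0 ≤ ∫ p in D.Ω, ‖D.V p * tf D (N m) (y m) p - D.V p * tf D (N j) (y j) p‖ ^ 2 :=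
      integral_nonneg fun s => by positivity
    constructor
    · linarith
    · linarith
  -- `UU → 0`
  have s1 : Tendsto (fun j => ∫ s in SS D, ‖UU (N j) (y j) s‖ ^ 2) atTop (𝓝 0) := by
    refine du_closed (fun j => duW D (N j) (y j)) (fun j => UU (N j) (y j))
      (fun j => du_W_memLp (hy j)) (fun j => du_UU_memLp (hy j))
      (fun s => ((tt D.T s.2.2 : ℝ) : ℂ)) ?_ hW ?_
    · have hms : MeasurableSet (SS D) :=
        measurableSet_Ioo.prod (measurableSet_Ioo.prod measurableSet_Ioi)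
      filter_upwards [ae_restrict_mem hms] with s hs
      have hp : 0 < s.2.2 := hs.2.2
      have ht := du_tt D.hT hp
      intro j
      have ht0 : ((tt D.T s.2.2 : ℝ) : ℂ) ≠ 0 := by
        rw [Ne, Complex.ofReal_eq_zero]; linarith
      simp only [duW]
      push_cast
      field_simp
    · intro ε hε
      obtain ⟨J, hJ⟩ := hC (Real.exp (2 * D.a0) * ε) (by positivity)
      refine ⟨J, fun m hm j hj => ?_⟩
      have h1 := (hD m j).2.trans (hJ m hm j hj)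
      exact le_of_mul_le_mul_left h1 (Real.exp_pos _)
  -- `tf → 0`
  have s2 : Tendsto (fun j => ∫ p in D.Ω, ‖tf D (N j) (y j) p‖ ^ 2) atTop (𝓝 0) := by
    have : (fun j => ∫ p in D.Ω, ‖tf D (N j) (y j) p‖ ^ 2) =
        fun j => ∫ s in SS D, ‖UU (N j) (y j) s‖ ^ 2 := by
      funext j; exact H.iso _ _ (hy j)
    rw [this]; exact s1
  have s3 : Tendsto (fun j => ∫ p in D.Ω, ‖p.1 * tf D (N j) (y j) p‖ ^ 2) atTop (𝓝 0) := by
    refine du_closed (fun j => tf D (N j) (y j)) (fun j p => p.1 * tf D (N j) (y j) p)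
      (fun j => H.mtf _ _ (hy j)) (fun j => H.mz _ _ (hy j)) (fun p => p.1)
      (Eventually.of_forall fun p j => rfl) s2 ?_
    intro ε hε
    obtain ⟨J, hJ⟩ := hC ε hε
    refine ⟨J, fun m hm j hj => ?_⟩
    have h1 := (hD m j).1.trans (hJ m hm j hj)
    have k6 : 0 ≤ ∫ p in D.Ω, ‖D.V p * tf D (N m) (y m) p - D.V p * tf D (N j) (y j) p‖ ^ 2 :=
      integral_nonneg fun s => by positivity
    linarith
  have s4 : Tendsto (fun j => ∫ p in D.Ω, ‖D.V p * tf D (N j) (y j) p‖ ^ 2) atTop (𝓝 0) := by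
    refine du_closed (fun j => tf D (N j) (y j)) (fun j p => D.V p * tf D (N j) (y j) p)
      (fun j => H.mtf _ _ (hy j)) (fun j => H.mV _ _ (hy j)) D.V
      (Eventually.of_forall fun p j => rfl) s2 ?_
    intro ε hε
    obtain ⟨J, hJ⟩ := hC (ε / 2) (by positivity)
    refine ⟨J, fun m hm j hj => ?_⟩
    have h1 := (hD m j).1.trans (hJ m hm j hj)
    have k6 : 0 ≤ ∫ p in D.Ω, ‖p.1 * tf D (N m) (y m) p - p.1 * tf D (N j) (y j) p‖ ^ 2 :=
      integral_nonneg fun s => by positivity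
    linarith
  simpa using s3.add (s4.div_const 2)

theorem dual_ineq_core (f : L2 D.Ω) (u : L2F D.Ω)
    (hX : ∀ N y, Adm D N y → ∫ p in D.Ω, f p * conj (tfD D N y p) =
      ∫ p in D.Ω, (2 * conj p.1 * u.fst p - conj (D.V p) * u.snd p) * conj (tf D N y p))
    (h : L2 D.Ω) (hh : h ∈ RR D) (hort : ∀ g ∈ RR D, inner ℂ g (f - h) = 0) (h0 : h ≠ 0) :
    ‖h‖ ^ 2 < 4 * ‖u.fst‖ ^ 2 + 2 * ‖u.snd‖ ^ 2 := by
  by_contra hcon
  rw [not_lt] at hcon
  set M := 4 * ‖u.fst‖ ^ 2 + 2 * ‖u.snd‖ ^ 2 with hM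
  have hM0 : 0 ≤ M := by positivity
  have hn : 0 < ‖h‖ := norm_pos_iff.2 h0
  obtain ⟨N, y, hy, hl⟩ := du_seq H.toNHyp hh
  set g : ℕ → L2 D.Ω := fun j => (H.mtfD _ _ (hy j)).toLp (tfD D (N j) (y j)) with hg
  set E : ℕ → ℝ := fun j => (∫ p in D.Ω, ‖p.1 * tf D (N j) (y j) p‖ ^ 2) +
      (∫ p in D.Ω, ‖D.V p * tf D (N j) (y j) p‖ ^ 2) / 2 with hE
  set F : ℕ → ℝ := fun j => ∫ s in SS D, ‖duW D (N j) (y j) s‖ ^ 2 with hF
  have hE0 : ∀ j, 0 ≤ E j := fun j => add_nonneg (integral_nonneg fun p => by positivity)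
    (div_nonneg (integral_nonneg fun p => by positivity) (by norm_num))
  have hF0 : ∀ j, 0 ≤ F j := fun j => integral_nonneg fun p => by positivity
  have k1 : ∀ j, E j + D.cw * F j ≤ ‖g j‖ ^ 2 := by
    intro j
    rw [hg]
    simp only
    rw [du_norm_sq]
    exact du_dag H (hy j)
  have k2 : ∀ j, ‖inner ℂ (g j) f‖ ^ 2 ≤ M * E j := by
    intro j
    rw [hg]
    simp only
    rw [du_inner', hX _ _ (hy j)]
    exact du_cs H u (hy j)
  have t1 : Tendsto (fun j => ‖g j‖ ^ 2) atTop (𝓝 (‖h‖ ^ 2)) := (hl.norm).pow 2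
  have e1 : inner ℂ h f = ((‖h‖ ^ 2 : ℝ) : ℂ) := by
    have h1 := hort h hh
    rw [inner_sub_right, sub_eq_zero] at h1
    rw [h1, inner_self_eq_norm_sq_to_K]
    push_cast
    rfl
  have t2 : Tendsto (fun j => ‖inner ℂ (g j) f‖ ^ 2) atTop (𝓝 ((‖h‖ ^ 2) ^ 2)) := by
    have h1 : Tendsto (fun j => inner ℂ (g j) f) atTop (𝓝 (inner ℂ h f)) :=
      hl.inner tendsto_const_nhds
    have h2 := (h1.norm).pow 2
    rw [e1, Complex.norm_real, Real.norm_eq_abs, abs_of_nonneg (by positivity)] at h2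
    exact h2
  -- `F → 0`
  have t3 : Tendsto F atTop (𝓝 0) := by
    have h1 : ∀ j, F j ≤ (‖h‖ ^ 2 * ‖g j‖ ^ 2 - ‖inner ℂ (g j) f‖ ^ 2) / (‖h‖ ^ 2 * D.cw) := by
      intro j
      rw [le_div_iff₀ (mul_pos (by positivity) D.hcw)]
      have h2 := k1 j
      have h3 := k2 j
      have h4 : M * E j ≤ ‖h‖ ^ 2 * E j := mul_le_mul_of_nonneg_right hcon (hE0 j)
      have h5 : ‖h‖ ^ 2 * (E j + D.cw * F j) ≤ ‖h‖ ^ 2 * ‖g j‖ ^ 2 :=
        mul_le_mul_of_nonneg_left h2 (by positivity)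
      nlinarith
    have h2 : Tendsto (fun j => (‖h‖ ^ 2 * ‖g j‖ ^ 2 - ‖inner ℂ (g j) f‖ ^ 2) /
        (‖h‖ ^ 2 * D.cw)) atTop (𝓝 0) := by
      have := ((t1.const_mul (‖h‖ ^ 2)).sub t2).div_const (‖h‖ ^ 2 * D.cw)
      have e : (‖h‖ ^ 2 * ‖h‖ ^ 2 - (‖h‖ ^ 2) ^ 2) / (‖h‖ ^ 2 * D.cw) = 0 := by
        have : ‖h‖ ^ 2 * ‖h‖ ^ 2 - (‖h‖ ^ 2) ^ 2 = 0 := by ring
        rw [this, zero_div]
      rw [e] at this
      exact this
    exact squeeze_zero hF0 h1 h2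
  have t4 : Tendsto E atTop (𝓝 0) := du_E_zero H N y hy h hl t3
  have t5 : Tendsto (fun j => M * E j) atTop (𝓝 0) := by simpa using t4.const_mul M
  have t6 := le_of_tendsto_of_tendsto' t2 t5 k2
  have : 0 < (‖h‖ ^ 2) ^ 2 := by positivity
  linarith

omit H in
theorem du_riesz {E : Type*} [NormedAddCommGroup E] [InnerProductSpace ℂ E] [CompleteSpace E]
    (P : Submodule ℂ (E × ℂ)) (C : ℝ) (hC : ∀ x ∈ P, ‖x.2‖ ≤ C * ‖x.1‖) :
    ∃ h0 : E, ∀ x ∈ P, x.2 = inner ℂ h0 x.1 := by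
  have hg : ∀ (x : E × ℂ) (_ : x ∈ P) (_ : x.1 = 0), x.2 = 0 := by
    intro x hx h
    have := hC x hx
    rw [h, norm_zero, mul_zero] at this
    exact norm_le_zero_iff.1 this
  let Q : Submodule ℂ E := P.map (LinearMap.fst ℂ E ℂ)
  let L : Q →ₗ[ℂ] ℂ := P.toLinearPMap.toFun
  have hL : ∀ x : Q, ‖L x‖ ≤ C * ‖x‖ := fun x => hC _ (Submodule.mem_graph_toLinearPMap hg x)
  obtain ⟨G, hG, -⟩ := exists_extension_norm_eq Q (L.mkContinuous C hL)
  refine ⟨(InnerProductSpace.toDual ℂ E).symm G, fun x hx => ?_⟩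
  rw [InnerProductSpace.toDual_symm_apply]
  have hxQ : x.1 ∈ Q := ⟨x, hx, rfl⟩
  have h1 : G x.1 = L ⟨x.1, hxQ⟩ := hG ⟨x.1, hxQ⟩
  have h2 : (x.1, L ⟨x.1, hxQ⟩) ∈ P := Submodule.mem_graph_toLinearPMap hg ⟨x.1, hxQ⟩
  have h3 : x - (x.1, L ⟨x.1, hxQ⟩) ∈ P := P.sub_mem hx h2
  have h4 := hg _ h3 (by simp)
  rw [h1]
  simpa [sub_eq_zero] using h4

theorem riesz_RR_core (u : L2F D.Ω) (G : L2 D.Ω) :
    ∃ h ∈ RR D, ∀ N y, Adm D N y → ∫ p in D.Ω, h p * conj (tfD D N y p) =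
      (∫ p in D.Ω, (2 * conj p.1 * u.fst p - conj (D.V p) * u.snd p) * conj (tf D N y p)) -
      ∫ p in D.Ω, G p * conj (tfD D N y p) := by
  -- the functional
  set ℓ : ∀ (N : ℕ) (y : ℕ → ℂ → ℂ) (_ : Adm D N y), ℂ := fun N y h =>
    2 * inner ℂ u.fst ((H.mz N y h).toLp _) - inner ℂ u.snd ((H.mV N y h).toLp _) -
      inner ℂ G ((H.mtfD N y h).toLp _) with hℓ
  have hℓ' : ∀ N y (h : Adm D N y), ℓ N y h = conj
      ((∫ p in D.Ω, (2 * conj p.1 * u.fst p - conj (D.V p) * u.snd p) * conj (tf D N y p)) -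
      ∫ p in D.Ω, G p * conj (tfD D N y p)) := by
    intro N y h
    rw [du_rhs H u h, ← du_inner' G (H.mtfD N y h)]
    simp only [hℓ, map_sub, map_mul, inner_conj_symm, Complex.conj_ofNat]
  have hbd : ∀ N y (h : Adm D N y), ‖ℓ N y h‖ ≤
      (Real.sqrt (4 * ‖u.fst‖ ^ 2 + 2 * ‖u.snd‖ ^ 2) + ‖G‖) * ‖(H.mtfD N y h).toLp _‖ := by
    intro N y h
    rw [hℓ' N y h, Complex.norm_conj, ← du_inner' G (H.mtfD N y h)]
    refine (norm_sub_le _ _).trans ?_
    rw [add_mul]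
    refine add_le_add ?_ ?_
    · have h1 := du_cs H u h
      have h2 := du_dag H h
      have h3 : 0 ≤ D.cw * ∫ s in SS D, ‖duW D N y s‖ ^ 2 :=
        mul_nonneg D.hcw.le (integral_nonneg fun s => by positivity)
      refine le_of_sq_le_sq ?_ (by positivity)
      rw [mul_pow, Real.sq_sqrt (by positivity), du_norm_sq]
      exact h1.trans (mul_le_mul_of_nonneg_left (by linarith) (by positivity))
    · rw [mul_comm]
      exact norm_inner_le_norm _ _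
  have hlin : ∀ {N N' : ℕ} {y y' : ℕ → ℂ → ℂ} (h : Adm D N y) (h' : Adm D N' y') (a b : ℂ),
      ∃ K z, ∃ hz : Adm D K z, (H.mtfD K z hz).toLp (tfD D K z) =
        a • (H.mtfD N y h).toLp (tfD D N y) + b • (H.mtfD N' y' h').toLp (tfD D N' y') ∧
        ℓ K z hz = a * ℓ N y h + b * ℓ N' y' h' := by
    intro N N' y y' h h' a b
    obtain ⟨K, z, hz, h1, h2, -⟩ := du_comb h h' a b
    have e1 : (H.mtfD K z hz).toLp (tfD D K z) =
        a • (H.mtfD N y h).toLp (tfD D N y) + b • (H.mtfD N' y' h').toLp (tfD D N' y') := by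
      rw [← MemLp.toLp_const_smul, ← MemLp.toLp_const_smul, ← MemLp.toLp_add]
      rw [MemLp.toLp_eq_toLp_iff]
      exact Eventually.of_forall fun p => by simp [h2]
    have e2 : (H.mz K z hz).toLp (fun p => p.1 * tf D K z p) =
        a • (H.mz N y h).toLp (fun p => p.1 * tf D N y p) +
          b • (H.mz N' y' h').toLp (fun p => p.1 * tf D N' y' p) := by
      rw [← MemLp.toLp_const_smul, ← MemLp.toLp_const_smul, ← MemLp.toLp_add]
      rw [MemLp.toLp_eq_toLp_iff]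
      exact Eventually.of_forall fun p => by simp [h1]; ring
    have e3 : (H.mV K z hz).toLp (fun p => D.V p * tf D K z p) =
        a • (H.mV N y h).toLp (fun p => D.V p * tf D N y p) +
          b • (H.mV N' y' h').toLp (fun p => D.V p * tf D N' y' p) := by
      rw [← MemLp.toLp_const_smul, ← MemLp.toLp_const_smul, ← MemLp.toLp_add]
      rw [MemLp.toLp_eq_toLp_iff]
      exact Eventually.of_forall fun p => by simp [h1]; ring
    refine ⟨K, z, hz, e1, ?_⟩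
    simp only [hℓ]
    rw [e1, e2, e3]
    simp only [inner_add_right, inner_smul_right]
    ring
  let P : Submodule ℂ (L2 D.Ω × ℂ) :=
    { carrier := {x | ∃ N y, ∃ h : Adm D N y, x.1 = (H.mtfD N y h).toLp (tfD D N y) ∧
        x.2 = ℓ N y h}
      add_mem' := by
        rintro ⟨g, c⟩ ⟨g', c'⟩ ⟨N, y, h, h1, h2⟩ ⟨N', y', h', h1', h2'⟩
        obtain ⟨K, z, hz, k1, k2⟩ := hlin h h' 1 1
        simp only at h1 h2 h1' h2'
        refine ⟨K, z, hz, ?_, ?_⟩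
        · rw [k1, one_smul, one_smul, ← h1, ← h1', Prod.fst_add]
        · rw [k2, one_mul, one_mul, ← h2, ← h2', Prod.snd_add]
      zero_mem' := by
        obtain ⟨K, z, hz, k1, k2⟩ := hlin (du_adm_zero D) (du_adm_zero D) 0 0
        refine ⟨K, z, hz, ?_, ?_⟩
        · rw [k1, zero_smul, add_zero]; rfl
        · rw [k2, zero_mul, add_zero]; rfl
      smul_mem' := by
        rintro a ⟨g, c⟩ ⟨N, y, h, h1, h2⟩
        obtain ⟨K, z, hz, k1, k2⟩ := hlin h h a 0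
        simp only at h1 h2
        refine ⟨K, z, hz, ?_, ?_⟩
        · rw [k1, zero_smul, add_zero, ← h1, Prod.smul_fst]
        · rw [k2, zero_mul, add_zero, ← h2, Prod.smul_snd, smul_eq_mul] }
  obtain ⟨h0, hh0⟩ := du_riesz P (Real.sqrt (4 * ‖u.fst‖ ^ 2 + 2 * ‖u.snd‖ ^ 2) + ‖G‖) (by
    rintro ⟨g, c⟩ ⟨N, y, h, h1, h2⟩
    have h1' : g = (H.mtfD N y h).toLp (tfD D N y) := h1
    have h2' : c = ℓ N y h := h2
    show ‖c‖ ≤ _ * ‖g‖
    rw [h1', h2']
    exact hbd N y h)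
  have hcl : IsClosed (RR D : Set (L2 D.Ω)) := Submodule.isClosed_topologicalClosure _
  have : CompleteSpace (RR D) := hcl.completeSpace_coe
  obtain ⟨h, hh, k, hk, hsum⟩ := (RR D).exists_add_mem_mem_orthogonal h0
  refine ⟨h, hh, fun N y hy => ?_⟩
  have hm := du_mem_RR H.toNHyp hy
  have h1 : ℓ N y hy = inner ℂ h0 ((H.mtfD N y hy).toLp (tfD D N y)) :=
    hh0 ((H.mtfD N y hy).toLp (tfD D N y), ℓ N y hy) ⟨N, y, hy, rfl, rfl⟩
  have h2 : inner ℂ k ((H.mtfD N y hy).toLp (tfD D N y)) = 0 :=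
    (Submodule.mem_orthogonal' _ _).1 hk _ hm
  rw [hsum, inner_add_left, h2, add_zero, hℓ' N y hy] at h1
  rw [← du_inner' h (H.mtfD N y hy), ← inner_conj_symm, ← h1, Complex.conj_conj]

end core

theorem RR_dwb_core {D : Prof} (H : NHyp D) (h : L2 D.Ω) (hh : h ∈ RR D) :
    ∀ φ, IsTest D.Ω φ → ∫ p in D.Ω, h p * dwb φ p = 0 := by
  intro φ hφ
  obtain ⟨hc, hcs, -⟩ := du_test_dwb hφ
  have hc' : Continuous (fun p => conj (dwb φ p)) := Complex.continuous_conj.comp hc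
  have hcs' : HasCompactSupport (fun p => conj (dwb φ p)) :=
    hcs.comp_left (g := fun z : ℂ => conj z) (by simp)
  have hχ : MemLp (fun p => conj (dwb φ p)) 2 (volume.restrict D.Ω) :=
    (hc'.memLp_of_hasCompactSupport hcs').restrict _
  have h1 : ∀ g : L2 D.Ω, inner ℂ (hχ.toLp _) g = ∫ p in D.Ω, g p * dwb φ p := by
    intro g
    rw [du_inner' g hχ]
    refine integral_congr_ae (Eventually.of_forall fun p => ?_)
    simp
  obtain ⟨N, y, hy, hl⟩ := du_seq H hh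
  have h2 : ∀ j, inner ℂ (hχ.toLp _) ((H.mtfD _ _ (hy j)).toLp (tfD D (N j) (y j))) = 0 := by
    intro j
    rw [h1, ← du_ibp D H.isOpen (N j) (y j) (H.sm _ _ (hy j)) hφ]
    refine integral_congr_ae ?_
    filter_upwards [(H.mtfD _ _ (hy j)).coeFn_toLp] with p hp
    rw [hp]
  have h3 : Tendsto (fun j => inner ℂ (hχ.toLp _) ((H.mtfD _ _ (hy j)).toLp
      (tfD D (N j) (y j)))) atTop (𝓝 (inner ℂ (hχ.toLp _) h)) := tendsto_const_nhds.inner hl
  simp only [h2] at h3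
  rw [← h1, tendsto_nhds_unique h3 tendsto_const_nhds]

end Pool.Agent.DbarN
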