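import Pool.Agent.DbarN.Prof

set_option autoImplicit false

/-!
# Module DWB: solving `∂G/∂w̄ = q` weakly
-/

namespace Pool.Agent.DbarN

open MeasureTheory Complex Set
open scoped ComplexConjugate ContDiff

/-! ### an abstract existence statement -/

theorem dwbm_functional {E H : Type*} [AddCommGroup E] [Module ℂ E] [NormedAddCommGroup H]
    [InnerProductSpace ℂ H] [CompleteSpace H] (A : E →ₗ[ℂ] H) (B : E →ₗ[ℂ] ℂ) (C : ℝ)
    (hC : 0 ≤ C) (h : ∀ x, ‖B x‖ ≤ C * ‖A x‖) :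
    ∃ g : H, ‖g‖ ≤ C ∧ ∀ x, inner ℂ g (A x) = B x := by
  have hker : LinearMap.ker A ≤ LinearMap.ker B := by
    intro x hx
    rw [LinearMap.mem_ker] at hx ⊢
    have := h x
    rw [hx, norm_zero, mul_zero] at this
    exact norm_le_zero_iff.1 this
  set f : LinearMap.range A →ₗ[ℂ] ℂ :=
    ((LinearMap.ker A).liftQ B hker) ∘ₗ (A.quotKerEquivRange.symm : LinearMap.range A →ₗ[ℂ] _)
    with hf
  have hfA : ∀ x, f ⟨A x, LinearMap.mem_range_self A x⟩ = B x := by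
    intro x
    have h1 : A.quotKerEquivRange.symm ⟨A x, LinearMap.mem_range_self A x⟩ =
        (LinearMap.ker A).mkQ x := by
      rw [LinearEquiv.symm_apply_eq]
      rfl
    simp only [hf, LinearMap.comp_apply, LinearEquiv.coe_coe, h1]
    exact Submodule.liftQ_apply _ _ _
  have hfb : ∀ y : LinearMap.range A, ‖f y‖ ≤ C * ‖y‖ := by
    rintro ⟨y, x, rfl⟩
    rw [hfA]; exact h x
  obtain ⟨F, hF1, hF2⟩ := exists_extension_norm_eq (LinearMap.range A) (f.mkContinuous C hfb)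
  refine ⟨(InnerProductSpace.toDual ℂ H).symm F, ?_, ?_⟩
  · rw [LinearIsometryEquiv.norm_map, hF2]
    exact LinearMap.mkContinuous_norm_le _ hC _
  · intro x
    rw [InnerProductSpace.toDual_symm_apply]
    have := hF1 ⟨A x, LinearMap.mem_range_self A x⟩
    simp only at this
    rw [this, LinearMap.mkContinuous_apply, hfA]

/-! ### integration by parts -/

instance dwbm_haar : (volume : Measure (ℂ × ℂ)).IsAddHaarMeasure := by
  rw [Measure.volume_eq_prod]; infer_instance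

theorem dwbm_sq_supp (f : ℂ × ℂ → ℂ) (hf : Continuous f) (hc : HasCompactSupport f) :
    Integrable (fun p => ‖f p‖ ^ 2) := by
  apply (hf.norm.pow 2).integrable_of_hasCompactSupport
  apply hc.mono
  intro p hp
  rw [Function.mem_support] at hp ⊢
  intro h0
  exact hp (by show ‖f p‖ ^ 2 = 0; rw [h0]; simp)

theorem dwbm_ibp (f g : ℂ × ℂ → ℂ) (hf : ContDiff ℝ 1 f) (hg : ContDiff ℝ 1 g)
    (hc : HasCompactSupport g) (v : ℂ × ℂ) :
    ∫ p, f p * fderiv ℝ g p v = -∫ p, fderiv ℝ f p v * g p := by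
  have hfd : Continuous (fun p => fderiv ℝ f p v) :=
    (hf.continuous_fderiv (by norm_num)).clm_apply continuous_const
  have hgd : Continuous (fun p => fderiv ℝ g p v) :=
    (hg.continuous_fderiv (by norm_num)).clm_apply continuous_const
  apply integral_mul_fderiv_eq_neg_fderiv_mul_of_integrable
  · exact (hfd.mul hg.continuous).integrable_of_hasCompactSupport hc.mul_left
  · exact (hf.continuous.mul hgd).integrable_of_hasCompactSupport
      (hc.fderiv_apply (𝕜 := ℝ) v).mul_left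
  · exact (hf.continuous.mul hg.continuous).integrable_of_hasCompactSupport hc.mul_left
  · intro x _; exact (hf.differentiable (by norm_num)) x
  · intro x _; exact (hg.differentiable (by norm_num)) x

theorem dwbm_conj_fderiv (f : ℂ × ℂ → ℂ) (hf : ContDiff ℝ 1 f) (p v : ℂ × ℂ) :
    fderiv ℝ (fun q => conj (f q)) p v = conj (fderiv ℝ f p v) := by
  have h1 : HasFDerivAt f (fderiv ℝ f p) p :=
    (hf.differentiable (by norm_num)).differentiableAt.hasFDerivAt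
  have h2 := (Complex.conjCLE.toContinuousLinearMap.hasFDerivAt (x := f p)).comp p h1
  have h3 : HasFDerivAt (fun q => conj (f q))
      (Complex.conjCLE.toContinuousLinearMap.comp (fderiv ℝ f p)) p := h2
  rw [h3.fderiv]; rfl

theorem dwbm_conj_contDiff {n : WithTop ℕ∞} (f : ℂ × ℂ → ℂ) (hf : ContDiff ℝ n f) :
    ContDiff ℝ n (fun q => conj (f q)) :=
  Complex.conjCLE.toContinuousLinearMap.contDiff.comp hf

/-- partial derivative of a smooth function -/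
theorem dwbm_pd (ψ : ℂ × ℂ → ℂ) (hψ : ContDiff ℝ ∞ ψ) (v : ℂ × ℂ) :
    ContDiff ℝ ∞ (fun p => fderiv ℝ ψ p v) :=
  (hψ.fderiv_right (m := ∞) (by simp)).clm_apply contDiff_const

theorem dwbm_symm (ψ : ℂ × ℂ → ℂ) (hψ : ContDiff ℝ ∞ ψ) (p v w : ℂ × ℂ) :
    fderiv ℝ (fun q => fderiv ℝ ψ q v) p w = fderiv ℝ (fun q => fderiv ℝ ψ q w) p v := by
  have hd : Differentiable ℝ (fderiv ℝ ψ) :=
    (hψ.fderiv_right (m := 1) (by norm_cast)).differentiable (by norm_num)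
  have h1 : ∀ v w, fderiv ℝ (fun q => fderiv ℝ ψ q v) p w = fderiv ℝ (fderiv ℝ ψ) p w v := by
    intro v w
    have := (hd p).hasFDerivAt.clm_apply (hasFDerivAt_const v p)
    rw [this.fderiv]
    simp
  rw [h1, h1]
  have hs : IsSymmSndFDerivAt ℝ ψ p := by
    apply ContDiffAt.isSymmSndFDerivAt (n := ∞) hψ.contDiffAt
    simp only [minSmoothness_of_isRCLikeNormedField]
    exact WithTop.coe_le_coe.2 (le_top : (2 : ℕ∞) ≤ ⊤)
  exact hs w v

/-! ### the Poincaré inequality -/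

theorem dwbm_poincare1 (ψ : ℂ × ℂ → ℂ) (hψ : ContDiff ℝ ∞ ψ) (hc : HasCompactSupport ψ)
    (R : ℝ) (hR : ∀ p, ψ p ≠ 0 → ‖p.2‖ ≤ R) :
    ∫ p, ‖ψ p‖ ^ 2 ≤ 4 * R ^ 2 * ∫ p, ‖fderiv ℝ ψ p (0, 1)‖ ^ 2 := by
  have hψ1 : ContDiff ℝ 1 ψ := hψ.of_le (by norm_cast)
  set ψs : ℂ × ℂ → ℂ := fun p => fderiv ℝ ψ p (0, 1) with hψs
  have hs : ContDiff ℝ ∞ ψs := dwbm_pd ψ hψ (0, 1)
  have hcs : HasCompactSupport ψs := hc.fderiv_apply (𝕜 := ℝ) (0, 1)
  have hre : ContDiff ℝ 1 (fun p : ℂ × ℂ => ((p.2.re : ℝ) : ℂ)) :=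
    (Complex.ofRealCLM.comp (Complex.reCLM.comp (ContinuousLinearMap.snd ℝ ℂ ℂ))).contDiff
  have hcψ : ContDiff ℝ 1 (fun p => conj (ψ p)) := dwbm_conj_contDiff ψ hψ1
  have h1 := dwbm_ibp (fun p => ((p.2.re : ℝ) : ℂ) * conj (ψ p)) ψ (hre.mul hcψ) hψ1 hc (0, 1)
  have h2 : ∀ p, fderiv ℝ (fun p : ℂ × ℂ => ((p.2.re : ℝ) : ℂ) * conj (ψ p)) p (0, 1) =
      conj (ψ p) + ((p.2.re : ℝ) : ℂ) * conj (ψs p) := by
    intro p
    have e1 : HasFDerivAt (fun p : ℂ × ℂ => ((p.2.re : ℝ) : ℂ))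
        (Complex.ofRealCLM.comp (Complex.reCLM.comp (ContinuousLinearMap.snd ℝ ℂ ℂ))) p :=
      (Complex.ofRealCLM.comp
        (Complex.reCLM.comp (ContinuousLinearMap.snd ℝ ℂ ℂ))).hasFDerivAt
    have e2 : HasFDerivAt (fun p => conj (ψ p)) (fderiv ℝ (fun p => conj (ψ p)) p) p :=
      (hcψ.differentiable (by norm_num)).differentiableAt.hasFDerivAt
    have e4 : HasFDerivAt (fun p : ℂ × ℂ => ((p.2.re : ℝ) : ℂ) * conj (ψ p)) _ p := e1.mul e2
    rw [e4.fderiv]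
    have e3 := dwbm_conj_fderiv ψ hψ1 p (0, 1)
    simp only [add_apply, smul_apply, e3]
    simp [hψs]
    ring
  have iA : Integrable (fun p => conj (ψ p) * ψ p) :=
    (hcψ.continuous.mul hψ1.continuous).integrable_of_hasCompactSupport hc.mul_left
  have iB : Integrable (fun p => ((p.2.re : ℝ) : ℂ) * conj (ψs p) * ψ p) :=
    ((hre.continuous.mul (dwbm_conj_contDiff ψs hs).continuous).mul
      hψ1.continuous).integrable_of_hasCompactSupport hc.mul_left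
  have iC : Integrable (fun p => ((p.2.re : ℝ) : ℂ) * conj (ψ p) * ψs p) :=
    ((hre.continuous.mul hcψ.continuous).mul
      hs.continuous).integrable_of_hasCompactSupport hcs.mul_left
  have h3 : ∫ p, conj (ψ p) * ψ p = -∫ p, (((p.2.re : ℝ) : ℂ) * conj (ψs p) * ψ p
      + ((p.2.re : ℝ) : ℂ) * conj (ψ p) * ψs p) := by
    rw [integral_add iB iC]
    have h4 : ∫ p, fderiv ℝ (fun p : ℂ × ℂ => ((p.2.re : ℝ) : ℂ) * conj (ψ p)) p (0, 1) * ψ p =
        (∫ p, conj (ψ p) * ψ p) + ∫ p, ((p.2.re : ℝ) : ℂ) * conj (ψs p) * ψ p := by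
      rw [← integral_add iA iB]
      congr 1; funext p; rw [h2]; ring
    rw [h4] at h1
    have h5 : ∫ p, ((p.2.re : ℝ) : ℂ) * conj (ψ p) * ψs p =
      ∫ p, ((p.2.re : ℝ) : ℂ) * conj (ψ p) * fderiv ℝ ψ p (0, 1) := rfl
    rw [h5, h1]; ring
  have iN : Integrable (fun p => ‖ψ p‖ ^ 2) := dwbm_sq_supp ψ hψ1.continuous hc
  have iNs : Integrable (fun p => ‖ψs p‖ ^ 2) := dwbm_sq_supp ψs hs.continuous hcs
  have h6 : ((∫ p, ‖ψ p‖ ^ 2 : ℝ) : ℂ) = ∫ p, conj (ψ p) * ψ p := by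
    rw [← integral_complex_ofReal]
    congr 1; funext p
    rw [Complex.conj_mul']
    push_cast; rfl
  have h7 : ∫ p, ‖ψ p‖ ^ 2 ≤ ∫ p, (1 / 2 * ‖ψ p‖ ^ 2 + 2 * R ^ 2 * ‖ψs p‖ ^ 2) := by
    have e0 : 0 ≤ ∫ p, ‖ψ p‖ ^ 2 := integral_nonneg (fun p => by positivity)
    have e1 : ∫ p, ‖ψ p‖ ^ 2 = ‖((∫ p, ‖ψ p‖ ^ 2 : ℝ) : ℂ)‖ := by
      rw [Complex.norm_real, Real.norm_eq_abs, abs_of_nonneg e0]
    rw [e1, h6, h3, norm_neg]
    refine (norm_integral_le_integral_norm _).trans ?_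
    have hkey : ∀ p, ‖((p.2.re : ℝ) : ℂ) * conj (ψs p) * ψ p + ((p.2.re : ℝ) : ℂ) * conj (ψ p) *
        ψs p‖ ≤ 1 / 2 * ‖ψ p‖ ^ 2 + 2 * R ^ 2 * ‖ψs p‖ ^ 2 := ?_
    · exact integral_mono (iB.add iC).norm ((iN.const_mul _).add (iNs.const_mul _)) hkey
    intro p
    by_cases hp : ψ p = 0
    · rw [hp]; simp; positivity
    · have hr := hR p hp
      have hre' : |p.2.re| ≤ R := (Complex.abs_re_le_norm p.2).trans hr
      have hR0 : 0 ≤ R := (abs_nonneg _).trans hre'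
      calc ‖((p.2.re : ℝ) : ℂ) * conj (ψs p) * ψ p + ((p.2.re : ℝ) : ℂ) * conj (ψ p) * ψs p‖
          ≤ ‖((p.2.re : ℝ) : ℂ) * conj (ψs p) * ψ p‖ + ‖((p.2.re : ℝ) : ℂ) * conj (ψ p) * ψs p‖ :=
            norm_add_le _ _
        _ = 2 * (|p.2.re| * (‖ψ p‖ * ‖ψs p‖)) := by
            simp only [norm_mul, Complex.norm_real, Real.norm_eq_abs, RCLike.norm_conj]; ring
        _ ≤ 2 * (R * (‖ψ p‖ * ‖ψs p‖)) := by gcongr
        _ ≤ 1 / 2 * ‖ψ p‖ ^ 2 + 2 * R ^ 2 * ‖ψs p‖ ^ 2 := by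
            nlinarith [sq_nonneg (‖ψ p‖ - 2 * R * ‖ψs p‖)]
  rw [integral_add (iN.const_mul _) (iNs.const_mul _), integral_const_mul,
    integral_const_mul] at h7
  linarith

theorem dwbm_poincare2 (ψ : ℂ × ℂ → ℂ) (hψ : ContDiff ℝ ∞ ψ) (hc : HasCompactSupport ψ) :
    ∫ p, ‖fderiv ℝ ψ p (0, 1)‖ ^ 2 ≤ 4 * ∫ p, ‖dwb ψ p‖ ^ 2 := by
  have hψ1 : ContDiff ℝ 1 ψ := hψ.of_le (by norm_cast)
  set ψs : ℂ × ℂ → ℂ := fun p => fderiv ℝ ψ p (0, 1) with hψs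
  set ψy : ℂ × ℂ → ℂ := fun p => fderiv ℝ ψ p (0, I) with hψy
  have hs : ContDiff ℝ ∞ ψs := dwbm_pd ψ hψ (0, 1)
  have hy : ContDiff ℝ ∞ ψy := dwbm_pd ψ hψ (0, I)
  have hs1 : ContDiff ℝ 1 ψs := hs.of_le (by norm_cast)
  have hy1 : ContDiff ℝ 1 ψy := hy.of_le (by norm_cast)
  have hcs : HasCompactSupport ψs := hc.fderiv_apply (𝕜 := ℝ) (0, 1)
  have hcy : HasCompactSupport ψy := hc.fderiv_apply (𝕜 := ℝ) (0, I)
  have h1 := dwbm_ibp (fun p => conj (ψy p)) ψ (dwbm_conj_contDiff ψy hy1) hψ1 hc (0, 1)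
  have h2 := dwbm_ibp (fun p => conj (ψs p)) ψ (dwbm_conj_contDiff ψs hs1) hψ1 hc (0, I)
  have h3 : ∫ p, fderiv ℝ (fun p => conj (ψy p)) p (0, 1) * ψ p =
      ∫ p, fderiv ℝ (fun p => conj (ψs p)) p (0, I) * ψ p := by
    congr 1; funext p
    rw [dwbm_conj_fderiv ψy hy1, dwbm_conj_fderiv ψs hs1, dwbm_symm ψ hψ p (0, I) (0, 1)]
  have iJ : Integrable (fun p => conj (ψy p) * ψs p) :=
    ((dwbm_conj_contDiff ψy hy1).continuous.mul hs.continuous).integrable_of_hasCompactSupport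
      hcs.mul_left
  have hJ : (∫ p, conj (ψy p) * ψs p) = ∫ p, conj (ψs p) * ψy p := by
    have e1 : (∫ p, conj (ψy p) * ψs p) = ∫ p, conj (ψy p) * fderiv ℝ ψ p (0, 1) := rfl
    have e2 : (∫ p, conj (ψs p) * ψy p) = ∫ p, conj (ψs p) * fderiv ℝ ψ p (0, I) := rfl
    rw [e1, e2, h1, h2, h3]
  have hJc : conj (∫ p, conj (ψy p) * ψs p) = ∫ p, conj (ψs p) * ψy p := by
    rw [← integral_conj]
    congr 1; funext p; simp [mul_comm]
  have hJim : (∫ p, conj (ψy p) * ψs p).im = 0 := by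
    rw [← Complex.conj_eq_iff_im, hJc, hJ]
  have hJre : ∫ p, (conj (ψy p) * ψs p).im = 0 := by
    rw [← hJim]
    exact integral_im iJ
  have iNs : Integrable (fun p => ‖ψs p‖ ^ 2) := dwbm_sq_supp ψs hs.continuous hcs
  have iNy : Integrable (fun p => ‖ψy p‖ ^ 2) := dwbm_sq_supp ψy hy.continuous hcy
  have iIm : Integrable (fun p => (conj (ψy p) * ψs p).im) := iJ.im
  have h4 : ∀ p, 4 * ‖dwb ψ p‖ ^ 2 = ‖ψs p‖ ^ 2 + ‖ψy p‖ ^ 2 + 2 * (conj (ψy p) * ψs p).im := by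
    intro p
    have e1 : dwb ψ p = (ψs p + I * ψy p) / 2 := rfl
    rw [e1, norm_div, div_pow]
    have e2 : ‖(2 : ℂ)‖ = 2 := by norm_num
    rw [e2, ← Complex.normSq_eq_norm_sq, ← Complex.normSq_eq_norm_sq,
      ← Complex.normSq_eq_norm_sq]
    simp only [Complex.normSq_apply, Complex.add_re, Complex.add_im, Complex.mul_re,
      Complex.mul_im, Complex.I_re, Complex.I_im, Complex.conj_re, Complex.conj_im]
    ring
  have h5 : 4 * ∫ p, ‖dwb ψ p‖ ^ 2 = (∫ p, ‖ψs p‖ ^ 2) + ∫ p, ‖ψy p‖ ^ 2 := by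
    rw [← integral_const_mul]
    have : (fun p => 4 * ‖dwb ψ p‖ ^ 2) = fun p => (‖ψs p‖ ^ 2 + ‖ψy p‖ ^ 2) +
        2 * (conj (ψy p) * ψs p).im := funext h4
    have iNN : Integrable (fun p => ‖ψs p‖ ^ 2 + ‖ψy p‖ ^ 2) := iNs.add iNy
    rw [this, integral_add iNN (iIm.const_mul _), integral_const_mul, hJre,
      integral_add iNs iNy]
    ring
  rw [h5]
  have : 0 ≤ ∫ p, ‖ψy p‖ ^ 2 := integral_nonneg (fun p => by positivity)
  linarith

/-! ### the space of test functions and the two functionals -/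

/-- the space of test functions -/
def dwbmTest (Ω : Set (ℂ × ℂ)) : Submodule ℂ (ℂ × ℂ → ℂ) where
  carrier := {φ | IsTest Ω φ}
  zero_mem' := by
    refine ⟨contDiff_const, ?_, ?_⟩
    · exact HasCompactSupport.zero
    · intro p hp
      exfalso
      have : tsupport (0 : ℂ × ℂ → ℂ) = ∅ := by simp
      rw [this] at hp; exact hp
  add_mem' := by
    intro a b ha hb
    refine ⟨ha.smooth.add hb.smooth, ha.compact.add hb.compact, ?_⟩
    intro p hp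
    rcases tsupport_add a b hp with h | h
    · exact ha.supp h
    · exact hb.supp h
  smul_mem' := by
    intro c a ha
    refine ⟨contDiff_const.smul ha.smooth, ha.compact.smul_left, ?_⟩
    intro p hp
    exact ha.supp (tsupport_smul_subset_right (fun _ => c) a hp)

theorem dwbm_contDiff_dwb {Ω : Set (ℂ × ℂ)} {φ : ℂ × ℂ → ℂ} (h : IsTest Ω φ) :
    ContDiff ℝ ∞ (dwb φ) := by
  have h1 := dwbm_pd φ h.smooth (0, 1)
  have h2 := dwbm_pd φ h.smooth (0, I)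
  exact (h1.add (contDiff_const.mul h2)).div_const 2

theorem dwbm_compact_dwb {Ω : Set (ℂ × ℂ)} {φ : ℂ × ℂ → ℂ} (h : IsTest Ω φ) :
    HasCompactSupport (dwb φ) := by
  apply h.compact.fderiv (𝕜 := ℝ) |>.mono
  intro p hp
  rw [Function.mem_support] at hp ⊢
  intro h0
  apply hp
  unfold dwb
  rw [h0]; simp

theorem dwbm_mem {μ : Measure (ℂ × ℂ)} [IsFiniteMeasureOnCompacts μ] {f : ℂ × ℂ → ℂ}
    (hf : Continuous f) (hc : HasCompactSupport f) : MemLp f 2 μ :=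
  hf.memLp_of_hasCompactSupport hc

theorem dwbm_norm_sq {μ : Measure (ℂ × ℂ)} {f : ℂ × ℂ → ℂ} (hf : MemLp f 2 μ) :
    ‖hf.toLp f‖ ^ 2 = ∫ p, ‖f p‖ ^ 2 ∂μ := by
  have h1 : inner ℂ (hf.toLp f) (hf.toLp f) = ((‖hf.toLp f‖ : ℂ)) ^ 2 :=
    inner_self_eq_norm_sq_to_K _
  rw [L2.inner_def] at h1
  have h2 : (∫ p, inner ℂ (hf.toLp f p) (hf.toLp f p) ∂μ) = ((∫ p, ‖f p‖ ^ 2 ∂μ : ℝ) : ℂ) := by
    rw [← integral_complex_ofReal]
    apply integral_congr_ae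
    filter_upwards [hf.coeFn_toLp] with p hp
    rw [hp, inner_self_eq_norm_sq_to_K]
    push_cast; rfl
  rw [h2] at h1
  exact_mod_cast h1.symm

theorem dwbm_add {a b : ℂ × ℂ → ℂ} (ha : Differentiable ℝ a) (hb : Differentiable ℝ b) :
    dwb (a + b) = dwb a + dwb b := by
  funext p
  unfold dwb
  rw [fderiv_add (ha p) (hb p)]
  simp only [add_apply, Pi.add_apply]
  ring

theorem dwbm_smul (c : ℂ) {a : ℂ × ℂ → ℂ} (ha : Differentiable ℝ a) :
    dwb (c • a) = c • dwb a := by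
  funext p
  unfold dwb
  rw [fderiv_const_smul (ha p) c]
  simp only [smul_apply, Pi.smul_apply, smul_eq_mul]
  ring

theorem dwbm_bound {Ω : Set (ℂ × ℂ)} {R : ℝ} (hR0 : 0 ≤ R) (hR : ∀ p ∈ Ω, ‖p.2‖ ≤ R)
    {φ : ℂ × ℂ → ℂ} (h : IsTest Ω φ)
    (h1 : MemLp φ 2 (volume.restrict Ω)) (h2 : MemLp (dwb φ) 2 (volume.restrict Ω)) :
    ‖h1.toLp φ‖ ≤ 4 * R * ‖h2.toLp (dwb φ)‖ := by
  have hsupp : ∀ p, φ p ≠ 0 → p ∈ Ω := fun p hp => h.supp (subset_tsupport _ hp)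
  have hds : ∀ p, p ∉ Ω → dwb φ p = 0 := by
    intro p hp
    have : p ∉ tsupport φ := fun hp' => hp (h.supp hp')
    have h0 : fderiv ℝ φ p = 0 := by
      by_contra hne
      exact this (support_fderiv_subset ℝ (f := φ) hne)
    unfold dwb; rw [h0]; simp
  have e1 : ∫ p in Ω, ‖φ p‖ ^ 2 = ∫ p, ‖φ p‖ ^ 2 := by
    apply setIntegral_eq_integral_of_forall_compl_eq_zero
    intro p hp
    have : φ p = 0 := by
      by_contra hne; exact hp (hsupp p hne)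
    rw [this]; simp
  have e2 : ∫ p in Ω, ‖dwb φ p‖ ^ 2 = ∫ p, ‖dwb φ p‖ ^ 2 := by
    apply setIntegral_eq_integral_of_forall_compl_eq_zero
    intro p hp
    rw [hds p hp]; simp
  have h3 := dwbm_poincare1 φ h.smooth h.compact R (fun p hp => hR p (hsupp p hp))
  have h4 := dwbm_poincare2 φ h.smooth h.compact
  have h5 : ‖h1.toLp φ‖ ^ 2 ≤ (4 * R * ‖h2.toLp (dwb φ)‖) ^ 2 := by
    rw [mul_pow, dwbm_norm_sq, dwbm_norm_sq, e1, e2]
    calc ∫ p, ‖φ p‖ ^ 2 ≤ 4 * R ^ 2 * ∫ p, ‖fderiv ℝ φ p (0, 1)‖ ^ 2 := h3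
      _ ≤ 4 * R ^ 2 * (4 * ∫ p, ‖dwb φ p‖ ^ 2) := by gcongr
      _ = (4 * R) ^ 2 * ∫ p, ‖dwb φ p‖ ^ 2 := by ring
  exact (sq_le_sq₀ (norm_nonneg _) (by positivity)).1 h5

theorem dwb_solve (Ω : Set (ℂ × ℂ)) (hΩ : IsOpen Ω) (R : ℝ) (hR : ∀ p ∈ Ω, ‖p.2‖ ≤ R)
    (q : L2 Ω) : ∃ G : L2 Ω,
      (∀ φ, IsTest Ω φ → ∫ p in Ω, G p * dwb φ p = -∫ p in Ω, q p * φ p) ∧
      ‖G‖ ≤ 4 * R * ‖q‖ := by
  rcases Ω.eq_empty_or_nonempty with he | ⟨p0, hp0⟩
  · subst he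
    have hq : q = 0 := by
      apply Lp.ext
      simp only [Measure.restrict_empty, ae_zero]
      exact Filter.eventually_bot
    refine ⟨0, ?_, ?_⟩
    · intro φ _
      simp
    · rw [hq]; simp
  have hR0 : 0 ≤ R := (norm_nonneg _).trans (hR p0 hp0)
  have hm : ∀ φ : dwbmTest Ω, MemLp (φ : ℂ × ℂ → ℂ) 2 (volume.restrict Ω) := fun φ =>
    dwbm_mem φ.2.smooth.continuous φ.2.compact
  have hd : ∀ φ : dwbmTest Ω, MemLp (dwb (φ : ℂ × ℂ → ℂ)) 2 (volume.restrict Ω) := fun φ =>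
    dwbm_mem (dwbm_contDiff_dwb φ.2).continuous (dwbm_compact_dwb φ.2)
  have hdiff : ∀ φ : dwbmTest Ω, Differentiable ℝ (φ : ℂ × ℂ → ℂ) := fun φ =>
    φ.2.smooth.differentiable (by simp)
  have hqi : ∀ φ : dwbmTest Ω, Integrable (fun p => q p * (φ : ℂ × ℂ → ℂ) p)
      (volume.restrict Ω) := fun φ => (Lp.memLp q).integrable_mul (hm φ)
  let A : dwbmTest Ω →ₗ[ℂ] L2 Ω :=
    { toFun := fun φ => (hd φ).toLp (dwb (φ : ℂ × ℂ → ℂ))
      map_add' := by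
        intro a b
        rw [← MemLp.toLp_add]
        apply MemLp.toLp_congr
        rw [Submodule.coe_add, dwbm_add (hdiff a) (hdiff b)]
      map_smul' := by
        intro c a
        rw [RingHom.id_apply, ← MemLp.toLp_const_smul]
        apply MemLp.toLp_congr
        rw [Submodule.coe_smul, dwbm_smul c (hdiff a)] }
  let B : dwbmTest Ω →ₗ[ℂ] ℂ :=
    { toFun := fun φ => -∫ p in Ω, q p * (φ : ℂ × ℂ → ℂ) p
      map_add' := by
        intro a b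
        rw [← neg_add, ← integral_add (hqi a) (hqi b)]
        congr 1
        apply integral_congr_ae
        filter_upwards with p
        rw [Submodule.coe_add, Pi.add_apply]; ring
      map_smul' := by
        intro c a
        rw [RingHom.id_apply, smul_eq_mul, mul_neg, ← integral_const_mul]
        congr 1
        apply integral_congr_ae
        filter_upwards with p
        rw [Submodule.coe_smul, Pi.smul_apply, smul_eq_mul]; ring }
  have hAB : ∀ φ, ‖B φ‖ ≤ (4 * R * ‖q‖) * ‖A φ‖ := by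
    intro φ
    have hc : MemLp (fun p => conj ((φ : ℂ × ℂ → ℂ) p)) 2 (volume.restrict Ω) := (hm φ).star
    have h1 : ∫ p in Ω, q p * (φ : ℂ × ℂ → ℂ) p = inner ℂ (hc.toLp _) q := by
      rw [L2.inner_def]
      apply integral_congr_ae
      filter_upwards [hc.coeFn_toLp] with p hp
      rw [hp, RCLike.inner_apply]
      simp
    have h2 : ‖hc.toLp _‖ = ‖(hm φ).toLp _‖ := by
      have h3 : ‖hc.toLp _‖ ^ 2 = ‖(hm φ).toLp _‖ ^ 2 := by
        rw [dwbm_norm_sq, dwbm_norm_sq]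
        simp
      exact (sq_eq_sq₀ (norm_nonneg _) (norm_nonneg _)).1 h3
    calc ‖B φ‖ = ‖∫ p in Ω, q p * (φ : ℂ × ℂ → ℂ) p‖ := norm_neg _
      _ = ‖inner ℂ (hc.toLp _) q‖ := by rw [h1]
      _ ≤ ‖hc.toLp _‖ * ‖q‖ := norm_inner_le_norm _ _
      _ = ‖(hm φ).toLp _‖ * ‖q‖ := by rw [h2]
      _ ≤ (4 * R * ‖(hd φ).toLp _‖) * ‖q‖ := by
          gcongr
          exact dwbm_bound hR0 hR φ.2 (hm φ) (hd φ)
      _ = (4 * R * ‖q‖) * ‖A φ‖ := by
          show (4 * R * ‖(hd φ).toLp _‖) * ‖q‖ = (4 * R * ‖q‖) * ‖(hd φ).toLp _‖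
          ring
  obtain ⟨h, hh1, hh2⟩ := dwbm_functional A B (4 * R * ‖q‖) (by positivity) hAB
  have hst : ‖star h‖ ≤ ‖h‖ := by
    apply Lp.norm_le_norm_of_ae_le
    filter_upwards [Lp.coeFn_star h] with p hp
    rw [hp]; simp
  refine ⟨star h, ?_, hst.trans hh1⟩
  intro φ hφ
  have h1 := hh2 ⟨φ, hφ⟩
  rw [L2.inner_def] at h1
  have h2 : B ⟨φ, hφ⟩ = -∫ p in Ω, q p * φ p := rfl
  rw [h2] at h1
  rw [← h1]
  apply integral_congr_ae
  filter_upwards [Lp.coeFn_star h, (hd ⟨φ, hφ⟩).coeFn_toLp] with p hp1 hp2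
  have h3 : (A ⟨φ, hφ⟩ : ℂ × ℂ → ℂ) p = dwb φ p := hp2
  rw [h3, RCLike.inner_apply, hp1]
  simp only [Pi.star_apply]
  rw [mul_comm]
  rfl

end Pool.Agent.DbarN
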