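import Mathlib

set_option autoImplicit false

/-!
# DBAR FLAT: a smooth flat monotone function which is not too small
-/

namespace Pool.Agent.DbarN

open Set
open scoped ContDiff

namespace Flat

/-- `exp (-n^(1/3))` beats every power -/
theorem exp_bound (k n : ℕ) : (((n : ℝ) + 1) ^ k) * Real.exp (-((n : ℝ) + 1) ^ (1 / 3 : ℝ)) ≤
    ((3 * (k + 2)).factorial : ℝ) / ((n : ℝ) + 1) ^ 2 := by
  set x : ℝ := (n : ℝ) + 1 with hx
  have hx0 : 0 < x := by positivity
  have hy0 : 0 ≤ x ^ (1 / 3 : ℝ) := Real.rpow_nonneg hx0.le _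
  have h1 := Real.pow_div_factorial_le_exp (x ^ (1 / 3 : ℝ)) hy0 (3 * (k + 2))
  have h2 : (x ^ (1 / 3 : ℝ)) ^ (3 * (k + 2)) = x ^ (k + 2) := by
    rw [pow_mul, ← Real.rpow_natCast (x ^ (1 / 3 : ℝ)) 3, ← Real.rpow_mul hx0.le]
    norm_num
  rw [h2] at h1
  have hF : (0 : ℝ) < ((3 * (k + 2)).factorial : ℝ) := by exact_mod_cast Nat.factorial_pos _
  rw [show -(x) ^ (1 / 3 : ℝ) = -(x ^ (1 / 3 : ℝ)) from rfl, Real.exp_neg]
  rw [div_le_iff₀ hF] at h1
  have hE := Real.exp_pos (x ^ (1 / 3 : ℝ))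
  rw [← div_eq_mul_inv, div_le_div_iff₀ hE (by positivity)]
  calc x ^ k * x ^ 2 = x ^ (k + 2) := by ring
    _ ≤ Real.exp (x ^ (1 / 3 : ℝ)) * ((3 * (k + 2)).factorial : ℝ) := h1
    _ = _ := by ring

/-- all derivatives of the smooth transition are bounded -/
theorem trans_bound (k : ℕ) : ∃ C : ℝ, 0 ≤ C ∧ ∀ x, ‖iteratedDeriv k Real.smoothTransition x‖ ≤ C := by
  have hc : Continuous (iteratedDeriv k Real.smoothTransition) :=
    (Real.smoothTransition.contDiff (n := (k : ℕ∞))).continuous_iteratedDeriv k le_rfl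
  obtain ⟨C, hC⟩ := (isCompact_Icc (a := (-1 : ℝ)) (b := 2)).exists_bound_of_continuousOn
    hc.continuousOn
  refine ⟨max C 1, le_max_of_le_right zero_le_one, fun x => ?_⟩
  by_cases hx : x ∈ Icc (-1 : ℝ) 2
  · exact (hC x hx).trans (le_max_left _ _)
  · refine le_trans ?_ (le_max_right _ _)
    rw [mem_Icc, not_and_or, not_le, not_le] at hx
    have key : ∃ c : ℝ, ‖c‖ ≤ 1 ∧ Real.smoothTransition =ᶠ[nhds x] fun _ => c := by
      rcases hx with hx | hx
      · refine ⟨0, by simp, ?_⟩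
        filter_upwards [Iio_mem_nhds (show x < 0 by linarith)] with y hy
        exact Real.smoothTransition.zero_of_nonpos (le_of_lt hy)
      · refine ⟨1, by simp, ?_⟩
        filter_upwards [Ioi_mem_nhds (show (1 : ℝ) < x by linarith)] with y hy
        exact Real.smoothTransition.one_of_one_le (le_of_lt hy)
    obtain ⟨c, hc1, hc2⟩ := key
    rw [hc2.iteratedDeriv_eq k, iteratedDeriv_const]
    split_ifs
    · exact hc1
    · simp

/-- the summands -/
noncomputable def f (n : ℕ) (d : ℝ) : ℝ :=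
  Real.exp (-((n : ℝ) + 1) ^ (1 / 3 : ℝ)) * Real.smoothTransition (((n : ℝ) + 1) * d)

theorem f_contDiff (n : ℕ) : ContDiff ℝ ∞ (f n) := by
  unfold f
  exact contDiff_const.mul (Real.smoothTransition.contDiff.comp (contDiff_const.mul contDiff_id))

theorem f_nonneg (n : ℕ) (d : ℝ) : 0 ≤ f n d :=
  mul_nonneg (Real.exp_pos _).le (Real.smoothTransition.nonneg _)

theorem f_iter (n k : ℕ) (d : ℝ) : iteratedDeriv k (f n) d =
    Real.exp (-((n : ℝ) + 1) ^ (1 / 3 : ℝ)) * (((n : ℝ) + 1) ^ k *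
      iteratedDeriv k Real.smoothTransition (((n : ℝ) + 1) * d)) := by
  unfold f
  have hT : ContDiff ℝ k Real.smoothTransition := Real.smoothTransition.contDiff (n := (k : ℕ∞))
  rw [iteratedDeriv_const_mul_field]
  rw [iteratedDeriv_comp_const_mul hT]

theorem summ (k : ℕ) (C : ℝ) : Summable (fun n : ℕ =>
    ((3 * (k + 2)).factorial : ℝ) * C * (1 / ((n : ℝ) + 1) ^ 2)) := by
  apply Summable.mul_left
  have := (summable_nat_add_iff 1).2 (Real.summable_one_div_nat_pow.2 (one_lt_two))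
  simpa using this

theorem f_bound (k : ℕ) : ∃ C : ℝ, 0 ≤ C ∧ ∀ (n : ℕ) (d : ℝ), ‖iteratedFDeriv ℝ k (f n) d‖ ≤
    ((3 * (k + 2)).factorial : ℝ) * C * (1 / ((n : ℝ) + 1) ^ 2) := by
  obtain ⟨C, hC0, hC⟩ := trans_bound k
  refine ⟨C, hC0, fun n d => ?_⟩
  rw [norm_iteratedFDeriv_eq_norm_iteratedDeriv, f_iter, norm_mul, norm_mul,
    Real.norm_of_nonneg (Real.exp_pos _).le, Real.norm_of_nonneg (by positivity)]
  have h1 := exp_bound k n
  calc Real.exp (-((n : ℝ) + 1) ^ (1 / 3 : ℝ)) * (((n : ℝ) + 1) ^ k *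
        ‖iteratedDeriv k Real.smoothTransition (((n : ℝ) + 1) * d)‖)
      = ((((n : ℝ) + 1) ^ k) * Real.exp (-((n : ℝ) + 1) ^ (1 / 3 : ℝ))) *
        ‖iteratedDeriv k Real.smoothTransition (((n : ℝ) + 1) * d)‖ := by ring
    _ ≤ (((3 * (k + 2)).factorial : ℝ) / ((n : ℝ) + 1) ^ 2) * C :=
        mul_le_mul h1 (hC _) (norm_nonneg _) (by positivity)
    _ = _ := by ring

theorem f_summable (d : ℝ) : Summable (fun n => f n d) := by
  obtain ⟨C, hC0, hC⟩ := f_bound 0
  refine Summable.of_nonneg_of_le (fun n => f_nonneg n d) (fun n => ?_) (summ 0 C)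
  have := hC n d
  rw [norm_iteratedFDeriv_zero, Real.norm_of_nonneg (f_nonneg n d)] at this
  exact this

end Flat

open Flat

theorem exists_flat : ∃ F : ℝ → ℝ, ContDiff ℝ ∞ F ∧ (∀ d ≤ 0, F d = 0) ∧ (∀ d > 0, 0 < F d) ∧
    Monotone F ∧ ∀ d > 0, Real.exp (-(1 + 1 / d) ^ (1 / 3 : ℝ)) ≤ F d := by
  refine ⟨fun d => ∑' n, f n d, ?_, ?_, ?_, ?_, ?_⟩
  · choose C hC0 hC using f_bound
    exact contDiff_tsum (N := (⊤ : ℕ∞)) f_contDiff (fun k _ => summ k (C k)) (fun k n d _ => hC k n d)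
  · intro d hd
    have : ∀ n, f n d = 0 := fun n => by
      unfold f
      rw [Real.smoothTransition.zero_of_nonpos (mul_nonpos_of_nonneg_of_nonpos (by positivity) hd),
        mul_zero]
    simp [this]
  · intro d hd
    refine (f_summable d).tsum_pos (f_nonneg · d) 0 ?_
    unfold f
    exact mul_pos (Real.exp_pos _) (Real.smoothTransition.pos_of_pos (by positivity))
  · intro d e hde
    refine (f_summable d).tsum_le_tsum (fun n => ?_) (f_summable e)
    unfold f
    exact mul_le_mul_of_nonneg_left (Real.smoothTransition.monotone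
      (mul_le_mul_of_nonneg_left hde (by positivity))) (Real.exp_pos _).le
  · intro d hd
    have hd1 : 0 < 1 / d := by positivity
    set n := ⌈1 / d⌉₊ with hn
    have hn1 : 1 / d ≤ (n : ℝ) := Nat.le_ceil _
    have hn2 : (n : ℝ) < 1 / d + 1 := Nat.ceil_lt_add_one hd1.le
    have hn0 : 1 ≤ n := Nat.one_le_iff_ne_zero.2 (by
      intro h
      rw [h] at hn1
      simp at hn1
      linarith)
    have h1 : f (n - 1) d ≤ ∑' n, f n d := (f_summable d).le_tsum _ (fun m _ => f_nonneg m d)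
    refine le_trans ?_ h1
    unfold f
    have hcast : (((n - 1 : ℕ) : ℝ) + 1) = n := by
      rw [Nat.cast_sub hn0]
      simp
    rw [hcast, Real.smoothTransition.one_of_one_le, mul_one]
    · apply Real.exp_le_exp.2
      apply neg_le_neg
      exact Real.rpow_le_rpow (by positivity) (by linarith) (by norm_num)
    · rw [div_le_iff₀ hd] at hn1
      exact hn1

end Pool.Agent.DbarN
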