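import Pool.Agent.DbarN.GSI4

set_option autoImplicit false

/-!
# DBAR GSI: the ground state inequality over the inner interval
-/

namespace Pool.Agent.DbarN

open MeasureTheory Complex Set Filter Topology
open scoped ComplexConjugate ContDiff

namespace GSI

variable {G : Ground} (P : Par G) {N : ℕ} {A : ℕ → ℝ → ℝ → ℂ}

theorem S3_mem {a b : ℝ} {s : ℝ × ℝ × ℝ} (hs : s ∈ S3 a b) :
    s.1 ∈ Icc a b ∧ s.2.1 ∈ Icc (-Real.pi) Real.pi ∧ 0 < s.2.2 :=
  ⟨Ioo_subset_Icc_self hs.1, Ioo_subset_Icc_self hs.2.1, hs.2.2⟩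

/-! ### Fubini -/

theorem I1 (hA : AC A) : IntegrableOn (d1 P N A) (S3 G.a G.b) := by
  obtain ⟨C, hC⟩ := d1_bound P (N := N) hA
  exact dom3 ((cont_d1 P hA).mono S3_sub) fun s hs =>
    hC s.1 (S3_mem hs).1 s.2.1 (S3_mem hs).2.1 s.2.2 (S3_mem hs).2.2

theorem I2a (hA : AC A) : IntegrableOn (d2a P N A) (S3 G.a G.b) := by
  obtain ⟨C, hC⟩ := d2a_bound P (N := N) hA
  exact dom3 ((cont_d2a P hA).mono S3_sub) fun s hs =>
    hC s.1 (S3_mem hs).1 s.2.1 (S3_mem hs).2.1 s.2.2 (S3_mem hs).2.2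

theorem I2b (hA : AC A) : IntegrableOn (d2b P N A) (S3 G.a G.b) := by
  obtain ⟨C, hC⟩ := d2b_bound P (N := N) hA
  exact dom3 ((cont_d2b P hA).mono S3_sub) fun s hs =>
    hC s.1 (S3_mem hs).1 s.2.1 (S3_mem hs).2.1 s.2.2 (S3_mem hs).2.2

theorem S2_sub_univ : S2 ⊆ (univ : Set ℝ) ×ˢ Ioi (0 : ℝ) := fun _ hq => ⟨mem_univ _, hq.2⟩

theorem int_d1 (hA : AC A) : ∫ s in S3 G.a G.b, d1 P N A s =
    ∫ q in S2, (P.w1 G.b q.2 * ‖U N A (G.b, q)‖ ^ 2 - P.w1 G.a q.2 * ‖U N A (G.a, q)‖ ^ 2) / q.2 := by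
  have h := I1 P (N := N) hA
  rw [IntegrableOn, restrict_S3] at h
  rw [restrict_S3, integral_prod_symm _ h]
  refine setIntegral_congr_fun measurableSet_S2 fun q hq => ?_
  exact int_d1_x P hA q.1 hq.2

theorem int_d2a (hA : AC A) : ∫ s in S3 G.a G.b, d2a P N A s = 0 := by
  have h := I2a P (N := N) hA
  obtain ⟨C, hC⟩ := d2a_bound P (N := N) hA
  rw [IntegrableOn, restrict_S3] at h
  rw [restrict_S3, integral_prod _ h]
  have : ∀ x ∈ Ioo G.a G.b, ∫ q in S2, d2a P N A (x, q) = 0 := by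
    intro x hx
    have hx' := Ioo_subset_Icc_self hx
    have h2 : IntegrableOn (fun q : ℝ × ℝ => d2a P N A (x, q)) S2 := by
      refine dom2 (C := C) ((cont_slice_q (cont_d2a P hA) hx').mono S2_sub_univ) fun q hq => ?_
      exact hC x hx' q.1 (Ioo_subset_Icc_self hq.1) q.2 hq.2
    rw [IntegrableOn, restrict_S2] at h2
    rw [restrict_S2, integral_prod _ h2]
    refine (setIntegral_congr_fun measurableSet_Ioo (g := fun _ => (0 : ℝ)) fun φ hφ => ?_).trans ?_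
    · exact int_d2a_p P hA hx' (Ioo_subset_Icc_self hφ)
    · simp
  refine (setIntegral_congr_fun measurableSet_Ioo (g := fun _ => (0 : ℝ)) this).trans ?_
  simp

theorem int_d2b (hA : AC A) : ∫ s in S3 G.a G.b, d2b P N A s = 0 := by
  have h := I2b P (N := N) hA
  obtain ⟨C, hC⟩ := d2b_bound P (N := N) hA
  rw [IntegrableOn, restrict_S3] at h
  rw [restrict_S3, integral_prod _ h]
  have : ∀ x ∈ Ioo G.a G.b, ∫ q in S2, d2b P N A (x, q) = 0 := by
    intro x hx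
    have hx' := Ioo_subset_Icc_self hx
    have h2 : IntegrableOn (fun q : ℝ × ℝ => d2b P N A (x, q)) S2 := by
      refine dom2 (C := C) ((cont_slice_q (cont_d2b P hA) hx').mono S2_sub_univ) fun q hq => ?_
      exact hC x hx' q.1 (Ioo_subset_Icc_self hq.1) q.2 hq.2
    rw [IntegrableOn, restrict_S2] at h2
    rw [restrict_S2, integral_prod_symm _ h2]
    refine (setIntegral_congr_fun measurableSet_Ioi (g := fun _ => (0 : ℝ)) fun p hp => ?_).trans ?_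
    · exact int_d2b_f P hA hx' hp
    · simp
  refine (setIntegral_congr_fun measurableSet_Ioo (g := fun _ => (0 : ℝ)) this).trans ?_
  simp

/-! ### the two sides -/

/-- left density -/
noncomputable def fL (N : ℕ) (A : ℕ → ℝ → ℝ → ℂ) (s : ℝ × ℝ × ℝ) : ℝ :=
  (Real.exp (2 * s.1) + P.cw / tt P.T s.2.2 ^ 2) * ‖U N A s‖ ^ 2 / s.2.2

/-- right density -/
noncomputable def fR (N : ℕ) (A : ℕ → ℝ → ℝ → ℂ) (s : ℝ × ℝ × ℝ) : ℝ :=
  ‖Ux N A s + I * (s.2.2 : ℂ) * U N A s‖ ^ 2 / s.2.2 +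
    ‖I * Uf N A s - U N A s + I * (s.2.2 : ℂ) * Up N A s‖ ^ 2 / s.2.2 +
    1 / 4 * ‖U N A s‖ ^ 2

theorem expand1 (u ux : ℂ) (p w : ℝ) :
    2 * w * inner ℝ u ux - w ^ 2 * ‖u‖ ^ 2 ≤ ‖ux + I * (p : ℂ) * u‖ ^ 2 := by
  have h : 0 ≤ ‖ux + I * (p : ℂ) * u - (w : ℂ) * u‖ ^ 2 := by positivity
  rw [← Complex.normSq_eq_norm_sq, Complex.normSq_apply] at h ⊢
  rw [← Complex.normSq_eq_norm_sq, Complex.normSq_apply, Complex.inner]
  simp only [add_re, sub_re, mul_re, I_re, zero_mul, ofReal_re, ofReal_im, I_im, mul_im, add_im,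
    sub_im, conj_re, conj_im] at h ⊢
  ring_nf at h ⊢
  linarith

theorem expand2 (u uf up : ℂ) (p w : ℝ) :
    2 * w * inner ℝ u uf + 2 * w * p * inner ℝ u up - w ^ 2 * ‖u‖ ^ 2 ≤
      ‖I * uf - u + I * (p : ℂ) * up‖ ^ 2 := by
  have h : 0 ≤ ‖I * uf - u + I * (p : ℂ) * up - I * (w : ℂ) * u‖ ^ 2 := by positivity
  rw [← Complex.normSq_eq_norm_sq, Complex.normSq_apply] at h ⊢
  rw [← Complex.normSq_eq_norm_sq, Complex.normSq_apply, Complex.inner, Complex.inner]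
  simp only [add_re, sub_re, mul_re, I_re, zero_mul, ofReal_re, ofReal_im, I_im, mul_im, add_im,
    sub_im, conj_re, conj_im] at h ⊢
  ring_nf at h ⊢
  linarith

theorem pointwise {s : ℝ × ℝ × ℝ} (hs : s ∈ S3 G.a G.b) :
    fL P N A s + (d1 P N A s + (d2a P N A s + d2b P N A s)) ≤ fR N A s := by
  obtain ⟨hx, -, hp⟩ := S3_mem hs
  have hkey := P.key hx hp
  have hH := P.H_pos hx hp
  have hk2 : Real.exp (2 * s.1) + P.cw / tt P.T s.2.2 ^ 2 ≤
      -P.v1 s.1 s.2.2 - P.v2 s.1 s.2.2 + 1 / 4 * s.2.2 := by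
    have : -P.v1 s.1 s.2.2 - P.v2 s.1 s.2.2 + 1 / 4 * s.2.2 =
        (-P.Hxx s.1 s.2.2 - P.H2 s.1 s.2.2 + 1 / 4 * s.2.2 * P.H s.1 s.2.2) / P.H s.1 s.2.2 := by
      unfold Par.v1 Par.v2
      field_simp
    rw [this, le_div_iff₀ hH]
    exact hkey
  have e1 := expand1 (U N A s) (Ux N A s) s.2.2 (P.w1 s.1 s.2.2)
  have e2 := expand2 (U N A s) (Uf N A s) (Up N A s) s.2.2 (P.w2 s.1 s.2.2)
  unfold fL fR d1 d2a d2b
  set p := s.2.2
  set u := U N A s
  set ux := Ux N A s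
  set uf := Uf N A s
  set up := Up N A s
  set w1 := P.w1 s.1 p
  set w2 := P.w2 s.1 p
  set v1 := P.v1 s.1 p
  set v2 := P.v2 s.1 p
  have hn : 0 ≤ ‖u‖ ^ 2 := by positivity
  have h3 := mul_le_mul_of_nonneg_right hk2 hn
  have h4 : (Real.exp (2 * s.1) + P.cw / tt P.T p ^ 2) * ‖u‖ ^ 2 / p +
      ((2 * w1 * inner ℝ u ux + (v1 - w1 ^ 2) * ‖u‖ ^ 2) / p +
        (2 * w2 * inner ℝ u up + (v2 - w2 ^ 2) * ‖u‖ ^ 2 / p + 2 * w2 * inner ℝ u uf / p)) =
      ((Real.exp (2 * s.1) + P.cw / tt P.T p ^ 2) * ‖u‖ ^ 2 +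
        (2 * w1 * inner ℝ u ux + (v1 - w1 ^ 2) * ‖u‖ ^ 2) +
        (2 * w2 * p * inner ℝ u up + (v2 - w2 ^ 2) * ‖u‖ ^ 2 + 2 * w2 * inner ℝ u uf)) / p := by
    field_simp
    ring
  have h5 : ‖ux + I * (p : ℂ) * u‖ ^ 2 / p + ‖I * uf - u + I * (p : ℂ) * up‖ ^ 2 / p +
      1 / 4 * ‖u‖ ^ 2 = (‖ux + I * (p : ℂ) * u‖ ^ 2 + ‖I * uf - u + I * (p : ℂ) * up‖ ^ 2 +
      1 / 4 * p * ‖u‖ ^ 2) / p := by
    field_simp
  rw [h4, h5]
  apply div_le_div_of_nonneg_right _ hp.le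
  nlinarith

theorem IL (hA : AC A) : IntegrableOn (fL P N A) (S3 G.a G.b) := by
  obtain ⟨Cu, hCu, hU⟩ := U_bounds hA N G.a G.b
  refine dom3 (C := (Real.exp (2 * G.b) + P.cw) * Cu ^ 2 * 2) ?_ fun s hs => ?_
  · intro s hs
    have hp := (S3_mem hs).2.2
    have h1 := cont_tt P hp
    have h2 : ContinuousAt (fun s => U N A s) s := (continuous_U hA N).continuousAt
    have h3 : ContinuousAt (fun s : ℝ × ℝ × ℝ => Real.exp (2 * s.1)) s := by fun_prop
    have h4 : ContinuousAt (fun s : ℝ × ℝ × ℝ => s.2.2) s := by fun_prop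
    have ht : tt P.T s.2.2 ≠ 0 := by
      have := tt_ge (T := P.T) hp
      have := P.hT
      linarith
    exact (((h3.add (continuousAt_const.div (h1.pow 2) (pow_ne_zero _ ht))).mul
      (h2.norm.pow 2)).div h4 hp.ne').continuousWithinAt
  · obtain ⟨hx, hφ, hp⟩ := S3_mem hs
    obtain ⟨u1, -, -, -⟩ := hU s.1 hx s.2.1 hφ s.2.2 hp.le
    have h6 := pow_le 1 hp.le
    simp only [pow_one, Nat.factorial_one, Nat.cast_one, one_mul] at h6
    have u1' : ‖U N A s‖ ≤ Cu * (s.2.2 * Real.exp (-(s.2.2 / 2))) := u1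
    have hcw := P.hcw
    have htt : 1 ≤ tt P.T s.2.2 := by
      have := tt_ge (T := P.T) hp
      have := P.hT
      linarith
    unfold fL
    set p := s.2.2
    set E := Real.exp (-(p / 2))
    have hE : 0 < E := Real.exp_pos _
    have hu2 : ‖U N A s‖ ^ 2 ≤ (Cu * (p * E)) ^ 2 := pow_le_pow_left₀ (norm_nonneg _) u1' 2
    have hc : Real.exp (2 * s.1) + P.cw / tt P.T p ^ 2 ≤ Real.exp (2 * G.b) + P.cw := by
      have h4 : Real.exp (2 * s.1) ≤ Real.exp (2 * G.b) := Real.exp_le_exp.2 (by linarith [hx.2])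
      have h5 : P.cw / tt P.T p ^ 2 ≤ P.cw := div_le_self hcw.le (one_le_pow₀ htt)
      linarith
    rw [abs_of_nonneg (by positivity), div_le_iff₀ hp]
    calc (Real.exp (2 * s.1) + P.cw / tt P.T p ^ 2) * ‖U N A s‖ ^ 2
        ≤ (Real.exp (2 * G.b) + P.cw) * (Cu * (p * E)) ^ 2 :=
          mul_le_mul hc hu2 (by positivity) (by positivity)
      _ = (Real.exp (2 * G.b) + P.cw) * Cu ^ 2 * (p * E) * E * p := by ring
      _ ≤ (Real.exp (2 * G.b) + P.cw) * Cu ^ 2 * 2 * E * p := by gcongr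

theorem IR (hA : AC A) : IntegrableOn (fR N A) (S3 G.a G.b) := by
  obtain ⟨Cu, hCu, hU⟩ := U_bounds hA N G.a G.b
  refine dom3 (C := 100 * Cu ^ 2) ?_ fun s hs => ?_
  · intro s hs
    have hp := (S3_mem hs).2.2
    have h2 : ContinuousAt (fun s => U N A s) s := (continuous_U hA N).continuousAt
    have h3 : ContinuousAt (fun s => Ux N A s) s := (continuous_Ux hA N).continuousAt
    have h5 : ContinuousAt (fun s => Uf N A s) s := (continuous_Uf hA N).continuousAt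
    have h6 : ContinuousAt (fun s => Up N A s) s := (continuous_Up hA N).continuousAt
    have h4 : ContinuousAt (fun s : ℝ × ℝ × ℝ => s.2.2) s := by fun_prop
    have h7 : ContinuousAt (fun s : ℝ × ℝ × ℝ => I * (s.2.2 : ℂ)) s := by fun_prop
    exact (((((h3.add (h7.mul h2)).norm.pow 2).div h4 hp.ne').add
      (((((continuousAt_const.mul h5).sub h2).add (h7.mul h6)).norm.pow 2).div h4 hp.ne')).add
      (continuousAt_const.mul (h2.norm.pow 2))).continuousWithinAt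
  · obtain ⟨hx, hφ, hp⟩ := S3_mem hs
    obtain ⟨u1, u2, u3, u4⟩ := hU s.1 hx s.2.1 hφ s.2.2 hp.le
    have q1 := pow_le 1 hp.le
    have q2 := pow_le 2 hp.le
    have q3 := pow_le 3 hp.le
    norm_num [Nat.factorial] at q1 q2 q3
    have u1' : ‖U N A s‖ ≤ Cu * (s.2.2 * Real.exp (-(s.2.2 / 2))) := u1
    have u2' : ‖Ux N A s‖ ≤ Cu * (s.2.2 * Real.exp (-(s.2.2 / 2))) := u2
    have u3' : ‖Uf N A s‖ ≤ Cu * (s.2.2 * Real.exp (-(s.2.2 / 2))) := u3
    have u4' : ‖Up N A s‖ ≤ Cu * Real.exp (-(s.2.2 / 2)) := u4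
    unfold fR
    set p := s.2.2
    set E := Real.exp (-(p / 2))
    have hE : 0 < E := Real.exp_pos _
    set u := U N A s
    set ux := Ux N A s
    set uf := Uf N A s
    set up := Up N A s
    have hpn : ∀ z : ℂ, ‖I * (p : ℂ) * z‖ = p * ‖z‖ := by
      intro z
      rw [norm_mul, norm_mul, Complex.norm_I, one_mul, Complex.norm_real, Real.norm_of_nonneg hp.le]
    have a1 : ‖ux + I * (p : ℂ) * u‖ ≤ Cu * ((p + p ^ 2) * E) := by
      refine (norm_add_le _ _).trans ?_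
      rw [hpn]
      nlinarith [mul_le_mul_of_nonneg_left u1' hp.le]
    have a2 : ‖I * uf - u + I * (p : ℂ) * up‖ ≤ Cu * (3 * p * E) := by
      refine (norm_add_le _ _).trans ?_
      have := norm_sub_le (I * uf) u
      rw [norm_mul, Complex.norm_I, one_mul] at this
      rw [hpn]
      nlinarith [mul_le_mul_of_nonneg_left u4' hp.le]
    have b1 : ‖ux + I * (p : ℂ) * u‖ ^ 2 / p ≤ 66 * Cu ^ 2 * E := by
      rw [div_le_iff₀ hp]
      calc ‖ux + I * (p : ℂ) * u‖ ^ 2 ≤ (Cu * ((p + p ^ 2) * E)) ^ 2 :=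
            pow_le_pow_left₀ (norm_nonneg _) a1 2
        _ = Cu ^ 2 * (p * E + 2 * (p ^ 2 * E) + p ^ 3 * E) * E * p := by ring
        _ ≤ Cu ^ 2 * 66 * E * p := by
            have : p * E + 2 * (p ^ 2 * E) + p ^ 3 * E ≤ 66 := by linarith
            gcongr
        _ = _ := by ring
    have b2 : ‖I * uf - u + I * (p : ℂ) * up‖ ^ 2 / p ≤ 18 * Cu ^ 2 * E := by
      rw [div_le_iff₀ hp]
      calc ‖I * uf - u + I * (p : ℂ) * up‖ ^ 2 ≤ (Cu * (3 * p * E)) ^ 2 :=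
            pow_le_pow_left₀ (norm_nonneg _) a2 2
        _ = Cu ^ 2 * (9 * (p * E)) * E * p := by ring
        _ ≤ Cu ^ 2 * 18 * E * p := by
            have : 9 * (p * E) ≤ 18 := by linarith
            gcongr
        _ = _ := by ring
    have b3 : 1 / 4 * ‖u‖ ^ 2 ≤ 2 * Cu ^ 2 * E := by
      calc 1 / 4 * ‖u‖ ^ 2 ≤ 1 / 4 * (Cu * (p * E)) ^ 2 := by
            have := pow_le_pow_left₀ (norm_nonneg _) u1' 2
            linarith
        _ = Cu ^ 2 * (1 / 4 * (p ^ 2 * E)) * E := by ring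
        _ ≤ Cu ^ 2 * 2 * E := by
            have : 1 / 4 * (p ^ 2 * E) ≤ 2 := by linarith
            gcongr
        _ = _ := by ring
    rw [abs_of_nonneg (by positivity)]
    have : 0 ≤ Cu ^ 2 * E := by positivity
    linarith

/-- the boundary density is integrable -/
theorem IG (hA : AC A) (cA cB : ℝ) (hcA : 0 ≤ cA) (hcB : 0 ≤ cB) :
    IntegrableOn (fun q : ℝ × ℝ => gam P.T cA cB q.2 *
      (‖U N A (G.b, q)‖ ^ 2 + ‖U N A (G.a, q)‖ ^ 2) / q.2) S2 := by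
  obtain ⟨Cu, hCu, hU⟩ := U_bounds hA N G.a G.b
  obtain ⟨Ct, hCt, ht4⟩ := tt4 P.T P.hT
  refine dom2 (C := (cA + cB) * Cu ^ 2 * 2 * Ct) ?_ fun q hq => ?_
  · intro q hq
    have hp : 0 < q.2 := hq.2
    have h1 : ContinuousAt (fun q : ℝ × ℝ => tt P.T q.2) q :=
      ContinuousAt.comp (f := fun q : ℝ × ℝ => q.2) (hasDerivAt_tt hp).continuousAt (by fun_prop)
    have h2 : ContinuousAt (fun q : ℝ × ℝ => U N A (G.b, q)) q :=
      ((continuous_U hA N).comp (by fun_prop : Continuous fun q : ℝ × ℝ => (G.b, q))).continuousAt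
    have h3 : ContinuousAt (fun q : ℝ × ℝ => U N A (G.a, q)) q :=
      ((continuous_U hA N).comp (by fun_prop : Continuous fun q : ℝ × ℝ => (G.a, q))).continuousAt
    have h4 : ContinuousAt (fun q : ℝ × ℝ => q.2) q := by fun_prop
    unfold gam
    exact ((((continuousAt_const.mul (h1.pow 2)).add continuousAt_const).mul
      ((h2.norm.pow 2).add (h3.norm.pow 2))).div h4 hp.ne').continuousWithinAt
  · have hp : 0 < q.2 := hq.2
    have hφ : q.1 ∈ Icc (-Real.pi) Real.pi := Ioo_subset_Icc_self hq.1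
    have ub : ‖U N A (G.b, q)‖ ≤ Cu * (q.2 * Real.exp (-(q.2 / 2))) :=
      (hU G.b (right_mem_Icc.2 G.hab.le) q.1 hφ q.2 hp.le).1
    have ua : ‖U N A (G.a, q)‖ ≤ Cu * (q.2 * Real.exp (-(q.2 / 2))) :=
      (hU G.a (left_mem_Icc.2 G.hab.le) q.1 hφ q.2 hp.le).1
    have ht := ht4 q.2 hp
    have htt : 1 ≤ tt P.T q.2 := by
      have := tt_ge (T := P.T) hp
      have := P.hT
      linarith
    unfold gam
    set p := q.2
    set t := tt P.T p
    set E := Real.exp (-(p / 2))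
    have hE : 0 < E := Real.exp_pos _
    have ht2 : t ^ 2 ≤ t ^ 4 := by
      have : 1 ≤ t ^ 2 := one_le_pow₀ htt
      nlinarith
    have ht4' : 1 ≤ t ^ 4 := one_le_pow₀ htt
    have hg : cA * t ^ 2 + cB ≤ (cA + cB) * t ^ 4 := by
      nlinarith [mul_le_mul_of_nonneg_left ht2 hcA, mul_le_mul_of_nonneg_left ht4' hcB]
    have hub := pow_le_pow_left₀ (norm_nonneg _) ub 2
    have hua := pow_le_pow_left₀ (norm_nonneg _) ua 2
    rw [abs_of_nonneg (by positivity), div_le_iff₀ hp]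
    calc (cA * t ^ 2 + cB) * (‖U N A (G.b, q)‖ ^ 2 + ‖U N A (G.a, q)‖ ^ 2)
        ≤ ((cA + cB) * t ^ 4) * ((Cu * (p * E)) ^ 2 + (Cu * (p * E)) ^ 2) :=
          mul_le_mul hg (add_le_add hub hua) (by positivity) (by positivity)
      _ = (cA + cB) * Cu ^ 2 * 2 * (p * t ^ 4 * E) * E * p := by ring
      _ ≤ (cA + cB) * Cu ^ 2 * 2 * Ct * E * p := by gcongr

/-- the boundary integrand of `int_d1` is integrable -/
theorem IB (hA : AC A) : IntegrableOn (fun q : ℝ × ℝ => (P.w1 G.b q.2 * ‖U N A (G.b, q)‖ ^ 2 -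
    P.w1 G.a q.2 * ‖U N A (G.a, q)‖ ^ 2) / q.2) S2 := by
  have h := I1 P (N := N) hA
  rw [IntegrableOn, restrict_S3] at h
  have h2 := h.integral_prod_right
  refine IntegrableOn.congr_fun h2 (fun q hq => ?_) measurableSet_S2
  exact int_d1_x P hA q.1 hq.2

end GSI

open GSI in
theorem gsi_ground (G : Ground) : ∃ T A B cw : ℝ, 1 ≤ T ∧ 0 < A ∧ 0 < B ∧ 0 < cw ∧
    Real.exp (2 * (G.b + 1)) + cw ≤ B ^ 2 ∧
    ∀ (N : ℕ) (Ak : ℕ → ℝ → ℝ → ℂ), AC Ak →
      (∫ s in S3 G.a G.b, (Real.exp (2 * s.1) + cw / tt T s.2.2 ^ 2) * ‖U N Ak s‖ ^ 2 / s.2.2)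
        - ∫ q in S2, gam T A B q.2 *
            (‖U N Ak (G.b, q)‖ ^ 2 + ‖U N Ak (G.a, q)‖ ^ 2) / q.2
      ≤ ∫ s in S3 G.a G.b,
          (‖Ux N Ak s + I * (s.2.2 : ℂ) * U N Ak s‖ ^ 2 / s.2.2 +
            ‖I * Uf N Ak s - U N Ak s + I * (s.2.2 : ℂ) * Up N Ak s‖ ^ 2 / s.2.2 +
            1 / 4 * ‖U N Ak s‖ ^ 2) := by
  obtain ⟨P⟩ := exists_par G
  have hδ := P.hδ
  have hcw := P.hcw
  have hK := P.hK
  have hda := G.da
  have hdb := G.db
  have hab := G.hab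
  set cA := -deriv G.φ G.b / P.δ + deriv G.φ G.a / P.δ with hcA
  set cB := P.K * (G.b - G.a) / 2 + Real.exp (2 * (G.b + 1)) + P.cw + 1 with hcB
  have a1 : 0 < -deriv G.φ G.b / P.δ := div_pos (by linarith) hδ
  have a2 : 0 < deriv G.φ G.a / P.δ := div_pos hda hδ
  have hcA0 : 0 < cA := by rw [hcA]; linarith
  have hKab : 0 ≤ P.K * (G.b - G.a) / 2 := by
    have : 0 ≤ P.K * (G.b - G.a) := mul_nonneg hK (by linarith)
    linarith
  have hexp := Real.exp_pos (2 * (G.b + 1))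
  have hcB1 : 1 ≤ cB := by rw [hcB]; linarith
  have hcB0 : 0 < cB := by linarith
  refine ⟨P.T, cA, cB, P.cw, by linarith [P.hT], hcA0, hcB0, hcw, ?_, fun N A hA => ?_⟩
  · have : cB ≤ cB ^ 2 := by nlinarith
    have h2 : Real.exp (2 * (G.b + 1)) + P.cw ≤ cB := by rw [hcB]; linarith
    linarith
  · have hL := IL P (N := N) hA
    have hR := IR (G := G) (N := N) hA
    have h1 := I1 P (N := N) hA
    have h2a := I2a P (N := N) hA
    have h2b := I2b P (N := N) hA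
    have hmono : ∫ s in S3 G.a G.b, (fL P N A s + (d1 P N A s + (d2a P N A s + d2b P N A s))) ≤
        ∫ s in S3 G.a G.b, fR N A s :=
      setIntegral_mono_on (hL.add (h1.add (h2a.add h2b))) hR (measurableSet_S3 _ _)
        fun s hs => pointwise P hs
    have e1 : ∫ s in S3 G.a G.b, (fL P N A s + (d1 P N A s + (d2a P N A s + d2b P N A s))) =
        (∫ s in S3 G.a G.b, fL P N A s) + ((∫ s in S3 G.a G.b, d1 P N A s) +
          ((∫ s in S3 G.a G.b, d2a P N A s) + ∫ s in S3 G.a G.b, d2b P N A s)) := by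
      have i1 := integral_add h2a h2b
      have i2 := integral_add h1 (h2a.add h2b)
      have i3 := integral_add hL (h1.add (h2a.add h2b))
      simp only [Pi.add_apply] at i1 i2 i3
      rw [i3, i2, i1]
    rw [e1, int_d2a P hA, int_d2b P hA, int_d1 P hA, add_zero, add_zero] at hmono
    have hbd : -∫ q in S2, gam P.T cA cB q.2 *
        (‖U N A (G.b, q)‖ ^ 2 + ‖U N A (G.a, q)‖ ^ 2) / q.2 ≤
        ∫ q in S2, (P.w1 G.b q.2 * ‖U N A (G.b, q)‖ ^ 2 - P.w1 G.a q.2 * ‖U N A (G.a, q)‖ ^ 2) / q.2 := by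
      rw [← integral_neg]
      refine setIntegral_mono_on (IG P hA cA cB hcA0.le hcB0.le).neg (IB P hA) measurableSet_S2 ?_
      intro q hq
      have hp : 0 < q.2 := hq.2
      rw [P.w1_b hp, P.w1_a hp, ← neg_div]
      apply div_le_div_of_nonneg_right _ hp.le
      unfold gam
      have ht2 : 0 ≤ tt P.T q.2 ^ 2 := sq_nonneg _
      have hb2 : 0 ≤ ‖U N A (G.b, q)‖ ^ 2 := sq_nonneg _
      have ha2 : 0 ≤ ‖U N A (G.a, q)‖ ^ 2 := sq_nonneg _
      have g1 : -deriv G.φ G.b / P.δ * tt P.T q.2 ^ 2 + P.K * (G.b - G.a) / 2 ≤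
          cA * tt P.T q.2 ^ 2 + cB := by
        have : -deriv G.φ G.b / P.δ * tt P.T q.2 ^ 2 ≤ cA * tt P.T q.2 ^ 2 :=
          mul_le_mul_of_nonneg_right (by rw [hcA]; linarith) ht2
        have h3 : P.K * (G.b - G.a) / 2 ≤ cB := by rw [hcB]; linarith
        linarith
      have g2 : deriv G.φ G.a / P.δ * tt P.T q.2 ^ 2 + P.K * (G.b - G.a) / 2 ≤
          cA * tt P.T q.2 ^ 2 + cB := by
        have : deriv G.φ G.a / P.δ * tt P.T q.2 ^ 2 ≤ cA * tt P.T q.2 ^ 2 :=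
          mul_le_mul_of_nonneg_right (by rw [hcA]; linarith) ht2
        have h3 : P.K * (G.b - G.a) / 2 ≤ cB := by rw [hcB]; linarith
        linarith
      nlinarith [mul_le_mul_of_nonneg_right g1 hb2, mul_le_mul_of_nonneg_right g2 ha2]
    have hfin : (∫ s in S3 G.a G.b, fL P N A s) - ∫ q in S2, gam P.T cA cB q.2 *
        (‖U N A (G.b, q)‖ ^ 2 + ‖U N A (G.a, q)‖ ^ 2) / q.2 ≤ ∫ s in S3 G.a G.b, fR N A s := by
      linarith
    exact hfin

end Pool.Agent.DbarN
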