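import Pool.Agent.DbarN.HARDY

set_option autoImplicit false

/-!
# DBAR GSI, part 1: the positive supersolution `h = √t φ + δ t^{-3/2} χ`
-/

namespace Pool.Agent.DbarN

open MeasureTheory Complex Set Filter Topology
open scoped ComplexConjugate ContDiff

namespace GSI

/-- `r = √t` -/
noncomputable def rr (T p : ℝ) : ℝ := Real.sqrt (tt T p)

theorem log_nonneg' {p : ℝ} (hp : 0 < p) : 0 ≤ Real.log (1 + 1 / p) :=
  Real.log_nonneg (by have : 0 < 1 / p := by positivity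
                      linarith)

theorem tt_ge {T p : ℝ} (hp : 0 < p) : T ≤ tt T p := by
  have := log_nonneg' hp
  unfold tt
  linarith

theorem hasDerivAt_tt {T p : ℝ} (hp : 0 < p) : HasDerivAt (tt T) (-1 / (p * (1 + p))) p := by
  have h1 : HasDerivAt (fun p : ℝ => 1 + 1 / p) (-(1 / p ^ 2)) p := by
    have := (hasDerivAt_inv hp.ne').const_add 1
    simpa [one_div] using this
  have h2 := (h1.log (by positivity)).const_add T
  refine h2.congr_deriv ?_
  field_simp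
  ring

theorem rr_ge {T p : ℝ} (hT : 4 ≤ T) (hp : 0 < p) : 2 ≤ rr T p := by
  unfold rr
  apply Real.le_sqrt_of_sq_le
  have := tt_ge (T := T) hp
  linarith

theorem rr_sq {T p : ℝ} (hT : 4 ≤ T) (hp : 0 < p) : rr T p ^ 2 = tt T p := by
  unfold rr
  apply Real.sq_sqrt
  have := tt_ge (T := T) hp
  linarith

theorem hasDerivAt_rr {T p : ℝ} (hT : 4 ≤ T) (hp : 0 < p) :
    HasDerivAt (rr T) (-1 / (2 * rr T p * (p * (1 + p)))) p := by
  have h1 := (hasDerivAt_tt (T := T) hp).sqrt (by have := tt_ge (T := T) hp; linarith)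
  refine h1.congr_deriv ?_
  have := rr_ge hT hp
  unfold rr at this ⊢
  field_simp

/-- `χ = 1 + K (x - a)(b - x)/2` -/
noncomputable def chi (G : Ground) (K x : ℝ) : ℝ := 1 + K * ((x - G.a) * (G.b - x)) / 2

/-- parameters -/
structure Par (G : Ground) where
  δ : ℝ
  T : ℝ
  K : ℝ
  cw : ℝ
  hδ : 0 < δ
  hT : 4 ≤ T
  hK : 0 ≤ K
  hcw : 0 < cw
  hχ : ∀ x ∈ Icc G.a G.b, 15 / 4 * chi G K x ≤ T ^ 2
  hC : ∀ x ∈ Icc G.a G.b, 2 ≤ K - Real.exp (2 * x) * chi G K x + G.φ x / (16 * δ)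
  hc : ∀ x ∈ Icc G.a G.b, cw * (G.φ x + δ * chi G K x) ≤ δ

variable {G : Ground}

theorem phi_nonneg {x : ℝ} (hx : x ∈ Icc G.a G.b) : 0 ≤ G.φ x := by
  rcases eq_or_lt_of_le hx.1 with h | h
  · rw [← h, G.za]
  rcases eq_or_lt_of_le hx.2 with h' | h'
  · rw [h', G.zb]
  exact (G.pos x ⟨h, h'⟩).le

namespace Par

variable (P : Par G)

theorem chi_ge {x : ℝ} (hx : x ∈ Icc G.a G.b) : 1 ≤ chi G P.K x := by
  unfold chi
  have h1 : 0 ≤ (x - G.a) * (G.b - x) := mul_nonneg (by linarith [hx.1]) (by linarith [hx.2])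
  have := mul_nonneg P.hK h1
  linarith

noncomputable def H (x p : ℝ) : ℝ :=
  rr P.T p * G.φ x + P.δ / rr P.T p ^ 3 * chi G P.K x

noncomputable def Hx (x p : ℝ) : ℝ :=
  rr P.T p * deriv G.φ x + P.δ / rr P.T p ^ 3 * (P.K * (G.a + G.b - 2 * x) / 2)

noncomputable def Hxx (x p : ℝ) : ℝ :=
  -(rr P.T p * (Real.exp (2 * x) * G.φ x)) - P.δ / rr P.T p ^ 3 * P.K

noncomputable def H1 (x p : ℝ) : ℝ :=
  -(G.φ x / (2 * rr P.T p * (1 + p))) + 3 * P.δ / 2 * chi G P.K x / (rr P.T p ^ 5 * (1 + p))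

noncomputable def H2 (x p : ℝ) : ℝ :=
  G.φ x * (-(1 / (4 * rr P.T p ^ 3 * (1 + p) ^ 2)) + p / (2 * rr P.T p * (1 + p) ^ 2)) +
    chi G P.K x * (15 * P.δ / (4 * rr P.T p ^ 7 * (1 + p) ^ 2) -
      3 * P.δ * p / (2 * rr P.T p ^ 5 * (1 + p) ^ 2))

theorem dφ (x : ℝ) : HasDerivAt G.φ (deriv G.φ x) x :=
  ((G.smooth.differentiable (by simp)) x).hasDerivAt

theorem ddφ (x : ℝ) : HasDerivAt (deriv G.φ) (-(Real.exp (2 * x) * G.φ x)) x := by
  rw [← G.ode x]
  have h : ContDiff ℝ 1 (deriv G.φ) := by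
    have h2 : ContDiff ℝ (1 + 1) G.φ := by
      have := contDiff_infty.1 G.smooth 2
      exact_mod_cast this
    exact (contDiff_succ_iff_deriv.1 h2).2.2
  exact ((h.differentiable (by simp)) x).hasDerivAt

theorem hasDerivAt_chi (K x : ℝ) : HasDerivAt (chi G K) (K * (G.a + G.b - 2 * x) / 2) x := by
  unfold chi
  have h1 : HasDerivAt (fun x : ℝ => (x - G.a) * (G.b - x)) (G.a + G.b - 2 * x) x := by
    refine (((hasDerivAt_id' x).sub_const G.a).fun_mul ((hasDerivAt_id' x).const_sub G.b)).congr_deriv ?_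
    ring
  refine (((h1.const_mul K).div_const 2).const_add 1).congr_deriv ?_
  ring

theorem hasDerivAt_H_x (x p : ℝ) : HasDerivAt (fun x => P.H x p) (P.Hx x p) x := by
  unfold H Hx
  exact ((dφ x).const_mul _).fun_add ((hasDerivAt_chi P.K x).const_mul _)

theorem hasDerivAt_Hx_x (x p : ℝ) : HasDerivAt (fun x => P.Hx x p) (P.Hxx x p) x := by
  unfold Hx Hxx
  have h1 : HasDerivAt (fun x : ℝ => P.K * (G.a + G.b - 2 * x) / 2) (-P.K) x := by
    refine (((((hasDerivAt_id' x).const_mul 2).const_sub (G.a + G.b)).const_mul P.K).div_const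
      2).congr_deriv ?_
    ring
  refine (((ddφ x).const_mul (rr P.T p)).fun_add (h1.const_mul _)).congr_deriv ?_
  ring

theorem hasDerivAt_H_p (x : ℝ) {p : ℝ} (hp : 0 < p) :
    HasDerivAt (fun p => P.H x p) (P.H1 x p / p) p := by
  have hr := hasDerivAt_rr P.hT hp
  have hr2 := rr_ge P.hT hp
  unfold H H1
  have h3 := (hasDerivAt_const p P.δ).fun_div (hr.fun_pow 3) (by positivity)
  refine ((hr.mul_const (G.φ x)).fun_add (h3.mul_const _)).congr_deriv ?_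
  have hr0 : rr P.T p ≠ 0 := by positivity
  have h1p : (1 + p) ≠ 0 := by positivity
  have hp0 : p ≠ 0 := hp.ne'
  field_simp
  ring

theorem hasDerivAt_H1_p (x : ℝ) {p : ℝ} (hp : 0 < p) :
    HasDerivAt (fun p => P.H1 x p) (P.H2 x p / p) p := by
  have hr := hasDerivAt_rr P.hT hp
  have hr2 := rr_ge P.hT hp
  unfold H1 H2
  have hr0 : rr P.T p ≠ 0 := by positivity
  have h1p : (1 + p) ≠ 0 := by positivity
  have hp0 : p ≠ 0 := hp.ne'
  have hid : HasDerivAt (fun p : ℝ => 1 + p) 1 p := by simpa using (hasDerivAt_id' p).const_add 1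
  have h1 := (hasDerivAt_const p (G.φ x)).fun_div ((hr.const_mul 2).fun_mul hid) (by positivity)
  have h2 := (hasDerivAt_const p (3 * P.δ / 2 * chi G P.K x)).fun_div ((hr.fun_pow 5).fun_mul hid)
    (by positivity)
  refine (h1.fun_neg.fun_add h2).congr_deriv ?_
  field_simp
  ring

theorem H_ge {x p : ℝ} (hx : x ∈ Icc G.a G.b) (hp : 0 < p) : P.δ / rr P.T p ^ 3 ≤ P.H x p := by
  have hr2 := rr_ge P.hT hp
  have h1 := phi_nonneg hx
  have h2 := P.chi_ge hx
  have h3 := P.hδ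
  unfold H
  have h4 : 0 ≤ P.δ / rr P.T p ^ 3 := by positivity
  nlinarith [mul_nonneg (by linarith : (0 : ℝ) ≤ rr P.T p) h1, mul_nonneg h4 (sub_nonneg.2 h2)]

theorem H_pos {x p : ℝ} (hx : x ∈ Icc G.a G.b) (hp : 0 < p) : 0 < P.H x p := by
  have hr2 := rr_ge P.hT hp
  have h3 := P.hδ
  exact lt_of_lt_of_le (by positivity) (P.H_ge hx hp)

/-- the key pointwise inequality -/
theorem key {x p : ℝ} (hx : x ∈ Icc G.a G.b) (hp : 0 < p) :
    (Real.exp (2 * x) + P.cw / tt P.T p ^ 2) * P.H x p ≤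
      -P.Hxx x p - P.H2 x p + 1 / 4 * p * P.H x p := by
  have hr2 := rr_ge P.hT hp
  have ht := rr_sq P.hT hp
  have htT := tt_ge (T := P.T) hp
  have h1 := phi_nonneg hx
  have h2 := P.chi_ge hx
  have hδ := P.hδ
  have hχ := P.hχ x hx
  have hC := P.hC x hx
  have hc := P.hc x hx
  have hT := P.hT
  have hcw := P.hcw
  unfold H Hxx H2
  rw [← ht] at htT ⊢
  set r := rr P.T p with hr
  set X := chi G P.K x with hX
  set f := G.φ x with hf
  set e := Real.exp (2 * x) with he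
  have hr0 : 0 < r := by linarith
  have e1 : P.cw / (r ^ 2) ^ 2 * (r * f + P.δ / r ^ 3 * X) ≤ P.δ / r ^ 3 := by
    have : P.cw * (f + P.δ / r ^ 4 * X) ≤ P.δ := by
      refine le_trans ?_ hc
      have h5 : P.δ / r ^ 4 * X ≤ P.δ * X := by
        apply mul_le_mul_of_nonneg_right _ (by linarith)
        apply div_le_self hδ.le
        exact one_le_pow₀ (by linarith)
      nlinarith
    have h6 : P.cw / (r ^ 2) ^ 2 * (r * f + P.δ / r ^ 3 * X) =
        (P.cw * (f + P.δ / r ^ 4 * X)) / r ^ 3 := by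
      field_simp
    rw [h6]
    exact div_le_div_of_nonneg_right this (by positivity)
  -- coefficient of f
  have e2 : 0 ≤ 1 / (4 * r ^ 3 * (1 + p) ^ 2) - p / (2 * r * (1 + p) ^ 2) + 1 / 4 * p * r -
      1 / (16 * r ^ 3) := by
    have h7 : 1 / (4 * r ^ 3 * (1 + p) ^ 2) - p / (2 * r * (1 + p) ^ 2) + 1 / 4 * p * r -
      1 / (16 * r ^ 3) = (4 + (4 * p * r ^ 4 - 1) * (1 + p) ^ 2 - 8 * p * r ^ 2) /
        (16 * r ^ 3 * (1 + p) ^ 2) := by
      field_simp
      ring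
    rw [h7]
    apply div_nonneg _ (by positivity)
    have hr4 : 4 ≤ r ^ 2 := by nlinarith
    have hpr : 0 ≤ p * r ^ 2 := by positivity
    have h8 : 4 * (p * r ^ 2) ≤ p * r ^ 4 := by nlinarith [mul_le_mul_of_nonneg_left hr4 hpr]
    have h9 : 16 * p ≤ p * r ^ 4 := by nlinarith
    have h10 : 0 ≤ p * r ^ 4 := by positivity
    have h11 : (1 : ℝ) ≤ (1 + p) ^ 2 := by nlinarith
    nlinarith [mul_nonneg h10 (sub_nonneg.2 h11), sq_nonneg p, mul_pos hp hp]
  -- the D² ε term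
  have e3 : X * (15 * P.δ / (4 * r ^ 7 * (1 + p) ^ 2)) ≤ P.δ / r ^ 3 := by
    have h12 : X * (15 * P.δ / (4 * r ^ 7 * (1 + p) ^ 2)) =
        (15 / 4 * X) / (r ^ 4 * (1 + p) ^ 2) * (P.δ / r ^ 3) := by
      field_simp
    rw [h12]
    have h13 : (15 / 4 * X) / (r ^ 4 * (1 + p) ^ 2) ≤ 1 := by
      rw [div_le_one (by positivity)]
      have h14 : P.T ^ 2 ≤ r ^ 4 := by nlinarith
      have h11 : (1 : ℝ) ≤ (1 + p) ^ 2 := by nlinarith
      have : r ^ 4 ≤ r ^ 4 * (1 + p) ^ 2 := le_mul_of_one_le_right (by positivity) h11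
      linarith
    have h15 : 0 ≤ P.δ / r ^ 3 := by positivity
    nlinarith
  have e4 : 0 ≤ X * (3 * P.δ * p / (2 * r ^ 5 * (1 + p) ^ 2)) := by positivity
  have e5 : 0 ≤ 1 / 4 * p * (P.δ / r ^ 3 * X) := by positivity
  -- ε (K - e X) ≥ 2 ε - f/(16 r^3)
  have e6 : 2 * (P.δ / r ^ 3) - f / (16 * r ^ 3) ≤ P.δ / r ^ 3 * (P.K - e * X) := by
    have h15 : 0 ≤ P.δ / r ^ 3 := by positivity
    have h16 := mul_le_mul_of_nonneg_left hC h15
    have h17 : P.δ / r ^ 3 * (f / (16 * P.δ)) = f / (16 * r ^ 3) := by field_simp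
    nlinarith
  have e7 := mul_nonneg h1 e2
  have e8 : f * (1 / (16 * r ^ 3)) = f / (16 * r ^ 3) := by ring
  nlinarith [e1, e3, e4, e5, e6, e7, e8]

end Par

end GSI

end Pool.Agent.DbarN
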