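import Pool.Agent.DbarN.GSI1

set_option autoImplicit false

/-!
# DBAR GSI, part 2: parameters exist, bounds for the weights
-/

namespace Pool.Agent.DbarN

open MeasureTheory Complex Set Filter Topology
open scoped ComplexConjugate ContDiff

namespace GSI

variable {G : Ground}

theorem phi_lower (G : Ground) : ∃ C2 : ℝ, 0 ≤ C2 ∧ ∀ x ∈ Icc G.a G.b,
    (x - G.a) * (G.b - x) ≤ C2 * G.φ x := by
  have hconc : ConcaveOn ℝ (Icc G.a G.b) G.φ := by
    apply concaveOn_of_deriv2_nonpos (convex_Icc _ _)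
    · exact G.smooth.continuous.continuousOn
    · intro x _
      exact (Par.dφ x).differentiableAt.differentiableWithinAt
    · intro x _
      exact (Par.ddφ x).differentiableAt.differentiableWithinAt
    · intro x hx
      rw [interior_Icc] at hx
      simp only [Function.iterate_succ, Function.iterate_zero, Function.comp_apply, id]
      rw [G.ode x]
      have := G.pos x hx
      have h2 := Real.exp_pos (2 * x)
      nlinarith [mul_pos h2 this]
  set m := (G.a + G.b) / 2 with hm
  have hab := G.hab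
  have hmI : m ∈ Ioo G.a G.b := ⟨by rw [hm]; linarith, by rw [hm]; linarith⟩
  have hφm := G.pos m hmI
  refine ⟨(G.b - G.a) ^ 2 / (2 * G.φ m), by positivity, fun x hx => ?_⟩
  have hL : 0 < G.b - G.a := by linarith
  have key : 2 * ((x - G.a) * (G.b - x)) / (G.b - G.a) ^ 2 * G.φ m ≤ G.φ x := by
    rcases le_total x m with h | h
    · -- x between a and m
      set s := 2 * (x - G.a) / (G.b - G.a) with hs
      have hs0 : 0 ≤ s := by
        have := hx.1
        apply div_nonneg _ hL.le
        linarith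
      have hs1 : s ≤ 1 := by
        rw [hs, div_le_one hL, hm] at *
        linarith
      have h1 := hconc.2 (left_mem_Icc.2 hab.le) (Ioo_subset_Icc_self hmI)
        (sub_nonneg.2 hs1) hs0 (by ring)
      have h2 : (1 - s) • G.a + s • m = x := by
        simp only [smul_eq_mul, hs, hm]
        field_simp
        ring
      rw [h2] at h1
      simp only [smul_eq_mul, G.za, mul_zero, zero_add] at h1
      refine le_trans ?_ h1
      apply mul_le_mul_of_nonneg_right _ hφm.le
      rw [hs, div_le_div_iff₀ (by positivity) hL]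
      have h3 : 0 ≤ x - G.a := by linarith [hx.1]
      have h4 : G.b - x ≤ G.b - G.a := by linarith [hx.1]
      nlinarith [mul_nonneg h3 hL.le, mul_nonneg (mul_nonneg h3 hL.le) (sub_nonneg.2 h4)]
    · set s := 2 * (G.b - x) / (G.b - G.a) with hs
      have hs0 : 0 ≤ s := by
        have := hx.2
        apply div_nonneg _ hL.le
        linarith
      have hs1 : s ≤ 1 := by
        rw [hs, div_le_one hL]
        rw [hm] at h
        linarith
      have h1 := hconc.2 (Ioo_subset_Icc_self hmI) (right_mem_Icc.2 hab.le)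
        hs0 (sub_nonneg.2 hs1) (by ring)
      have h2 : s • m + (1 - s) • G.b = x := by
        simp only [smul_eq_mul, hs, hm]
        field_simp
        ring
      rw [h2] at h1
      simp only [smul_eq_mul, G.zb, mul_zero, add_zero] at h1
      refine le_trans ?_ h1
      apply mul_le_mul_of_nonneg_right _ hφm.le
      rw [hs, div_le_div_iff₀ (by positivity) hL]
      have h3 : 0 ≤ G.b - x := by linarith [hx.2]
      have h4 : x - G.a ≤ G.b - G.a := by linarith [hx.2]
      nlinarith [mul_nonneg h3 hL.le, mul_nonneg (mul_nonneg h3 hL.le) (sub_nonneg.2 h4)]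
  have h5 : (G.b - G.a) ^ 2 / (2 * G.φ m) * (2 * ((x - G.a) * (G.b - x)) / (G.b - G.a) ^ 2 * G.φ m) =
      (x - G.a) * (G.b - x) := by
    field_simp
  rw [← h5]
  exact mul_le_mul_of_nonneg_left key (by positivity)

theorem exists_par (G : Ground) : Nonempty (Par G) := by
  obtain ⟨C2, hC2, hlow⟩ := phi_lower G
  obtain ⟨M, hM⟩ := (isCompact_Icc (a := G.a) (b := G.b)).exists_bound_of_continuousOn
    G.smooth.continuous.continuousOn
  set K := Real.exp (2 * G.b) + 2 with hK
  have hK0 : 0 < K := by positivity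
  set Xm := 1 + K * (G.b - G.a) ^ 2 / 2 with hXm
  have hX : ∀ x ∈ Icc G.a G.b, chi G K x ≤ Xm := by
    intro x hx
    unfold chi
    have h1 : (x - G.a) * (G.b - x) ≤ (G.b - G.a) ^ 2 := by
      nlinarith [mul_nonneg (sub_nonneg.2 hx.1) (sub_nonneg.2 hx.2), hx.1, hx.2,
        sq_nonneg (x - G.a), sq_nonneg (G.b - x)]
    nlinarith [mul_le_mul_of_nonneg_left h1 hK0.le]
  have hX1 : ∀ x ∈ Icc G.a G.b, 1 ≤ chi G K x := by
    intro x hx
    unfold chi
    have h1 : 0 ≤ (x - G.a) * (G.b - x) := mul_nonneg (by linarith [hx.1]) (by linarith [hx.2])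
    have := mul_nonneg hK0.le h1
    linarith
  have hXm1 : 1 ≤ Xm := by rw [hXm]; have : 0 ≤ K * (G.b - G.a) ^ 2 / 2 := by positivity
                           linarith
  set C3 := Real.exp (2 * G.b) * K * C2 / 2 with hC3
  have hC30 : 0 ≤ C3 := by positivity
  set δ := 1 / (16 * (C3 + 1)) with hδ
  have hδ0 : 0 < δ := by positivity
  have hM0 : 0 ≤ M := le_trans (norm_nonneg _) (hM G.a (left_mem_Icc.2 G.hab.le))
  refine ⟨⟨δ, 4 + 15 / 4 * Xm, K, δ / (M + δ * Xm + 1), hδ0, ?_, hK0.le, by positivity, ?_, ?_, ?_⟩⟩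
  · have : 0 ≤ 15 / 4 * Xm := by positivity
    linarith
  · intro x hx
    have := hX x hx
    nlinarith
  · intro x hx
    have h1 := hlow x hx
    have h2 : G.φ x / (16 * δ) = (C3 + 1) * G.φ x := by
      rw [hδ]
      field_simp
    have h3 := phi_nonneg hx
    have h4 : Real.exp (2 * x) ≤ Real.exp (2 * G.b) := Real.exp_le_exp.2 (by linarith [hx.2])
    have h5 : Real.exp (2 * x) * chi G K x ≤ Real.exp (2 * G.b) * chi G K x :=
      mul_le_mul_of_nonneg_right h4 (by linarith [hX1 x hx])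
    have h6 : Real.exp (2 * G.b) * chi G K x ≤ Real.exp (2 * G.b) + C3 * G.φ x := by
      unfold chi
      have h7 : 0 ≤ Real.exp (2 * G.b) * K / 2 := by positivity
      have h8 := mul_le_mul_of_nonneg_left h1 h7
      rw [hC3]
      nlinarith
    rw [h2]
    nlinarith
  · intro x hx
    have h1 := hM x hx
    rw [Real.norm_eq_abs] at h1
    have h2 := le_abs_self (G.φ x)
    have h3 : G.φ x + δ * chi G K x ≤ M + δ * Xm + 1 := by
      have := mul_le_mul_of_nonneg_left (hX x hx) hδ0.le
      linarith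
    rw [div_mul_eq_mul_div, div_le_iff₀ (by positivity)]
    nlinarith

namespace Par

variable (P : Par G)

/-- the two logarithmic derivatives -/
noncomputable def w1 (x p : ℝ) : ℝ := P.Hx x p / P.H x p
noncomputable def w2 (x p : ℝ) : ℝ := P.H1 x p / P.H x p
noncomputable def v1 (x p : ℝ) : ℝ := P.Hxx x p / P.H x p
noncomputable def v2 (x p : ℝ) : ℝ := P.H2 x p / P.H x p

theorem hasDerivAt_w1 {x p : ℝ} (hx : x ∈ Icc G.a G.b) (hp : 0 < p) :
    HasDerivAt (fun x => P.w1 x p) (P.v1 x p - P.w1 x p ^ 2) x := by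
  have h0 := (P.H_pos hx hp).ne'
  unfold w1 v1
  refine ((P.hasDerivAt_Hx_x x p).fun_div (P.hasDerivAt_H_x x p) h0).congr_deriv ?_
  field_simp

theorem hasDerivAt_w2 {x p : ℝ} (hx : x ∈ Icc G.a G.b) (hp : 0 < p) :
    HasDerivAt (fun p => P.w2 x p) ((P.v2 x p - P.w2 x p ^ 2) / p) p := by
  have h0 := (P.H_pos hx hp).ne'
  unfold w2 v2
  refine ((P.hasDerivAt_H1_p x hp).fun_div (P.hasDerivAt_H_p x hp) h0).congr_deriv ?_
  have := hp.ne'
  field_simp

theorem bounds : ∃ C : ℝ, 0 ≤ C ∧ ∀ x ∈ Icc G.a G.b, ∀ p > 0,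
    |P.w1 x p| ≤ C * tt P.T p ^ 2 ∧ |P.w2 x p| ≤ C ∧ |P.v1 x p| ≤ C ∧ |P.v2 x p| ≤ C := by
  obtain ⟨M, hM⟩ := (isCompact_Icc (a := G.a) (b := G.b)).exists_bound_of_continuousOn
    (f := deriv G.φ) (fun x _ => (ddφ x).continuousAt.continuousWithinAt)
  have hM0 : 0 ≤ M := le_trans (norm_nonneg _) (hM G.a (left_mem_Icc.2 G.hab.le))
  have hδ := P.hδ
  have hK := P.hK
  set L := P.K * (G.b - G.a) / 2 with hL
  have hL0 : 0 ≤ L := by
    have := G.hab
    apply div_nonneg _ (by norm_num)
    apply mul_nonneg hK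
    linarith
  refine ⟨M / P.δ + L + (Real.exp (2 * G.b) + P.K) + 6, by positivity, fun x hx p hp => ?_⟩
  have hr2 := rr_ge P.hT hp
  have ht := rr_sq P.hT hp
  have hH := P.H_pos hx hp
  have hHge := P.H_ge hx hp
  have h1 := phi_nonneg hx
  have h2 := P.chi_ge hx
  set r := rr P.T p with hr
  have hr0 : 0 < r := by linarith
  set f := G.φ x with hf
  set X := chi G P.K x with hX
  have hHdef : P.H x p = r * f + P.δ / r ^ 3 * X := rfl
  have hrf : 0 ≤ r * f := by positivity
  have hεX : 0 < P.δ / r ^ 3 * X := by positivity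
  have hr41 : 1 ≤ r ^ 4 := one_le_pow₀ (by linarith)
  have hr21 : 1 ≤ r ^ 2 := one_le_pow₀ (by linarith)
  have hpos : 0 ≤ Real.exp (2 * G.b) + P.K := by positivity
  refine ⟨?_, ?_, ?_, ?_⟩
  · -- w1
    unfold w1
    rw [abs_div, abs_of_pos hH, div_le_iff₀ hH, ← ht]
    have hM1 := hM x hx
    rw [Real.norm_eq_abs] at hM1
    have hx2 : |P.K * (G.a + G.b - 2 * x) / 2| ≤ L := by
      rw [hL, abs_div, abs_mul, abs_of_nonneg hK, abs_of_nonneg (by norm_num : (0 : ℝ) ≤ 2)]
      apply div_le_div_of_nonneg_right _ (by norm_num)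
      apply mul_le_mul_of_nonneg_left _ hK
      rw [abs_le]
      constructor <;> linarith [hx.1, hx.2]
    have h3 : |P.Hx x p| ≤ r * M + P.δ / r ^ 3 * L := by
      unfold Hx
      refine (abs_add_le _ _).trans (add_le_add ?_ ?_)
      · rw [abs_mul, abs_of_pos hr0]
        exact mul_le_mul_of_nonneg_left hM1 hr0.le
      · rw [abs_mul, abs_of_pos (by positivity : 0 < P.δ / rr P.T p ^ 3)]
        exact mul_le_mul_of_nonneg_left hx2 (by positivity)
    have h4 : r * M + P.δ / r ^ 3 * L ≤ (M / P.δ + L) * (r ^ 2) ^ 2 * (P.δ / r ^ 3) := by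
      have e1 : (M / P.δ + L) * (r ^ 2) ^ 2 * (P.δ / r ^ 3) = r * M + r ^ 4 * (P.δ / r ^ 3 * L) := by
        field_simp
      rw [e1]
      have : 0 ≤ P.δ / r ^ 3 * L := by positivity
      nlinarith
    refine h3.trans (h4.trans ?_)
    have h5 : (M / P.δ + L) * (r ^ 2) ^ 2 * (P.δ / r ^ 3) ≤ (M / P.δ + L) * (r ^ 2) ^ 2 * P.H x p :=
      mul_le_mul_of_nonneg_left hHge (by positivity)
    refine h5.trans ?_
    apply mul_le_mul_of_nonneg_right _ hH.le
    apply mul_le_mul_of_nonneg_right _ (by positivity)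
    linarith
  · unfold w2
    rw [abs_div, abs_of_pos hH, div_le_iff₀ hH]
    have h3 : |P.H1 x p| ≤ 6 * P.H x p := by
      unfold H1
      refine (abs_add_le _ _).trans ?_
      rw [abs_neg, abs_of_nonneg (by positivity), abs_of_nonneg (by positivity), hHdef]
      have e1 : f / (2 * r * (1 + p)) ≤ r * f := by
        rw [div_le_iff₀ (by positivity)]
        have : 1 ≤ r * (2 * r * (1 + p)) := by nlinarith [mul_pos hr0 hp, mul_pos hr0 hr0]
        nlinarith
      have e2 : 3 * P.δ / 2 * X / (r ^ 5 * (1 + p)) ≤ 2 * (P.δ / r ^ 3 * X) := by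
        have : 3 * P.δ / 2 * X / (r ^ 5 * (1 + p)) = (3 / 2 / (r ^ 2 * (1 + p))) * (P.δ / r ^ 3 * X) := by
          field_simp
        rw [this]
        apply mul_le_mul_of_nonneg_right _ hεX.le
        rw [div_le_iff₀ (by positivity)]
        nlinarith [mul_pos hr0 hp, mul_pos hr0 hr0, mul_pos (mul_pos hr0 hr0) hp]
      linarith
    refine h3.trans (mul_le_mul_of_nonneg_right ?_ hH.le)
    have : 0 ≤ M / P.δ := by positivity
    linarith
  · unfold v1
    rw [abs_div, abs_of_pos hH, div_le_iff₀ hH]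
    have h3 : |P.Hxx x p| ≤ (Real.exp (2 * G.b) + P.K) * P.H x p := by
      unfold Hxx
      have h4 : Real.exp (2 * x) ≤ Real.exp (2 * G.b) := Real.exp_le_exp.2 (by linarith [hx.2])
      rw [← neg_add', abs_neg, abs_of_nonneg (by positivity), hHdef]
      have e1 : r * (Real.exp (2 * x) * f) ≤ Real.exp (2 * G.b) * (r * f) := by
        nlinarith [mul_le_mul_of_nonneg_right h4 hrf]
      have e2 : P.δ / r ^ 3 * P.K ≤ P.K * (P.δ / r ^ 3 * X) := by
        have : 0 ≤ P.δ / r ^ 3 * P.K := by positivity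
        nlinarith
      have e3 : 0 ≤ Real.exp (2 * G.b) * (P.δ / r ^ 3 * X) := by positivity
      have e4 : 0 ≤ P.K * (r * f) := by positivity
      nlinarith
    refine h3.trans (mul_le_mul_of_nonneg_right ?_ hH.le)
    have : 0 ≤ M / P.δ := by positivity
    linarith
  · unfold v2
    rw [abs_div, abs_of_pos hH, div_le_iff₀ hH]
    have h3 : |P.H2 x p| ≤ 6 * P.H x p := by
      unfold H2
      have q1 : (1 : ℝ) ≤ (1 + p) ^ 2 := by nlinarith
      have q2 : p ≤ (1 + p) ^ 2 := by nlinarith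
      have e1 : |-(1 / (4 * r ^ 3 * (1 + p) ^ 2)) + p / (2 * r * (1 + p) ^ 2)| ≤ r := by
        have a1 : 1 / (4 * r ^ 3 * (1 + p) ^ 2) ≤ r := by
          rw [div_le_iff₀ (by positivity)]
          have : (1 : ℝ) ≤ r ^ 4 * (1 + p) ^ 2 := one_le_mul_of_one_le_of_one_le hr41 q1
          nlinarith
        have a2 : p / (2 * r * (1 + p) ^ 2) ≤ r := by
          rw [div_le_iff₀ (by positivity)]
          have : p ≤ r ^ 2 * (1 + p) ^ 2 := by nlinarith
          nlinarith
        have a3 : 0 ≤ 1 / (4 * r ^ 3 * (1 + p) ^ 2) := by positivity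
        have a4 : 0 ≤ p / (2 * r * (1 + p) ^ 2) := by positivity
        rw [abs_le]
        constructor <;> linarith
      have e2 : |15 * P.δ / (4 * r ^ 7 * (1 + p) ^ 2) - 3 * P.δ * p / (2 * r ^ 5 * (1 + p) ^ 2)| ≤
          6 * (P.δ / r ^ 3) := by
        have hε : 0 < P.δ / r ^ 3 := by positivity
        have a1 : 15 * P.δ / (4 * r ^ 7 * (1 + p) ^ 2) ≤ 15 / 4 * (P.δ / r ^ 3) := by
          have : 15 * P.δ / (4 * r ^ 7 * (1 + p) ^ 2) =
              (15 / 4 / (r ^ 4 * (1 + p) ^ 2)) * (P.δ / r ^ 3) := by field_simp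
          rw [this]
          apply mul_le_mul_of_nonneg_right _ hε.le
          apply div_le_self (by norm_num)
          exact one_le_mul_of_one_le_of_one_le hr41 q1
        have a2 : 3 * P.δ * p / (2 * r ^ 5 * (1 + p) ^ 2) ≤ 3 / 2 * (P.δ / r ^ 3) := by
          have : 3 * P.δ * p / (2 * r ^ 5 * (1 + p) ^ 2) =
              (3 / 2 * (p / (r ^ 2 * (1 + p) ^ 2))) * (P.δ / r ^ 3) := by field_simp
          rw [this]
          apply mul_le_mul_of_nonneg_right _ hε.le
          have : p / (r ^ 2 * (1 + p) ^ 2) ≤ 1 := by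
            rw [div_le_one (by positivity)]
            nlinarith
          linarith
        have a3 : 0 ≤ 15 * P.δ / (4 * r ^ 7 * (1 + p) ^ 2) := by positivity
        have a4 : 0 ≤ 3 * P.δ * p / (2 * r ^ 5 * (1 + p) ^ 2) := by positivity
        rw [abs_le]
        constructor <;> linarith
      refine (abs_add_le _ _).trans ?_
      rw [abs_mul, abs_mul, abs_of_nonneg h1, abs_of_nonneg (by linarith : 0 ≤ X), hHdef]
      have b1 := mul_le_mul_of_nonneg_left e1 h1
      have b2 := mul_le_mul_of_nonneg_left e2 (by linarith : 0 ≤ X)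
      nlinarith
    refine h3.trans (mul_le_mul_of_nonneg_right ?_ hH.le)
    have : 0 ≤ M / P.δ := by positivity
    linarith

/-- boundary values of the weights -/
theorem w1_b {p : ℝ} (hp : 0 < p) :
    P.w1 G.b p = -(-deriv G.φ G.b / P.δ * tt P.T p ^ 2 + P.K * (G.b - G.a) / 2) := by
  have hr2 := rr_ge P.hT hp
  have ht := rr_sq P.hT hp
  have hδ := P.hδ
  unfold w1 H Hx chi
  rw [← ht, G.zb]
  have hr0 : rr P.T p ≠ 0 := by positivity
  simp only [sub_self, mul_zero, zero_div, add_zero, mul_one, zero_add]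
  field_simp
  ring

theorem w1_a {p : ℝ} (hp : 0 < p) :
    P.w1 G.a p = deriv G.φ G.a / P.δ * tt P.T p ^ 2 + P.K * (G.b - G.a) / 2 := by
  have hr2 := rr_ge P.hT hp
  have ht := rr_sq P.hT hp
  have hδ := P.hδ
  unfold w1 H Hx chi
  rw [← ht, G.za]
  have hr0 : rr P.T p ≠ 0 := by positivity
  simp only [sub_self, mul_zero, zero_mul, zero_div, add_zero, mul_one, zero_add]
  field_simp
  ring

end Par

end GSI

end Pool.Agent.DbarN
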