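import Pool.Agent.DbarN.GSI2

set_option autoImplicit false

/-!
# DBAR GSI, part 3: bounds for `U` and its derivatives, domination
-/

namespace Pool.Agent.DbarN

open MeasureTheory Complex Set Filter Topology
open scoped ComplexConjugate ContDiff

namespace GSI

/-! ### elementary bounds -/

theorem pow_le (k : ℕ) {p : ℝ} (hp : 0 ≤ p) :
    p ^ k * Real.exp (-(p / 2)) ≤ (k.factorial : ℝ) * 2 ^ k := by
  have h := Real.pow_div_factorial_le_exp (p / 2) (by positivity) k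
  have hf : (0 : ℝ) < k.factorial := by exact_mod_cast Nat.factorial_pos k
  rw [div_le_iff₀ hf, div_pow, div_le_iff₀ (by positivity)] at h
  have h2 : Real.exp (p / 2) * Real.exp (-(p / 2)) = 1 := by
    rw [← Real.exp_add]; simp
  calc p ^ k * Real.exp (-(p / 2)) ≤
      (Real.exp (p / 2) * (k.factorial : ℝ) * 2 ^ k) * Real.exp (-(p / 2)) :=
        mul_le_mul_of_nonneg_right h (Real.exp_pos _).le
    _ = (k.factorial : ℝ) * 2 ^ k * (Real.exp (p / 2) * Real.exp (-(p / 2))) := by ring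
    _ = _ := by rw [h2, mul_one]

theorem exp_split (p : ℝ) : Real.exp (-p) = Real.exp (-(p / 2)) * Real.exp (-(p / 2)) := by
  rw [← Real.exp_add]; congr 1; ring

theorem gk_bound (k : ℕ) : ∃ C : ℝ, 0 ≤ C ∧ ∀ p : ℝ, 0 ≤ p →
    |gk k p| ≤ C * (p * Real.exp (-(p / 2))) := by
  have hck : 0 ≤ Hardy.ck k := by unfold Hardy.ck; positivity
  refine ⟨Hardy.ck k * ((k.factorial : ℝ) * 2 ^ k), by positivity, fun p hp => ?_⟩
  rw [Hardy.gk_eq, exp_split, abs_of_nonneg (by positivity)]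
  have h := pow_le k hp
  calc Hardy.ck k * p ^ (k + 1) * (Real.exp (-(p / 2)) * Real.exp (-(p / 2)))
      = Hardy.ck k * (p ^ k * Real.exp (-(p / 2))) * (p * Real.exp (-(p / 2))) := by ring
    _ ≤ _ := by gcongr

theorem dgk_bound (k : ℕ) : ∃ C : ℝ, 0 ≤ C ∧ ∀ p : ℝ, 0 ≤ p →
    |deriv (gk k) p| ≤ C * Real.exp (-(p / 2)) := by
  have hck : 0 ≤ Hardy.ck k := by unfold Hardy.ck; positivity
  refine ⟨Hardy.ck k * ((k + 1) * ((k.factorial : ℝ) * 2 ^ k) +
    ((k + 1).factorial : ℝ) * 2 ^ (k + 1)), by positivity, fun p hp => ?_⟩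
  rw [(Hardy.deriv_gk k p).deriv, exp_split]
  have h1 := pow_le k hp
  have h2 := pow_le (k + 1) hp
  have hE := Real.exp_pos (-(p / 2))
  have h3 : |Hardy.ck k * ((k + 1) * p ^ k - p ^ (k + 1)) *
      (Real.exp (-(p / 2)) * Real.exp (-(p / 2)))| ≤
      Hardy.ck k * ((k + 1) * p ^ k + p ^ (k + 1)) * (Real.exp (-(p / 2)) * Real.exp (-(p / 2))) := by
    rw [abs_mul, abs_mul, abs_of_nonneg hck, abs_of_pos (mul_pos hE hE)]
    have : |((k : ℝ) + 1) * p ^ k - p ^ (k + 1)| ≤ ((k : ℝ) + 1) * p ^ k + p ^ (k + 1) := by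
      refine (abs_sub _ _).trans ?_
      rw [abs_of_nonneg (by positivity), abs_of_nonneg (by positivity)]
    gcongr
  refine h3.trans ?_
  calc Hardy.ck k * ((k + 1) * p ^ k + p ^ (k + 1)) * (Real.exp (-(p / 2)) * Real.exp (-(p / 2)))
      = Hardy.ck k * ((k + 1) * (p ^ k * Real.exp (-(p / 2))) +
          (p ^ (k + 1) * Real.exp (-(p / 2)))) * Real.exp (-(p / 2)) := by ring
    _ ≤ _ := by gcongr

theorem continuous_gk (k : ℕ) : Continuous (gk k) :=
  continuous_iff_continuousAt.2 fun p => (Hardy.deriv_gk k p).continuousAt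

theorem continuous_dgk (k : ℕ) : Continuous (deriv (gk k)) := by
  have : deriv (gk k) = fun p => Hardy.ck k * ((k + 1) * p ^ k - p ^ (k + 1)) * Real.exp (-p) :=
    funext fun p => (Hardy.deriv_gk k p).deriv
  rw [this]
  fun_prop

theorem sum_bound (N : ℕ) (F : ℕ → ℝ × ℝ → ℂ) (hF : ∀ k, Continuous (F k)) (g : ℕ → ℝ → ℝ)
    (h : ℝ → ℝ)
    (hg : ∀ k, ∃ C : ℝ, 0 ≤ C ∧ ∀ p : ℝ, 0 ≤ p → |g k p| ≤ C * h p) (a b : ℝ) :
    ∃ C : ℝ, 0 ≤ C ∧ ∀ x ∈ Icc a b, ∀ φ ∈ Icc (-Real.pi) Real.pi, ∀ p : ℝ, 0 ≤ p →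
      ‖∑ k ∈ Finset.range N, F k (x, φ) * (g k p : ℂ)‖ ≤ C * h p := by
  induction N with
  | zero => exact ⟨0, le_refl _, by simp⟩
  | succ n ih =>
    obtain ⟨C1, hC1, ih⟩ := ih
    obtain ⟨C2, hC2, hg2⟩ := hg n
    obtain ⟨M, hM⟩ := ((isCompact_Icc (a := a) (b := b)).prod
      (isCompact_Icc (a := -Real.pi) (b := Real.pi))).exists_bound_of_continuousOn
      (hF n).continuousOn
    refine ⟨C1 + |M| * C2, by positivity, fun x hx φ hφ p hp => ?_⟩
    rw [Finset.sum_range_succ]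
    refine (norm_add_le _ _).trans ?_
    have h1 := ih x hx φ hφ p hp
    have h2 : ‖F n (x, φ) * (g n p : ℂ)‖ ≤ |M| * (C2 * h p) := by
      rw [norm_mul, Complex.norm_real, Real.norm_eq_abs]
      exact mul_le_mul ((hM (x, φ) ⟨hx, hφ⟩).trans (le_abs_self M)) (hg2 p hp) (abs_nonneg _)
        (abs_nonneg _)
    nlinarith

/-! ### derivatives of the coefficients -/

theorem hasDerivAt_fst {F : ℝ × ℝ → ℂ} (hF : ContDiff ℝ ∞ F) (x φ : ℝ) :
    HasDerivAt (fun x => F (x, φ)) (fderiv ℝ F (x, φ) (1, 0)) x := by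
  have h1 : HasFDerivAt F (fderiv ℝ F (x, φ)) (x, φ) :=
    (hF.differentiable (by simp) (x, φ)).hasFDerivAt
  have h2 : HasDerivAt (fun x : ℝ => (x, φ)) ((1 : ℝ), (0 : ℝ)) x :=
    (hasDerivAt_id' x).prodMk (hasDerivAt_const x φ)
  exact h1.comp_hasDerivAt x h2

theorem hasDerivAt_snd {F : ℝ × ℝ → ℂ} (hF : ContDiff ℝ ∞ F) (x φ : ℝ) :
    HasDerivAt (fun φ => F (x, φ)) (fderiv ℝ F (x, φ) (0, 1)) φ := by
  have h1 : HasFDerivAt F (fderiv ℝ F (x, φ)) (x, φ) :=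
    (hF.differentiable (by simp) (x, φ)).hasFDerivAt
  have h2 : HasDerivAt (fun φ : ℝ => (x, φ)) ((0 : ℝ), (1 : ℝ)) φ :=
    (hasDerivAt_const φ x).prodMk (hasDerivAt_id' φ)
  exact h1.comp_hasDerivAt φ h2

theorem continuous_dir {F : ℝ × ℝ → ℂ} (hF : ContDiff ℝ ∞ F) (v : ℝ × ℝ) :
    Continuous (fun q => fderiv ℝ F q v) := by
  exact (hF.continuous_fderiv (by simp)).clm_apply continuous_const

variable {A : ℕ → ℝ → ℝ → ℂ}

theorem Ux_eq (hA : AC A) (N : ℕ) (s : ℝ × ℝ × ℝ) : Ux N A s =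
    ∑ k ∈ Finset.range N, fderiv ℝ (fun q : ℝ × ℝ => A k q.1 q.2) (s.1, s.2.1) (1, 0) *
      (gk k s.2.2 : ℂ) := by
  unfold Ux
  refine Finset.sum_congr rfl fun k _ => ?_
  rw [(hasDerivAt_fst (hA.smooth k) s.1 s.2.1).deriv]

theorem Uf_eq (hA : AC A) (N : ℕ) (s : ℝ × ℝ × ℝ) : Uf N A s =
    ∑ k ∈ Finset.range N, fderiv ℝ (fun q : ℝ × ℝ => A k q.1 q.2) (s.1, s.2.1) (0, 1) *
      (gk k s.2.2 : ℂ) := by
  unfold Uf
  refine Finset.sum_congr rfl fun k _ => ?_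
  rw [(hasDerivAt_snd (hA.smooth k) s.1 s.2.1).deriv]

theorem hasDerivAt_U_x (hA : AC A) (N : ℕ) (x φ p : ℝ) :
    HasDerivAt (fun x => U N A (x, φ, p)) (Ux N A (x, φ, p)) x := by
  rw [Ux_eq hA]
  unfold U
  apply HasDerivAt.fun_sum
  intro k _
  exact (hasDerivAt_fst (hA.smooth k) x φ).mul_const (gk k p : ℂ)

theorem hasDerivAt_U_f (hA : AC A) (N : ℕ) (x φ p : ℝ) :
    HasDerivAt (fun φ => U N A (x, φ, p)) (Uf N A (x, φ, p)) φ := by
  rw [Uf_eq hA]
  unfold U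
  apply HasDerivAt.fun_sum
  intro k _
  exact (hasDerivAt_snd (hA.smooth k) x φ).mul_const (gk k p : ℂ)

theorem hasDerivAt_U_p (N : ℕ) (x φ p : ℝ) :
    HasDerivAt (fun p => U N A (x, φ, p)) (Up N A (x, φ, p)) p := by
  unfold U Up
  apply HasDerivAt.fun_sum
  intro k _
  exact ((Hardy.deriv_gk k p).differentiableAt.hasDerivAt.ofReal_comp).const_mul (A k x φ)

theorem continuous_U (hA : AC A) (N : ℕ) : Continuous (U N A) := by
  unfold U
  refine continuous_finsetSum _ fun k _ => ?_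
  have h1 : Continuous (fun s : ℝ × ℝ × ℝ => A k s.1 s.2.1) :=
    (hA.smooth k).continuous.comp (by fun_prop : Continuous fun s : ℝ × ℝ × ℝ => (s.1, s.2.1))
  have h2 := continuous_gk k
  exact h1.mul (continuous_ofReal.comp (h2.comp (by fun_prop)))

theorem continuous_Ux (hA : AC A) (N : ℕ) : Continuous (Ux N A) := by
  have : Ux N A = fun s => ∑ k ∈ Finset.range N,
    fderiv ℝ (fun q : ℝ × ℝ => A k q.1 q.2) (s.1, s.2.1) (1, 0) *
      (gk k s.2.2 : ℂ) := funext (Ux_eq hA N)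
  rw [this]
  refine continuous_finsetSum _ fun k _ => ?_
  have h1 := (continuous_dir (hA.smooth k) (1, 0)).comp
    (by fun_prop : Continuous fun s : ℝ × ℝ × ℝ => (s.1, s.2.1))
  have h2 := continuous_gk k
  exact h1.mul (continuous_ofReal.comp (h2.comp (by fun_prop)))

theorem continuous_Uf (hA : AC A) (N : ℕ) : Continuous (Uf N A) := by
  have : Uf N A = fun s => ∑ k ∈ Finset.range N,
    fderiv ℝ (fun q : ℝ × ℝ => A k q.1 q.2) (s.1, s.2.1) (0, 1) *
      (gk k s.2.2 : ℂ) := funext (Uf_eq hA N)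
  rw [this]
  refine continuous_finsetSum _ fun k _ => ?_
  have h1 := (continuous_dir (hA.smooth k) (0, 1)).comp
    (by fun_prop : Continuous fun s : ℝ × ℝ × ℝ => (s.1, s.2.1))
  have h2 := continuous_gk k
  exact h1.mul (continuous_ofReal.comp (h2.comp (by fun_prop)))

theorem continuous_Up (hA : AC A) (N : ℕ) : Continuous (Up N A) := by
  unfold Up
  refine continuous_finsetSum _ fun k _ => ?_
  have h1 : Continuous (fun s : ℝ × ℝ × ℝ => A k s.1 s.2.1) :=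
    (hA.smooth k).continuous.comp (by fun_prop : Continuous fun s : ℝ × ℝ × ℝ => (s.1, s.2.1))
  have h2 := continuous_dgk k
  exact h1.mul (continuous_ofReal.comp (h2.comp (by fun_prop)))

/-- uniform bounds -/
theorem U_bounds (hA : AC A) (N : ℕ) (a b : ℝ) : ∃ C : ℝ, 0 ≤ C ∧
    ∀ x ∈ Icc a b, ∀ φ ∈ Icc (-Real.pi) Real.pi, ∀ p : ℝ, 0 ≤ p →
      ‖U N A (x, φ, p)‖ ≤ C * (p * Real.exp (-(p / 2))) ∧
      ‖Ux N A (x, φ, p)‖ ≤ C * (p * Real.exp (-(p / 2))) ∧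
      ‖Uf N A (x, φ, p)‖ ≤ C * (p * Real.exp (-(p / 2))) ∧
      ‖Up N A (x, φ, p)‖ ≤ C * Real.exp (-(p / 2)) := by
  have hh : ∀ p : ℝ, 0 ≤ p → 0 ≤ p * Real.exp (-(p / 2)) := fun p hp => by positivity
  obtain ⟨C1, h1, H1⟩ := sum_bound N (fun k q => A k q.1 q.2)
    (fun k => (hA.smooth k).continuous) gk _ gk_bound a b
  obtain ⟨C2, h2, H2⟩ := sum_bound N
    (fun k q => fderiv ℝ (fun q : ℝ × ℝ => A k q.1 q.2) q (1, 0))
    (fun k => continuous_dir (hA.smooth k) _) gk _ gk_bound a b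
  obtain ⟨C3, h3, H3⟩ := sum_bound N
    (fun k q => fderiv ℝ (fun q : ℝ × ℝ => A k q.1 q.2) q (0, 1))
    (fun k => continuous_dir (hA.smooth k) _) gk _ gk_bound a b
  obtain ⟨C4, h4, H4⟩ := sum_bound N (fun k q => A k q.1 q.2)
    (fun k => (hA.smooth k).continuous) (fun k => deriv (gk k)) _ dgk_bound a b
  refine ⟨C1 + C2 + C3 + C4, by positivity, fun x hx φ hφ p hp => ?_⟩
  have hp' := hh p hp
  have hE := (Real.exp_pos (-(p / 2))).le
  refine ⟨(H1 x hx φ hφ p hp).trans ?_, ?_, ?_, (H4 x hx φ hφ p hp).trans ?_⟩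
  · exact mul_le_mul_of_nonneg_right (by linarith) hp'
  · rw [Ux_eq hA]
    exact (H2 x hx φ hφ p hp).trans (mul_le_mul_of_nonneg_right (by linarith) hp')
  · rw [Uf_eq hA]
    exact (H3 x hx φ hφ p hp).trans (mul_le_mul_of_nonneg_right (by linarith) hp')
  · exact mul_le_mul_of_nonneg_right (by linarith) hE

/-! ### domination -/

theorem restrict_S3 (a b : ℝ) : (volume : Measure (ℝ × ℝ × ℝ)).restrict (S3 a b) =
    ((volume : Measure ℝ).restrict (Ioo a b)).prod ((volume : Measure (ℝ × ℝ)).restrict S2) := by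
  rw [Measure.volume_eq_prod, S3, Measure.prod_restrict]

theorem restrict_S2 : (volume : Measure (ℝ × ℝ)).restrict S2 =
    ((volume : Measure ℝ).restrict (Ioo (-Real.pi) Real.pi)).prod
      ((volume : Measure ℝ).restrict (Ioi 0)) := by
  rw [Measure.volume_eq_prod, S2, Measure.prod_restrict]

theorem int_exp : IntegrableOn (fun p : ℝ => Real.exp (-(p / 2))) (Ioi 0) := by
  have := exp_neg_integrableOn_Ioi 0 (by norm_num : (0 : ℝ) < 1 / 2)
  refine this.congr_fun (fun p _ => ?_) measurableSet_Ioi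
  simp only
  congr 1
  ring

theorem measurableSet_S2 : MeasurableSet S2 := measurableSet_Ioo.prod measurableSet_Ioi

theorem measurableSet_S3 (a b : ℝ) : MeasurableSet (S3 a b) :=
  measurableSet_Ioo.prod measurableSet_S2

theorem dom1 {f : ℝ → ℝ} {C : ℝ} (hc : ContinuousOn f (Ioi 0))
    (hb : ∀ p ∈ Ioi (0 : ℝ), |f p| ≤ C * Real.exp (-(p / 2))) : IntegrableOn f (Ioi 0) := by
  refine Integrable.mono' (int_exp.const_mul C) (hc.aestronglyMeasurable measurableSet_Ioi) ?_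
  exact (ae_restrict_mem measurableSet_Ioi).mono fun p hp => hb p hp

theorem dom2 {f : ℝ × ℝ → ℝ} {C : ℝ} (hc : ContinuousOn f S2)
    (hb : ∀ q ∈ S2, |f q| ≤ C * Real.exp (-(q.2 / 2))) : IntegrableOn f S2 := by
  have hg : IntegrableOn (fun q : ℝ × ℝ => Real.exp (-(q.2 / 2))) S2 := by
    rw [IntegrableOn, restrict_S2]
    exact int_exp.comp_snd _
  refine Integrable.mono' (hg.const_mul C) (hc.aestronglyMeasurable measurableSet_S2) ?_
  exact (ae_restrict_mem measurableSet_S2).mono fun p hp => hb p hp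

theorem dom3 {a b : ℝ} {f : ℝ × ℝ × ℝ → ℝ} {C : ℝ} (hc : ContinuousOn f (S3 a b))
    (hb : ∀ s ∈ S3 a b, |f s| ≤ C * Real.exp (-(s.2.2 / 2))) : IntegrableOn f (S3 a b) := by
  have hg2 : IntegrableOn (fun q : ℝ × ℝ => Real.exp (-(q.2 / 2))) S2 := by
    rw [IntegrableOn, restrict_S2]
    exact int_exp.comp_snd _
  have hg : IntegrableOn (fun s : ℝ × ℝ × ℝ => Real.exp (-(s.2.2 / 2))) (S3 a b) := by
    rw [IntegrableOn, restrict_S3]
    exact hg2.comp_snd _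
  refine Integrable.mono' (hg.const_mul C) (hc.aestronglyMeasurable (measurableSet_S3 a b)) ?_
  exact (ae_restrict_mem (measurableSet_S3 a b)).mono fun p hp => hb p hp

end GSI

end Pool.Agent.DbarN
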