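import Pool.Agent.DbarN.GSI3

set_option autoImplicit false

/-!
# DBAR GSI, part 4: continuity of the weights, the exact derivative terms
-/

namespace Pool.Agent.DbarN

open MeasureTheory Complex Set Filter Topology
open scoped ComplexConjugate ContDiff

namespace GSI

variable {G : Ground} (P : Par G)

/-- `[a,b] × ℝ × (0,∞)` -/
def E3 (G : Ground) : Set (ℝ × ℝ × ℝ) := Icc G.a G.b ×ˢ ((univ : Set ℝ) ×ˢ Ioi (0 : ℝ))

theorem S3_sub : S3 G.a G.b ⊆ E3 G := by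
  intro s hs
  exact ⟨Ioo_subset_Icc_self hs.1, mem_univ _, hs.2.2⟩

theorem cont_rr {s : ℝ × ℝ × ℝ} (hs : 0 < s.2.2) : ContinuousAt (fun s : ℝ × ℝ × ℝ => rr P.T s.2.2) s := by
  have h1 : ContinuousAt (rr P.T) s.2.2 := (hasDerivAt_rr P.hT hs).continuousAt
  exact ContinuousAt.comp (f := fun s : ℝ × ℝ × ℝ => s.2.2) h1 (by fun_prop)

theorem cont_tt {s : ℝ × ℝ × ℝ} (hs : 0 < s.2.2) : ContinuousAt (fun s : ℝ × ℝ × ℝ => tt P.T s.2.2) s := by
  have h1 : ContinuousAt (tt P.T) s.2.2 := (hasDerivAt_tt hs).continuousAt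
  exact ContinuousAt.comp (f := fun s : ℝ × ℝ × ℝ => s.2.2) h1 (by fun_prop)

theorem cont_φ (s : ℝ × ℝ × ℝ) : ContinuousAt (fun s : ℝ × ℝ × ℝ => G.φ s.1) s := by
  have h1 : ContinuousAt G.φ s.1 := (Par.dφ s.1).continuousAt
  exact ContinuousAt.comp (f := fun s : ℝ × ℝ × ℝ => s.1) h1 (by fun_prop)

theorem cont_φ' (s : ℝ × ℝ × ℝ) : ContinuousAt (fun s : ℝ × ℝ × ℝ => deriv G.φ s.1) s := by
  have h1 : ContinuousAt (deriv G.φ) s.1 := (Par.ddφ s.1).continuousAt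
  exact ContinuousAt.comp (f := fun s : ℝ × ℝ × ℝ => s.1) h1 (by fun_prop)

theorem cont_chi (s : ℝ × ℝ × ℝ) : ContinuousAt (fun s : ℝ × ℝ × ℝ => chi G P.K s.1) s := by
  unfold chi
  fun_prop

section
variable {s : ℝ × ℝ × ℝ} (hs : 0 < s.2.2)
include hs

theorem rr_ne : rr P.T s.2.2 ≠ 0 := by
  have := rr_ge P.hT hs
  positivity

theorem cont_H : ContinuousAt (fun s : ℝ × ℝ × ℝ => P.H s.1 s.2.2) s := by
  have h0 := rr_ne P hs
  have h1 := cont_rr P hs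
  have h2 := cont_φ (G := G) s
  have h3 := cont_chi P s
  unfold Par.H
  exact (h1.mul h2).add ((continuousAt_const.div (h1.pow 3) (pow_ne_zero _ h0)).mul h3)

theorem cont_Hx : ContinuousAt (fun s : ℝ × ℝ × ℝ => P.Hx s.1 s.2.2) s := by
  have h0 := rr_ne P hs
  have h1 := cont_rr P hs
  have h2 := cont_φ' (G := G) s
  unfold Par.Hx
  exact (h1.mul h2).add ((continuousAt_const.div (h1.pow 3) (pow_ne_zero _ h0)).mul (by fun_prop))

theorem cont_Hxx : ContinuousAt (fun s : ℝ × ℝ × ℝ => P.Hxx s.1 s.2.2) s := by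
  have h0 := rr_ne P hs
  have h1 := cont_rr P hs
  have h2 := cont_φ (G := G) s
  unfold Par.Hxx
  have h3 : ContinuousAt (fun s : ℝ × ℝ × ℝ => Real.exp (2 * s.1)) s := by fun_prop
  exact (h1.mul (h3.mul h2)).neg.sub ((continuousAt_const.div (h1.pow 3) (pow_ne_zero _ h0)).mul
    continuousAt_const)

theorem cont_H1 : ContinuousAt (fun s : ℝ × ℝ × ℝ => P.H1 s.1 s.2.2) s := by
  have h0 := rr_ne P hs
  have h1 := cont_rr P hs
  have h2 := cont_φ (G := G) s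
  have h3 := cont_chi P s
  have h4 : ContinuousAt (fun s : ℝ × ℝ × ℝ => 1 + s.2.2) s := by fun_prop
  have h5 : 1 + s.2.2 ≠ 0 := by positivity
  unfold Par.H1
  exact ((h2.div ((continuousAt_const.mul h1).mul h4)
    (mul_ne_zero (mul_ne_zero two_ne_zero h0) h5)).neg).add
    ((continuousAt_const.mul h3).div ((h1.pow 5).mul h4) (mul_ne_zero (pow_ne_zero _ h0) h5))

theorem cont_H2 : ContinuousAt (fun s : ℝ × ℝ × ℝ => P.H2 s.1 s.2.2) s := by
  have h0 := rr_ne P hs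
  have h1 := cont_rr P hs
  have h2 := cont_φ (G := G) s
  have h3 := cont_chi P s
  have h4 : ContinuousAt (fun s : ℝ × ℝ × ℝ => 1 + s.2.2) s := by fun_prop
  have h6 : ContinuousAt (fun s : ℝ × ℝ × ℝ => s.2.2) s := by fun_prop
  have h5 : 1 + s.2.2 ≠ 0 := by positivity
  unfold Par.H2
  have n1 : ∀ c : ℝ, c ≠ 0 → ∀ k : ℕ, c * rr P.T s.2.2 ^ k * (1 + s.2.2) ^ 2 ≠ 0 := fun c hc k =>
    mul_ne_zero (mul_ne_zero hc (pow_ne_zero _ h0)) (pow_ne_zero _ h5)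
  refine (h2.mul (((continuousAt_const.div ((continuousAt_const.mul (h1.pow 3)).mul (h4.pow 2))
    (n1 _ (by norm_num) 3)).neg).add (h6.div ((continuousAt_const.mul h1).mul (h4.pow 2))
    (mul_ne_zero (mul_ne_zero two_ne_zero h0) (pow_ne_zero _ h5))))).add
    (h3.mul ((continuousAt_const.div ((continuousAt_const.mul
    (h1.pow 7)).mul (h4.pow 2)) (n1 _ (by norm_num) 7)).sub ((continuousAt_const.mul h6).div
    ((continuousAt_const.mul (h1.pow 5)).mul (h4.pow 2)) (n1 _ (by norm_num) 5))))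

end

theorem cont_w1 : ContinuousOn (fun s : ℝ × ℝ × ℝ => P.w1 s.1 s.2.2) (E3 G) := fun _ hs =>
  ((cont_Hx P hs.2.2).div (cont_H P hs.2.2) (P.H_pos hs.1 hs.2.2).ne').continuousWithinAt

theorem cont_w2 : ContinuousOn (fun s : ℝ × ℝ × ℝ => P.w2 s.1 s.2.2) (E3 G) := fun _ hs =>
  ((cont_H1 P hs.2.2).div (cont_H P hs.2.2) (P.H_pos hs.1 hs.2.2).ne').continuousWithinAt

theorem cont_v1 : ContinuousOn (fun s : ℝ × ℝ × ℝ => P.v1 s.1 s.2.2) (E3 G) := fun _ hs =>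
  ((cont_Hxx P hs.2.2).div (cont_H P hs.2.2) (P.H_pos hs.1 hs.2.2).ne').continuousWithinAt

theorem cont_v2 : ContinuousOn (fun s : ℝ × ℝ × ℝ => P.v2 s.1 s.2.2) (E3 G) := fun _ hs =>
  ((cont_H2 P hs.2.2).div (cont_H P hs.2.2) (P.H_pos hs.1 hs.2.2).ne').continuousWithinAt

theorem cont_p : ContinuousOn (fun s : ℝ × ℝ × ℝ => s.2.2) (E3 G) := by fun_prop

theorem p_ne : ∀ s ∈ E3 G, s.2.2 ≠ 0 := fun _ hs => ne_of_gt hs.2.2

variable (N : ℕ) (A : ℕ → ℝ → ℝ → ℂ)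

/-- `∂_x (w₁ ‖U‖² / p)` -/
noncomputable def d1 (s : ℝ × ℝ × ℝ) : ℝ :=
  (2 * P.w1 s.1 s.2.2 * inner ℝ (U N A s) (Ux N A s) +
    (P.v1 s.1 s.2.2 - P.w1 s.1 s.2.2 ^ 2) * ‖U N A s‖ ^ 2) / s.2.2

/-- `∂_p (w₂ ‖U‖²)` -/
noncomputable def d2a (s : ℝ × ℝ × ℝ) : ℝ :=
  2 * P.w2 s.1 s.2.2 * inner ℝ (U N A s) (Up N A s) +
    (P.v2 s.1 s.2.2 - P.w2 s.1 s.2.2 ^ 2) * ‖U N A s‖ ^ 2 / s.2.2

/-- `∂_φ (w₂ ‖U‖² / p)` -/
noncomputable def d2b (s : ℝ × ℝ × ℝ) : ℝ :=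
  2 * P.w2 s.1 s.2.2 * inner ℝ (U N A s) (Uf N A s) / s.2.2

variable {N A}

theorem cont_d1 (hA : AC A) : ContinuousOn (d1 P N A) (E3 G) := by
  unfold d1
  have h1 := (continuous_U hA N).continuousOn (s := E3 G)
  have h2 := (continuous_Ux hA N).continuousOn (s := E3 G)
  exact ((((continuousOn_const.mul (cont_w1 P)).mul (h1.inner h2)).add
    (((cont_v1 P).sub ((cont_w1 P).pow 2)).mul (h1.norm.pow 2))).div cont_p p_ne)

theorem cont_d2a (hA : AC A) : ContinuousOn (d2a P N A) (E3 G) := by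
  unfold d2a
  have h1 := (continuous_U hA N).continuousOn (s := E3 G)
  have h2 := (continuous_Up hA N).continuousOn (s := E3 G)
  exact ((continuousOn_const.mul (cont_w2 P)).mul (h1.inner h2)).add
    ((((cont_v2 P).sub ((cont_w2 P).pow 2)).mul (h1.norm.pow 2)).div cont_p p_ne)

theorem cont_d2b (hA : AC A) : ContinuousOn (d2b P N A) (E3 G) := by
  unfold d2b
  have h1 := (continuous_U hA N).continuousOn (s := E3 G)
  have h2 := (continuous_Uf hA N).continuousOn (s := E3 G)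
  exact ((continuousOn_const.mul (cont_w2 P)).mul (h1.inner h2)).div cont_p p_ne

/-! ### bounds -/

theorem tt4 (T : ℝ) (hT : 4 ≤ T) : ∃ C : ℝ, 0 ≤ C ∧ ∀ p : ℝ, 0 < p →
    p * tt T p ^ 4 * Real.exp (-(p / 2)) ≤ C := by
  refine ⟨(8 * T ^ 4 + 192) * 3, by positivity, fun p hp => ?_⟩
  have h0 := log_nonneg' hp
  set y := Real.log (1 + 1 / p) with hy
  have hey : Real.exp y = 1 + 1 / p := Real.exp_log (by positivity)
  have h1 : y ^ 4 ≤ 24 * (1 + 1 / p) := by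
    have := Real.pow_div_factorial_le_exp y h0 4
    rw [hey, div_le_iff₀ (by positivity)] at this
    have h24 : ((4 : ℕ).factorial : ℝ) = 24 := by norm_num [Nat.factorial]
    rw [h24] at this
    linarith
  have h2 : tt T p ^ 4 ≤ 8 * (T ^ 4 + y ^ 4) := by
    unfold tt
    rw [← hy]
    nlinarith [sq_nonneg (T - y), sq_nonneg (T + y), sq_nonneg (T ^ 2 - y ^ 2),
      sq_nonneg (T ^ 2 + y ^ 2), mul_nonneg (sq_nonneg (T - y)) (sq_nonneg (T + y)),
      mul_nonneg (sq_nonneg (T - y)) (sq_nonneg (T - y)), sq_nonneg ((T - y) * (T + y)),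
      mul_nonneg (sq_nonneg T) (sq_nonneg (T - y)), mul_nonneg (sq_nonneg y) (sq_nonneg (T - y)),
      mul_nonneg (mul_nonneg (by linarith : (0 : ℝ) ≤ T) h0) (sq_nonneg (T - y))]
  have h3 : p * tt T p ^ 4 ≤ (8 * T ^ 4 + 192) * (1 + p) := by
    have h4 : p * tt T p ^ 4 ≤ p * (8 * (T ^ 4 + 24 * (1 + 1 / p))) := by
      apply mul_le_mul_of_nonneg_left _ hp.le
      linarith
    have h5 : p * (8 * (T ^ 4 + 24 * (1 + 1 / p))) = 8 * T ^ 4 * p + 192 * (1 + p) := by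
      field_simp
      ring
    rw [h5] at h4
    have : 0 ≤ 8 * T ^ 4 := by positivity
    linarith
  have h6 := pow_le 1 hp.le
  have hE1 : Real.exp (-(p / 2)) ≤ 1 := Real.exp_le_one_iff.2 (by linarith)
  have hE := Real.exp_pos (-(p / 2))
  simp only [pow_one, Nat.factorial_one, Nat.cast_one, one_mul] at h6
  calc p * tt T p ^ 4 * Real.exp (-(p / 2)) ≤ (8 * T ^ 4 + 192) * (1 + p) * Real.exp (-(p / 2)) :=
        mul_le_mul_of_nonneg_right h3 hE.le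
    _ = (8 * T ^ 4 + 192) * (Real.exp (-(p / 2)) + p * Real.exp (-(p / 2))) := by ring
    _ ≤ (8 * T ^ 4 + 192) * 3 := by
        apply mul_le_mul_of_nonneg_left _ (by positivity)
        linarith

theorem d1_bound (hA : AC A) : ∃ C : ℝ, ∀ x ∈ Icc G.a G.b, ∀ φ ∈ Icc (-Real.pi) Real.pi,
    ∀ p : ℝ, 0 < p → |d1 P N A (x, φ, p)| ≤ C * Real.exp (-(p / 2)) := by
  obtain ⟨Cu, hCu, hU⟩ := U_bounds hA N G.a G.b
  obtain ⟨Cw, hCw, hW⟩ := P.bounds
  obtain ⟨Ct, hCt, ht4⟩ := tt4 P.T P.hT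
  refine ⟨(3 * Cw + Cw ^ 2) * Cu ^ 2 * Ct, fun x hx φ hφ p hp => ?_⟩
  obtain ⟨u1, u2, -, -⟩ := hU x hx φ hφ p hp.le
  obtain ⟨w1, -, w3, -⟩ := hW x hx p hp
  have ht := ht4 p hp
  have htt : 1 ≤ tt P.T p := by
    have := tt_ge (T := P.T) hp
    have := P.hT
    linarith
  unfold d1
  simp only
  set t := tt P.T p
  set E := Real.exp (-(p / 2))
  have hE : 0 < E := Real.exp_pos _
  set u := U N A (x, φ, p)
  set ux := Ux N A (x, φ, p)
  have hin : |(inner ℝ u ux : ℝ)| ≤ (Cu * (p * E)) * (Cu * (p * E)) :=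
    (abs_real_inner_le_norm _ _).trans (mul_le_mul u1 u2 (norm_nonneg _) (by positivity))
  have hu2 : ‖u‖ ^ 2 ≤ (Cu * (p * E)) * (Cu * (p * E)) := by
    rw [sq]; exact mul_le_mul u1 u1 (norm_nonneg _) (by positivity)
  have ht2 : t ^ 2 ≤ t ^ 4 := by
    have : 1 ≤ t ^ 2 := one_le_pow₀ htt
    nlinarith
  have ht4' : 1 ≤ t ^ 4 := one_le_pow₀ htt
  have hw1 : |P.w1 x p| ≤ Cw * t ^ 4 := w1.trans (mul_le_mul_of_nonneg_left ht2 hCw)
  have hw1s : |P.w1 x p ^ 2| ≤ Cw ^ 2 * t ^ 4 := by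
    rw [abs_pow]
    calc |P.w1 x p| ^ 2 ≤ (Cw * t ^ 2) ^ 2 := pow_le_pow_left₀ (abs_nonneg _) w1 2
      _ = _ := by ring
  have hv1 : |P.v1 x p| ≤ Cw * t ^ 4 := w3.trans (le_mul_of_one_le_right hCw ht4')
  have hnum : |2 * P.w1 x p * inner ℝ u ux + (P.v1 x p - P.w1 x p ^ 2) * ‖u‖ ^ 2| ≤
      (3 * Cw + Cw ^ 2) * t ^ 4 * ((Cu * (p * E)) * (Cu * (p * E))) := by
    refine (abs_add_le _ _).trans ?_
    have a1 : |2 * P.w1 x p * inner ℝ u ux| ≤ 2 * (Cw * t ^ 4) * ((Cu * (p * E)) * (Cu * (p * E))) := by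
      rw [abs_mul, abs_mul, abs_of_nonneg (by norm_num : (0 : ℝ) ≤ 2)]
      exact mul_le_mul (mul_le_mul_of_nonneg_left hw1 (by norm_num)) hin (abs_nonneg _)
        (by positivity)
    have a2 : |(P.v1 x p - P.w1 x p ^ 2) * ‖u‖ ^ 2| ≤
        (Cw * t ^ 4 + Cw ^ 2 * t ^ 4) * ((Cu * (p * E)) * (Cu * (p * E))) := by
      rw [abs_mul, abs_of_nonneg (by positivity : 0 ≤ ‖u‖ ^ 2)]
      refine mul_le_mul ((abs_sub _ _).trans (add_le_add hv1 hw1s)) hu2 (by positivity)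
        (by positivity)
    nlinarith
  rw [abs_div, abs_of_pos hp, div_le_iff₀ hp]
  refine hnum.trans ?_
  have : (3 * Cw + Cw ^ 2) * t ^ 4 * ((Cu * (p * E)) * (Cu * (p * E))) =
      (3 * Cw + Cw ^ 2) * Cu ^ 2 * (p * t ^ 4 * E) * E * p := by ring
  rw [this]
  gcongr

theorem d2a_bound (hA : AC A) : ∃ C : ℝ, ∀ x ∈ Icc G.a G.b, ∀ φ ∈ Icc (-Real.pi) Real.pi,
    ∀ p : ℝ, 0 < p → |d2a P N A (x, φ, p)| ≤ C * Real.exp (-(p / 2)) := by
  obtain ⟨Cu, hCu, hU⟩ := U_bounds hA N G.a G.b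
  obtain ⟨Cw, hCw, hW⟩ := P.bounds
  refine ⟨(3 * Cw + Cw ^ 2) * Cu ^ 2 * 2, fun x hx φ hφ p hp => ?_⟩
  obtain ⟨u1, -, -, u4⟩ := hU x hx φ hφ p hp.le
  obtain ⟨-, w2, -, w4⟩ := hW x hx p hp
  have h6 := pow_le 1 hp.le
  simp only [pow_one, Nat.factorial_one, Nat.cast_one, one_mul] at h6
  unfold d2a
  simp only
  set E := Real.exp (-(p / 2))
  have hE : 0 < E := Real.exp_pos _
  set u := U N A (x, φ, p)
  set up := Up N A (x, φ, p)
  have hin : |(inner ℝ u up : ℝ)| ≤ (Cu * (p * E)) * (Cu * E) :=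
    (abs_real_inner_le_norm _ _).trans (mul_le_mul u1 u4 (norm_nonneg _) (by positivity))
  have hu2 : ‖u‖ ^ 2 ≤ (Cu * (p * E)) * (Cu * (p * E)) := by
    rw [sq]; exact mul_le_mul u1 u1 (norm_nonneg _) (by positivity)
  have hu3 : ‖u‖ ^ 2 / p ≤ (Cu * (p * E)) * (Cu * E) := by
    rw [div_le_iff₀ hp]
    linarith
  have hw2s : |P.w2 x p ^ 2| ≤ Cw ^ 2 := by
    rw [abs_pow]
    exact pow_le_pow_left₀ (abs_nonneg _) w2 2
  refine (abs_add_le _ _).trans ?_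
  have a1 : |2 * P.w2 x p * inner ℝ u up| ≤ 2 * Cw * ((Cu * (p * E)) * (Cu * E)) := by
    rw [abs_mul, abs_mul, abs_of_nonneg (by norm_num : (0 : ℝ) ≤ 2)]
    exact mul_le_mul (mul_le_mul_of_nonneg_left w2 (by norm_num)) hin (abs_nonneg _)
      (by positivity)
  have a2 : |(P.v2 x p - P.w2 x p ^ 2) * ‖u‖ ^ 2 / p| ≤
      (Cw + Cw ^ 2) * ((Cu * (p * E)) * (Cu * E)) := by
    rw [mul_div_assoc, abs_mul, abs_of_nonneg (by positivity : 0 ≤ ‖u‖ ^ 2 / p)]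
    refine mul_le_mul ((abs_sub _ _).trans (add_le_add w4 hw2s)) hu3 (by positivity)
      (by positivity)
  have a3 : (3 * Cw + Cw ^ 2) * ((Cu * (p * E)) * (Cu * E)) ≤
      (3 * Cw + Cw ^ 2) * Cu ^ 2 * 2 * E := by
    have : (3 * Cw + Cw ^ 2) * ((Cu * (p * E)) * (Cu * E)) =
        (3 * Cw + Cw ^ 2) * Cu ^ 2 * (p * E) * E := by ring
    rw [this]
    gcongr
  nlinarith

theorem d2b_bound (hA : AC A) : ∃ C : ℝ, ∀ x ∈ Icc G.a G.b, ∀ φ ∈ Icc (-Real.pi) Real.pi,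
    ∀ p : ℝ, 0 < p → |d2b P N A (x, φ, p)| ≤ C * Real.exp (-(p / 2)) := by
  obtain ⟨Cu, hCu, hU⟩ := U_bounds hA N G.a G.b
  obtain ⟨Cw, hCw, hW⟩ := P.bounds
  refine ⟨2 * Cw * Cu ^ 2 * 2, fun x hx φ hφ p hp => ?_⟩
  obtain ⟨u1, -, u3, -⟩ := hU x hx φ hφ p hp.le
  obtain ⟨-, w2, -, -⟩ := hW x hx p hp
  have h6 := pow_le 1 hp.le
  simp only [pow_one, Nat.factorial_one, Nat.cast_one, one_mul] at h6
  unfold d2b
  simp only
  set E := Real.exp (-(p / 2))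
  have hE : 0 < E := Real.exp_pos _
  set u := U N A (x, φ, p)
  set uf := Uf N A (x, φ, p)
  have hin : |(inner ℝ u uf : ℝ)| ≤ (Cu * (p * E)) * (Cu * (p * E)) :=
    (abs_real_inner_le_norm _ _).trans (mul_le_mul u1 u3 (norm_nonneg _) (by positivity))
  have a1 : |2 * P.w2 x p * inner ℝ u uf| ≤ 2 * Cw * ((Cu * (p * E)) * (Cu * (p * E))) := by
    rw [abs_mul, abs_mul, abs_of_nonneg (by norm_num : (0 : ℝ) ≤ 2)]
    exact mul_le_mul (mul_le_mul_of_nonneg_left w2 (by norm_num)) hin (abs_nonneg _)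
      (by positivity)
  rw [abs_div, abs_of_pos hp, div_le_iff₀ hp]
  refine a1.trans ?_
  have : 2 * Cw * ((Cu * (p * E)) * (Cu * (p * E))) =
      2 * Cw * Cu ^ 2 * (p * E) * E * p := by ring
  rw [this]
  gcongr

/-! ### the one dimensional integrals -/

theorem cont_slice_x {f : ℝ × ℝ × ℝ → ℝ} (hf : ContinuousOn f (E3 G)) {φ p : ℝ} (hp : 0 < p) :
    ContinuousOn (fun x => f (x, φ, p)) (Icc G.a G.b) :=
  hf.comp (by fun_prop) fun _ hx => ⟨hx, mem_univ _, hp⟩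

theorem cont_slice_q {f : ℝ × ℝ × ℝ → ℝ} (hf : ContinuousOn f (E3 G)) {x : ℝ}
    (hx : x ∈ Icc G.a G.b) : ContinuousOn (fun q : ℝ × ℝ => f (x, q)) (univ ×ˢ Ioi 0) :=
  hf.comp (by fun_prop) fun _ hq => ⟨hx, hq⟩

theorem int_d1_x (hA : AC A) (φ : ℝ) {p : ℝ} (hp : 0 < p) :
    ∫ x in Ioo G.a G.b, d1 P N A (x, φ, p) =
      (P.w1 G.b p * ‖U N A (G.b, φ, p)‖ ^ 2 - P.w1 G.a p * ‖U N A (G.a, φ, p)‖ ^ 2) / p := by
  have hcont := cont_slice_x (cont_d1 P (N := N) hA) (φ := φ) hp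
  have hder : ∀ x ∈ uIcc G.a G.b, HasDerivAt (fun x => P.w1 x p * ‖U N A (x, φ, p)‖ ^ 2 / p)
      (d1 P N A (x, φ, p)) x := by
    intro x hx
    rw [uIcc_of_le G.hab.le] at hx
    refine (((P.hasDerivAt_w1 hx hp).fun_mul
      (hasDerivAt_U_x hA N x φ p).norm_sq).div_const p).congr_deriv ?_
    unfold d1
    simp only
    ring
  have h := intervalIntegral.integral_eq_sub_of_hasDerivAt hder
    (hcont.intervalIntegrable_of_Icc G.hab.le)
  rw [intervalIntegral.integral_of_le G.hab.le, integral_Ioc_eq_integral_Ioo] at h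
  rw [h]
  ring

theorem int_d2b_f (hA : AC A) {x : ℝ} (hx : x ∈ Icc G.a G.b) {p : ℝ} (hp : 0 < p) :
    ∫ φ in Ioo (-Real.pi) Real.pi, d2b P N A (x, φ, p) = 0 := by
  have hcont : ContinuousOn (fun φ => d2b P N A (x, φ, p)) (Icc (-Real.pi) Real.pi) :=
    (cont_d2b P (N := N) hA).comp (by fun_prop) fun _ _ => ⟨hx, mem_univ _, hp⟩
  have hpi : -Real.pi ≤ Real.pi := by have := Real.pi_pos; linarith
  have hder : ∀ φ ∈ uIcc (-Real.pi) Real.pi,
      HasDerivAt (fun φ => P.w2 x p * ‖U N A (x, φ, p)‖ ^ 2 / p) (d2b P N A (x, φ, p)) φ := by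
    intro φ _
    refine (((hasDerivAt_U_f hA N x φ p).norm_sq.const_mul (P.w2 x p)).div_const p).congr_deriv ?_
    unfold d2b
    simp only
    ring
  have h := intervalIntegral.integral_eq_sub_of_hasDerivAt hder
    (hcont.intervalIntegrable_of_Icc hpi)
  rw [intervalIntegral.integral_of_le hpi, integral_Ioc_eq_integral_Ioo] at h
  rw [h]
  have hper : U N A (x, Real.pi, p) = U N A (x, -Real.pi, p) := by
    unfold U
    refine Finset.sum_congr rfl fun k _ => ?_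
    simp only
    rw [← hA.per k x (-Real.pi)]
    congr 2
    ring
  rw [hper, sub_self]

theorem int_d2a_p (hA : AC A) {x : ℝ} (hx : x ∈ Icc G.a G.b) {φ : ℝ}
    (hφ : φ ∈ Icc (-Real.pi) Real.pi) :
    ∫ p in Ioi (0 : ℝ), d2a P N A (x, φ, p) = 0 := by
  obtain ⟨C, hC⟩ := d2a_bound P (N := N) hA
  have hcont : ContinuousOn (fun p => d2a P N A (x, φ, p)) (Ioi 0) :=
    (cont_d2a P (N := N) hA).comp (by fun_prop) fun _ hp => ⟨hx, mem_univ _, hp⟩
  have hint : IntegrableOn (fun p => d2a P N A (x, φ, p)) (Ioi 0) :=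
    dom1 hcont (fun p hp => hC x hx φ hφ p hp)
  obtain ⟨Cu, hCu, hU⟩ := U_bounds hA N G.a G.b
  obtain ⟨Cw, hCw, hW⟩ := P.bounds
  set F : ℝ → ℝ := fun p => P.w2 x p * ‖U N A (x, φ, p)‖ ^ 2 with hF
  have hder : ∀ p ∈ Ioi (0 : ℝ), HasDerivAt F (d2a P N A (x, φ, p)) p := by
    intro p hp
    have hp : 0 < p := hp
    refine ((P.hasDerivAt_w2 hx hp).fun_mul (hasDerivAt_U_p N x φ p).norm_sq).congr_deriv ?_
    unfold d2a
    simp only
    ring
  have hbd : ∀ p : ℝ, 0 ≤ p → ‖F p‖ ≤ Cw * (Cu * (p * Real.exp (-(p / 2)))) ^ 2 := by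
    intro p hp
    rcases hp.eq_or_lt with h | h
    · have : U N A (x, φ, p) = 0 := by
        have := (hU x hx φ hφ p hp).1
        rw [← h] at this ⊢
        simpa using this
      simp only [hF, this]
      simp only [norm_zero, ne_eq, OfNat.ofNat_ne_zero, not_false_eq_true, zero_pow, mul_zero]
      positivity
    · simp only [hF, norm_mul, norm_pow, Real.norm_eq_abs, abs_norm]
      exact mul_le_mul (hW x hx p h).2.1 (pow_le_pow_left₀ (norm_nonneg _) (hU x hx φ hφ p hp).1 2)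
        (by positivity) hCw
  have hF0 : F 0 = 0 := by
    have := hbd 0 (le_refl _)
    simpa using this
  have hc0 : ContinuousWithinAt F (Ici 0) 0 := by
    rw [ContinuousWithinAt, hF0]
    rw [tendsto_zero_iff_norm_tendsto_zero]
    have h1 : Tendsto (fun p : ℝ => Cw * (Cu * (p * Real.exp (-(p / 2)))) ^ 2) (𝓝[Ici 0] 0) (𝓝 0) := by
      have : Continuous (fun p : ℝ => Cw * (Cu * (p * Real.exp (-(p / 2)))) ^ 2) := by fun_prop
      have h2 := this.continuousWithinAt (s := Ici 0) (x := 0)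
      simpa [ContinuousWithinAt] using h2
    refine squeeze_zero' (Eventually.of_forall fun _ => norm_nonneg _) ?_ h1
    filter_upwards [self_mem_nhdsWithin] with p hp using hbd p hp
  have htop : Tendsto F atTop (𝓝 0) := by
    rw [tendsto_zero_iff_norm_tendsto_zero]
    have h1 : Tendsto (fun p : ℝ => Cw * (Cu * (p * Real.exp (-(p / 2)))) ^ 2) atTop (𝓝 0) := by
      have h2 : Tendsto (fun p : ℝ => p * Real.exp (-(p / 2))) atTop (𝓝 0) := by
        have h3 := (Real.tendsto_pow_mul_exp_neg_atTop_nhds_zero 1).comp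
          (tendsto_id.atTop_div_const (by norm_num : (0 : ℝ) < 2))
        have h4 := h3.const_mul 2
        simp only [mul_zero] at h4
        refine h4.congr fun p => ?_
        simp only [Function.comp_apply, id, pow_one]
        ring
      have h5 := ((h2.const_mul Cu).pow 2).const_mul Cw
      simpa using h5
    refine squeeze_zero' (Eventually.of_forall fun _ => norm_nonneg _) ?_ h1
    filter_upwards [eventually_ge_atTop 0] with p hp using hbd p hp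
  have h0 := integral_Ioi_of_hasDerivAt_of_tendsto (a := 0) (f := F)
    (f' := fun p => d2a P N A (x, φ, p)) (m := 0) hc0 hder hint htop
  rw [h0, hF0, sub_zero]

end GSI

end Pool.Agent.DbarN
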