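import Pool.Agent.DbarN.Basic

set_option autoImplicit false

/-!
# The domain is bounded, connected, pseudoconvex with smooth boundary
-/

namespace Pool.Agent.DbarN

open MeasureTheory Complex Set
open scoped ComplexConjugate ContDiff

namespace Geo

theorem second_of_line {ρ : ℂ × ℂ → ℝ} {p t : ℂ × ℂ} (h : ContDiffAt ℝ 2 ρ p) {g1 : ℝ → ℝ}
    {g2 : ℝ} (h1 : ∀ᶠ e in nhds (0 : ℝ), HasDerivAt (fun e : ℝ => ρ (p + e • t)) (g1 e) e)
    (h2 : HasDerivAt g1 g2 0) :
    fderiv ℝ (fderiv ℝ ρ) p t t = g2 ∧ fderiv ℝ ρ p t = g1 0 := by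
  have hline : ∀ e : ℝ, HasDerivAt (fun e : ℝ => p + e • t) t e := by
    intro e
    simpa using ((hasDerivAt_id e).smul_const t).const_add p
  have hcont : Filter.Tendsto (fun e : ℝ => p + e • t) (nhds 0) (nhds p) := by
    have := (hline 0).continuousAt.tendsto
    simpa using this
  have hd : ∀ᶠ q in nhds p, DifferentiableAt ℝ ρ q := by
    have := h.eventually (by simp)
    filter_upwards [this] with q hq
    exact hq.differentiableAt (by norm_num)
  have hfd : HasFDerivAt (fderiv ℝ ρ) (fderiv ℝ (fderiv ℝ ρ) p) p := by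
    have h3 : ContDiffAt ℝ 1 (fderiv ℝ ρ) p := h.fderiv_right (by norm_num)
    exact (h3.differentiableAt (by norm_num)).hasFDerivAt
  have hev : g1 =ᶠ[nhds 0] fun e => fderiv ℝ ρ (p + e • t) t := by
    filter_upwards [h1, hcont.eventually hd] with e he1 he2
    exact he1.unique (he2.hasFDerivAt.comp_hasDerivAt e (hline e))
  refine ⟨?_, ?_⟩
  · have hfd0 : HasFDerivAt (fderiv ℝ ρ) (fderiv ℝ (fderiv ℝ ρ) p) (p + (0 : ℝ) • t) := by
      simpa using hfd
    have h4 : HasDerivAt (fun e : ℝ => fderiv ℝ ρ (p + e • t)) (fderiv ℝ (fderiv ℝ ρ) p t) 0 :=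
      hfd0.comp_hasDerivAt (0 : ℝ) (hline 0)
    have h5 : HasDerivAt (fun e : ℝ => fderiv ℝ ρ (p + e • t) t)
        (fderiv ℝ (fderiv ℝ ρ) p t t) 0 := by
      simpa using h4.clm_apply (hasDerivAt_const (0 : ℝ) t)
    exact (h5.congr_of_eventuallyEq hev).unique h2
  · have := hev.self_of_nhds
    simpa using this.symm

theorem hasDerivAt_lx {z s : ℂ} {e : ℝ} (h : z + e • s ≠ 0) :
    HasDerivAt (fun e : ℝ => Prof.lx (z + e • s)) ((s / (z + e • s)).re) e := by
  have h1 : HasDerivAt (fun e : ℝ => z + e • s) s e := by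
    simpa using ((hasDerivAt_id e).smul_const s).const_add z
  have h2 : HasDerivAt (fun e : ℝ => ‖z + e • s‖ ^ 2) (2 * inner ℝ (z + e • s) s) e := h1.norm_sq
  have hpos : 0 < ‖z + e • s‖ := norm_pos_iff.2 h
  have h3 := (h2.log (by positivity)).div_const 2
  have heq : (fun e : ℝ => Prof.lx (z + e • s)) = fun e : ℝ => Real.log (‖z + e • s‖ ^ 2) / 2 := by
    funext e
    simp only [Prof.lx, Real.log_pow]
    push_cast
    ring
  rw [heq]
  refine h3.congr_deriv ?_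
  rw [Complex.inner, Complex.div_re, ← Complex.normSq_eq_norm_sq]
  simp only [Complex.mul_re, Complex.conj_re, Complex.conj_im]
  field_simp
  ring

theorem hasDerivAt_lx2 {z s : ℂ} (h : z ≠ 0) :
    HasDerivAt (fun e : ℝ => (s / (z + e • s)).re) (-(((s / z) ^ 2).re)) 0 := by
  have h1 : HasDerivAt (fun e : ℝ => z + e • s) s 0 := by
    simpa using ((hasDerivAt_id (0 : ℝ)).smul_const s).const_add z
  have h2 := (hasDerivAt_const (0 : ℝ) s).div h1 (by simpa using h)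
  have h3 := Complex.reCLM.hasFDerivAt.comp_hasDerivAt (0 : ℝ) h2
  refine h3.congr_deriv ?_
  rw [Complex.reCLM_apply, ← Complex.neg_re]
  congr 1
  simp
  field_simp

/-- the defining function -/
noncomputable def rho (D : Prof) (q : ℂ × ℂ) : ℝ :=
  ‖q.2 - D.c (Prof.lx q.1)‖ ^ 2 - D.r ^ 2 * (1 - D.η (Prof.lx q.1))

theorem contDiffAt_lx {z : ℂ} (h : z ≠ 0) : ContDiffAt ℝ ∞ Prof.lx z := by
  have h1 : ContDiffAt ℝ ∞ (fun z : ℂ => ‖z‖) z := contDiffAt_norm ℝ h
  exact h1.log (norm_ne_zero_iff.2 h)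

theorem contDiffAt_rho (D : Prof) {q : ℂ × ℂ} (h : q.1 ≠ 0) : ContDiffAt ℝ ∞ (rho D) q := by
  have h1 : ContDiffAt ℝ ∞ (fun q : ℂ × ℂ => Prof.lx q.1) q :=
    ContDiffAt.comp (g := Prof.lx) (f := Prod.fst) q (contDiffAt_lx h) contDiffAt_fst
  have h2 : ContDiffAt ℝ ∞ (fun q : ℂ × ℂ => D.c (Prof.lx q.1)) q :=
    ContDiffAt.comp (g := D.c) (f := fun q : ℂ × ℂ => Prof.lx q.1) q D.contDiff_c.contDiffAt h1
  have h3 : ContDiffAt ℝ ∞ (fun q : ℂ × ℂ => D.η (Prof.lx q.1)) q :=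
    ContDiffAt.comp (g := D.η) (f := fun q : ℂ × ℂ => Prof.lx q.1) q D.ηsm.contDiffAt h1
  exact ((contDiffAt_snd.sub h2).norm_sq ℝ).sub
    (contDiffAt_const.mul (contDiffAt_const.sub h3))

/-- derivative of the centre -/
noncomputable def c1 (D : Prof) (x : ℝ) : ℂ := -I * (D.σ x : ℂ) * D.τ x

theorem line_calc (D : Prof) {z w s u : ℂ} (hz : z ≠ 0) {d2 : ℂ}
    (hd : HasDerivAt (fun e : ℝ => (((s / (z + e • s)).re : ℝ) : ℂ) *
      c1 D (Prof.lx (z + e • s))) d2 0) :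
    fderiv ℝ (fderiv ℝ (rho D)) (z, w) (s, u) (s, u) =
      2 * (‖u - ((s / z).re : ℂ) * c1 D (Prof.lx z)‖ ^ 2 +
        (conj (w - D.c (Prof.lx z)) * (-d2)).re) +
      D.r ^ 2 * (deriv (deriv D.η) (Prof.lx z) * (s / z).re ^ 2 -
        deriv D.η (Prof.lx z) * ((s / z) ^ 2).re) ∧
    fderiv ℝ (rho D) (z, w) (s, u) =
      2 * (conj (w - D.c (Prof.lx z)) * (u - ((s / z).re : ℂ) * c1 D (Prof.lx z))).re +
      D.r ^ 2 * (deriv D.η (Prof.lx z) * (s / z).re) := by
  have hne : ∀ᶠ e in nhds (0 : ℝ), z + e • s ≠ 0 := by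
    have hc : ContinuousAt (fun e : ℝ => z + e • s) 0 := by fun_prop
    exact hc.eventually_ne (by simpa using hz)
  have hη : ∀ x, HasDerivAt D.η (deriv D.η x) x := fun x =>
    (D.ηsm.differentiable (by simp) x).hasDerivAt
  have hη2 : ∀ x, HasDerivAt (deriv D.η) (deriv (deriv D.η) x) x := fun x => by
    have : ContDiff ℝ 1 (deriv D.η) := by
      have h2 : ContDiff ℝ (1 + 1) D.η := D.ηsm.of_le (by norm_num; exact ENat.LEInfty.out)
      exact (contDiff_succ_iff_deriv.1 h2).2.2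
    exact (this.differentiable (by simp) x).hasDerivAt
  -- the path `ξ`
  have hξ : ∀ e : ℝ, z + e • s ≠ 0 → HasDerivAt (fun e : ℝ => w + e • u - D.c (Prof.lx (z + e • s)))
      (u - (((s / (z + e • s)).re : ℝ) : ℂ) * c1 D (Prof.lx (z + e • s))) e := by
    intro e he
    have h1 : HasDerivAt (fun e : ℝ => w + e • u) u e := by
      simpa using ((hasDerivAt_id e).smul_const u).const_add w
    have h2 := (D.hasDerivAt_c (Prof.lx (z + e • s))).scomp e (hasDerivAt_lx he)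
    refine (h1.sub h2).congr_deriv ?_
    simp [c1]
  have key := second_of_line (ρ := rho D) (p := (z, w)) (t := (s, u))
    (g1 := fun e => 2 * (conj (w + e • u - D.c (Prof.lx (z + e • s))) *
      (u - (((s / (z + e • s)).re : ℝ) : ℂ) * c1 D (Prof.lx (z + e • s)))).re +
      D.r ^ 2 * (deriv D.η (Prof.lx (z + e • s)) * (s / (z + e • s)).re))
    (g2 := 2 * (‖u - ((s / z).re : ℂ) * c1 D (Prof.lx z)‖ ^ 2 +
        (conj (w - D.c (Prof.lx z)) * (-d2)).re) +
      D.r ^ 2 * (deriv (deriv D.η) (Prof.lx z) * (s / z).re ^ 2 -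
        deriv D.η (Prof.lx z) * ((s / z) ^ 2).re))
    ((contDiffAt_rho D hz).of_le ENat.LEInfty.out) ?_ ?_
  · refine ⟨key.1, ?_⟩
    rw [key.2]
    simp
  · filter_upwards [hne] with e he
    have h1 := (hξ e he).norm_sq
    have h2 := ((hη (Prof.lx (z + e • s))).comp e (hasDerivAt_lx he)).const_sub 1
    have h3 := h1.sub (h2.const_mul (D.r ^ 2))
    have heq : (fun e : ℝ => rho D ((z, w) + e • (s, u))) = fun e : ℝ =>
        ‖w + e • u - D.c (Prof.lx (z + e • s))‖ ^ 2 -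
          D.r ^ 2 * (1 - D.η (Prof.lx (z + e • s))) := by
      funext e
      simp [rho]
    rw [heq]
    refine h3.congr_deriv ?_
    rw [Complex.inner]
    ring_nf
  · have h0 : z + (0 : ℝ) • s ≠ 0 := by simpa using hz
    have h1 := hξ 0 h0
    have h2 : HasDerivAt (fun e : ℝ => u - (((s / (z + e • s)).re : ℝ) : ℂ) *
        c1 D (Prof.lx (z + e • s))) (-d2) 0 := by
      simpa using hd.const_sub u
    have h3 : HasDerivAt (fun e : ℝ => conj (w + e • u - D.c (Prof.lx (z + e • s)))) _ 0 :=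
      (Complex.conjCLE : ℂ →L[ℝ] ℂ).hasFDerivAt.comp_hasDerivAt (0 : ℝ) h1
    have h4 := Complex.reCLM.hasFDerivAt.comp_hasDerivAt (0 : ℝ) (h3.mul h2)
    have h5 := (hη2 (Prof.lx (z + (0 : ℝ) • s))).comp (0 : ℝ) (hasDerivAt_lx h0)
    have h6 := h5.mul (hasDerivAt_lx2 (s := s) hz)
    have h7 := (h4.const_mul 2).add (h6.const_mul (D.r ^ 2))
    refine h7.congr_deriv ?_
    simp only [zero_smul, add_zero, Complex.reCLM_apply, Complex.add_re, Function.comp_apply,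
      Complex.conjCLE_apply, ContinuousLinearEquiv.coe_coe]
    have h8 : (conj (u - ((s / z).re : ℂ) * c1 D (Prof.lx z)) *
        (u - ((s / z).re : ℂ) * c1 D (Prof.lx z))).re =
        ‖u - ((s / z).re : ℂ) * c1 D (Prof.lx z)‖ ^ 2 := by
      rw [← Complex.normSq_eq_conj_mul_self, Complex.ofReal_re, Complex.normSq_eq_norm_sq]
    rw [h8]
    ring_nf

theorem hη1 (D : Prof) (x : ℝ) : HasDerivAt D.η (deriv D.η x) x :=
  (D.ηsm.differentiable (by simp) x).hasDerivAt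

theorem hη2 (D : Prof) (x : ℝ) : HasDerivAt (deriv D.η) (deriv (deriv D.η) x) x := by
  have : ContDiff ℝ 1 (deriv D.η) := by
    have h2 : ContDiff ℝ (1 + 1) D.η := D.ηsm.of_le (by norm_num; exact ENat.LEInfty.out)
    exact (contDiff_succ_iff_deriv.1 h2).2.2
  exact (this.differentiable (by simp) x).hasDerivAt

theorem hσ1 (D : Prof) (x : ℝ) : HasDerivAt D.σ (deriv D.σ x) x :=
  (D.σsm.differentiable (by simp) x).hasDerivAt

theorem μ_deriv (D : Prof) {x : ℝ} (hx : D.η x < 1) :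
    deriv D.μ x = deriv (deriv D.η) x / (2 * (1 - D.η x)) + 2 * D.μ x ^ 2 := by
  have h1 : 1 - D.η x ≠ 0 := by linarith
  have h2 : HasDerivAt D.μ _ x := (hη2 D x).div (((hη1 D x).const_sub 1).const_mul 2)
    (by simpa using h1)
  rw [h2.deriv]
  simp only [Prof.μ]
  field_simp
  ring

/-- `c' = -iστ` is differentiable inside -/
theorem hasDerivAt_c1 (D : Prof) {x : ℝ} (hx : x ∈ Ioo D.a0 D.b0) :
    HasDerivAt (c1 D) (D.τ x * (-I * ((deriv D.σ x : ℝ) : ℂ) + I * D.σ x * D.μ x - (D.σ x : ℂ) ^ 2)) x := by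
  have h1 : HasDerivAt (fun x => ((D.σ x : ℝ) : ℂ)) ((deriv D.σ x : ℝ) : ℂ) x :=
    (hσ1 D x).ofReal_comp
  have h2 := (h1.const_mul (-I)).mul (D.hasDerivAt_τ hx)
  refine h2.congr_deriv ?_
  linear_combination ((D.σ x : ℂ) ^ 2 * D.τ x) * Complex.I_sq

theorem R_sq (D : Prof) {x : ℝ} (hx : D.η x ≤ 1) : D.R x ^ 2 = D.r ^ 2 * (1 - D.η x) := by
  rw [Prof.R, mul_pow, Real.sq_sqrt (by linarith)]

/-- AM-GM with `condC` -/
theorem amgm {α β σ μ' k : ℝ} (hω : α ^ 2 + β ^ 2 = 1) (hμ : 0 ≤ μ')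
    (hC : k ^ 2 ≤ μ' / 2 * (μ' / 2 + σ ^ 2)) : 0 ≤ σ ^ 2 * (1 + α) + β * k + μ' := by
  have hα1 : -1 ≤ α := by nlinarith [sq_nonneg β]
  have hα2 : α ≤ 1 := by nlinarith [sq_nonneg β]
  set X := σ ^ 2 + μ' / 2 with hX
  set Y := μ' / 2 with hY
  have hX0 : 0 ≤ X := by positivity
  have hY0 : 0 ≤ Y := by positivity
  have h1 : (β * k) ^ 2 ≤ (X * (1 + α) + Y * (1 - α)) ^ 2 := by
    have h2 : β ^ 2 * k ^ 2 ≤ β ^ 2 * (Y * X) := by
      refine mul_le_mul_of_nonneg_left ?_ (sq_nonneg β)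
      calc k ^ 2 ≤ μ' / 2 * (μ' / 2 + σ ^ 2) := hC
        _ = Y * X := by rw [hX, hY]; ring
    have h3 : 0 ≤ β ^ 2 * (Y * X) := by positivity
    have h4 : β ^ 2 = (1 + α) * (1 - α) := by linarith
    have h5 : 0 ≤ (X * (1 + α) - Y * (1 - α)) ^ 2 := sq_nonneg _
    nlinarith
  have h6 : 0 ≤ X * (1 + α) + Y * (1 - α) :=
    add_nonneg (mul_nonneg hX0 (by linarith)) (mul_nonneg hY0 (by linarith))
  have h7 := abs_le_of_sq_le_sq' h1 h6
  have h8 : σ ^ 2 * (1 + α) + β * k + μ' = X * (1 + α) + Y * (1 - α) + β * k := by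
    rw [hX, hY]; ring
  rw [h8]
  linarith [h7.1]

/-- the algebra of the Levi form -/
theorem levi_algebra (t o s t2 : ℂ) (σ μ s' m' R2 e1 e2 : ℝ) (ho : o.re ^ 2 + o.im ^ 2 = 1)
    (ht : t.re ^ 2 + t.im ^ 2 = R2) (hR2 : 0 < R2) (he1 : e1 = 2 * μ * R2)
    (he2 : e2 = 2 * R2 * (m' - 2 * μ ^ 2))
    (ht1 : 2 * (conj (t * o) * (t2 - (s.re : ℂ) * (-I * σ * t))).re + e1 * s.re = 0)
    (ht2 : 2 * (conj (t * o) * (I * t2 - ((I * s).re : ℂ) * (-I * σ * t))).re +
      e1 * (I * s).re = 0) :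
    2 * (‖t2 - (s.re : ℂ) * (-I * σ * t)‖ ^ 2 + (conj (t * o) *
      -(((-(s ^ 2).re : ℝ) : ℂ) * (-I * σ * t) +
        (s.re : ℂ) * ((s.re : ℂ) * (t * (-I * (s' : ℂ) + I * σ * μ - (σ : ℂ) ^ 2))))).re) +
      (e2 * s.re ^ 2 - e1 * (s ^ 2).re) +
    (2 * (‖I * t2 - ((I * s).re : ℂ) * (-I * σ * t)‖ ^ 2 + (conj (t * o) *
      -(((-((I * s) ^ 2).re : ℝ) : ℂ) * (-I * σ * t) +
        ((I * s).re : ℂ) * (((I * s).re : ℂ) *
          (t * (-I * (s' : ℂ) + I * σ * μ - (σ : ℂ) ^ 2))))).re) +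
      (e2 * (I * s).re ^ 2 - e1 * ((I * s) ^ 2).re)) =
    2 * R2 * (s.re ^ 2 + s.im ^ 2) * (σ ^ 2 * (1 + o.re) + o.im * (s' + σ * μ) + m') := by
  obtain ⟨p, q⟩ := t
  obtain ⟨α, β⟩ := o
  obtain ⟨a, b⟩ := s
  obtain ⟨u, v⟩ := t2
  rw [Complex.sq_norm, Complex.sq_norm, Complex.normSq_apply, Complex.normSq_apply]
  simp only [Complex.mul_re, Complex.mul_im, Complex.sub_re, Complex.sub_im, Complex.neg_re,
    Complex.neg_im, Complex.add_re, Complex.add_im, Complex.I_re, Complex.I_im, Complex.ofReal_re,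
    Complex.ofReal_im, Complex.conj_re, Complex.conj_im, pow_two] at ho ht ht1 ht2 ⊢
  subst he1 he2
  have hE1 : (p * α - q * β) * u + (p * β + q * α) * v = -(σ * β + μ) * R2 * a := by
    linear_combination (1 / 2) * ht1 - a * σ * β * ht
  have hE2 : (p * α - q * β) * v - (p * β + q * α) * u = -(σ * β + μ) * R2 * b := by
    linear_combination -(1 / 2) * ht2 - b * σ * β * ht
  have hAB : (p * α - q * β) ^ 2 + (p * β + q * α) ^ 2 = R2 := by
    linear_combination (p * p + q * q) * ho + ht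
  have hu : u = -(σ * β + μ) * (a * (p * α - q * β) - b * (p * β + q * α)) := by
    have : R2 * (u + (σ * β + μ) * (a * (p * α - q * β) - b * (p * β + q * α))) = 0 := by
      linear_combination (p * α - q * β) * hE1 - (p * β + q * α) * hE2 - u * hAB
    rcases mul_eq_zero.1 this with h | h
    · exact absurd h hR2.ne'
    · linarith
  have hv : v = -(σ * β + μ) * (b * (p * α - q * β) + a * (p * β + q * α)) := by
    have : R2 * (v + (σ * β + μ) * (b * (p * α - q * β) + a * (p * β + q * α))) = 0 := by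
      linear_combination (p * α - q * β) * hE2 + (p * β + q * α) * hE1 - v * hAB
    rcases mul_eq_zero.1 this with h | h
    · exact absurd h hR2.ne'
    · linarith
  subst hu hv
  clear ht1 ht2 hE1 hE2 hAB
  subst ht
  linear_combination (4 * (σ * β + μ) ^ 2 * (a * a + b * b) * (p * p + q * q)) * ho

theorem levi_nonneg (D : Prof) {p t : ℂ × ℂ} (hz : p.1 ≠ 0) (hx : Prof.lx p.1 ∈ Ioo D.a0 D.b0)
    (hρ : rho D p = 0) (ht1 : fderiv ℝ (rho D) p t = 0) (ht2 : fderiv ℝ (rho D) p (I • t) = 0) :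
    0 ≤ levi (rho D) p t := by
  obtain ⟨z, w⟩ := p
  obtain ⟨t1, t2⟩ := t
  simp only at hz hx
  set x := Prof.lx z with hxdef
  have hη := D.ηlt x hx
  have hR := R_sq D hη.le
  have hRpos := D.R_pos hx
  have hnτ := D.norm_τ hx
  have hτ0 : D.τ x ≠ 0 := norm_pos_iff.1 (by rw [hnτ]; exact hRpos)
  set ξ := w - D.c x with hξ
  have hξn : ‖ξ‖ ^ 2 = D.R x ^ 2 := by
    rw [hR]
    have : ‖ξ‖ ^ 2 - D.r ^ 2 * (1 - D.η x) = 0 := hρ
    linarith
  have hI : (I • ((t1, t2) : ℂ × ℂ)) = (I * t1, I * t2) := by simp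
  have hdg : ∀ s : ℂ, HasDerivAt (fun e : ℝ => (((s / (z + e • s)).re : ℝ) : ℂ) *
      c1 D (Prof.lx (z + e • s))) (((-(((s / z) ^ 2).re) : ℝ) : ℂ) * c1 D x + ((s / z).re : ℂ) *
        (((s / z).re : ℂ) * (D.τ x * (-I * ((deriv D.σ x : ℝ) : ℂ) + I * D.σ x * D.μ x -
          (D.σ x : ℂ) ^ 2)))) 0 := by
    intro s
    have h0 : z + (0 : ℝ) • s ≠ 0 := by simpa using hz
    have h1 : HasDerivAt (fun e : ℝ => (((s / (z + e • s)).re : ℝ) : ℂ))
        ((-(((s / z) ^ 2).re) : ℝ) : ℂ) 0 := (hasDerivAt_lx2 (s := s) hz).ofReal_comp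
    have h2 := hasDerivAt_lx h0
    have h3 : HasDerivAt (c1 D) (D.τ x * (-I * ((deriv D.σ x : ℝ) : ℂ) + I * D.σ x * D.μ x -
          (D.σ x : ℂ) ^ 2)) (Prof.lx (z + (0 : ℝ) • s)) := by
      simpa using hasDerivAt_c1 D hx
    refine (h1.mul (h3.scomp (0 : ℝ) h2)).congr_deriv ?_
    simp [hxdef]
  obtain ⟨ha2, ha1⟩ := line_calc D (w := w) (u := t2) hz (hdg t1)
  obtain ⟨hb2, hb1⟩ := line_calc D (w := w) (u := I * t2) hz (hdg (I * t1))
  rw [ha1] at ht1
  rw [hI, hb1] at ht2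
  rw [levi, hI, ha2, hb2]
  clear ha1 ha2 hb1 hb2 hdg
  simp only [← hxdef, ← hξ] at ht1 ht2 ⊢
  have hIs : I * t1 / z = I * (t1 / z) := by ring
  rw [hIs] at ht2 ⊢
  set s := t1 / z with hs
  have hr1 : D.r ^ 2 * deriv D.η x = 2 * D.μ x * D.R x ^ 2 := by
    rw [hR, Prof.μ]
    have : 1 - D.η x ≠ 0 := by linarith
    field_simp
  have hr2 : D.r ^ 2 * deriv (deriv D.η) x = 2 * D.R x ^ 2 * (deriv D.μ x - 2 * D.μ x ^ 2) := by
    rw [hR, μ_deriv D hη]
    have : 1 - D.η x ≠ 0 := by linarith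
    field_simp
    ring
  obtain ⟨o, hω⟩ : ∃ o : ℂ, ξ = D.τ x * o := ⟨ξ / D.τ x, by field_simp⟩
  have hωn : o.re ^ 2 + o.im ^ 2 = 1 := by
    have h1 : ‖o‖ = 1 := by
      have h2 : ‖ξ‖ = ‖D.τ x‖ * ‖o‖ := by rw [hω, norm_mul]
      have h3 : ‖ξ‖ = D.R x := by
        have := (sq_eq_sq₀ (norm_nonneg ξ) hRpos.le).1 hξn
        exact this
      rw [h3, hnτ] at h2
      have : D.R x * (‖o‖ - 1) = 0 := by linarith
      rcases mul_eq_zero.1 this with h | h
      · exact absurd h hRpos.ne'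
      · linarith
    have h4 := Complex.sq_norm o
    rw [h1, Complex.normSq_apply] at h4
    nlinarith
  have hτn : (D.τ x).re ^ 2 + (D.τ x).im ^ 2 = D.R x ^ 2 := by
    have h4 := Complex.sq_norm (D.τ x)
    rw [hnτ, Complex.normSq_apply] at h4
    nlinarith
  have hC := D.condC x hx
  have hfin := levi_algebra (D.τ x) o s t2 (D.σ x) (D.μ x) (deriv D.σ x) (deriv D.μ x)
    (D.R x ^ 2) (D.r ^ 2 * deriv D.η x) (D.r ^ 2 * deriv (deriv D.η) x) hωn hτn
    (by positivity) hr1 hr2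
    (by rw [← hω]; simp only [c1] at ht1; rw [← ht1]; ring)
    (by rw [← hω]; simp only [c1] at ht2; rw [← ht2]; ring)
  rw [← hω] at hfin
  have hpos := amgm (α := o.re) (β := o.im) (σ := D.σ x) (μ' := deriv D.μ x)
    (k := deriv D.σ x + D.σ x * D.μ x) hωn
    (by have := D.μ_sq_le hx; nlinarith [sq_nonneg (D.μ x)]) hC
  have hfin2 : 0 ≤ 2 * D.R x ^ 2 * (s.re ^ 2 + s.im ^ 2) *
      (D.σ x ^ 2 * (1 + o.re) + o.im * (deriv D.σ x + D.σ x * D.μ x) + deriv D.μ x) := by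
    positivity
  rw [← hfin] at hfin2
  refine hfin2.trans (le_of_eq ?_)
  simp only [c1]
  ring

theorem fderiv_rho (D : Prof) {z w s u : ℂ} (hz : z ≠ 0) :
    fderiv ℝ (rho D) (z, w) (s, u) =
      2 * (conj (w - D.c (Prof.lx z)) * (u - ((s / z).re : ℂ) * c1 D (Prof.lx z))).re +
      D.r ^ 2 * (deriv D.η (Prof.lx z) * (s / z).re) := by
  have h0 : z + (0 : ℝ) • s ≠ 0 := by simpa using hz
  have h1 : HasDerivAt (fun e : ℝ => w + e • u) u 0 := by
    simpa using ((hasDerivAt_id (0 : ℝ)).smul_const u).const_add w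
  have h2 := (D.hasDerivAt_c (Prof.lx (z + (0 : ℝ) • s))).scomp (0 : ℝ) (hasDerivAt_lx h0)
  have h3 := (h1.sub h2).norm_sq
  have h4 := ((hη1 D (Prof.lx (z + (0 : ℝ) • s))).comp (0 : ℝ) (hasDerivAt_lx h0)).const_sub 1
  have h5 := h3.sub (h4.const_mul (D.r ^ 2))
  have hline : HasDerivAt (fun e : ℝ => ((z, w) : ℂ × ℂ) + e • ((s, u) : ℂ × ℂ)) (s, u) 0 := by
    simpa using ((hasDerivAt_id (0 : ℝ)).smul_const ((s, u) : ℂ × ℂ)).const_add ((z, w) : ℂ × ℂ)
  have hd : HasFDerivAt (rho D) (fderiv ℝ (rho D) (z, w))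
      (((z, w) : ℂ × ℂ) + (0 : ℝ) • ((s, u) : ℂ × ℂ)) := by
    have : DifferentiableAt ℝ (rho D) (z, w) :=
      (contDiffAt_rho D (q := (z, w)) hz).differentiableAt (by simp)
    simpa using this.hasFDerivAt
  have h6 := hd.comp_hasDerivAt (0 : ℝ) hline
  refine (h6.unique (h5.congr_deriv ?_))
  simp only [zero_smul, add_zero, Function.comp_apply, Pi.sub_apply]
  rw [Complex.inner]
  simp only [c1, Complex.real_smul]
  ring_nf

/-- boundary points over the end circles -/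
theorem levi_nonneg0 (D : Prof) {p t : ℂ × ℂ} (hz : p.1 ≠ 0) (hξ : p.2 = D.c (Prof.lx p.1))
    (hη : D.r ^ 2 * deriv D.η (Prof.lx p.1) ≠ 0)
    (ht1 : fderiv ℝ (rho D) p t = 0) (ht2 : fderiv ℝ (rho D) p (I • t) = 0) :
    0 ≤ levi (rho D) p t := by
  obtain ⟨z, w⟩ := p
  obtain ⟨t1, t2⟩ := t
  simp only at hz hξ hη
  have hI : (I • ((t1, t2) : ℂ × ℂ)) = (I * t1, I * t2) := by simp
  rw [fderiv_rho D hz] at ht1
  rw [hI, fderiv_rho D hz] at ht2
  have hIs : I * t1 / z = I * (t1 / z) := by ring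
  rw [hIs] at ht2
  have hs : t1 / z = 0 := by
    apply Complex.ext
    · rw [← hξ, sub_self] at ht1
      simp only [map_zero, zero_mul, Complex.zero_re, mul_zero, zero_add, ← mul_assoc] at ht1
      exact (mul_eq_zero.1 ht1).resolve_left hη
    · rw [← hξ, sub_self] at ht2
      simp only [map_zero, zero_mul, Complex.zero_re, mul_zero, zero_add, ← mul_assoc] at ht2
      have := (mul_eq_zero.1 ht2).resolve_left hη
      simpa using this
  have ht0 : t1 = 0 := by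
    rcases div_eq_zero_iff.1 hs with h | h
    · exact h
    · exact absurd h hz
  subst ht0
  have hd : HasDerivAt (fun e : ℝ => ((((0 : ℂ) / (z + e • (0 : ℂ))).re : ℝ) : ℂ) *
      c1 D (Prof.lx (z + e • (0 : ℂ)))) 0 0 := by
    simpa using hasDerivAt_const (0 : ℝ) (0 : ℂ)
  obtain ⟨ha, -⟩ := line_calc D (w := w) (u := t2) hz hd
  obtain ⟨hb, -⟩ := line_calc D (w := w) (u := I * t2) hz hd
  rw [levi, hI, mul_zero, ha, hb]
  simp only [zero_div, Complex.zero_re, Complex.ofReal_zero, zero_mul, sub_zero, neg_zero,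
    mul_zero, add_zero, ne_eq, OfNat.ofNat_ne_zero, not_false_eq_true, zero_pow]
  positivity

theorem mem_Ω' (D : Prof) {q : ℂ × ℂ} : q ∈ D.Ω ↔ q.1 ≠ 0 ∧ rho D q < 0 := by
  simp [Prof.Ω, rho, sub_neg]

theorem isConnected_Ω (D : Prof) : IsConnected D.Ω := by
  have hab : D.a0 < D.b0 := D.ha0.trans (D.hab.trans D.hb0)
  set f : ℝ × ℝ × ℂ → ℂ × ℂ := fun s =>
    (Complex.exp ((s.1 : ℂ) + I * (s.2.1 : ℂ)), D.c s.1 + D.τ s.1 * s.2.2) with hf
  have hlx : ∀ x φ : ℝ, Prof.lx (Complex.exp ((x : ℂ) + I * (φ : ℂ))) = x := by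
    intro x φ
    simp [Prof.lx, Complex.norm_exp]
  have himg : f '' (Ioo D.a0 D.b0 ×ˢ (univ : Set ℝ) ×ˢ Metric.ball (0 : ℂ) 1) = D.Ω := by
    ext q
    constructor
    · rintro ⟨⟨x, φ, v⟩, ⟨hx, -, hv⟩, rfl⟩
      simp only at hx hv
      have hτ0 : D.τ x ≠ 0 := norm_pos_iff.1 (by rw [D.norm_τ hx]; exact D.R_pos hx)
      rw [D.mem_Ω]
      refine ⟨⟨Complex.exp_ne_zero _, ?_⟩, ?_⟩
      · simp only [hf, hlx]; exact hx
      · simp only [hf, Prof.om, hlx]
        rw [add_sub_cancel_left, mul_div_cancel_left₀ _ hτ0]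
        simpa using hv
    · intro hq
      rw [D.mem_Ω] at hq
      obtain ⟨⟨hq0, hqx⟩, hqv⟩ := hq
      have hτ0 : D.τ (Prof.lx q.1) ≠ 0 :=
        norm_pos_iff.1 (by rw [D.norm_τ hqx]; exact D.R_pos hqx)
      refine ⟨(Prof.lx q.1, Complex.arg q.1, D.om q), ⟨hqx, mem_univ _, by simpa using hqv⟩, ?_⟩
      simp only [hf]
      refine Prod.ext ?_ ?_
      · simp only [Prof.lx]
        rw [Complex.exp_add, ← Complex.ofReal_exp, Real.exp_log (norm_pos_iff.2 hq0), mul_comm I]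
        exact Complex.norm_mul_exp_arg_mul_I q.1
      · simp only [Prof.om]
        rw [mul_div_cancel₀ _ hτ0]
        ring
  rw [← himg]
  refine IsConnected.image ?_ f ?_
  · refine IsConnected.prod ?_ (IsConnected.prod isConnected_univ ?_)
    · exact isConnected_Ioo hab
    · exact (convex_ball (0 : ℂ) 1).isConnected ⟨0, by simp⟩
  · have h1 : ContinuousOn D.τ (Ioo D.a0 D.b0) := D.contDiffOn_τ.continuousOn
    have h2 : Continuous D.c := D.contDiff_c.continuous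
    have h3 : ContinuousOn (fun s : ℝ × ℝ × ℂ => D.τ s.1)
        (Ioo D.a0 D.b0 ×ˢ (univ : Set ℝ) ×ˢ Metric.ball (0 : ℂ) 1) :=
      h1.comp continuous_fst.continuousOn (fun s hs => hs.1)
    refine ContinuousOn.prodMk ?_ ?_
    · exact Continuous.continuousOn (by fun_prop)
    · exact ((h2.comp continuous_fst).continuousOn).add
        (h3.mul (Continuous.continuousOn (by fun_prop)))

theorem bounded_Ω (D : Prof) : Bornology.IsBounded D.Ω := by
  rw [isBounded_iff_forall_norm_le]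
  refine ⟨max (Real.exp D.b0) (1 / 4), ?_⟩
  intro q hq
  rw [Prod.norm_def]
  refine max_le_max ?_ (D.norm_snd_le hq)
  obtain ⟨⟨hq0, hqx⟩, -⟩ := D.mem_Ω.1 hq
  have h1 : Real.log ‖q.1‖ < D.b0 := hqx.2
  exact ((Real.log_lt_iff_lt_exp (norm_pos_iff.2 hq0)).1 h1).le

end Geo

theorem smoothPsc (D : Prof) : IsSmoothPsc D.Ω where
  isOpen := D.isOpen_Ω
  connected := Geo.isConnected_Ω D
  bounded := Geo.bounded_Ω D
  bdry := by
    intro p hp
    have hcl : p ∈ closure D.Ω := hp.1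
    have hnot : p ∉ D.Ω := by
      have := hp.2
      rwa [D.isOpen_Ω.interior_eq] at this
    have hnorm : Real.exp D.a0 ≤ ‖p.1‖ := by
      have hclosed : IsClosed {q : ℂ × ℂ | Real.exp D.a0 ≤ ‖q.1‖} :=
        isClosed_le continuous_const (by fun_prop)
      refine closure_minimal ?_ hclosed hcl
      intro q hq
      obtain ⟨⟨hq0, hqx⟩, -⟩ := D.mem_Ω.1 hq
      have h1 : D.a0 < Real.log ‖q.1‖ := hqx.1
      exact ((Real.lt_log_iff_exp_lt (norm_pos_iff.2 hq0)).1 h1).le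
    have hz : p.1 ≠ 0 := norm_pos_iff.1 ((Real.exp_pos _).trans_le hnorm)
    have hcont : ContinuousAt (Geo.rho D) p := (Geo.contDiffAt_rho D hz).continuousAt
    have hρ : Geo.rho D p = 0 := by
      apply le_antisymm
      · have : (nhdsWithin p D.Ω).NeBot := mem_closure_iff_nhdsWithin_neBot.1 hcl
        have htd : Filter.Tendsto (Geo.rho D) (nhdsWithin p D.Ω) (nhds (Geo.rho D p)) :=
          hcont.tendsto.mono_left nhdsWithin_le_nhds
        refine le_of_tendsto htd ?_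
        filter_upwards [self_mem_nhdsWithin] with q hq
        exact ((Geo.mem_Ω' D).1 hq).2.le
      · by_contra hcon
        exact hnot ((Geo.mem_Ω' D).2 ⟨hz, not_le.1 hcon⟩)
    have hr : 0 < D.r := by
      rw [D.hr]
      have := D.hab
      have : 0 < D.b - D.a + 3 := by linarith
      positivity
    -- dichotomy
    have hρ' : ‖p.2 - D.c (Prof.lx p.1)‖ ^ 2 = D.r ^ 2 * (1 - D.η (Prof.lx p.1)) := by
      have : ‖p.2 - D.c (Prof.lx p.1)‖ ^ 2 - D.r ^ 2 * (1 - D.η (Prof.lx p.1)) = 0 := hρ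
      linarith
    have hη1 : D.η (Prof.lx p.1) ≤ 1 := by
      by_contra hcon
      have : D.r ^ 2 * (1 - D.η (Prof.lx p.1)) < 0 :=
        mul_neg_of_pos_of_neg (by positivity) (by linarith [not_le.1 hcon])
      nlinarith [sq_nonneg ‖p.2 - D.c (Prof.lx p.1)‖]
    have hx1 : D.a0 ≤ Prof.lx p.1 ∧ Prof.lx p.1 ≤ D.b0 := by
      constructor
      · by_contra hcon
        exact absurd (D.ηgt _ (Or.inl (not_le.1 hcon))) (not_lt.2 hη1)
      · by_contra hcon
        exact absurd (D.ηgt _ (Or.inr (not_le.1 hcon))) (not_lt.2 hη1)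
    have hend : p.2 = D.c (Prof.lx p.1) → D.r ^ 2 * deriv D.η (Prof.lx p.1) ≠ 0 := by
      intro h
      rw [h, sub_self, norm_zero] at hρ'
      have h1 : D.η (Prof.lx p.1) = 1 := by
        have h2 : D.r ^ 2 * (1 - D.η (Prof.lx p.1)) = 0 := by rw [← hρ']; norm_num
        rcases mul_eq_zero.1 h2 with h3 | h3
        · exact absurd h3 (by positivity)
        · linarith
      rcases eq_or_lt_of_le hx1.1 with h2 | h2
      · rw [← h2]
        exact mul_ne_zero (by positivity) D.ηda0.ne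
      · rcases eq_or_lt_of_le hx1.2 with h3 | h3
        · rw [h3]
          exact mul_ne_zero (by positivity) D.ηdb0.ne'
        · exact absurd (D.ηlt _ ⟨h2, h3⟩) (by rw [h1]; exact lt_irrefl _)
    refine ⟨{q | q.1 ≠ 0}, Geo.rho D, ⟨?_, hz, ?_, ?_, ?_⟩, ?_⟩
    · exact isOpen_ne_fun continuous_fst continuous_const
    · intro q hq
      exact (Geo.contDiffAt_rho D hq).contDiffWithinAt
    · ext q
      simp only [mem_inter_iff, mem_ofPred_eq, Geo.mem_Ω']
      tauto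
    · intro h0
      by_cases hξ : p.2 = D.c (Prof.lx p.1)
      · have h1 := Geo.fderiv_rho D (z := p.1) (w := p.2) (s := p.1) (u := 0) hz
        rw [show ((p.1, p.2) : ℂ × ℂ) = p from rfl, h0, ← hξ, sub_self, div_self hz] at h1
        simp only [zero_apply, map_zero, zero_mul, Complex.zero_re, mul_zero,
          zero_add, Complex.one_re, mul_one] at h1
        exact hend hξ h1.symm
      · have h1 := Geo.fderiv_rho D (z := p.1) (w := p.2) (s := 0)
          (u := p.2 - D.c (Prof.lx p.1)) hz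
        rw [show ((p.1, p.2) : ℂ × ℂ) = p from rfl, h0] at h1
        simp only [zero_apply, zero_div, Complex.zero_re, Complex.ofReal_zero,
          zero_mul, sub_zero, mul_zero, add_zero] at h1
        rw [← Complex.normSq_eq_conj_mul_self, Complex.ofReal_re] at h1
        have h2 : Complex.normSq (p.2 - D.c (Prof.lx p.1)) = 0 := by linarith
        exact hξ (sub_eq_zero.1 (Complex.normSq_eq_zero.1 h2))
    · intro t ht1 ht2
      by_cases hξ : p.2 = D.c (Prof.lx p.1)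
      · exact Geo.levi_nonneg0 D hz hξ (hend hξ) ht1 ht2
      · refine Geo.levi_nonneg D hz ?_ hρ ht1 ht2
        have hpos : 0 < D.r ^ 2 * (1 - D.η (Prof.lx p.1)) := by
          rw [← hρ']
          have : 0 < ‖p.2 - D.c (Prof.lx p.1)‖ := norm_pos_iff.2 (sub_ne_zero.2 hξ)
          positivity
        have hlt : D.η (Prof.lx p.1) < 1 := by
          have := (mul_pos_iff_of_pos_left (by positivity : (0 : ℝ) < D.r ^ 2)).1 hpos
          linarith
        constructor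
        · rcases eq_or_lt_of_le hx1.1 with h2 | h2
          · rw [← h2, D.ηa0] at hlt
            exact absurd hlt (lt_irrefl _)
          · exact h2
        · rcases eq_or_lt_of_le hx1.2 with h2 | h2
          · rw [h2, D.ηb0] at hlt
            exact absurd hlt (lt_irrefl _)
          · exact h2

end Pool.Agent.DbarN
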