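import Pool.Agent.DbarN.Prof

set_option autoImplicit false

/-!
# Module GRAPH: the weak `∂̄` operators are closed, densely defined, and `∂̄² = 0`
-/

namespace Pool.Agent.DbarN

open MeasureTheory Complex Set
open scoped ComplexConjugate ContDiff

namespace Graph

variable {Ω : Set (ℂ × ℂ)}

/-! ### test functions -/

theorem fd_smooth {φ : ℂ × ℂ → ℂ} (h : ContDiff ℝ ∞ φ) (v : ℂ × ℂ) :
    ContDiff ℝ ∞ (fun p => fderiv ℝ φ p v) := by
  have h1 : ContDiff ℝ ∞ (fderiv ℝ φ) := h.fderiv_right (m := ∞) (by simp)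
  exact h1.clm_apply contDiff_const

theorem fd_supp {φ : ℂ × ℂ → ℂ} (v : ℂ × ℂ) :
    tsupport (fun p => fderiv ℝ φ p v) ⊆ tsupport φ := by
  apply closure_minimal _ (isClosed_tsupport φ)
  intro p hp
  by_contra hcon
  apply hp
  have : fderiv ℝ φ p = 0 := by
    have h2 := support_fderiv_subset ℝ (f := φ)
    by_contra h3
    exact hcon (h2 h3)
  simp [this]

theorem test_fd {φ : ℂ × ℂ → ℂ} (h : IsTest Ω φ) (v : ℂ × ℂ) :
    IsTest Ω (fun p => fderiv ℝ φ p v) :=
  ⟨fd_smooth h.smooth v, HasCompactSupport.of_support_subset_isCompact h.compact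
    (subset_closure.trans (fd_supp v)), (fd_supp v).trans h.supp⟩

theorem test_add {φ ψ : ℂ × ℂ → ℂ} (h : IsTest Ω φ) (h' : IsTest Ω ψ) :
    IsTest Ω (fun p => φ p + ψ p) :=
  ⟨h.smooth.add h'.smooth, h.compact.add h'.compact,
    (tsupport_add φ ψ).trans (union_subset h.supp h'.supp)⟩

theorem test_smul {φ : ℂ × ℂ → ℂ} (h : IsTest Ω φ) (c : ℂ) :
    IsTest Ω (fun p => c * φ p) :=
  ⟨contDiff_const.mul h.smooth, h.compact.mul_left,
    (tsupport_mul_subset_right).trans h.supp⟩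

theorem test_dzb {φ : ℂ × ℂ → ℂ} (h : IsTest Ω φ) : IsTest Ω (dzb φ) := by
  have h1 := test_smul (test_add (test_fd h (1, 0)) (test_smul (test_fd h (I, 0)) I)) (1 / 2)
  convert h1 using 2 with p
  simp only [dzb]
  ring

theorem test_dwb {φ : ℂ × ℂ → ℂ} (h : IsTest Ω φ) : IsTest Ω (dwb φ) := by
  have h1 := test_smul (test_add (test_fd h (0, 1)) (test_smul (test_fd h (0, I)) I)) (1 / 2)
  convert h1 using 2 with p
  simp only [dwb]
  ring

theorem test_conj {φ : ℂ × ℂ → ℂ} (h : IsTest Ω φ) : IsTest Ω (fun p => conj (φ p)) := by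
  refine ⟨?_, ?_, ?_⟩
  · exact (Complex.conjCLE.contDiff (n := ∞)).comp h.smooth
  · exact h.compact.comp_left (g := conj) (by simp)
  · refine Subset.trans ?_ h.supp
    exact closure_mono (fun p hp => by
      simp only [Function.mem_support, ne_eq, map_eq_zero] at hp ⊢
      exact hp)

theorem test_memLp {φ : ℂ × ℂ → ℂ} (h : IsTest Ω φ) (μ : Measure (ℂ × ℂ)) [IsLocallyFiniteMeasure μ] :
    MemLp φ 2 μ := h.smooth.continuous.memLp_of_hasCompactSupport h.compact

/-! ### the pairing -/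

/-- `f ↦ ∫ f ψ` as a continuous linear functional -/
noncomputable def pair {ψ : ℂ × ℂ → ℂ} (h : MemLp ψ 2 (volume.restrict Ω)) :
    L2 Ω →L[ℂ] ℂ := innerSL ℂ (MemLp.toLp _ h.star)

theorem pair_apply {ψ : ℂ × ℂ → ℂ} (h : MemLp ψ 2 (volume.restrict Ω)) (f : L2 Ω) :
    pair h f = ∫ p in Ω, f p * ψ p := by
  rw [pair, innerSL_apply_apply, L2.inner_def]
  apply integral_congr_ae
  filter_upwards [MemLp.coeFn_toLp h.star] with p hp
  rw [hp]
  simp [RCLike.inner_apply]

theorem pair_integrable {ψ : ℂ × ℂ → ℂ} (h : MemLp ψ 2 (volume.restrict Ω)) (f : L2 Ω) :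
    Integrable (fun p => f p * ψ p) (volume.restrict Ω) := by
  have h1 := L2.integrable_inner (𝕜 := ℂ) (MemLp.toLp _ h.star) f
  apply h1.congr
  filter_upwards [MemLp.coeFn_toLp h.star] with p hp
  rw [hp]
  simp [RCLike.inner_apply]

theorem eq_zero_of_pair {f : L2 Ω} (hΩ : IsOpen Ω)
    (h : ∀ φ, IsTest Ω φ → ∫ p in Ω, f p * φ p = 0) : f = 0 := by
  have h1 : ∀ᵐ p ∂(volume.restrict Ω), p ∈ Ω → f p = 0 := by
    apply hΩ.ae_eq_zero_of_integral_contDiff_smul_eq_zero
    · exact ((Lp.memLp f).locallyIntegrable (by norm_num)).locallyIntegrableOn Ω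
    · intro g hg hgc hgs
      have hT : IsTest Ω (fun p => ((g p : ℝ) : ℂ)) := by
        refine ⟨Complex.ofRealCLM.contDiff.comp hg, hgc.comp_left (g := Complex.ofReal) (by simp), ?_⟩
        refine Subset.trans (closure_mono ?_) hgs
        intro p hp
        simp only [Function.mem_support, ne_eq, ofReal_eq_zero] at hp ⊢
        exact hp
      rw [← h _ hT]
      apply integral_congr_ae
      filter_upwards with p
      simp [mul_comm]
  apply Lp.ext
  filter_upwards [h1, ae_restrict_mem hΩ.measurableSet, Lp.coeFn_zero ℂ 2 (volume.restrict Ω)]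
    with p hp hpΩ h0
  rw [hp hpΩ, h0]
  rfl

theorem toLp_mul {φ : ℂ × ℂ → ℂ} (h : MemLp φ 2 (volume.restrict Ω)) (ψ : ℂ × ℂ → ℂ) :
    ∫ p in Ω, (h.toLp φ) p * ψ p = ∫ p in Ω, φ p * ψ p := by
  apply integral_congr_ae
  filter_upwards [h.coeFn_toLp] with p hp
  rw [hp]

theorem inner_toLp {φ : ℂ × ℂ → ℂ} (h : MemLp (fun p => conj (φ p)) 2 (volume.restrict Ω))
    (f : L2 Ω) : inner ℂ (h.toLp _) f = ∫ p in Ω, f p * φ p := by
  rw [L2.inner_def]
  apply integral_congr_ae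
  filter_upwards [h.coeFn_toLp] with p hp
  rw [hp]
  simp [RCLike.inner_apply]

theorem zero_mul_int (ψ : ℂ × ℂ → ℂ) : ∫ p in Ω, (0 : L2 Ω) p * ψ p = 0 := by
  rw [integral_eq_zero_of_ae]
  filter_upwards [Lp.coeFn_zero ℂ 2 (volume.restrict Ω)] with p hp
  rw [hp]; simp

/-! ### integration by parts -/

instance haar2 : (volume : Measure (ℂ × ℂ)).IsAddHaarMeasure := by
  rw [Measure.volume_eq_prod]
  infer_instance

theorem setInt_eq {g : ℂ × ℂ → ℂ} (h : Function.support g ⊆ Ω) : ∫ p in Ω, g p = ∫ p, g p :=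
  setIntegral_eq_integral_of_forall_compl_eq_zero (fun p hp => by
    by_contra hcon
    exact hp (h hcon))

theorem ibp_fd {φ ψ : ℂ × ℂ → ℂ} (hφ : ContDiff ℝ ∞ φ) (hψ : ContDiff ℝ ∞ ψ)
    (hc : HasCompactSupport ψ) (v : ℂ × ℂ) :
    ∫ p, φ p * fderiv ℝ ψ p v = -∫ p, fderiv ℝ φ p v * ψ p := by
  have c1 : Continuous (fun p => fderiv ℝ φ p v) := (fd_smooth hφ v).continuous
  have c2 : Continuous (fun p => fderiv ℝ ψ p v) := (fd_smooth hψ v).continuous
  have hc2 : HasCompactSupport (fun p => fderiv ℝ ψ p v) :=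
    HasCompactSupport.of_support_subset_isCompact hc (subset_closure.trans (fd_supp v))
  apply integral_mul_fderiv_eq_neg_fderiv_mul_of_integrable
  · exact (c1.mul hψ.continuous).integrable_of_hasCompactSupport hc.mul_left
  · exact (hφ.continuous.mul c2).integrable_of_hasCompactSupport hc2.mul_left
  · exact (hφ.continuous.mul hψ.continuous).integrable_of_hasCompactSupport hc.mul_left
  · intro x _
    exact (hφ.differentiable (by simp)).differentiableAt
  · intro x _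
    exact (hψ.differentiable (by simp)).differentiableAt

theorem int_fd {φ ψ : ℂ × ℂ → ℂ} (hφ : ContDiff ℝ ∞ φ) (hψ : ContDiff ℝ ∞ ψ)
    (hc : HasCompactSupport ψ) (v : ℂ × ℂ) :
    Integrable (fun p => φ p * fderiv ℝ ψ p v) ∧ Integrable (fun p => fderiv ℝ φ p v * ψ p) := by
  have c1 : Continuous (fun p => fderiv ℝ φ p v) := (fd_smooth hφ v).continuous
  have c2 : Continuous (fun p => fderiv ℝ ψ p v) := (fd_smooth hψ v).continuous
  have hc2 : HasCompactSupport (fun p => fderiv ℝ ψ p v) :=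
    HasCompactSupport.of_support_subset_isCompact hc (subset_closure.trans (fd_supp v))
  exact ⟨(hφ.continuous.mul c2).integrable_of_hasCompactSupport hc2.mul_left,
    (c1.mul hψ.continuous).integrable_of_hasCompactSupport hc.mul_left⟩

theorem ibp_gen {φ ψ : ℂ × ℂ → ℂ} (hφ : ContDiff ℝ ∞ φ) (hψ : ContDiff ℝ ∞ ψ)
    (hc : HasCompactSupport ψ) (v w : ℂ × ℂ) :
    ∫ p, φ p * ((fderiv ℝ ψ p v + I * fderiv ℝ ψ p w) / 2) =
      -∫ p, ((fderiv ℝ φ p v + I * fderiv ℝ φ p w) / 2) * ψ p := by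
  obtain ⟨i1, i2⟩ := int_fd hφ hψ hc v
  obtain ⟨i3, i4⟩ := int_fd hφ hψ hc w
  have e1 : ∀ p, φ p * ((fderiv ℝ ψ p v + I * fderiv ℝ ψ p w) / 2) =
      (1 / 2) * (φ p * fderiv ℝ ψ p v) + (I / 2) * (φ p * fderiv ℝ ψ p w) := fun p => by ring
  have e2 : ∀ p, ((fderiv ℝ φ p v + I * fderiv ℝ φ p w) / 2) * ψ p =
      (1 / 2) * (fderiv ℝ φ p v * ψ p) + (I / 2) * (fderiv ℝ φ p w * ψ p) := fun p => by ring
  simp_rw [e1, e2]
  rw [integral_add (i1.const_mul _) (i3.const_mul _), integral_add (i2.const_mul _) (i4.const_mul _),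
    integral_const_mul, integral_const_mul, integral_const_mul, integral_const_mul,
    ibp_fd hφ hψ hc v, ibp_fd hφ hψ hc w]
  ring

theorem ibp_dzb {φ ψ : ℂ × ℂ → ℂ} (hφ : ContDiff ℝ ∞ φ) (h : IsTest Ω ψ) :
    ∫ p in Ω, φ p * dzb ψ p = -∫ p in Ω, dzb φ p * ψ p := by
  have h1 : ∫ p in Ω, φ p * dzb ψ p = ∫ p, φ p * dzb ψ p := by
    apply setInt_eq
    intro p hp
    have : dzb ψ p ≠ 0 := fun h0 => hp (by simp [h0])
    exact (test_dzb h).supp (subset_closure this)
  have h2 : ∫ p in Ω, dzb φ p * ψ p = ∫ p, dzb φ p * ψ p := by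
    apply setInt_eq
    intro p hp
    have : ψ p ≠ 0 := fun h0 => hp (by simp [h0])
    exact h.supp (subset_closure this)
  rw [h1, h2]
  exact ibp_gen hφ h.smooth h.compact _ _

theorem ibp_dwb {φ ψ : ℂ × ℂ → ℂ} (hφ : ContDiff ℝ ∞ φ) (h : IsTest Ω ψ) :
    ∫ p in Ω, φ p * dwb ψ p = -∫ p in Ω, dwb φ p * ψ p := by
  have h1 : ∫ p in Ω, φ p * dwb ψ p = ∫ p, φ p * dwb ψ p := by
    apply setInt_eq
    intro p hp
    have : dwb ψ p ≠ 0 := fun h0 => hp (by simp [h0])
    exact (test_dwb h).supp (subset_closure this)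
  have h2 : ∫ p in Ω, dwb φ p * ψ p = ∫ p, dwb φ p * ψ p := by
    apply setInt_eq
    intro p hp
    have : ψ p ≠ 0 := fun h0 => hp (by simp [h0])
    exact h.supp (subset_closure this)
  rw [h1, h2]
  exact ibp_gen hφ h.smooth h.compact _ _

theorem fd_comm {φ : ℂ × ℂ → ℂ} (h : ContDiff ℝ ∞ φ) (v w p : ℂ × ℂ) :
    fderiv ℝ (fun q => fderiv ℝ φ q v) p w = fderiv ℝ (fun q => fderiv ℝ φ q w) p v := by
  have h1 : ContDiff ℝ ∞ (fderiv ℝ φ) := h.fderiv_right (m := ∞) (by simp)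
  have h2 : DifferentiableAt ℝ (fderiv ℝ φ) p := (h1.differentiable (by simp)).differentiableAt
  have e : ∀ u : ℂ × ℂ, fderiv ℝ (fun q => fderiv ℝ φ q u) p =
      (fderiv ℝ (fderiv ℝ φ) p).flip u := by
    intro u
    rw [fderiv_clm_apply h2 (differentiableAt_const u)]
    simp
  rw [e v, e w]
  have h3 : IsSymmSndFDerivAt ℝ φ p := 
    h.contDiffAt.isSymmSndFDerivAt (by
      simp only [minSmoothness_of_isRCLikeNormedField]
      exact WithTop.coe_le_coe.2 le_top)
  exact h3 w v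

theorem dzb_dwb {φ : ℂ × ℂ → ℂ} (h : ContDiff ℝ ∞ φ) (p : ℂ × ℂ) :
    dzb (dwb φ) p = dwb (dzb φ) p := by
  have hd : ∀ v : ℂ × ℂ, DifferentiableAt ℝ (fun q => fderiv ℝ φ q v) p := fun v =>
    ((fd_smooth h v).differentiable (by simp)).differentiableAt
  have e : ∀ v w u : ℂ × ℂ, fderiv ℝ (fun q => (fderiv ℝ φ q v + I * fderiv ℝ φ q w) / 2) p u =
      (fderiv ℝ (fun q => fderiv ℝ φ q v) p u + I * fderiv ℝ (fun q => fderiv ℝ φ q w) p u) / 2 := by
    intro v w u
    have e1 : (fun q => (fderiv ℝ φ q v + I * fderiv ℝ φ q w) / 2) =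
        fun q => (2⁻¹ : ℂ) * (fderiv ℝ φ q v + I * fderiv ℝ φ q w) := by
      funext q; ring
    have e2 : DifferentiableAt ℝ (fun q => fderiv ℝ φ q v + I * fderiv ℝ φ q w) p :=
      (hd v).add ((hd w).const_mul I)
    rw [e1, fderiv_const_mul e2,
      fderiv_fun_add (hd v) ((hd w).const_mul I), fderiv_const_mul (hd w)]
    simp
    ring
  simp only [dzb, dwb] at *
  unfold dwb dzb
  rw [e, e, e, e, fd_comm h (0, 1) (1, 0), fd_comm h (0, I) (1, 0), fd_comm h (0, 1) (I, 0),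
    fd_comm h (0, I) (I, 0)]
  ring

/-! ### graphs -/

/-- projections of the orthogonal sum -/
noncomputable def fstL : L2F Ω →L[ℂ] L2 Ω :=
  (ContinuousLinearMap.fst ℂ (L2 Ω) (L2 Ω)).comp
    (WithLp.prodContinuousLinearEquiv 2 ℂ (L2 Ω) (L2 Ω)).toContinuousLinearMap

noncomputable def sndL : L2F Ω →L[ℂ] L2 Ω :=
  (ContinuousLinearMap.snd ℂ (L2 Ω) (L2 Ω)).comp
    (WithLp.prodContinuousLinearEquiv 2 ℂ (L2 Ω) (L2 Ω)).toContinuousLinearMap

theorem fstL_apply (u : L2F Ω) : fstL u = u.fst := rfl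
theorem sndL_apply (u : L2F Ω) : sndL u = u.snd := rfl

end Graph

open Pool.Agent.DbarN.Graph

theorem graph0 (Ω : Set (ℂ × ℂ)) (hΩ : IsOpen Ω) :
    ∃ G : Submodule ℂ (L2 Ω × L2F Ω), (∀ f u, (f, u) ∈ G ↔ IsDbar0 Ω f u) ∧
      IsClosed (G : Set (L2 Ω × L2F Ω)) ∧ (∀ u, ((0 : L2 Ω), u) ∈ G → u = 0) ∧
      Dense {f : L2 Ω | ∃ u, (f, u) ∈ G} := by
  classical
  let PA : {φ : ℂ × ℂ → ℂ // IsTest Ω φ} → (L2 Ω × L2F Ω →L[ℂ] ℂ) := fun φ =>
    (pair (test_memLp (test_dzb φ.2) (volume.restrict Ω))).comp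
        (ContinuousLinearMap.fst ℂ (L2 Ω) (L2F Ω)) +
      (pair (test_memLp φ.2 (volume.restrict Ω))).comp
        (fstL.comp (ContinuousLinearMap.snd ℂ (L2 Ω) (L2F Ω)))
  let PB : {φ : ℂ × ℂ → ℂ // IsTest Ω φ} → (L2 Ω × L2F Ω →L[ℂ] ℂ) := fun φ =>
    (pair (test_memLp (test_dwb φ.2) (volume.restrict Ω))).comp
        (ContinuousLinearMap.fst ℂ (L2 Ω) (L2F Ω)) +
      (pair (test_memLp φ.2 (volume.restrict Ω))).comp
        (sndL.comp (ContinuousLinearMap.snd ℂ (L2 Ω) (L2F Ω)))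
  let G : Submodule ℂ (L2 Ω × L2F Ω) := 
    ⨅ φ, (LinearMap.ker (PA φ).toLinearMap) ⊓ (LinearMap.ker (PB φ).toLinearMap)
  have hG : ∀ f u, (f, u) ∈ G ↔ IsDbar0 Ω f u := by
    intro f u
    simp only [G, Submodule.mem_iInf, Submodule.mem_inf, LinearMap.mem_ker]
    constructor
    · intro h φ hφ
      obtain ⟨h1, h2⟩ := h ⟨φ, hφ⟩
      have h1' : pair (test_memLp (test_dzb hφ) (volume.restrict Ω)) f +
        pair (test_memLp hφ (volume.restrict Ω)) u.fst = 0 := h1
      have h2' : pair (test_memLp (test_dwb hφ) (volume.restrict Ω)) f +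
        pair (test_memLp hφ (volume.restrict Ω)) u.snd = 0 := h2
      rw [pair_apply, pair_apply] at h1' h2'
      exact ⟨eq_neg_of_add_eq_zero_left h1', eq_neg_of_add_eq_zero_left h2'⟩
    · rintro h ⟨φ, hφ⟩
      obtain ⟨h1, h2⟩ := h φ hφ
      refine ⟨?_, ?_⟩
      · change pair (test_memLp (test_dzb hφ) (volume.restrict Ω)) f +
          pair (test_memLp hφ (volume.restrict Ω)) u.fst = 0
        rw [pair_apply, pair_apply, h1]
        ring
      · change pair (test_memLp (test_dwb hφ) (volume.restrict Ω)) f +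
          pair (test_memLp hφ (volume.restrict Ω)) u.snd = 0
        rw [pair_apply, pair_apply, h2]
        ring
  refine ⟨G, hG, ?_, ?_, ?_⟩
  · simp only [G, Submodule.coe_iInf, Submodule.coe_inf]
    apply isClosed_iInter
    intro φ
    exact (PA φ).isClosed_ker.inter (PB φ).isClosed_ker
  · intro u hu
    have h := (hG 0 u).1 hu
    have z : ∀ ψ : ℂ × ℂ → ℂ, ∫ p in Ω, (0 : L2 Ω) p * ψ p = 0 := zero_mul_int
    have h1 : u.fst = 0 := eq_zero_of_pair hΩ (fun φ hφ => by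
      have := (h φ hφ).1
      rw [z] at this
      exact neg_eq_zero.1 this.symm)
    have h2 : u.snd = 0 := eq_zero_of_pair hΩ (fun φ hφ => by
      have := (h φ hφ).2
      rw [z] at this
      exact neg_eq_zero.1 this.symm)
    apply (WithLp.ofLp_injective 2)
    exact Prod.ext h1 h2
  · let M : Submodule ℂ (L2 Ω) := G.map (LinearMap.fst ℂ (L2 Ω) (L2F Ω))
    have hM : {f : L2 Ω | ∃ u, (f, u) ∈ G} = (M : Set (L2 Ω)) := by
      ext f
      simp [M]
    rw [hM, Submodule.dense_iff_topologicalClosure_eq_top, Submodule.topologicalClosure_eq_top_iff,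
      Submodule.eq_bot_iff]
    intro f hf
    apply eq_zero_of_pair hΩ
    intro φ hφ
    have hcφ := test_conj hφ
    have hm := test_memLp hcφ (volume.restrict Ω)
    have hmem : hm.toLp ∈ M := by
      refine ⟨(hm.toLp, WithLp.toLp 2 ((test_memLp (test_dzb hcφ) (volume.restrict Ω)).toLp,
        (test_memLp (test_dwb hcφ) (volume.restrict Ω)).toLp)), ?_, rfl⟩
      rw [SetLike.mem_coe, hG]
      intro ψ hψ
      constructor
      · change ∫ p in Ω, (hm.toLp _) p * dzb ψ p =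
          -∫ p in Ω, ((test_memLp (test_dzb hcφ) (volume.restrict Ω)).toLp _) p * ψ p
        rw [toLp_mul, toLp_mul]
        exact ibp_dzb hcφ.smooth hψ
      · change ∫ p in Ω, (hm.toLp _) p * dwb ψ p =
          -∫ p in Ω, ((test_memLp (test_dwb hcφ) (volume.restrict Ω)).toLp _) p * ψ p
        rw [toLp_mul, toLp_mul]
        exact ibp_dwb hcφ.smooth hψ
    have h3 := hf _ hmem
    rwa [inner_toLp] at h3

theorem graph1 (Ω : Set (ℂ × ℂ)) (hΩ : IsOpen Ω) :
    ∃ G : Submodule ℂ (L2F Ω × L2 Ω), (∀ u v, (u, v) ∈ G ↔ IsDbar1 Ω u v) ∧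
      IsClosed (G : Set (L2F Ω × L2 Ω)) ∧ (∀ v, ((0 : L2F Ω), v) ∈ G → v = 0) ∧
      Dense {u : L2F Ω | ∃ v, (u, v) ∈ G} := by
  classical
  let PA : {φ : ℂ × ℂ → ℂ // IsTest Ω φ} → (L2F Ω × L2 Ω →L[ℂ] ℂ) := fun φ =>
    (pair (test_memLp (test_dzb φ.2) (volume.restrict Ω))).comp
        (sndL.comp (ContinuousLinearMap.fst ℂ (L2F Ω) (L2 Ω))) -
      (pair (test_memLp (test_dwb φ.2) (volume.restrict Ω))).comp
        (fstL.comp (ContinuousLinearMap.fst ℂ (L2F Ω) (L2 Ω))) +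
      (pair (test_memLp φ.2 (volume.restrict Ω))).comp
        (ContinuousLinearMap.snd ℂ (L2F Ω) (L2 Ω))
  let G : Submodule ℂ (L2F Ω × L2 Ω) := ⨅ φ, LinearMap.ker (PA φ).toLinearMap
  have hG : ∀ u v, (u, v) ∈ G ↔ IsDbar1 Ω u v := by
    intro u v
    simp only [G, Submodule.mem_iInf, LinearMap.mem_ker]
    have key : ∀ φ (hφ : IsTest Ω φ), (PA ⟨φ, hφ⟩) (u, v) =
        (∫ p in Ω, (u.snd p * dzb φ p - u.fst p * dwb φ p)) + ∫ p in Ω, v p * φ p := by
      intro φ hφ
      change pair (test_memLp (test_dzb hφ) (volume.restrict Ω)) u.snd -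
        pair (test_memLp (test_dwb hφ) (volume.restrict Ω)) u.fst +
        pair (test_memLp hφ (volume.restrict Ω)) v = _
      rw [pair_apply, pair_apply, pair_apply,
        integral_sub (pair_integrable (test_memLp (test_dzb hφ) _) _)
          (pair_integrable (test_memLp (test_dwb hφ) _) _)]
    constructor
    · intro h φ hφ
      have h1 := h ⟨φ, hφ⟩
      change (PA ⟨φ, hφ⟩) (u, v) = 0 at h1
      rw [key] at h1
      exact eq_neg_of_add_eq_zero_left h1
    · rintro h ⟨φ, hφ⟩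
      change (PA ⟨φ, hφ⟩) (u, v) = 0
      rw [key, h φ hφ]
      ring
  refine ⟨G, hG, ?_, ?_, ?_⟩
  · simp only [G, Submodule.coe_iInf]
    apply isClosed_iInter
    intro φ
    exact (PA φ).isClosed_ker
  · intro v hv
    have h := (hG 0 v).1 hv
    apply eq_zero_of_pair hΩ
    intro φ hφ
    have h1 := h φ hφ
    have e1 : ∫ p in Ω, ((0 : L2F Ω).snd p * dzb φ p - (0 : L2F Ω).fst p * dwb φ p) = 0 := by
      rw [integral_sub (pair_integrable (test_memLp (test_dzb hφ) _) _)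
          (pair_integrable (test_memLp (test_dwb hφ) _) _)]
      have z1 : ∫ p in Ω, (0 : L2F Ω).snd p * dzb φ p = 0 := zero_mul_int _
      have z2 : ∫ p in Ω, (0 : L2F Ω).fst p * dwb φ p = 0 := zero_mul_int _
      rw [z1, z2, sub_zero]
    rw [e1] at h1
    exact neg_eq_zero.1 h1.symm
  · let M : Submodule ℂ (L2F Ω) := G.map (LinearMap.fst ℂ (L2F Ω) (L2 Ω))
    have hM : {u : L2F Ω | ∃ v, (u, v) ∈ G} = (M : Set (L2F Ω)) := by
      ext f
      simp [M]
    rw [hM, Submodule.dense_iff_topologicalClosure_eq_top, Submodule.topologicalClosure_eq_top_iff,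
      Submodule.eq_bot_iff]
    intro w hw
    have key : w.fst = 0 ∧ w.snd = 0 := by
      constructor
      · apply eq_zero_of_pair hΩ
        intro φ hφ
        have hcφ := test_conj hφ
        have hm := test_memLp hcφ (volume.restrict Ω)
        have hmw := test_memLp (test_dwb hcφ) (volume.restrict Ω)
        have hmem : (WithLp.toLp 2 (hm.toLp _, (0 : L2 Ω)) : L2F Ω) ∈ M := by
          refine ⟨(WithLp.toLp 2 (hm.toLp _, (0 : L2 Ω)), (-1 : ℂ) • hmw.toLp _), ?_, rfl⟩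
          rw [SetLike.mem_coe, hG]
          intro ψ hψ
          rw [integral_sub (pair_integrable (test_memLp (test_dzb hψ) _) _)
            (pair_integrable (test_memLp (test_dwb hψ) _) _)]
          change (∫ p in Ω, (0 : L2 Ω) p * dzb ψ p) - (∫ p in Ω, (hm.toLp _) p * dwb ψ p) = _
          have e : ∫ p in Ω, ((-1 : ℂ) • hmw.toLp _) p * ψ p = -∫ p in Ω, (hmw.toLp _) p * ψ p := by
            rw [← integral_neg]
            apply integral_congr_ae
            filter_upwards [Lp.coeFn_smul (-1 : ℂ) (hmw.toLp _)] with p hp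
            rw [hp]
            simp
          rw [e, zero_mul_int, toLp_mul, zero_sub, ibp_dwb hcφ.smooth hψ, toLp_mul, neg_neg]
        have h3 := hw _ hmem
        rw [WithLp.prod_inner_apply] at h3
        change inner ℂ (hm.toLp _) w.fst + inner ℂ (0 : L2 Ω) w.snd = 0 at h3
        rwa [inner_zero_left, add_zero, inner_toLp] at h3
      · apply eq_zero_of_pair hΩ
        intro φ hφ
        have hcφ := test_conj hφ
        have hm := test_memLp hcφ (volume.restrict Ω)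
        have hmw := test_memLp (test_dzb hcφ) (volume.restrict Ω)
        have hmem : (WithLp.toLp 2 ((0 : L2 Ω), hm.toLp _) : L2F Ω) ∈ M := by
          refine ⟨(WithLp.toLp 2 ((0 : L2 Ω), hm.toLp _), hmw.toLp _), ?_, rfl⟩
          rw [SetLike.mem_coe, hG]
          intro ψ hψ
          rw [integral_sub (pair_integrable (test_memLp (test_dzb hψ) _) _)
            (pair_integrable (test_memLp (test_dwb hψ) _) _)]
          change (∫ p in Ω, (hm.toLp _) p * dzb ψ p) - (∫ p in Ω, (0 : L2 Ω) p * dwb ψ p) = _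
          rw [zero_mul_int, toLp_mul, sub_zero, ibp_dzb hcφ.smooth hψ, toLp_mul]
        have h3 := hw _ hmem
        rw [WithLp.prod_inner_apply] at h3
        change inner ℂ (0 : L2 Ω) w.fst + inner ℂ (hm.toLp _) w.snd = 0 at h3
        rwa [inner_zero_left, zero_add, inner_toLp] at h3
    apply (WithLp.ofLp_injective 2)
    exact Prod.ext key.1 key.2

theorem dbar_comp (Ω : Set (ℂ × ℂ)) (_hΩ : IsOpen Ω) (f : L2 Ω) (u : L2F Ω)
    (h : IsDbar0 Ω f u) : IsDbar1 Ω u 0 := by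
  intro φ hφ
  have h1 := (h _ (test_dwb hφ)).1
  have h2 := (h _ (test_dzb hφ)).2
  rw [integral_sub (pair_integrable (test_memLp (test_dzb hφ) _) _)
    (pair_integrable (test_memLp (test_dwb hφ) _) _)]
  have h3 : ∫ p in Ω, f p * dzb (dwb φ) p = ∫ p in Ω, f p * dwb (dzb φ) p := by
    apply integral_congr_ae
    filter_upwards with p
    rw [dzb_dwb hφ.smooth]
  have h4 : ∫ p in Ω, (0 : L2 Ω) p * φ p = 0 := zero_mul_int _
  rw [h4]
  rw [h3, h2] at h1
  rw [neg_inj.1 h1]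
  simp

end Pool.Agent.DbarN
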