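import Pool.Agent.DbarN.Prof

set_option autoImplicit false

/-!
# GROUND: a solution of `-φ'' = exp (2x) φ` with two consecutive zeros
-/

namespace Pool.Agent.DbarN

open Set
open scoped ContDiff

/-- terms of `J₀ (exp x)` -/
noncomputable def gA (m : ℕ) (x : ℝ) : ℝ :=
  (-1) ^ m * Real.exp (2 * m * x) / (4 ^ m * (m.factorial : ℝ) ^ 2)

theorem gA_deriv (m : ℕ) (x : ℝ) : HasDerivAt (gA m) (2 * m * gA m x) x := by
  unfold gA
  have h1 : HasDerivAt (fun x : ℝ => 2 * (m : ℝ) * x) (2 * m) x := by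
    simpa using (hasDerivAt_id x).const_mul (2 * (m : ℝ))
  have h2 := ((h1.exp).const_mul ((-1 : ℝ) ^ m)).div_const (4 ^ m * (m.factorial : ℝ) ^ 2)
  refine h2.congr_deriv ?_
  field_simp

theorem gA_abs (m : ℕ) (x : ℝ) :
    |gA m x| = (Real.exp (2 * x) / 4) ^ m / (m.factorial : ℝ) ^ 2 := by
  unfold gA
  rw [abs_div, abs_mul, abs_pow, abs_neg, abs_one, one_pow, one_mul, abs_of_pos (Real.exp_pos _),
    abs_of_pos (by positivity), div_pow, ← Real.exp_nat_mul, div_div]
  congr 2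
  ring

theorem gA_bound (m : ℕ) {x M : ℝ} (hx : x < M) :
    (m : ℝ) ^ 2 * |gA m x| ≤ Real.exp (2 * M) ^ m / (m.factorial : ℝ) := by
  rw [gA_abs]
  have h1 : (m : ℝ) ^ 2 ≤ 4 ^ m := by
    have h2 : (m : ℝ) ≤ 2 ^ m := by exact_mod_cast (Nat.lt_two_pow_self (n := m)).le
    calc (m : ℝ) ^ 2 ≤ (2 ^ m) ^ 2 := by gcongr
      _ = 4 ^ m := by rw [← pow_mul, mul_comm, pow_mul]; norm_num
  have h2 : Real.exp (2 * x) ≤ Real.exp (2 * M) := Real.exp_le_exp.2 (by linarith)
  have h3 : (1 : ℝ) ≤ m.factorial := by exact_mod_cast m.factorial_pos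
  calc (m : ℝ) ^ 2 * ((Real.exp (2 * x) / 4) ^ m / (m.factorial : ℝ) ^ 2)
      ≤ 4 ^ m * ((Real.exp (2 * M) / 4) ^ m / (m.factorial : ℝ) ^ 2) := by gcongr
    _ = Real.exp (2 * M) ^ m / (m.factorial : ℝ) ^ 2 := by
        rw [← mul_div_assoc, ← mul_pow]; congr 2; ring
    _ ≤ Real.exp (2 * M) ^ m / (m.factorial : ℝ) := by
        gcongr
        nlinarith

theorem gA_bound0 (m : ℕ) {x M : ℝ} (hx : x < M) :
    |gA m x| ≤ Real.exp (2 * M) ^ m / (m.factorial : ℝ) := by
  rcases Nat.eq_zero_or_pos m with rfl | hm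
  · simp [gA]
  · have h1 := gA_bound m hx
    have h2 : (1 : ℝ) ≤ (m : ℝ) ^ 2 := by
      have : (1 : ℝ) ≤ m := by exact_mod_cast hm
      nlinarith
    nlinarith [abs_nonneg (gA m x)]

theorem gA_bound1 (m : ℕ) {x M : ℝ} (hx : x < M) :
    ‖2 * (m : ℝ) * gA m x‖ ≤ 2 * (Real.exp (2 * M) ^ m / (m.factorial : ℝ)) := by
  have h1 := gA_bound m hx
  rw [Real.norm_eq_abs, abs_mul, abs_mul, abs_two, abs_of_nonneg (Nat.cast_nonneg m)]
  have h2 : (m : ℝ) ≤ (m : ℝ) ^ 2 := by
    rcases Nat.eq_zero_or_pos m with rfl | hm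
    · simp
    · have : (1 : ℝ) ≤ m := by exact_mod_cast hm
      nlinarith
  nlinarith [abs_nonneg (gA m x)]

theorem gA_bound2 (m : ℕ) {x M : ℝ} (hx : x < M) :
    ‖2 * (m : ℝ) * (2 * (m : ℝ) * gA m x)‖ ≤ 4 * (Real.exp (2 * M) ^ m / (m.factorial : ℝ)) := by
  have h1 := gA_bound m hx
  rw [Real.norm_eq_abs]
  have : 2 * (m : ℝ) * (2 * (m : ℝ) * gA m x) = 4 * ((m : ℝ) ^ 2 * gA m x) := by ring
  rw [this, abs_mul, abs_mul, abs_of_nonneg (by positivity : (0 : ℝ) ≤ 4),
    abs_of_nonneg (by positivity : (0 : ℝ) ≤ (m : ℝ) ^ 2)]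
  linarith

theorem gA_summable (x : ℝ) : Summable (fun m => gA m x) := by
  apply Summable.of_norm_bounded (Real.summable_pow_div_factorial (Real.exp (2 * (x + 1))))
  intro m
  exact gA_bound0 m (by linarith)

theorem gA_summable1 (x : ℝ) : Summable (fun m : ℕ => 2 * (m : ℝ) * gA m x) := by
  apply Summable.of_norm_bounded
    ((Real.summable_pow_div_factorial (Real.exp (2 * (x + 1)))).mul_left 2)
  intro m
  exact gA_bound1 m (by linarith)

theorem gA_summable2 (x : ℝ) : Summable (fun m : ℕ => 2 * (m : ℝ) * (2 * (m : ℝ) * gA m x)) := by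
  apply Summable.of_norm_bounded
    ((Real.summable_pow_div_factorial (Real.exp (2 * (x + 1)))).mul_left 4)
  intro m
  exact gA_bound2 m (by linarith)

/-- the solution -/
noncomputable def gφ (x : ℝ) : ℝ := -∑' m, gA m x

/-- its derivative -/
noncomputable def gφ' (x : ℝ) : ℝ := -∑' m : ℕ, 2 * (m : ℝ) * gA m x

theorem gφ_hasDerivAt (x : ℝ) : HasDerivAt gφ (gφ' x) x := by
  unfold gφ'
  apply HasDerivAt.neg
  exact hasDerivAt_tsum_of_isPreconnected
    ((Real.summable_pow_div_factorial (Real.exp (2 * (x + 1)))).mul_left 2)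
    isOpen_Iio isPreconnected_Iio (fun n y _ => gA_deriv n y)
    (fun n y hy => gA_bound1 n hy) (show x ∈ Iio (x + 1) by simp) (gA_summable x)
    (show x ∈ Iio (x + 1) by simp)

theorem gA_succ (m : ℕ) (x : ℝ) :
    2 * ((m + 1 : ℕ) : ℝ) * (2 * ((m + 1 : ℕ) : ℝ) * gA (m + 1) x) =
      -(Real.exp (2 * x) * gA m x) := by
  unfold gA
  have h1 : Real.exp (2 * ((m + 1 : ℕ) : ℝ) * x) = Real.exp (2 * x) * Real.exp (2 * m * x) := by
    rw [← Real.exp_add]; congr 1; push_cast; ring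
  rw [h1, Nat.factorial_succ]
  have h2 : (m.factorial : ℝ) ≠ 0 := by positivity
  have h3 : ((m + 1 : ℕ) : ℝ) ≠ 0 := by positivity
  push_cast at h3 ⊢
  field_simp
  ring

theorem gφ'_hasDerivAt (x : ℝ) : HasDerivAt gφ' (-(Real.exp (2 * x) * gφ x)) x := by
  have h1 : HasDerivAt (fun z => ∑' m : ℕ, 2 * (m : ℝ) * gA m z)
      (∑' m : ℕ, 2 * (m : ℝ) * (2 * (m : ℝ) * gA m x)) x :=
    hasDerivAt_tsum_of_isPreconnected
      ((Real.summable_pow_div_factorial (Real.exp (2 * (x + 1)))).mul_left 4)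
      isOpen_Iio isPreconnected_Iio (fun n y _ => (gA_deriv n y).const_mul (2 * (n : ℝ)))
      (fun n y hy => gA_bound2 n hy) (show x ∈ Iio (x + 1) by simp) (gA_summable1 x)
      (show x ∈ Iio (x + 1) by simp)
  have h2 : (∑' m : ℕ, 2 * (m : ℝ) * (2 * (m : ℝ) * gA m x)) = Real.exp (2 * x) * gφ x := by
    rw [(gA_summable2 x).tsum_eq_zero_add]
    simp only [gA_succ]
    rw [tsum_neg, tsum_mul_left]
    unfold gφ
    simp
  rw [← h2]
  exact h1.neg

theorem gφ_smooth : ContDiff ℝ ∞ gφ := by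
  have hd : deriv gφ = gφ' := funext fun x => (gφ_hasDerivAt x).deriv
  have hd' : deriv gφ' = fun x => -(Real.exp (2 * x) * gφ x) :=
    funext fun x => (gφ'_hasDerivAt x).deriv
  have h : ∀ n : ℕ, ContDiff ℝ n gφ ∧ ContDiff ℝ n gφ' := by
    intro n
    induction n with
    | zero =>
      refine ⟨contDiff_zero.2 ?_, contDiff_zero.2 ?_⟩
      · exact continuous_iff_continuousAt.2 fun x => (gφ_hasDerivAt x).continuousAt
      · exact continuous_iff_continuousAt.2 fun x => (gφ'_hasDerivAt x).continuousAt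
    | succ n ih =>
      refine ⟨?_, ?_⟩
      · have := (contDiff_succ_iff_deriv (n := n) (f := gφ)).2
          ⟨fun x => (gφ_hasDerivAt x).differentiableAt, by simp, by rw [hd]; exact ih.2⟩
        exact_mod_cast this
      · have := (contDiff_succ_iff_deriv (n := n) (f := gφ')).2
          ⟨fun x => (gφ'_hasDerivAt x).differentiableAt, by simp, by
            rw [hd']
            exact ((Real.contDiff_exp.comp (contDiff_const.mul contDiff_id)).mul ih.1).neg⟩
        exact_mod_cast this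
  exact contDiff_infty.2 fun n => (h n).1

theorem gA_tail_aux (N m : ℕ) (y : ℝ) (hy0 : 0 < y) :
    y ^ (m + N) / ((m + N).factorial : ℝ) ^ 2 ≤
      y ^ N / (N.factorial : ℝ) ^ 2 * (y / ((N : ℝ) + 1) ^ 2) ^ m := by
  induction m with
  | zero => simp
  | succ m ih =>
    have e1 : y ^ (m + 1 + N) / ((m + 1 + N).factorial : ℝ) ^ 2 =
        y ^ (m + N) / ((m + N).factorial : ℝ) ^ 2 * (y / ((m + N : ℕ) + 1 : ℝ) ^ 2) := by
      have : m + 1 + N = (m + N) + 1 := by ring
      rw [this, Nat.factorial_succ]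
      push_cast
      have h3 : ((m + N).factorial : ℝ) ≠ 0 := by positivity
      have h4 : ((m : ℝ) + N + 1) ≠ 0 := by positivity
      field_simp
      ring
    rw [e1, pow_succ (y / ((N : ℝ) + 1) ^ 2) m, ← mul_assoc]
    have e2 : y / ((m + N : ℕ) + 1 : ℝ) ^ 2 ≤ y / ((N : ℝ) + 1) ^ 2 := by
      gcongr
      push_cast
      linarith [(Nat.cast_nonneg m : (0 : ℝ) ≤ m)]
    exact mul_le_mul ih e2 (by positivity) (by positivity)

/-- tail estimate -/
theorem gA_tail (N : ℕ) (x y : ℝ) (hy : Real.exp (2 * x) / 4 = y) (hN : y < ((N : ℝ) + 1) ^ 2) :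
    |(∑' m, gA m x) - ∑ m ∈ Finset.range N, gA m x| ≤
      y ^ N / (N.factorial : ℝ) ^ 2 * (1 - y / ((N : ℝ) + 1) ^ 2)⁻¹ := by
  have hy0 : 0 < y := by rw [← hy]; positivity
  have h1 : (∑' m, gA m x) - ∑ m ∈ Finset.range N, gA m x = ∑' m, gA (m + N) x := by
    rw [← (gA_summable x).sum_add_tsum_nat_add N]; ring
  rw [h1]
  have hr0 : 0 ≤ y / ((N : ℝ) + 1) ^ 2 := by positivity
  have hr1 : y / ((N : ℝ) + 1) ^ 2 < 1 := by rw [div_lt_one (by positivity)]; exact hN
  have h2 := (hasSum_geometric_of_lt_one hr0 hr1).mul_left (y ^ N / (N.factorial : ℝ) ^ 2)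
  have h3 : ‖∑' m, gA (m + N) x‖ ≤ y ^ N / (N.factorial : ℝ) ^ 2 *
      (1 - y / ((N : ℝ) + 1) ^ 2)⁻¹ := by
    apply tsum_of_norm_bounded h2
    intro m
    rw [Real.norm_eq_abs, gA_abs, hy]
    exact gA_tail_aux N m y hy0
  exact h3

theorem gA_eval (m : ℕ) (x y : ℝ) (hy : Real.exp (2 * x) / 4 = y) :
    gA m x = (-1) ^ m * y ^ m / (m.factorial : ℝ) ^ 2 := by
  unfold gA
  rw [← hy, div_pow, ← Real.exp_nat_mul]
  have : (m : ℝ) * (2 * x) = 2 * m * x := by ring
  rw [this]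
  field_simp

theorem gφ_neg1 : gφ (Real.log 2) < 0 := by
  have hy : Real.exp (2 * Real.log 2) / 4 = 1 := by
    rw [mul_comm, Real.exp_mul, Real.exp_log (by norm_num)]; norm_num
  have h1 := gA_tail 4 (Real.log 2) 1 hy (by norm_num)
  have h2 : ∑ m ∈ Finset.range 4, gA m (Real.log 2) = 2 / 9 := by
    simp only [Finset.sum_range_succ, Finset.sum_range_zero, gA_eval _ _ _ hy]
    norm_num [Nat.factorial]
  rw [h2] at h1
  norm_num [Nat.factorial] at h1
  have h3 := (abs_le.1 h1).1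
  unfold gφ
  linarith

theorem gφ_pos2 : 0 < gφ (Real.log 4) := by
  have hy : Real.exp (2 * Real.log 4) / 4 = 4 := by
    rw [mul_comm, Real.exp_mul, Real.exp_log (by norm_num)]; norm_num
  have h1 := gA_tail 4 (Real.log 4) 4 hy (by norm_num)
  have h2 : ∑ m ∈ Finset.range 4, gA m (Real.log 4) = -7 / 9 := by
    simp only [Finset.sum_range_succ, Finset.sum_range_zero, gA_eval _ _ _ hy]
    norm_num [Nat.factorial]
  rw [h2] at h1
  norm_num [Nat.factorial] at h1
  have h3 := (abs_le.1 h1).2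
  unfold gφ
  linarith

theorem gφ_neg3 : gφ (Real.log 6) < 0 := by
  have hy : Real.exp (2 * Real.log 6) / 4 = 9 := by
    rw [mul_comm, Real.exp_mul, Real.exp_log (by norm_num)]; norm_num
  have h1 := gA_tail 8 (Real.log 6) 9 hy (by norm_num)
  have h2 : (1 : ℝ) / 10 ≤ ∑ m ∈ Finset.range 8, gA m (Real.log 6) := by
    simp only [Finset.sum_range_succ, Finset.sum_range_zero, gA_eval _ _ _ hy]
    norm_num [Nat.factorial]
  norm_num [Nat.factorial] at h1
  have h3 := (abs_le.1 h1).1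
  unfold gφ
  linarith

theorem gφ_cont : Continuous gφ :=
  continuous_iff_continuousAt.2 fun x => (gφ_hasDerivAt x).continuousAt

/-- last zero before a positive value -/
theorem gφ_left {f : ℝ → ℝ} (hf : Continuous f) {x y : ℝ} (hxy : x < y) (hx : f x < 0)
    (hy : 0 < f y) : ∃ a, x < a ∧ a < y ∧ f a = 0 ∧ ∀ t, a < t → t ≤ y → 0 < f t := by
  have hK : IsCompact (Icc x y ∩ {t | f t ≤ 0}) :=
    isCompact_Icc.inter_right (isClosed_le hf continuous_const)
  obtain ⟨a, ⟨ha1, ha2⟩, ha3⟩ := hK.exists_isGreatest ⟨x, ⟨⟨le_rfl, hxy.le⟩, hx.le⟩⟩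
  have hay : a < y := by
    rcases ha1.2.lt_or_eq with h | h
    · exact h
    · rw [h] at ha2; exact absurd ha2 (not_le.2 hy)
  have hpos : ∀ t, a < t → t ≤ y → 0 < f t := by
    intro t h1 h2
    by_contra h
    exact absurd (ha3 ⟨⟨ha1.1.trans h1.le, h2⟩, not_lt.1 h⟩) (not_le.2 h1)
  have ha0 : f a = 0 := by
    by_contra h
    have hlt : f a < 0 := lt_of_le_of_ne ha2 h
    obtain ⟨c, hc, hc0⟩ := intermediate_value_Icc hay.le hf.continuousOn ⟨hlt.le, hy.le⟩
    rcases hc.1.lt_or_eq with h' | h'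
    · exact (hpos c h' hc.2).ne' hc0
    · rw [← h'] at hc0; exact h hc0
  refine ⟨a, ?_, hay, ha0, hpos⟩
  rcases ha1.1.lt_or_eq with h | h
  · exact h
  · rw [h] at hx; exact absurd ha0 hx.ne

/-- first zero after a positive value -/
theorem gφ_right {f : ℝ → ℝ} (hf : Continuous f) {x y : ℝ} (hxy : x < y) (hx : 0 < f x)
    (hy : f y < 0) : ∃ b, x < b ∧ b < y ∧ f b = 0 ∧ ∀ t, x ≤ t → t < b → 0 < f t := by
  obtain ⟨a, h1, h2, h3, h4⟩ := gφ_left (f := fun t => f (-t)) (hf.comp continuous_neg)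
    (x := -y) (y := -x) (by linarith) (by simpa using hy) (by simpa using hx)
  refine ⟨-a, by linarith, by linarith, h3, fun t h5 h6 => ?_⟩
  have := h4 (-t) (by linarith) (by linarith)
  simpa using this

theorem ground_exists : Nonempty Ground := by
  have hd : deriv gφ = gφ' := funext fun x => (gφ_hasDerivAt x).deriv
  have hd' : deriv gφ' = fun x => -(Real.exp (2 * x) * gφ x) :=
    funext fun x => (gφ'_hasDerivAt x).deriv
  have h24 : Real.log 2 < Real.log 4 := Real.log_lt_log (by norm_num) (by norm_num)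
  have h46 : Real.log 4 < Real.log 6 := Real.log_lt_log (by norm_num) (by norm_num)
  obtain ⟨a, ha1, ha2, ha3, ha4⟩ := gφ_left gφ_cont h24 gφ_neg1 gφ_pos2
  obtain ⟨b, hb1, hb2, hb3, hb4⟩ := gφ_right gφ_cont h46 gφ_pos2 gφ_neg3
  have hab : a < b := ha2.trans hb1
  have hpos : ∀ x ∈ Ioo a b, 0 < gφ x := by
    intro x hx
    rcases le_total x (Real.log 4) with h | h
    · exact ha4 x hx.1 h
    · exact hb4 x h hx.2
  have hc' : Continuous gφ' :=
    continuous_iff_continuousAt.2 fun x => (gφ'_hasDerivAt x).continuousAt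
  have hanti : StrictAntiOn gφ' (Icc a b) := by
    apply strictAntiOn_of_deriv_neg (convex_Icc a b) hc'.continuousOn
    intro x hx
    rw [interior_Icc] at hx
    rw [hd']
    have := hpos x hx
    have := Real.exp_pos (2 * x)
    simp only
    nlinarith [mul_pos (Real.exp_pos (2 * x)) (hpos x hx)]
  refine ⟨{
    a := a
    b := b
    φ := gφ
    hab := hab
    smooth := gφ_smooth
    ode := ?_
    za := ha3
    zb := hb3
    pos := hpos
    da := ?_
    db := ?_ }⟩
  · intro x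
    rw [hd, hd']
  · rw [hd]
    by_contra hcon
    have hanti2 : StrictAntiOn gφ (Icc a b) := by
      apply strictAntiOn_of_deriv_neg (convex_Icc a b) gφ_cont.continuousOn
      intro x hx
      rw [interior_Icc] at hx
      rw [hd]
      have := hanti (left_mem_Icc.2 hab.le) ⟨hx.1.le, hx.2.le⟩ hx.1
      linarith
    have := hanti2 (left_mem_Icc.2 hab.le) ⟨ha2.le, hb1.le⟩ ha2
    rw [ha3] at this
    exact absurd gφ_pos2 (not_lt.2 this.le)
  · rw [hd]
    by_contra hcon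
    have hmono : StrictMonoOn gφ (Icc a b) := by
      apply strictMonoOn_of_deriv_pos (convex_Icc a b) gφ_cont.continuousOn
      intro x hx
      rw [interior_Icc] at hx
      rw [hd]
      have := hanti ⟨hx.1.le, hx.2.le⟩ (right_mem_Icc.2 hab.le) hx.2
      linarith
    have := hmono ⟨ha2.le, hb1.le⟩ (right_mem_Icc.2 hab.le) hb1
    rw [hb3] at this
    exact absurd gφ_pos2 (not_lt.2 this.le)

end Pool.Agent.DbarN
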