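import Pool.Agent.DbarN.Prof

set_option autoImplicit false

/-!
# DBAR KER1: decomposition on the disc with parameters
-/

namespace Pool.Agent.DbarN

open MeasureTheory Complex Set
open scoped ComplexConjugate ContDiff Convolution Topology

/-- the kernel -/
noncomputable def k1f (t : ℂ) : ℂ := (conj t)⁻¹

theorem k1f_meas : Measurable k1f := by
  unfold k1f
  exact (Complex.continuous_conj.measurable).inv

theorem k1f_locInt : LocallyIntegrable k1f volume := by
  rw [locallyIntegrable_iff]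
  intro k hk
  obtain ⟨R, hR0, hR⟩ : ∃ R : ℝ, 0 < R ∧ k ⊆ Metric.closedBall 0 R := by
    obtain ⟨R, hR⟩ := hk.isBounded.subset_closedBall 0
    exact ⟨max R 1, by positivity, hR.trans (Metric.closedBall_subset_closedBall (le_max_left _ _))⟩
  refine IntegrableOn.mono_set ?_ hR
  refine ⟨k1f_meas.aestronglyMeasurable, ?_⟩
  rw [hasFiniteIntegral_iff_enorm]
  rw [← lintegral_indicator Metric.isClosed_closedBall.measurableSet]
  rw [← Complex.lintegral_comp_polarCoord_symm]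
  have h1 : ∀ p ∈ polarCoord.target, ENNReal.ofReal p.1 •
      (Metric.closedBall (0 : ℂ) R).indicator (fun a => ‖k1f a‖ₑ) (Complex.polarCoord.symm p) ≤
      (Set.Icc (0 : ℝ) R ×ˢ Set.Icc (-Real.pi) Real.pi).indicator (fun _ => 1) p := by
    intro p hp
    have hp1 : 0 < p.1 := hp.1
    have hp2 : p.2 ∈ Ioo (-Real.pi) Real.pi := hp.2
    have hn : ‖Complex.polarCoord.symm p‖ = p.1 := by
      rw [Complex.norm_polarCoord_symm, abs_of_pos hp1]
    by_cases h : Complex.polarCoord.symm p ∈ Metric.closedBall (0 : ℂ) R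
    · rw [indicator_of_mem h]
      have hR' : p.1 ≤ R := by
        rw [mem_closedBall_zero_iff, hn] at h; exact h
      rw [indicator_of_mem (show p ∈ Set.Icc (0 : ℝ) R ×ˢ Set.Icc (-Real.pi) Real.pi from
        ⟨⟨hp1.le, hR'⟩, ⟨hp2.1.le, hp2.2.le⟩⟩)]
      have : ‖k1f (Complex.polarCoord.symm p)‖ₑ = ENNReal.ofReal (p.1⁻¹) := by
        rw [← ofReal_norm]
        congr 1
        unfold k1f
        rw [norm_inv, RCLike.norm_conj, hn]
      rw [this, smul_eq_mul, ← ENNReal.ofReal_mul hp1.le, mul_inv_cancel₀ hp1.ne']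
      simp
    · rw [indicator_of_notMem h]
      simp
  refine lt_of_le_of_lt (setLIntegral_mono' polarCoord.open_target.measurableSet h1) ?_
  refine lt_of_le_of_lt (setLIntegral_le_lintegral _ _) ?_
  rw [lintegral_indicator (measurableSet_Icc.prod measurableSet_Icc)]
  simp only [lintegral_const, one_mul, MeasurableSet.univ, Measure.restrict_apply, univ_inter]
  rw [show (volume : Measure (ℝ × ℝ)) = (volume : Measure ℝ).prod volume from rfl, Measure.prod_prod]
  simp only [Real.volume_Icc]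
  exact ENNReal.mul_lt_top ENNReal.ofReal_lt_top ENNReal.ofReal_lt_top

/-- unit vector -/
noncomputable def k1e (θ : ℝ) : ℂ := Real.cos θ + Real.sin θ * I

theorem k1e_cont : Continuous k1e := by
  unfold k1e; fun_prop

theorem k1e_deriv (θ : ℝ) : HasDerivAt k1e (I * k1e θ) θ := by
  have h1 : HasDerivAt (fun θ : ℝ => ((Real.cos θ : ℝ) : ℂ)) ((-Real.sin θ : ℝ) : ℂ) θ :=
    (Real.hasDerivAt_cos θ).ofReal_comp
  have h2 : HasDerivAt (fun θ : ℝ => ((Real.sin θ : ℝ) : ℂ) * I) (((Real.cos θ : ℝ) : ℂ) * I) θ :=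
    ((Real.hasDerivAt_sin θ).ofReal_comp).mul_const I
  refine (h1.add h2).congr_deriv ?_
  unfold k1e
  push_cast
  ring_nf
  rw [I_sq]
  ring

theorem k1e_conj (θ : ℝ) : k1e θ * conj (k1e θ) = 1 := by
  unfold k1e
  simp only [map_add, conj_ofReal, map_mul, conj_I]
  have := Real.sin_sq_add_cos_sq θ
  have h2 : ((Real.sin θ : ℝ) : ℂ) ^ 2 + ((Real.cos θ : ℝ) : ℂ) ^ 2 = 1 := by
    exact_mod_cast this
  ring_nf
  rw [I_sq]
  linear_combination h2

theorem k1e_norm (θ : ℝ) : ‖k1e θ‖ = 1 := by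
  have h := congrArg norm (k1e_conj θ)
  rw [norm_mul, RCLike.norm_conj, norm_one] at h
  nlinarith [norm_nonneg (k1e θ)]

/-- Cauchy-Pompeiu formula at `0` for compactly supported functions -/
theorem k1_cauchy (h : ℂ → ℂ) (hh : ContDiff ℝ 1 h) (hc : HasCompactSupport h) :
    ∫ t, k1f t * ((fderiv ℝ h t 1 - I * fderiv ℝ h t I) / 2) = -(Real.pi : ℂ) * h 0 := by
  obtain ⟨R, hR0, hR⟩ : ∃ R : ℝ, 0 < R ∧ ∀ t : ℂ, R < ‖t‖ → h t = 0 ∧ fderiv ℝ h t = 0 := by
    obtain ⟨R, hR⟩ := hc.isCompact.isBounded.subset_closedBall 0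
    refine ⟨max R 1, by positivity, fun t ht => ?_⟩
    have ht' : t ∉ tsupport h := fun hmem => by
      have := hR hmem
      rw [mem_closedBall_zero_iff] at this
      exact absurd ht (not_lt.2 (this.trans (le_max_left _ _)))
    refine ⟨image_eq_zero_of_notMem_tsupport ht', ?_⟩
    exact image_eq_zero_of_notMem_tsupport (fun hm => ht' (tsupport_fderiv_subset ℝ hm))
  have hd : Continuous (fderiv ℝ h) := hh.continuous_fderiv one_ne_zero
  let A : ℝ × ℝ → ℂ := fun p => fderiv ℝ h ((p.1 : ℂ) * k1e p.2) (k1e p.2)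
  let B : ℝ × ℝ → ℂ := fun p => fderiv ℝ h ((p.1 : ℂ) * k1e p.2) (I * k1e p.2)
  have hpt : Continuous (fun p : ℝ × ℝ => (p.1 : ℂ) * k1e p.2) :=
    (continuous_ofReal.comp continuous_fst).mul (k1e_cont.comp continuous_snd)
  have hAc : Continuous A := (hd.comp hpt).clm_apply (k1e_cont.comp continuous_snd)
  have hBc : Continuous B :=
    (hd.comp hpt).clm_apply (continuous_const.mul (k1e_cont.comp continuous_snd))
  have hnorm : ∀ (r θ : ℝ), 0 < r → ‖(r : ℂ) * k1e θ‖ = r := by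
    intro r θ hr
    rw [norm_mul, k1e_norm, mul_one, norm_real, Real.norm_eq_abs, abs_of_pos hr]
  have hint : ∀ G : ℝ × ℝ → ℂ, Continuous G → (∀ r θ : ℝ, R < r → G (r, θ) = 0) →
      IntegrableOn G (Ioi (0 : ℝ) ×ˢ Ioo (-Real.pi) Real.pi) := by
    intro G hG hz
    have h1 : IntegrableOn G (Icc (0 : ℝ) R ×ˢ Icc (-Real.pi) Real.pi) :=
      hG.continuousOn.integrableOn_compact (isCompact_Icc.prod isCompact_Icc)
    refine (h1.of_forall_sdiff_eq_zero (measurableSet_Ioi.prod measurableSet_Ioo) ?_)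
    rintro ⟨r, θ⟩ ⟨⟨hr, hθ⟩, hn⟩
    apply hz
    by_contra hcon
    exact hn ⟨⟨le_of_lt hr, not_lt.1 hcon⟩, ⟨hθ.1.le, hθ.2.le⟩⟩
  have hAz : ∀ r θ : ℝ, R < r → A (r, θ) = 0 := by
    intro r θ hr
    have : fderiv ℝ h ((r : ℂ) * k1e θ) = 0 := (hR _ (by rw [hnorm r θ (hR0.trans hr)]; exact hr)).2
    simp only [A, this]; rfl
  have hBz : ∀ r θ : ℝ, R < r → B (r, θ) = 0 := by
    intro r θ hr
    have : fderiv ℝ h ((r : ℂ) * k1e θ) = 0 := (hR _ (by rw [hnorm r θ (hR0.trans hr)]; exact hr)).2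
    simp only [B, this]; rfl
  have hAi := hint A hAc hAz
  have hBi := hint B hBc hBz
  rw [← Complex.integral_comp_polarCoord_symm]
  have e1 : ∫ p in polarCoord.target, p.1 • (k1f (Complex.polarCoord.symm p) *
      ((fderiv ℝ h (Complex.polarCoord.symm p) 1 - I * fderiv ℝ h (Complex.polarCoord.symm p) I) / 2))
      = ∫ p in Ioi (0 : ℝ) ×ˢ Ioo (-Real.pi) Real.pi, (A p - I * B p) / 2 := by
    refine setIntegral_congr_fun (measurableSet_Ioi.prod measurableSet_Ioo) ?_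
    rintro ⟨r, θ⟩ ⟨hr, hθ⟩
    have hr' : 0 < r := hr
    have e2 : Complex.polarCoord.symm (r, θ) = (r : ℂ) * k1e θ := by
      rw [Complex.polarCoord_symm_apply]; rfl
    have e3 : k1f ((r : ℂ) * k1e θ) = k1e θ / r := by
      unfold k1f
      have h4 := k1e_conj θ
      have h5 : conj (k1e θ) ≠ 0 := by
        intro h0; rw [h0, mul_zero] at h4; exact zero_ne_one h4
      have h6 : (r : ℂ) ≠ 0 := by exact_mod_cast hr'.ne'
      rw [map_mul, conj_ofReal]
      field_simp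
      linear_combination -h4
    have e4 : ∀ L : ℂ →L[ℝ] ℂ, L (k1e θ) - I * L (I * k1e θ) = k1e θ * (L 1 - I * L I) := by
      intro L
      have h1 : k1e θ = (Real.cos θ) • (1 : ℂ) + (Real.sin θ) • I := by
        unfold k1e; simp
      have h2 : I * k1e θ = (Real.cos θ) • I + (-Real.sin θ) • (1 : ℂ) := by
        unfold k1e; simp only [real_smul]; push_cast; ring_nf; rw [I_sq]; ring
      have h3 : L (k1e θ) = (Real.cos θ) • L 1 + (Real.sin θ) • L I := by
        conv_lhs => rw [h1]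
        rw [map_add, map_smul, map_smul]
      rw [h3, h2, map_add, map_smul, map_smul]
      simp only [real_smul]
      unfold k1e
      push_cast
      ring_nf
      rw [I_sq]
      ring
    simp only [A, B]
    rw [e2, e3, e4]
    have h6 : (r : ℂ) ≠ 0 := by exact_mod_cast hr'.ne'
    rw [real_smul]
    field_simp
  rw [e1]
  have eA : ∫ p in Ioi (0 : ℝ) ×ˢ Ioo (-Real.pi) Real.pi, A p = -(2 * Real.pi : ℂ) * h 0 := by
    rw [show (volume : Measure (ℝ × ℝ)) = (volume : Measure ℝ).prod volume from rfl,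
      ← Measure.prod_restrict]
    rw [integral_prod_symm _ (by
      rw [Measure.prod_restrict]; exact hAi)]
    have : ∀ θ : ℝ, ∫ r in Ioi (0 : ℝ), A (r, θ) = -h 0 := by
      intro θ
      have hder : ∀ r ∈ Ici (0 : ℝ), HasDerivAt (fun r : ℝ => h ((r : ℂ) * k1e θ)) (A (r, θ)) r := by
        intro r _
        have h1 : HasDerivAt (fun r : ℝ => (r : ℂ) * k1e θ) (k1e θ) r := by
          have := (hasDerivAt_id r).ofReal_comp.mul_const (k1e θ)
          simpa using this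
        exact ((hh.differentiable one_ne_zero).differentiableAt.hasFDerivAt (x := (r : ℂ) * k1e θ)).comp_hasDerivAt r h1
      have hi : IntegrableOn (fun r => A (r, θ)) (Ioi 0) := by
        have h1 : IntegrableOn (fun r => A (r, θ)) (Icc (0 : ℝ) R) :=
          (hAc.comp (by fun_prop : Continuous (fun r : ℝ => (r, θ)))).continuousOn.integrableOn_compact
            isCompact_Icc
        refine h1.of_forall_sdiff_eq_zero measurableSet_Ioi ?_
        rintro r ⟨hr, hn⟩
        apply hAz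
        by_contra hcon
        exact hn ⟨le_of_lt hr, not_lt.1 hcon⟩
      have ht : Filter.Tendsto (fun r : ℝ => h ((r : ℂ) * k1e θ)) Filter.atTop (𝓝 0) := by
        refine tendsto_const_nhds.congr' ?_
        filter_upwards [Filter.eventually_gt_atTop R] with r hr
        exact ((hR _ (by rw [hnorm r θ (hR0.trans hr)]; exact hr)).1).symm
      rw [integral_Ioi_of_hasDerivAt_of_tendsto' hder hi ht]
      simp
    simp only [this]
    rw [integral_const]
    simp only [MeasurableSet.univ, measureReal_restrict_apply, univ_inter, Real.volume_real_Ioo]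
    rw [real_smul]
    have : max (Real.pi - -Real.pi) 0 = 2 * Real.pi := by
      rw [max_eq_left (by linarith [Real.pi_pos])]; ring
    rw [this]
    push_cast
    ring
  have eB : ∫ p in Ioi (0 : ℝ) ×ˢ Ioo (-Real.pi) Real.pi, B p = 0 := by
    rw [show (volume : Measure (ℝ × ℝ)) = (volume : Measure ℝ).prod volume from rfl,
      ← Measure.prod_restrict]
    rw [integral_prod _ (by
      rw [Measure.prod_restrict]; exact hBi)]
    have : ∀ r ∈ Ioi (0 : ℝ), ∫ θ in Ioo (-Real.pi) Real.pi, B (r, θ) = 0 := by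
      intro r hr
      have hr' : 0 < r := hr
      have h6 : (r : ℂ) ≠ 0 := by exact_mod_cast hr'.ne'
      rw [← integral_Ioc_eq_integral_Ioo, ← intervalIntegral.integral_of_le (by linarith [Real.pi_pos])]
      have hder : ∀ θ ∈ uIcc (-Real.pi) Real.pi,
          HasDerivAt (fun θ : ℝ => (r : ℂ)⁻¹ * h ((r : ℂ) * k1e θ)) (B (r, θ)) θ := by
        intro θ _
        have h1 : HasDerivAt (fun θ : ℝ => (r : ℂ) * k1e θ) ((r : ℂ) * (I * k1e θ)) θ :=
          (k1e_deriv θ).const_mul _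
        have h2 := (((hh.differentiable one_ne_zero).differentiableAt.hasFDerivAt
          (x := (r : ℂ) * k1e θ)).comp_hasDerivAt θ h1).const_mul ((r : ℂ)⁻¹)
        refine h2.congr_deriv ?_
        have h3 : (r : ℂ) * (I * k1e θ) = r • (I * k1e θ) := by simp
        rw [h3, map_smul, real_smul]
        simp only [B]
        field_simp
      rw [intervalIntegral.integral_eq_sub_of_hasDerivAt hder]
      · have : k1e Real.pi = k1e (-Real.pi) := by unfold k1e; simp
        rw [this, sub_self]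
      · exact (hBc.comp (by fun_prop : Continuous (fun θ : ℝ => (r, θ)))).intervalIntegrable _ _
    rw [setIntegral_congr_fun measurableSet_Ioi this]
    simp
  have e5 : ∫ p in Ioi (0 : ℝ) ×ˢ Ioo (-Real.pi) Real.pi, (A p - I * B p) / 2 =
      ((∫ p in Ioi (0 : ℝ) ×ˢ Ioo (-Real.pi) Real.pi, A p) -
        I * ∫ p in Ioi (0 : ℝ) ×ˢ Ioo (-Real.pi) Real.pi, B p) / 2 := by
    rw [integral_div, integral_sub hAi (hBi.const_mul I), integral_const_mul]
  rw [e5, eA, eB]
  ring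

/-- a smooth function which equals `1 / (1 - s)` for `‖s‖ ≤ κ` -/
theorem k1_E (κ : ℝ) (h0 : 0 < κ) (h1 : κ < 1) :
    ∃ E : ℂ → ℂ, ContDiff ℝ ∞ E ∧ ∀ s, ‖s‖ ≤ κ → E s = (1 - s)⁻¹ := by
  let χ : ContDiffBump (0 : ℂ) := ⟨κ, (1 + κ) / 2, h0, by linarith⟩
  refine ⟨fun s => (χ s : ℂ) * (1 - s)⁻¹, ?_, ?_⟩
  · rw [contDiff_iff_contDiffAt]
    intro s
    by_cases hs : s = 1
    · have : (fun s : ℂ => (χ s : ℂ) * (1 - s)⁻¹) =ᶠ[𝓝 s] fun _ => 0 := by
        have hopen : {t : ℂ | (1 + κ) / 2 < ‖t‖} ∈ 𝓝 s := by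
          refine (isOpen_lt continuous_const continuous_norm).mem_nhds ?_
          show (1 + κ) / 2 < ‖s‖
          rw [hs, norm_one]; linarith
        filter_upwards [hopen] with t ht
        have : χ t = 0 := by
          apply χ.zero_of_le_dist
          rw [dist_zero_right]; exact le_of_lt ht
        rw [this]; simp
      exact contDiffAt_const.congr_of_eventuallyEq this
    · have h2 : (1 - s) ≠ 0 := fun h => hs (sub_eq_zero.1 h).symm
      refine ContDiffAt.mul ?_ ?_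
      · exact (ofRealCLM.contDiff.contDiffAt).comp s (χ.contDiffAt)
      · exact (contDiffAt_const.sub contDiffAt_id).inv h2
  · intro s hs
    have : χ s = 1 := χ.one_of_mem_closedBall (by rw [mem_closedBall_zero_iff]; exact hs)
    show (χ s : ℂ) * (1 - s)⁻¹ = _
    rw [this]; simp

theorem k1_smooth_conv {P : Type*} [NormedAddCommGroup P] [NormedSpace ℝ P] (f : ℂ → ℂ)
    (hf : LocallyIntegrable f volume) (G : P → ℂ → ℂ)
    (hG : ContDiff ℝ ∞ (fun q : P × ℂ => G q.1 q.2)) (r : ℝ) (hs : ∀ p x, r < ‖x‖ → G p x = 0)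
    (v : P → ℂ) (hv : ContDiff ℝ ∞ v) :
    ContDiff ℝ ∞ (fun p => ∫ t, f t * G p (v p - t)) := by
  have h := contDiffOn_convolution_right_with_param_comp (𝕜 := ℝ) (n := (⊤ : ℕ∞)) (μ := volume)
    (ContinuousLinearMap.mul ℝ ℂ) (s := (univ : Set P)) (v := v) hv.contDiffOn (f := f) (g := G)
    (k := Metric.closedBall (0 : ℂ) r) isOpen_univ (isCompact_closedBall _ _)
    (fun p x _ hx => hs p x (by rw [mem_closedBall_zero_iff] at hx; exact not_le.1 hx)) hf
    (hG.contDiffOn)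
  rw [contDiffOn_univ] at h
  exact h

theorem k1_smooth_int {P : Type*} [NormedAddCommGroup P] [NormedSpace ℝ P] (G : P → ℂ → ℂ)
    (hG : ContDiff ℝ ∞ (fun q : P × ℂ => G q.1 q.2)) (r : ℝ) (hs : ∀ p x, r < ‖x‖ → G p x = 0) :
    ContDiff ℝ ∞ (fun p => ∫ x, G p x) := by
  have h := k1_smooth_conv (fun _ => (1 : ℂ)) (locallyIntegrable_const 1) G hG r hs (fun _ => 0)
    contDiff_const
  have e : (fun p => ∫ t, (1 : ℂ) * G p (0 - t)) = fun p => ∫ x, G p x := by
    funext p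
    simp only [one_mul]
    rw [integral_sub_left_eq_self (fun x => G p x) volume 0]
  rw [e] at h
  exact h

theorem k1_rem (κ : ℝ) (h0 : 0 < κ) (h1 : κ < 1) (ε : ℝ) (hε : 0 < ε) : ∃ M : ℕ, ∀ s s' : ℂ,
    ‖s‖ ≤ κ → ‖s'‖ ≤ κ →
    ‖((1 - s)⁻¹) ^ 2 - ∑ n ∈ Finset.range M, ((n : ℂ) + 1) * s ^ n‖ ≤ ε ∧
    ‖(((1 - s)⁻¹) ^ 2 - ∑ n ∈ Finset.range M, ((n : ℂ) + 1) * s ^ n) -
      (((1 - s')⁻¹) ^ 2 - ∑ n ∈ Finset.range M, ((n : ℂ) + 1) * s' ^ n)‖ ≤ ε * ‖s - s'‖ := by
  let u : ℕ → ℝ := fun n => ((n : ℝ) + 1) ^ 2 * κ ^ n / κ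
  have hu : Summable u := by
    have a : Summable (fun n : ℕ => ((n : ℝ)) ^ 2 * κ ^ n) :=
      summable_pow_mul_geometric_of_norm_lt_one 2 (by rw [Real.norm_eq_abs, abs_of_pos h0]; exact h1)
    have b : Summable (fun n : ℕ => (((n + 1 : ℕ) : ℝ)) ^ 2 * κ ^ (n + 1)) :=
      (summable_nat_add_iff 1).2 a
    refine (b.mul_right (κ⁻¹ ^ 2)).congr fun n => ?_
    simp only [u]
    push_cast
    field_simp
    ring
  have hu0 : ∀ n, 0 ≤ u n := fun n => by positivity
  obtain ⟨M, hM⟩ : ∃ M, ∑' i, u (i + M) ≤ ε := by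
    have := tendsto_sum_nat_add u
    exact (this.eventually (gt_mem_nhds hε)).exists.imp fun M h => le_of_lt h
  have huM : Summable (fun i => u (i + M)) := (summable_nat_add_iff M).2 hu
  have hsum : ∀ s : ℂ, ‖s‖ ≤ κ → HasSum (fun n : ℕ => ((n : ℂ) + 1) * s ^ n) (((1 - s)⁻¹) ^ 2) := by
    intro s hs
    have h := hasSum_choose_mul_geometric_of_norm_lt_one (𝕜 := ℂ) 1 (lt_of_le_of_lt hs h1)
    have e : (1 : ℂ) / (1 - s) ^ (1 + 1) = ((1 - s)⁻¹) ^ 2 := by
      rw [inv_pow, one_div]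
    rw [e] at h
    have e2 : (fun n : ℕ => ((n : ℂ) + 1) * s ^ n) = fun n : ℕ => (((n + 1).choose 1 : ℕ) : ℂ) * s ^ n := by
      funext n
      rw [Nat.choose_one_right]
      push_cast
      ring
    rw [e2]
    exact h
  have hrem : ∀ s : ℂ, ‖s‖ ≤ κ → ((1 - s)⁻¹) ^ 2 - ∑ n ∈ Finset.range M, ((n : ℂ) + 1) * s ^ n =
      ∑' i, (((i + M : ℕ) : ℂ) + 1) * s ^ (i + M) := by
    intro s hs
    have h := hsum s hs
    rw [← h.tsum_eq, ← h.summable.sum_add_tsum_nat_add M]
    ring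
  have hs2 : ∀ s : ℂ, ‖s‖ ≤ κ → Summable fun i => (((i + M : ℕ) : ℂ) + 1) * s ^ (i + M) :=
    fun s hs => (summable_nat_add_iff M).2 (hsum s hs).summable
  have hn : ∀ n : ℕ, ‖((n : ℂ) + 1)‖ = (n : ℝ) + 1 := by
    intro n
    have : ((n : ℂ) + 1) = (((n : ℝ) + 1 : ℝ) : ℂ) := by push_cast; ring
    rw [this, norm_real, Real.norm_eq_abs, abs_of_nonneg (by positivity)]
  have b1 : ∀ (s : ℂ) (n : ℕ), ‖s‖ ≤ κ → ‖((n : ℂ) + 1) * s ^ n‖ ≤ u n := by
    intro s n hs
    rw [norm_mul, hn, norm_pow]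
    have h2 : ‖s‖ ^ n ≤ κ ^ n := pow_le_pow_left₀ (norm_nonneg _) hs n
    have h3 : (1 : ℝ) ≤ (n : ℝ) + 1 := by simp
    simp only [u]
    rw [le_div_iff₀ h0]
    calc ((n : ℝ) + 1) * ‖s‖ ^ n * κ ≤ ((n : ℝ) + 1) * κ ^ n * 1 := by gcongr
      _ = ((n : ℝ) + 1) * 1 * κ ^ n := by ring
      _ ≤ ((n : ℝ) + 1) * ((n : ℝ) + 1) * κ ^ n := by gcongr
      _ = _ := by ring
  have b2 : ∀ (s s' : ℂ) (n : ℕ), ‖s‖ ≤ κ → ‖s'‖ ≤ κ →
      ‖((n : ℂ) + 1) * s ^ n - ((n : ℂ) + 1) * s' ^ n‖ ≤ u n * ‖s - s'‖ := by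
    intro s s' n hs hs'
    rw [← mul_sub, norm_mul, hn, ← (Commute.all s s').geom_sum₂_mul, norm_mul]
    have h2 : ‖∑ i ∈ Finset.range n, s ^ i * s' ^ (n - 1 - i)‖ ≤ ((n : ℝ) + 1) * κ ^ n / κ := by
      refine (norm_sum_le _ _).trans ?_
      have : ∀ i ∈ Finset.range n, ‖s ^ i * s' ^ (n - 1 - i)‖ ≤ κ ^ n / κ := by
        intro i hi
        have hi' := Finset.mem_range.1 hi
        rw [norm_mul, norm_pow, norm_pow]
        calc ‖s‖ ^ i * ‖s'‖ ^ (n - 1 - i) ≤ κ ^ i * κ ^ (n - 1 - i) := by gcongr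
          _ = κ ^ (n - 1) := by rw [← pow_add]; congr 1; omega
          _ = κ ^ n / κ := by
            rw [eq_div_iff h0.ne', ← pow_succ]; congr 1; omega
      refine (Finset.sum_le_card_nsmul _ _ _ this).trans ?_
      rw [Finset.card_range, nsmul_eq_mul, mul_div_assoc]
      have : 0 ≤ κ ^ n / κ := by positivity
      nlinarith
    calc ((n : ℝ) + 1) * (‖∑ i ∈ Finset.range n, s ^ i * s' ^ (n - 1 - i)‖ * ‖s - s'‖)
        ≤ ((n : ℝ) + 1) * ((((n : ℝ) + 1) * κ ^ n / κ) * ‖s - s'‖) := by gcongr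
      _ = u n * ‖s - s'‖ := by simp only [u]; ring
  refine ⟨M, fun s s' hs hs' => ⟨?_, ?_⟩⟩
  · rw [hrem s hs]
    exact (tsum_of_norm_bounded huM.hasSum (fun i => b1 s (i + M) hs)).trans hM
  · rw [hrem s hs, hrem s' hs', ← (hs2 s hs).tsum_sub (hs2 s' hs')]
    refine (tsum_of_norm_bounded (huM.mul_right ‖s - s'‖).hasSum
      (fun i => b2 s s' (i + M) hs hs')).trans ?_
    rw [tsum_mul_right]
    gcongr

theorem k1_dw_slice {F : ℂ × ℂ → ℂ} {p : ℂ × ℂ} (hF : DifferentiableAt ℝ F p) :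
    dw F p = (fderiv ℝ (fun v => F (p.1, v)) p.2 1 - I * fderiv ℝ (fun v => F (p.1, v)) p.2 I) / 2 := by
  have h1 : HasFDerivAt F (fderiv ℝ F p) (p.1, p.2) := hF.hasFDerivAt
  have h2 : HasFDerivAt (fun v : ℂ => ((p.1, v) : ℂ × ℂ)) (ContinuousLinearMap.inr ℝ ℂ ℂ) p.2 :=
    hasFDerivAt_prodMk_right p.1 p.2
  have h3 := (h1.comp p.2 h2).fderiv
  have h4 : fderiv ℝ (fun v => F (p.1, v)) p.2 = (fderiv ℝ F p).comp (ContinuousLinearMap.inr ℝ ℂ ℂ) := h3
  rw [h4]
  rfl

theorem k1_dw_cauchy (g : ℂ → ℂ) (hg : ContDiff ℝ ∞ g) (hc : HasCompactSupport g) (v : ℂ) :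
    (fderiv ℝ (fun v => (1 / Real.pi : ℂ) * ∫ t, k1f t * g (v - t)) v 1 -
      I * fderiv ℝ (fun v => (1 / Real.pi : ℂ) * ∫ t, k1f t * g (v - t)) v I) / 2 = g v := by
  have hg1 : ContDiff ℝ 1 g := hg.of_le (by exact_mod_cast le_top)
  have h1 := HasCompactSupport.hasFDerivAt_convolution_right (μ := volume)
    (ContinuousLinearMap.mul ℝ ℂ) hc k1f_locInt hg1 v
  have hd : Continuous (fderiv ℝ g) := hg1.continuous_fderiv one_ne_zero
  have hex := (hc.fderiv ℝ).convolutionExists_right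
    ((ContinuousLinearMap.mul ℝ ℂ).precompR ℂ) (μ := volume) k1f_locInt hd
  have h2 : ∀ w : ℂ, fderiv ℝ (fun v => (1 / Real.pi : ℂ) * ∫ t, k1f t * g (v - t)) v w =
      (1 / Real.pi : ℂ) * ∫ t, k1f t * fderiv ℝ g (v - t) w := by
    intro w
    have h3 : HasFDerivAt (fun v => ∫ t, k1f t * g (v - t))
      ((k1f ⋆[(ContinuousLinearMap.mul ℝ ℂ).precompR ℂ, volume] fderiv ℝ g) v) v := h1
    rw [(h3.const_mul (1 / Real.pi : ℂ)).fderiv]
    show (1 / Real.pi : ℂ) * ((k1f ⋆[(ContinuousLinearMap.mul ℝ ℂ).precompR ℂ, volume] fderiv ℝ g) v w) = _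
    congr 1
    unfold convolution
    rw [ContinuousLinearMap.integral_apply (hex v)]
    rfl
  have hi : ∀ w : ℂ, Integrable (fun t => k1f t * fderiv ℝ g (v - t) w) := by
    intro w
    have hgw : Continuous (fun x => fderiv ℝ g x w) := hd.clm_apply continuous_const
    have hcw : HasCompactSupport (fun x => fderiv ℝ g x w) :=
      (hc.fderiv ℝ).comp_left (g := fun L : ℂ →L[ℝ] ℂ => L w) rfl
    exact (hcw.convolutionExists_right (ContinuousLinearMap.mul ℝ ℂ) (μ := volume) k1f_locInt hgw) v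
  rw [h2, h2]
  have hh : ContDiff ℝ 1 (fun t => g (v - t)) := hg1.comp (contDiff_const.sub contDiff_id)
  have hhc : HasCompactSupport (fun t => g (v - t)) :=
    hc.comp_homeomorph (Homeomorph.subLeft v)
  have key := k1_cauchy (fun t => g (v - t)) hh hhc
  have hf : ∀ t w, fderiv ℝ (fun t => g (v - t)) t w = -fderiv ℝ g (v - t) w := by
    intro t w
    have h5 : HasFDerivAt g (fderiv ℝ g (v - t)) (v - t) :=
      (hg1.differentiable one_ne_zero _).hasFDerivAt
    have h6 : HasFDerivAt (fun t : ℂ => v - t) (-ContinuousLinearMap.id ℝ ℂ) t := by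
      exact (hasFDerivAt_id t).const_sub v
    have h7 : fderiv ℝ (fun t => g (v - t)) t = (fderiv ℝ g (v - t)).comp (-ContinuousLinearMap.id ℝ ℂ) :=
      (h5.comp t h6).fderiv
    rw [h7]
    simp
  simp only [hf, sub_zero] at key
  have e1 : (∫ t, k1f t * ((-fderiv ℝ g (v - t) 1 - I * -fderiv ℝ g (v - t) I) / 2)) =
      -((∫ t, k1f t * fderiv ℝ g (v - t) 1) - I * ∫ t, k1f t * fderiv ℝ g (v - t) I) / 2 := by
    rw [← integral_const_mul, ← integral_sub (hi 1) ((hi I).const_mul I), ← integral_neg, ← integral_div]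
    congr 1
    funext t
    ring
  rw [e1] at key
  have hpi : (Real.pi : ℂ) ≠ 0 := by exact_mod_cast Real.pi_ne_zero
  field_simp
  linear_combination (-2 : ℂ) * key

theorem k1_hol (κ k0 : ℝ) (hk0 : 0 < k0) (h1 : κ < 1) (E : ℂ → ℂ) (hE : Continuous E)
    (hE1 : ∀ s, ‖s‖ ≤ κ → E s = (1 - s)⁻¹) (g : ℂ → ℂ) (hg : Continuous g)
    (hs : ∀ x, g x ≠ 0 → ‖x‖ ≤ k0) (hgc : HasCompactSupport g) (v : ℂ) (hv : ‖v‖ < κ / k0) :
    HasDerivAt (fun v => ∫ x, g x * (v * E (v * conj x))) (∫ x, g x * (E (v * conj x)) ^ 2) v := by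
  have hnb : Metric.ball (0 : ℂ) (κ / k0) ∈ 𝓝 v :=
    Metric.isOpen_ball.mem_nhds (by rw [mem_ball_zero_iff]; exact hv)
  have hle : ∀ w ∈ Metric.ball (0 : ℂ) (κ / k0), ∀ x : ℂ, ‖x‖ ≤ k0 → ‖w * conj x‖ < κ := by
    intro w hw x hx
    rw [mem_ball_zero_iff] at hw
    rw [norm_mul, RCLike.norm_conj]
    calc ‖w‖ * ‖x‖ ≤ ‖w‖ * k0 := by gcongr
      _ < κ / k0 * k0 := by gcongr
      _ = κ := by field_simp
  have hcont : ∀ w : ℂ, Continuous (fun x => g x * (w * E (w * conj x))) := fun w => by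
    have : Continuous (fun x : ℂ => w * conj x) := continuous_const.mul Complex.continuous_conj
    exact hg.mul (continuous_const.mul (hE.comp this))
  have hcs : ∀ F : ℂ → ℂ, HasCompactSupport (fun x => g x * F x) := fun F => hgc.mul_right
  refine (hasDerivAt_integral_of_dominated_loc_of_deriv_le (μ := volume)
    (F := fun v x => g x * (v * E (v * conj x)))
    (F' := fun v x => g x * (E (v * conj x)) ^ 2) (bound := fun x => ‖g x‖ * ((1 - κ)⁻¹) ^ 2)
    hnb ?_ ?_ ?_ ?_ ?_ ?_).2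
  · exact Filter.Eventually.of_forall fun w => (hcont w).aestronglyMeasurable
  · exact (hcont v).integrable_of_hasCompactSupport (hcs _)
  · have : Continuous (fun x : ℂ => v * conj x) := continuous_const.mul Complex.continuous_conj
    exact (hg.mul ((hE.comp this).pow 2)).aestronglyMeasurable
  · refine Filter.Eventually.of_forall fun x w hw => ?_
    by_cases hx : g x = 0
    · simp [hx]
    · have hx' := hle w hw x (hs x hx)
      rw [hE1 _ hx'.le, norm_mul, norm_pow, norm_inv]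
      have h3 : 1 - κ ≤ ‖1 - w * conj x‖ := by
        have := norm_sub_norm_le (1 : ℂ) (w * conj x)
        rw [norm_one] at this
        linarith
      have h4 : 0 < 1 - κ := by linarith
      gcongr
  · exact ((hg.norm.integrable_of_hasCompactSupport hgc.norm)).mul_const _
  · refine Filter.Eventually.of_forall fun x w hw => ?_
    by_cases hx : g x = 0
    · simp only [hx, zero_mul]; exact hasDerivAt_const _ _
    · have hx' := hle w hw x (hs x hx)
      have hne : 1 - w * conj x ≠ 0 := by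
        intro h0
        have h5 : w * conj x = 1 := by linear_combination -h0
        rw [h5, norm_one] at hx'
        linarith
      have hloc : (fun w => g x * (w * E (w * conj x))) =ᶠ[𝓝 w]
          fun w => g x * (w * (1 - w * conj x)⁻¹) := by
        filter_upwards [Metric.isOpen_ball.mem_nhds hw] with w' hw'
        rw [hE1 _ (hle w' hw' x (hs x hx)).le]
      refine HasDerivAt.congr_of_eventuallyEq ?_ hloc
      rw [hE1 _ hx'.le]
      have h6 : HasDerivAt (fun w : ℂ => 1 - w * conj x) (-(conj x)) w := by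
        have := ((hasDerivAt_id w).mul_const (conj x)).const_sub 1
        simpa using this
      have h7 := (((hasDerivAt_id w).mul (h6.inv hne))).const_mul (g x)
      refine h7.congr_deriv ?_
      simp only [id, Pi.inv_apply]
      field_simp
      ring

theorem k1_hol_dw {f : ℂ → ℂ} {f' v : ℂ} (h : HasDerivAt f f' v) :
    (fderiv ℝ f v 1 - I * fderiv ℝ f v I) / 2 = f' := by
  have h1 : HasFDerivAt f (f' • (1 : ℂ →L[ℝ] ℂ)) v := h.complexToReal_fderiv
  rw [h1.fderiv]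
  have e1 : (f' • (1 : ℂ →L[ℝ] ℂ)) 1 = f' * 1 := rfl
  have e2 : (f' • (1 : ℂ →L[ℝ] ℂ)) I = f' * I := rfl
  rw [e1, e2]
  linear_combination (-f' / 2) * I_mul_I

theorem ker_disc (K : Set ℂ) (hK : IsCompact K) (k0 : ℝ) (h0 : 0 < k0) (h1 : k0 < 1)
    (Θ : ℂ × ℂ → ℂ) (hΘ : ContDiff ℝ ∞ Θ) (hs : ∀ p, Θ p ≠ 0 → p.1 ∈ K ∧ ‖p.2‖ ≤ k0) :
    ∃ (a : ℕ → ℂ → ℂ) (P Q : ℂ × ℂ → ℂ) (ρ : ℝ), 1 < ρ ∧
      (∀ n, ContDiff ℝ ∞ (a n)) ∧ (∀ n z, z ∉ K → a n z = 0) ∧
      ContDiffOn ℝ ∞ P {p | ‖p.2‖ < ρ} ∧ ContDiffOn ℝ ∞ Q {p | ‖p.2‖ < ρ} ∧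
      (∀ p : ℂ × ℂ, p.1 ∉ K → P p = 0 ∧ Q p = 0) ∧
      (∀ p : ℂ × ℂ, ‖p.2‖ < ρ → Θ p = P p + dw (fun q => (1 - q.2 * conj q.2) * Q q) p) ∧
      ∀ ε > 0, ∃ M : ℕ, ∀ p : ℂ × ℂ, ‖p.2‖ ≤ 1 →
        ‖P p - ∑ n ∈ Finset.range M, a n p.1 * p.2 ^ n‖ ≤ ε ∧
        ‖fderiv ℝ (fun q : ℂ × ℂ => P q - ∑ n ∈ Finset.range M, a n q.1 * q.2 ^ n) p‖ ≤ ε := by
  set κ : ℝ := (1 + k0) / 2 with hκ
  have hκ0 : 0 < κ := by rw [hκ]; linarith
  have hκ1 : κ < 1 := by rw [hκ]; linarith
  have hkκ : k0 < κ := by rw [hκ]; linarith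
  obtain ⟨E, hE, hE1⟩ := k1_E κ hκ0 hκ1
  have hpi : (Real.pi : ℂ) ≠ 0 := by exact_mod_cast Real.pi_ne_zero
  set cp : ℂ := (1 / Real.pi : ℂ) with hcp
  let ρ : ℝ := κ / k0
  have hρ : 1 < ρ := by rw [lt_div_iff₀ h0]; linarith
  -- support properties
  have hz : ∀ z x : ℂ, k0 < ‖x‖ → Θ (z, x) = 0 := by
    intro z x hx
    by_contra h
    exact absurd (hs _ h).2 (not_le.2 hx)
  have hzK : ∀ z x : ℂ, z ∉ K → Θ (z, x) = 0 := by
    intro z x hx
    by_contra h
    exact hx (hs _ h).1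
  have hΘz : ∀ z : ℂ, ContDiff ℝ ∞ (fun x => Θ (z, x)) := fun z =>
    hΘ.comp (contDiff_const.prodMk contDiff_id)
  have hΘc : ∀ z : ℂ, HasCompactSupport (fun x => Θ (z, x)) := fun z =>
    HasCompactSupport.intro (isCompact_closedBall (0 : ℂ) k0) (fun x hx => by
      apply hz; rw [mem_closedBall_zero_iff] at hx; exact not_le.1 hx)
  have hcj : ContDiff ℝ ∞ (fun x : ℂ => conj x) := Complex.conjCLE.contDiff
  -- the functions
  let Q : ℂ × ℂ → ℂ := fun p => cp * ∫ t, k1f t * (Θ (p.1, p.2 - t) * E (p.2 * conj (p.2 - t)))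
  let T : ℂ × ℂ → ℂ := fun p => cp * ∫ t, k1f t * Θ (p.1, p.2 - t)
  let H : ℂ × ℂ → ℂ := fun p => cp * ∫ x, Θ (p.1, x) * (p.2 * E (p.2 * conj x))
  let P : ℂ × ℂ → ℂ := fun p => cp * ∫ x, Θ (p.1, x) * (E (p.2 * conj x)) ^ 2
  let a : ℕ → ℂ → ℂ := fun n z => ((n : ℂ) + 1) * cp * ∫ x, Θ (z, x) * (conj x) ^ n
  have hΘ2 : ContDiff ℝ ∞ (fun q : (ℂ × ℂ) × ℂ => Θ (q.1.1, q.2)) :=
    hΘ.comp ((contDiff_fst.fst).prodMk contDiff_snd)
  have hvx : ContDiff ℝ ∞ (fun q : (ℂ × ℂ) × ℂ => q.1.2 * conj q.2) :=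
    (contDiff_fst.snd).mul (hcj.comp contDiff_snd)
  have hEv : ContDiff ℝ ∞ (fun q : (ℂ × ℂ) × ℂ => E (q.1.2 * conj q.2)) := hE.comp hvx
  have cQ : ContDiff ℝ ∞ Q := contDiff_const.mul
    (k1_smooth_conv k1f k1f_locInt (fun (p : ℂ × ℂ) x => Θ (p.1, x) * E (p.2 * conj x))
      (hΘ2.mul hEv) k0 (fun p x hx => by rw [hz _ _ hx, zero_mul]) (fun p => p.2) contDiff_snd)
  have cT : ContDiff ℝ ∞ T := contDiff_const.mul
    (k1_smooth_conv k1f k1f_locInt (fun (p : ℂ × ℂ) x => Θ (p.1, x))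
      hΘ2 k0 (fun p x hx => hz _ _ hx) (fun p => p.2) contDiff_snd)
  have cH : ContDiff ℝ ∞ H := contDiff_const.mul
    (k1_smooth_int (fun (p : ℂ × ℂ) x => Θ (p.1, x) * (p.2 * E (p.2 * conj x)))
      (hΘ2.mul ((contDiff_fst.snd).mul hEv)) k0 (fun p x hx => by rw [hz _ _ hx, zero_mul]))
  have cP : ContDiff ℝ ∞ P := contDiff_const.mul
    (k1_smooth_int (fun (p : ℂ × ℂ) x => Θ (p.1, x) * (E (p.2 * conj x)) ^ 2)
      (hΘ2.mul (hEv.pow 2)) k0 (fun p x hx => by rw [hz _ _ hx, zero_mul]))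
  have ca : ∀ n, ContDiff ℝ ∞ (a n) := fun n => contDiff_const.mul
    (k1_smooth_int (fun (z : ℂ) x => Θ (z, x) * (conj x) ^ n)
      (hΘ.mul ((hcj.comp contDiff_snd).pow n)) k0 (fun p x hx => by rw [hz _ _ hx, zero_mul]))
  refine ⟨a, P, Q, ρ, hρ, ca, ?_, cP.contDiffOn, cQ.contDiffOn, ?_, ?_, ?_⟩
  · intro n z hzz
    simp only [a, hzK _ _ hzz, zero_mul, integral_zero, mul_zero]
  · intro p hp
    simp only [P, Q, hzK _ _ hp, zero_mul, mul_zero, integral_zero, and_self]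
  · intro p hp
    -- `(1 - |v|²) Q = T - H`
    have key : ∀ q : ℂ × ℂ, ‖q.2‖ < ρ → (1 - q.2 * conj q.2) * Q q = T q - H q := by
      rintro ⟨z, v⟩ hv
      have hv' : ‖v‖ < κ / k0 := hv
      have eH : H (z, v) = cp * ∫ t, Θ (z, v - t) * (v * E (v * conj (v - t))) := by
        simp only [H]
        rw [← integral_sub_left_eq_self (fun x => Θ (z, x) * (v * E (v * conj x))) volume v]
      rw [eH]
      simp only [Q, T]
      have iA : Integrable (fun t => k1f t * Θ (z, v - t)) :=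
        ((hΘc z).convolutionExists_right (ContinuousLinearMap.mul ℝ ℂ) (μ := volume) k1f_locInt
          (hΘz z).continuous) v
      have iB : Integrable (fun t => Θ (z, v - t) * (v * E (v * conj (v - t)))) := by
        have c1 : Continuous (fun x => Θ (z, x) * (v * E (v * conj x))) := by
          have : Continuous (fun x : ℂ => v * conj x) := continuous_const.mul Complex.continuous_conj
          exact (hΘz z).continuous.mul (continuous_const.mul (hE.continuous.comp this))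
        exact (c1.integrable_of_hasCompactSupport ((hΘc z).mul_right)).comp_sub_left v
      have e1 : (1 - v * conj v) * (cp * ∫ t, k1f t * (Θ (z, v - t) * E (v * conj (v - t)))) =
          cp * ∫ t, (1 - v * conj v) * (k1f t * (Θ (z, v - t) * E (v * conj (v - t)))) := by
        rw [integral_const_mul]; ring
      rw [e1, ← mul_sub, ← integral_sub iA iB]
      congr 1
      refine integral_congr_ae ?_
      have hae : ∀ᵐ t : ℂ ∂volume, t ≠ 0 := by
        have : (volume : Measure ℂ) {(0 : ℂ)} = 0 := measure_singleton _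
        exact (ae_iff.2 (by simpa using this))
      filter_upwards [hae] with t ht
      by_cases hx : Θ (z, v - t) = 0
      · simp [hx]
      · have hx2 : ‖v - t‖ ≤ k0 := (hs _ hx).2
        have hx3 : ‖v * conj (v - t)‖ < κ := by
          rw [norm_mul, RCLike.norm_conj]
          calc ‖v‖ * ‖v - t‖ ≤ ‖v‖ * k0 := by gcongr
            _ < κ / k0 * k0 := by gcongr
            _ = κ := by field_simp
        have hne : 1 - v * conj (v - t) ≠ 0 := by
          intro h5
          have h6 : v * conj (v - t) = 1 := by linear_combination -h5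
          rw [h6, norm_one] at hx3
          linarith
        have hct : conj t ≠ 0 := (map_ne_zero (starRingEnd ℂ)).2 ht
        rw [hE1 _ hx3.le]
        unfold k1f
        field_simp
        rw [map_sub]
        ring
    have hopen : {q : ℂ × ℂ | ‖q.2‖ < ρ} ∈ 𝓝 p :=
      (isOpen_lt (continuous_snd.norm) continuous_const).mem_nhds hp
    have hev : (fun q : ℂ × ℂ => (1 - q.2 * conj q.2) * Q q) =ᶠ[𝓝 p] fun q => T q - H q := by
      filter_upwards [hopen] with q hq
      exact key q hq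
    have dT : DifferentiableAt ℝ T p := (cT.differentiable (by simp)) p
    have dH : DifferentiableAt ℝ H p := (cH.differentiable (by simp)) p
    have e2 : dw (fun q => (1 - q.2 * conj q.2) * Q q) p = dw T p - dw H p := by
      have : fderiv ℝ (fun q => T q - H q) p = fderiv ℝ T p - fderiv ℝ H p := fderiv_fun_sub dT dH
      unfold dw
      rw [hev.fderiv_eq, this]
      simp only [ContinuousLinearMap.sub_apply]
      ring
    have e3 : dw T p = Θ p := by
      rw [k1_dw_slice dT]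
      exact k1_dw_cauchy (fun x => Θ (p.1, x)) (hΘz p.1) (hΘc p.1) p.2
    have e4 : dw H p = P p := by
      rw [k1_dw_slice dH]
      have h5 := (k1_hol κ k0 h0 hκ1 E hE.continuous hE1 (fun x => Θ (p.1, x)) (hΘz p.1).continuous
        (fun x hx => (hs _ hx).2) (hΘc p.1) p.2 hp).const_mul cp
      exact k1_hol_dw h5
    rw [e2, e3, e4]
    ring
  · -- approximation
    intro ε hε
    have hcs : HasCompactSupport Θ :=
      HasCompactSupport.intro (hK.prod (isCompact_closedBall (0 : ℂ) k0)) (fun p hp => by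
        by_contra h
        exact hp ⟨(hs p h).1, mem_closedBall_zero_iff.2 (hs p h).2⟩)
    obtain ⟨B0, hB0⟩ := hcs.exists_bound_of_continuous hΘ.continuous
    obtain ⟨B1, hB1⟩ := hΘ.lipschitzWith_of_hasCompactSupport hcs (by simp)
    have hB0' : 0 ≤ B0 := (norm_nonneg _).trans (hB0 0)
    set V : ℝ := (volume (Metric.closedBall (0 : ℂ) k0)).toReal with hV
    have hVf : volume (Metric.closedBall (0 : ℂ) k0) < ⊤ :=
      (isCompact_closedBall (0 : ℂ) k0).measure_lt_top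
    set C : ℝ := ‖cp‖ * ((B0 + B1) * V) + 1 with hC
    have hC0 : 0 < C := by positivity
    obtain ⟨M, hM⟩ := k1_rem κ hκ0 hκ1 (ε / C) (by positivity)
    have hCε : ‖cp‖ * ((B0 + B1) * (ε / C) * V) ≤ ε := by
      have : ‖cp‖ * ((B0 + B1) * (ε / C) * V) = (C - 1) * (ε / C) := by rw [hC]; ring
      rw [this]
      have h2 : C * (ε / C) = ε := by field_simp
      nlinarith [show 0 ≤ ε / C by positivity]
    let r : ℂ → ℂ := fun s => (E s) ^ 2 - ∑ n ∈ Finset.range M, ((n : ℂ) + 1) * s ^ n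
    have hr : ∀ s, ‖s‖ ≤ κ → r s = ((1 - s)⁻¹) ^ 2 - ∑ n ∈ Finset.range M, ((n : ℂ) + 1) * s ^ n := by
      intro s hs'
      simp only [r, hE1 s hs']
    have hrc : Continuous r := by
      refine (hE.continuous.pow 2).sub (continuous_finset_sum _ fun n _ => ?_)
      exact continuous_const.mul (continuous_pow n)
    let Rm : ℂ × ℂ → ℂ := fun p => cp * ∫ x, Θ (p.1, x) * r (p.2 * conj x)
    have hle : ∀ w : ℂ, ‖w‖ < ρ → ∀ x : ℂ, ‖x‖ ≤ k0 → ‖w * conj x‖ ≤ κ := by
      intro w hw x hx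
      have hw' : ‖w‖ < κ / k0 := hw
      rw [norm_mul, RCLike.norm_conj]
      calc ‖w‖ * ‖x‖ ≤ κ / k0 * k0 := by gcongr
        _ = κ := by field_simp
    have hiR : ∀ (z w : ℂ), Integrable (fun x => Θ (z, x) * r (w * conj x)) := by
      intro z w
      have : Continuous (fun x : ℂ => w * conj x) := continuous_const.mul Complex.continuous_conj
      exact ((hΘz z).continuous.mul (hrc.comp this)).integrable_of_hasCompactSupport
        ((hΘc z).mul_right)
    have hRm : ∀ p : ℂ × ℂ, P p - ∑ n ∈ Finset.range M, a n p.1 * p.2 ^ n = Rm p := by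
      intro p
      have hcv : Continuous (fun x : ℂ => p.2 * conj x) :=
        continuous_const.mul Complex.continuous_conj
      have i1 : Integrable (fun x => Θ (p.1, x) * (E (p.2 * conj x)) ^ 2) :=
        ((hΘz p.1).continuous.mul ((hE.continuous.comp hcv).pow 2)).integrable_of_hasCompactSupport
          ((hΘc p.1).mul_right)
      have i2 : ∀ n ∈ Finset.range M, Integrable (fun x => Θ (p.1, x) * (((n : ℂ) + 1) * (p.2 * conj x) ^ n)) := by
        intro n _
        exact ((hΘz p.1).continuous.mul (continuous_const.mul (hcv.pow n))).integrable_of_hasCompactSupport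
          ((hΘc p.1).mul_right)
      have e1 : ∀ n, a n p.1 * p.2 ^ n = cp * ∫ x, Θ (p.1, x) * (((n : ℂ) + 1) * (p.2 * conj x) ^ n) := by
        intro n
        simp only [a]
        rw [mul_assoc, mul_assoc, mul_left_comm, ← integral_mul_const, ← integral_const_mul]
        congr 1
        refine integral_congr_ae (Filter.Eventually.of_forall fun x => ?_)
        simp only
        rw [mul_pow]
        ring
      have e2 : ∀ x, Θ (p.1, x) * r (p.2 * conj x) = Θ (p.1, x) * (E (p.2 * conj x)) ^ 2 -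
          ∑ n ∈ Finset.range M, Θ (p.1, x) * (((n : ℂ) + 1) * (p.2 * conj x) ^ n) := by
        intro x
        simp only [r]
        rw [mul_sub, Finset.mul_sum]
      simp only [Rm, P, e1, e2]
      rw [integral_sub i1 (integrable_finset_sum _ i2), integral_finset_sum _ i2, mul_sub,
        Finset.mul_sum]
    have hset : ∀ F : ℂ → ℂ, (∀ x, k0 < ‖x‖ → F x = 0) → ∀ b : ℝ, (∀ x, ‖x‖ ≤ k0 → ‖F x‖ ≤ b) →
        ‖∫ x, F x‖ ≤ b * V := by
      intro F hF b hb
      rw [← setIntegral_eq_integral_of_forall_compl_eq_zero (s := Metric.closedBall (0 : ℂ) k0)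
        (fun x hx => hF x (by rw [mem_closedBall_zero_iff] at hx; exact not_le.1 hx))]
      exact norm_setIntegral_le_of_norm_le_const hVf
        (fun x hx => hb x (mem_closedBall_zero_iff.1 hx))
    have hR1 : ∀ p : ℂ × ℂ, ‖p.2‖ < ρ → ‖Rm p‖ ≤ ε := by
      intro p hp
      simp only [Rm]
      rw [norm_mul]
      refine le_trans ?_ hCε
      gcongr
      refine (hset _ (fun x hx => by rw [hz _ _ hx, zero_mul]) (B0 * (ε / C)) (fun x hx => ?_)).trans ?_
      · rw [norm_mul, hr _ (hle _ hp x hx)]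
        gcongr
        · exact hB0 _
        · exact (hM _ 0 (hle _ hp x hx) (by simp [hκ0.le])).1
      · have : 0 ≤ (B1 : ℝ) := B1.2
        have h3 : 0 ≤ ε / C := by positivity
        have h4 : 0 ≤ V := ENNReal.toReal_nonneg
        gcongr
        linarith
    have hR2 : ∀ p p' : ℂ × ℂ, ‖p.2‖ < ρ → ‖p'.2‖ < ρ → ‖Rm p - Rm p'‖ ≤ ε * ‖p - p'‖ := by
      intro p p' hp hp'
      simp only [Rm]
      rw [← mul_sub, ← integral_sub (hiR _ _) (hiR _ _), norm_mul]
      refine le_trans ?_ (mul_le_mul_of_nonneg_right hCε (norm_nonneg _))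
      rw [mul_assoc]
      gcongr
      have h3 : 0 ≤ ε / C := by positivity
      have h4 : 0 ≤ V := ENNReal.toReal_nonneg
      have h6 : (B0 + B1) * (ε / C) * V * ‖p - p'‖ = ((B0 + B1) * (ε / C) * ‖p - p'‖) * V := by ring
      rw [h6]
      refine hset _ (fun x hx => by rw [hz _ _ hx, hz _ _ hx, zero_mul, zero_mul, sub_zero]) _
        (fun x hx => ?_)
      have e5 : Θ (p.1, x) * r (p.2 * conj x) - Θ (p'.1, x) * r (p'.2 * conj x) =
          (Θ (p.1, x) - Θ (p'.1, x)) * r (p.2 * conj x) +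
            Θ (p'.1, x) * (r (p.2 * conj x) - r (p'.2 * conj x)) := by ring
      rw [e5]
      refine (norm_add_le _ _).trans ?_
      rw [norm_mul, norm_mul]
      have hx1 := hle _ hp x hx
      have hx2 := hle _ hp' x hx
      have b1 : ‖Θ (p.1, x) - Θ (p'.1, x)‖ ≤ B1 * ‖p - p'‖ := by
        have := hB1.norm_sub_le (p.1, x) (p'.1, x)
        refine this.trans ?_
        gcongr
        have : ((p.1, x) : ℂ × ℂ) - (p'.1, x) = (p.1 - p'.1, 0) := by
          simp
        rw [this, Prod.norm_mk, norm_zero, max_eq_left (norm_nonneg _)]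
        exact norm_fst_le (p - p')
      have b2 : ‖r (p.2 * conj x)‖ ≤ ε / C := by
        rw [hr _ hx1]; exact (hM _ 0 hx1 (by simp [hκ0.le])).1
      have b3 : ‖r (p.2 * conj x) - r (p'.2 * conj x)‖ ≤ ε / C * ‖p - p'‖ := by
        rw [hr _ hx1, hr _ hx2]
        refine ((hM _ _ hx1 hx2).2).trans ?_
        gcongr
        rw [← sub_mul, norm_mul, RCLike.norm_conj]
        calc ‖p.2 - p'.2‖ * ‖x‖ ≤ ‖p - p'‖ * 1 := by
              gcongr
              · exact norm_snd_le (p - p')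
              · linarith
          _ = ‖p - p'‖ := mul_one _
      calc ‖Θ (p.1, x) - Θ (p'.1, x)‖ * ‖r (p.2 * conj x)‖ +
            ‖Θ (p'.1, x)‖ * ‖r (p.2 * conj x) - r (p'.2 * conj x)‖
          ≤ (B1 * ‖p - p'‖) * (ε / C) + B0 * (ε / C * ‖p - p'‖) := by
            gcongr
            exact hB0 _
        _ = (B0 + B1) * (ε / C) * ‖p - p'‖ := by ring
    refine ⟨M, fun p hp => ?_⟩
    have hp' : ‖p.2‖ < ρ := lt_of_le_of_lt hp hρ
    refine ⟨?_, ?_⟩
    · rw [hRm]; exact hR1 p hp'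
    · have : (fun q : ℂ × ℂ => P q - ∑ n ∈ Finset.range M, a n q.1 * q.2 ^ n) = Rm := by
        funext q; exact hRm q
      rw [this]
      refine norm_fderiv_le_of_lip' ℝ hε.le ?_
      have hopen : {q : ℂ × ℂ | ‖q.2‖ < ρ} ∈ 𝓝 p :=
        (isOpen_lt (continuous_snd.norm) continuous_const).mem_nhds hp'
      filter_upwards [hopen] with q hq
      exact hR2 q p hq hp'

end Pool.Agent.DbarN
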