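import Pool.Agent.DbarN.Prof

set_option autoImplicit false

/-!
# Integrability on the Laguerre side (used by LAG)
-/

namespace Pool.Agent.DbarN

open MeasureTheory Complex Set
open scoped ComplexConjugate ContDiff

/-! ### the functions `gk` -/

theorem lg_hasDerivAt (k : ℕ) (p : ℝ) : HasDerivAt (gk k)
    (Real.sqrt Real.pi * 2 ^ (k + 1) / (k + 1).factorial *
      (((k : ℝ) + 1) * p ^ k - p ^ (k + 1)) * Real.exp (-p)) p := by
  have h1 : HasDerivAt (fun p : ℝ => p ^ (k + 1)) (((k : ℝ) + 1) * p ^ k) p := by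
    have := hasDerivAt_pow (k + 1) p
    simpa using this
  have h2 : HasDerivAt (fun p : ℝ => Real.exp (-p)) (-Real.exp (-p)) p := by
    have := (Real.hasDerivAt_exp (-p)).comp p (hasDerivAt_neg p)
    simpa [Function.comp_def] using this
  have h3 := ((h1.mul h2).const_mul (Real.sqrt Real.pi * 2 ^ (k + 1) / (k + 1).factorial))
  refine (h3.congr_deriv ?_).congr_of_eventuallyEq ?_
  · ring
  · filter_upwards with x
    unfold gk
    simp only [Pi.mul_apply]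
    ring

theorem lg_deriv (k : ℕ) : deriv (gk k) = fun p : ℝ =>
    Real.sqrt Real.pi * 2 ^ (k + 1) / (k + 1).factorial *
      (((k : ℝ) + 1) * p ^ k - p ^ (k + 1)) * Real.exp (-p) :=
  funext fun p => (lg_hasDerivAt k p).deriv

theorem lg_hasDerivAt2 (k : ℕ) (p : ℝ) : HasDerivAt (deriv (gk k))
    (Real.sqrt Real.pi * 2 ^ (k + 1) / (k + 1).factorial *
      (((k : ℝ) + 1) * (k * p ^ (k - 1)) - 2 * (((k : ℝ) + 1) * p ^ k) + p ^ (k + 1))
        * Real.exp (-p)) p := by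
  rw [lg_deriv]
  have h1 : HasDerivAt (fun p : ℝ => p ^ (k + 1)) (((k : ℝ) + 1) * p ^ k) p := by
    have := hasDerivAt_pow (k + 1) p
    simpa using this
  have h0 : HasDerivAt (fun p : ℝ => p ^ k) ((k : ℝ) * p ^ (k - 1)) p := hasDerivAt_pow k p
  have h2 : HasDerivAt (fun p : ℝ => Real.exp (-p)) (-Real.exp (-p)) p := by
    have := (Real.hasDerivAt_exp (-p)).comp p (hasDerivAt_neg p)
    simpa [Function.comp_def] using this
  have h3 := (((h0.const_mul ((k : ℝ) + 1)).sub h1).mul h2).const_mul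
    (Real.sqrt Real.pi * 2 ^ (k + 1) / (k + 1).factorial)
  refine (h3.congr_deriv ?_).congr_of_eventuallyEq ?_
  · simp only [Pi.sub_apply]
    ring
  · filter_upwards with x
    simp only [Pi.mul_apply, Pi.sub_apply]
    ring

theorem lg_deriv2 (k : ℕ) : deriv (deriv (gk k)) = fun p : ℝ =>
    Real.sqrt Real.pi * 2 ^ (k + 1) / (k + 1).factorial *
      (((k : ℝ) + 1) * (k * p ^ (k - 1)) - 2 * (((k : ℝ) + 1) * p ^ k) + p ^ (k + 1))
        * Real.exp (-p) :=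
  funext fun p => (lg_hasDerivAt2 k p).deriv

theorem lg_cont (k : ℕ) : Continuous (gk k) :=
  continuous_iff_continuousAt.2 fun p => (lg_hasDerivAt k p).continuousAt

theorem lg_cont1 (k : ℕ) : Continuous (deriv (gk k)) :=
  continuous_iff_continuousAt.2 fun p => (lg_hasDerivAt2 k p).continuousAt

theorem lg_cont2 (k : ℕ) : Continuous (deriv (deriv (gk k))) := by
  rw [lg_deriv2]
  fun_prop

/-- bounds of `gk` and its derivatives -/
theorem lg_bd (k : ℕ) : ∃ C : ℝ, 0 ≤ C ∧ ∀ p : ℝ, 0 ≤ p →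
    |gk k p| ≤ C * p * (1 + p) ^ (k + 1) * Real.exp (-p) ∧
    |deriv (gk k) p| ≤ C * (1 + p) ^ (k + 1) * Real.exp (-p) ∧
    |deriv (deriv (gk k)) p| ≤ C * (1 + p) ^ (k + 1) * Real.exp (-p) := by
  set c : ℝ := Real.sqrt Real.pi * 2 ^ (k + 1) / (k + 1).factorial with hc
  have hc0 : 0 ≤ c := by positivity
  refine ⟨c * (((k : ℝ) + 1) * k + 2 * ((k : ℝ) + 1) + 1), by positivity, fun p hp => ?_⟩
  have hp1 : 1 ≤ 1 + p := by linarith
  have hE : 0 < Real.exp (-p) := Real.exp_pos _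
  have e1 : p ^ k ≤ (1 + p) ^ (k + 1) :=
    (pow_le_pow_left₀ hp (by linarith) k).trans (pow_le_pow_right₀ hp1 (by omega))
  have e2 : p ^ (k + 1) ≤ (1 + p) ^ (k + 1) := pow_le_pow_left₀ hp (by linarith) _
  have e3 : p ^ (k - 1) ≤ (1 + p) ^ (k + 1) :=
    (pow_le_pow_left₀ hp (by linarith) _).trans (pow_le_pow_right₀ hp1 (by omega))
  have hP : (0 : ℝ) ≤ (1 + p) ^ (k + 1) := by positivity
  have hk : (0 : ℝ) ≤ (k : ℝ) := Nat.cast_nonneg k
  have hcoef : (1 : ℝ) ≤ ((k : ℝ) + 1) * k + 2 * ((k : ℝ) + 1) + 1 := by nlinarith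
  refine ⟨?_, ?_, ?_⟩
  · have : gk k p = c * (p * p ^ k) * Real.exp (-p) := by
      unfold gk; rw [hc]; ring
    rw [this, abs_of_nonneg (by positivity)]
    refine mul_le_mul_of_nonneg_right ?_ hE.le
    have : c * (p * p ^ k) ≤ c * (p * (1 + p) ^ (k + 1)) := by gcongr
    refine this.trans ?_
    have h2 : c * (p * (1 + p) ^ (k + 1)) * 1 ≤ c * (p * (1 + p) ^ (k + 1)) *
        (((k : ℝ) + 1) * k + 2 * ((k : ℝ) + 1) + 1) :=
      mul_le_mul_of_nonneg_left hcoef (by positivity)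
    nlinarith [h2]
  · rw [lg_deriv]
    simp only
    rw [abs_mul, abs_mul, abs_of_nonneg hc0, abs_of_pos hE]
    refine mul_le_mul_of_nonneg_right ?_ hE.le
    rw [mul_assoc]
    refine mul_le_mul_of_nonneg_left ?_ hc0
    have h1 : |((k : ℝ) + 1) * p ^ k - p ^ (k + 1)| ≤ ((k : ℝ) + 1) * p ^ k + p ^ (k + 1) := by
      rw [abs_le]; constructor
      · have : 0 ≤ ((k : ℝ) + 1) * p ^ k := by positivity
        linarith
      · have : 0 ≤ p ^ (k + 1) := by positivity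
        linarith
    refine h1.trans ?_
    have h2 : ((k : ℝ) + 1) * p ^ k ≤ ((k : ℝ) + 1) * (1 + p) ^ (k + 1) := by gcongr
    have h3 : 0 ≤ (((k : ℝ) + 1) * k + ((k : ℝ) + 1)) * (1 + p) ^ (k + 1) := by positivity
    nlinarith [h2, h3, e2]
  · rw [lg_deriv2]
    simp only
    rw [abs_mul, abs_mul, abs_of_nonneg hc0, abs_of_pos hE]
    refine mul_le_mul_of_nonneg_right ?_ hE.le
    rw [mul_assoc]
    refine mul_le_mul_of_nonneg_left ?_ hc0
    have q1 : 0 ≤ ((k : ℝ) + 1) * (k * p ^ (k - 1)) := by positivity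
    have q2 : 0 ≤ ((k : ℝ) + 1) * p ^ k := by positivity
    have q3 : 0 ≤ p ^ (k + 1) := by positivity
    have h1 : |((k : ℝ) + 1) * (k * p ^ (k - 1)) - 2 * (((k : ℝ) + 1) * p ^ k) + p ^ (k + 1)| ≤
        ((k : ℝ) + 1) * (k * p ^ (k - 1)) + 2 * (((k : ℝ) + 1) * p ^ k) + p ^ (k + 1) := by
      rw [abs_le]; constructor <;> linarith
    refine h1.trans ?_
    have h2 : ((k : ℝ) + 1) * p ^ k ≤ ((k : ℝ) + 1) * (1 + p) ^ (k + 1) := by gcongr
    have h4 : ((k : ℝ) + 1) * (k * p ^ (k - 1)) ≤ ((k : ℝ) + 1) * (k * (1 + p) ^ (k + 1)) := by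
      gcongr
    nlinarith [h2, h4, e2]

/-! ### one variable -/

theorem lg_exp_bd (K : ℕ) : ∃ C : ℝ, 0 ≤ C ∧ ∀ p : ℝ, 0 ≤ p →
    (1 + p) ^ K * Real.exp (-(2 * p)) ≤ C * Real.exp (-p) := by
  refine ⟨K.factorial * Real.exp 1, by positivity, fun p hp => ?_⟩
  have h := Real.pow_div_factorial_le_exp (x := 1 + p) (by linarith) K
  have hf : (0 : ℝ) < K.factorial := by positivity
  rw [div_le_iff₀ hf] at h
  calc (1 + p) ^ K * Real.exp (-(2 * p)) ≤ (Real.exp (1 + p) * K.factorial) * Real.exp (-(2 * p)) :=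
        mul_le_mul_of_nonneg_right h (Real.exp_pos _).le
    _ = K.factorial * Real.exp 1 * Real.exp (-p) := by
        rw [Real.exp_add, show -(2 * p) = -p + -p by ring, Real.exp_add]
        have : Real.exp p * Real.exp (-p) = 1 := by rw [← Real.exp_add]; simp
        calc _ = K.factorial * Real.exp 1 * (Real.exp p * Real.exp (-p)) * Real.exp (-p) := by ring
          _ = _ := by rw [this]; ring

theorem lg_int1 (f : ℝ → ℝ) (hf : ContinuousOn f (Ioi 0)) (C : ℝ) (K : ℕ)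
    (hb : ∀ p > 0, |f p| ≤ C * (1 + p) ^ K * Real.exp (-(2 * p))) : IntegrableOn f (Ioi 0) := by
  obtain ⟨C', hC', h'⟩ := lg_exp_bd K
  have hi : IntegrableOn (fun p : ℝ => |C| * C' * Real.exp (-p)) (Ioi 0) :=
    (integrableOn_exp_neg_Ioi 0).const_mul _
  refine hi.mono' (hf.aestronglyMeasurable measurableSet_Ioi) ?_
  refine (ae_restrict_iff' measurableSet_Ioi).2 (Filter.Eventually.of_forall fun p hp => ?_)
  have hp' : (0 : ℝ) < p := hp
  calc ‖f p‖ ≤ C * (1 + p) ^ K * Real.exp (-(2 * p)) := hb p hp'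
    _ ≤ |C| * ((1 + p) ^ K * Real.exp (-(2 * p))) := by
        rw [mul_assoc]
        exact mul_le_mul_of_nonneg_right (le_abs_self C) (by positivity)
    _ ≤ |C| * (C' * Real.exp (-p)) := mul_le_mul_of_nonneg_left (h' p hp'.le) (abs_nonneg C)
    _ = _ := by ring

/-- growth classes of functions of `p` -/
theorem lg_sum_bd {ι : Type*} (s : Finset ι) (a : ι → ℂ) (G : ι → ℝ → ℝ) (B : ℝ → ℝ)
    (hB : ∀ p, 0 < p → 0 ≤ B p)
    (hG : ∀ i ∈ s, ∃ C : ℝ, 0 ≤ C ∧ ∀ p > 0, |G i p| ≤ C * B p) (M : ℝ)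
    : ∃ C : ℝ, 0 ≤ C ∧ ∀ p > 0, ∀ a : ι → ℂ, (∀ i ∈ s, ‖a i‖ ≤ M) →
      ‖∑ i ∈ s, a i * (G i p : ℂ)‖ ≤ C * B p := by
  classical
  choose! C hC0 hC using hG
  refine ⟨∑ i ∈ s, |M| * C i, Finset.sum_nonneg fun i hi => mul_nonneg (abs_nonneg _) (hC0 i hi), ?_⟩
  intro p hp a ha
  rw [Finset.sum_mul]
  refine (norm_sum_le _ _).trans (Finset.sum_le_sum fun i hi => ?_)
  rw [norm_mul, Complex.norm_real, Real.norm_eq_abs]
  calc ‖a i‖ * |G i p| ≤ |M| * (C i * B p) :=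
        mul_le_mul ((ha i hi).trans (le_abs_self M)) (hC i hi p hp) (abs_nonneg _) (abs_nonneg _)
    _ = _ := by ring

end Pool.Agent.DbarN
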