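import Pool.Agent.DbarN.LAGbase

set_option autoImplicit false

/-!
# Integrability on the Laguerre side, three variables (used by LAG)
-/

namespace Pool.Agent.DbarN

open MeasureTheory Complex Set
open scoped ComplexConjugate ContDiff

theorem lg_meas_SS (D : Prof) : MeasurableSet (SS D) :=
  measurableSet_Ioo.prod (measurableSet_Ioo.prod measurableSet_Ioi)

theorem lg_meas_S3 (l m : ℝ) : MeasurableSet (S3 l m) :=
  measurableSet_Ioo.prod (measurableSet_Ioo.prod measurableSet_Ioi)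

theorem lg_meas_S2 : MeasurableSet S2 := measurableSet_Ioo.prod measurableSet_Ioi

theorem lg_exp_S2 : IntegrableOn (fun q : ℝ × ℝ => Real.exp (-q.2)) S2 := by
  unfold S2
  rw [IntegrableOn, Measure.volume_eq_prod, ← Measure.prod_restrict]
  have h1 : Integrable (fun _ : ℝ => (1 : ℝ)) (volume.restrict (Ioo (-Real.pi) Real.pi)) :=
    integrable_const 1
  have h2 : Integrable (fun p : ℝ => Real.exp (-p)) (volume.restrict (Ioi 0)) :=
    integrableOn_exp_neg_Ioi 0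
  have := h1.mul_prod h2
  simpa using this

theorem lg_exp_SS (D : Prof) : IntegrableOn (fun s : ℝ × ℝ × ℝ => Real.exp (-s.2.2)) (SS D) := by
  unfold SS S3
  rw [IntegrableOn, Measure.volume_eq_prod, ← Measure.prod_restrict]
  have h1 : Integrable (fun _ : ℝ => (1 : ℝ)) (volume.restrict (Ioo D.a0 D.b0)) :=
    integrable_const 1
  have h2 : Integrable (fun q : ℝ × ℝ => Real.exp (-q.2)) (volume.restrict S2) := lg_exp_S2
  have := h1.mul_prod h2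
  simpa using this

theorem lg_int3 (D : Prof) (F : ℝ × ℝ × ℝ → ℝ) (hF : ContinuousOn F (SS D)) (C : ℝ) (K : ℕ)
    (hb : ∀ s ∈ SS D, |F s| ≤ C * (1 + s.2.2) ^ K * Real.exp (-(2 * s.2.2))) :
    IntegrableOn F (SS D) := by
  obtain ⟨C', hC', h'⟩ := lg_exp_bd K
  have hi : IntegrableOn (fun s : ℝ × ℝ × ℝ => |C| * C' * Real.exp (-s.2.2)) (SS D) :=
    (lg_exp_SS D).const_mul _
  refine hi.mono' (hF.aestronglyMeasurable (lg_meas_SS D)) ?_
  refine (ae_restrict_iff' (lg_meas_SS D)).2 (Filter.Eventually.of_forall fun s hs => ?_)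
  have hp' : (0 : ℝ) < s.2.2 := hs.2.2
  calc ‖F s‖ ≤ C * (1 + s.2.2) ^ K * Real.exp (-(2 * s.2.2)) := hb s hs
    _ ≤ |C| * ((1 + s.2.2) ^ K * Real.exp (-(2 * s.2.2))) := by
        rw [mul_assoc]
        exact mul_le_mul_of_nonneg_right (le_abs_self C) (by positivity)
    _ ≤ |C| * (C' * Real.exp (-s.2.2)) := mul_le_mul_of_nonneg_left (h' _ hp'.le) (abs_nonneg C)
    _ = _ := by ring

theorem lg_int2 (F : ℝ × ℝ → ℝ) (hF : ContinuousOn F S2) (C : ℝ) (K : ℕ)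
    (hb : ∀ s ∈ S2, |F s| ≤ C * (1 + s.2) ^ K * Real.exp (-(2 * s.2))) :
    IntegrableOn F S2 := by
  obtain ⟨C', hC', h'⟩ := lg_exp_bd K
  have hi : IntegrableOn (fun s : ℝ × ℝ => |C| * C' * Real.exp (-s.2)) S2 :=
    lg_exp_S2.const_mul _
  refine hi.mono' (hF.aestronglyMeasurable lg_meas_S2) ?_
  refine (ae_restrict_iff' lg_meas_S2).2 (Filter.Eventually.of_forall fun s hs => ?_)
  have hp' : (0 : ℝ) < s.2 := hs.2
  calc ‖F s‖ ≤ C * (1 + s.2) ^ K * Real.exp (-(2 * s.2)) := hb s hs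
    _ ≤ |C| * ((1 + s.2) ^ K * Real.exp (-(2 * s.2))) := by
        rw [mul_assoc]
        exact mul_le_mul_of_nonneg_right (le_abs_self C) (by positivity)
    _ ≤ |C| * (C' * Real.exp (-s.2)) := mul_le_mul_of_nonneg_left (h' _ hp'.le) (abs_nonneg C)
    _ = _ := by ring

/-- growth `(1+p)^K e^{-p}` -/
structure LgG0 (D : Prof) (a1 b1 : ℝ) (f : ℝ × ℝ × ℝ → ℂ) : Prop where
  cont : ContinuousOn f (SS D)
  supp : ∀ s ∈ SS D, s.1 ∉ Icc a1 b1 → f s = 0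
  bd : ∃ (C : ℝ) (K : ℕ), 0 ≤ C ∧ ∀ s ∈ SS D, ‖f s‖ ≤ C * ((1 + s.2.2) ^ K * Real.exp (-s.2.2))

/-- growth `p (1+p)^K e^{-p}` -/
structure LgG1 (D : Prof) (a1 b1 : ℝ) (f : ℝ × ℝ × ℝ → ℂ) : Prop where
  cont : ContinuousOn f (SS D)
  supp : ∀ s ∈ SS D, s.1 ∉ Icc a1 b1 → f s = 0
  bd : ∃ (C : ℝ) (K : ℕ), 0 ≤ C ∧ ∀ s ∈ SS D,
    ‖f s‖ ≤ C * (s.2.2 * (1 + s.2.2) ^ K * Real.exp (-s.2.2))

variable {D : Prof} {a1 b1 : ℝ}

theorem lg_pow_mono {p : ℝ} (hp : 0 < p) {K L : ℕ} (h : K ≤ L) : (1 + p) ^ K ≤ (1 + p) ^ L :=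
  pow_le_pow_right₀ (by linarith) h

theorem LgG1.to0 {f : ℝ × ℝ × ℝ → ℂ} (h : LgG1 D a1 b1 f) : LgG0 D a1 b1 f := by
  obtain ⟨C, K, hC, hb⟩ := h.bd
  refine ⟨h.cont, h.supp, C, K + 1, hC, fun s hs => (hb s hs).trans ?_⟩
  have hp : (0 : ℝ) < s.2.2 := hs.2.2
  have : s.2.2 * (1 + s.2.2) ^ K ≤ (1 + s.2.2) ^ (K + 1) := by
    rw [pow_succ']
    exact mul_le_mul_of_nonneg_right (by linarith) (by positivity)
  gcongr

theorem LgG0.add {f g : ℝ × ℝ × ℝ → ℂ} (h : LgG0 D a1 b1 f) (h' : LgG0 D a1 b1 g) :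
    LgG0 D a1 b1 (fun s => f s + g s) := by
  obtain ⟨C, K, hC, hb⟩ := h.bd
  obtain ⟨C', K', hC', hb'⟩ := h'.bd
  refine ⟨h.cont.add h'.cont, fun s hs hx => by simp [h.supp s hs hx, h'.supp s hs hx],
    C + C', K + K', by positivity, fun s hs => ?_⟩
  have hp : (0 : ℝ) < s.2.2 := hs.2.2
  have e1 := lg_pow_mono hp (K := K) (L := K + K') (by omega)
  have e2 := lg_pow_mono hp (K := K') (L := K + K') (by omega)
  refine (norm_add_le _ _).trans ?_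
  rw [add_mul]
  refine add_le_add ((hb s hs).trans ?_) ((hb' s hs).trans ?_) <;> gcongr

theorem LgG1.add {f g : ℝ × ℝ × ℝ → ℂ} (h : LgG1 D a1 b1 f) (h' : LgG1 D a1 b1 g) :
    LgG1 D a1 b1 (fun s => f s + g s) := by
  obtain ⟨C, K, hC, hb⟩ := h.bd
  obtain ⟨C', K', hC', hb'⟩ := h'.bd
  refine ⟨h.cont.add h'.cont, fun s hs hx => by simp [h.supp s hs hx, h'.supp s hs hx],
    C + C', K + K', by positivity, fun s hs => ?_⟩
  have hp : (0 : ℝ) < s.2.2 := hs.2.2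
  have e1 := lg_pow_mono hp (K := K) (L := K + K') (by omega)
  have e2 := lg_pow_mono hp (K := K') (L := K + K') (by omega)
  refine (norm_add_le _ _).trans ?_
  rw [add_mul]
  refine add_le_add ((hb s hs).trans ?_) ((hb' s hs).trans ?_) <;> gcongr

theorem lg_bdx (h1 : D.a0 < a1) (h2 : b1 < D.b0) (h : ℝ → ℂ) (hh : ContinuousOn h (Ioo D.a0 D.b0)) :
    ∃ B : ℝ, 0 ≤ B ∧ ∀ x ∈ Icc a1 b1, ‖h x‖ ≤ B := by
  have hsub : Icc a1 b1 ⊆ Ioo D.a0 D.b0 := fun x hx => ⟨h1.trans_le hx.1, hx.2.trans_lt h2⟩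
  obtain ⟨B, hB⟩ := isCompact_Icc.exists_bound_of_continuousOn (hh.mono hsub)
  exact ⟨|B|, abs_nonneg _, fun x hx => (hB x hx).trans (le_abs_self _)⟩

theorem LgG0.smulx {f : ℝ × ℝ × ℝ → ℂ} (h : LgG0 D a1 b1 f) (h1 : D.a0 < a1) (h2 : b1 < D.b0)
    (g : ℝ → ℂ) (hg : ContinuousOn g (Ioo D.a0 D.b0)) : LgG0 D a1 b1 (fun s => g s.1 * f s) := by
  obtain ⟨C, K, hC, hb⟩ := h.bd
  obtain ⟨B, hB0, hB⟩ := lg_bdx h1 h2 g hg
  refine ⟨(hg.comp continuousOn_fst fun s hs => hs.1).mul h.cont,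
    fun s hs hx => by simp [h.supp s hs hx], B * C, K, by positivity, fun s hs => ?_⟩
  by_cases hx : s.1 ∈ Icc a1 b1
  · rw [norm_mul, mul_assoc]
    exact mul_le_mul (hB _ hx) (hb s hs) (norm_nonneg _) hB0
  · rw [h.supp s hs hx, mul_zero, norm_zero]
    have hp : (0 : ℝ) < s.2.2 := hs.2.2
    positivity

theorem LgG1.smulx {f : ℝ × ℝ × ℝ → ℂ} (h : LgG1 D a1 b1 f) (h1 : D.a0 < a1) (h2 : b1 < D.b0)
    (g : ℝ → ℂ) (hg : ContinuousOn g (Ioo D.a0 D.b0)) : LgG1 D a1 b1 (fun s => g s.1 * f s) := by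
  obtain ⟨C, K, hC, hb⟩ := h.bd
  obtain ⟨B, hB0, hB⟩ := lg_bdx h1 h2 g hg
  refine ⟨(hg.comp continuousOn_fst fun s hs => hs.1).mul h.cont,
    fun s hs hx => by simp [h.supp s hs hx], B * C, K, by positivity, fun s hs => ?_⟩
  by_cases hx : s.1 ∈ Icc a1 b1
  · rw [norm_mul, mul_assoc]
    exact mul_le_mul (hB _ hx) (hb s hs) (norm_nonneg _) hB0
  · rw [h.supp s hs hx, mul_zero, norm_zero]
    have hp : (0 : ℝ) < s.2.2 := hs.2.2
    positivity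

theorem LgG0.mulp {f : ℝ × ℝ × ℝ → ℂ} (h : LgG0 D a1 b1 f) :
    LgG1 D a1 b1 (fun s => (s.2.2 : ℂ) * f s) := by
  obtain ⟨C, K, hC, hb⟩ := h.bd
  refine ⟨ContinuousOn.mul (by fun_prop) h.cont, fun s hs hx => by simp [h.supp s hs hx],
    C, K, hC, fun s hs => ?_⟩
  have hp : (0 : ℝ) < s.2.2 := hs.2.2
  rw [norm_mul, Complex.norm_real, Real.norm_eq_abs, abs_of_pos hp]
  calc s.2.2 * ‖f s‖ ≤ s.2.2 * (C * ((1 + s.2.2) ^ K * Real.exp (-s.2.2))) :=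
        mul_le_mul_of_nonneg_left (hb s hs) hp.le
    _ = _ := by ring

theorem lg_exp_sq (p : ℝ) : Real.exp (-p) * Real.exp (-p) = Real.exp (-(2 * p)) := by
  rw [← Real.exp_add]; congr 1; ring

/-- `w |f|²/p` is integrable for `f` of class `LgG1` and a weight `w` with `p |w| ≤ W (1+p)²` -/
theorem LgG1.int_w {f : ℝ × ℝ × ℝ → ℂ} (h : LgG1 D a1 b1 f) (w : ℝ × ℝ × ℝ → ℝ)
    (hw : ContinuousOn w (SS D)) (W : ℝ)
    (hW : ∀ s ∈ SS D, s.1 ∈ Icc a1 b1 → |w s| * s.2.2 ≤ W * (1 + s.2.2) ^ 2) :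
    IntegrableOn (fun s => w s * ‖f s‖ ^ 2 / s.2.2) (SS D) := by
  obtain ⟨C, K, hC, hb⟩ := h.bd
  refine lg_int3 D _ ?_ (|W| * C ^ 2) (2 * K + 2) ?_
  · refine ContinuousOn.div (hw.mul (h.cont.norm.pow 2)) (by fun_prop) ?_
    intro s hs
    exact (show (0 : ℝ) < s.2.2 from hs.2.2).ne'
  · intro s hs
    have hp : (0 : ℝ) < s.2.2 := hs.2.2
    by_cases hx : s.1 ∈ Icc a1 b1
    · rw [abs_div, abs_mul, abs_of_pos hp, abs_of_nonneg (sq_nonneg ‖f s‖), div_le_iff₀ hp]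
      have h1 : ‖f s‖ ^ 2 ≤ (C * (s.2.2 * (1 + s.2.2) ^ K * Real.exp (-s.2.2))) ^ 2 :=
        pow_le_pow_left₀ (norm_nonneg _) (hb s hs) 2
      have h2 : |w s| * s.2.2 ≤ |W| * (1 + s.2.2) ^ 2 :=
        (hW s hs hx).trans (mul_le_mul_of_nonneg_right (le_abs_self W) (by positivity))
      calc |w s| * ‖f s‖ ^ 2
          ≤ |w s| * (C * (s.2.2 * (1 + s.2.2) ^ K * Real.exp (-s.2.2))) ^ 2 :=
            mul_le_mul_of_nonneg_left h1 (abs_nonneg _)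
        _ = (|w s| * s.2.2) * (C ^ 2 * s.2.2 * ((1 + s.2.2) ^ K) ^ 2 *
              (Real.exp (-s.2.2) * Real.exp (-s.2.2))) := by ring
        _ ≤ (|W| * (1 + s.2.2) ^ 2) * (C ^ 2 * s.2.2 * ((1 + s.2.2) ^ K) ^ 2 *
              (Real.exp (-s.2.2) * Real.exp (-s.2.2))) :=
            mul_le_mul_of_nonneg_right h2 (by positivity)
        _ = _ := by
            rw [lg_exp_sq]; ring
    · rw [h.supp s hs hx]
      simp only [norm_zero, ne_eq, OfNat.ofNat_ne_zero, not_false_eq_true, zero_pow, mul_zero,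
        zero_div, abs_zero]
      positivity

/-- `w |f| |g|` is integrable for `f, g` of class `LgG0` and `w` a function of `x` -/
theorem LgG0.int_mul {f g : ℝ × ℝ × ℝ → ℂ} (h : LgG0 D a1 b1 f) (h' : LgG0 D a1 b1 g)
    (h1 : D.a0 < a1) (h2 : b1 < D.b0) (w : ℝ → ℝ) (hw : ContinuousOn w (Ioo D.a0 D.b0))
    (F : ℝ × ℝ × ℝ → ℝ) (hF : ContinuousOn F (SS D)) (hFb : ∀ s ∈ SS D, |F s| ≤ ‖f s‖ * ‖g s‖) :
    IntegrableOn (fun s => w s.1 * F s) (SS D) := by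
  obtain ⟨C, K, hC, hb⟩ := h.bd
  obtain ⟨C', K', hC', hb'⟩ := h'.bd
  have hwc : ContinuousOn (fun x => (w x : ℂ)) (Ioo D.a0 D.b0) := by
    exact Complex.continuous_ofReal.comp_continuousOn hw
  obtain ⟨B, hB0, hB⟩ := lg_bdx h1 h2 _ hwc
  refine lg_int3 D _ ?_ (B * C * C') (K + K') ?_
  · exact (hw.comp continuousOn_fst fun s hs => hs.1).mul hF
  · intro s hs
    have hp : (0 : ℝ) < s.2.2 := hs.2.2
    by_cases hx : s.1 ∈ Icc a1 b1
    · rw [abs_mul]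
      have e1 : |w s.1| ≤ B := by simpa using hB _ hx
      have e2 : |F s| ≤ (C * ((1 + s.2.2) ^ K * Real.exp (-s.2.2))) *
          (C' * ((1 + s.2.2) ^ K' * Real.exp (-s.2.2))) :=
        (hFb s hs).trans (mul_le_mul (hb s hs) (hb' s hs) (norm_nonneg _) (by positivity))
      calc |w s.1| * |F s| ≤ B * ((C * ((1 + s.2.2) ^ K * Real.exp (-s.2.2))) *
          (C' * ((1 + s.2.2) ^ K' * Real.exp (-s.2.2)))) :=
            mul_le_mul e1 e2 (abs_nonneg _) hB0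
        _ = B * C * C' * (1 + s.2.2) ^ (K + K') * (Real.exp (-s.2.2) * Real.exp (-s.2.2)) := by
            rw [pow_add]; ring
        _ = _ := by rw [lg_exp_sq]
    · have : |F s| ≤ 0 := by
        have := hFb s hs
        rwa [h.supp s hs hx, norm_zero, zero_mul] at this
      have hF0 : F s = 0 := abs_nonpos_iff.1 this
      rw [hF0, mul_zero, abs_zero]
      positivity

/-! ### building blocks -/

/-- coefficient functions -/
structure LgCF (a1 b1 : ℝ) (c : ℝ × ℝ → ℂ) : Prop where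
  cont : Continuous c
  supp : ∀ q : ℝ × ℝ, q.1 ∉ Icc a1 b1 → c q = 0

theorem LgCF.bound {c : ℝ × ℝ → ℂ} (h : LgCF a1 b1 c) : ∃ M : ℝ, 0 ≤ M ∧
    ∀ q : ℝ × ℝ, q.2 ∈ Icc (-Real.pi) Real.pi → ‖c q‖ ≤ M := by
  obtain ⟨B, hB⟩ := (isCompact_Icc (a := a1) (b := b1)).prod
    (isCompact_Icc (a := -Real.pi) (b := Real.pi)) |>.exists_bound_of_continuousOn
      h.cont.continuousOn
  refine ⟨|B|, abs_nonneg _, fun q hq => ?_⟩
  by_cases hx : q.1 ∈ Icc a1 b1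
  · exact (hB q ⟨hx, hq⟩).trans (le_abs_self _)
  · rw [h.supp q hx, norm_zero]; exact abs_nonneg _

theorem lg_block1 (N : ℕ) (c : ℕ → ℝ × ℝ → ℂ) (hc : ∀ k, LgCF a1 b1 (c k)) (G : ℕ → ℝ → ℝ)
    (hG : ∀ k, Continuous (G k)) (hGb : ∀ k, ∃ (C : ℝ) (K : ℕ), 0 ≤ C ∧ ∀ p > 0,
      |G k p| ≤ C * (p * (1 + p) ^ K * Real.exp (-p))) :
    LgG1 D a1 b1 (fun s => ∑ k ∈ Finset.range N, c k (s.1, s.2.1) * (G k s.2.2 : ℂ)) := by
  induction N with
  | zero =>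
    refine ⟨by simp only [Finset.range_zero, Finset.sum_empty]; exact continuousOn_const,
      fun s hs hx => by simp, 0, 0, le_rfl, fun s hs => by simp⟩
  | succ n ih =>
    have e : (fun s : ℝ × ℝ × ℝ => ∑ k ∈ Finset.range (n + 1),
        c k (s.1, s.2.1) * (G k s.2.2 : ℂ)) = fun s =>
        (∑ k ∈ Finset.range n, c k (s.1, s.2.1) * (G k s.2.2 : ℂ)) +
          c n (s.1, s.2.1) * (G n s.2.2 : ℂ) := by
      funext s; rw [Finset.sum_range_succ]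
    rw [e]
    refine ih.add ?_
    obtain ⟨M, hM0, hM⟩ := (hc n).bound
    obtain ⟨C, K, hC, hb⟩ := hGb n
    refine ⟨?_, fun s hs hx => by simp [(hc n).supp (s.1, s.2.1) hx], M * C, K, by positivity, ?_⟩
    · have c1 : Continuous fun s : ℝ × ℝ × ℝ => c n (s.1, s.2.1) :=
        (hc n).cont.comp (by fun_prop)
      have c2 : Continuous fun s : ℝ × ℝ × ℝ => (G n s.2.2 : ℂ) :=
        Complex.continuous_ofReal.comp ((hG n).comp (by fun_prop))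
      exact (c1.mul c2).continuousOn
    · intro s hs
      have hp : (0 : ℝ) < s.2.2 := hs.2.2
      have hφ : s.2.1 ∈ Icc (-Real.pi) Real.pi := Ioo_subset_Icc_self hs.2.1
      rw [norm_mul, Complex.norm_real, Real.norm_eq_abs, mul_assoc]
      exact mul_le_mul (hM (s.1, s.2.1) hφ) (hb _ hp) (abs_nonneg _) hM0

theorem lg_block0 (N : ℕ) (c : ℕ → ℝ × ℝ → ℂ) (hc : ∀ k, LgCF a1 b1 (c k)) (G : ℕ → ℝ → ℝ)
    (hG : ∀ k, Continuous (G k)) (hGb : ∀ k, ∃ (C : ℝ) (K : ℕ), 0 ≤ C ∧ ∀ p > 0,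
      |G k p| ≤ C * ((1 + p) ^ K * Real.exp (-p))) :
    LgG0 D a1 b1 (fun s => ∑ k ∈ Finset.range N, c k (s.1, s.2.1) * (G k s.2.2 : ℂ)) := by
  induction N with
  | zero =>
    refine ⟨by simp only [Finset.range_zero, Finset.sum_empty]; exact continuousOn_const,
      fun s hs hx => by simp, 0, 0, le_rfl, fun s hs => by simp⟩
  | succ n ih =>
    have e : (fun s : ℝ × ℝ × ℝ => ∑ k ∈ Finset.range (n + 1),
        c k (s.1, s.2.1) * (G k s.2.2 : ℂ)) = fun s =>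
        (∑ k ∈ Finset.range n, c k (s.1, s.2.1) * (G k s.2.2 : ℂ)) +
          c n (s.1, s.2.1) * (G n s.2.2 : ℂ) := by
      funext s; rw [Finset.sum_range_succ]
    rw [e]
    refine ih.add ?_
    obtain ⟨M, hM0, hM⟩ := (hc n).bound
    obtain ⟨C, K, hC, hb⟩ := hGb n
    refine ⟨?_, fun s hs hx => by simp [(hc n).supp (s.1, s.2.1) hx], M * C, K, by positivity, ?_⟩
    · have c1 : Continuous fun s : ℝ × ℝ × ℝ => c n (s.1, s.2.1) :=
        (hc n).cont.comp (by fun_prop)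
      have c2 : Continuous fun s : ℝ × ℝ × ℝ => (G n s.2.2 : ℂ) :=
        Complex.continuous_ofReal.comp ((hG n).comp (by fun_prop))
      exact (c1.mul c2).continuousOn
    · intro s hs
      have hp : (0 : ℝ) < s.2.2 := hs.2.2
      have hφ : s.2.1 ∈ Icc (-Real.pi) Real.pi := Ioo_subset_Icc_self hs.2.1
      rw [norm_mul, Complex.norm_real, Real.norm_eq_abs, mul_assoc]
      exact mul_le_mul (hM (s.1, s.2.1) hφ) (hb _ hp) (abs_nonneg _) hM0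

end Pool.Agent.DbarN
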