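import Pool.Agent.DbarN.Basic
import Pool.Agent.DbarN.Gram
import Pool.Agent.DbarN.Cov

set_option autoImplicit false

/-!
# Trial functions on the domain
-/

namespace Pool.Agent.DbarN

open MeasureTheory Complex Set
open scoped ComplexConjugate ContDiff

namespace Trx

/-! ### polynomials on the disc -/

/-- coefficients of `(v (1 + v) P)'` up to the factor `n + 1` -/
noncomputable def ee (a : ℕ → ℝ) (n : ℕ) : ℝ := a n - (if n = 0 then 0 else a (n - 1))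

noncomputable def P (N : ℕ) (a : ℕ → ℝ) (v : ℂ) : ℂ :=
  ∑ n ∈ Finset.range N, ((a n : ℝ) : ℂ) * (-v) ^ n

theorem P_succ (N : ℕ) (a : ℕ → ℝ) (v : ℂ) :
    P (N + 1) a v = P N a v + ((a N : ℝ) : ℂ) * (-v) ^ N := Finset.sum_range_succ _ _

noncomputable def Q (N : ℕ) (a : ℕ → ℝ) (v : ℂ) : ℂ := P (N + 1) (fun n => ((n : ℝ) + 1) * ee a n) v

theorem P_tel (N : ℕ) (a : ℕ → ℝ) (v : ℂ) :
    v * (1 + v) * P N a v =
      v * P N (ee a) v - (if N = 0 then 0 else ((a (N - 1) : ℝ) : ℂ)) * (-v) ^ N * v := by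
  induction N with
  | zero => simp [P]
  | succ N ih =>
    rw [P_succ, P_succ, mul_add, ih]
    rcases Nat.eq_zero_or_pos N with h0 | h0
    · subst h0
      simp [ee]
      ring
    · have h1 : N ≠ 0 := h0.ne'
      simp only [ee, h1, if_false, Nat.add_sub_cancel, Nat.add_eq_zero_iff, one_ne_zero, and_false]
      push_cast
      ring

theorem P_tel' (N : ℕ) (a : ℕ → ℝ) (hN : a N = 0) (v : ℂ) :
    v * (1 + v) * P N a v = v * P (N + 1) (ee a) v := by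
  rw [P_tel, P_succ]
  rcases Nat.eq_zero_or_pos N with h0 | h0
  · subst h0
    simp [ee, hN]
  · have h1 : N ≠ 0 := h0.ne'
    simp only [ee, h1, if_false, hN]
    push_cast
    ring

/-- derivative of `P` -/
noncomputable def P' (N : ℕ) (a : ℕ → ℝ) (v : ℂ) : ℂ :=
  ∑ n ∈ Finset.range N, ((a n : ℝ) : ℂ) * ((n : ℂ) * (-v) ^ (n - 1) * (-1))

theorem hasDerivAt_P (N : ℕ) (a : ℕ → ℝ) (v : ℂ) : HasDerivAt (P N a) (P' N a v) v := by
  have h : ∀ n ∈ Finset.range N, HasDerivAt (fun v : ℂ => ((a n : ℝ) : ℂ) * (-v) ^ n)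
      (((a n : ℝ) : ℂ) * ((n : ℂ) * (-v) ^ (n - 1) * (-1))) v := by
    intro n _
    exact ((hasDerivAt_neg v).pow n).const_mul _
  exact HasDerivAt.fun_sum h

theorem vP' (N : ℕ) (a : ℕ → ℝ) (v : ℂ) :
    P N a v + v * P' N a v = P N (fun n => ((n : ℝ) + 1) * a n) v := by
  unfold P P'
  rw [Finset.mul_sum, ← Finset.sum_add_distrib]
  refine Finset.sum_congr rfl fun n _ => ?_
  rcases Nat.eq_zero_or_pos n with h0 | h0
  · subst h0
    simp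
  · obtain ⟨m, rfl⟩ : ∃ m, n = m + 1 := ⟨n - 1, by omega⟩
    simp only [Nat.add_sub_cancel]
    push_cast
    ring

theorem Q_eq (N : ℕ) (a : ℕ → ℝ) (hN : a N = 0) (v : ℂ) :
    (1 + 2 * v) * P N a v + v * (1 + v) * P' N a v = Q N a v := by
  have h1 : HasDerivAt (fun v : ℂ => v * (1 + v) * P N a v)
      ((1 + 2 * v) * P N a v + v * (1 + v) * P' N a v) v := by
    have e1 : HasDerivAt (fun v : ℂ => v * (1 + v)) (1 + 2 * v) v := by
      have := (hasDerivAt_id v).mul ((hasDerivAt_id v).const_add 1)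
      refine this.congr_deriv ?_
      simp
      ring
    exact e1.mul (hasDerivAt_P N a v)
  have h2 : HasDerivAt (fun v : ℂ => v * P (N + 1) (ee a) v) (Q N a v) v := by
    have := (hasDerivAt_id v).mul (hasDerivAt_P (N + 1) (ee a) v)
    refine this.congr_deriv ?_
    simp only [id_eq, one_mul]
    exact vP' (N + 1) (ee a) v
  have h3 : (fun v : ℂ => v * (1 + v) * P N a v) = fun v => v * P (N + 1) (ee a) v := by
    ext w
    exact P_tel' N a hN w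
  rw [h3] at h1
  exact h1.unique h2

theorem norm_poly (N : ℕ) (c : ℕ → ℝ) :
    ∫ v in Metric.ball (0 : ℂ) 1, ‖P N c v‖ ^ 2 =
      Real.pi * ∑ n ∈ Finset.range N, c n ^ 2 / (n + 1) := by
  have hint : ∀ i j : ℕ, ∀ c : ℂ, IntegrableOn (fun v : ℂ => c * (v ^ i * conj v ^ j))
      (Metric.ball (0 : ℂ) 1) := by
    intro i j c
    have hc : Continuous (fun v : ℂ => c * (v ^ i * conj v ^ j)) := by
      fun_prop
    exact (hc.continuousOn.integrableOn_compact (isCompact_closedBall (0 : ℂ) 1)).mono_set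
      Metric.ball_subset_closedBall
  have h0 : ∀ v : ℂ, ((‖P N c v‖ ^ 2 : ℝ) : ℂ) = ∑ i ∈ Finset.range N, ∑ j ∈ Finset.range N,
      ((c i : ℂ) * (-1) ^ i * ((c j : ℂ) * (-1) ^ j)) * (v ^ i * conj v ^ j) := by
    intro v
    have e1 : ((‖P N c v‖ ^ 2 : ℝ) : ℂ) = P N c v * conj (P N c v) := by
      rw [Complex.mul_conj, Complex.normSq_eq_norm_sq]
    rw [e1]
    unfold P
    rw [map_sum, Finset.sum_mul_sum]
    refine Finset.sum_congr rfl fun i _ => Finset.sum_congr rfl fun j _ => ?_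
    rw [map_mul, map_pow, map_neg, conj_ofReal, neg_pow v, neg_pow (conj v)]
    ring
  have h1 : ((∫ v in Metric.ball (0 : ℂ) 1, ‖P N c v‖ ^ 2 : ℝ) : ℂ) =
      ∫ v in Metric.ball (0 : ℂ) 1, ((‖P N c v‖ ^ 2 : ℝ) : ℂ) := integral_complex_ofReal.symm
  have h2 : ((∫ v in Metric.ball (0 : ℂ) 1, ‖P N c v‖ ^ 2 : ℝ) : ℂ) =
      ((Real.pi * ∑ n ∈ Finset.range N, c n ^ 2 / (n + 1) : ℝ) : ℂ) := by
    rw [h1]
    simp only [h0]
    rw [integral_finsetSum _ fun i _ => integrable_finsetSum _ fun j _ => hint i j _]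
    have h3 : ∀ i ∈ Finset.range N,
        ∫ v in Metric.ball (0 : ℂ) 1, ∑ j ∈ Finset.range N,
          ((c i : ℂ) * (-1) ^ i * ((c j : ℂ) * (-1) ^ j)) * (v ^ i * conj v ^ j) =
        ((Real.pi * (c i ^ 2 / (i + 1)) : ℝ) : ℂ) := by
      intro i hi
      rw [integral_finsetSum _ fun j _ => hint i j _]
      have h4 : ∀ j ∈ Finset.range N,
          ∫ v in Metric.ball (0 : ℂ) 1,
            ((c i : ℂ) * (-1) ^ i * ((c j : ℂ) * (-1) ^ j)) * (v ^ i * conj v ^ j) =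
          if i = j then ((c i : ℂ) * (-1) ^ i * ((c j : ℂ) * (-1) ^ j)) *
            ((Real.pi / (i + 1) : ℝ) : ℂ) else 0 := by
        intro j _
        rw [integral_const_mul, disc_moment]
        split_ifs <;> simp
      rw [Finset.sum_congr rfl h4, Finset.sum_ite_eq, if_pos hi]
      have h5 : ((-1 : ℂ) ^ i) * (-1) ^ i = 1 := by
        rw [← mul_pow]
        simp
      push_cast
      linear_combination ((c i : ℂ) * (c i : ℂ) * ((Real.pi : ℂ) / (i + 1))) * h5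
    rw [Finset.sum_congr rfl h3, ← ofReal_sum, ← Finset.mul_sum]
  exact_mod_cast h2

/-! ### choice of the coefficients -/

noncomputable def hh (N n : ℕ) : ℝ := ∑ j ∈ Finset.Ico n N, 1 / ((j : ℝ) + 1)

theorem hh_top (N : ℕ) : hh N N = 0 := by simp [hh]

theorem hh_succ {N n : ℕ} (h : n < N) : hh N n = 1 / ((n : ℝ) + 1) + hh N (n + 1) := by
  unfold hh
  exact Finset.sum_eq_sum_Ico_succ_bot h _

theorem hh_nonneg (N n : ℕ) : 0 ≤ hh N n := Finset.sum_nonneg fun j _ => by positivity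

theorem lower (N : ℕ) : hh N 0 ^ 3 / 3 ≤ ∑ n ∈ Finset.range N, hh N n ^ 2 / (n + 1) := by
  have h1 : ∀ n ∈ Finset.range N, (hh N n ^ 3 - hh N (n + 1) ^ 3) / 3 ≤ hh N n ^ 2 / (n + 1) := by
    intro n hn
    have h2 := hh_succ (Finset.mem_range.1 hn)
    have h3 := hh_nonneg N (n + 1)
    have h4 : (0 : ℝ) < 1 / ((n : ℝ) + 1) := by positivity
    set x := hh N (n + 1)
    set t := 1 / ((n : ℝ) + 1) with ht
    have h5 : hh N n ^ 2 / ((n : ℝ) + 1) = (t + x) ^ 2 * t := by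
      rw [h2, ht]
      ring
    rw [h5, h2]
    nlinarith [mul_nonneg h3 h4.le, mul_pos h4 h4, mul_nonneg (mul_nonneg h3 h4.le) h4.le,
      mul_pos (mul_pos h4 h4) h4, mul_nonneg (mul_nonneg h3 h3) h4.le]
  calc hh N 0 ^ 3 / 3 = ∑ n ∈ Finset.range N, (hh N n ^ 3 - hh N (n + 1) ^ 3) / 3 := by
        rw [← Finset.sum_div, Finset.sum_range_sub' (fun n => hh N n ^ 3), hh_top]
        ring
    _ ≤ _ := Finset.sum_le_sum h1

theorem upper (N : ℕ) : ∑ n ∈ Finset.range (N + 1), (((n : ℝ) + 1) * ee (hh N) n) ^ 2 / (n + 1) ≤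
    hh N 0 ^ 2 + 2 * hh N 0 := by
  rw [Finset.sum_range_succ']
  have h0 : ((((0 : ℕ) : ℝ) + 1) * ee (hh N) 0) ^ 2 / (((0 : ℕ) : ℝ) + 1) = hh N 0 ^ 2 := by
    simp [ee]
  rw [h0, add_comm]
  apply add_le_add le_rfl
  have h1 : ∀ n ∈ Finset.range N, ((((n + 1 : ℕ) : ℝ) + 1) * ee (hh N) (n + 1)) ^ 2 /
      (((n + 1 : ℕ) : ℝ) + 1) ≤ 2 * (1 / ((n : ℝ) + 1)) := by
    intro n hn
    have h2 := hh_succ (Finset.mem_range.1 hn)
    have h3 : ee (hh N) (n + 1) = -(1 / ((n : ℝ) + 1)) := by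
      simp only [ee, Nat.add_eq_zero_iff, one_ne_zero, and_false, if_false, Nat.add_sub_cancel]
      rw [h2]
      ring
    rw [h3]
    push_cast
    have hn0 : (0 : ℝ) ≤ (n : ℝ) := Nat.cast_nonneg n
    have h4 : (((n : ℝ) + 1 + 1) * -(1 / ((n : ℝ) + 1))) ^ 2 / ((n : ℝ) + 1 + 1) =
        ((n : ℝ) + 2) / ((n : ℝ) + 1) ^ 2 := by
      field_simp
      ring
    rw [h4, div_le_iff₀ (by positivity)]
    have h5 : 2 * (1 / ((n : ℝ) + 1)) * ((n : ℝ) + 1) ^ 2 = 2 * ((n : ℝ) + 1) := by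
      field_simp
    rw [h5]
    linarith
  calc _ ≤ ∑ n ∈ Finset.range N, 2 * (1 / ((n : ℝ) + 1)) := Finset.sum_le_sum h1
    _ = 2 * hh N 0 := by
        rw [← Finset.mul_sum]
        simp [hh]

theorem exists_coeff (κ : ℝ) (hκ : 0 < κ) : ∃ (N : ℕ) (a : ℕ → ℝ), a N = 0 ∧
    0 < ∑ n ∈ Finset.range N, a n ^ 2 / (n + 1) ∧
    ∑ n ∈ Finset.range (N + 1), (((n : ℝ) + 1) * ee a n) ^ 2 / (n + 1) ≤
      κ * ∑ n ∈ Finset.range N, a n ^ 2 / (n + 1) := by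
  have ht := Real.tendsto_sum_range_one_div_nat_succ_atTop
  obtain ⟨N, hN⟩ := (ht.eventually_ge_atTop (max 2 (6 / κ))).exists
  have hH : max 2 (6 / κ) ≤ hh N 0 := by
    refine hN.trans (le_of_eq ?_)
    simp [hh]
  have h2 : 2 ≤ hh N 0 := (le_max_left _ _).trans hH
  have h3 : 6 / κ ≤ hh N 0 := (le_max_right _ _).trans hH
  have h4 := lower N
  have h5 := upper N
  set S := hh N 0
  have h6 : 0 < S ^ 3 / 3 := by positivity
  refine ⟨N, hh N, hh_top N, lt_of_lt_of_le h6 h4, h5.trans ?_⟩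
  refine le_trans ?_ (mul_le_mul_of_nonneg_left h4 hκ.le)
  rw [div_le_iff₀ hκ] at h3
  have h7 : S ^ 2 + 2 * S ≤ 2 * S ^ 2 := by nlinarith
  have h8 : κ * (S ^ 3 / 3) = (S * κ) * S ^ 2 / 3 := by ring
  rw [h8]
  nlinarith [sq_nonneg S]

/-! ### the trial function -/

section fn

variable (D : Prof) (ζ : ℝ → ℝ) (N : ℕ) (a : ℕ → ℝ)

/-- the trial function `ζ(x) P(ω) / (z τ)` -/
noncomputable def gg (p : ℂ × ℂ) : ℂ :=
  ((ζ (Prof.lx p.1) : ℂ) * (p.1 * D.τ (Prof.lx p.1))⁻¹) * P N a (D.om p)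

theorem contDiff_P : ContDiff ℝ ∞ (P N a) := by
  unfold P
  apply ContDiff.sum
  intro n _
  exact contDiff_const.mul (contDiff_id.neg.pow n)

theorem gg_smooth (hζ : ContDiff ℝ ∞ ζ) :
    ContDiffOn ℝ ∞ (gg D ζ N a) {p : ℂ × ℂ | p.1 ∈ D.base} := by
  unfold gg
  have h1 : ContDiffOn ℝ ∞ (fun p : ℂ × ℂ => (ζ (Prof.lx p.1) : ℂ)) {p | p.1 ∈ D.base} :=
    (Prof.contDiff_ofReal.comp hζ).comp_contDiffOn D.contDiffOn_lx1
  have h2 : ContDiffOn ℝ ∞ (fun p : ℂ × ℂ => D.τ (Prof.lx p.1)) {p | p.1 ∈ D.base} :=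
    D.contDiffOn_τ.comp D.contDiffOn_lx1 (fun p hp => hp.2)
  have h3 : ContDiffOn ℝ ∞ (fun p : ℂ × ℂ => (p.1 * D.τ (Prof.lx p.1))⁻¹) {p | p.1 ∈ D.base} :=
    (contDiff_fst.contDiffOn.mul h2).inv (fun p hp => mul_ne_zero hp.1 (D.τ_ne hp.2))
  exact (h1.mul h3).mul ((contDiff_P N a).comp_contDiffOn D.contDiffOn_om)

theorem isOpen_W : IsOpen {p : ℂ × ℂ | p.1 ∈ D.base} := D.isOpen_base.preimage continuous_fst

theorem lx_exp (x φ : ℝ) : Prof.lx (exp ((x : ℂ) + I * (φ : ℂ))) = x := by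
  unfold Prof.lx
  rw [Complex.norm_exp]
  simp

theorem exp_lx {z : ℂ} (hz : z ≠ 0) :
    exp ((Prof.lx z : ℂ) + I * (Complex.arg z : ℂ)) = z := by
  unfold Prof.lx
  have h1 : ((Real.log ‖z‖ : ℝ) : ℂ) + I * (Complex.arg z : ℂ) = Complex.log z := by
    rw [Complex.log, mul_comm]
  rw [h1, Complex.exp_log hz]

theorem gg_nice (hζ : ContDiff ℝ ∞ ζ) (hc : HasCompactSupport ζ)
    (hs : tsupport ζ ⊆ Ioo D.a D.b) : Nice D (gg D ζ N a) := by
  refine ⟨⟨{p : ℂ × ℂ | p.1 ∈ D.base}, isOpen_W D, fun p hp => hp.1, gg_smooth D ζ N a hζ⟩, ?_⟩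
  refine ⟨(fun q : ℝ × ℝ => exp ((q.1 : ℂ) + I * (q.2 : ℂ))) ''
    (tsupport ζ ×ˢ Icc (-Real.pi) Real.pi), ?_, ?_, ?_⟩
  · rintro _ ⟨⟨x, φ⟩, ⟨hx, hφ⟩, rfl⟩
    refine ⟨exp_ne_zero _, ?_⟩
    simp only
    rw [lx_exp]
    have := hs hx
    have h1 := D.ha0
    have h2 := D.hb0
    exact ⟨by linarith [this.1], by linarith [this.2]⟩
  · apply IsCompact.image
    · exact hc.isCompact.prod isCompact_Icc
    · fun_prop
  · intro p hp
    unfold gg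
    by_cases hz : p.1 = 0
    · simp [hz]
    · have h1 : Prof.lx p.1 ∉ tsupport ζ := by
        intro hx
        apply hp
        refine ⟨(Prof.lx p.1, Complex.arg p.1), ⟨hx, ?_⟩, exp_lx hz⟩
        exact ⟨(Complex.neg_pi_lt_arg _).le, Complex.arg_le_pi _⟩
      rw [image_eq_zero_of_notMem_tsupport h1]
      simp

theorem fderiv_P_om {p : ℂ × ℂ} (hp : p.1 ∈ D.base) (v : ℂ × ℂ) (F : ℂ → ℂ) (F' : ℂ)
    (hF : HasDerivAt F F' (D.om p)) :
    fderiv ℝ (fun q => F (D.om q)) p v = F' * fderiv ℝ D.om p v := by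
  have h1 : HasFDerivAt F ((ContinuousLinearMap.toSpanSingleton ℂ F').restrictScalars ℝ)
      (D.om p) := hF.hasFDerivAt.restrictScalars ℝ
  have h2 := h1.comp p (D.hasFDerivAt_om hp)
  have h3 : fderiv ℝ (fun q => F (D.om q)) p = _ := h2.fderiv
  rw [h3, (D.hasFDerivAt_om hp).fderiv]
  simp [mul_comm]
  ring

theorem dz_P {p : ℂ × ℂ} (hp : p.1 ∈ D.base) (F : ℂ → ℂ) (F' : ℂ)
    (hF : HasDerivAt F F' (D.om p)) :
    dz (fun q => F (D.om q)) p = F' * dz D.om p := by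
  unfold dz
  rw [fderiv_P_om D hp _ F F' hF, fderiv_P_om D hp _ F F' hF]
  ring

theorem dw_P {p : ℂ × ℂ} (hp : p.1 ∈ D.base) (F : ℂ → ℂ) (F' : ℂ)
    (hF : HasDerivAt F F' (D.om p)) :
    dw (fun q => F (D.om q)) p = F' * dw D.om p := by
  unfold dw
  rw [fderiv_P_om D hp _ F F' hF, fderiv_P_om D hp _ F F' hF]
  ring

theorem dwb_P {p : ℂ × ℂ} (hp : p.1 ∈ D.base) (F : ℂ → ℂ) (F' : ℂ)
    (hF : HasDerivAt F F' (D.om p)) :
    dwb (fun q => F (D.om q)) p = F' * dwb D.om p := by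
  unfold dwb
  rw [fderiv_P_om D hp _ F F' hF, fderiv_P_om D hp _ F F' hF]
  ring

theorem diff_P {p : ℂ × ℂ} (hp : p.1 ∈ D.base) (F : ℂ → ℂ) (F' : ℂ)
    (hF : HasDerivAt F F' (D.om p)) :
    DifferentiableAt ℝ (fun q => F (D.om q)) p := by
  have h1 : HasFDerivAt F ((ContinuousLinearMap.toSpanSingleton ℂ F').restrictScalars ℝ)
      (D.om p) := hF.hasFDerivAt.restrictScalars ℝ
  exact (h1.comp p (D.hasFDerivAt_om hp)).differentiableAt

/-- functions of `z` only -/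
theorem fst_rules {p : ℂ × ℂ} (h : ℂ → ℂ) (hh : DifferentiableAt ℝ h p.1) :
    DifferentiableAt ℝ (fun q : ℂ × ℂ => h q.1) p ∧
      dw (fun q : ℂ × ℂ => h q.1) p = 0 ∧ dwb (fun q : ℂ × ℂ => h q.1) p = 0 := by
  have h1 : HasFDerivAt (fun q : ℂ × ℂ => h q.1)
      ((fderiv ℝ h p.1).comp (ContinuousLinearMap.fst ℝ ℂ ℂ)) p :=
    hh.hasFDerivAt.comp p hasFDerivAt_fst
  refine ⟨h1.differentiableAt, ?_, ?_⟩
  · unfold dw
    rw [h1.fderiv]
    simp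
  · unfold dwb
    rw [h1.fderiv]
    simp

/-- functions of `x = log |z|` only -/
theorem dz_lx {p : ℂ × ℂ} (hp : p.1 ≠ 0) (F : ℝ → ℂ) (F' : ℂ)
    (hF : HasDerivAt F F' (Prof.lx p.1)) :
    DifferentiableAt ℝ (fun q : ℂ × ℂ => F (Prof.lx q.1)) p ∧
    2 * p.1 * dz (fun q : ℂ × ℂ => F (Prof.lx q.1)) p = F' := by
  have h1 := hF.hasFDerivAt.comp p (Prof.hasFDerivAt_lx1 hp)
  have h2 : HasFDerivAt (fun q : ℂ × ℂ => F (Prof.lx q.1)) _ p := h1
  refine ⟨h2.differentiableAt, ?_⟩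
  unfold dz
  rw [h2.fderiv]
  simp only [ContinuousLinearMap.coe_comp, Function.comp_apply, ContinuousLinearMap.coe_fst',
    ContinuousLinearMap.toSpanSingleton_apply, real_smul]
  have h3 := Prof.dlx_one hp
  calc _ = p.1 * (((Prof.dlx p.1 1 : ℝ) : ℂ) - I * ((Prof.dlx p.1 I : ℝ) : ℂ)) * F' := by ring
    _ = F' := by
        rw [h3]
        field_simp

theorem gg_dwb (hζ : ContDiff ℝ ∞ ζ) {p : ℂ × ℂ} (hp : p.1 ∈ D.base) :
    dwb (gg D ζ N a) p = 0 := by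
  have h1 : DifferentiableAt ℝ (fun z : ℂ => (ζ (Prof.lx z) : ℂ) * (z * D.τ (Prof.lx z))⁻¹) p.1 := by
    have e0 : DifferentiableAt ℝ Prof.lx p.1 := (Prof.hasFDerivAt_lx hp.1).differentiableAt
    have e1 : DifferentiableAt ℝ (fun z : ℂ => (ζ (Prof.lx z) : ℂ)) p.1 := by
      have := (Prof.contDiff_ofReal.comp hζ).differentiable (by simp) (Prof.lx p.1)
      exact DifferentiableAt.comp (g := fun x : ℝ => ((ζ x : ℝ) : ℂ)) p.1 this e0
    have e2 : DifferentiableAt ℝ (fun z : ℂ => D.τ (Prof.lx z)) p.1 :=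
      DifferentiableAt.comp (g := D.τ) p.1 (D.hasDerivAt_τ hp.2).differentiableAt e0
    have e3 : DifferentiableAt ℝ (fun z : ℂ => z * D.τ (Prof.lx z)) p.1 :=
      differentiableAt_id.mul e2
    exact e1.mul (e3.inv (mul_ne_zero hp.1 (D.τ_ne hp.2)))
  obtain ⟨h2, _, h3⟩ := fst_rules (p := p) _ h1
  have h4 := hasDerivAt_P N a (D.om p)
  have h5 : gg D ζ N a = fun q => ((ζ (Prof.lx q.1) : ℂ) * (q.1 * D.τ (Prof.lx q.1))⁻¹) *
    P N a (D.om q) := rfl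
  rw [h5, dwb_mul h2 (diff_P D hp _ _ h4), h3, dwb_P D hp _ _ h4, D.dwb_om hp]
  ring

theorem μ_zero {x : ℝ} (hx : x ∈ Ioo D.a D.b) : D.μ x = 0 := by
  unfold Prof.μ
  have h : D.η =ᶠ[nhds x] fun _ => (0 : ℝ) := by
    filter_upwards [isOpen_Ioo.mem_nhds hx] with y hy
    exact D.ηI y (Ioo_subset_Icc_self hy)
  rw [h.deriv_eq, deriv_const, zero_div]

theorem Xd_gg (hζ : ContDiff ℝ ∞ ζ) (hN : a N = 0) {p : ℂ × ℂ} (hp : p.1 ∈ D.base)
    (hx : Prof.lx p.1 ∈ Ioo D.a D.b) :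
    Xd D (gg D ζ N a) p = -(p.1 * D.τ (Prof.lx p.1))⁻¹ *
      (((deriv ζ (Prof.lx p.1) : ℝ) : ℂ) * P N a (D.om p) +
        I * (ζ (Prof.lx p.1) : ℂ) * Q N a (D.om p)) := by
  have hz := hp.1
  have hτ := D.τ_ne hp.2
  have hnear : ∀ᶠ q : ℂ × ℂ in nhds p, q.1 ∈ D.base ∧ Prof.lx q.1 ∈ Ioo D.a D.b := by
    have c1 : ContinuousAt (fun q : ℂ × ℂ => Prof.lx q.1) p :=
      (Prof.hasFDerivAt_lx1 hz).continuousAt
    filter_upwards [(isOpen_W D).mem_nhds hp, c1.eventually (isOpen_Ioo.mem_nhds hx)] with q h1 h2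
    exact ⟨h1, h2⟩
  have hP := hasDerivAt_P N a (D.om p)
  have hζ' : HasDerivAt (fun x : ℝ => ((ζ x : ℝ) : ℂ)) ((deriv ζ (Prof.lx p.1) : ℝ) : ℂ)
      (Prof.lx p.1) := by
    have := (hζ.differentiable (by simp) (Prof.lx p.1)).hasDerivAt
    exact this.ofReal_comp
  have hτ' := D.hasDerivAt_τ hp.2
  rw [μ_zero D hx, D.σI _ (Ioo_subset_Icc_self hx)] at hτ'
  -- first term
  have t1 : dz (fun q => 2 * q.1 * gg D ζ N a q) p =
      (p.1 * D.τ (Prof.lx p.1))⁻¹ * ((((deriv ζ (Prof.lx p.1) : ℝ) : ℂ) + I * (ζ (Prof.lx p.1) : ℂ)) *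
        P N a (D.om p) + I * (ζ (Prof.lx p.1) : ℂ) * (1 + D.om p) * P' N a (D.om p)) := by
    have e1 : (fun q : ℂ × ℂ => 2 * q.1 * gg D ζ N a q) =ᶠ[nhds p]
        fun q => (fun x : ℝ => 2 * ((ζ x : ℝ) : ℂ) * (D.τ x)⁻¹) (Prof.lx q.1) * P N a (D.om q) := by
      filter_upwards [hnear] with q hq
      unfold gg
      have := hq.1.1
      have h3 := D.τ_ne hq.1.2
      field_simp
    have e2 : HasDerivAt (fun x : ℝ => 2 * ((ζ x : ℝ) : ℂ) * (D.τ x)⁻¹)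
        (2 * (((deriv ζ (Prof.lx p.1) : ℝ) : ℂ) + I * (ζ (Prof.lx p.1) : ℂ)) *
          (D.τ (Prof.lx p.1))⁻¹) (Prof.lx p.1) := by
      have := (hζ'.const_mul 2).mul (hτ'.fun_inv hτ)
      refine this.congr_deriv ?_
      push_cast
      field_simp
      ring
    obtain ⟨e3, e4⟩ := dz_lx (p := p) hz _ _ e2
    have e5 : dz (fun q => 2 * q.1 * gg D ζ N a q) p =
        dz (fun q => (fun x : ℝ => 2 * ((ζ x : ℝ) : ℂ) * (D.τ x)⁻¹) (Prof.lx q.1) *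
          P N a (D.om q)) p := by
      unfold dz
      rw [e1.fderiv_eq]
    rw [e5, dz_mul e3 (diff_P D hp _ _ hP), dz_P D hp _ _ hP]
    have e6 := D.dz_om hp
    rw [μ_zero D hx, D.σI _ (Ioo_subset_Icc_self hx)] at e6
    have e7 : dz D.om p = I * (1 + D.om p) / (2 * p.1) := by
      rw [eq_div_iff (by simpa using hz)]
      rw [mul_comm, e6]
      push_cast
      ring
    have e8 : dz (fun q : ℂ × ℂ => (fun x : ℝ => 2 * ((ζ x : ℝ) : ℂ) * (D.τ x)⁻¹)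
        (Prof.lx q.1)) p = (2 * (((deriv ζ (Prof.lx p.1) : ℝ) : ℂ) +
          I * (ζ (Prof.lx p.1) : ℂ)) * (D.τ (Prof.lx p.1))⁻¹) / (2 * p.1) := by
      rw [eq_div_iff (by simpa using hz), mul_comm, e4]
    rw [e7, e8]
    field_simp
    ring
  have t2 : dw (fun q => D.V q * gg D ζ N a q) p =
      (p.1 * D.τ (Prof.lx p.1))⁻¹ * (I * (ζ (Prof.lx p.1) : ℂ) *
        (-2 * D.om p * P N a (D.om p) + (1 - D.om p ^ 2) * P' N a (D.om p))) := by
    have e1 : (fun q : ℂ × ℂ => D.V q * gg D ζ N a q) =ᶠ[nhds p]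
        fun q => (fun z : ℂ => I * ((ζ (Prof.lx z) : ℝ) : ℂ) * z⁻¹) q.1 *
          (fun v : ℂ => (1 - v ^ 2) * P N a v) (D.om q) := by
      filter_upwards [hnear] with q hq
      rw [D.V_eq, μ_zero D hq.2, D.σI _ (Ioo_subset_Icc_self hq.2)]
      unfold gg
      have := hq.1.1
      have h3 := D.τ_ne hq.1.2
      push_cast
      field_simp
      ring
    have e2 : DifferentiableAt ℝ (fun z : ℂ => I * ((ζ (Prof.lx z) : ℝ) : ℂ) * z⁻¹) p.1 := by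
      have e0 : DifferentiableAt ℝ Prof.lx p.1 := (Prof.hasFDerivAt_lx hz).differentiableAt
      have e1 : DifferentiableAt ℝ (fun z : ℂ => (ζ (Prof.lx z) : ℂ)) p.1 := by
        have := (Prof.contDiff_ofReal.comp hζ).differentiable (by simp) (Prof.lx p.1)
        exact DifferentiableAt.comp (g := fun x : ℝ => ((ζ x : ℝ) : ℂ)) p.1 this e0
      exact ((differentiableAt_const _).mul e1).mul (differentiableAt_id.inv hz)
    obtain ⟨e3, e4, _⟩ := fst_rules (p := p) _ e2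
    have e5 : HasDerivAt (fun v : ℂ => (1 - v ^ 2) * P N a v)
        (-2 * D.om p * P N a (D.om p) + (1 - D.om p ^ 2) * P' N a (D.om p)) (D.om p) := by
      have e6 : HasDerivAt (fun v : ℂ => 1 - v ^ 2) (-2 * D.om p) (D.om p) := by
        have := ((hasDerivAt_id (D.om p)).pow 2).const_sub 1
        refine this.congr_deriv ?_
        simp
      exact e6.mul hP
    have e7 : dw (fun q => D.V q * gg D ζ N a q) p =
        dw (fun q => (fun z : ℂ => I * ((ζ (Prof.lx z) : ℝ) : ℂ) * z⁻¹) q.1 *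
          (fun v : ℂ => (1 - v ^ 2) * P N a v) (D.om q)) p := by
      unfold dw
      rw [e1.fderiv_eq]
    rw [e7, dw_mul e3 (diff_P D hp _ _ e5), e4, dw_P D hp _ _ e5, D.dw_om hp]
    field_simp
    ring
  unfold Xd
  rw [t1, t2, ← Q_eq N a hN]
  field_simp
  ring

theorem Xd_gg_zero (hs : tsupport ζ ⊆ Ioo D.a D.b) {p : ℂ × ℂ} (hp : p.1 ∈ D.base)
    (hx : Prof.lx p.1 ∉ Ioo D.a D.b) :
    Xd D (gg D ζ N a) p = 0 := by
  have hxs : Prof.lx p.1 ∉ tsupport ζ := fun h => hx (hs h)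
  have hnear : ∀ᶠ q : ℂ × ℂ in nhds p, gg D ζ N a q = 0 := by
    have c1 : ContinuousAt (fun q : ℂ × ℂ => Prof.lx q.1) p :=
      (Prof.hasFDerivAt_lx1 hp.1).continuousAt
    filter_upwards [c1.eventually ((isClosed_tsupport ζ).isOpen_compl.mem_nhds hxs)] with q hq
    unfold gg
    rw [image_eq_zero_of_notMem_tsupport hq]
    simp
  unfold Xd dz dw
  have h1 : (fun q => 2 * q.1 * gg D ζ N a q) =ᶠ[nhds p] fun _ => (0 : ℂ) := by
    filter_upwards [hnear] with q hq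
    rw [hq, mul_zero]
  have h2 : (fun q => D.V q * gg D ζ N a q) =ᶠ[nhds p] fun _ => (0 : ℂ) := by
    filter_upwards [hnear] with q hq
    rw [hq, mul_zero]
  rw [h1.fderiv_eq, h2.fderiv_eq]
  simp

theorem om_pt {x : ℝ} (hx : x ∈ Ioo D.a0 D.b0) (φ : ℝ) (v : ℂ) :
    D.om (exp ((x : ℂ) + I * (φ : ℂ)), D.c x + D.τ x * v) = v := by
  unfold Prof.om
  simp only [lx_exp]
  have := D.τ_ne hx
  field_simp
  ring

theorem base_pt {x : ℝ} (hx : x ∈ Ioo D.a0 D.b0) (φ : ℝ) :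
    exp ((x : ℂ) + I * (φ : ℂ)) ∈ D.base := by
  refine ⟨exp_ne_zero _, ?_⟩
  rw [lx_exp]
  exact hx

theorem norm_inv_sq {x : ℝ} (hx : x ∈ Ioo D.a0 D.b0) (φ : ℝ) :
    ‖(exp ((x : ℂ) + I * (φ : ℂ)) * D.τ x)⁻¹‖ ^ 2 * (D.R x ^ 2 * Real.exp (2 * x)) = 1 := by
  have h1 := D.R_pos hx
  rw [norm_inv, norm_mul, D.norm_τ hx, Complex.norm_exp]
  have h2 : ((x : ℂ) + I * (φ : ℂ)).re = x := by simp
  rw [h2, show Real.exp (2 * x) = Real.exp x ^ 2 by
    rw [← Real.exp_nat_mul]; push_cast; rfl]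
  have h3 := Real.exp_pos x
  field_simp

theorem int_Xd (hζ : ContDiff ℝ ∞ ζ) (hs : tsupport ζ ⊆ Ioo D.a D.b) (hN : a N = 0) :
    ∫ p in D.Ω, ‖Xd D (gg D ζ N a) p‖ ^ 2 =
      ∫ s in Ioo D.a0 D.b0 ×ˢ Ioo (-Real.pi) Real.pi ×ˢ Metric.ball (0 : ℂ) 1,
        ‖((deriv ζ s.1 : ℝ) : ℂ) * P N a s.2.2 + I * (ζ s.1 : ℂ) * Q N a s.2.2‖ ^ 2 := by
  rw [cov]
  apply setIntegral_congr_fun
    (measurableSet_Ioo.prod (measurableSet_Ioo.prod Metric.isOpen_ball.measurableSet))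
  rintro ⟨x, φ, v⟩ ⟨hx, _, _⟩
  simp only at hx ⊢
  have hb : (exp ((x : ℂ) + I * (φ : ℂ)), D.c x + D.τ x * v).1 ∈ D.base := base_pt D hx φ
  have hl : Prof.lx (exp ((x : ℂ) + I * (φ : ℂ)), D.c x + D.τ x * v).1 = x := lx_exp x φ
  by_cases hxi : x ∈ Ioo D.a D.b
  · have hxi' : Prof.lx (exp ((x : ℂ) + I * (φ : ℂ)), D.c x + D.τ x * v).1 ∈ Ioo D.a D.b := by
      rw [hl]
      exact hxi
    rw [Xd_gg D ζ N a hζ hN hb hxi', hl, om_pt D hx]
    simp only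
    rw [norm_mul, norm_neg, mul_pow, smul_eq_mul]
    have := norm_inv_sq D hx φ
    linear_combination (‖((deriv ζ x : ℝ) : ℂ) * P N a v + I * (ζ x : ℂ) * Q N a v‖ ^ 2) * this
  · have hxi' : Prof.lx (exp ((x : ℂ) + I * (φ : ℂ)), D.c x + D.τ x * v).1 ∉ Ioo D.a D.b := by
      rw [hl]
      exact hxi
    rw [Xd_gg_zero D ζ N a hs hb hxi']
    have hxs : x ∉ tsupport ζ := fun h => hxi (hs h)
    have h1 : ζ =ᶠ[nhds x] fun _ => (0 : ℝ) := by
      filter_upwards [(isClosed_tsupport ζ).isOpen_compl.mem_nhds hxs] with y hy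
      exact image_eq_zero_of_notMem_tsupport hy
    rw [h1.deriv_eq, deriv_const, h1.eq_of_nhds]
    simp

theorem int_gg :
    ∫ p in D.Ω, ‖p.1‖ ^ 2 * ‖gg D ζ N a p‖ ^ 2 =
      ∫ s in Ioo D.a0 D.b0 ×ˢ Ioo (-Real.pi) Real.pi ×ˢ Metric.ball (0 : ℂ) 1,
        (Real.exp (2 * s.1) * ζ s.1 ^ 2) * ‖P N a s.2.2‖ ^ 2 := by
  rw [cov]
  apply setIntegral_congr_fun
    (measurableSet_Ioo.prod (measurableSet_Ioo.prod Metric.isOpen_ball.measurableSet))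
  rintro ⟨x, φ, v⟩ ⟨hx, _, _⟩
  simp only at hx ⊢
  unfold gg
  rw [om_pt D hx]
  simp only [lx_exp]
  rw [norm_mul, norm_mul, mul_pow, mul_pow, smul_eq_mul, Complex.norm_real,
    Real.norm_eq_abs, sq_abs]
  have h1 := norm_inv_sq D hx φ
  have h2 : ‖exp ((x : ℂ) + I * (φ : ℂ))‖ ^ 2 = Real.exp (2 * x) := by
    rw [Complex.norm_exp]
    have h2 : ((x : ℂ) + I * (φ : ℂ)).re = x := by simp
    rw [h2, ← Real.exp_nat_mul]
    push_cast
    rfl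
  rw [h2]
  linear_combination (Real.exp (2 * x) * ζ x ^ 2 * ‖P N a v‖ ^ 2) * h1

theorem prod_int (f : ℝ → ℝ) (N : ℕ) (c : ℕ → ℝ) :
    ∫ s in Ioo D.a0 D.b0 ×ˢ Ioo (-Real.pi) Real.pi ×ˢ Metric.ball (0 : ℂ) 1,
        f s.1 * ‖P N c s.2.2‖ ^ 2 =
      (∫ x in Ioo D.a0 D.b0, f x) *
        (2 * Real.pi * (Real.pi * ∑ n ∈ Finset.range N, c n ^ 2 / (n + 1))) := by
  have h1 := setIntegral_prod_mul (μ := (volume : Measure ℝ)) (ν := (volume : Measure (ℝ × ℂ)))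
    f (fun q : ℝ × ℂ => ‖P N c q.2‖ ^ 2) (Ioo D.a0 D.b0)
    (Ioo (-Real.pi) Real.pi ×ˢ Metric.ball (0 : ℂ) 1)
  have h2 := setIntegral_prod_mul (μ := (volume : Measure ℝ)) (ν := (volume : Measure ℂ))
    (fun _ : ℝ => (1 : ℝ)) (fun v : ℂ => ‖P N c v‖ ^ 2) (Ioo (-Real.pi) Real.pi)
    (Metric.ball (0 : ℂ) 1)
  simp only [one_mul] at h2
  rw [← Measure.volume_eq_prod] at h1 h2
  rw [h1, h2, norm_poly]
  congr 2
  rw [setIntegral_const, smul_eq_mul, mul_one, measureReal_def, Real.volume_Ioo,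
    ENNReal.toReal_ofReal (by linarith [Real.pi_pos])]
  ring

end fn

end Trx

open Trx in
theorem trialx (D : Prof) (hT : D.TRI) (ε : ℝ) (hε : 0 < ε) :
    ∃ g : ℂ × ℂ → ℂ, Nice D g ∧ (∀ p ∈ D.Ω, dwb g p = 0) ∧
      0 < (∫ p in D.Ω, ‖p.1‖ ^ 2 * ‖g p‖ ^ 2) ∧
      ∫ p in D.Ω, ‖Xd D g p‖ ^ 2 < (1 + ε) * ∫ p in D.Ω, ‖p.1‖ ^ 2 * ‖g p‖ ^ 2 := by
  obtain ⟨ζ, hζ, hc, hs, hpos, hlt⟩ := hT (ε / 2) (by positivity)
  have hsub : tsupport ζ ⊆ Ioo D.a0 D.b0 := fun x hx => by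
    have := hs hx
    have h1 := D.ha0
    have h2 := D.hb0
    exact ⟨by linarith [this.1], by linarith [this.2]⟩
  have hζ0 : ∀ x, x ∉ Ioo D.a0 D.b0 → ζ x = 0 := fun x hx =>
    image_eq_zero_of_notMem_tsupport (fun h => hx (hsub h))
  have hζ1 : ∀ x, x ∉ Ioo D.a0 D.b0 → deriv ζ x = 0 := fun x hx => by
    have hxs : x ∉ tsupport ζ := fun h => hx (hsub h)
    have h1 : ζ =ᶠ[nhds x] fun _ => (0 : ℝ) := by
      filter_upwards [(isClosed_tsupport ζ).isOpen_compl.mem_nhds hxs] with y hy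
      exact image_eq_zero_of_notMem_tsupport hy
    rw [h1.deriv_eq, deriv_const]
  have i1 : ∫ x in Ioo D.a0 D.b0, Real.exp (2 * x) * ζ x ^ 2 =
      ∫ x, Real.exp (2 * x) * ζ x ^ 2 :=
    setIntegral_eq_integral_of_forall_compl_eq_zero (fun x hx => by rw [hζ0 x hx]; ring)
  have i2 : ∫ x in Ioo D.a0 D.b0, deriv ζ x ^ 2 = ∫ x, deriv ζ x ^ 2 :=
    setIntegral_eq_integral_of_forall_compl_eq_zero (fun x hx => by rw [hζ1 x hx]; ring)
  rw [← i1] at hpos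
  rw [← i1, ← i2] at hlt
  set Z := ∫ x in Ioo D.a0 D.b0, Real.exp (2 * x) * ζ x ^ 2
  set Z1 := ∫ x in Ioo D.a0 D.b0, deriv ζ x ^ 2 with hZ1
  set Z0 := ∫ x in Ioo D.a0 D.b0, ζ x ^ 2 with hZ0
  have hZ1n : 0 ≤ Z1 := integral_nonneg fun x => sq_nonneg _
  have hZ0n : 0 ≤ Z0 := integral_nonneg fun x => sq_nonneg _
  -- choice of the parameters
  obtain ⟨κ, hκ, hκ1⟩ : ∃ κ : ℝ, 0 < κ ∧ (1 + κ) * Z1 < (1 + ε / 2) * Z := by
    refine ⟨((1 + ε / 2) * Z - Z1) / (Z1 + 1), by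
      apply div_pos <;> linarith, ?_⟩
    have h1 : ((1 + ε / 2) * Z - Z1) / (Z1 + 1) * (Z1 + 1) = (1 + ε / 2) * Z - Z1 := by
      field_simp
    have h2 : 0 < ((1 + ε / 2) * Z - Z1) / (Z1 + 1) := by
      apply div_pos <;> linarith
    nlinarith
  obtain ⟨κ', hκ', hκ1'⟩ : ∃ κ' : ℝ, 0 < κ' ∧ (1 + 1 / κ) * Z0 * κ' ≤ ε / 2 * Z := by
    have h0 : 0 ≤ (1 + 1 / κ) * Z0 := by positivity
    refine ⟨(ε / 2 * Z) / ((1 + 1 / κ) * Z0 + 1), by positivity, ?_⟩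
    rw [mul_div_assoc', div_le_iff₀ (by positivity)]
    have : 0 ≤ ε / 2 * Z := by positivity
    nlinarith
  obtain ⟨N, a, hN, hA, hB⟩ := exists_coeff κ' hκ'
  refine ⟨gg D ζ N a, gg_nice D ζ N a hζ hc hs, ?_, ?_, ?_⟩
  · intro p hp
    exact gg_dwb D ζ N a hζ (D.mem_Ω.1 hp).1
  · rw [int_gg, prod_int D (fun x => Real.exp (2 * x) * ζ x ^ 2)]
    have := Real.pi_pos
    positivity
  · rw [int_gg, int_Xd D ζ N a hζ hs hN, prod_int D (fun x => Real.exp (2 * x) * ζ x ^ 2)]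
    set A := ∑ n ∈ Finset.range N, a n ^ 2 / ((n : ℝ) + 1)
    set B := ∑ n ∈ Finset.range (N + 1), (((n : ℝ) + 1) * ee a n) ^ 2 / ((n : ℝ) + 1) with hBdef
    have hcont1 : Continuous (fun s : ℝ × ℝ × ℂ => (1 + κ) * (deriv ζ s.1 ^ 2 * ‖P N a s.2.2‖ ^ 2)) := by
      have h1 : Continuous (deriv ζ) := hζ.continuous_deriv (by simp)
      have h2 : Continuous (P N a) := (contDiff_P N a).continuous
      fun_prop
    have hcont2 : Continuous (fun s : ℝ × ℝ × ℂ => (1 + 1 / κ) * (ζ s.1 ^ 2 * ‖Q N a s.2.2‖ ^ 2)) := by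
      have h1 : Continuous ζ := hζ.continuous
      have h2 : Continuous (Q N a) := (contDiff_P _ _).continuous
      fun_prop
    have hSc : Ioo D.a0 D.b0 ×ˢ Ioo (-Real.pi) Real.pi ×ˢ Metric.ball (0 : ℂ) 1 ⊆
        Icc D.a0 D.b0 ×ˢ Icc (-Real.pi) Real.pi ×ˢ Metric.closedBall (0 : ℂ) 1 :=
      prod_mono Ioo_subset_Icc_self (prod_mono Ioo_subset_Icc_self Metric.ball_subset_closedBall)
    have hcomp : IsCompact (Icc D.a0 D.b0 ×ˢ Icc (-Real.pi) Real.pi ×ˢ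
        Metric.closedBall (0 : ℂ) 1) :=
      isCompact_Icc.prod (isCompact_Icc.prod (isCompact_closedBall _ _))
    have hi1 := (hcont1.continuousOn.integrableOn_compact hcomp (μ := volume)).mono_set hSc
    have hi2 := (hcont2.continuousOn.integrableOn_compact hcomp (μ := volume)).mono_set hSc
    have hle : (∫ s in Ioo D.a0 D.b0 ×ˢ Ioo (-Real.pi) Real.pi ×ˢ Metric.ball (0 : ℂ) 1,
        ‖((deriv ζ s.1 : ℝ) : ℂ) * P N a s.2.2 + I * (ζ s.1 : ℂ) * Q N a s.2.2‖ ^ 2) ≤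
        ∫ s in Ioo D.a0 D.b0 ×ˢ Ioo (-Real.pi) Real.pi ×ˢ Metric.ball (0 : ℂ) 1,
          ((1 + κ) * (deriv ζ s.1 ^ 2 * ‖P N a s.2.2‖ ^ 2) +
            (1 + 1 / κ) * (ζ s.1 ^ 2 * ‖Q N a s.2.2‖ ^ 2)) := by
      apply integral_mono_of_nonneg
      · exact Filter.Eventually.of_forall fun s => by positivity
      · exact hi1.add hi2
      · refine Filter.Eventually.of_forall fun s => ?_
        simp only
        have e1 := norm_add_le (((deriv ζ s.1 : ℝ) : ℂ) * P N a s.2.2)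
          (I * (ζ s.1 : ℂ) * Q N a s.2.2)
        have e2 : ‖((deriv ζ s.1 : ℝ) : ℂ) * P N a s.2.2‖ ^ 2 =
            deriv ζ s.1 ^ 2 * ‖P N a s.2.2‖ ^ 2 := by
          rw [norm_mul, mul_pow, Complex.norm_real, Real.norm_eq_abs, sq_abs]
        have e3 : ‖I * (ζ s.1 : ℂ) * Q N a s.2.2‖ ^ 2 = ζ s.1 ^ 2 * ‖Q N a s.2.2‖ ^ 2 := by
          rw [norm_mul, norm_mul, mul_pow, mul_pow, Complex.norm_real, Real.norm_eq_abs, sq_abs,
            norm_I]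
          ring
        rw [← e2, ← e3]
        set X := ‖((deriv ζ s.1 : ℝ) : ℂ) * P N a s.2.2‖
        set Y := ‖I * (ζ s.1 : ℂ) * Q N a s.2.2‖
        have hX : 0 ≤ X := norm_nonneg _
        have hY : 0 ≤ Y := norm_nonneg _
        have e4 : ‖((deriv ζ s.1 : ℝ) : ℂ) * P N a s.2.2 + I * (ζ s.1 : ℂ) * Q N a s.2.2‖ ^ 2 ≤
            (X + Y) ^ 2 := pow_le_pow_left₀ (norm_nonneg _) e1 2
        refine e4.trans ?_
        have e5 : 0 ≤ (κ * X - Y) ^ 2 / κ := by positivity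
        have e6 : (κ * X - Y) ^ 2 / κ = κ * X ^ 2 - 2 * X * Y + 1 / κ * Y ^ 2 := by
          field_simp
          ring
        nlinarith
    refine lt_of_le_of_lt hle ?_
    rw [integral_add hi1 hi2, integral_const_mul, integral_const_mul,
      prod_int D (fun x => deriv ζ x ^ 2)]
    have hQ : ∀ v, Q N a v = P (N + 1) (fun n => ((n : ℝ) + 1) * ee a n) v := fun v => rfl
    simp only [hQ]
    rw [prod_int D (fun x => ζ x ^ 2)]
    have hpi := Real.pi_pos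
    have k1 : (1 + κ) * Z1 * A < (1 + ε / 2) * Z * A := mul_lt_mul_of_pos_right hκ1 hA
    have k2 : (1 + 1 / κ) * Z0 * B ≤ (1 + 1 / κ) * Z0 * (κ' * A) :=
      mul_le_mul_of_nonneg_left hB (by positivity)
    have k3 : (1 + 1 / κ) * Z0 * (κ' * A) ≤ ε / 2 * Z * A := by
      have := mul_le_mul_of_nonneg_right hκ1' hA.le
      linarith
    have k4 : (1 + κ) * Z1 * A + (1 + 1 / κ) * Z0 * B < (1 + ε) * Z * A := by linarith
    have k5 : 0 < 2 * Real.pi * Real.pi := by positivity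
    have k6 := mul_lt_mul_of_pos_left k4 k5
    calc (1 + κ) * (Z1 * (2 * Real.pi * (Real.pi * A))) +
          (1 + 1 / κ) * (Z0 * (2 * Real.pi * (Real.pi * B)))
        = 2 * Real.pi * Real.pi * ((1 + κ) * Z1 * A + (1 + 1 / κ) * Z0 * B) := by ring
      _ < 2 * Real.pi * Real.pi * ((1 + ε) * Z * A) := k6
      _ = (1 + ε) * (Z * (2 * Real.pi * (Real.pi * A))) := by ring

end Pool.Agent.DbarN
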