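import Pool.Agent.DbarN.Basic
import Pool.Agent.DbarN.Graph
import Pool.Agent.DbarN.Dwb
import Pool.Agent.DbarN.Nice
import Pool.Agent.DbarN.Bip
import Pool.Agent.DbarN.APrime
import Pool.Agent.DbarN.Dual
import Pool.Agent.DbarN.Trialx

set_option autoImplicit false

/-!
# Module PARTS: the four Hilbert space facts about the `∂̄` complex of the domain
-/

namespace Pool.Agent.DbarN

open MeasureTheory Complex Set
open scoped ComplexConjugate ContDiff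


namespace Parts

open Pool.Agent.DbarN.Graph

variable (D : Prof)

theorem Ω_sub {p : ℂ × ℂ} (hp : p ∈ D.Ω) : p ∈ D.Ωc := by
  obtain ⟨h1, h2⟩ := D.mem_Ω.1 hp
  exact ⟨h1, h2.le⟩

theorem nsq (u : L2F D.Ω) : ‖u‖ ^ 2 = ‖u.fst‖ ^ 2 + ‖u.snd‖ ^ 2 := WithLp.prod_norm_sq_eq_of_L2 u

theorem int_add {f g : L2 D.Ω} {ψ : ℂ × ℂ → ℂ} (h : MemLp ψ 2 (volume.restrict D.Ω)) :
    ∫ p in D.Ω, (f + g) p * ψ p = (∫ p in D.Ω, f p * ψ p) + ∫ p in D.Ω, g p * ψ p := by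
  rw [← pair_apply h, ← pair_apply h, ← pair_apply h, map_add]

theorem int_sub {f g : L2 D.Ω} {ψ : ℂ × ℂ → ℂ} (h : MemLp ψ 2 (volume.restrict D.Ω)) :
    ∫ p in D.Ω, (f - g) p * ψ p = (∫ p in D.Ω, f p * ψ p) - ∫ p in D.Ω, g p * ψ p := by
  rw [← pair_apply h, ← pair_apply h, ← pair_apply h, map_sub]

theorem int_neg {f : L2 D.Ω} {ψ : ℂ × ℂ → ℂ} (h : MemLp ψ 2 (volume.restrict D.Ω)) :
    ∫ p in D.Ω, (-f) p * ψ p = -∫ p in D.Ω, f p * ψ p := by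
  rw [← pair_apply h, ← pair_apply h, map_neg]

theorem test_mem {φ : ℂ × ℂ → ℂ} (h : IsTest D.Ω φ) : MemLp φ 2 (volume.restrict D.Ω) :=
  test_memLp h _

/-- the solution of `∂_w̄ G = q` with the norm bound -/
theorem dwbG (q : L2 D.Ω) : ∃ G : L2 D.Ω,
      (∀ φ, IsTest D.Ω φ → ∫ p in D.Ω, G p * dwb φ p = -∫ p in D.Ω, q p * φ p) ∧
      ‖G‖ ≤ ‖q‖ := by
  obtain ⟨G, h1, h2⟩ := dwb_solve D.Ω D.isOpen_Ω (1 / 4) (fun p hp => D.norm_snd_le hp) q
  refine ⟨G, h1, ?_⟩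
  convert h2 using 1
  ring

/-- the class of `tfD` -/
theorem tfD_mem (N : ℕ) (y : ℕ → ℂ → ℂ) (hy : Adm D N y) :
    MemLp (tfD D N y) 2 (volume.restrict D.Ω) := by
  have h1 := nice_memLp D _ (nice_Xd D _ (nice_tf D N y hy))
  refine (memLp_congr_ae ?_).1 h1
  filter_upwards [ae_restrict_mem D.isOpen_Ω.measurableSet] with p hp
  exact Xd_tf D N y hy p (Ω_sub D hp)

theorem tfD_RR (N : ℕ) (y : ℕ → ℂ → ℂ) (hy : Adm D N y) : (tfD_mem D N y hy).toLp ∈ RR D := by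
  apply Submodule.le_topologicalClosure
  apply Submodule.subset_span
  exact ⟨N, y, hy, (tfD_mem D N y hy).coeFn_toLp⟩

theorem inner_tfD (N : ℕ) (y : ℕ → ℂ → ℂ) (hy : Adm D N y) (f : L2 D.Ω) :
    inner ℂ (tfD_mem D N y hy).toLp f = ∫ p in D.Ω, f p * conj (tfD D N y p) := by
  rw [L2.inner_def]
  apply integral_congr_ae
  filter_upwards [(tfD_mem D N y hy).coeFn_toLp] with p hp
  rw [hp]
  simp [RCLike.inner_apply]

/-- weak `X` relation for elements of the domain of `∂̄` -/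
theorem hX_of_dbar (f : L2 D.Ω) (u : L2F D.Ω) (hf : IsDbar0 D.Ω f u) (N : ℕ) (y : ℕ → ℂ → ℂ)
    (hy : Adm D N y) : ∫ p in D.Ω, f p * conj (tfD D N y p) =
      ∫ p in D.Ω, (2 * conj p.1 * u.fst p - conj (D.V p) * u.snd p) * conj (tf D N y p) := by
  rw [← wi_gen D f u hf _ (nice_tf D N y hy)]
  apply setIntegral_congr_fun D.isOpen_Ω.measurableSet
  intro p hp
  simp only
  rw [Xd_tf D N y hy p (Ω_sub D hp)]

theorem dbar0_sub {f f' : L2 D.Ω} {u u' : L2F D.Ω} (h : IsDbar0 D.Ω f u) (h' : IsDbar0 D.Ω f' u') :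
    IsDbar0 D.Ω (f - f') (u - u') := by
  obtain ⟨G, hG, -⟩ := graph0 D.Ω D.isOpen_Ω
  rw [← hG] at h h' ⊢
  exact G.sub_mem h h'

/-- `∫_Ω G ∂_w̄ φ = 0` for `G` smooth with `∂_w̄ G = 0` on `Ω` -/
theorem int_dwb_eq_zero {G : ℂ × ℂ → ℂ} (hG : Nice D G) (h0 : ∀ p ∈ D.Ω, dwb G p = 0)
    {φ : ℂ × ℂ → ℂ} (hφ : IsTest D.Ω φ) : ∫ p in D.Ω, G p * dwb φ p = 0 := by
  obtain ⟨W, hW, hsub, hWg⟩ := hG.smooth
  have hat : ∀ p ∈ D.Ω, ContDiffAt ℝ ∞ G p := fun p hp =>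
    hWg.contDiffAt (hW.mem_nhds (hsub (Ω_sub D hp)))
  have hts : tsupport (fun p => G p * φ p) ⊆ tsupport φ := tsupport_mul_subset_right
  have hψ : IsTest D.Ω (fun p => G p * φ p) := by
    refine ⟨?_, hφ.compact.mul_left, hts.trans hφ.supp⟩
    rw [contDiff_iff_contDiffAt]
    intro p
    by_cases hp : p ∈ tsupport φ
    · exact (hat p (hφ.supp hp)).mul hφ.smooth.contDiffAt
    · have h1 : (fun p => G p * φ p) =ᶠ[nhds p] fun _ => 0 := by
        have h2 := notMem_tsupport_iff_eventuallyEq.1 hp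
        filter_upwards [h2] with q hq
        rw [hq]
        simp
      exact (contDiffAt_const (c := (0 : ℂ))).congr_of_eventuallyEq h1
  have h1 := ibp_dwb (Ω := D.Ω) (φ := fun _ => (1 : ℂ)) contDiff_const hψ
  have h2 : dwb (fun _ => (1 : ℂ)) = 0 := by
    funext p
    simp [dwb]
  rw [h2] at h1
  simp only [one_mul, Pi.zero_apply, zero_mul, integral_zero, neg_zero] at h1
  rw [← h1]
  apply setIntegral_congr_fun D.isOpen_Ω.measurableSet
  intro p hp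
  simp only
  rw [dwb_mul ((hat p hp).differentiableAt (by simp))
    ((hφ.smooth.differentiable (by simp)).differentiableAt), h0 p hp, zero_mul, add_zero]

instance : CompleteSpace (RR D) := (Submodule.isClosed_topologicalClosure _).completeSpace_coe

theorem norm_toLp_sq {φ : ℂ × ℂ → ℂ} {D : Prof} (h : MemLp φ 2 (volume.restrict D.Ω)) :
    ‖h.toLp φ‖ ^ 2 = ∫ p in D.Ω, ‖φ p‖ ^ 2 := by
  have h1 : (inner ℂ (h.toLp φ) (h.toLp φ) : ℂ) = ((∫ p in D.Ω, ‖φ p‖ ^ 2 : ℝ) : ℂ) := by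
    rw [L2.inner_def, ← integral_complex_ofReal]
    apply integral_congr_ae
    filter_upwards [h.coeFn_toLp] with p hp
    rw [hp]
    simp only [RCLike.inner_apply]
    rw [Complex.mul_conj']
    simp
  rw [inner_self_eq_norm_sq_to_K] at h1
  apply Complex.ofReal_injective
  rw [← h1]
  push_cast
  rfl

/-- elements of `∂_w̄ a = 0` are orthogonal to `g` if `g ⟂ RR` and `g = f - h` with `f ⟂ ker ∂̄`,
`h ∈ RR` -/
theorem ort (f h : L2 D.Ω) (hk : ∀ f0, IsDbar0 D.Ω f0 0 → inner ℂ f0 f = 0) (hh : h ∈ RR D)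
    (hort : ∀ g ∈ RR D, inner ℂ g (f - h) = 0) (a : L2 D.Ω)
    (ha : ∀ φ, IsTest D.Ω φ → ∫ p in D.Ω, a p * dwb φ p = 0) : inner ℂ a (f - h) = 0 := by
  obtain ⟨aR, haR, a', ha', hsum⟩ := (RR D).exists_add_mem_mem_orthogonal a
  have h1 : IsDbar0 D.Ω a' 0 := by
    apply aprime
    · intro φ hφ
      have z1 : ∫ p in D.Ω, ((0 : L2F D.Ω).snd p * dzb φ p - (0 : L2F D.Ω).fst p * dwb φ p) = 0 := by
        rw [integral_sub (pair_integrable (test_memLp (test_dzb hφ) _) _)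
          (pair_integrable (test_memLp (test_dwb hφ) _) _)]
        have z1 : ∫ p in D.Ω, (0 : L2F D.Ω).snd p * dzb φ p = 0 := zero_mul_int _
        have z2 : ∫ p in D.Ω, (0 : L2F D.Ω).fst p * dwb φ p = 0 := zero_mul_int _
        rw [z1, z2, sub_zero]
      rw [z1, zero_mul_int, neg_zero]
    · intro φ hφ
      have z : ∫ p in D.Ω, (0 : L2F D.Ω).snd p * φ p = 0 := zero_mul_int _
      rw [z, neg_zero]
      have e := int_add D (f := aR) (g := a') (test_mem D (test_dwb hφ))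
      rw [← hsum, ha φ hφ, RR_dwb D aR haR φ hφ, zero_add] at e
      exact e.symm
    · intro N y hy
      rw [← inner_tfD D N y hy, ha' _ (tfD_RR D N y hy)]
      symm
      apply integral_eq_zero_of_ae
      filter_upwards [Lp.coeFn_zero ℂ 2 (volume.restrict D.Ω)] with p hp
      have e1 : (0 : L2F D.Ω).fst p = 0 := hp
      have e2 : (0 : L2F D.Ω).snd p = 0 := hp
      rw [e1, e2]
      simp
  have h2 : inner ℂ a' (f - h) = 0 := by
    rw [inner_sub_right, hk a' h1, zero_sub, neg_eq_zero]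
    rw [← inner_conj_symm, ha' h hh, map_zero]
  rw [hsum, inner_add_left, hort aR haR, h2, add_zero]

end Parts

open Parts Pool.Agent.DbarN.Graph

theorem partA (D : Prof) (hG : D.GSI) (f : L2 D.Ω) (u : L2F D.Ω) (hf : IsDbar0 D.Ω f u)
    (hk : ∀ f0, IsDbar0 D.Ω f0 0 → inner ℂ f0 f = 0) (h0 : f ≠ 0) :
    ‖f‖ ^ 2 < 4 * ‖u‖ ^ 2 := by
  obtain ⟨h, hh, g, hg, hsum⟩ := (RR D).exists_add_mem_mem_orthogonal f
  have hgf : f - h = g := by rw [hsum]; abel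
  have hort : ∀ r ∈ RR D, inner ℂ r (f - h) = 0 := by
    rw [hgf]; exact hg
  obtain ⟨G, hG1, hG2⟩ := dwbG D u.snd
  have h1 : inner ℂ (g - G) (f - h) = 0 := by
    apply ort D f h hk hh hort
    intro φ hφ
    rw [int_sub D (test_mem D (test_dwb hφ)), hG1 φ hφ, ← hgf, int_sub D (test_mem D (test_dwb hφ)),
      (hf φ hφ).2, RR_dwb D h hh φ hφ]
    ring
  have h2 : ‖g‖ ≤ ‖u.snd‖ := by
    rw [hgf, inner_sub_left, sub_eq_zero] at h1
    have h3 : ‖g‖ * ‖g‖ ≤ ‖G‖ * ‖g‖ := by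
      have := norm_inner_le_norm (𝕜 := ℂ) G g
      rw [← h1, inner_self_eq_norm_sq_to_K] at this
      simpa [sq] using this
    by_cases hg0 : ‖g‖ = 0
    · rw [hg0]; positivity
    · exact (le_of_mul_le_mul_right h3 (lt_of_le_of_ne (norm_nonneg g) (Ne.symm hg0))).trans hG2
  have h4 : ‖f‖ ^ 2 = ‖h‖ ^ 2 + ‖g‖ ^ 2 := by
    have := norm_add_sq_eq_norm_sq_add_norm_sq_of_inner_eq_zero (𝕜 := ℂ) h g (hg h hh)
    rw [hsum]
    nlinarith [this]
  have hn := nsq D u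
  have h5 : ‖g‖ ^ 2 ≤ ‖u.snd‖ ^ 2 := pow_le_pow_left₀ (norm_nonneg g) h2 2
  by_cases hh0 : h = 0
  · have hu : u ≠ 0 := by
      intro hu0
      apply h0
      rw [hu0] at hf
      exact inner_self_eq_zero.1 (hk f hf)
    have hu2 : 0 < ‖u‖ ^ 2 := by
      have := norm_pos_iff.2 hu
      positivity
    rw [h4, hh0, norm_zero]
    nlinarith [sq_nonneg ‖u.fst‖]
  · have h6 := dual_ineq D hG f u (hX_of_dbar D f u hf) h hh hort hh0
    nlinarith [sq_nonneg ‖u.snd‖]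

theorem partB (D : Prof) (u : L2F D.Ω) (v : L2 D.Ω) (hu : IsDbar1 D.Ω u v)
    (hk : ∀ u0, IsDbar1 D.Ω u0 0 → inner ℂ u0 u = 0) : ‖u‖ ^ 2 ≤ ‖v‖ ^ 2 := by
  obtain ⟨G, hG1, hG2⟩ := dwbG D (-v)
  rw [norm_neg] at hG2
  let u' : L2F D.Ω := WithLp.toLp 2 (G, 0)
  have hu' : IsDbar1 D.Ω u' v := by
    intro φ hφ
    rw [integral_sub (pair_integrable (test_mem D (test_dzb hφ)) _)
      (pair_integrable (test_mem D (test_dwb hφ)) _)]
    change (∫ p in D.Ω, (0 : L2 D.Ω) p * dzb φ p) - (∫ p in D.Ω, G p * dwb φ p) = _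
    rw [zero_mul_int, hG1 φ hφ, int_neg D (test_mem D hφ)]
    ring
  have h1 : IsDbar1 D.Ω (u - u') 0 := by
    obtain ⟨GG, hGG, -⟩ := graph1 D.Ω D.isOpen_Ω
    rw [← hGG] at hu hu' ⊢
    have := GG.sub_mem hu hu'
    simpa using this
  have h2 := hk _ h1
  rw [inner_sub_left, sub_eq_zero] at h2
  have h3 : ‖u‖ * ‖u‖ ≤ ‖u'‖ * ‖u‖ := by
    have := norm_inner_le_norm (𝕜 := ℂ) u' u
    rw [← h2, inner_self_eq_norm_sq_to_K] at this
    simpa [sq] using this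
  have h4 : ‖u'‖ ^ 2 = ‖G‖ ^ 2 := by
    rw [nsq D u']
    change ‖G‖ ^ 2 + ‖(0 : L2 D.Ω)‖ ^ 2 = _
    simp
  have h5 : ‖u'‖ = ‖G‖ := by
    have := congrArg Real.sqrt h4
    rwa [Real.sqrt_sq (norm_nonneg _), Real.sqrt_sq (norm_nonneg _)] at this
  have h6 : ‖u‖ ≤ ‖v‖ := by
    by_cases hg0 : ‖u‖ = 0
    · rw [hg0]; positivity
    · exact (le_of_mul_le_mul_right h3 (lt_of_le_of_ne (norm_nonneg u) (Ne.symm hg0))).trans
        (h5.le.trans hG2)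
  exact pow_le_pow_left₀ (norm_nonneg u) h6 2

theorem partC (D : Prof) (hG : D.GSI) (u : L2F D.Ω) (hu : IsDbar1 D.Ω u 0) :
    ∃ f, IsDbar0 D.Ω f u := by
  obtain ⟨G, hG1, -⟩ := dwbG D u.snd
  obtain ⟨h, hh, hX⟩ := riesz_RR D hG u G
  refine ⟨G + h, aprime D _ _ hu ?_ ?_⟩
  · intro φ hφ
    rw [int_add D (test_mem D (test_dwb hφ)), hG1 φ hφ, RR_dwb D h hh φ hφ, add_zero]
  · intro N y hy
    have hm : MemLp (fun p => conj (tfD D N y p)) 2 (volume.restrict D.Ω) := (tfD_mem D N y hy).star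
    rw [int_add D hm, hX N y hy]
    ring

theorem partD (D : Prof) (hG : D.GSI) (hT : D.TRI) (m : ℝ) (hm : 1 / 4 < m) :
    ∃ f u, IsDbar0 D.Ω f u ∧ (∀ f0, IsDbar0 D.Ω f0 0 → inner ℂ f0 f = 0) ∧ f ≠ 0 ∧
      ‖u‖ ^ 2 < m * ‖f‖ ^ 2 := by
  obtain ⟨g, hg, hgw, hgp, hlt⟩ := trialx D hT (4 * m - 1) (by linarith)
  -- the form `2 z g dz̄`
  have hng : Nice D (fun p => 2 * p.1 * g p) := by
    apply nice_mul D (fun p => 2 * p.1) g _ hg
    refine ⟨univ, isOpen_univ, subset_univ _, ?_⟩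
    exact (contDiff_const.mul contDiff_fst).contDiffOn
  have hvm := nice_memLp D _ hng
  let v : L2 D.Ω := hvm.toLp
  let u : L2F D.Ω := WithLp.toLp 2 (v, 0)
  have hu : IsDbar1 D.Ω u 0 := by
    intro φ hφ
    rw [integral_sub (pair_integrable (test_mem D (test_dzb hφ)) _)
      (pair_integrable (test_mem D (test_dwb hφ)) _)]
    change (∫ p in D.Ω, (0 : L2 D.Ω) p * dzb φ p) - (∫ p in D.Ω, (hvm.toLp _) p * dwb φ p) = _
    rw [zero_mul_int, zero_mul_int, toLp_mul, int_dwb_eq_zero D hng (fun p hp => ?_) hφ]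
    · simp
    · obtain ⟨W, hW, hsub, hWg⟩ := hg.smooth
      have d1 : DifferentiableAt ℝ g p :=
        ((hWg.contDiffAt (hW.mem_nhds (hsub (Ω_sub D hp)))).differentiableAt (by simp))
      have d2 : DifferentiableAt ℝ (fun q : ℂ × ℂ => 2 * q.1) p :=
        (differentiableAt_fst).const_mul 2
      rw [dwb_mul d2 d1, hgw p hp, mul_zero, zero_add]
      have : dwb (fun q : ℂ × ℂ => 2 * q.1) p = 0 := by
        unfold dwb
        rw [fderiv_const_mul differentiableAt_fst, fderiv_fst]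
        simp
      rw [this, zero_mul]
  obtain ⟨f1, hf1⟩ := partC D hG u hu
  -- subtract the projection on the kernel
  obtain ⟨GG, hGG, hGc, hGs, -⟩ := graph0 D.Ω D.isOpen_Ω
  let K : Submodule ℂ (L2 D.Ω) := GG.comap (LinearMap.inl ℂ (L2 D.Ω) (L2F D.Ω))
  have hK : ∀ f, f ∈ K ↔ IsDbar0 D.Ω f 0 := fun f => hGG f 0
  have hKc : IsClosed (K : Set (L2 D.Ω)) := hGc.preimage (Continuous.prodMk_left 0)
  have : CompleteSpace K := hKc.completeSpace_coe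
  obtain ⟨k, hk, f, hf, hsum⟩ := K.exists_add_mem_mem_orthogonal f1
  have hfu : IsDbar0 D.Ω f u := by
    have := dbar0_sub D hf1 ((hK k).1 hk)
    rw [hsum] at this
    simpa using this
  have hfk : ∀ f0, IsDbar0 D.Ω f0 0 → inner ℂ f0 f = 0 := fun f0 h0 => hf f0 ((hK f0).2 h0)
  have hXg := nice_memLp D _ (nice_Xd D g hg)
  have key := wi_gen D f u hfu g hg
  -- the norm of `u`
  have hI : ‖u‖ ^ 2 = 4 * ∫ p in D.Ω, ‖p.1‖ ^ 2 * ‖g p‖ ^ 2 := by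
    rw [nsq D u]
    change ‖hvm.toLp _‖ ^ 2 + ‖(0 : L2 D.Ω)‖ ^ 2 = _
    rw [norm_zero, norm_toLp_sq, ← integral_const_mul]
    simp only [ne_eq, OfNat.ofNat_ne_zero, not_false_eq_true, zero_pow, add_zero]
    apply integral_congr_ae
    filter_upwards with p
    simp only [norm_mul, Complex.norm_ofNat]
    ring
  have hk2 : ∫ p in D.Ω, (2 * conj p.1 * u.fst p - conj (D.V p) * u.snd p) * conj (g p) =
      ((‖u‖ ^ 2 : ℝ) : ℂ) := by
    rw [hI, ← integral_const_mul, ← integral_complex_ofReal]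
    apply integral_congr_ae
    filter_upwards [hvm.coeFn_toLp, Lp.coeFn_zero ℂ 2 (volume.restrict D.Ω)] with p hp h0
    have e1 : u.fst p = 2 * p.1 * g p := hp
    have e2 : u.snd p = 0 := h0
    rw [e1, e2]
    push_cast
    rw [← Complex.mul_conj', ← Complex.mul_conj']
    ring
  have hk1 : ∫ p in D.Ω, f p * conj (Xd D g p) = inner ℂ (hXg.toLp _) f := by
    rw [L2.inner_def]
    apply integral_congr_ae
    filter_upwards [hXg.coeFn_toLp] with p hp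
    rw [hp]
    simp [RCLike.inner_apply]
  rw [hk1, hk2] at key
  have hcs : ‖u‖ ^ 2 ≤ ‖hXg.toLp _‖ * ‖f‖ := by
    have := norm_inner_le_norm (𝕜 := ℂ) (hXg.toLp _) f
    rw [key] at this
    simpa using this
  have hXn : ‖hXg.toLp _‖ ^ 2 = ∫ p in D.Ω, ‖Xd D g p‖ ^ 2 := norm_toLp_sq hXg
  set I0 := ∫ p in D.Ω, ‖p.1‖ ^ 2 * ‖g p‖ ^ 2 with hI0
  have hupos : 0 < ‖u‖ ^ 2 := by rw [hI]; linarith
  have hf0 : f ≠ 0 := by
    intro h0
    rw [h0, norm_zero, mul_zero] at hcs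
    linarith
  refine ⟨f, u, hfu, hfk, hf0, ?_⟩
  have h1 : ‖u‖ ^ 2 * ‖u‖ ^ 2 ≤ ‖hXg.toLp _‖ ^ 2 * ‖f‖ ^ 2 := by
    have := mul_self_le_mul_self hupos.le hcs
    nlinarith [this]
  have hfpos : 0 < ‖f‖ ^ 2 := by
    have := norm_pos_iff.2 hf0
    positivity
  have h2 : ‖hXg.toLp _‖ ^ 2 < m * ‖u‖ ^ 2 := by
    rw [hXn, hI]
    linarith
  have h3 : ‖u‖ ^ 2 * ‖u‖ ^ 2 < ‖u‖ ^ 2 * (m * ‖f‖ ^ 2) := by
    calc _ ≤ ‖hXg.toLp _‖ ^ 2 * ‖f‖ ^ 2 := h1
      _ < (m * ‖u‖ ^ 2) * ‖f‖ ^ 2 := mul_lt_mul_of_pos_right h2 hfpos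
      _ = _ := by ring
  exact lt_of_mul_lt_mul_left h3 hupos.le

end Pool.Agent.DbarN
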