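import Pool.Agent.DbarN.Prof

set_option autoImplicit false

/-!
# Compactly supported trial functions for the ground state on `(a,b)`
-/

namespace Pool.Agent.DbarN

open MeasureTheory Complex Set Filter
open scoped ComplexConjugate ContDiff Topology

namespace Tri

/-- cut off profile: `0` for `s ≤ 1`, `s` for `s ≥ 2` -/
noncomputable def H (s : ℝ) : ℝ := s * Real.smoothTransition (s - 1)

theorem H_smooth : ContDiff ℝ ∞ H := by
  unfold H
  exact contDiff_id.mul (Real.smoothTransition.contDiff.comp (contDiff_id.sub contDiff_const))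

theorem H_zero {s : ℝ} (hs : s ≤ 1) : H s = 0 := by
  unfold H
  rw [Real.smoothTransition.zero_of_nonpos (by linarith), mul_zero]

theorem H_id {s : ℝ} (hs : 2 ≤ s) : H s = s := by
  unfold H
  rw [Real.smoothTransition.one_of_one_le (by linarith), mul_one]

theorem H_nonneg {s : ℝ} (hs : 0 ≤ s) : 0 ≤ H s :=
  mul_nonneg hs (Real.smoothTransition.nonneg _)

theorem H_le {s : ℝ} (hs : 0 ≤ s) : H s ≤ s := by
  unfold H
  calc s * Real.smoothTransition (s - 1) ≤ s * 1 :=
        mul_le_mul_of_nonneg_left (Real.smoothTransition.le_one _) hs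
    _ = s := mul_one s

theorem H_deriv_bdd : ∃ M : ℝ, 0 ≤ M ∧ ∀ s, |deriv H s| ≤ M := by
  have hc : Continuous (deriv H) := H_smooth.continuous_deriv (by simp)
  obtain ⟨M, hM⟩ := (isCompact_Icc (a := (0 : ℝ)) (b := 3)).exists_bound_of_continuousOn
    hc.continuousOn
  refine ⟨max M 1, le_trans zero_le_one (le_max_right _ _), fun s => ?_⟩
  by_cases h0 : s < 0
  · have : H =ᶠ[𝓝 s] fun _ => (0 : ℝ) := by
      filter_upwards [Iio_mem_nhds h0] with t ht
      exact H_zero (by simp only [mem_Iio] at ht; linarith)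
    rw [this.deriv_eq, deriv_const, abs_zero]
    exact le_trans zero_le_one (le_max_right _ _)
  · by_cases h3 : 3 < s
    · have : H =ᶠ[𝓝 s] fun t => t := by
        filter_upwards [Ioi_mem_nhds h3] with t ht
        exact H_id (by simp only [mem_Ioi] at ht; linarith)
      rw [this.deriv_eq, deriv_id'', abs_one]
      exact le_max_right _ _
    · push Not at h0 h3
      exact le_trans (hM s ⟨h0, h3⟩) (le_max_left _ _)

variable (G : Ground)

/-- the trial functions -/
noncomputable def zt (n : ℕ) (x : ℝ) : ℝ :=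
  (Ioo G.a G.b).indicator (fun y => (1 / ((n : ℝ) + 1)) * H (((n : ℝ) + 1) * G.φ y)) x

theorem φ_cont : Continuous G.φ := G.smooth.continuous

theorem zt_supp (n : ℕ) : ∃ K : Set ℝ, IsCompact K ∧ K ⊆ Ioo G.a G.b ∧
    ∀ x, x ∉ K → zt G n x = 0 := by
  have hn : (0 : ℝ) < (n : ℝ) + 1 := by positivity
  refine ⟨Icc G.a G.b ∩ {x | 1 / ((n : ℝ) + 1) ≤ G.φ x}, ?_, ?_, ?_⟩
  · exact isCompact_Icc.inter_right (isClosed_le continuous_const (φ_cont G))
  · rintro x ⟨hx, hx2⟩
    change 1 / ((n : ℝ) + 1) ≤ G.φ x at hx2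
    have hpos : 0 < 1 / ((n : ℝ) + 1) := by positivity
    refine ⟨lt_of_le_of_ne hx.1 ?_, lt_of_le_of_ne hx.2 ?_⟩
    · rintro rfl
      rw [G.za] at hx2
      linarith
    · rintro rfl
      rw [G.zb] at hx2
      linarith
  · intro x hx
    unfold zt
    by_cases h : x ∈ Ioo G.a G.b
    · rw [indicator_of_mem h]
      have h2 : G.φ x < 1 / ((n : ℝ) + 1) := by
        by_contra hcon
        push Not at hcon
        exact hx ⟨Ioo_subset_Icc_self h, hcon⟩
      have h3 : ((n : ℝ) + 1) * G.φ x ≤ 1 := by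
        rw [lt_div_iff₀ hn] at h2
        linarith
      rw [H_zero h3, mul_zero]
    · rw [indicator_of_notMem h]

theorem zt_tsupport (n : ℕ) : HasCompactSupport (zt G n) ∧ tsupport (zt G n) ⊆ Ioo G.a G.b := by
  obtain ⟨K, hK, hK2, hK3⟩ := zt_supp G n
  have hsub : tsupport (zt G n) ⊆ K := by
    apply closure_minimal _ hK.isClosed
    intro x hx
    by_contra hcon
    exact hx (hK3 x hcon)
  exact ⟨hK.of_isClosed_subset (isClosed_tsupport _) hsub, hsub.trans hK2⟩

theorem zt_eventually (n : ℕ) {x : ℝ} (hx : x ∈ Ioo G.a G.b) :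
    zt G n =ᶠ[𝓝 x] fun y => (1 / ((n : ℝ) + 1)) * H (((n : ℝ) + 1) * G.φ y) := by
  filter_upwards [isOpen_Ioo.mem_nhds hx] with y hy
  unfold zt
  rw [indicator_of_mem hy]

theorem zt_smooth (n : ℕ) : ContDiff ℝ ∞ (zt G n) := by
  obtain ⟨K, hK, hK2, hK3⟩ := zt_supp G n
  rw [contDiff_iff_contDiffAt]
  intro x
  by_cases hx : x ∈ Ioo G.a G.b
  · have h1 : ContDiff ℝ ∞ (fun y => (1 / ((n : ℝ) + 1)) * H (((n : ℝ) + 1) * G.φ y)) :=
      contDiff_const.mul (H_smooth.comp (contDiff_const.mul G.smooth))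
    exact h1.contDiffAt.congr_of_eventuallyEq (zt_eventually G n hx)
  · have hxK : x ∉ K := fun h => hx (hK2 h)
    have : zt G n =ᶠ[𝓝 x] fun _ => (0 : ℝ) := by
      filter_upwards [hK.isClosed.isOpen_compl.mem_nhds hxK] with y hy
      exact hK3 y hy
    exact contDiffAt_const.congr_of_eventuallyEq this

theorem zt_deriv (n : ℕ) {x : ℝ} (hx : x ∈ Ioo G.a G.b) :
    deriv (zt G n) x = deriv H (((n : ℝ) + 1) * G.φ x) * deriv G.φ x := by
  have hn : (0 : ℝ) < (n : ℝ) + 1 := by positivity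
  rw [(zt_eventually G n hx).deriv_eq]
  have h1 : HasDerivAt G.φ (deriv G.φ x) x :=
    (G.smooth.differentiable (by simp)).differentiableAt.hasDerivAt
  have h2 : HasDerivAt H (deriv H (((n : ℝ) + 1) * G.φ x)) (((n : ℝ) + 1) * G.φ x) :=
    (H_smooth.differentiable (by simp)).differentiableAt.hasDerivAt
  have h3 := ((h2.comp x (h1.const_mul ((n : ℝ) + 1)))).const_mul (1 / ((n : ℝ) + 1))
  have h4 := h3.deriv
  simp only [Function.comp_def] at h4
  rw [h4]
  field_simp

theorem ode_int : ∫ x in Ioo G.a G.b, deriv G.φ x ^ 2 =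
    ∫ x in Ioo G.a G.b, Real.exp (2 * x) * G.φ x ^ 2 := by
  rw [← integral_Ioc_eq_integral_Ioo, ← integral_Ioc_eq_integral_Ioo,
    ← intervalIntegral.integral_of_le G.hab.le, ← intervalIntegral.integral_of_le G.hab.le]
  have hd1 : ContDiff ℝ ∞ (deriv G.φ) := by
    have := (contDiff_infty_iff_deriv (𝕜 := ℝ)).1 G.smooth
    exact this.2
  have h1 : ∀ x, HasDerivAt (fun y => G.φ y * deriv G.φ y)
      (deriv G.φ x ^ 2 - Real.exp (2 * x) * G.φ x ^ 2) x := by
    intro x
    have e1 : HasDerivAt G.φ (deriv G.φ x) x :=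
      (G.smooth.differentiable (by simp)).differentiableAt.hasDerivAt
    have e2 : HasDerivAt (deriv G.φ) (deriv (deriv G.φ) x) x :=
      (hd1.differentiable (by simp)).differentiableAt.hasDerivAt
    have e3 := e1.mul e2
    rw [G.ode x] at e3
    have e4 : deriv G.φ x ^ 2 - Real.exp (2 * x) * G.φ x ^ 2 =
        deriv G.φ x * deriv G.φ x + G.φ x * -(Real.exp (2 * x) * G.φ x) := by ring
    rw [e4]
    exact e3
  have c1 : Continuous (fun x => deriv G.φ x ^ 2) := hd1.continuous.pow 2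
  have c2 : Continuous (fun x => Real.exp (2 * x) * G.φ x ^ 2) := by
    have := φ_cont G
    fun_prop
  have h2 := intervalIntegral.integral_eq_sub_of_hasDerivAt (a := G.a) (b := G.b)
    (fun x _ => h1 x) ((c1.sub c2).intervalIntegrable _ _)
  rw [intervalIntegral.integral_sub (c1.intervalIntegrable _ _) (c2.intervalIntegrable _ _),
    G.za, G.zb] at h2
  linarith

theorem int_pos : 0 < ∫ x in Ioo G.a G.b, Real.exp (2 * x) * G.φ x ^ 2 := by
  have c2 : Continuous (fun x => Real.exp (2 * x) * G.φ x ^ 2) := by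
    have := φ_cont G
    fun_prop
  rw [← integral_Ioc_eq_integral_Ioo, ← intervalIntegral.integral_of_le G.hab.le]
  apply intervalIntegral.intervalIntegral_pos_of_pos_on (c2.intervalIntegrable _ _) _ G.hab
  intro x hx
  have := G.pos x hx
  positivity

theorem lim1 : Tendsto (fun n : ℕ => ∫ x in Ioo G.a G.b, Real.exp (2 * x) * zt G n x ^ 2) atTop
    (𝓝 (∫ x in Ioo G.a G.b, Real.exp (2 * x) * G.φ x ^ 2)) := by
  have c2 : Continuous (fun x => Real.exp (2 * x) * G.φ x ^ 2) := by
    have := φ_cont G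
    fun_prop
  apply tendsto_integral_of_dominated_convergence (fun x => Real.exp (2 * x) * G.φ x ^ 2)
  · intro n
    have := (zt_smooth G n).continuous
    have h : Continuous (fun x => Real.exp (2 * x) * zt G n x ^ 2) := by fun_prop
    exact h.aestronglyMeasurable
  · exact (c2.continuousOn.integrableOn_Icc (a := G.a) (b := G.b)).mono_set Ioo_subset_Icc_self
  · intro n
    rw [ae_restrict_iff' measurableSet_Ioo]
    refine Eventually.of_forall fun x hx => ?_
    have hn : (0 : ℝ) < (n : ℝ) + 1 := by positivity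
    have hφ := G.pos x hx
    have e1 : zt G n x = (1 / ((n : ℝ) + 1)) * H (((n : ℝ) + 1) * G.φ x) := by
      unfold zt
      rw [indicator_of_mem hx]
    have e2 : 0 ≤ zt G n x := by
      rw [e1]
      exact mul_nonneg (by positivity) (H_nonneg (by positivity))
    have e3 : zt G n x ≤ G.φ x := by
      rw [e1]
      calc (1 / ((n : ℝ) + 1)) * H (((n : ℝ) + 1) * G.φ x)
          ≤ (1 / ((n : ℝ) + 1)) * (((n : ℝ) + 1) * G.φ x) :=
            mul_le_mul_of_nonneg_left (H_le (by positivity)) (by positivity)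
        _ = G.φ x := by field_simp
    rw [Real.norm_of_nonneg (by positivity)]
    gcongr
  · rw [ae_restrict_iff' measurableSet_Ioo]
    refine Eventually.of_forall fun x hx => ?_
    have hφ := G.pos x hx
    apply tendsto_const_nhds.congr'
    obtain ⟨m, hm⟩ := exists_nat_gt (2 / G.φ x)
    filter_upwards [eventually_ge_atTop m] with n hn
    have hnm : (m : ℝ) ≤ n := by exact_mod_cast hn
    have hn0 : (0 : ℝ) < (n : ℝ) + 1 := by positivity
    have e0 : 2 ≤ ((n : ℝ) + 1) * G.φ x := by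
      rw [div_lt_iff₀ hφ] at hm
      nlinarith
    have e1 : zt G n x = G.φ x := by
      unfold zt
      rw [indicator_of_mem hx, H_id e0]
      field_simp
    rw [e1]

theorem lim2 : Tendsto (fun n : ℕ => ∫ x in Ioo G.a G.b, deriv (zt G n) x ^ 2) atTop
    (𝓝 (∫ x in Ioo G.a G.b, deriv G.φ x ^ 2)) := by
  obtain ⟨M, hM0, hM⟩ := H_deriv_bdd
  have hd1 : Continuous (deriv G.φ) := G.smooth.continuous_deriv (by simp)
  apply tendsto_integral_of_dominated_convergence (fun x => M ^ 2 * deriv G.φ x ^ 2)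
  · intro n
    have h : Continuous (fun x => deriv (zt G n) x ^ 2) :=
      ((zt_smooth G n).continuous_deriv (by simp)).pow 2
    exact h.aestronglyMeasurable
  · have c2 : Continuous (fun x => M ^ 2 * deriv G.φ x ^ 2) := by fun_prop
    exact (c2.continuousOn.integrableOn_Icc (a := G.a) (b := G.b)).mono_set Ioo_subset_Icc_self
  · intro n
    rw [ae_restrict_iff' measurableSet_Ioo]
    refine Eventually.of_forall fun x hx => ?_
    rw [Real.norm_of_nonneg (by positivity), zt_deriv G n hx, mul_pow]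
    have h1 := hM (((n : ℝ) + 1) * G.φ x)
    have h2 : deriv H (((n : ℝ) + 1) * G.φ x) ^ 2 ≤ M ^ 2 := by
      rw [← sq_abs]
      exact pow_le_pow_left₀ (abs_nonneg _) h1 2
    exact mul_le_mul_of_nonneg_right h2 (sq_nonneg _)
  · rw [ae_restrict_iff' measurableSet_Ioo]
    refine Eventually.of_forall fun x hx => ?_
    have hφ := G.pos x hx
    apply tendsto_const_nhds.congr'
    obtain ⟨m, hm⟩ := exists_nat_gt (2 / G.φ x)
    filter_upwards [eventually_ge_atTop m] with n hn
    have hnm : (m : ℝ) ≤ n := by exact_mod_cast hn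
    have hn0 : (0 : ℝ) < (n : ℝ) + 1 := by positivity
    have e0 : 2 < ((n : ℝ) + 1) * G.φ x := by
      rw [div_lt_iff₀ hφ] at hm
      nlinarith
    have e1 : deriv H (((n : ℝ) + 1) * G.φ x) = 1 := by
      have : H =ᶠ[𝓝 (((n : ℝ) + 1) * G.φ x)] fun t => t := by
        filter_upwards [Ioi_mem_nhds e0] with t ht
        exact H_id (by simp only [mem_Ioi] at ht; linarith)
      rw [this.deriv_eq, deriv_id'']
    rw [zt_deriv G n hx, e1, one_mul]

theorem deriv_zero_off (n : ℕ) (x : ℝ) (hx : x ∉ Ioo G.a G.b) : deriv (zt G n) x = 0 := by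
  obtain ⟨K, hK, hK2, hK3⟩ := zt_supp G n
  have hxK : x ∉ K := fun h => hx (hK2 h)
  have : zt G n =ᶠ[𝓝 x] fun _ => (0 : ℝ) := by
    filter_upwards [hK.isClosed.isOpen_compl.mem_nhds hxK] with y hy
    exact hK3 y hy
  rw [this.deriv_eq, deriv_const]

end Tri

open Tri in
theorem tri_ground (G : Ground) :
    ∀ ε > 0, ∃ ζ : ℝ → ℝ, ContDiff ℝ ∞ ζ ∧ HasCompactSupport ζ ∧ tsupport ζ ⊆ Set.Ioo G.a G.b ∧
      0 < ∫ x, Real.exp (2 * x) * ζ x ^ 2 ∧
      ∫ x, deriv ζ x ^ 2 < (1 + ε) * ∫ x, Real.exp (2 * x) * ζ x ^ 2 := by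
  intro ε hε
  have hpos := int_pos G
  have l1 := lim1 G
  have l2 := lim2 G
  rw [ode_int G] at l2
  have l3 : Tendsto (fun n : ℕ => (1 + ε) * ∫ x in Ioo G.a G.b, Real.exp (2 * x) * zt G n x ^ 2)
      atTop (𝓝 ((1 + ε) * ∫ x in Ioo G.a G.b, Real.exp (2 * x) * G.φ x ^ 2)) :=
    l1.const_mul _
  have hlt : (∫ x in Ioo G.a G.b, Real.exp (2 * x) * G.φ x ^ 2) <
      (1 + ε) * ∫ x in Ioo G.a G.b, Real.exp (2 * x) * G.φ x ^ 2 := by nlinarith
  obtain ⟨n, hn1, hn2⟩ := ((l2.eventually_lt l3 hlt).and (l1.eventually_const_lt hpos)).exists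
  have z1 : (∫ x, Real.exp (2 * x) * zt G n x ^ 2) =
      ∫ x in Ioo G.a G.b, Real.exp (2 * x) * zt G n x ^ 2 := by
    symm
    apply setIntegral_eq_integral_of_forall_compl_eq_zero
    intro x hx
    unfold zt
    rw [indicator_of_notMem hx]
    ring
  have z2 : (∫ x, deriv (zt G n) x ^ 2) = ∫ x in Ioo G.a G.b, deriv (zt G n) x ^ 2 := by
    symm
    apply setIntegral_eq_integral_of_forall_compl_eq_zero
    intro x hx
    rw [deriv_zero_off G n x hx]
    ring
  refine ⟨zt G n, zt_smooth G n, (zt_tsupport G n).1, (zt_tsupport G n).2, ?_, ?_⟩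
  · rw [z1]
    exact hn2
  · rw [z1, z2]
    exact hn1

end Pool.Agent.DbarN
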