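import Pool.Agent.DbarN.Prof
import Pool.Agent.DbarN.FLAT

set_option autoImplicit false

/-!
# Module WALL: construction of the profile data
-/

namespace Pool.Agent.DbarN

open Set
open scoped ContDiff

namespace Wall

/-- the properties of the flat function used in the construction -/
structure Flat (F : ℝ → ℝ) : Prop where
  smooth : ContDiff ℝ ∞ F
  zero : ∀ d ≤ 0, F d = 0
  pos : ∀ d > 0, 0 < F d
  mono : Monotone F
  low : ∀ d > 0, Real.exp (-(1 + 1 / d) ^ (1 / 3 : ℝ)) ≤ F d

/-- the second primitive of a flat function -/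
structure Prim (F G1 G : ℝ → ℝ) : Prop where
  smooth : ContDiff ℝ ∞ G
  d1 : ∀ x, HasDerivAt G (G1 x) x
  d2 : ∀ x, HasDerivAt G1 (F x) x
  z : ∀ x ≤ 0, G x = 0
  z1 : ∀ x ≤ 0, G1 x = 0
  pos1 : ∀ x > 0, 0 < G1 x
  smono : StrictMonoOn G (Ici 0)
  nonneg : ∀ x, 0 ≤ G x
  slope : ∀ x, G x ≤ x * G1 x

theorem hasDerivAt_prim {F : ℝ → ℝ} (hF : Continuous F) (x : ℝ) :
    HasDerivAt (fun y => ∫ s in (0 : ℝ)..y, F s) (F x) x :=
  (hF.integral_hasStrictDerivAt 0 x).hasDerivAt

theorem contDiff_prim {F : ℝ → ℝ} (hF : ContDiff ℝ ∞ F) :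
    ContDiff ℝ ∞ (fun y => ∫ s in (0 : ℝ)..y, F s) := by
  rw [contDiff_infty_iff_deriv]
  refine ⟨fun x => (hasDerivAt_prim hF.continuous x).differentiableAt, ?_⟩
  have : deriv (fun y => ∫ s in (0 : ℝ)..y, F s) = F := by
    funext x
    exact (hasDerivAt_prim hF.continuous x).deriv
  rw [this]
  exact hF

theorem prim_zero {F : ℝ → ℝ} (hF : ∀ d ≤ 0, F d = 0) (x : ℝ) (hx : x ≤ 0) :
    ∫ s in (0 : ℝ)..x, F s = 0 := by
  have : ∫ s in (0 : ℝ)..x, F s = ∫ s in (0 : ℝ)..x, (0 : ℝ) := by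
    apply intervalIntegral.integral_congr
    intro s hs
    rw [uIcc_of_ge hx] at hs
    exact hF s hs.2
  rw [this]
  simp

theorem exists_prim {F : ℝ → ℝ} (hF : Flat F) : ∃ G1 G : ℝ → ℝ, Prim F G1 G := by
  have hF0 : ∀ x, 0 ≤ F x := by
    intro x
    rcases le_or_gt x 0 with h | h
    · rw [hF.zero x h]
    · exact (hF.pos x h).le
  set G1 : ℝ → ℝ := fun y => ∫ s in (0 : ℝ)..y, F s with hG1
  have hG1s : ContDiff ℝ ∞ G1 := contDiff_prim hF.smooth
  have hG1d : ∀ x, HasDerivAt G1 (F x) x := hasDerivAt_prim hF.smooth.continuous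
  have hG1z : ∀ x ≤ 0, G1 x = 0 := prim_zero hF.zero
  have hG1p : ∀ x > 0, 0 < G1 x := by
    intro x hx
    apply intervalIntegral.intervalIntegral_pos_of_pos_on
    · exact hF.smooth.continuous.intervalIntegrable _ _
    · intro y hy
      exact hF.pos y hy.1
    · exact hx
  have hG10 : ∀ x, 0 ≤ G1 x := by
    intro x
    rcases le_or_gt x 0 with h | h
    · rw [hG1z x h]
    · exact (hG1p x h).le
  set G : ℝ → ℝ := fun y => ∫ s in (0 : ℝ)..y, G1 s with hG
  have hGs : ContDiff ℝ ∞ G := contDiff_prim hG1s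
  have hGd : ∀ x, HasDerivAt G (G1 x) x := hasDerivAt_prim hG1s.continuous
  have hGz : ∀ x ≤ 0, G x = 0 := prim_zero hG1z
  have hGm : Monotone G := by
    apply monotone_of_deriv_nonneg (fun x => (hGd x).differentiableAt)
    intro x
    rw [(hGd x).deriv]
    exact hG10 x
  refine ⟨G1, G, hGs, hGd, hG1d, hGz, hG1z, hG1p, ?_, ?_, ?_⟩
  · apply strictMonoOn_of_deriv_pos (convex_Ici 0) hGs.continuous.continuousOn
    intro x hx
    rw [interior_Ici] at hx
    rw [(hGd x).deriv]
    exact hG1p x hx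
  · intro x
    rcases le_or_gt x 0 with h | h
    · rw [hGz x h]
    · calc (0 : ℝ) = G 0 := (hGz 0 le_rfl).symm
        _ ≤ G x := hGm h.le
  · have hm : Monotone (fun x => x * G1 x - G x) := by
      apply monotone_of_deriv_nonneg
      · intro x
        exact ((hasDerivAt_id x).mul (hG1d x)).differentiableAt.sub (hGd x).differentiableAt
      · intro x
        have h1 : HasDerivAt (fun x => x * G1 x - G x) (1 * G1 x + x * F x - G1 x) x :=
          ((hasDerivAt_id x).mul (hG1d x)).sub (hGd x)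
        rw [h1.deriv]
        have : 0 ≤ x * F x := by
          rcases le_or_gt x 0 with h | h
          · rw [hF.zero x h]; simp
          · exact mul_nonneg h.le (hF0 x)
        linarith
    intro x
    rcases le_or_gt x 0 with h | h
    · rw [hGz x h, hG1z x h]; simp
    · have := hm h.le
      simp only [hGz 0 le_rfl, zero_mul, sub_zero] at this
      linarith

/-- the derivative of the smooth transition function is bounded -/
theorem exists_bound_st : ∃ C, 0 ≤ C ∧ ∀ y, |deriv Real.smoothTransition y| ≤ C := by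
  have hc : Continuous (deriv Real.smoothTransition) :=
    (Real.smoothTransition.contDiff (n := 1)).continuous_deriv (by simp)
  obtain ⟨C, hC⟩ := (isCompact_Icc (a := (0 : ℝ)) (b := 1)).exists_bound_of_continuousOn
    hc.continuousOn
  refine ⟨max C 0, le_max_right _ _, ?_⟩
  intro y
  by_cases hy : y ∈ Icc (0 : ℝ) 1
  · exact (hC y hy).trans (le_max_left _ _)
  · have : deriv Real.smoothTransition y = 0 := by
      rw [mem_Icc, not_and_or, not_le, not_le] at hy
      rcases hy with hy | hy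
      · have h1 : Real.smoothTransition =ᶠ[nhds y] fun _ => (0 : ℝ) := by
          filter_upwards [Iio_mem_nhds hy] with z hz
          exact Real.smoothTransition.zero_of_nonpos (le_of_lt hz)
        rw [h1.deriv_eq]
        simp
      · have h1 : Real.smoothTransition =ᶠ[nhds y] fun _ => (1 : ℝ) := by
          filter_upwards [Ioi_mem_nhds hy] with z hz
          exact Real.smoothTransition.one_of_one_le (le_of_lt hz)
        rw [h1.deriv_eq]
        simp
    rw [this]
    simp

/-- the derivative of the smooth transition function vanishes outside `[0,1]` -/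
theorem deriv_st_zero (y : ℝ) (hy : y < 0 ∨ 1 < y) : deriv Real.smoothTransition y = 0 := by
  rcases hy with hy | hy
  · have h1 : Real.smoothTransition =ᶠ[nhds y] fun _ => (0 : ℝ) := by
      filter_upwards [Iio_mem_nhds hy] with z hz
      exact Real.smoothTransition.zero_of_nonpos (le_of_lt hz)
    rw [h1.deriv_eq]
    simp
  · have h1 : Real.smoothTransition =ᶠ[nhds y] fun _ => (1 : ℝ) := by
      filter_upwards [Ioi_mem_nhds hy] with z hz
      exact Real.smoothTransition.one_of_one_le (le_of_lt hz)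
    rw [h1.deriv_eq]
    simp

/-- growth comparison -/
theorem growth (T A B : ℝ) (hT : 1 ≤ T) (hA : 0 < A) (hB0 : 0 < B) (e cw : ℝ) (hcw : 0 < cw)
    (hB : e + cw ≤ B ^ 2) (t : ℝ) (ht : T ≤ t) (Lam : ℝ)
    (hL : 128 * 384 * (4 * (A + B) ^ 2 + B ^ 2) * Real.exp (T + 4 * (1 + 8 * A + 8 * B)) ≤ Lam) :
    4 * (A * t ^ 2 + B) ^ 2 + e + cw / t ^ 2 ≤
      Lam / 128 * (Real.exp (t - T) * Real.exp (-(1 + 8 * (A * t ^ 2 + B)) ^ (1 / 3 : ℝ))) := by
  have ht1 : 1 ≤ t := hT.trans ht
  have ht2 : 1 ≤ t ^ 2 := one_le_pow₀ ht1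
  set K : ℝ := 1 + 8 * A + 8 * B with hK
  have hK0 : 0 < K := by positivity
  have h1 : (1 + 8 * (A * t ^ 2 + B)) ^ (1 / 3 : ℝ) ≤ t / 2 + 4 * K := by
    have h2 : 1 + 8 * (A * t ^ 2 + B) ≤ (t / 2 + 4 * K) ^ 3 := by
      have h3 : 1 + 8 * (A * t ^ 2 + B) ≤ K * t ^ 2 := by
        rw [hK]; nlinarith [mul_le_mul_of_nonneg_left ht2 hB0.le]
      have h4 : K * t ^ 2 ≤ (t / 2 + 4 * K) ^ 3 := by
        have : (t / 2 + 4 * K) ^ 3 = t ^ 3 / 8 + 3 * (K * t ^ 2) + 24 * K ^ 2 * t + 64 * K ^ 3 := by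
          ring
        rw [this]
        have : 0 ≤ t ^ 3 / 8 := by positivity
        have : 0 ≤ K * t ^ 2 := by positivity
        have : 0 ≤ 24 * K ^ 2 * t := by positivity
        have : 0 ≤ 64 * K ^ 3 := by positivity
        linarith
      exact h3.trans h4
    have h5 : 0 ≤ t / 2 + 4 * K := by positivity
    calc (1 + 8 * (A * t ^ 2 + B)) ^ (1 / 3 : ℝ) ≤ ((t / 2 + 4 * K) ^ 3) ^ (1 / 3 : ℝ) := by
          apply Real.rpow_le_rpow _ h2 (by norm_num)
          positivity
      _ = t / 2 + 4 * K := by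
          rw [← Real.rpow_natCast, ← Real.rpow_mul h5]
          norm_num
  have h2 : Real.exp (t / 2 - T - 4 * K) ≤
      Real.exp (t - T) * Real.exp (-(1 + 8 * (A * t ^ 2 + B)) ^ (1 / 3 : ℝ)) := by
    rw [← Real.exp_add]
    apply Real.exp_le_exp.2
    linarith
  have h3 : t ^ 4 ≤ 384 * Real.exp (t / 2) := by
    have h4 : (t / 2) ^ 4 / (4 : ℕ).factorial ≤ Real.exp (t / 2) :=
      Real.pow_div_factorial_le_exp (t / 2) (by positivity) 4
    have h5 : ((4 : ℕ).factorial : ℝ) = 24 := by norm_num [Nat.factorial]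
    rw [h5] at h4
    nlinarith [h4]
  have h4 : 4 * (A * t ^ 2 + B) ^ 2 + e + cw / t ^ 2 ≤ (4 * (A + B) ^ 2 + B ^ 2) * t ^ 4 := by
    have h5 : A * t ^ 2 + B ≤ (A + B) * t ^ 2 := by
      nlinarith [mul_le_mul_of_nonneg_left ht2 hB0.le]
    have h6 : (A * t ^ 2 + B) ^ 2 ≤ ((A + B) * t ^ 2) ^ 2 := by
      apply pow_le_pow_left₀ (by positivity) h5
    have h7 : cw / t ^ 2 ≤ cw := div_le_self hcw.le ht2
    have h8 : 1 ≤ t ^ 4 := one_le_pow₀ ht1
    have h9 : B ^ 2 ≤ B ^ 2 * t ^ 4 := by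
      nlinarith [mul_le_mul_of_nonneg_left h8 (sq_nonneg B)]
    have h10 : ((A + B) * t ^ 2) ^ 2 = (A + B) ^ 2 * t ^ 4 := by ring
    nlinarith
  calc 4 * (A * t ^ 2 + B) ^ 2 + e + cw / t ^ 2 ≤ (4 * (A + B) ^ 2 + B ^ 2) * t ^ 4 := h4
    _ ≤ (4 * (A + B) ^ 2 + B ^ 2) * (384 * Real.exp (t / 2)) := by
        apply mul_le_mul_of_nonneg_left h3 (by positivity)
    _ = (128 * 384 * (4 * (A + B) ^ 2 + B ^ 2) * Real.exp (T + 4 * K)) / 128 *
          Real.exp (t / 2 - T - 4 * K) := by
        have : Real.exp (t / 2) = Real.exp (T + 4 * K) * Real.exp (t / 2 - T - 4 * K) := by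
          rw [← Real.exp_add]; congr 1; ring
        rw [this]; ring
    _ ≤ Lam / 128 * Real.exp (t / 2 - T - 4 * K) := by
        apply mul_le_mul_of_nonneg_right _ (Real.exp_pos _).le
        linarith
    _ ≤ Lam / 128 * (Real.exp (t - T) *
          Real.exp (-(1 + 8 * (A * t ^ 2 + B)) ^ (1 / 3 : ℝ))) := by
        apply mul_le_mul_of_nonneg_left h2
        have : 0 ≤ Lam := le_trans (by positivity) hL
        positivity

theorem main (F : ℝ → ℝ) (hF : Flat F) (a b T A B cw : ℝ) (hab : a < b) (hT : 1 ≤ T)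
    (hA : 0 < A) (hB0 : 0 < B) (hcw : 0 < cw) (hB : Real.exp (2 * (b + 1)) + cw ≤ B ^ 2) :
    ∃ D : Prof, D.a = a ∧ D.b = b ∧ D.T = T ∧ D.A = A ∧ D.B = B ∧ D.cw = cw := by
  have hF0 : ∀ x, 0 ≤ F x := by
    intro x
    rcases le_or_gt x 0 with h | h
    · rw [hF.zero x h]
    · exact (hF.pos x h).le
  obtain ⟨G1, G, hG⟩ := exists_prim hF
  obtain ⟨C, hC0, hC⟩ := exists_bound_st
  have hG10 : ∀ x, 0 ≤ G1 x := by
    intro x
    rcases le_or_gt x 0 with h | h
    · rw [hG.z1 x h]
    · exact (hG.pos1 x h).le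
  have hGmono : Monotone G := by
    apply monotone_of_deriv_nonneg (fun x => (hG.d1 x).differentiableAt)
    intro x
    rw [(hG.d1 x).deriv]
    exact hG10 x
  have hGpos : ∀ x > 0, 0 < G x := by
    intro x hx
    calc (0 : ℝ) = G 0 := (hG.z 0 le_rfl).symm
      _ < G x := hG.smono (mem_Ici.2 le_rfl) (mem_Ici.2 hx.le) hx
  -- the constant to be exceeded
  set L0 : ℝ := 128 * 384 * (4 * (A + B) ^ 2 + B ^ 2) *
    Real.exp (T + 4 * (1 + 8 * A + 8 * B)) with hL0
  have hL0p : 0 < L0 := by positivity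
  obtain ⟨δ1, hδ1, hδG⟩ : ∃ δ1 > 0, ∀ d, 0 < d → d ≤ δ1 → G d ≤ 1 / L0 := by
    have hcont : Filter.Tendsto G (nhds 0) (nhds (G 0)) := hG.smooth.continuous.continuousAt
    rw [hG.z 0 le_rfl] at hcont
    have := hcont.eventually_lt_const (show (0 : ℝ) < 1 / L0 by positivity)
    obtain ⟨ε, hε, h⟩ := Metric.eventually_nhds_iff.1 this
    refine ⟨ε / 2, by positivity, ?_⟩
    intro d hd hd2
    have h3 : dist d 0 < ε := by
      rw [Real.dist_eq, sub_zero, abs_of_pos hd]
      linarith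
    exact (h h3).le
  -- the width of the walls
  set δ : ℝ := min (min δ1 1) (1 / (8 * (4 * C + 1))) with hδ
  have hδ0 : 0 < δ := by
    rw [hδ]
    exact lt_min (lt_min hδ1 one_pos) (by positivity)
  have hδle1 : δ ≤ 1 := (min_le_left _ _).trans (min_le_right _ _)
  have hδleC : δ ≤ 1 / (8 * (4 * C + 1)) := min_le_right _ _
  set Λ : ℝ := 1 / G δ with hΛ
  have hGδ : 0 < G δ := hGpos δ hδ0
  have hΛ0 : 0 < Λ := by positivity
  have hΛG : Λ * G δ = 1 := by rw [hΛ]; field_simp
  have hΛL : L0 ≤ Λ := by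
    have h1 : G δ ≤ 1 / L0 := hδG δ hδ0 ((min_le_left _ _).trans (min_le_left _ _))
    rw [hΛ, le_div_iff₀ hGδ]
    rw [le_div_iff₀ hL0p] at h1
    linarith
  -- the functions
  set η : ℝ → ℝ := fun x => Λ * (G (x - b) + G (a - x)) with hη
  set η1 : ℝ → ℝ := fun x => Λ * (G1 (x - b) - G1 (a - x)) with hη1
  set η2 : ℝ → ℝ := fun x => Λ * (F (x - b) + F (a - x)) with hη2
  have hd1 : ∀ x, HasDerivAt η (η1 x) x := by
    intro x
    have e1 : HasDerivAt (fun y => G (y - b)) (G1 (x - b)) x := by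
      exact HasDerivAt.comp_sub_const x b (hG.d1 (x - b))
    have e2 : HasDerivAt (fun y => G (a - y)) (-G1 (a - x)) x := by
      exact HasDerivAt.comp_const_sub a x (hG.d1 (a - x))
    have e3 := (e1.add e2).const_mul Λ
    exact e3
  have hd2 : ∀ x, HasDerivAt η1 (η2 x) x := by
    intro x
    have e1 : HasDerivAt (fun y => G1 (y - b)) (F (x - b)) x := by
      exact HasDerivAt.comp_sub_const x b (hG.d2 (x - b))
    have e2 : HasDerivAt (fun y => G1 (a - y)) (-F (a - x)) x := by
      exact HasDerivAt.comp_const_sub a x (hG.d2 (a - x))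
    have e3 := (e1.sub e2).const_mul Λ
    rw [sub_neg_eq_add] at e3
    exact e3
  have hde : deriv η = η1 := funext fun x => (hd1 x).deriv
  have hde2 : deriv η1 = η2 := funext fun x => (hd2 x).deriv
  have hηs : ContDiff ℝ ∞ η := by
    apply contDiff_const.mul
    exact (hG.smooth.comp (contDiff_id.sub contDiff_const)).add
      (hG.smooth.comp (contDiff_const.sub contDiff_id))
  have hη0 : ∀ x, 0 ≤ η x := fun x => mul_nonneg hΛ0.le (add_nonneg (hG.nonneg _) (hG.nonneg _))
  have hη20 : ∀ x, 0 ≤ η2 x := fun x => mul_nonneg hΛ0.le (add_nonneg (hF0 _) (hF0 _))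
  have hright : ∀ x, a ≤ x → η x = Λ * G (x - b) := by
    intro x hx
    simp only [hη]
    rw [hG.z (a - x) (by linarith), add_zero]
  have hleft : ∀ x, x ≤ b → η x = Λ * G (a - x) := by
    intro x hx
    simp only [hη]
    rw [hG.z (x - b) (by linarith), zero_add]
  have hlt : ∀ d, d < δ → Λ * G d < 1 := by
    intro d hd
    rcases le_or_gt d 0 with h | h
    · rw [hG.z d h, mul_zero]; exact one_pos
    · rw [← hΛG]
      exact mul_lt_mul_of_pos_left (hG.smono (mem_Ici.2 h.le) (mem_Ici.2 hδ0.le) hd) hΛ0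
  have hgt : ∀ d, δ < d → 1 < Λ * G d := by
    intro d hd
    rw [← hΛG]
    exact mul_lt_mul_of_pos_left
      (hG.smono (mem_Ici.2 hδ0.le) (mem_Ici.2 (hδ0.trans hd).le) hd) hΛ0
  have hηlt : ∀ x ∈ Ioo (a - δ) (b + δ), η x < 1 := by
    intro x hx
    rcases le_or_gt a x with h | h
    · rw [hright x h]; exact hlt _ (by linarith [hx.2])
    · rw [hleft x (by linarith)]; exact hlt _ (by linarith [hx.1])
  -- the logarithmic derivative
  have hμd : ∀ x ∈ Ioo (a - δ) (b + δ),
      deriv (fun y => deriv η y / (2 * (1 - η y))) x =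
        (η2 x * (1 - η x) + η1 x ^ 2) / (2 * (1 - η x) ^ 2) := by
    intro x hx
    have h1 : 0 < 1 - η x := by linarith [hηlt x hx]
    have h2 : HasDerivAt (fun y => η1 y / (2 * (1 - η y)))
        ((η2 x * (2 * (1 - η x)) - η1 x * (2 * (-η1 x))) / (2 * (1 - η x)) ^ 2) x := by
      apply (hd2 x).div _ (by positivity)
      exact ((hd1 x).const_sub 1).const_mul 2
    rw [hde, h2.deriv]
    field_simp
    ring
  -- `μ' ≥ 2 μ²` and `μ' ≥ η'' / 2`
  have hμ2 : ∀ x ∈ Ioo (a - δ) (b + δ),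
      2 * (η1 x / (2 * (1 - η x))) ^ 2 ≤ (η2 x * (1 - η x) + η1 x ^ 2) / (2 * (1 - η x) ^ 2) := by
    intro x hx
    have h1 : 0 < 1 - η x := by linarith [hηlt x hx]
    have h2 : 2 * (η1 x / (2 * (1 - η x))) ^ 2 = η1 x ^ 2 / (2 * (1 - η x) ^ 2) := by
      field_simp
    rw [h2]
    apply div_le_div_of_nonneg_right _ (by positivity)
    have := mul_nonneg (hη20 x) h1.le
    linarith
  have hμη : ∀ x ∈ Ioo (a - δ) (b + δ),
      η2 x / 2 ≤ (η2 x * (1 - η x) + η1 x ^ 2) / (2 * (1 - η x) ^ 2) := by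
    intro x hx
    have h1 : 0 < 1 - η x := by linarith [hηlt x hx]
    have h3 : 1 - η x ≤ 1 := by linarith [hη0 x]
    rw [le_div_iff₀ (by positivity)]
    have h4 : (1 - η x) ^ 2 ≤ 1 - η x := by nlinarith
    have h5 := mul_le_mul_of_nonneg_left h4 (hη20 x)
    nlinarith [sq_nonneg (η1 x)]
  -- the wall inequality
  have hwall : ∀ p > 0, ∀ x ∈ Ioo (a - δ) (b + δ), ∀ d, 0 < d → x ≤ b + 1 →
      1 ≤ 8 * gam T A B p * d → Λ * F d ≤ η2 x →
      4 * gam T A B p ^ 2 + Real.exp (2 * x) + cw / tt T p ^ 2 ≤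
      (deriv (fun y => deriv η y / (2 * (1 - η y))) x / 32) * (4 * p + 1 / p) := by
    intro p hp x hx d hd hxb h1 h2
    rw [hμd x hx]
    have hlog : 0 < Real.log (1 + 1 / p) := Real.log_pos (by
      have : 0 < 1 / p := by positivity
      linarith)
    have htT : T ≤ tt T p := by
      unfold tt; linarith
    have ht1 : 1 ≤ tt T p := hT.trans htT
    have hγ : 0 < gam T A B p := by
      unfold gam; positivity
    -- lower bound for F d
    have hFd : Real.exp (-(1 + 8 * gam T A B p) ^ (1 / 3 : ℝ)) ≤ F d := by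
      have h3 : 1 / d ≤ 8 * gam T A B p := by
        rw [div_le_iff₀ hd]; exact h1
      refine le_trans ?_ (hF.low d hd)
      apply Real.exp_le_exp.2
      apply neg_le_neg
      apply Real.rpow_le_rpow (by positivity) (by linarith) (by norm_num)
    have hp4 : 1 / 2 * Real.exp (tt T p - T) ≤ 4 * p + 1 / p := by
      have h3 : Real.exp (tt T p - T) = 1 + 1 / p := by
        unfold tt
        rw [add_sub_cancel_left, Real.exp_log]
        positivity
      rw [h3]
      have h4 : 1 / p * p = 1 := by field_simp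
      have h5 : 0 < 1 / p := by positivity
      nlinarith [sq_nonneg (2 * p - 1 / 2), mul_pos hp h5, sq_nonneg (p - 1 / p), sq_nonneg p]
    have hgr := growth T A B hT hA hB0 (Real.exp (2 * (b + 1))) cw hcw hB (tt T p) htT Λ hΛL
    have hgam : A * tt T p ^ 2 + B = gam T A B p := rfl
    rw [hgam] at hgr
    have hex : Real.exp (2 * x) ≤ Real.exp (2 * (b + 1)) := Real.exp_le_exp.2 (by linarith)
    calc 4 * gam T A B p ^ 2 + Real.exp (2 * x) + cw / tt T p ^ 2
        ≤ 4 * gam T A B p ^ 2 + Real.exp (2 * (b + 1)) + cw / tt T p ^ 2 := by linarith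
      _ ≤ Λ / 128 * (Real.exp (tt T p - T) *
            Real.exp (-(1 + 8 * gam T A B p) ^ (1 / 3 : ℝ))) := hgr
      _ ≤ Λ / 128 * (Real.exp (tt T p - T) * F d) := by
          apply mul_le_mul_of_nonneg_left _ (by positivity)
          exact mul_le_mul_of_nonneg_left hFd (Real.exp_pos _).le
      _ = (Λ * F d / 2 / 32) * (1 / 2 * Real.exp (tt T p - T)) := by ring
      _ ≤ (Λ * F d / 2 / 32) * (4 * p + 1 / p) := by
          apply mul_le_mul_of_nonneg_left hp4
          have := hF.pos d hd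
          positivity
      _ ≤ ((η2 x * (1 - η x) + η1 x ^ 2) / (2 * (1 - η x) ^ 2) / 32) * (4 * p + 1 / p) := by
          apply mul_le_mul_of_nonneg_right _ (by positivity)
          have := hμη x hx
          linarith
  -- slope bound
  have hslope : ∀ x ∈ Ioo (a - δ) (b + δ), 1 / 4 ≤ η x →
      (1 / 4) / δ ≤ |η1 x| := by
    intro x hx h1
    have key : ∀ d, d < δ → 1 / 4 ≤ Λ * G d → (1 / 4) / δ ≤ Λ * G1 d := by
      intro d hd h2
      have hd0 : 0 < d := by
        by_contra hcon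
        rw [hG.z d (not_lt.1 hcon)] at h2
        linarith
      have h3 : Λ * G d ≤ Λ * (d * G1 d) := mul_le_mul_of_nonneg_left (hG.slope d) hΛ0.le
      have h4 : d * (Λ * G1 d) ≤ δ * (Λ * G1 d) :=
        mul_le_mul_of_nonneg_right hd.le (mul_nonneg hΛ0.le (hG10 d))
      rw [div_le_iff₀ hδ0]
      nlinarith
    rcases le_or_gt a x with h | h
    · rw [hright x h] at h1
      have h2 := key (x - b) (by linarith [hx.2]) h1
      have h3 : η1 x = Λ * G1 (x - b) := by
        simp only [hη1]; rw [hG.z1 (a - x) (by linarith)]; ring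
      rw [h3]
      exact h2.trans (le_abs_self _)
    · rw [hleft x (by linarith)] at h1
      have h2 := key (a - x) (by linarith [hx.1]) h1
      have h3 : η1 x = -(Λ * G1 (a - x)) := by
        simp only [hη1]; rw [hG.z1 (x - b) (by linarith)]; ring
      rw [h3, abs_neg]
      exact h2.trans (le_abs_self _)
  -- σ
  set σ : ℝ → ℝ := fun x => Real.smoothTransition (3 / 2 - 2 * η x) with hσ
  have hσd : ∀ x, deriv σ x = deriv Real.smoothTransition (3 / 2 - 2 * η x) * (-(2 * η1 x)) := by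
    intro x
    have h1 : HasDerivAt (fun y => 3 / 2 - 2 * η y) (-(2 * η1 x)) x :=
      ((hd1 x).const_mul 2).const_sub _
    have h2 : HasDerivAt Real.smoothTransition
        (deriv Real.smoothTransition (3 / 2 - 2 * η x)) (3 / 2 - 2 * η x) := by
      apply DifferentiableAt.hasDerivAt
      exact (Real.smoothTransition.contDiff (n := 1)).differentiable (by simp) _
    exact (h2.comp x h1).deriv
  have hσ0 : ∀ x, 0 ≤ σ x := fun x => Real.smoothTransition.nonneg _
  have hσ1 : ∀ x, σ x ≤ 1 := fun x => Real.smoothTransition.le_one _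
  have hcondC : ∀ x ∈ Ioo (a - δ) (b + δ),
      (deriv σ x + σ x * (deriv η x / (2 * (1 - η x)))) ^ 2 ≤
      (deriv (fun y => deriv η y / (2 * (1 - η y))) x / 2) *
        (deriv (fun y => deriv η y / (2 * (1 - η y))) x / 2 + σ x ^ 2) := by
    intro x hx
    rw [hμd x hx, hde]
    have h1 : 0 < 1 - η x := by linarith [hηlt x hx]
    set m : ℝ := η1 x / (2 * (1 - η x)) with hm
    set M : ℝ := (η2 x * (1 - η x) + η1 x ^ 2) / (2 * (1 - η x) ^ 2) with hM
    have hmM : m ^ 2 ≤ M / 2 := by linarith [hμ2 x hx]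
    by_cases hcase : deriv σ x = 0
    · rw [hcase, zero_add, mul_pow]
      have := mul_le_mul_of_nonneg_left hmM (sq_nonneg (σ x))
      nlinarith [sq_nonneg (M / 2), mul_nonneg (sq_nonneg (σ x)) (sq_nonneg m), sq_nonneg m]
    · have hη14 : 1 / 4 ≤ η x := by
        by_contra hcon
        apply hcase
        rw [hσd, deriv_st_zero _ (Or.inr (by linarith))]
        simp
      have h2 : |deriv σ x| ≤ 4 * C * |m| := by
        rw [hσd, abs_mul, abs_neg, abs_mul, abs_of_pos (show (0 : ℝ) < 2 by norm_num)]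
        have h3 : |η1 x| ≤ 2 * |m| := by
          rw [hm, abs_div, abs_of_pos (show 0 < 2 * (1 - η x) by positivity)]
          have h4 : |η1 x| = |η1 x| / (2 * (1 - η x)) * (2 * (1 - η x)) := by
            field_simp
          have h5 : 0 ≤ |η1 x| / (2 * (1 - η x)) := by positivity
          have h6 : 2 * (1 - η x) ≤ 2 := by linarith [hη0 x]
          calc |η1 x| = |η1 x| / (2 * (1 - η x)) * (2 * (1 - η x)) := h4
            _ ≤ |η1 x| / (2 * (1 - η x)) * 2 := mul_le_mul_of_nonneg_left h6 h5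
            _ = 2 * (|η1 x| / (2 * (1 - η x))) := by ring
        calc |deriv Real.smoothTransition (3 / 2 - 2 * η x)| * (2 * |η1 x|)
            ≤ C * (2 * (2 * |m|)) := by
              apply mul_le_mul (hC _) _ (by positivity) hC0
              linarith
          _ = 4 * C * |m| := by ring
      have h3 : 4 * C + 1 ≤ |m| := by
        have h4 := hslope x hx hη14
        have h5 : |η1 x| / 2 ≤ |m| := by
          rw [hm, abs_div, abs_of_pos (show 0 < 2 * (1 - η x) by positivity)]
          apply div_le_div_of_nonneg_left (abs_nonneg _) (by positivity)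
          linarith [hη0 x]
        have h6 : 4 * C + 1 ≤ (1 / 4) / δ / 2 := by
          have h7 : (0 : ℝ) < 8 * (4 * C + 1) := by positivity
          rw [le_div_iff₀ h7] at hδleC
          rw [le_div_iff₀ (by norm_num), le_div_iff₀ hδ0]
          linarith
        linarith
      have h4 : |deriv σ x + σ x * m| ≤ (4 * C + 1) * |m| := by
        calc |deriv σ x + σ x * m| ≤ |deriv σ x| + |σ x * m| := abs_add_le _ _
          _ ≤ 4 * C * |m| + 1 * |m| := by
              apply add_le_add h2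
              rw [abs_mul, abs_of_nonneg (hσ0 x)]
              exact mul_le_mul_of_nonneg_right (hσ1 x) (abs_nonneg _)
          _ = (4 * C + 1) * |m| := by ring
      have h5 : |deriv σ x + σ x * m| ≤ m ^ 2 := by
        calc |deriv σ x + σ x * m| ≤ (4 * C + 1) * |m| := h4
          _ ≤ |m| * |m| := mul_le_mul_of_nonneg_right h3 (abs_nonneg _)
          _ = m ^ 2 := by rw [← abs_mul, abs_mul_self]; ring
      have h6 : |deriv σ x + σ x * m| ≤ M / 2 := h5.trans hmM
      have h7 : (deriv σ x + σ x * m) ^ 2 ≤ (M / 2) ^ 2 := by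
        rw [← sq_abs]
        exact pow_le_pow_left₀ (abs_nonneg _) h6 2
      have h8 : 0 ≤ M / 2 := (sq_nonneg m).trans hmM
      have h9 : 0 ≤ M / 2 * σ x ^ 2 := by positivity
      nlinarith
  refine ⟨{ a := a, b := b, a0 := a - δ, b0 := b + δ, r := 1 / (4 * (b - a + 3)), T := T,
            A := A, B := B, cw := cw, η := η, σ := σ, hab := hab, ha0 := by linarith,
            hb0 := by linarith, ha1 := by linarith, hb1 := by linarith, hr := rfl, hT := hT,
            hA := hA, hcw := hcw, hB := hB, hB0 := hB0, ηsm := hηs,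
            σsm := ?_, ηI := ?_, η0 := hη0, ηlt := hηlt, ηa0 := ?_, ηb0 := ?_, ηda0 := ?_,
            ηdb0 := ?_, ηgt := ?_, ηconv := ?_, σI := ?_, σ0 := hσ0, σ1 := hσ1, σz := ?_,
            condC := hcondC, wallb := ?_, walla := ?_ }, rfl, rfl, rfl, rfl, rfl, rfl⟩
  · exact Real.smoothTransition.contDiff.comp (contDiff_const.sub (contDiff_const.mul hηs))
  · intro x hx
    rw [hright x hx.1, hG.z _ (by linarith [hx.2]), mul_zero]
  · rw [hleft _ (by linarith)]
    simpa using hΛG
  · rw [hright _ (by linarith)]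
    simpa using hΛG
  · rw [hde]
    simp only [hη1]
    rw [hG.z1 (a - δ - b) (by linarith)]
    have := mul_pos hΛ0 (hG.pos1 δ hδ0)
    simp only [sub_sub_cancel]
    linarith
  · rw [hde]
    simp only [hη1]
    rw [hG.z1 (a - (b + δ)) (by linarith)]
    have := mul_pos hΛ0 (hG.pos1 δ hδ0)
    simp only [add_sub_cancel_left]
    linarith
  · intro x hx
    rcases hx with hx | hx
    · rw [hleft x (by linarith)]; exact hgt _ (by linarith)
    · rw [hright x (by linarith)]; exact hgt _ (by linarith)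
  · intro x
    rw [hde, hde2]
    exact hη20 x
  · intro x hx
    have : η x = 0 := by rw [hright x hx.1, hG.z _ (by linarith [hx.2]), mul_zero]
    simp only [hσ]
    rw [this]
    exact Real.smoothTransition.one_of_one_le (by norm_num)
  · intro x hx
    exact Real.smoothTransition.zero_of_nonpos (by linarith)
  · intro p hp x hx h1
    refine hwall p hp x ⟨by linarith [hx.1], hx.2⟩ (x - b) (by linarith [hx.1])
      (by linarith [hx.2]) h1 ?_
    simp only [hη2]
    exact mul_le_mul_of_nonneg_left (le_add_of_nonneg_right (hF0 _)) hΛ0.le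
  · intro p hp x hx h1
    refine hwall p hp x ⟨hx.1, by linarith [hx.2]⟩ (a - x) (by linarith [hx.2])
      (by linarith [hx.2]) h1 ?_
    simp only [hη2]
    exact mul_le_mul_of_nonneg_left (le_add_of_nonneg_left (hF0 _)) hΛ0.le

end Wall

theorem exists_wall (a b T A B cw : ℝ) (hab : a < b) (hT : 1 ≤ T) (hA : 0 < A) (hB0 : 0 < B)
    (hcw : 0 < cw) (hB : Real.exp (2 * (b + 1)) + cw ≤ B ^ 2) :
    ∃ D : Prof, D.a = a ∧ D.b = b ∧ D.T = T ∧ D.A = A ∧ D.B = B ∧ D.cw = cw := by
  obtain ⟨F, h1, h2, h3, h4, h5⟩ := exists_flat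
  exact Wall.main F ⟨h1, h2, h3, h4, h5⟩ a b T A B cw hab hT hA hB0 hcw hB

end Pool.Agent.DbarN
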