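import Pool.Agent.DbarN.Geo
import Pool.Agent.DbarN.Abs
import Pool.Agent.DbarN.Graph
import Pool.Agent.DbarN.Parts
import Pool.Agent.DbarN.Ground
import Pool.Agent.DbarN.GSI
import Pool.Agent.DbarN.Tri
import Pool.Agent.DbarN.WALL

set_option autoImplicit false

/-!
# Main theorem

A bounded smooth pseudoconvex domain of `ℂ²` for which the infimum of the spectrum of the
`∂̄`-Neumann Laplacian on `(0,1)`-forms is `1/4` and is not an eigenvalue.
-/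

namespace Pool.Agent.DbarN

open MeasureTheory Complex Set
open scoped ComplexConjugate ContDiff

theorem exists_prof : ∃ D : Prof, D.GSI ∧ D.TRI := by
  obtain ⟨G⟩ := ground_exists
  obtain ⟨T, A, B, cw, hT, hA, hB0, hcw, hB, h⟩ := gsi_ground G
  obtain ⟨D, h1, h2, h3, h4, h5, h6⟩ := exists_wall G.a G.b T A B cw G.hab hT hA hB0 hcw hB
  refine ⟨D, ?_, ?_⟩
  · intro N Ak hAk
    have := h N Ak hAk
    rw [h1, h2, h3, h4, h5, h6]
    exact this
  · have := tri_ground G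
    intro ε hε
    rw [h1, h2]
    exact this ε hε

/-! ## FINAL -/

theorem main_theorem : ∃ Ω : Set (ℂ × ℂ), IsSmoothPsc Ω ∧
    (∀ t ∈ spec Ω, t.im = 0 ∧ 1 / 4 ≤ t.re) ∧ (1 / 4 : ℂ) ∈ spec Ω ∧
    ∀ u : L2F Ω, Box Ω u ((1 / 4 : ℂ) • u) → u = 0 := by
  obtain ⟨D, hG, hT⟩ := exists_prof
  refine ⟨D.Ω, smoothPsc D, ?_⟩
  obtain ⟨GT, hT1, hT2, hT3, hT4⟩ := graph0 D.Ω D.isOpen_Ω
  obtain ⟨GS, hS1, hS2, hS3, hS4⟩ := graph1 D.Ω D.isOpen_Ω
  have hbox : ∀ u v, ABox GT GS u v ↔ Box D.Ω u v := by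
    intro u v
    simp only [ABox, Box, hT1, hS1]
  have key := abs_main GT GS hT2 hS2 hT3 hS3 hT4 hS4
    (fun f a h => (hS1 _ _).2 (dbar_comp D.Ω D.isOpen_Ω f a ((hT1 _ _).1 h)))
    (fun f a h hk h0 => partA D hG f a ((hT1 _ _).1 h)
      (fun f0 hf0 => hk f0 ((hT1 _ _).2 hf0)) h0)
    (fun u c h hk => partB D u c ((hS1 _ _).1 h) (fun u0 hu0 => hk u0 ((hS1 _ _).2 hu0)))
    (fun u h => by
      obtain ⟨f, hf⟩ := partC D hG u ((hS1 _ _).1 h)
      exact ⟨f, (hT1 _ _).2 hf⟩)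
    (fun m hm => by
      obtain ⟨f, u, h1, h2, h3, h4⟩ := partD D hG hT m hm
      exact ⟨f, u, (hT1 _ _).2 h1, fun f0 hf0 => h2 f0 ((hT1 _ _).1 hf0), h3, h4⟩)
  obtain ⟨k1, k2, k3⟩ := key
  refine ⟨?_, ?_, ?_⟩
  · intro t ht
    by_contra hcon
    apply ht
    intro v
    simpa only [hbox] using k1 t hcon v
  · intro hcon
    apply k2
    intro v
    simpa only [hbox] using hcon v
  · intro u hu
    exact k3 u ((hbox _ _).2 hu)

end Pool.Agent.DbarN
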