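import Pool.Agent.DbarN.Defs

set_option autoImplicit false

/-!
# The worm type domain over a thick annulus: profiles, domain, coordinates, test forms
-/

namespace Pool.Agent.DbarN

open MeasureTheory Complex
open scoped ComplexConjugate ContDiff

/-- the effective depth variable -/
noncomputable def tt (T p : ℝ) : ℝ := T + Real.log (1 + 1 / p)

/-- the Dirichlet-to-Neumann bound -/
noncomputable def gam (T A B p : ℝ) : ℝ := A * tt T p ^ 2 + B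

/-- ground state data of `-φ'' = exp (2x) φ` on `[a,b]` -/
structure Ground where
  a : ℝ
  b : ℝ
  φ : ℝ → ℝ
  hab : a < b
  smooth : ContDiff ℝ ∞ φ
  ode : ∀ x, deriv (deriv φ) x = -(Real.exp (2 * x) * φ x)
  za : φ a = 0
  zb : φ b = 0
  pos : ∀ x ∈ Set.Ioo a b, 0 < φ x
  da : 0 < deriv φ a
  db : deriv φ b < 0

/-- profile data of the domain -/
structure Prof where
  /-- inner interval `[a,b]`, outer interval `(a0,b0)` -/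
  a : ℝ
  b : ℝ
  a0 : ℝ
  b0 : ℝ
  r : ℝ
  T : ℝ
  A : ℝ
  B : ℝ
  cw : ℝ
  η : ℝ → ℝ
  σ : ℝ → ℝ
  hab : a < b
  ha0 : a0 < a
  hb0 : b < b0
  ha1 : a - 1 ≤ a0
  hb1 : b0 ≤ b + 1
  hr : r = 1 / (4 * (b - a + 3))
  hT : 1 ≤ T
  hA : 0 < A
  hcw : 0 < cw
  hB : Real.exp (2 * (b + 1)) + cw ≤ B ^ 2
  hB0 : 0 < B
  ηsm : ContDiff ℝ ∞ η
  σsm : ContDiff ℝ ∞ σ
  ηI : ∀ x ∈ Set.Icc a b, η x = 0
  η0 : ∀ x, 0 ≤ η x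
  ηlt : ∀ x ∈ Set.Ioo a0 b0, η x < 1
  ηa0 : η a0 = 1
  ηb0 : η b0 = 1
  ηda0 : deriv η a0 < 0
  ηdb0 : 0 < deriv η b0
  ηgt : ∀ x, x < a0 ∨ b0 < x → 1 < η x
  ηconv : ∀ x, 0 ≤ deriv (deriv η) x
  σI : ∀ x ∈ Set.Icc a b, σ x = 1
  σ0 : ∀ x, 0 ≤ σ x
  σ1 : ∀ x, σ x ≤ 1
  σz : ∀ x, 3 / 4 ≤ η x → σ x = 0
  /-- `(σ' + σ μ)² ≤ (μ'/2) (μ'/2 + σ²)` with `μ = η' / (2 (1 - η))` -/
  condC : ∀ x ∈ Set.Ioo a0 b0,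
    (deriv σ x + σ x * (deriv η x / (2 * (1 - η x)))) ^ 2 ≤
      (deriv (fun y => deriv η y / (2 * (1 - η y))) x / 2) *
        (deriv (fun y => deriv η y / (2 * (1 - η y))) x / 2 + σ x ^ 2)
  /-- steep walls on the right -/
  wallb : ∀ p > 0, ∀ x ∈ Set.Ioo b b0, 1 ≤ 8 * gam T A B p * (x - b) →
    4 * gam T A B p ^ 2 + Real.exp (2 * x) + cw / tt T p ^ 2 ≤
      (deriv (fun y => deriv η y / (2 * (1 - η y))) x / 32) * (4 * p + 1 / p)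
  /-- steep walls on the left -/
  walla : ∀ p > 0, ∀ x ∈ Set.Ioo a0 a, 1 ≤ 8 * gam T A B p * (a - x) →
    4 * gam T A B p ^ 2 + Real.exp (2 * x) + cw / tt T p ^ 2 ≤
      (deriv (fun y => deriv η y / (2 * (1 - η y))) x / 32) * (4 * p + 1 / p)

namespace Prof

variable (D : Prof)

/-- `μ = -(log R)'` -/
noncomputable def μ (x : ℝ) : ℝ := deriv D.η x / (2 * (1 - D.η x))

/-- radius of the fibre disc -/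
noncomputable def R (x : ℝ) : ℝ := D.r * Real.sqrt (1 - D.η x)

/-- phase -/
noncomputable def ϕ (x : ℝ) : ℝ := -∫ s in D.a..x, D.σ s

/-- `τ = R exp (i ϕ)` -/
noncomputable def τ (x : ℝ) : ℂ := (D.R x : ℂ) * exp (I * (D.ϕ x : ℂ))

/-- centre of the fibre disc, `c' = -i σ τ` -/
noncomputable def c (x : ℝ) : ℂ := -I * ∫ s in D.a..x, (D.σ s : ℂ) * D.τ s

/-- logarithmic base coordinate -/
noncomputable def lx (z : ℂ) : ℝ := Real.log ‖z‖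

/-- the base annulus `{z | z ≠ 0, a0 < log |z| < b0}` -/
def base : Set ℂ := {z | z ≠ 0 ∧ lx z ∈ Set.Ioo D.a0 D.b0}

/-- the domain -/
def Ω : Set (ℂ × ℂ) :=
  {p | p.1 ≠ 0 ∧ ‖p.2 - D.c (lx p.1)‖ ^ 2 < D.r ^ 2 * (1 - D.η (lx p.1))}

/-- fibre coordinate `ω = (w - c) / τ` -/
noncomputable def om (p : ℂ × ℂ) : ℂ := (p.2 - D.c (lx p.1)) / D.τ (lx p.1)

/-- `k = |ω|²` -/
noncomputable def kk (p : ℂ × ℂ) : ℂ := D.om p * conj (D.om p)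

/-- the field `V = 2 M τ`, `M = (i σ / 2) (1 - ω²) + μ ω` -/
noncomputable def V (p : ℂ × ℂ) : ℂ :=
  2 * ((I * (D.σ (lx p.1) : ℂ) / 2) * (1 - D.om p ^ 2) + (D.μ (lx p.1) : ℂ) * D.om p) *
    D.τ (lx p.1)

end Prof

/-- `∂ξ/∂z` -/
noncomputable def DZ (ξ : ℂ → ℂ) (z : ℂ) : ℂ := (fderiv ℝ ξ z 1 - I * fderiv ℝ ξ z I) / 2

/-- admissible coefficient families: `y k = 0` for `k ≥ N`, smooth, compactly supported in the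
base annulus -/
structure Adm (D : Prof) (N : ℕ) (y : ℕ → ℂ → ℂ) : Prop where
  zero : ∀ k, N ≤ k → y k = 0
  smooth : ∀ k, ContDiff ℝ ∞ (y k)
  compact : ∀ k, HasCompactSupport (y k)
  supp : ∀ k, tsupport (y k) ⊆ D.base

/-- the test form `(∑ y_k(z) (1 + ω)^k) / (|z|² τ)` -/
noncomputable def tf (D : Prof) (N : ℕ) (y : ℕ → ℂ → ℂ) (p : ℂ × ℂ) : ℂ :=
  (∑ k ∈ Finset.range N, y k p.1 * (1 + D.om p) ^ k) /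
    (((‖p.1‖ ^ 2 : ℝ) : ℂ) * D.τ (Prof.lx p.1))

/-- coefficients of the adjoint operator:
`D_j = -2 z ∂y_j/∂z + (j+1) ((μ + iσ) y_j - μ y_{j+1} - iσ y_{j-1})` -/
noncomputable def dd (D : Prof) (y : ℕ → ℂ → ℂ) (j : ℕ) (z : ℂ) : ℂ :=
  -2 * z * DZ (y j) z + ((j : ℂ) + 1) *
    (((D.μ (Prof.lx z) : ℂ) + I * (D.σ (Prof.lx z) : ℂ)) * y j z
      - (D.μ (Prof.lx z) : ℂ) * y (j + 1) z
      - I * (D.σ (Prof.lx z) : ℂ) * (if j = 0 then 0 else y (j - 1) z))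

/-- `X† tf` -/
noncomputable def tfD (D : Prof) (N : ℕ) (y : ℕ → ℂ → ℂ) (p : ℂ × ℂ) : ℂ :=
  (∑ j ∈ Finset.range (N + 1), dd D y j p.1 * (1 + D.om p) ^ j) /
    (((‖p.1‖ ^ 2 : ℝ) : ℂ) * D.τ (Prof.lx p.1))

/-- the Laguerre-Laplace basis `g_k(p) = √π 2^{k+1} p^{k+1} e^{-p} / (k+1)!` -/
noncomputable def gk (k : ℕ) (p : ℝ) : ℝ :=
  Real.sqrt Real.pi * 2 ^ (k + 1) * p ^ (k + 1) * Real.exp (-p) / (k + 1).factorial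

/-- `U / √p` as a function of `(x, φ, p)` where `U = e^{-x} ∑ y_k(e^{x+iφ}) g_k(p)` -/
noncomputable def UU (N : ℕ) (y : ℕ → ℂ → ℂ) (s : ℝ × ℝ × ℝ) : ℂ :=
  (∑ k ∈ Finset.range N, y k (exp ((s.1 : ℂ) + I * (s.2.1 : ℂ))) * (gk k s.2.2 : ℂ)) *
    ((Real.exp (-s.1) / Real.sqrt s.2.2 : ℝ) : ℂ)

/-- the angular-radial parameter space `(-π,π) × (0,∞)` -/
def S2 : Set (ℝ × ℝ) := Set.Ioo (-Real.pi) Real.pi ×ˢ Set.Ioi 0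

/-- `(l,m) × (-π,π) × (0,∞)` -/
def S3 (l m : ℝ) : Set (ℝ × ℝ × ℝ) := Set.Ioo l m ×ˢ S2

/-- the parameter space `(a0,b0) × (-π,π) × (0,∞)` -/
def SS (D : Prof) : Set (ℝ × ℝ × ℝ) := S3 D.a0 D.b0

/-! ### the Laguerre side: `U = ∑ A_k(x,φ) g_k(p)` and its derivatives, `s = (x,φ,p)` -/

/-- smooth coefficients, `2π`-periodic in `φ` -/
structure AC (A : ℕ → ℝ → ℝ → ℂ) : Prop where
  smooth : ∀ k, ContDiff ℝ ∞ (fun q : ℝ × ℝ => A k q.1 q.2)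
  per : ∀ k x φ, A k x (φ + 2 * Real.pi) = A k x φ

noncomputable def U (N : ℕ) (A : ℕ → ℝ → ℝ → ℂ) (s : ℝ × ℝ × ℝ) : ℂ :=
  ∑ k ∈ Finset.range N, A k s.1 s.2.1 * (gk k s.2.2 : ℂ)

noncomputable def Ux (N : ℕ) (A : ℕ → ℝ → ℝ → ℂ) (s : ℝ × ℝ × ℝ) : ℂ :=
  ∑ k ∈ Finset.range N, deriv (fun x => A k x s.2.1) s.1 * (gk k s.2.2 : ℂ)

noncomputable def Uf (N : ℕ) (A : ℕ → ℝ → ℝ → ℂ) (s : ℝ × ℝ × ℝ) : ℂ :=
  ∑ k ∈ Finset.range N, deriv (fun φ => A k s.1 φ) s.2.1 * (gk k s.2.2 : ℂ)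

noncomputable def Up (N : ℕ) (A : ℕ → ℝ → ℝ → ℂ) (s : ℝ × ℝ × ℝ) : ℂ :=
  ∑ k ∈ Finset.range N, A k s.1 s.2.1 * ((deriv (gk k) s.2.2 : ℝ) : ℂ)

noncomputable def Upp (N : ℕ) (A : ℕ → ℝ → ℝ → ℂ) (s : ℝ × ℝ × ℝ) : ℂ :=
  ∑ k ∈ Finset.range N, A k s.1 s.2.1 * ((deriv (deriv (gk k)) s.2.2 : ℝ) : ℂ)

/-- `∇U = ∂_x U + i σ p U` -/
noncomputable def nab (D : Prof) (N : ℕ) (A : ℕ → ℝ → ℝ → ℂ) (s : ℝ × ℝ × ℝ) : ℂ :=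
  Ux N A s + I * (D.σ s.1 : ℂ) * (s.2.2 : ℂ) * U N A s

/-- `BU = i ∂_φ U - U + i σ p ∂_p U + (μ/2) p (U - ∂_p² U)` -/
noncomputable def BB (D : Prof) (N : ℕ) (A : ℕ → ℝ → ℝ → ℂ) (s : ℝ × ℝ × ℝ) : ℂ :=
  I * Uf N A s - U N A s + I * (D.σ s.1 : ℂ) * (s.2.2 : ℂ) * Up N A s +
    (D.μ s.1 : ℂ) / 2 * (s.2.2 : ℂ) * (U N A s - Upp N A s)

/-- curvature density -/
noncomputable def Theta (D : Prof) (N : ℕ) (A : ℕ → ℝ → ℝ → ℂ) (s : ℝ × ℝ × ℝ) : ℝ :=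
  (deriv D.μ s.1 / 2 + D.σ s.1 ^ 2) * ‖U N A s‖ ^ 2 + deriv D.μ s.1 / 2 * ‖Up N A s‖ ^ 2 +
    (deriv D.σ s.1 + D.σ s.1 * D.μ s.1) * (I * Up N A s * conj (U N A s)).re

/-- the ground state inequality over the inner interval -/
def Prof.GSI (D : Prof) : Prop :=
  ∀ (N : ℕ) (A : ℕ → ℝ → ℝ → ℂ), AC A →
    (∫ s in S3 D.a D.b, (Real.exp (2 * s.1) + D.cw / tt D.T s.2.2 ^ 2) * ‖U N A s‖ ^ 2 / s.2.2)
      - ∫ q in S2, gam D.T D.A D.B q.2 *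
          (‖U N A (D.b, q)‖ ^ 2 + ‖U N A (D.a, q)‖ ^ 2) / q.2
    ≤ ∫ s in S3 D.a D.b,
        (‖Ux N A s + I * (s.2.2 : ℂ) * U N A s‖ ^ 2 / s.2.2 +
          ‖I * Uf N A s - U N A s + I * (s.2.2 : ℂ) * Up N A s‖ ^ 2 / s.2.2 +
          1 / 4 * ‖U N A s‖ ^ 2)

/-- trial functions on the inner interval -/
def Prof.TRI (D : Prof) : Prop :=
  ∀ ε > 0, ∃ ζ : ℝ → ℝ, ContDiff ℝ ∞ ζ ∧ HasCompactSupport ζ ∧ tsupport ζ ⊆ Set.Ioo D.a D.b ∧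
    0 < ∫ x, Real.exp (2 * x) * ζ x ^ 2 ∧
    ∫ x, deriv ζ x ^ 2 < (1 + ε) * ∫ x, Real.exp (2 * x) * ζ x ^ 2

/-! ### nice functions on `Ω`, formal adjoint -/

/-- `∂φ/∂z₁` -/
noncomputable def dz (φ : ℂ × ℂ → ℂ) (p : ℂ × ℂ) : ℂ :=
  (fderiv ℝ φ p (1, 0) - I * fderiv ℝ φ p (I, 0)) / 2

/-- `∂φ/∂z₂` -/
noncomputable def dw (φ : ℂ × ℂ → ℂ) (p : ℂ × ℂ) : ℂ :=
  (fderiv ℝ φ p (0, 1) - I * fderiv ℝ φ p (0, I)) / 2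

/-- the union of the closed fibre discs over the base annulus -/
def Prof.Ωc (D : Prof) : Set (ℂ × ℂ) := {p | p.1 ∈ D.base ∧ ‖D.om p‖ ≤ 1}

/-- smooth up to the fibre boundaries, compactly supported in the base -/
structure Nice (D : Prof) (φ : ℂ × ℂ → ℂ) : Prop where
  smooth : ∃ W, IsOpen W ∧ D.Ωc ⊆ W ∧ ContDiffOn ℝ ∞ φ W
  supp : ∃ K, K ⊆ D.base ∧ IsCompact K ∧ ∀ p : ℂ × ℂ, p.1 ∉ K → φ p = 0

/-- `X† g = -∂_z (2 z g) + ∂_w (V g)` -/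
noncomputable def Xd (D : Prof) (g : ℂ × ℂ → ℂ) (p : ℂ × ℂ) : ℂ :=
  -dz (fun q => 2 * q.1 * g q) p + dw (fun q => D.V q * g q) p

/-- closed span of the `X† tf` in `L²(Ω)` -/
noncomputable def RR (D : Prof) : Submodule ℂ (L2 D.Ω) :=
  (Submodule.span ℂ {g : L2 D.Ω | ∃ N y, Adm D N y ∧
    (g : ℂ × ℂ → ℂ) =ᵐ[volume.restrict D.Ω] tfD D N y}).topologicalClosure

end Pool.Agent.DbarN
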